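import Pool.Agent.MP_6cbfb8_an.Main

/-!
Superpositions of modulated and rotated densities.
-/

namespace Pool.Agent.MP_6cbfb8_an

open MeasureTheory Set
open scoped ENNReal Real RealInnerProductSpace

section

variable {n : ℕ} {W : Type*} [MeasurableSpace W]

lemma measurable_extn_param (h : W → E n → ℂ) (hh : Measurable (Function.uncurry h)) :
    Measurable fun q : W × E n => extn (h q.1) q.2 := by
  unfold extn
  have h1 : Measurable fun x : (W × E n) × S n => h x.1.1 (x.2 : E n) *
      Complex.exp (((-(2 * π * inner ℝ (x.2 : E n) x.1.2) : ℝ) : ℂ) * Complex.I) := by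
    have h2 : Measurable fun x : (W × E n) × S n => h x.1.1 (x.2 : E n) :=
      hh.comp (f := fun x : (W × E n) × S n => (x.1.1, (x.2 : E n))) (by fun_prop)
    have h3 : Measurable fun x : (W × E n) × S n => (inner ℝ (x.2 : E n) x.1.2 : ℝ) := by
      have h4 : Measurable fun x : (W × E n) × S n => (x.2 : E n) := by fun_prop
      have h5 : Measurable fun x : (W × E n) × S n => x.1.2 := by fun_prop
      exact h4.inner h5
    exact h2.mul (by fun_prop)
  exact (h1.stronglyMeasurable.integral_prod_right' (ν := sm n)).measurable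

lemma extn_isometry (g : E n → ℂ) (R : E n ≃ₗᵢ[ℝ] E n) (ζ : E n) :
    ∫ x : S n, g (R x) * Complex.exp (((-(2 * π * inner ℝ (x : E n) ζ) : ℝ) : ℂ) * Complex.I) ∂(sm n)
      = extn g (R ζ) := by
  unfold extn
  have hme : MeasurableEmbedding (fun x : S n => (⟨R x, by simp⟩ : S n)) := by
    have h1 : Continuous (fun x : S n => (⟨R x, by simp⟩ : S n)) :=
      (R.continuous.comp continuous_subtype_val).subtype_mk _
    refine h1.measurableEmbedding ?_
    intro a b hab
    have : R (a : E n) = R (b : E n) := congrArg Subtype.val hab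
    exact Subtype.ext (R.injective this)
  have h := (measurePreserving_isometry R).integral_comp hme
    (fun x : S n => g x * Complex.exp (((-(2 * π * inner ℝ (x : E n) (R ζ)) : ℝ) : ℂ) * Complex.I))
  rw [← h]
  refine integral_congr_ae (Filter.Eventually.of_forall fun x => ?_)
  simp only
  rw [R.inner_map_map]

lemma extn_mix (ν : Measure W) [IsFiniteMeasure ν] (R : W → (E n ≃ₗᵢ[ℝ] E n)) (η : W → E n)
    (h : W → E n → ℂ) (hR : Measurable fun q : W × E n => R q.1 q.2) (hη : Measurable η)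
    (hh : Measurable (Function.uncurry h)) (hb : ∀ w x, ‖h w x‖ ≤ 1) (ξ : E n) :
    extn (mix ν R η h) ξ = ∫ w, extn (h w) (R w (ξ - η w)) ∂ν := by
  have hm : Measurable fun q : S n × W => h q.2 (R q.2 (q.1 : E n)) *
      Complex.exp (((-(2 * π * inner ℝ (q.1 : E n) (ξ - η q.2)) : ℝ) : ℂ) * Complex.I) := by
    have h0 : Measurable fun q : S n × W => R q.2 (q.1 : E n) :=
      hR.comp (f := fun q : S n × W => (q.2, (q.1 : E n))) (by fun_prop)
    have h2 : Measurable fun q : S n × W => h q.2 (R q.2 (q.1 : E n)) :=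
      hh.comp (f := fun q : S n × W => (q.2, R q.2 (q.1 : E n))) (measurable_snd.prodMk h0)
    have h3 : Measurable fun q : S n × W => (inner ℝ (q.1 : E n) (ξ - η q.2) : ℝ) := by
      have h4 : Measurable fun q : S n × W => (q.1 : E n) := by fun_prop
      have h5 : Measurable fun q : S n × W => ξ - η q.2 := by fun_prop
      exact h4.inner h5
    exact h2.mul (by fun_prop)
  calc extn (mix ν R η h) ξ = ∫ x : S n, (∫ w, h w (R w (x : E n)) *
      Complex.exp (((-(2 * π * inner ℝ (x : E n) (ξ - η w)) : ℝ) : ℂ) * Complex.I) ∂ν) ∂(sm n) := by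
        unfold extn mix
        refine integral_congr_ae (Filter.Eventually.of_forall fun x => ?_)
        simp only
        rw [← integral_mul_const]
        refine integral_congr_ae (Filter.Eventually.of_forall fun w => ?_)
        simp only
        rw [mul_comm (Complex.exp _) (h w _), mul_assoc, ← Complex.exp_add]
        congr 2
        rw [inner_sub_right]
        push_cast
        ring
    _ = ∫ w, (∫ x : S n, h w (R w (x : E n)) *
      Complex.exp (((-(2 * π * inner ℝ (x : E n) (ξ - η w)) : ℝ) : ℂ) * Complex.I) ∂(sm n)) ∂ν := by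
        refine integral_integral_swap ?_
        refine Integrable.of_bound hm.aestronglyMeasurable 1 (Filter.Eventually.of_forall fun q => ?_)
        simp only [Function.uncurry]
        rw [norm_mul, norm_phase, mul_one]
        exact hb _ _
    _ = _ := by
        refine integral_congr_ae (Filter.Eventually.of_forall fun w => ?_)
        exact extn_isometry (h w) (R w) (ξ - η w)

theorem lintegral_mix_le {p : ℝ} (hp : 1 ≤ p) {C : ℝ≥0∞} (cls : (E n → ℂ) → Prop)
    (H : ∀ g, Measurable g → (∀ x, ‖g x‖ ≤ 1) → cls g → ∫⁻ ξ, ‖extn g ξ‖ₑ ^ p ≤ C)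
    (ν : Measure W) [IsFiniteMeasure ν] (R : W → (E n ≃ₗᵢ[ℝ] E n)) (η : W → E n)
    (h : W → E n → ℂ) (hR : Measurable fun q : W × E n => R q.1 q.2) (hη : Measurable η)
    (hh : Measurable (Function.uncurry h)) (hb : ∀ w x, ‖h w x‖ ≤ 1) (hc : ∀ w, cls (h w)) :
    ∫⁻ ξ, ‖extn (mix ν R η h) ξ‖ₑ ^ p ≤ C * ν univ ^ p := by
  have hp0 : 0 < p := by linarith
  have hF : Measurable fun q : W × E n => extn (h q.1) q.2 := measurable_extn_param h hh
  have hFR : Measurable fun q : E n × W => extn (h q.2) (R q.2 (q.1 - η q.2)) := by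
    have h1 : Measurable fun q : E n × W => R q.2 (q.1 - η q.2) :=
      hR.comp (f := fun q : E n × W => (q.2, q.1 - η q.2)) (by fun_prop)
    exact hF.comp (f := fun q : E n × W => (q.2, R q.2 (q.1 - η q.2))) (measurable_snd.prodMk h1)
  have hFRw : ∀ ξ, Measurable fun w => extn (h w) (R w (ξ - η w)) := fun ξ =>
    hFR.comp (f := fun w : W => (ξ, w)) (by fun_prop)
  calc ∫⁻ ξ, ‖extn (mix ν R η h) ξ‖ₑ ^ p
      ≤ ∫⁻ ξ, ν univ ^ (p - 1) * ∫⁻ w, ‖extn (h w) (R w (ξ - η w))‖ₑ ^ p ∂ν := by
        refine lintegral_mono fun ξ => ?_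
        simp only
        rw [extn_mix ν R η h hR hη hh hb ξ]
        calc ‖∫ w, extn (h w) (R w (ξ - η w)) ∂ν‖ₑ ^ p
            ≤ (∫⁻ w, 1 * ‖extn (h w) (R w (ξ - η w))‖ₑ ∂ν) ^ p := by
              refine ENNReal.rpow_le_rpow ?_ hp0.le
              simp only [one_mul]
              exact enorm_integral_le_lintegral_enorm _
          _ ≤ (∫⁻ _w, 1 ∂ν) ^ (p - 1) * ∫⁻ w, 1 * ‖extn (h w) (R w (ξ - η w))‖ₑ ^ p ∂ν :=
              holder_weight ν (fun _ => 1) _ measurable_const (hFRw ξ).enorm hp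
          _ = _ := by simp
    _ = ν univ ^ (p - 1) * ∫⁻ w, (∫⁻ ξ, ‖extn (h w) (R w (ξ - η w))‖ₑ ^ p) ∂ν := by
        have hm : Measurable fun q : E n × W => ‖extn (h q.2) (R q.2 (q.1 - η q.2))‖ₑ ^ p :=
          hFR.enorm.pow_const p
        rw [lintegral_const_mul _ hm.lintegral_prod_right']
        rw [lintegral_lintegral_swap
          (f := fun (ξ : E n) (w : W) => ‖extn (h w) (R w (ξ - η w))‖ₑ ^ p) hm.aemeasurable]
    _ ≤ ν univ ^ (p - 1) * ∫⁻ _w, C ∂ν := by
        refine mul_le_mul' le_rfl (lintegral_mono fun w => ?_)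
        have hm1 : Measurable fun ζ : E n => ‖extn (h w) ζ‖ₑ ^ p :=
          (hF.comp (f := fun ζ : E n => (w, ζ)) (by fun_prop)).enorm.pow_const p
        calc ∫⁻ ξ, ‖extn (h w) (R w (ξ - η w))‖ₑ ^ p = ∫⁻ ξ, ‖extn (h w) (R w ξ)‖ₑ ^ p :=
              lintegral_sub_right_eq_self (fun ξ => ‖extn (h w) (R w ξ)‖ₑ ^ p) (η w)
          _ = ∫⁻ ζ, ‖extn (h w) ζ‖ₑ ^ p := (R w).measurePreserving.lintegral_comp hm1
          _ ≤ C := H (h w) (hh.comp (f := fun x : E n => (w, x)) (by fun_prop)) (hb w) (hc w)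
    _ = C * (ν univ ^ (p - 1) * ν univ ^ (1:ℝ)) := by
        rw [lintegral_const, ENNReal.rpow_one]; ring
    _ = C * ν univ ^ p := by
        rw [← ENNReal.rpow_add_of_nonneg _ _ (by linarith) (by norm_num)]
        congr 2
        ring

end

end Pool.Agent.MP_6cbfb8_an
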