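import Pool.Agent.MP_6cbfb8_an.Aux0

/-!
Definitions for lifting densities from the sphere of `R^(k+1)` to the sphere of `R^(k+l)`.
-/

namespace Pool.Agent.MP_6cbfb8_an

open MeasureTheory Set
open scoped ENNReal Real

/-- The point `(x, y)` of `R^(k+l)`. -/
noncomputable def bj {k l : ℕ} (x : E k) (y : E l) : E (k + l) :=
  WithLp.toLp 2 (Fin.append (fun i => x i) (fun i => y i))

/-- The first `k` coordinates of a point of `R^(k+l)`. -/
noncomputable def fstE {k l : ℕ} (x : E (k + l)) : E k :=
  WithLp.toLp 2 fun i => x (Fin.castAdd l i)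

/-- The last `l` coordinates of a point of `R^(k+l)`. -/
noncomputable def sndE {k l : ℕ} (x : E (k + l)) : E l :=
  WithLp.toLp 2 fun i => x (Fin.natAdd k i)

/-- The function `G(x', |x''|)` of `x = (x', x'')` in `R^k × R^l`, for a function `G` on
`R^(k+1)`. -/
noncomputable def lift {k l : ℕ} (G : E (k + 1) → ℂ) (x : E (k + l)) : ℂ :=
  G (join (fstE x) ‖(sndE x : E l)‖)

/-- The function `G` times the `j`-th power of the last coordinate on the half space where the
last coordinate is positive, zero elsewhere. -/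
noncomputable def tpow {k : ℕ} (j : ℕ) (G : E (k + 1) → ℂ) (x : E (k + 1)) : ℂ :=
  if 0 < x (Fin.last k) then G x * (((x (Fin.last k)) ^ j : ℝ) : ℂ) else 0

end Pool.Agent.MP_6cbfb8_an
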