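import Pool.Agent.MP_6cbfb8_an.Sphere
import Pool.Agent.MP_6cbfb8_an.LiftDefs

/-!
The decomposition `R^(k+l) = R^k x R^l`: basic lemmas (task A of the lifting theorem).
-/

namespace Pool.Agent.MP_6cbfb8_an

open MeasureTheory Set
open scoped ENNReal Real RealInnerProductSpace

theorem liftA_bj_castAdd {k l : ℕ} (x : E k) (y : E l) (i : Fin k) :
    bj x y (Fin.castAdd l i) = x i := by
  simp [bj]

theorem liftA_bj_natAdd {k l : ℕ} (x : E k) (y : E l) (i : Fin l) :
    bj x y (Fin.natAdd k i) = y i := by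
  simp [bj]

theorem inner_bj {k l : ℕ} (x x' : E k) (y y' : E l) :
    inner ℝ (bj x y) (bj x' y') = inner ℝ x x' + inner ℝ y y' := by
  rw [PiLp.inner_apply, PiLp.inner_apply, PiLp.inner_apply, Fin.sum_univ_add]
  simp only [liftA_bj_castAdd, liftA_bj_natAdd]

theorem fstE_bj {k l : ℕ} (x : E k) (y : E l) : fstE (bj x y) = x := by
  ext i
  exact liftA_bj_castAdd x y i

theorem sndE_bj {k l : ℕ} (x : E k) (y : E l) : sndE (bj x y) = y := by
  ext i
  exact liftA_bj_natAdd x y i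

theorem bj_fst_snd {k l : ℕ} (x : E (k + l)) : bj (fstE x) (sndE x : E l) = x := by
  ext i
  refine Fin.addCases (fun j => ?_) (fun j => ?_) i
  · rw [liftA_bj_castAdd]; rfl
  · rw [liftA_bj_natAdd]; rfl

theorem continuous_bj {k l : ℕ} : Continuous fun q : E k × E l => bj q.1 q.2 := by
  unfold bj
  refine (PiLp.continuous_toLp 2 _).comp ?_
  refine continuous_pi fun i => ?_
  refine Fin.addCases (fun j => ?_) (fun j => ?_) i
  · simp only [Fin.append_left]
    exact (EuclideanSpace.proj j : E k →L[ℝ] ℝ).continuous.comp continuous_fst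
  · simp only [Fin.append_right]
    exact (EuclideanSpace.proj j : E l →L[ℝ] ℝ).continuous.comp continuous_snd

theorem liftA_smul_bj {k l : ℕ} (c : ℝ) (x : E k) (y : E l) :
    c • bj x y = bj (c • x) (c • y) := by
  ext i
  refine Fin.addCases (fun j => ?_) (fun j => ?_) i
  · rw [liftA_bj_castAdd, PiLp.smul_apply, liftA_bj_castAdd, PiLp.smul_apply]
  · rw [liftA_bj_natAdd, PiLp.smul_apply, liftA_bj_natAdd, PiLp.smul_apply]

theorem liftA_norm_bj_sq {k l : ℕ} (x : E k) (y : E l) : ‖bj x y‖ ^ 2 = ‖x‖ ^ 2 + ‖y‖ ^ 2 := by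
  rw [← real_inner_self_eq_norm_sq, ← real_inner_self_eq_norm_sq, ← real_inner_self_eq_norm_sq,
    inner_bj]

theorem liftA_append (k l : ℕ) :
    MeasurePreserving (fun q : (Fin k → ℝ) × (Fin l → ℝ) => (Fin.append q.1 q.2 : Fin (k + l) → ℝ))
      volume volume := by
  have h1 := (volume_measurePreserving_sumPiEquivProdPi (fun _ : Fin k ⊕ Fin l => ℝ)).symm
  have h2 := volume_measurePreserving_piCongrLeft (fun _ : Fin (k + l) => ℝ)
    (finSumFinEquiv (m := k) (n := l))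
  have h3 := h2.comp h1
  have e : (fun q : (Fin k → ℝ) × (Fin l → ℝ) => (Fin.append q.1 q.2 : Fin (k + l) → ℝ)) =
    (MeasurableEquiv.piCongrLeft (fun _ : Fin (k + l) => ℝ) (finSumFinEquiv (m := k) (n := l))) ∘
      (MeasurableEquiv.sumPiEquivProdPi (fun _ : Fin k ⊕ Fin l => ℝ)).symm := by
    funext q i
    refine Fin.addCases (fun j => ?_) (fun j => ?_) i
    · rw [Fin.append_left]
      have := Equiv.piCongrLeft_apply_apply (P := fun _ : Fin (k + l) => ℝ)
        (finSumFinEquiv (m := k) (n := l))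
        ((MeasurableEquiv.sumPiEquivProdPi (fun _ : Fin k ⊕ Fin l => ℝ)).symm q) (Sum.inl j)
      exact this.symm
    · rw [Fin.append_right]
      have := Equiv.piCongrLeft_apply_apply (P := fun _ : Fin (k + l) => ℝ)
        (finSumFinEquiv (m := k) (n := l))
        ((MeasurableEquiv.sumPiEquivProdPi (fun _ : Fin k ⊕ Fin l => ℝ)).symm q) (Sum.inr j)
      exact this.symm
  rw [e]
  exact h3

theorem lintegral_bj (k l : ℕ) (F : E (k + l) → ℝ≥0∞) (hF : Measurable F) :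
    ∫⁻ x, F x = ∫⁻ y : E k, ∫⁻ z : E l, F (bj y z) := by
  have h1 := PiLp.volume_preserving_toLp (Fin (k + l))
  have h2 := liftA_append k l
  have h3 := PiLp.volume_preserving_toLp (Fin k)
  have h4 := PiLp.volume_preserving_toLp (Fin l)
  have m1 : Measurable fun q : E k × E l => F (bj q.1 q.2) :=
    hF.comp continuous_bj.measurable
  rw [← h1.lintegral_comp hF]
  have m2 : Measurable fun f : Fin (k + l) → ℝ => F (WithLp.toLp 2 f) := hF.comp h1.measurable
  rw [← h2.lintegral_comp m2]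
  have m3 : Measurable fun q : (Fin k → ℝ) × (Fin l → ℝ) =>
      F (WithLp.toLp 2 (Fin.append q.1 q.2 : Fin (k + l) → ℝ)) := m2.comp h2.measurable
  have m4 : Measurable fun y : E k => ∫⁻ z : E l, F (bj y z) := m1.lintegral_prod_right'
  rw [← h3.lintegral_comp m4, Measure.volume_eq_prod, lintegral_prod _ m3.aemeasurable]
  refine lintegral_congr fun y => ?_
  have m5 : Measurable fun z : E l => F (bj (WithLp.toLp 2 y) z) := by
    have h0 : Measurable fun z : E l => ((WithLp.toLp 2 y, z) : E k × E l) := by fun_prop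
    exact m1.comp h0
  rw [← h4.lintegral_comp m5]
  rfl

/-- the radial test function -/
noncomputable def liftA_rad {n : ℕ} (F : E n → ℝ≥0∞) (x : E n) : ℝ≥0∞ :=
  (Iio (1:ℝ)).indicator 1 ‖x‖ * F (‖x‖⁻¹ • x)

theorem liftA_measurable_rad {n : ℕ} {F : E n → ℝ≥0∞} (hF : Measurable F) :
    Measurable (liftA_rad F) := by
  unfold liftA_rad
  have h2 : Measurable fun x : E n => (‖x‖⁻¹ • x) := by fun_prop
  have h3 : Measurable fun x : E n => (Iio (1:ℝ)).indicator (1 : ℝ → ℝ≥0∞) ‖x‖ :=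
    (measurable_one.indicator measurableSet_Iio).comp measurable_norm
  exact h3.mul (hF.comp h2)

theorem liftA_rad_smul {n : ℕ} (F : E n → ℝ≥0∞) {x : E n} (hx : ‖x‖ = 1) {r : ℝ} (hr : 0 < r) :
    liftA_rad F (r • x) = (Iio (1:ℝ)).indicator 1 r * F x := by
  have h2 : ‖r • x‖ = r := by rw [norm_smul, hx, mul_one, Real.norm_of_nonneg hr.le]
  unfold liftA_rad
  rw [h2, smul_smul, inv_mul_cancel₀ hr.ne', one_smul]

theorem liftA_norm_one {k l : ℕ} (θ : ℝ) (ω : S k) (η : S l) :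
    ‖bj (Real.sin θ • (ω : E k)) (Real.cos θ • (η : E l))‖ = 1 := by
  have h1 : ‖bj (Real.sin θ • (ω : E k)) (Real.cos θ • (η : E l))‖ ^ 2 = 1 := by
    rw [liftA_norm_bj_sq, norm_smul, norm_smul]
    have e1 : ‖(ω : E k)‖ = 1 := by simp
    have e2 : ‖(η : E l)‖ = 1 := by simp
    rw [e1, e2, mul_one, mul_one, Real.norm_eq_abs, Real.norm_eq_abs, sq_abs, sq_abs,
      Real.sin_sq_add_cos_sq]
  nlinarith [norm_nonneg (bj (Real.sin θ • (ω : E k)) (Real.cos θ • (η : E l)))]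

/-- the polar decomposition in the quarter plane -/
theorem liftA_planar (k l : ℕ) (F : E ((k + 1) + (l + 1)) → ℝ≥0∞) (hF : Measurable F)
    (ω : S (k + 1)) (η : S (l + 1)) :
    ∫⁻ q : ℝ × ℝ in (Ioi 0) ×ˢ (Ioi 0), liftA_rad F (bj (q.2 • (ω : E (k + 1)))
      (q.1 • (η : E (l + 1)))) * (ENNReal.ofReal (q.2 ^ k) * ENNReal.ofReal (q.1 ^ l)) =
      ENNReal.ofReal (1 / ((k + 1 + l : ℕ) + 1)) * ∫⁻ θ in Ioo 0 (π / 2),
        ENNReal.ofReal (Real.sin θ ^ k * Real.cos θ ^ l) *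
        F (bj (Real.sin θ • (ω : E (k + 1))) (Real.cos θ • (η : E (l + 1)))) := by
  have m0 : Measurable (liftA_rad F) := liftA_measurable_rad hF
  have c1 : Continuous fun q : ℝ × ℝ => bj (q.2 • (ω : E (k + 1))) (q.1 • (η : E (l + 1))) := by
    have : Continuous fun q : ℝ × ℝ =>
        ((q.2 • (ω : E (k + 1)), q.1 • (η : E (l + 1))) : E (k + 1) × E (l + 1)) := by
      fun_prop
    exact continuous_bj.comp this
  have m1 : Measurable fun q : ℝ × ℝ => liftA_rad F
      (bj (q.2 • (ω : E (k + 1))) (q.1 • (η : E (l + 1)))) := m0.comp c1.measurable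
  set f : ℝ × ℝ → ℝ≥0∞ := ((Ioi (0:ℝ)) ×ˢ (Ioi (0:ℝ))).indicator fun q =>
    liftA_rad F (bj (q.2 • (ω : E (k + 1))) (q.1 • (η : E (l + 1)))) *
      (ENNReal.ofReal (q.2 ^ k) * ENNReal.ofReal (q.1 ^ l)) with hf
  have ms : MeasurableSet ((Ioi (0:ℝ)) ×ˢ (Ioi (0:ℝ))) := measurableSet_Ioi.prod measurableSet_Ioi
  rw [← lintegral_indicator ms, ← hf, ← lintegral_comp_polarCoord_symm]
  have e2 : ∫⁻ p : ℝ × ℝ in polarCoord.target, ENNReal.ofReal p.1 • f (polarCoord.symm p) =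
      ∫⁻ p : ℝ × ℝ in polarCoord.target, ((Iio (1:ℝ)).indicator 1 p.1 *
        ENNReal.ofReal (p.1 ^ (k + 1 + l))) * ((Ioo 0 (π / 2)).indicator (fun θ =>
        ENNReal.ofReal (Real.sin θ ^ k * Real.cos θ ^ l) *
        F (bj (Real.sin θ • (ω : E (k + 1))) (Real.cos θ • (η : E (l + 1))))) p.2) := by
    refine setLIntegral_congr_fun polarCoord.open_target.measurableSet fun p hp => ?_
    rw [polarCoord_target] at hp
    obtain ⟨hr, hθ⟩ := hp
    simp only [mem_Ioi] at hr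
    have hsym : polarCoord.symm p = (p.1 * Real.cos p.2, p.1 * Real.sin p.2) := rfl
    simp only [hsym, hf, smul_eq_mul]
    by_cases h : p.2 ∈ Ioo 0 (π / 2)
    · have hs : 0 < Real.sin p.2 := Real.sin_pos_of_mem_Ioo ⟨h.1, by linarith [h.2, Real.pi_pos]⟩
      have hc : 0 < Real.cos p.2 := Real.cos_pos_of_mem_Ioo ⟨by linarith [h.1, Real.pi_pos], h.2⟩
      have h1 : (p.1 * Real.cos p.2, p.1 * Real.sin p.2) ∈ (Ioi (0:ℝ)) ×ˢ (Ioi (0:ℝ)) :=
        ⟨mul_pos hr hc, mul_pos hr hs⟩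
      have h2 : bj ((p.1 * Real.sin p.2) • (ω : E (k + 1))) ((p.1 * Real.cos p.2) •
          (η : E (l + 1))) = p.1 • bj (Real.sin p.2 • (ω : E (k + 1)))
          (Real.cos p.2 • (η : E (l + 1))) := by
        rw [liftA_smul_bj, smul_smul, smul_smul]
      rw [indicator_of_mem h1, indicator_of_mem h]
      simp only
      rw [h2, liftA_rad_smul F (liftA_norm_one p.2 ω η) hr, ← ENNReal.ofReal_mul (by positivity)]
      have e4 : ENNReal.ofReal p.1 * ENNReal.ofReal ((p.1 * Real.sin p.2) ^ k *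
          (p.1 * Real.cos p.2) ^ l) = ENNReal.ofReal (p.1 ^ (k + 1 + l)) *
          ENNReal.ofReal (Real.sin p.2 ^ k * Real.cos p.2 ^ l) := by
        rw [← ENNReal.ofReal_mul hr.le, ← ENNReal.ofReal_mul (by positivity)]
        congr 1
        ring
      calc _ = (ENNReal.ofReal p.1 * ENNReal.ofReal ((p.1 * Real.sin p.2) ^ k *
          (p.1 * Real.cos p.2) ^ l)) * ((Iio (1:ℝ)).indicator 1 p.1 *
            F (bj (Real.sin p.2 • (ω : E (k + 1))) (Real.cos p.2 • (η : E (l + 1))))) := by ring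
        _ = _ := by rw [e4]; ring
    · have h1 : (p.1 * Real.cos p.2, p.1 * Real.sin p.2) ∉ (Ioi (0:ℝ)) ×ˢ (Ioi (0:ℝ)) := by
        rintro ⟨h1, h2⟩
        apply h
        have hc : 0 < Real.cos p.2 := pos_of_mul_pos_right h1 hr.le
        have hs : 0 < Real.sin p.2 := pos_of_mul_pos_right h2 hr.le
        constructor
        · by_contra hcon
          push Not at hcon
          have := Real.sin_nonpos_of_nonpos_of_neg_pi_le hcon hθ.1.le
          linarith
        · by_contra hcon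
          push Not at hcon
          have := Real.cos_nonpos_of_pi_div_two_le_of_le hcon (by linarith [hθ.2, Real.pi_pos])
          linarith
      rw [indicator_of_notMem h1, indicator_of_notMem h]
      simp
  have m4 : Measurable fun θ : ℝ => ENNReal.ofReal (Real.sin θ ^ k * Real.cos θ ^ l) *
        F (bj (Real.sin θ • (ω : E (k + 1))) (Real.cos θ • (η : E (l + 1)))) := by
    have hc : Continuous fun θ : ℝ =>
        bj (Real.sin θ • (ω : E (k + 1))) (Real.cos θ • (η : E (l + 1))) := by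
      have : Continuous fun θ : ℝ => ((Real.cos θ, Real.sin θ) : ℝ × ℝ) := by fun_prop
      exact c1.comp this
    refine Measurable.mul ?_ (hF.comp hc.measurable)
    fun_prop
  have m5 : Measurable fun r : ℝ => (Iio (1:ℝ)).indicator (1 : ℝ → ℝ≥0∞) r *
        ENNReal.ofReal (r ^ (k + 1 + l)) := by
    refine (measurable_one.indicator measurableSet_Iio).mul ?_
    fun_prop
  rw [e2, polarCoord_target, Measure.volume_eq_prod, ← Measure.prod_restrict,
    lintegral_prod_mul m5.aemeasurable (m4.indicator measurableSet_Ioo).aemeasurable,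
    lintegral_rpow_Iio, lintegral_indicator measurableSet_Ioo,
    Measure.restrict_restrict measurableSet_Ioo]
  have e3 : Ioo 0 (π / 2) ∩ Ioo (-π) π = Ioo 0 (π / 2) := by
    rw [inter_eq_left]
    intro θ hθ
    exact ⟨by linarith [hθ.1, Real.pi_pos], by linarith [hθ.2, Real.pi_pos]⟩
  rw [e3]

theorem liftA_e1 (n : ℕ) (F : E (n + 1) → ℝ≥0∞) (hF : Measurable F) :
    ∫⁻ x, liftA_rad F x = ENNReal.ofReal (1 / ((n : ℕ) + 1)) *
      ∫⁻ x : S (n + 1), F x ∂(sm (n + 1)) := by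
  have m0 : Measurable (liftA_rad F) := liftA_measurable_rad hF
  have mFs : Measurable fun ω : S (n + 1) => F (ω : E (n + 1)) :=
    hF.comp measurable_subtype_coe
  rw [lintegral_polar n _ m0, ← lintegral_const_mul _ mFs]
  refine lintegral_congr fun ω => ?_
  rw [← lintegral_rpow_Iio n, ← lintegral_mul_const]
  · refine setLIntegral_congr_fun measurableSet_Ioi fun ρ hρ => ?_
    have hω : ‖(ω : E (n + 1))‖ = 1 := by simp
    have h := liftA_rad_smul F hω hρ
    rw [h, mul_right_comm]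
  · refine (measurable_one.indicator measurableSet_Iio).mul ?_
    fun_prop

theorem liftA_e2 (k l : ℕ) (H : E ((k + 1) + (l + 1)) → ℝ≥0∞) (hH : Measurable H) :
    ∫⁻ x, H x = ∫⁻ ω : S (k + 1), ∫⁻ η : S (l + 1),
      (∫⁻ q : ℝ × ℝ in (Ioi 0) ×ˢ (Ioi 0), H (bj (q.2 • (ω : E (k + 1)))
      (q.1 • (η : E (l + 1)))) * (ENNReal.ofReal (q.2 ^ k) * ENNReal.ofReal (q.1 ^ l)))
      ∂(sm (l + 1)) ∂(sm (k + 1)) := by
  have mj : Measurable fun q : E (k + 1) × E (l + 1) => H (bj q.1 q.2) :=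
    hH.comp continuous_bj.measurable
  rw [lintegral_bj (k + 1) (l + 1) H hH]
  have m1 : Measurable fun y : E (k + 1) => ∫⁻ z : E (l + 1), H (bj y z) :=
    mj.lintegral_prod_right'
  rw [lintegral_polar k _ m1]
  refine lintegral_congr fun ω => ?_
  have i1 : ∀ ρ ∈ Ioi (0:ℝ), (∫⁻ z : E (l + 1), H (bj (ρ • (ω : E (k + 1))) z)) *
      ENNReal.ofReal (ρ ^ k) = ∫⁻ η : S (l + 1), (∫⁻ b in Ioi (0:ℝ),
        H (bj (ρ • (ω : E (k + 1))) (b • (η : E (l + 1)))) *
          (ENNReal.ofReal (ρ ^ k) * ENNReal.ofReal (b ^ l))) ∂(sm (l + 1)) := by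
    intro ρ _
    have m2 : Measurable fun z : E (l + 1) => H (bj (ρ • (ω : E (k + 1))) z) := by
      have h0 : Measurable fun z : E (l + 1) => ((ρ • (ω : E (k + 1)), z) : E (k + 1) × E (l + 1)) := by
        fun_prop
      exact mj.comp h0
    rw [lintegral_polar l _ m2, ← lintegral_mul_const' _ _ ENNReal.ofReal_ne_top]
    refine lintegral_congr fun η => ?_
    rw [← lintegral_mul_const' _ _ ENNReal.ofReal_ne_top]
    refine lintegral_congr fun b => ?_
    rw [mul_assoc, mul_comm (ENNReal.ofReal (b ^ l))]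
  rw [setLIntegral_congr_fun measurableSet_Ioi i1]
  have m5 : Measurable fun q : (ℝ × S (l + 1)) × ℝ =>
      H (bj (q.1.1 • (ω : E (k + 1))) (q.2 • (q.1.2 : E (l + 1)))) *
        (ENNReal.ofReal (q.1.1 ^ k) * ENNReal.ofReal (q.2 ^ l)) := by
    have h0 : Continuous fun q : (ℝ × S (l + 1)) × ℝ =>
        ((q.1.1 • (ω : E (k + 1)), q.2 • (q.1.2 : E (l + 1))) : E (k + 1) × E (l + 1)) := by
      fun_prop
    refine (mj.comp h0.measurable).mul ?_
    fun_prop
  have m6 : Measurable fun q : ℝ × S (l + 1) => ∫⁻ b in Ioi (0:ℝ),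
      H (bj (q.1 • (ω : E (k + 1))) (b • (q.2 : E (l + 1)))) *
        (ENNReal.ofReal (q.1 ^ k) * ENNReal.ofReal (b ^ l)) :=
    m5.lintegral_prod_right' (ν := (volume : Measure ℝ).restrict (Ioi 0))
  rw [lintegral_lintegral_swap (f := fun (ρ : ℝ) (η : S (l + 1)) => ∫⁻ b in Ioi (0:ℝ),
      H (bj (ρ • (ω : E (k + 1))) (b • (η : E (l + 1)))) *
        (ENNReal.ofReal (ρ ^ k) * ENNReal.ofReal (b ^ l))) m6.aemeasurable]
  refine lintegral_congr fun η => ?_
  have m7 : Measurable fun q : ℝ × ℝ => H (bj (q.2 • (ω : E (k + 1)))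
      (q.1 • (η : E (l + 1)))) * (ENNReal.ofReal (q.2 ^ k) * ENNReal.ofReal (q.1 ^ l)) := by
    have h0 : Continuous fun q : ℝ × ℝ =>
        ((q.2 • (ω : E (k + 1)), q.1 • (η : E (l + 1))) : E (k + 1) × E (l + 1)) := by
      fun_prop
    refine (mj.comp h0.measurable).mul ?_
    fun_prop
  rw [Measure.volume_eq_prod, ← Measure.prod_restrict, lintegral_prod_symm' _ m7]

theorem liftA_e3 (k l : ℕ) (F : E ((k + 1) + (l + 1)) → ℝ≥0∞) (hF : Measurable F) :
    ∫⁻ ω : S (k + 1), ∫⁻ η : S (l + 1), (∫⁻ θ in Ioo 0 (π / 2),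
        ENNReal.ofReal (Real.sin θ ^ k * Real.cos θ ^ l) *
        F (bj (Real.sin θ • (ω : E (k + 1))) (Real.cos θ • (η : E (l + 1)))))
        ∂(sm (l + 1)) ∂(sm (k + 1)) =
      ∫⁻ θ in Ioo 0 (π / 2), ENNReal.ofReal (Real.sin θ ^ k * Real.cos θ ^ l) *
        ∫⁻ ω : S (k + 1), ∫⁻ η : S (l + 1),
          F (bj (Real.sin θ • (ω : E (k + 1))) (Real.cos θ • (η : E (l + 1))))
            ∂(sm (l + 1)) ∂(sm (k + 1)) := by
  have mj : Measurable fun q : E (k + 1) × E (l + 1) => F (bj q.1 q.2) :=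
    hF.comp continuous_bj.measurable
  have s1 : ∀ ω : S (k + 1), ∫⁻ η : S (l + 1), (∫⁻ θ in Ioo 0 (π / 2),
      ENNReal.ofReal (Real.sin θ ^ k * Real.cos θ ^ l) *
      F (bj (Real.sin θ • (ω : E (k + 1))) (Real.cos θ • (η : E (l + 1))))) ∂(sm (l + 1)) =
      ∫⁻ θ in Ioo 0 (π / 2), ENNReal.ofReal (Real.sin θ ^ k * Real.cos θ ^ l) *
        ∫⁻ η : S (l + 1), F (bj (Real.sin θ • (ω : E (k + 1))) (Real.cos θ • (η : E (l + 1))))
          ∂(sm (l + 1)) := by
    intro ω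
    have m1 : Measurable fun q : S (l + 1) × ℝ =>
        ENNReal.ofReal (Real.sin q.2 ^ k * Real.cos q.2 ^ l) *
        F (bj (Real.sin q.2 • (ω : E (k + 1))) (Real.cos q.2 • (q.1 : E (l + 1)))) := by
      have h0 : Continuous fun q : S (l + 1) × ℝ =>
          ((Real.sin q.2 • (ω : E (k + 1)), Real.cos q.2 • (q.1 : E (l + 1))) :
            E (k + 1) × E (l + 1)) := by
        fun_prop
      refine Measurable.mul ?_ (mj.comp h0.measurable)
      fun_prop
    rw [lintegral_lintegral_swap (f := fun (η : S (l + 1)) (θ : ℝ) =>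
      ENNReal.ofReal (Real.sin θ ^ k * Real.cos θ ^ l) *
      F (bj (Real.sin θ • (ω : E (k + 1))) (Real.cos θ • (η : E (l + 1))))) m1.aemeasurable]
    refine lintegral_congr fun θ => ?_
    rw [lintegral_const_mul' _ _ ENNReal.ofReal_ne_top]
  rw [lintegral_congr s1]
  have m6 : Measurable fun q : (S (k + 1) × ℝ) × S (l + 1) =>
      F (bj (Real.sin q.1.2 • (q.1.1 : E (k + 1))) (Real.cos q.1.2 • (q.2 : E (l + 1)))) := by
    have h0 : Continuous fun q : (S (k + 1) × ℝ) × S (l + 1) =>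
        ((Real.sin q.1.2 • (q.1.1 : E (k + 1)), Real.cos q.1.2 • (q.2 : E (l + 1))) :
          E (k + 1) × E (l + 1)) := by
      fun_prop
    exact mj.comp h0.measurable
  have m7 : Measurable fun q : S (k + 1) × ℝ => ∫⁻ η : S (l + 1),
      F (bj (Real.sin q.2 • (q.1 : E (k + 1))) (Real.cos q.2 • (η : E (l + 1)))) ∂(sm (l + 1)) :=
    m6.lintegral_prod_right' (ν := sm (l + 1))
  have m8 : Measurable fun q : S (k + 1) × ℝ =>
      ENNReal.ofReal (Real.sin q.2 ^ k * Real.cos q.2 ^ l) * ∫⁻ η : S (l + 1),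
      F (bj (Real.sin q.2 • (q.1 : E (k + 1))) (Real.cos q.2 • (η : E (l + 1)))) ∂(sm (l + 1)) := by
    refine Measurable.mul ?_ m7
    fun_prop
  rw [lintegral_lintegral_swap (f := fun (ω : S (k + 1)) (θ : ℝ) =>
      ENNReal.ofReal (Real.sin θ ^ k * Real.cos θ ^ l) * ∫⁻ η : S (l + 1),
      F (bj (Real.sin θ • (ω : E (k + 1))) (Real.cos θ • (η : E (l + 1)))) ∂(sm (l + 1)))
    m8.aemeasurable]
  refine lintegral_congr fun θ => ?_
  rw [lintegral_const_mul' _ _ ENNReal.ofReal_ne_top]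

theorem bslice (k l : ℕ) (F : E ((k + 1) + (l + 1)) → ℝ≥0∞) (hF : Measurable F) :
    ∫⁻ x : S ((k + 1) + (l + 1)), F x ∂(sm ((k + 1) + (l + 1))) =
      ∫⁻ θ in Ioo 0 (π / 2), ENNReal.ofReal (Real.sin θ ^ k * Real.cos θ ^ l) *
        ∫⁻ ω : S (k + 1), ∫⁻ η : S (l + 1),
          F (bj (Real.sin θ • (ω : E (k + 1))) (Real.cos θ • (η : E (l + 1))))
            ∂(sm (l + 1)) ∂(sm (k + 1)) := by
  have m0 : Measurable (liftA_rad F) := liftA_measurable_rad hF
  have hc0 : ENNReal.ofReal (1 / ((k + 1 + l : ℕ) + 1)) ≠ 0 := by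
    simp only [ne_eq, ENNReal.ofReal_eq_zero, not_le]
    positivity
  have hct : ENNReal.ofReal (1 / ((k + 1 + l : ℕ) + 1)) ≠ ∞ := ENNReal.ofReal_ne_top
  have e1 : ∫⁻ x, liftA_rad F x = ENNReal.ofReal (1 / ((k + 1 + l : ℕ) + 1)) *
      ∫⁻ x : S ((k + 1) + (l + 1)), F x ∂(sm ((k + 1) + (l + 1))) :=
    liftA_e1 (k + 1 + l) F hF
  have e2 : ∫⁻ x, liftA_rad F x = ENNReal.ofReal (1 / ((k + 1 + l : ℕ) + 1)) *
      ∫⁻ ω : S (k + 1), ∫⁻ η : S (l + 1), (∫⁻ θ in Ioo 0 (π / 2),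
        ENNReal.ofReal (Real.sin θ ^ k * Real.cos θ ^ l) *
        F (bj (Real.sin θ • (ω : E (k + 1))) (Real.cos θ • (η : E (l + 1)))))
        ∂(sm (l + 1)) ∂(sm (k + 1)) := by
    rw [liftA_e2 k l _ m0, ← lintegral_const_mul' _ _ hct]
    refine lintegral_congr fun ω => ?_
    rw [← lintegral_const_mul' _ _ hct]
    refine lintegral_congr fun η => ?_
    exact liftA_planar k l F hF ω η
  rw [liftA_e3 k l F hF] at e2
  exact (ENNReal.mul_right_inj hc0 hct).1 (e1.symm.trans e2)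

end Pool.Agent.MP_6cbfb8_an
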