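import Pool.Agent.MP_6cbfb8_an.Decay
import Pool.Agent.MP_6cbfb8_an.LiftA

/-!
The Fourier transform of a lifted density.
-/

namespace Pool.Agent.MP_6cbfb8_an

open MeasureTheory Set
open scoped ENNReal Real RealInnerProductSpace

lemma liftB_mem {k l : ℕ} (θ : ℝ) (ω : S k) (η : S l) :
    bj (Real.sin θ • (ω : E k)) (Real.cos θ • (η : E l)) ∈ S (k + l) := by
  rw [mem_sphere_zero_iff_norm]
  have h : inner ℝ (bj (Real.sin θ • (ω : E k)) (Real.cos θ • (η : E l)))
      (bj (Real.sin θ • (ω : E k)) (Real.cos θ • (η : E l))) = (1 : ℝ) := by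
    rw [inner_bj, real_inner_self_eq_norm_sq, real_inner_self_eq_norm_sq, norm_smul, norm_smul]
    have h1 : ‖(ω : E k)‖ = 1 := by simp
    have h2 : ‖(η : E l)‖ = 1 := by simp
    rw [h1, h2]
    simp [Real.sin_sq_add_cos_sq]
  rw [real_inner_self_eq_norm_sq] at h
  nlinarith [norm_nonneg (bj (Real.sin θ • (ω : E k)) (Real.cos θ • (η : E l)))]

/-- The parametrisation of the sphere by pairs of points of two spheres and an angle. -/
noncomputable def liftBmap {k l : ℕ} (q : ℝ × (S k × S l)) : S (k + l) :=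
  ⟨bj (Real.sin q.1 • (q.2.1 : E k)) (Real.cos q.1 • (q.2.2 : E l)),
    liftB_mem q.1 q.2.1 q.2.2⟩

lemma liftB_cont {k l : ℕ} : Continuous (liftBmap : ℝ × (S k × S l) → S (k + l)) := by
  refine Continuous.subtype_mk ?_ _
  have h0 : Continuous fun q : ℝ × (S k × S l) =>
      ((Real.sin q.1 • (q.2.1 : E k), Real.cos q.1 • (q.2.2 : E l)) : E k × E l) := by fun_prop
  exact continuous_bj.comp h0

/-- The weight of the angle. -/
noncomputable def liftBμ (k l : ℕ) : Measure ℝ :=
  ((volume : Measure ℝ).restrict (Ioo 0 (π / 2))).withDensity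
    (fun θ => ENNReal.ofReal (Real.sin θ ^ k * Real.cos θ ^ l))

instance liftBμ_finite (k l : ℕ) : IsFiniteMeasure (liftBμ k l) := by
  refine ⟨?_⟩
  rw [liftBμ, withDensity_apply _ MeasurableSet.univ, Measure.restrict_univ]
  calc ∫⁻ θ in Ioo 0 (π / 2), ENNReal.ofReal (Real.sin θ ^ k * Real.cos θ ^ l)
      ≤ ∫⁻ θ in Ioo 0 (π / 2), 1 := by
        refine lintegral_mono fun θ => ?_
        rw [← ENNReal.ofReal_one]
        refine ENNReal.ofReal_le_ofReal ?_
        refine (le_abs_self _).trans ?_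
        rw [abs_mul, abs_pow, abs_pow]
        exact mul_le_one₀ (pow_le_one₀ (abs_nonneg _) (Real.abs_sin_le_one θ)) (by positivity)
          (pow_le_one₀ (abs_nonneg _) (Real.abs_cos_le_one θ))
    _ < ∞ := by simp

theorem liftB_mp (k l : ℕ) :
    MeasurePreserving (liftBmap : ℝ × (S (k + 1) × S (l + 1)) → S ((k + 1) + (l + 1)))
      ((liftBμ k l).prod ((sm (k + 1)).prod (sm (l + 1)))) (sm ((k + 1) + (l + 1))) := by
  refine ⟨liftB_cont.measurable, ?_⟩
  refine Measure.ext fun A hA => ?_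
  rw [Measure.map_apply liftB_cont.measurable hA]
  have hA' : MeasurableSet ((↑) '' A : Set (E ((k + 1) + (l + 1)))) :=
    (Metric.isClosed_sphere.measurableSet).subtype_image hA
  have h := bslice k l (((↑) '' A : Set (E ((k + 1) + (l + 1)))).indicator 1)
    (measurable_one.indicator hA')
  have e1 : ∀ x : S ((k + 1) + (l + 1)),
      ((↑) '' A : Set (E ((k + 1) + (l + 1)))).indicator (1 : E ((k + 1) + (l + 1)) → ℝ≥0∞) x =
        A.indicator 1 x := by
    intro x
    classical
    simp only [indicator_apply, Subtype.val_injective.mem_set_image, Pi.one_apply]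
  simp only [e1] at h
  rw [lintegral_indicator_one hA] at h
  have m1 : Measurable ((liftBmap ⁻¹' A).indicator (1 : ℝ × (S (k + 1) × S (l + 1)) → ℝ≥0∞)) :=
    measurable_one.indicator (liftB_cont.measurable hA)
  rw [h, ← lintegral_indicator_one (liftB_cont.measurable hA), lintegral_prod _ m1.aemeasurable,
    liftBμ, lintegral_withDensity_eq_lintegral_mul _ (by fun_prop) m1.lintegral_prod_right']
  refine setLIntegral_congr_fun measurableSet_Ioo fun θ _ => ?_
  simp only [Pi.mul_apply]
  congr 1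
  have m2 : Measurable fun q : S (k + 1) × S (l + 1) =>
      (liftBmap ⁻¹' A).indicator (1 : ℝ × (S (k + 1) × S (l + 1)) → ℝ≥0∞) (θ, q) :=
    m1.comp measurable_prodMk_left
  rw [lintegral_prod _ m2.aemeasurable]
  refine lintegral_congr fun ω => lintegral_congr fun η => ?_
  have e2 := e1 (liftBmap (θ, (ω, η)))
  simp only [liftBmap] at e2
  rw [e2]
  rfl

lemma liftB_lift {κ i : ℕ} (G : E (κ + 2) → ℂ) {θ : ℝ} (hθ : θ ∈ Ioo 0 (π / 2)) (ω : S (κ + 1))
    (η : S (i + 2)) :
    (lift G : E ((κ + 1) + (i + 2)) → ℂ)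
      (bj (Real.sin θ • (ω : E (κ + 1))) (Real.cos θ • (η : E (i + 2)))) =
      G (pt θ (ω : E (κ + 1))) := by
  unfold lift pt
  rw [fstE_bj, sndE_bj, norm_smul]
  have h2 : ‖(η : E (i + 2))‖ = 1 := by simp
  have h3 : 0 ≤ Real.cos θ :=
    (Real.cos_pos_of_mem_Ioo ⟨by linarith [hθ.1, Real.pi_pos], hθ.2⟩).le
  rw [h2, mul_one, Real.norm_of_nonneg h3]

open DecayAux

lemma liftB_bessel (i : ℕ) (w : E (i + 2)) {c : ℝ} (hc : 0 ≤ c) :
    ∫ η : S (i + 2), ch (c * inner ℝ (η : E (i + 2)) w) ∂(sm (i + 2)) =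
      (((sm (i + 1)).real univ : ℝ) : ℂ) *
        ∫ u in Ioo 0 π, ((Real.sin u ^ i : ℝ) : ℂ) * ch ((c * ‖w‖) * Real.cos u) := by
  have h1 : ∫ η : S (i + 2), ch (c * inner ℝ (η : E (i + 2)) w) ∂(sm (i + 2)) =
      extn (fun _ => (1:ℂ)) (c • w) := by
    rw [extn_eq]
    refine integral_congr_ae (Filter.Eventually.of_forall fun x => ?_)
    simp only
    rw [one_mul, real_inner_smul_right]
  rw [h1, extn_one_rot, extn_one_eq, intervalIntegral.integral_of_le Real.pi_pos.le,
    integral_Ioc_eq_integral_Ioo, norm_smul, Real.norm_of_nonneg hc]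

/-- The inner integral over the small sphere. -/
noncomputable def liftBK {κ : ℕ} (G : E (κ + 2) → ℂ) (y : E (κ + 1)) (θ : ℝ) : ℂ :=
  ∫ ω : S (κ + 1), G (pt θ (ω : E (κ + 1))) * ch (Real.sin θ * inner ℝ (ω : E (κ + 1)) y)
    ∂(sm (κ + 1))

section

variable {κ : ℕ} (G : E (κ + 2) → ℂ) (hG : Measurable G) (hb : ∀ x, ‖G x‖ ≤ 1) (y : E (κ + 1))

include hG in
lemma measurable_liftBI : Measurable fun q : ℝ × S (κ + 1) =>
    G (pt q.1 (q.2 : E (κ + 1))) * ch (Real.sin q.1 * inner ℝ (q.2 : E (κ + 1)) y) := by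
  have h0 : Continuous fun q : ℝ × S (κ + 1) => ((q.1, (q.2 : E (κ + 1))) : ℝ × E (κ + 1)) := by
    fun_prop
  have h1 : Measurable fun q : ℝ × S (κ + 1) => G (pt q.1 (q.2 : E (κ + 1))) :=
    hG.comp (continuous_pt.comp h0).measurable
  have h2 : Continuous fun q : ℝ × S (κ + 1) =>
      ch (Real.sin q.1 * inner ℝ (q.2 : E (κ + 1)) y) := by
    have := continuous_ch
    fun_prop
  exact h1.mul h2.measurable

include hG in
lemma measurable_liftBK : Measurable (liftBK G y) :=
  ((measurable_liftBI G hG y).stronglyMeasurable.integral_prod_right' (ν := sm (κ + 1))).measurable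

include hb in
lemma norm_liftBK_le (θ : ℝ) : ‖liftBK G y θ‖ ≤ (sm (κ + 1)).real univ := by
  unfold liftBK
  have h := norm_integral_le_of_norm_le_const (μ := sm (κ + 1)) (C := 1)
    (f := fun ω : S (κ + 1) => G (pt θ (ω : E (κ + 1))) *
      ch (Real.sin θ * inner ℝ (ω : E (κ + 1)) y)) (Filter.Eventually.of_forall fun ω => by
        rw [norm_mul, norm_ch, mul_one]
        exact hb _)
  rwa [one_mul] at h

include hG hb in
lemma liftB_rhs (i : ℕ) (z : ℝ) : extn (tpow (i + 1) G) (join y z) =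
    ∫ θ, liftBK G y θ * ch (z * Real.cos θ) ∂(liftBμ κ (i + 1)) := by
  set μ : Measure ℝ := ((volume : Measure ℝ).restrict (Ioo 0 π)).withDensity
        (fun θ => ENNReal.ofReal (Real.sin θ ^ κ)) with hμ
  have hsl := slicing κ
  have hμfin : IsFiniteMeasure μ := by
    refine ⟨?_⟩
    rw [hμ, withDensity_apply _ MeasurableSet.univ, Measure.restrict_univ]
    calc ∫⁻ θ in Ioo 0 π, ENNReal.ofReal (Real.sin θ ^ κ) ≤ ∫⁻ θ in Ioo 0 π, 1 := by
          refine lintegral_mono fun θ => ?_
          rw [← ENNReal.ofReal_one]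
          refine ENNReal.ofReal_le_ofReal ?_
          refine (le_abs_self _).trans ?_
          rw [abs_pow]
          exact pow_le_one₀ (abs_nonneg _) (Real.abs_sin_le_one θ)
      _ < ∞ := by simp
  have htp : Measurable (tpow (i + 1) G) := by
    unfold tpow
    have h1 : Measurable fun x : E (κ + 2) => x (Fin.last (κ + 1)) :=
      (EuclideanSpace.proj (Fin.last (κ + 1)) : E (κ + 2) →L[ℝ] ℝ).continuous.measurable
    refine Measurable.ite (measurableSet_lt measurable_const h1) ?_ measurable_const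
    refine hG.mul ?_
    fun_prop
  have htb : ∀ x : S (κ + 2), ‖tpow (i + 1) G (x : E (κ + 2))‖ ≤ 1 := by
    intro x
    unfold tpow
    split_ifs
    · rw [norm_mul, Complex.norm_real, norm_pow]
      have h1 : ‖(x : E (κ + 2)) (Fin.last (κ + 1))‖ ≤ 1 := by
        have := PiLp.norm_apply_le (x : E (κ + 2)) (Fin.last (κ + 1))
        simpa using this
      exact mul_le_one₀ (hb _) (by positivity) (pow_le_one₀ (norm_nonneg _) h1)
    · simp
  have hF : Measurable (fun x : S (κ + 2) => tpow (i + 1) G x *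
      ch (inner ℝ (x : E (κ + 2)) (join y z))) := by
    refine (htp.comp measurable_subtype_coe).mul ?_
    have : Continuous (fun x : S (κ + 2) => ch (inner ℝ (x : E (κ + 2)) (join y z))) := by
      have := continuous_ch
      fun_prop
    exact this.measurable
  have hFi : Integrable (fun x : S (κ + 2) => tpow (i + 1) G x *
      ch (inner ℝ (x : E (κ + 2)) (join y z))) (sm (κ + 2)) := by
    refine Integrable.of_bound hF.aestronglyMeasurable 1 (Filter.Eventually.of_forall fun x => ?_)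
    rw [norm_mul, norm_ch, mul_one]
    exact htb x
  have h1 : extn (tpow (i + 1) G) (join y z) =
      ∫ q : ℝ × S (κ + 1), tpow (i + 1) G (pt q.1 (q.2 : E (κ + 1))) *
        ch (inner ℝ (pt q.1 (q.2 : E (κ + 1))) (join y z)) ∂(μ.prod (sm (κ + 1))) := by
    rw [extn_eq]
    conv_lhs => rw [← hsl.map_eq]
    rw [integral_map hsl.measurable.aemeasurable hF.aestronglyMeasurable]
  have h2 : Integrable (fun q : ℝ × S (κ + 1) => tpow (i + 1) G (pt q.1 (q.2 : E (κ + 1))) *
        ch (inner ℝ (pt q.1 (q.2 : E (κ + 1))) (join y z))) (μ.prod (sm (κ + 1))) :=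
    hsl.integrable_comp_of_integrable hFi
  rw [h1, integral_prod _ h2, hμ, liftBμ,
    integral_withDensity_eq_integral_toReal_smul (by fun_prop) (by simp),
    integral_withDensity_eq_integral_toReal_smul (by fun_prop) (by simp)]
  have h3 : Ioo 0 (π / 2) ⊆ Ioo 0 π := Ioo_subset_Ioo_right (by linarith [Real.pi_pos])
  rw [setIntegral_eq_of_subset_of_forall_sdiff_eq_zero measurableSet_Ioo h3]
  · refine setIntegral_congr_fun measurableSet_Ioo fun θ hθ => ?_
    have hc : 0 < Real.cos θ := Real.cos_pos_of_mem_Ioo ⟨by linarith [hθ.1, Real.pi_pos], hθ.2⟩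
    have hs : 0 < Real.sin θ := Real.sin_pos_of_mem_Ioo (h3 hθ)
    simp only
    rw [ENNReal.toReal_ofReal (by positivity), ENNReal.toReal_ofReal (by positivity),
      Complex.real_smul, Complex.real_smul]
    have h4 : ∀ ω : S (κ + 1), tpow (i + 1) G (pt θ (ω : E (κ + 1))) *
        ch (inner ℝ (pt θ (ω : E (κ + 1))) (join y z)) =
        (((Real.cos θ) ^ (i + 1) : ℝ) : ℂ) * ch (z * Real.cos θ) * (G (pt θ (ω : E (κ + 1))) *
          ch (Real.sin θ * inner ℝ (ω : E (κ + 1)) y)) := by
      intro ω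
      have h5 : inner ℝ (pt θ (ω : E (κ + 1))) (join y z) =
          Real.sin θ * inner ℝ (ω : E (κ + 1)) y + z * Real.cos θ := by
        unfold pt
        rw [DecayAux.inner_join, real_inner_smul_left]
        ring
      have h6 : (pt θ (ω : E (κ + 1))) (Fin.last (κ + 1)) = Real.cos θ := by
        unfold pt join
        simp
      rw [h5, ch_add]
      unfold tpow
      rw [h6, if_pos hc]
      ring
    simp only [h4]
    rw [integral_const_mul]
    unfold liftBK
    push_cast
    ring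
  · intro θ hθ
    have hc : ¬ (0 < Real.cos θ) := by
      have h5 : π / 2 ≤ θ := by
        by_contra h
        push Not at h
        exact hθ.2 ⟨hθ.1.1, h⟩
      have := Real.cos_nonpos_of_pi_div_two_le_of_le h5 (by linarith [hθ.1.2, Real.pi_pos])
      linarith
    have h4 : ∀ ω : S (κ + 1), tpow (i + 1) G (pt θ (ω : E (κ + 1))) = 0 := by
      intro ω
      have h6 : (pt θ (ω : E (κ + 1))) (Fin.last (κ + 1)) = Real.cos θ := by
        unfold pt join
        simp
      unfold tpow
      rw [h6, if_neg hc]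
    simp only [h4, zero_mul, integral_zero, smul_zero]

include hG hb in
lemma liftB_lhs (i : ℕ) (w : E (i + 2)) :
    extn (lift G : E ((κ + 1) + (i + 2)) → ℂ) (bj y w) =
    ∫ θ, liftBK G y θ * ((((sm (i + 1)).real univ : ℝ) : ℂ) *
        ∫ u in Ioo 0 π, ((Real.sin u ^ i : ℝ) : ℂ) * ch ((Real.cos θ * ‖w‖) * Real.cos u))
      ∂(liftBμ κ (i + 1)) := by
  have hmp := liftB_mp κ (i + 1)
  have hl : Measurable (lift G : E ((κ + 1) + (i + 2)) → ℂ) := by
    unfold lift
    have h1 : Continuous fun x : E ((κ + 1) + (i + 2)) => (fstE x : E (κ + 1)) := by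
      unfold fstE
      refine (PiLp.continuous_toLp 2 _).comp ?_
      fun_prop
    have h2 : Continuous fun x : E ((κ + 1) + (i + 2)) => (sndE x : E (i + 2)) := by
      unfold sndE
      refine (PiLp.continuous_toLp 2 _).comp ?_
      fun_prop
    exact hG.comp (continuous_join.comp (h1.prodMk h2.norm)).measurable
  have hF : Measurable (fun x : S ((κ + 1) + (i + 2)) => lift G (x : E ((κ + 1) + (i + 2))) *
      ch (inner ℝ (x : E ((κ + 1) + (i + 2))) (bj y w))) := by
    refine (hl.comp measurable_subtype_coe).mul ?_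
    have : Continuous (fun x : S ((κ + 1) + (i + 2)) =>
        ch (inner ℝ (x : E ((κ + 1) + (i + 2))) (bj y w))) := by
      have := continuous_ch
      fun_prop
    exact this.measurable
  have hFi : Integrable (fun x : S ((κ + 1) + (i + 2)) => lift G (x : E ((κ + 1) + (i + 2))) *
      ch (inner ℝ (x : E ((κ + 1) + (i + 2))) (bj y w))) (sm ((κ + 1) + (i + 2))) := by
    refine Integrable.of_bound hF.aestronglyMeasurable 1 (Filter.Eventually.of_forall fun x => ?_)
    rw [norm_mul, norm_ch, mul_one]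
    exact hb _
  have h1 : extn (lift G : E ((κ + 1) + (i + 2)) → ℂ) (bj y w) =
      ∫ q : ℝ × (S (κ + 1) × S (i + 2)), lift G ((liftBmap q : S ((κ + 1) + (i + 2))) :
          E ((κ + 1) + (i + 2))) * ch (inner ℝ ((liftBmap q : S ((κ + 1) + (i + 2))) :
          E ((κ + 1) + (i + 2))) (bj y w))
        ∂((liftBμ κ (i + 1)).prod ((sm (κ + 1)).prod (sm (i + 2)))) := by
    rw [extn_eq]
    conv_lhs => rw [← hmp.map_eq]
    rw [integral_map hmp.measurable.aemeasurable hF.aestronglyMeasurable]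
  have h2 : Integrable (fun q : ℝ × (S (κ + 1) × S (i + 2)) =>
      lift G ((liftBmap q : S ((κ + 1) + (i + 2))) :
          E ((κ + 1) + (i + 2))) * ch (inner ℝ ((liftBmap q : S ((κ + 1) + (i + 2))) :
          E ((κ + 1) + (i + 2))) (bj y w)))
      ((liftBμ κ (i + 1)).prod ((sm (κ + 1)).prod (sm (i + 2)))) :=
    hmp.integrable_comp_of_integrable hFi
  rw [h1, integral_prod _ h2, liftBμ,
    integral_withDensity_eq_integral_toReal_smul (by fun_prop) (by simp),
    integral_withDensity_eq_integral_toReal_smul (by fun_prop) (by simp)]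
  refine setIntegral_congr_fun measurableSet_Ioo fun θ hθ => ?_
  have hc : 0 < Real.cos θ := Real.cos_pos_of_mem_Ioo ⟨by linarith [hθ.1, Real.pi_pos], hθ.2⟩
  congr 1
  have h4 : ∀ q : S (κ + 1) × S (i + 2), lift G ((liftBmap (θ, q) : S ((κ + 1) + (i + 2))) :
          E ((κ + 1) + (i + 2))) * ch (inner ℝ ((liftBmap (θ, q) : S ((κ + 1) + (i + 2))) :
          E ((κ + 1) + (i + 2))) (bj y w)) = (G (pt θ (q.1 : E (κ + 1))) *
          ch (Real.sin θ * inner ℝ (q.1 : E (κ + 1)) y)) *
          ch (Real.cos θ * inner ℝ (q.2 : E (i + 2)) w) := by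
    intro q
    have h5 : inner ℝ ((liftBmap (θ, q) : S ((κ + 1) + (i + 2))) : E ((κ + 1) + (i + 2))) (bj y w) =
        Real.sin θ * inner ℝ (q.1 : E (κ + 1)) y + Real.cos θ * inner ℝ (q.2 : E (i + 2)) w := by
      unfold liftBmap
      rw [inner_bj, real_inner_smul_left, real_inner_smul_left]
    have h6 : lift G ((liftBmap (θ, q) : S ((κ + 1) + (i + 2))) : E ((κ + 1) + (i + 2))) =
        G (pt θ (q.1 : E (κ + 1))) := liftB_lift G hθ q.1 q.2
    rw [h5, h6, ch_add]
    ring
  simp only [h4]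
  rw [integral_prod_mul (f := fun ω : S (κ + 1) => G (pt θ (ω : E (κ + 1))) *
          ch (Real.sin θ * inner ℝ (ω : E (κ + 1)) y))
    (g := fun η : S (i + 2) => ch (Real.cos θ * inner ℝ (η : E (i + 2)) w)), liftB_bessel i w hc.le]
  rfl

end

theorem extn_lift (κ i : ℕ) (G : E (κ + 2) → ℂ) (hG : Measurable G) (hb : ∀ x, ‖G x‖ ≤ 1)
    (y : E (κ + 1)) (w : E (i + 2)) :
    extn (lift G : E ((κ + 1) + (i + 2)) → ℂ) (bj y w) =
      (((sm (i + 1)).real univ : ℝ) : ℂ) * ∫ u in Ioo 0 π, ((Real.sin u ^ i : ℝ) : ℂ) *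
        extn (tpow (i + 1) G) (join y (‖w‖ * Real.cos u)) := by
  rw [liftB_lhs G hG hb y i w]
  have h1 : ∀ θ : ℝ, liftBK G y θ * ((((sm (i + 1)).real univ : ℝ) : ℂ) *
        ∫ u in Ioo 0 π, ((Real.sin u ^ i : ℝ) : ℂ) * ch ((Real.cos θ * ‖w‖) * Real.cos u)) =
      (((sm (i + 1)).real univ : ℝ) : ℂ) * ∫ u in Ioo 0 π, liftBK G y θ *
        (((Real.sin u ^ i : ℝ) : ℂ) * ch ((Real.cos θ * ‖w‖) * Real.cos u)) := by
    intro θ
    rw [integral_const_mul]
    ring
  simp only [h1]
  rw [integral_const_mul, integral_integral_swap]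
  · congr 1
    refine integral_congr_ae (Filter.Eventually.of_forall fun u => ?_)
    simp only
    rw [liftB_rhs G hG hb y i, ← integral_const_mul]
    refine integral_congr_ae (Filter.Eventually.of_forall fun θ => ?_)
    simp only
    have h2 : Real.cos θ * ‖w‖ * Real.cos u = ‖w‖ * Real.cos u * Real.cos θ := by ring
    rw [h2]
    ring
  · have hm : Measurable (Function.uncurry fun (θ u : ℝ) => liftBK G y θ *
        (((Real.sin u ^ i : ℝ) : ℂ) * ch ((Real.cos θ * ‖w‖) * Real.cos u))) := by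
      have h2 : Measurable fun q : ℝ × ℝ => liftBK G y q.1 :=
        (measurable_liftBK G hG y).comp measurable_fst
      have h3 : Continuous fun q : ℝ × ℝ =>
          ((Real.sin q.2 ^ i : ℝ) : ℂ) * ch ((Real.cos q.1 * ‖w‖) * Real.cos q.2) := by
        have := continuous_ch
        fun_prop
      exact h2.mul h3.measurable
    refine Integrable.of_bound hm.aestronglyMeasurable ((sm (κ + 1)).real univ)
      (Filter.Eventually.of_forall fun q => ?_)
    simp only [Function.uncurry]
    rw [norm_mul, norm_mul, norm_ch, mul_one, Complex.norm_real, norm_pow]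
    calc ‖liftBK G y q.1‖ * ‖Real.sin q.2‖ ^ i ≤ (sm (κ + 1)).real univ * 1 :=
          mul_le_mul (norm_liftBK_le G hb y q.1)
            (pow_le_one₀ (norm_nonneg _) (Real.abs_sin_le_one _)) (by positivity)
            (by positivity)
      _ = _ := mul_one _

end Pool.Agent.MP_6cbfb8_an
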