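import Pool.Agent.MP_6cbfb8_an.LiftDefs

namespace Pool.Agent.MP_6cbfb8_an

open MeasureTheory Set
open scoped ENNReal Real

noncomputable def liftC_A (e : ℤ) (p : Polynomial ℝ) (u : ℝ) : ℝ :=
  Real.sin u ^ e * p.eval (Real.cos u)

noncomputable def liftC_T (e : ℤ) (p : Polynomial ℝ) : Polynomial ℝ :=
  (1 - Polynomial.X ^ 2) * Polynomial.derivative p - Polynomial.C ((e : ℝ) - 1) * Polynomial.X * p

theorem liftC_hasDerivAt (e : ℤ) (p : Polynomial ℝ) {u : ℝ} (hu : 0 < Real.sin u) :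
    HasDerivAt (liftC_A (e - 1) p) (-liftC_A (e - 2) (liftC_T e p) u) u := by
  have h1 : HasDerivAt (fun u => Real.sin u ^ (e - 1))
      (((e - 1 : ℤ) : ℝ) * Real.sin u ^ (e - 1 - 1) * Real.cos u) u :=
    (hasDerivAt_zpow (e - 1) (Real.sin u) (Or.inl hu.ne')).comp u (Real.hasDerivAt_sin u)
  have h2 : HasDerivAt (fun u => p.eval (Real.cos u))
      ((Polynomial.derivative p).eval (Real.cos u) * (-Real.sin u)) u :=
    (p.hasDerivAt (Real.cos u)).comp u (Real.hasDerivAt_cos u)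
  refine (h1.mul h2).congr_deriv ?_
  have h3 : Real.sin u ^ (e - 1) = Real.sin u ^ (e - 2) * Real.sin u := by
    rw [← zpow_add_one₀ hu.ne']; congr 1; ring
  have h4 : e - 1 - 1 = e - 2 := by ring
  have h5 : Real.sin u ^ 2 = 1 - Real.cos u ^ 2 := Real.sin_sq u
  unfold liftC_A liftC_T
  rw [h3, h4]
  simp only [Polynomial.eval_sub, Polynomial.eval_mul, Polynomial.eval_one, Polynomial.eval_pow,
    Polynomial.eval_X, Polynomial.eval_C]
  push_cast
  linear_combination (-(Real.sin u ^ (e - 2)) *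
    (Polynomial.derivative p).eval (Real.cos u)) * h5

theorem liftC_sin_pos {u0 u : ℝ} (hu0 : 0 < u0) (hu : u ∈ Icc u0 (π - u0)) :
    0 < Real.sin u :=
  Real.sin_pos_of_pos_of_lt_pi (by linarith [hu.1]) (by linarith [hu.2])

theorem liftC_cont (e : ℤ) (p : Polynomial ℝ) {u0 : ℝ} (hu0 : 0 < u0) :
    ContinuousOn (liftC_A e p) (Icc u0 (π - u0)) := by
  unfold liftC_A
  apply ContinuousOn.mul
  · exact (Real.continuous_sin.continuousOn).zpow₀ e fun u hu => Or.inl (liftC_sin_pos hu0 hu).ne'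
  · exact (p.continuous.comp Real.continuous_cos).continuousOn

theorem liftC_fcont {f : ℕ → ℝ → ℂ}
    (hf : ∀ j v, HasDerivAt (f j) (-(2 * π * Complex.I) * f (j + 1) v) v) (j : ℕ) :
    Continuous (f j) :=
  continuous_iff_continuousAt.2 fun v => (hf j v).continuousAt

theorem liftC_step (e : ℤ) (p : Polynomial ℝ) {z u0 : ℝ} (hz : 0 < z) (hu0 : 0 < u0)
    (hu1 : u0 ≤ π / 2) (n : ℕ) {f : ℕ → ℝ → ℂ}
    (hf : ∀ j v, HasDerivAt (f j) (-(2 * π * Complex.I) * f (j + 1) v) v) :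
    ∫ u in u0..(π - u0), (liftC_A e p u : ℂ) * f (n + 1) (z * Real.cos u) =
      (2 * π * Complex.I * z)⁻¹ *
        ((liftC_A (e - 1) p (π - u0) : ℂ) * f n (z * Real.cos (π - u0))
          - (liftC_A (e - 1) p u0 : ℂ) * f n (z * Real.cos u0)
          + ∫ u in u0..(π - u0), (liftC_A (e - 2) (liftC_T e p) u : ℂ) *
              f n (z * Real.cos u)) := by
  have hle : u0 ≤ π - u0 := by linarith
  have hI : uIcc u0 (π - u0) = Icc u0 (π - u0) := uIcc_of_le hle
  have hfc := liftC_fcont hf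
  have cA : ∀ (e : ℤ) (p : Polynomial ℝ) (m : ℕ), IntervalIntegrable
      (fun u => (liftC_A e p u : ℂ) * f m (z * Real.cos u)) volume u0 (π - u0) := by
    intro e p m
    apply ContinuousOn.intervalIntegrable
    rw [hI]
    apply ContinuousOn.mul
    · exact Complex.continuous_ofReal.comp_continuousOn (liftC_cont e p hu0)
    · exact ((hfc m).comp (continuous_const.mul Real.continuous_cos)).continuousOn
  have hder : ∀ u ∈ uIcc u0 (π - u0), HasDerivAt
      (fun u => (liftC_A (e - 1) p u : ℂ) * f n (z * Real.cos u))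
      ((2 * π * Complex.I * z) * ((liftC_A e p u : ℂ) * f (n + 1) (z * Real.cos u))
        - (liftC_A (e - 2) (liftC_T e p) u : ℂ) * f n (z * Real.cos u)) u := by
    intro u hu
    rw [hI] at hu
    have hs := liftC_sin_pos hu0 hu
    have h1 : HasDerivAt (fun u => (liftC_A (e - 1) p u : ℂ))
        ((-liftC_A (e - 2) (liftC_T e p) u : ℝ) : ℂ) u := (liftC_hasDerivAt e p hs).ofReal_comp
    have h2 : HasDerivAt (fun u => z * Real.cos u) (z * -Real.sin u) u :=
      (Real.hasDerivAt_cos u).const_mul z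
    have h3 : HasDerivAt (fun u => f n (z * Real.cos u))
        ((z * -Real.sin u) • (-(2 * π * Complex.I) * f (n + 1) (z * Real.cos u))) u :=
      (hf n (z * Real.cos u)).scomp u h2
    refine (h1.mul h3).congr_deriv ?_
    have h4 : liftC_A e p u = liftC_A (e - 1) p u * Real.sin u := by
      unfold liftC_A
      have : Real.sin u ^ e = Real.sin u ^ (e - 1) * Real.sin u := by
        rw [← zpow_add_one₀ hs.ne']; congr 1; ring
      rw [this]; ring
    rw [h4, Complex.real_smul]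
    push_cast
    ring
  have hint := intervalIntegral.integral_eq_sub_of_hasDerivAt hder
    (((cA e p (n + 1)).const_mul _).sub (cA (e - 2) (liftC_T e p) n))
  rw [intervalIntegral.integral_sub ((cA e p (n + 1)).const_mul _) (cA _ _ n),
    intervalIntegral.integral_const_mul] at hint
  have hne : (2 * π * Complex.I * z : ℂ) ≠ 0 := by
    have hπ : (π : ℂ) ≠ 0 := Complex.ofReal_ne_zero.2 Real.pi_ne_zero
    have hz' : (z : ℂ) ≠ 0 := Complex.ofReal_ne_zero.2 hz.ne'
    exact mul_ne_zero (mul_ne_zero (mul_ne_zero two_ne_zero hπ) Complex.I_ne_zero) hz'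
  rw [eq_inv_mul_iff_mul_eq₀ hne]
  linear_combination hint

/-- pushed forward piece -/
noncomputable def liftC_nu (j : ℕ) (a b : ℝ) (g : ℝ → ℝ) : Measure (ℕ × ℝ) :=
  ((volume.restrict (Ioo a b)).withDensity (fun u => ‖g u‖ₑ)).map (fun u => (j, Real.cos u))

theorem liftC_lintegral_nu (j : ℕ) (a b : ℝ) {g : ℝ → ℝ} (hg : Measurable g) {F : ℕ × ℝ → ℝ≥0∞}
    (hF : Measurable F) : ∫⁻ q, F q ∂(liftC_nu j a b g) =
      ∫⁻ u in Ioo a b, ‖g u‖ₑ * F (j, Real.cos u) := by
  unfold liftC_nu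
  have hm : Measurable (fun u : ℝ => (j, Real.cos u)) :=
    measurable_const.prodMk Real.measurable_cos
  rw [lintegral_map hF hm]
  exact lintegral_withDensity_eq_lintegral_mul _ hg.enorm (hF.comp hm)

theorem liftC_measA (e : ℤ) (p : Polynomial ℝ) : Measurable (liftC_A e p) := by
  unfold liftC_A
  exact (Real.measurable_sin.pow_const e).mul (p.continuous.measurable.comp Real.measurable_cos)

theorem liftC_ae_nu (j : ℕ) {a b : ℝ} (ha : 0 ≤ a) (hb : b ≤ π) {g : ℝ → ℝ} :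
    ∀ᵐ q ∂(liftC_nu j a b g), q.1 ≤ j ∧ q.2 ≠ 0 ∧ |q.2| ≤ 1 := by
  unfold liftC_nu
  have hm : Measurable (fun u : ℝ => (j, Real.cos u)) :=
    measurable_const.prodMk Real.measurable_cos
  rw [ae_map_iff hm.aemeasurable]
  · apply (withDensity_absolutelyContinuous _ _).ae_le
    have h1 : ∀ᵐ u ∂(volume.restrict (Ioo a b)), u ∈ Ioo a b := ae_restrict_mem measurableSet_Ioo
    have h2 : ∀ᵐ u ∂(volume.restrict (Ioo a b)), u ≠ π / 2 :=
      ae_restrict_of_ae (Measure.ae_ne volume (π / 2))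
    filter_upwards [h1, h2] with u hu hu2
    refine ⟨le_rfl, ?_, Real.abs_cos_le_one u⟩
    intro h0
    have h0' : Real.cos u = 0 := h0
    rcases lt_or_gt_of_ne hu2 with h | h
    · have := Real.cos_pos_of_mem_Ioo (x := u) ⟨by linarith [hu.1, Real.pi_pos], h⟩
      linarith
    · have := Real.cos_neg_of_pi_div_two_lt_of_lt (x := u) h (by linarith [hu.2, Real.pi_pos])
      linarith
  · apply MeasurableSet.inter
    · exact measurableSet_le measurable_fst measurable_const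
    · apply MeasurableSet.inter
      · exact (measurableSet_eq_fun measurable_snd measurable_const).compl
      · exact measurableSet_le measurable_snd.abs measurable_const

/-- the measure of the far part -/
noncomputable def liftC_mu (Z u0 : ℝ) : ℕ → ℤ → Polynomial ℝ → Measure (ℕ × ℝ)
  | 0, e, p => liftC_nu 0 u0 (π - u0) (liftC_A e p)
  | n + 1, e, p => ENNReal.ofReal Z⁻¹ •
      (‖liftC_A (e - 1) p (π - u0)‖ₑ • Measure.dirac (n, -Real.cos u0)
        + ‖liftC_A (e - 1) p u0‖ₑ • Measure.dirac (n, Real.cos u0)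
        + liftC_mu Z u0 n (e - 2) (liftC_T e p))

theorem liftC_lintegral_mu_succ (Z u0 : ℝ) (n : ℕ) (e : ℤ) (p : Polynomial ℝ) {F : ℕ × ℝ → ℝ≥0∞}
    (hF : Measurable F) : ∫⁻ q, F q ∂(liftC_mu Z u0 (n + 1) e p) =
      ENNReal.ofReal Z⁻¹ * (‖liftC_A (e - 1) p (π - u0)‖ₑ * F (n, -Real.cos u0)
        + ‖liftC_A (e - 1) p u0‖ₑ * F (n, Real.cos u0)
        + ∫⁻ q, F q ∂(liftC_mu Z u0 n (e - 2) (liftC_T e p))) := by
  rw [liftC_mu, lintegral_smul_measure, lintegral_add_measure, lintegral_add_measure,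
    lintegral_smul_measure, lintegral_smul_measure, lintegral_dirac' _ hF, lintegral_dirac' _ hF]
  rfl

theorem liftC_measF {f : ℕ → ℝ → ℂ}
    (hf : ∀ j v, HasDerivAt (f j) (-(2 * π * Complex.I) * f (j + 1) v) v) (z : ℝ) :
    Measurable fun q : ℕ × ℝ => ‖f q.1 (z * q.2)‖ₑ := by
  apply measurable_from_prod_countable_right
  intro j
  exact (((liftC_fcont hf j).comp (continuous_const.mul continuous_id)).measurable).enorm

theorem liftC_bound (n : ℕ) : ∀ (e : ℤ) (p : Polynomial ℝ) {Z z u0 : ℝ}, 0 < Z → Z ≤ z →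
    0 < u0 → u0 ≤ π / 2 → ∀ {f : ℕ → ℝ → ℂ},
    (∀ j v, HasDerivAt (f j) (-(2 * π * Complex.I) * f (j + 1) v) v) →
    ‖∫ u in u0..(π - u0), (liftC_A e p u : ℂ) * f n (z * Real.cos u)‖ₑ ≤
      ∫⁻ q, ‖f q.1 (z * q.2)‖ₑ ∂(liftC_mu Z u0 n e p) := by
  induction n with
  | zero =>
    intro e p Z z u0 hZ hz hu0 hu1 f hf
    rw [liftC_mu, liftC_lintegral_nu _ _ _ (liftC_measA e p) (liftC_measF hf z),
      intervalIntegral.integral_of_le (by linarith), integral_Ioc_eq_integral_Ioo]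
    refine (enorm_integral_le_lintegral_enorm _).trans (le_of_eq ?_)
    congr 1
    funext u
    rw [enorm_mul]
    congr 1
    rw [← ofReal_norm, ← ofReal_norm, Complex.norm_real]
  | succ n ih =>
    intro e p Z z u0 hZ hz hu0 hu1 f hf
    have hz0 : 0 < z := hZ.trans_le hz
    rw [liftC_lintegral_mu_succ _ _ _ _ _ (liftC_measF hf z), liftC_step e p hz0 hu0 hu1 n hf,
      enorm_mul]
    have hcast : ∀ x : ℝ, ‖(x : ℂ)‖ₑ = ‖x‖ₑ := by
      intro x; rw [← ofReal_norm, ← ofReal_norm, Complex.norm_real]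
    apply mul_le_mul'
    · rw [← ofReal_norm]
      apply ENNReal.ofReal_le_ofReal
      rw [norm_inv, norm_mul, norm_mul, norm_mul, Complex.norm_I, mul_one, Complex.norm_ofNat,
        Complex.norm_real, Complex.norm_real, Real.norm_of_nonneg Real.pi_pos.le,
        Real.norm_of_nonneg hz0.le]
      apply inv_anti₀ hZ
      have := Real.pi_gt_three
      nlinarith
    · refine (enorm_add_le _ _).trans ?_
      apply add_le_add
      · refine (enorm_sub_le).trans ?_
        rw [enorm_mul, enorm_mul, hcast, hcast, Real.cos_pi_sub]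
      · exact ih (e - 2) (liftC_T e p) hZ hz hu0 hu1 hf

/-- the weight -/
noncomputable def liftC_w (b : ℝ) (q : ℕ × ℝ) : ℝ≥0∞ := ENNReal.ofReal (1 + |q.2| ^ (-b))

theorem liftC_measw (b : ℝ) : Measurable (liftC_w b) := by
  unfold liftC_w
  exact (measurable_const.add (measurable_snd.abs.pow_const _)).ennreal_ofReal

theorem liftC_int_sin {u0 : ℝ} (hu0 : 0 < u0) (hu1 : u0 ≤ π / 2) :
    ∫⁻ u in Ioo u0 (π - u0), ENNReal.ofReal (Real.sin u ^ (-2 : ℤ)) ≤
      ENNReal.ofReal (2 / Real.sin u0) := by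
  have hle : u0 ≤ π - u0 := by linarith
  have hI : uIcc u0 (π - u0) = Icc u0 (π - u0) := uIcc_of_le hle
  have hder : ∀ u ∈ uIcc u0 (π - u0), HasDerivAt (fun u => -(Real.cos u / Real.sin u))
      (Real.sin u ^ (-2 : ℤ)) u := by
    intro u hu
    rw [hI] at hu
    have hs := liftC_sin_pos hu0 hu
    refine (((Real.hasDerivAt_cos u).div (Real.hasDerivAt_sin u) hs.ne').neg).congr_deriv ?_
    rw [zpow_neg, zpow_ofNat]
    field_simp
    have := Real.sin_sq_add_cos_sq u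
    linarith
  have hc : ContinuousOn (fun u => Real.sin u ^ (-2 : ℤ)) (Icc u0 (π - u0)) :=
    (Real.continuous_sin.continuousOn).zpow₀ _ fun u hu => Or.inl (liftC_sin_pos hu0 hu).ne'
  have hii : IntervalIntegrable (fun u => Real.sin u ^ (-2 : ℤ)) volume u0 (π - u0) := by
    apply ContinuousOn.intervalIntegrable; rw [hI]; exact hc
  have hint := intervalIntegral.integral_eq_sub_of_hasDerivAt hder hii
  rw [intervalIntegral.integral_of_le hle, integral_Ioc_eq_integral_Ioo, Real.cos_pi_sub,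
    Real.sin_pi_sub] at hint
  have hio : IntegrableOn (fun u => Real.sin u ^ (-2 : ℤ)) (Ioo u0 (π - u0)) :=
    (hc.integrableOn_Icc).mono_set Ioo_subset_Icc_self
  have hs0 : 0 < Real.sin u0 := liftC_sin_pos hu0 ⟨le_rfl, hle⟩
  rw [← ofReal_integral_eq_lintegral_ofReal hio]
  · apply ENNReal.ofReal_le_ofReal
    rw [hint]
    have : Real.cos u0 ≤ 1 := Real.cos_le_one u0
    have e : -(-Real.cos u0 / Real.sin u0) - -(Real.cos u0 / Real.sin u0)
        = 2 * Real.cos u0 / Real.sin u0 := by ring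
    rw [e]
    gcongr
    linarith
  · filter_upwards [ae_restrict_mem measurableSet_Ioo] with u hu
    exact zpow_nonneg (liftC_sin_pos hu0 (Ioo_subset_Icc_self hu)).le _

theorem liftC_cos_ge {u : ℝ} (hu0 : 0 ≤ u) (hu1 : u ≤ π) :
    2 / π * |u - π / 2| ≤ |Real.cos u| := by
  have h := Real.mul_abs_le_abs_sin (x := u - π / 2) (by rw [abs_le]; constructor <;> linarith)
  rwa [Real.sin_sub_pi_div_two, abs_neg] at h

/-- finiteness of the total weight -/
theorem liftC_M (b : ℝ) (hb0 : 0 ≤ b) (hb1 : b < 1) :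
    ∫⁻ u in Ioo 0 π, ENNReal.ofReal (1 + |Real.cos u| ^ (-b)) < ∞ := by
  have hpi := Real.pi_pos
  have h1 : IntegrableOn (fun u : ℝ => |u - π / 2| ^ (-b)) (Ioo 0 π) := by
    have hA : IntervalIntegrable (fun u : ℝ => (π / 2 - u) ^ (-b)) volume 0 (π / 2) := by
      have := (intervalIntegral.intervalIntegrable_rpow' (a := π / 2) (b := 0) (r := -b)
        (by linarith)).comp_sub_left (π / 2)
      simpa using this
    have hB : IntervalIntegrable (fun u : ℝ => (u - π / 2) ^ (-b)) volume (π / 2) π := by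
      have := (intervalIntegral.intervalIntegrable_rpow' (a := 0) (b := π / 2) (r := -b)
        (by linarith)).comp_sub_right (π / 2)
      simpa using this
    have hA' : IntervalIntegrable (fun u : ℝ => |u - π / 2| ^ (-b)) volume 0 (π / 2) := by
      refine hA.congr ?_
      rw [uIoc_of_le (by positivity)]
      intro u hu
      simp only
      rw [abs_of_nonpos (by linarith [hu.2])]
      congr 1; ring
    have hB' : IntervalIntegrable (fun u : ℝ => |u - π / 2| ^ (-b)) volume (π / 2) π := by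
      refine hB.congr ?_
      rw [uIoc_of_le (by linarith)]
      intro u hu
      simp only
      rw [abs_of_pos (by linarith [hu.1])]
    have := hA'.trans hB'
    rw [intervalIntegrable_iff_integrableOn_Ioc_of_le hpi.le] at this
    exact this.mono_set Ioo_subset_Ioc_self
  have h2 : IntegrableOn (fun u : ℝ => 1 + (2 / π) ^ (-b) * |u - π / 2| ^ (-b)) (Ioo 0 π) := by
    apply Integrable.add
    · exact integrable_const _
    · exact h1.const_mul _
  have h3 : ∀ᵐ u ∂(volume.restrict (Ioo 0 π)), ENNReal.ofReal (1 + |Real.cos u| ^ (-b)) ≤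
      ENNReal.ofReal (1 + (2 / π) ^ (-b) * |u - π / 2| ^ (-b)) := by
    have h1 : ∀ᵐ u ∂(volume.restrict (Ioo (0:ℝ) π)), u ∈ Ioo 0 π :=
      ae_restrict_mem measurableSet_Ioo
    have h2 : ∀ᵐ u ∂(volume.restrict (Ioo (0:ℝ) π)), u ≠ π / 2 :=
      ae_restrict_of_ae (Measure.ae_ne volume (π / 2))
    filter_upwards [h1, h2] with u hu hu2
    apply ENNReal.ofReal_le_ofReal
    have hp : 0 < |u - π / 2| := abs_pos.2 (sub_ne_zero.2 hu2)
    rw [← Real.mul_rpow (by positivity) (abs_nonneg _)]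
    have := Real.rpow_le_rpow_of_nonpos (x := 2 / π * |u - π / 2|) (y := |Real.cos u|) (z := -b)
      (by positivity) (liftC_cos_ge hu.1.le hu.2.le) (by linarith)
    linarith
  exact (lintegral_mono_ae h3).trans_lt h2.lintegral_lt_top

theorem liftC_pbound (p : Polynomial ℝ) : ∃ B : ℝ, 0 ≤ B ∧ ∀ c ∈ Icc (-1 : ℝ) 1, |p.eval c| ≤ B := by
  obtain ⟨B, hB⟩ := isCompact_Icc.exists_bound_of_continuousOn (s := Icc (-1 : ℝ) 1)
    (f := fun c => p.eval c) p.continuous.continuousOn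
  refine ⟨max B 0, le_max_right _ _, fun c hc => ?_⟩
  exact (hB c hc).trans (le_max_left _ _)

theorem liftC_Abound {p : Polynomial ℝ} {B : ℝ} (hB : ∀ c ∈ Icc (-1 : ℝ) 1, |p.eval c| ≤ B)
    (e : ℤ) {u : ℝ} (hu : 0 < Real.sin u) :
    ‖liftC_A e p u‖ₑ ≤ ENNReal.ofReal (B * Real.sin u ^ e) := by
  rw [← ofReal_norm]
  apply ENNReal.ofReal_le_ofReal
  unfold liftC_A
  rw [norm_mul, Real.norm_eq_abs, Real.norm_eq_abs, abs_of_pos (zpow_pos hu e), mul_comm]
  apply mul_le_mul_of_nonneg_right (hB _ ⟨Real.neg_one_le_cos u, Real.cos_le_one u⟩)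
    (zpow_pos hu e).le

theorem liftC_cos_big {u : ℝ} (h1 : |Real.sin u| ≤ 1 / 2) {b : ℝ} (hb0 : 0 ≤ b) (hb1 : b < 1) :
    |Real.cos u| ^ (-b) ≤ 2 := by
  have h2 : 1 / 2 ≤ |Real.cos u| := by
    have h3 := Real.sin_sq_add_cos_sq u
    rw [← sq_abs (Real.sin u), ← sq_abs (Real.cos u)] at h3
    by_contra hcon
    push Not at hcon
    nlinarith [abs_nonneg (Real.sin u), abs_nonneg (Real.cos u)]
  calc |Real.cos u| ^ (-b) ≤ (1 / 2 : ℝ) ^ (-b) :=
        Real.rpow_le_rpow_of_nonpos (by norm_num) h2 (by linarith)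
    _ = 2 ^ b := by
        rw [one_div, Real.inv_rpow (by norm_num), Real.rpow_neg (by norm_num), inv_inv]
    _ ≤ 2 ^ (1:ℝ) := Real.rpow_le_rpow_of_exponent_le (by norm_num) hb1.le
    _ = 2 := by norm_num

theorem liftC_zpow_anti {x y : ℝ} (hx : 0 < x) (hxy : x ≤ y) {e : ℤ} (he : e ≤ 0) :
    y ^ e ≤ x ^ e := by
  obtain ⟨k, hk⟩ := Int.eq_ofNat_of_zero_le (neg_nonneg.2 he)
  have : e = -(k : ℤ) := by omega
  rw [this, zpow_neg, zpow_neg, zpow_natCast, zpow_natCast]
  exact inv_anti₀ (pow_pos hx k) (pow_le_pow_left₀ hx.le hxy k)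

theorem liftC_base (b : ℝ) (hb0 : 0 ≤ b) (hb1 : b < 1) (e : ℤ) (he : e ≤ -2)
    (p : Polynomial ℝ) : ∃ C : ℝ≥0∞, C ≠ ∞ ∧ ∀ u0 : ℝ, 0 < u0 → u0 ≤ π / 2 → Real.sin u0 ≤ 1 / 2 →
      ∫⁻ u in Ioo u0 (π - u0), ‖liftC_A e p u‖ₑ * liftC_w b (0, Real.cos u) ≤
        C * ENNReal.ofReal (Real.sin u0 ^ (e + 1)) := by
  obtain ⟨B, hB0, hB⟩ := liftC_pbound p
  have hM := liftC_M b hb0 hb1
  set M := ∫⁻ u in Ioo 0 π, ENNReal.ofReal (1 + |Real.cos u| ^ (-b)) with hMdef
  refine ⟨ENNReal.ofReal B * (ENNReal.ofReal ((1 / 2 : ℝ) ^ e) * M + 6), ?_, ?_⟩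
  · apply ENNReal.mul_ne_top ENNReal.ofReal_ne_top
    apply ENNReal.add_ne_top.2
    exact ⟨ENNReal.mul_ne_top ENNReal.ofReal_ne_top hM.ne, by norm_num⟩
  intro u0 hu0 hu1 hs
  have hpi := Real.pi_pos
  have hle : u0 ≤ π - u0 := by linarith
  have hs0 : 0 < Real.sin u0 := liftC_sin_pos hu0 ⟨le_rfl, hle⟩
  set δ := Real.sin u0 with hδ
  have hsin : ∀ u ∈ Ioo u0 (π - u0), δ ≤ Real.sin u := by
    intro u hu
    rcases le_total u (π / 2) with h | h
    · exact Real.sin_le_sin_of_le_of_le_pi_div_two (by linarith) h hu.1.le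
    · rw [← Real.sin_pi_sub u]
      exact Real.sin_le_sin_of_le_of_le_pi_div_two (by linarith) (by linarith) (by linarith [hu.2])
  have hpt : ∀ u ∈ Ioo u0 (π - u0), ‖liftC_A e p u‖ₑ * liftC_w b (0, Real.cos u) ≤
      ENNReal.ofReal B * (ENNReal.ofReal ((1 / 2 : ℝ) ^ e) *
        ENNReal.ofReal (1 + |Real.cos u| ^ (-b))
        + ENNReal.ofReal (3 * δ ^ (e + 2)) * ENNReal.ofReal (Real.sin u ^ (-2 : ℤ))) := by
    intro u hu
    have hsu := hsin u hu
    have hsp : 0 < Real.sin u := hs0.trans_le hsu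
    have hc0 : 0 ≤ |Real.cos u| ^ (-b) := Real.rpow_nonneg (abs_nonneg _) _
    calc ‖liftC_A e p u‖ₑ * liftC_w b (0, Real.cos u)
        ≤ ENNReal.ofReal (B * Real.sin u ^ e) * ENNReal.ofReal (1 + |Real.cos u| ^ (-b)) :=
          mul_le_mul' (liftC_Abound hB e hsp) le_rfl
      _ = ENNReal.ofReal B * ENNReal.ofReal (Real.sin u ^ e * (1 + |Real.cos u| ^ (-b))) := by
          rw [ENNReal.ofReal_mul hB0, ENNReal.ofReal_mul (zpow_pos hsp e).le, mul_assoc]
      _ ≤ ENNReal.ofReal B * ENNReal.ofReal ((1 / 2 : ℝ) ^ e * (1 + |Real.cos u| ^ (-b))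
            + 3 * δ ^ (e + 2) * Real.sin u ^ (-2 : ℤ)) := by
          apply mul_le_mul' le_rfl
          apply ENNReal.ofReal_le_ofReal
          have hnn : 0 ≤ 3 * δ ^ (e + 2) * Real.sin u ^ (-2 : ℤ) := by positivity
          have hnn2 : 0 ≤ (1 / 2 : ℝ) ^ e * (1 + |Real.cos u| ^ (-b)) := by positivity
          rcases le_total (1 / 2) (Real.sin u) with h | h
          · have : Real.sin u ^ e ≤ (1 / 2 : ℝ) ^ e :=
              liftC_zpow_anti (by norm_num) h (by omega)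
            have := mul_le_mul_of_nonneg_right this (by positivity : 0 ≤ 1 + |Real.cos u| ^ (-b))
            linarith
          · have h2 := liftC_cos_big (u := u) (by rw [abs_of_pos hsp]; exact h) hb0 hb1
            have h3 : Real.sin u ^ e = Real.sin u ^ (e + 2) * Real.sin u ^ (-2 : ℤ) := by
              rw [← zpow_add₀ hsp.ne']; congr 1; ring
            have h4 : Real.sin u ^ (e + 2) ≤ δ ^ (e + 2) :=
              liftC_zpow_anti hs0 hsu (by omega)
            have h5 : Real.sin u ^ e * (1 + |Real.cos u| ^ (-b)) ≤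
                (δ ^ (e + 2) * Real.sin u ^ (-2 : ℤ)) * 3 := by
              rw [h3]
              apply mul_le_mul (mul_le_mul_of_nonneg_right h4 (by positivity)) (by linarith)
                (by positivity) (by positivity)
            linarith
      _ = _ := by
          rw [ENNReal.ofReal_add (by positivity) (by positivity),
            ENNReal.ofReal_mul (by positivity : (0:ℝ) ≤ (1 / 2 : ℝ) ^ e),
            ENNReal.ofReal_mul (by positivity : (0:ℝ) ≤ 3 * δ ^ (e + 2))]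
  have hmeas1 : Measurable fun u => ENNReal.ofReal (1 + |Real.cos u| ^ (-b)) :=
    (measurable_const.add (Real.measurable_cos.abs.pow_const _)).ennreal_ofReal
  have hmeas2 : Measurable fun u => ENNReal.ofReal (Real.sin u ^ (-2 : ℤ)) :=
    (Real.measurable_sin.pow_const _).ennreal_ofReal
  calc ∫⁻ u in Ioo u0 (π - u0), ‖liftC_A e p u‖ₑ * liftC_w b (0, Real.cos u)
      ≤ ∫⁻ u in Ioo u0 (π - u0), ENNReal.ofReal B * (ENNReal.ofReal ((1 / 2 : ℝ) ^ e) *
        ENNReal.ofReal (1 + |Real.cos u| ^ (-b))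
        + ENNReal.ofReal (3 * δ ^ (e + 2)) * ENNReal.ofReal (Real.sin u ^ (-2 : ℤ))) :=
        setLIntegral_mono' measurableSet_Ioo hpt
    _ = ENNReal.ofReal B * (ENNReal.ofReal ((1 / 2 : ℝ) ^ e) *
          (∫⁻ u in Ioo u0 (π - u0), ENNReal.ofReal (1 + |Real.cos u| ^ (-b)))
          + ENNReal.ofReal (3 * δ ^ (e + 2)) *
          ∫⁻ u in Ioo u0 (π - u0), ENNReal.ofReal (Real.sin u ^ (-2 : ℤ))) := by
        have hm3 : Measurable fun u => ENNReal.ofReal ((1 / 2 : ℝ) ^ e) *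
            ENNReal.ofReal (1 + |Real.cos u| ^ (-b)) + ENNReal.ofReal (3 * δ ^ (e + 2)) *
            ENNReal.ofReal (Real.sin u ^ (-2 : ℤ)) :=
          (hmeas1.const_mul _).add (hmeas2.const_mul _)
        rw [lintegral_const_mul _ hm3,
          lintegral_add_left (hmeas1.const_mul _), lintegral_const_mul _ hmeas1,
          lintegral_const_mul _ hmeas2]
    _ ≤ ENNReal.ofReal B * (ENNReal.ofReal ((1 / 2 : ℝ) ^ e) * M
          + ENNReal.ofReal (3 * δ ^ (e + 2)) * ENNReal.ofReal (2 / δ)) := by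
        gcongr
        · rw [hMdef]
          exact lintegral_mono_set (Ioo_subset_Ioo hu0.le (by linarith))
        · exact liftC_int_sin hu0 hu1
    _ ≤ ENNReal.ofReal B * ((ENNReal.ofReal ((1 / 2 : ℝ) ^ e) * M + 6) *
          ENNReal.ofReal (δ ^ (e + 1))) := by
        apply mul_le_mul' le_rfl
        rw [add_mul]
        apply add_le_add
        · have : (1 : ℝ) ≤ δ ^ (e + 1) := one_le_zpow_of_nonpos₀ hs0 (by linarith) (by omega)
          calc ENNReal.ofReal ((1 / 2 : ℝ) ^ e) * M = ENNReal.ofReal ((1 / 2 : ℝ) ^ e) * M * 1 := by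
                rw [mul_one]
            _ ≤ _ := by
                apply mul_le_mul' le_rfl
                rw [← ENNReal.ofReal_one]
                exact ENNReal.ofReal_le_ofReal this
        · rw [← ENNReal.ofReal_mul (by positivity)]
          have e6 : (6 : ℝ≥0∞) = ENNReal.ofReal 6 := by norm_num
          rw [e6, ← ENNReal.ofReal_mul (by norm_num)]
          apply ENNReal.ofReal_le_ofReal
          have : δ ^ (e + 2) = δ ^ (e + 1) * δ := by
            rw [← zpow_add_one₀ hs0.ne']; congr 1; ring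
          rw [this]
          field_simp
          norm_num
    _ = _ := by rw [mul_assoc]

theorem liftC_mass (b : ℝ) (hb0 : 0 ≤ b) (hb1 : b < 1) (n : ℕ) : ∀ (e : ℤ), e - 2 * n ≤ -2 →
    ∀ (p : Polynomial ℝ), ∃ C : ℝ≥0∞, C ≠ ∞ ∧
      ∀ (Z u0 : ℝ), 0 < u0 → u0 ≤ π / 2 → Real.sin u0 ≤ 1 / 2 → Z⁻¹ = 4 * Real.sin u0 ^ 2 →
      ∫⁻ q, liftC_w b q ∂(liftC_mu Z u0 n e p) ≤ C * ENNReal.ofReal (Real.sin u0 ^ (e + 1)) := by
  induction n with
  | zero =>
    intro e he p
    obtain ⟨C, hC, h⟩ := liftC_base b hb0 hb1 e (by simpa using he) p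
    refine ⟨C, hC, fun Z u0 hu0 hu1 hs _ => ?_⟩
    rw [liftC_mu, liftC_lintegral_nu _ _ _ (liftC_measA e p) (liftC_measw b)]
    exact h u0 hu0 hu1 hs
  | succ n ih =>
    intro e he p
    obtain ⟨C, hC, h⟩ := ih (e - 2) (by push_cast at he; linarith) (liftC_T e p)
    obtain ⟨B, hB0, hB⟩ := liftC_pbound p
    refine ⟨24 * ENNReal.ofReal B + 4 * C, ?_, ?_⟩
    · apply ENNReal.add_ne_top.2
      exact ⟨ENNReal.mul_ne_top (by norm_num) ENNReal.ofReal_ne_top,
        ENNReal.mul_ne_top (by norm_num) hC⟩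
    intro Z u0 hu0 hu1 hs hZ
    have hpi := Real.pi_pos
    have hle : u0 ≤ π - u0 := by linarith
    have hs0 : 0 < Real.sin u0 := liftC_sin_pos hu0 ⟨le_rfl, hle⟩
    rw [liftC_lintegral_mu_succ _ _ _ _ _ (liftC_measw b), hZ]
    have hIH := h Z u0 hu0 hu1 hs hZ
    set δ := Real.sin u0 with hδ
    have hw : liftC_w b (n, Real.cos u0) ≤ 3 := by
      unfold liftC_w
      have := liftC_cos_big (u := u0) (by rw [abs_of_pos hs0]; exact hs) hb0 hb1
      calc ENNReal.ofReal (1 + |Real.cos u0| ^ (-b)) ≤ ENNReal.ofReal 3 :=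
            ENNReal.ofReal_le_ofReal (by linarith)
        _ = 3 := by norm_num
    have hw' : liftC_w b (n, -Real.cos u0) ≤ 3 := by
      have : liftC_w b (n, -Real.cos u0) = liftC_w b (n, Real.cos u0) := by
        unfold liftC_w; rw [abs_neg]
      rw [this]; exact hw
    have hA1 : ‖liftC_A (e - 1) p (π - u0)‖ₑ ≤ ENNReal.ofReal (B * δ ^ (e - 1)) := by
      have := liftC_Abound hB (e - 1) (u := π - u0) (by rw [Real.sin_pi_sub]; exact hs0)
      rwa [Real.sin_pi_sub] at this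
    have hA2 : ‖liftC_A (e - 1) p u0‖ₑ ≤ ENNReal.ofReal (B * δ ^ (e - 1)) :=
      liftC_Abound hB (e - 1) hs0
    have hexp : e - 2 + 1 = e - 1 := by ring
    rw [hexp] at hIH
    calc ENNReal.ofReal (4 * δ ^ 2) * (‖liftC_A (e - 1) p (π - u0)‖ₑ *
          liftC_w b (n, -Real.cos u0) + ‖liftC_A (e - 1) p u0‖ₑ * liftC_w b (n, Real.cos u0)
          + ∫⁻ q, liftC_w b q ∂(liftC_mu Z u0 n (e - 2) (liftC_T e p)))
        ≤ ENNReal.ofReal (4 * δ ^ 2) * (ENNReal.ofReal (B * δ ^ (e - 1)) * 3 +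
            ENNReal.ofReal (B * δ ^ (e - 1)) * 3 + C * ENNReal.ofReal (δ ^ (e - 1))) := by
          gcongr
      _ = (24 * ENNReal.ofReal B + 4 * C) * ENNReal.ofReal (δ ^ (e + 1)) := by
          have h1 : δ ^ (e + 1) = δ ^ 2 * δ ^ (e - 1) := by
            rw [← zpow_natCast, ← zpow_add₀ hs0.ne']; congr 1; push_cast; ring
          rw [h1, ENNReal.ofReal_mul hB0, ENNReal.ofReal_mul (by positivity : (0:ℝ) ≤ δ ^ 2),
            ENNReal.ofReal_mul (by norm_num : (0:ℝ) ≤ 4)]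
          have : ENNReal.ofReal 4 = 4 := by norm_num
          rw [this]
          ring

theorem liftC_ae_mu (Z u0 : ℝ) (hu0 : 0 < u0) (hu1 : u0 < π / 2) (n : ℕ) : ∀ (e : ℤ)
    (p : Polynomial ℝ),
    ∀ᵐ q ∂(liftC_mu Z u0 n e p), q.1 ≤ n ∧ q.2 ≠ 0 ∧ |q.2| ≤ 1 := by
  have hpi := Real.pi_pos
  induction n with
  | zero =>
    intro e p
    rw [liftC_mu]
    exact liftC_ae_nu 0 hu0.le (by linarith)
  | succ n ih =>
    intro e p
    rw [liftC_mu]
    have hcos : 0 < Real.cos u0 := Real.cos_pos_of_mem_Ioo ⟨by linarith, hu1⟩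
    have hmeas : MeasurableSet {q : ℕ × ℝ | q.1 ≤ n + 1 ∧ q.2 ≠ 0 ∧ |q.2| ≤ 1} := by
      apply MeasurableSet.inter
      · exact measurableSet_le measurable_fst measurable_const
      · apply MeasurableSet.inter
        · exact (measurableSet_eq_fun measurable_snd measurable_const).compl
        · exact measurableSet_le measurable_snd.abs measurable_const
    have hd : ∀ c : ℝ, c ≠ 0 → |c| ≤ 1 →
        ∀ᵐ q ∂(Measure.dirac (n, c) : Measure (ℕ × ℝ)), q.1 ≤ n + 1 ∧ q.2 ≠ 0 ∧ |q.2| ≤ 1 := by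
      intro c hc hc1
      rw [ae_dirac_iff hmeas]
      exact ⟨Nat.le_succ n, hc, hc1⟩
    apply Measure.ae_smul_measure
    rw [ae_add_measure_iff, ae_add_measure_iff]
    refine ⟨⟨?_, ?_⟩, ?_⟩
    · apply Measure.ae_smul_measure
      exact hd _ (neg_ne_zero.2 hcos.ne') (by rw [abs_neg]; exact Real.abs_cos_le_one u0)
    · apply Measure.ae_smul_measure
      exact hd _ hcos.ne' (Real.abs_cos_le_one u0)
    · filter_upwards [ih (e - 2) (liftC_T e p)] with q hq
      exact ⟨hq.1.trans (Nat.le_succ n), hq.2⟩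

/-- the near parts -/
theorem liftC_near (b : ℝ) (hb0 : 0 ≤ b) (hb1 : b < 1) (i j : ℕ) {δ A B : ℝ} (hδ0 : 0 < δ)
    (hδ : δ ≤ 1 / 2) (hAB : B - A ≤ π / 2 * δ) (h : ∀ u ∈ Ioo A B, 0 ≤ Real.sin u ∧ Real.sin u ≤ δ) :
    ∫⁻ q, liftC_w b q ∂(liftC_nu j A B (liftC_A i 1)) ≤ 5 * ENNReal.ofReal (δ ^ (i + 1)) := by
  rw [liftC_lintegral_nu _ _ _ (liftC_measA _ _) (liftC_measw b)]
  have hpt : ∀ u ∈ Ioo A B, ‖liftC_A i 1 u‖ₑ * liftC_w b (j, Real.cos u) ≤
      ENNReal.ofReal (3 * δ ^ i) := by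
    intro u hu
    obtain ⟨h0, h1⟩ := h u hu
    have h2 := liftC_cos_big (u := u) (by rw [abs_of_nonneg h0]; linarith) hb0 hb1
    have h3 : ‖liftC_A i 1 u‖ₑ ≤ ENNReal.ofReal (δ ^ i) := by
      rw [← ofReal_norm]
      apply ENNReal.ofReal_le_ofReal
      unfold liftC_A
      rw [Polynomial.eval_one, mul_one, zpow_natCast, norm_pow, Real.norm_of_nonneg h0]
      exact pow_le_pow_left₀ h0 h1 i
    calc ‖liftC_A i 1 u‖ₑ * liftC_w b (j, Real.cos u)
        ≤ ENNReal.ofReal (δ ^ i) * ENNReal.ofReal 3 := by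
          apply mul_le_mul' h3
          unfold liftC_w
          apply ENNReal.ofReal_le_ofReal
          simp only
          linarith
      _ = _ := by rw [← ENNReal.ofReal_mul (by positivity), mul_comm]
  calc ∫⁻ u in Ioo A B, ‖liftC_A i 1 u‖ₑ * liftC_w b (j, Real.cos u)
      ≤ ∫⁻ u in Ioo A B, ENNReal.ofReal (3 * δ ^ i) := setLIntegral_mono' measurableSet_Ioo hpt
    _ = ENNReal.ofReal (3 * δ ^ i) * ENNReal.ofReal (B - A) := by
        rw [setLIntegral_const, Real.volume_Ioo]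
    _ ≤ ENNReal.ofReal (3 * δ ^ i) * ENNReal.ofReal (π / 2 * δ) := by
        gcongr
    _ = ENNReal.ofReal (3 * δ ^ i * (π / 2 * δ)) := by rw [← ENNReal.ofReal_mul (by positivity)]
    _ ≤ ENNReal.ofReal (5 * δ ^ (i + 1)) := by
        apply ENNReal.ofReal_le_ofReal
        have hpi : π < 3.15 := Real.pi_lt_d2
        have : 0 < δ ^ (i + 1) := by positivity
        calc 3 * δ ^ i * (π / 2 * δ) = (3 * π / 2) * δ ^ (i + 1) := by ring
          _ ≤ 5 * δ ^ (i + 1) := by
              apply mul_le_mul_of_nonneg_right _ this.le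
              linarith
    _ = _ := by
        rw [ENNReal.ofReal_mul (by norm_num)]
        norm_num

theorem near_far (i : ℕ) (b : ℝ) (hb0 : 0 ≤ b) (hb1 : b < 1) :
    ∃ C : ℝ≥0∞, C ≠ ∞ ∧ ∀ Z : ℝ, 1 ≤ Z → ∃ K : Measure (ℕ × ℝ), IsFiniteMeasure K ∧
      ∫⁻ q, ENNReal.ofReal (1 + |q.2| ^ (-b)) ∂K ≤
        C * ENNReal.ofReal (Z ^ (-(((i : ℝ) + 1) / 2))) ∧
      (∀ᵐ q ∂K, q.1 ≤ i + 1 ∧ q.2 ≠ 0 ∧ |q.2| ≤ 1) ∧
      ∀ f : ℕ → ℝ → ℂ,
        (∀ j v, HasDerivAt (f j) (-(2 * π * Complex.I) * f (j + 1) v) v) →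
        ∀ z ∈ Icc Z (2 * Z),
          ‖∫ u in Ioo 0 π, ((Real.sin u ^ i : ℝ) : ℂ) * f (i + 1) (z * Real.cos u)‖ₑ ≤
            ∫⁻ q, ‖f q.1 (z * q.2)‖ₑ ∂K := by
  obtain ⟨C, hC, hmass⟩ := liftC_mass b hb0 hb1 (i + 1) (i : ℤ) (by push_cast; linarith) 1
  refine ⟨10 + C, ENNReal.add_ne_top.2 ⟨by norm_num, hC⟩, fun Z hZ => ?_⟩
  have hpi := Real.pi_pos
  have hZ0 : 0 < Z := by linarith
  set δ : ℝ := 1 / (2 * Real.sqrt Z) with hδ
  have hsq : 1 ≤ Real.sqrt Z := by rw [Real.one_le_sqrt]; exact hZ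
  have hδ0 : 0 < δ := by positivity
  have hδ1 : δ ≤ 1 / 2 := by
    rw [hδ, div_le_div_iff₀ (by positivity) (by norm_num)]; linarith
  set u0 := Real.arcsin δ with hu0def
  have hsin : Real.sin u0 = δ := Real.sin_arcsin (by linarith) (by linarith)
  have hu0 : 0 < u0 := Real.arcsin_pos.2 hδ0
  have hu1 : u0 < π / 2 := by
    rw [hu0def, Real.arcsin_lt_pi_div_two]; linarith
  have hu2 : u0 ≤ π / 2 * δ := by
    have := Real.mul_le_sin hu0.le hu1.le
    rw [hsin] at this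
    calc u0 = π / 2 * (2 / π * u0) := by field_simp
      _ ≤ π / 2 * δ := by gcongr
  have hle : u0 ≤ π - u0 := by linarith
  have hZinv : Z⁻¹ = 4 * Real.sin u0 ^ 2 := by
    rw [hsin, hδ, div_pow, mul_pow, Real.sq_sqrt hZ0.le]
    field_simp
    norm_num
  have hpow : δ ^ (i + 1) ≤ Z ^ (-(((i : ℝ) + 1) / 2)) := by
    have h1 : δ ≤ Z ^ (-(1 / 2 : ℝ)) := by
      rw [Real.rpow_neg hZ0.le, ← Real.sqrt_eq_rpow, hδ, ← one_div]
      apply one_div_le_one_div_of_le (by positivity)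
      linarith
    calc δ ^ (i + 1) ≤ (Z ^ (-(1 / 2 : ℝ))) ^ (i + 1) := pow_le_pow_left₀ hδ0.le h1 _
      _ = _ := by
          rw [← Real.rpow_natCast, ← Real.rpow_mul hZ0.le]
          congr 1
          push_cast
          ring
  set K1 := liftC_nu (i + 1) 0 u0 (liftC_A i 1) with hK1
  set K2 := liftC_nu (i + 1) (π - u0) π (liftC_A i 1) with hK2
  set K3 := liftC_mu Z u0 (i + 1) i 1 with hK3
  have hm1 := liftC_near b hb0 hb1 i (i + 1) (A := 0) (B := u0) hδ0 hδ1 (by linarith) (by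
    intro u hu
    refine ⟨Real.sin_nonneg_of_nonneg_of_le_pi hu.1.le (by linarith [hu.2]), ?_⟩
    rw [← hsin]
    exact Real.sin_le_sin_of_le_of_le_pi_div_two (by linarith [hu.1]) hu1.le hu.2.le)
  have hm2 := liftC_near b hb0 hb1 i (i + 1) (A := π - u0) (B := π) hδ0 hδ1 (by linarith) (by
    intro u hu
    refine ⟨Real.sin_nonneg_of_nonneg_of_le_pi (by linarith [hu.1]) hu.2.le, ?_⟩
    rw [← hsin, ← Real.sin_pi_sub u]
    exact Real.sin_le_sin_of_le_of_le_pi_div_two (by linarith [hu.2]) hu1.le (by linarith [hu.1]))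
  have hm3 := hmass Z u0 hu0 hu1.le (by rw [hsin]; exact hδ1) hZinv
  rw [hsin] at hm3
  have hm3' : δ ^ ((i : ℤ) + 1) = δ ^ (i + 1) := by
    rw [← zpow_natCast]; push_cast; rfl
  rw [hm3'] at hm3
  have htot : ∫⁻ q, liftC_w b q ∂(K1 + K2 + K3) ≤
      (10 + C) * ENNReal.ofReal (Z ^ (-(((i : ℝ) + 1) / 2))) := by
    rw [lintegral_add_measure, lintegral_add_measure]
    calc _ ≤ 5 * ENNReal.ofReal (δ ^ (i + 1)) + 5 * ENNReal.ofReal (δ ^ (i + 1))
          + C * ENNReal.ofReal (δ ^ (i + 1)) := add_le_add (add_le_add hm1 hm2) hm3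
      _ = (10 + C) * ENNReal.ofReal (δ ^ (i + 1)) := by ring
      _ ≤ _ := by gcongr
  refine ⟨K1 + K2 + K3, ?_, htot, ?_, ?_⟩
  · constructor
    calc (K1 + K2 + K3) univ = ∫⁻ _, 1 ∂(K1 + K2 + K3) := by rw [lintegral_one]
      _ ≤ ∫⁻ q, liftC_w b q ∂(K1 + K2 + K3) := by
          apply lintegral_mono
          intro q
          unfold liftC_w
          rw [← ENNReal.ofReal_one]
          apply ENNReal.ofReal_le_ofReal
          have := Real.rpow_nonneg (abs_nonneg q.2) (-b)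
          linarith
      _ ≤ _ := htot
      _ < ∞ := ENNReal.mul_lt_top (ENNReal.add_lt_top.2 ⟨by norm_num, hC.lt_top⟩)
          ENNReal.ofReal_lt_top
  · rw [ae_add_measure_iff, ae_add_measure_iff]
    refine ⟨⟨liftC_ae_nu (i + 1) le_rfl (by linarith), liftC_ae_nu (i + 1) (by linarith) le_rfl⟩,
      liftC_ae_mu Z u0 hu0 hu1 (i + 1) i 1⟩
  · intro f hf z hz
    have hz0 : Z ≤ z := hz.1
    have hFm := liftC_measF hf z
    rw [lintegral_add_measure, lintegral_add_measure]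
    have hfc : Continuous (fun u : ℝ => ((Real.sin u ^ i : ℝ) : ℂ) *
        f (i + 1) (z * Real.cos u)) := by
      apply Continuous.mul
      · exact Complex.continuous_ofReal.comp (Real.continuous_sin.pow i)
      · exact (liftC_fcont hf (i + 1)).comp (continuous_const.mul Real.continuous_cos)
    have hnu : ∀ A B : ℝ, A ≤ B → ‖∫ u in A..B, ((Real.sin u ^ i : ℝ) : ℂ) *
        f (i + 1) (z * Real.cos u)‖ₑ ≤
        ∫⁻ q, ‖f q.1 (z * q.2)‖ₑ ∂(liftC_nu (i + 1) A B (liftC_A i 1)) := by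
      intro A B hAB
      rw [liftC_lintegral_nu _ _ _ (liftC_measA _ _) hFm, intervalIntegral.integral_of_le hAB,
        integral_Ioc_eq_integral_Ioo]
      refine (enorm_integral_le_lintegral_enorm _).trans (le_of_eq ?_)
      congr 1
      funext u
      rw [enorm_mul]
      congr 1
      rw [← ofReal_norm, ← ofReal_norm, Complex.norm_real]
      unfold liftC_A
      rw [Polynomial.eval_one, mul_one, zpow_natCast]
    have hmid : ‖∫ u in u0..(π - u0), ((Real.sin u ^ i : ℝ) : ℂ) *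
        f (i + 1) (z * Real.cos u)‖ₑ ≤ ∫⁻ q, ‖f q.1 (z * q.2)‖ₑ ∂K3 := by
      have := liftC_bound (i + 1) (i : ℤ) 1 hZ0 hz0 hu0 hu1.le hf
      refine le_trans (le_of_eq ?_) this
      congr 2
      funext u
      unfold liftC_A
      rw [Polynomial.eval_one, mul_one, zpow_natCast]
    have hsplit : ∫ u in Ioo 0 π, ((Real.sin u ^ i : ℝ) : ℂ) * f (i + 1) (z * Real.cos u) =
        (∫ u in (0:ℝ)..u0, ((Real.sin u ^ i : ℝ) : ℂ) * f (i + 1) (z * Real.cos u)) +
        (∫ u in (π - u0)..π, ((Real.sin u ^ i : ℝ) : ℂ) * f (i + 1) (z * Real.cos u)) +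
        (∫ u in u0..(π - u0), ((Real.sin u ^ i : ℝ) : ℂ) * f (i + 1) (z * Real.cos u)) := by
      rw [← integral_Ioc_eq_integral_Ioo, ← intervalIntegral.integral_of_le hpi.le,
        ← intervalIntegral.integral_add_adjacent_intervals (b := u0)
          (hfc.intervalIntegrable _ _) (hfc.intervalIntegrable _ _),
        ← intervalIntegral.integral_add_adjacent_intervals (a := u0) (b := π - u0) (c := π)
          (hfc.intervalIntegrable _ _) (hfc.intervalIntegrable _ _)]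
      ring
    rw [hsplit]
    refine (enorm_add_le _ _).trans (add_le_add ((enorm_add_le _ _).trans (add_le_add ?_ ?_)) hmid)
    · exact hnu 0 u0 hu0.le
    · exact hnu (π - u0) π (by linarith)

end Pool.Agent.MP_6cbfb8_an
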