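import Pool.Agent.MP_6cbfb8_an.Slice

/-!
Hoelder, Tonelli and the planar estimate.
-/

namespace Pool.Agent.MP_6cbfb8_an

open MeasureTheory Set
open scoped ENNReal Real RealInnerProductSpace

lemma holder_weight {W : Type*} [MeasurableSpace W] (κ : Measure W) (k h : W → ℝ≥0∞)
    (hk : Measurable k) (hh : Measurable h) {p : ℝ} (hp : 1 ≤ p) :
    (∫⁻ w, k w * h w ∂κ) ^ p ≤ (∫⁻ w, k w ∂κ) ^ (p - 1) * ∫⁻ w, k w * h w ^ p ∂κ := by
  have hp0 : 0 < p := by linarith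
  have h1 := ENNReal.lintegral_mul_norm_pow_le (μ := κ) (f := k) (g := fun w => k w * h w ^ p)
    hk.aemeasurable (hk.mul (hh.pow_const p)).aemeasurable (p := 1 - 1 / p) (q := 1 / p)
    (by rw [sub_nonneg, div_le_one hp0]; exact hp) (by positivity) (by ring)
  have h2 : ∫⁻ w, k w * h w ∂κ = ∫⁻ w, k w ^ (1 - 1 / p) * (k w * h w ^ p) ^ (1 / p) ∂κ := by
    refine lintegral_congr fun w => ?_
    rw [ENNReal.mul_rpow_of_nonneg _ _ (by positivity : (0:ℝ) ≤ 1 / p), ← ENNReal.rpow_mul,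
      mul_one_div_cancel hp0.ne', ENNReal.rpow_one, ← mul_assoc,
      ← ENNReal.rpow_add_of_nonneg _ _ (by rw [sub_nonneg, div_le_one hp0]; exact hp)
        (by positivity : (0:ℝ) ≤ 1 / p)]
    simp
  rw [← h2] at h1
  calc (∫⁻ w, k w * h w ∂κ) ^ p ≤ ((∫⁻ w, k w ∂κ) ^ (1 - 1 / p) *
        (∫⁻ w, k w * h w ^ p ∂κ) ^ (1 / p)) ^ p := by gcongr
    _ = _ := by
        rw [ENNReal.mul_rpow_of_nonneg _ _ hp0.le, ← ENNReal.rpow_mul, ← ENNReal.rpow_mul,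
          one_div_mul_cancel hp0.ne', ENNReal.rpow_one]
        congr 2
        field_simp

lemma measurable_P_param {W : Type*} [MeasurableSpace W] (f : W → ℝ → ℂ)
    (hf : Measurable (Function.uncurry f)) (c : W → ℝ) (hc : Measurable c) :
    Measurable fun q : (ℝ × ℝ) × W => P (f q.2) (q.1.1 * c q.2) q.1.2 := by
  unfold P
  have h : Measurable fun x : ((ℝ × ℝ) × W) × ℝ => f x.1.2 x.2 *
      Complex.exp (((-(2 * π * ((x.1.1.1 * c x.1.2) * Real.sin x.2 + x.1.1.2 * Real.cos x.2)) : ℝ) : ℂ)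
        * Complex.I) := by
    have h1 : Measurable fun x : ((ℝ × ℝ) × W) × ℝ => f x.1.2 x.2 :=
      hf.comp (f := fun x : ((ℝ × ℝ) × W) × ℝ => (x.1.2, x.2)) (by fun_prop)
    refine h1.mul ?_
    fun_prop
  exact (h.stronglyMeasurable.integral_prod_right' (ν := volume.restrict (Ioo 0 π))).measurable

/-- One term in the estimate of the smooth part. -/
lemma term_bound {p κ' b : ℝ} {C : ℝ≥0∞} (hp : 1 ≤ p) (r : ℝ)
    (H : ∀ f : ℝ → ℂ, Measurable f →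
      (∀ θ, ‖f θ‖ ≤ 1) → (∀ θ ∈ Ioo 0 π, Real.sin θ < 1 / r → f θ = 0) →
      ∀ c : ℝ, c ≠ 0 → |c| ≤ 1 →
      ∫⁻ ρ in Icc r (2 * r), ∫⁻ z : ℝ, ‖P f (ρ * c) z‖ₑ ^ p
        ≤ C * ENNReal.ofReal (r ^ (2 - p / 2 + κ') * |c| ^ (-b)))
    (hr : 0 < r)
    {W : Type*} [MeasurableSpace W] (μ : Measure W) [SFinite μ] (k : W → ℝ≥0∞) (hk : Measurable k)
    (f : W → ℝ → ℂ) (hf : Measurable (Function.uncurry f)) (hf1 : ∀ w θ, ‖f w θ‖ ≤ 1)
    (hf0 : ∀ w, ∀ θ ∈ Ioo 0 π, Real.sin θ < 1 / r → f w θ = 0)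
    (c : W → ℝ) (hc : Measurable c) (hc0 : ∀ᵐ w ∂μ, c w ≠ 0) (hc1 : ∀ w, |c w| ≤ 1) :
    ∫⁻ ρ in Icc r (2 * r), ∫⁻ z : ℝ, (∫⁻ w, k w * ‖P (f w) (ρ * c w) z‖ₑ ∂μ) ^ p ≤
      (∫⁻ w, k w ∂μ) ^ (p - 1) * (C * ENNReal.ofReal (r ^ (2 - p / 2 + κ')) *
        ∫⁻ w, k w * ENNReal.ofReal (|c w| ^ (-b)) ∂μ) := by
  have hm : Measurable fun q : (ℝ × ℝ) × W => ‖P (f q.2) (q.1.1 * c q.2) q.1.2‖ₑ :=
    (measurable_P_param f hf c hc).enorm
  have hm1 : ∀ ρ z, Measurable fun w => ‖P (f w) (ρ * c w) z‖ₑ := fun ρ z =>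
    hm.comp (f := fun w : W => ((ρ, z), w)) (by fun_prop)
  calc ∫⁻ ρ in Icc r (2 * r), ∫⁻ z : ℝ, (∫⁻ w, k w * ‖P (f w) (ρ * c w) z‖ₑ ∂μ) ^ p
      ≤ ∫⁻ ρ in Icc r (2 * r), ∫⁻ z : ℝ, (∫⁻ w, k w ∂μ) ^ (p - 1) *
        ∫⁻ w, k w * ‖P (f w) (ρ * c w) z‖ₑ ^ p ∂μ := by
        refine lintegral_mono fun ρ => lintegral_mono fun z => ?_
        exact holder_weight μ k _ hk (hm1 ρ z) hp
    _ = (∫⁻ w, k w ∂μ) ^ (p - 1) * ∫⁻ ρ in Icc r (2 * r), ∫⁻ z : ℝ,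
        ∫⁻ w, k w * ‖P (f w) (ρ * c w) z‖ₑ ^ p ∂μ := by
        have hm2 : Measurable fun q : ℝ × ℝ => ∫⁻ w, k w * ‖P (f w) (q.1 * c w) q.2‖ₑ ^ p ∂μ := by
          have : Measurable fun x : (ℝ × ℝ) × W =>
              k x.2 * ‖P (f x.2) (x.1.1 * c x.2) x.1.2‖ₑ ^ p :=
            (hk.comp measurable_snd).mul (hm.pow_const p)
          exact this.lintegral_prod_right'
        have hm3 : ∀ ρ, Measurable fun z => ∫⁻ w, k w * ‖P (f w) (ρ * c w) z‖ₑ ^ p ∂μ := fun ρ =>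
          hm2.comp (f := fun z : ℝ => (ρ, z)) (by fun_prop)
        have e1 : ∀ ρ, ∫⁻ z : ℝ, (∫⁻ w, k w ∂μ) ^ (p - 1) *
            ∫⁻ w, k w * ‖P (f w) (ρ * c w) z‖ₑ ^ p ∂μ =
            (∫⁻ w, k w ∂μ) ^ (p - 1) * ∫⁻ z : ℝ, ∫⁻ w, k w * ‖P (f w) (ρ * c w) z‖ₑ ^ p ∂μ :=
          fun ρ => lintegral_const_mul _ (hm3 ρ)
        simp_rw [e1]
        exact lintegral_const_mul _ hm2.lintegral_prod_right'
    _ = (∫⁻ w, k w ∂μ) ^ (p - 1) * ∫⁻ w, k w * (∫⁻ ρ in Icc r (2 * r), ∫⁻ z : ℝ,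
        ‖P (f w) (ρ * c w) z‖ₑ ^ p) ∂μ := by
        congr 1
        have hm4 : Measurable fun x : (ℝ × ℝ) × W =>
            k x.2 * ‖P (f x.2) (x.1.1 * c x.2) x.1.2‖ₑ ^ p :=
          (hk.comp measurable_snd).mul (hm.pow_const p)
        rw [← lintegral_prod (μ := volume.restrict (Icc r (2 * r))) (ν := volume)
          (f := fun q : ℝ × ℝ => ∫⁻ w, k w * ‖P (f w) (q.1 * c w) q.2‖ₑ ^ p ∂μ)
          (hm4.lintegral_prod_right').aemeasurable]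
        rw [lintegral_lintegral_swap
          (f := fun (q : ℝ × ℝ) (w : W) => k w * ‖P (f w) (q.1 * c w) q.2‖ₑ ^ p)
          hm4.aemeasurable]
        refine lintegral_congr fun w => ?_
        have hm5 : Measurable fun q : ℝ × ℝ => ‖P (f w) (q.1 * c w) q.2‖ₑ ^ p :=
          (hm.pow_const p).comp (f := fun q : ℝ × ℝ => (q, w)) (by fun_prop)
        rw [lintegral_const_mul _ hm5, lintegral_prod _ hm5.aemeasurable]
    _ ≤ (∫⁻ w, k w ∂μ) ^ (p - 1) * ∫⁻ w, k w * (C * ENNReal.ofReal (r ^ (2 - p / 2 + κ')) *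
          ENNReal.ofReal (|c w| ^ (-b))) ∂μ := by
        refine mul_le_mul' le_rfl ?_
        refine lintegral_mono_ae ?_
        filter_upwards [hc0] with w hw
        refine mul_le_mul' le_rfl ?_
        have h2 := H (f w) (hf.comp (f := fun θ : ℝ => (w, θ)) (by fun_prop)) (hf1 w) (hf0 w) (c w)
          hw (hc1 w)
        rw [ENNReal.ofReal_mul (by positivity), ← mul_assoc] at h2
        exact h2
    _ = _ := by
        congr 1
        have e2 : ∀ w, k w * (C * ENNReal.ofReal (r ^ (2 - p / 2 + κ')) *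
            ENNReal.ofReal (|c w| ^ (-b))) = C * ENNReal.ofReal (r ^ (2 - p / 2 + κ')) *
              (k w * ENNReal.ofReal (|c w| ^ (-b))) := fun w => by ring
        simp_rw [e2]
        refine lintegral_const_mul _ ?_
        exact hk.mul (((hc.abs.pow_const _)).ennreal_ofReal)

end Pool.Agent.MP_6cbfb8_an
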