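import Pool.Agent.MP_6cbfb8_an.Aux0

namespace Pool.Agent.MP_6cbfb8_an

open MeasureTheory Set
open scoped ENNReal Real RealInnerProductSpace Pointwise

theorem measurePreserving_isometry {n : ℕ} (R : E n ≃ₗᵢ[ℝ] E n) :
    MeasurePreserving (fun x : S n => (⟨R x, by simp⟩ : S n)) (sm n) (sm n) := by
  have hc : Continuous (fun x : S n => (⟨R x, by simp⟩ : S n)) :=
    (R.continuous.comp continuous_subtype_val).subtype_mk _
  refine ⟨hc.measurable, ?_⟩
  refine Measure.ext fun s hs => ?_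
  rw [Measure.map_apply hc.measurable hs, Measure.toSphere_apply' _ (hc.measurable hs),
    Measure.toSphere_apply' _ hs]
  congr 1
  have e : Ioo (0 : ℝ) 1 • ((↑) '' ((fun x : S n => (⟨R x, by simp⟩ : S n)) ⁻¹' s) : Set (E n)) =
      R ⁻¹' (Ioo (0 : ℝ) 1 • ((↑) '' s : Set (E n))) := by
    ext x
    simp only [Set.mem_smul, mem_image, mem_preimage]
    constructor
    · rintro ⟨a, ha, _, ⟨y, hy, rfl⟩, rfl⟩
      exact ⟨a, ha, R y, ⟨_, hy, rfl⟩, by simp⟩
    · rintro ⟨a, ha, _, ⟨y, hy, rfl⟩, he⟩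
      refine ⟨a, ha, R.symm y, ⟨⟨R.symm y, by simp⟩, ?_, rfl⟩, ?_⟩
      · simpa using hy
      · apply R.injective
        rw [← he]
        simp
  rw [e, (R.measurePreserving).measure_preimage_emb R.toHomeomorph.measurableEmbedding]

lemma norm_join_sq {n : ℕ} (x : E n) (t : ℝ) : ‖join x t‖ ^ 2 = ‖x‖ ^ 2 + t ^ 2 := by
  rw [EuclideanSpace.norm_sq_eq, EuclideanSpace.norm_sq_eq, Fin.sum_univ_castSucc]
  simp [join]

theorem pt_mem {n : ℕ} (θ : ℝ) (ω : S n) : pt θ (ω : E n) ∈ S (n + 1) := by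
  rw [mem_sphere_zero_iff_norm]
  have h1 : ‖pt θ (ω : E n)‖ ^ 2 = 1 := by
    unfold pt
    rw [norm_join_sq, norm_smul]
    have : ‖(ω : E n)‖ = 1 := by simp
    rw [this, mul_one, Real.norm_eq_abs, sq_abs, Real.sin_sq_add_cos_sq]
  nlinarith [norm_nonneg (pt θ (ω : E n)), sq_nonneg (‖pt θ (ω : E n)‖ - 1)]

lemma continuous_join {n : ℕ} : Continuous fun q : E n × ℝ => join q.1 q.2 := by
  unfold join
  refine (PiLp.continuous_toLp 2 _).comp ?_
  refine continuous_pi fun i => ?_
  refine Fin.lastCases ?_ (fun j => ?_) i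
  · simp only [Fin.snoc_last]
    exact continuous_snd
  · simp only [Fin.snoc_castSucc]
    exact (EuclideanSpace.proj j : E n →L[ℝ] ℝ).continuous.comp continuous_fst

lemma continuous_pt {n : ℕ} : Continuous fun q : ℝ × E n => pt q.1 q.2 := by
  unfold pt
  have h1 : Continuous fun q : ℝ × E n => ((Real.sin q.1 • q.2, Real.cos q.1) : E n × ℝ) := by
    fun_prop
  exact continuous_join.comp h1

lemma smul_join {n : ℕ} (c : ℝ) (x : E n) (t : ℝ) : c • join x t = join (c • x) (c * t) := by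
  unfold join
  ext i
  refine Fin.lastCases ?_ (fun j => ?_) i
  · simp
  · simp

theorem lintegral_join (n : ℕ) (φ : E (n + 1) → ℝ≥0∞) (hφ : Measurable φ) :
    ∫⁻ x, φ x = ∫⁻ y : E n, ∫⁻ z : ℝ, φ (join y z) := by
  have h1 := PiLp.volume_preserving_toLp (Fin (n + 1))
  have h2 := (volume_preserving_piFinSuccAbove (fun _ : Fin (n + 1) => ℝ) (Fin.last n)).symm
  have h3 := PiLp.volume_preserving_toLp (Fin n)
  have m1 : Measurable fun q : E n × ℝ => φ (join q.1 q.2) :=
    hφ.comp continuous_join.measurable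
  rw [← h1.lintegral_comp hφ]
  have m2 : Measurable fun f : Fin (n + 1) → ℝ => φ (WithLp.toLp 2 f) := hφ.comp h1.measurable
  rw [← h2.lintegral_comp m2]
  have e : ∀ q : ℝ × (Fin n → ℝ), φ (WithLp.toLp 2
      ((MeasurableEquiv.piFinSuccAbove (fun _ : Fin (n + 1) => ℝ) (Fin.last n)).symm q)) =
      φ (join (WithLp.toLp 2 q.2) q.1) := by
    rintro ⟨z, y⟩
    congr 1
    unfold join
    congr 1
    simp [MeasurableEquiv.piFinSuccAbove]
    rfl
  simp only [e]
  have m3 : Measurable fun q : ℝ × (Fin n → ℝ) => φ (join (WithLp.toLp 2 q.2) q.1) := by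
    have : Measurable fun q : ℝ × (Fin n → ℝ) => ((WithLp.toLp 2 q.2, q.1) : E n × ℝ) :=
      (h3.measurable.comp measurable_snd).prodMk measurable_fst
    exact m1.comp this
  have m4 : Measurable fun y : E n => ∫⁻ z : ℝ, φ (join y z) := by
    exact m1.lintegral_prod_right'
  rw [← h3.lintegral_comp m4]
  rw [Measure.volume_eq_prod, lintegral_prod_symm' _ m3]

theorem lintegral_polar (j : ℕ) (φ : E (j + 1) → ℝ≥0∞) (hφ : Measurable φ) :
    ∫⁻ x, φ x = ∫⁻ ω : S (j + 1), (∫⁻ ρ in Ioi (0:ℝ),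
      φ (ρ • (ω : E (j + 1))) * ENNReal.ofReal (ρ ^ j)) ∂(sm (j + 1)) := by
  have h1 := Measure.measurePreserving_homeomorphUnitSphereProd (volume : Measure (E (j + 1)))
  have hd : Module.finrank ℝ (E (j + 1)) - 1 = j := by simp
  rw [hd] at h1
  have e1 : ∫⁻ x, φ x = ∫⁻ x : ({0}ᶜ : Set (E (j + 1))), φ x
      ∂((volume : Measure (E (j + 1))).comap (↑)) := by
    rw [lintegral_subtype_comap (measurableSet_singleton _).compl, restrict_compl_singleton]
  have m1 : Measurable fun q : S (j + 1) × Ioi (0:ℝ) => φ ((q.2 : ℝ) • (q.1 : E (j + 1))) := by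
    have : Continuous fun q : S (j + 1) × Ioi (0:ℝ) => ((q.2 : ℝ) • (q.1 : E (j + 1))) := by
      fun_prop
    exact hφ.comp this.measurable
  have e2 := h1.lintegral_comp m1
  have e3 : ∀ x : ({0}ᶜ : Set (E (j + 1))),
      (((homeomorphUnitSphereProd (E (j + 1))) x).2 : ℝ) •
        (((homeomorphUnitSphereProd (E (j + 1))) x).1 : E (j + 1)) = x := by
    intro x
    have := homeomorphUnitSphereProd_symm_apply_coe (E (j + 1))
      ((homeomorphUnitSphereProd (E (j + 1))) x)
    rw [Homeomorph.symm_apply_apply] at this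
    exact this.symm
  simp only [e3] at e2
  rw [e1, e2, lintegral_prod _ m1.aemeasurable]
  refine lintegral_congr fun ω => ?_
  unfold Measure.volumeIoiPow
  have m2 : Measurable fun r : Ioi (0:ℝ) => ENNReal.ofReal ((r : ℝ) ^ j) := by fun_prop
  have m3 : Measurable fun r : Ioi (0:ℝ) => φ ((r : ℝ) • (ω : E (j + 1))) := by
    have : Continuous fun r : Ioi (0:ℝ) => ((r : ℝ) • (ω : E (j + 1))) := by
      fun_prop
    exact hφ.comp this.measurable
  rw [lintegral_withDensity_eq_lintegral_mul _ m2 m3, ← lintegral_subtype_comap measurableSet_Ioi]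
  refine lintegral_congr fun r => ?_
  simp [mul_comm]

lemma norm_pt {n : ℕ} (θ : ℝ) (ω : S n) : ‖pt θ (ω : E n)‖ = 1 := by
  simpa using pt_mem θ ω

/-- the radial test function of a set of the sphere -/
noncomputable def rad {n : ℕ} (A : Set (S n)) (x : E n) : ℝ≥0∞ :=
  ((fun x : E n => (‖x‖⁻¹ • x)) ⁻¹' ((↑) '' A : Set (E n)) ∩ {x | ‖x‖ < 1}).indicator 1 x

lemma measurable_rad {n : ℕ} {A : Set (S n)} (hA : MeasurableSet A) :
    Measurable (rad A) := by
  unfold rad
  have h1 : MeasurableSet ((↑) '' A : Set (E n)) :=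
    (Metric.isClosed_sphere.measurableSet).subtype_image hA
  have h2 : Measurable fun x : E n => (‖x‖⁻¹ • x) := by fun_prop
  have h3 : MeasurableSet {x : E n | ‖x‖ < 1} :=
    (isOpen_lt continuous_norm continuous_const).measurableSet
  exact Measurable.indicator measurable_one ((h2 h1).inter h3)

lemma rad_smul {n : ℕ} (A : Set (S n)) (ω : S n) {r : ℝ} (hr : 0 < r) :
    rad A (r • (ω : E n)) = (Iio (1:ℝ)).indicator 1 r * A.indicator 1 ω := by
  classical
  have h1 : ‖(ω : E n)‖ = 1 := by simp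
  have h2 : ‖r • (ω : E n)‖ = r := by rw [norm_smul, h1, mul_one, Real.norm_of_nonneg hr.le]
  unfold rad
  have h3 : r⁻¹ • r • (ω : E n) = ω := by rw [smul_smul, inv_mul_cancel₀ hr.ne', one_smul]
  simp only [indicator_apply, mem_inter_iff, mem_preimage, mem_ofPred_eq, h2, h3, mem_Iio,
    Pi.one_apply, Subtype.val_injective.mem_set_image]
  by_cases ha : ω ∈ A <;> by_cases hb : r < 1 <;> simp [ha, hb]

lemma lintegral_rpow_Iio (k : ℕ) :
    ∫⁻ ρ in Ioi (0:ℝ), (Iio (1:ℝ)).indicator 1 ρ * ENNReal.ofReal (ρ ^ k) =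
      ENNReal.ofReal (1 / (k + 1)) := by
  have e1 : ∀ ρ : ℝ, (Iio (1:ℝ)).indicator (1 : ℝ → ℝ≥0∞) ρ * ENNReal.ofReal (ρ ^ k) =
      (Iio (1:ℝ)).indicator (fun ρ => ENNReal.ofReal (ρ ^ k)) ρ := by
    intro ρ
    by_cases h : ρ ∈ Iio (1:ℝ) <;> simp [h]
  simp only [e1]
  rw [lintegral_indicator measurableSet_Iio, Measure.restrict_restrict measurableSet_Iio,
    Iio_inter_Ioi, ← ofReal_integral_eq_lintegral_ofReal]
  · congr 1
    rw [← integral_Ioc_eq_integral_Ioo, ← intervalIntegral.integral_of_le zero_le_one,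
      integral_pow]
    simp
  · have : IntegrableOn (fun ρ : ℝ => ρ ^ k) (Icc 0 1) :=
      (continuous_pow k).continuousOn.integrableOn_Icc
    exact this.mono_set Ioo_subset_Icc_self
  · refine (ae_restrict_iff' measurableSet_Ioo).2 (ae_of_all _ fun ρ hρ => ?_)
    exact pow_nonneg hρ.1.le _

/-- the polar decomposition of the test function in the half plane -/
lemma planar (n j : ℕ) (A : Set (S (n + 1))) (hA : MeasurableSet A) (ω : S n) :
    ∫⁻ ρ in Ioi (0:ℝ), (∫⁻ z : ℝ, rad A (join (ρ • (ω : E n)) z)) * ENNReal.ofReal (ρ ^ j) =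
      ENNReal.ofReal (1 / ((j + 1 : ℕ) + 1)) * ∫⁻ θ in Ioo 0 π, ENNReal.ofReal (Real.sin θ ^ j) *
        A.indicator 1 (⟨pt θ (ω : E n), pt_mem θ ω⟩ : S (n + 1)) := by
  have m0 : Measurable (rad A) := measurable_rad hA
  have m1 : Measurable fun q : ℝ × ℝ => rad A (join (q.2 • (ω : E n)) q.1) := by
    have : Continuous fun q : ℝ × ℝ => ((q.2 • (ω : E n), q.1) : E n × ℝ) := by
      fun_prop
    exact m0.comp (continuous_join.comp this).measurable
  set f : ℝ × ℝ → ℝ≥0∞ := fun q => (Ioi (0:ℝ)).indicator 1 q.2 *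
    (rad A (join (q.2 • (ω : E n)) q.1) * ENNReal.ofReal (q.2 ^ j)) with hf
  have m2 : Measurable f := by
    refine ((measurable_one.indicator measurableSet_Ioi).comp measurable_snd).mul
      (m1.mul ?_)
    fun_prop
  have e1 : ∫⁻ ρ in Ioi (0:ℝ), (∫⁻ z : ℝ, rad A (join (ρ • (ω : E n)) z)) *
      ENNReal.ofReal (ρ ^ j) = ∫⁻ q : ℝ × ℝ, f q := by
    rw [Measure.volume_eq_prod, lintegral_prod_symm' _ m2, ← lintegral_indicator measurableSet_Ioi]
    refine lintegral_congr fun ρ => ?_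
    have m3 : Measurable fun z : ℝ => rad A (join (ρ • (ω : E n)) z) := by
      have h0 : Measurable fun z : ℝ => ((z, ρ) : ℝ × ℝ) := by fun_prop
      have h1 := m1.comp h0
      dsimp only [Function.comp_def] at h1
      exact h1
    by_cases h : ρ ∈ Ioi (0:ℝ)
    · simp only [hf, h, indicator_of_mem, Pi.one_apply, one_mul]
      rw [lintegral_mul_const _ m3]
    · simp [hf, h]
  rw [e1, ← lintegral_comp_polarCoord_symm]
  have e2 : ∫⁻ p : ℝ × ℝ in polarCoord.target, ENNReal.ofReal p.1 • f (polarCoord.symm p) =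
      ∫⁻ p : ℝ × ℝ in polarCoord.target, ((Iio (1:ℝ)).indicator 1 p.1 *
        ENNReal.ofReal (p.1 ^ (j + 1))) * ((Ioo 0 π).indicator (fun θ =>
        ENNReal.ofReal (Real.sin θ ^ j) *
        A.indicator 1 (⟨pt θ (ω : E n), pt_mem θ ω⟩ : S (n + 1))) p.2) := by
    refine setLIntegral_congr_fun polarCoord.open_target.measurableSet fun p hp => ?_
    rw [polarCoord_target] at hp
    obtain ⟨hr, hθ⟩ := hp
    simp only [mem_Ioi] at hr
    have hsym : polarCoord.symm p = (p.1 * Real.cos p.2, p.1 * Real.sin p.2) := rfl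
    simp only [hsym, hf, smul_eq_mul]
    by_cases h : p.2 ∈ Ioo 0 π
    · have hs : 0 < Real.sin p.2 := Real.sin_pos_of_mem_Ioo h
      have h1 : p.1 * Real.sin p.2 ∈ Ioi (0:ℝ) := mul_pos hr hs
      have h2 : join ((p.1 * Real.sin p.2) • (ω : E n)) (p.1 * Real.cos p.2) =
          p.1 • pt p.2 (ω : E n) := by
        unfold pt
        rw [smul_join, smul_smul]
      have h3 := rad_smul A (⟨pt p.2 (ω : E n), pt_mem p.2 ω⟩ : S (n + 1)) hr
      simp only at h3
      rw [indicator_of_mem h1, indicator_of_mem h, h2, h3, mul_pow, ENNReal.ofReal_mul (by positivity),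
        pow_succ, ENNReal.ofReal_mul (by positivity)]
      simp only [Pi.one_apply]
      ring
    · have hs : ¬ (0 < Real.sin p.2) := by
        intro hs
        apply h
        refine ⟨?_, hθ.2⟩
        by_contra hc
        push Not at hc
        have := Real.sin_nonpos_of_nonpos_of_neg_pi_le hc hθ.1.le
        linarith
      have h1 : p.1 * Real.sin p.2 ∉ Ioi (0:ℝ) := by
        intro h1
        exact hs (pos_of_mul_pos_right h1 hr.le)
      rw [indicator_of_notMem h1, indicator_of_notMem h]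
      simp
  have m4 : Measurable fun θ : ℝ => ENNReal.ofReal (Real.sin θ ^ j) *
        A.indicator 1 (⟨pt θ (ω : E n), pt_mem θ ω⟩ : S (n + 1)) := by
    have hc0 : Continuous fun θ : ℝ => ((θ, (ω : E n)) : ℝ × E n) := by fun_prop
    have hc1 := continuous_pt.comp hc0
    dsimp only [Function.comp_def] at hc1
    have hc : Continuous fun θ : ℝ => (⟨pt θ (ω : E n), pt_mem θ ω⟩ : S (n + 1)) :=
      Continuous.subtype_mk hc1 _
    have hm : Measurable fun θ : ℝ =>
        A.indicator (1 : S (n + 1) → ℝ≥0∞) (⟨pt θ (ω : E n), pt_mem θ ω⟩ : S (n + 1)) :=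
      (measurable_one.indicator hA).comp hc.measurable
    refine Measurable.mul ?_ hm
    fun_prop
  have m5 : Measurable fun r : ℝ => (Iio (1:ℝ)).indicator (1 : ℝ → ℝ≥0∞) r *
        ENNReal.ofReal (r ^ (j + 1)) := by
    refine (measurable_one.indicator measurableSet_Iio).mul ?_
    fun_prop
  rw [e2, polarCoord_target, Measure.volume_eq_prod, ← Measure.prod_restrict,
    lintegral_prod_mul m5.aemeasurable (m4.indicator measurableSet_Ioo).aemeasurable,
    lintegral_rpow_Iio, lintegral_indicator measurableSet_Ioo,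
    Measure.restrict_restrict measurableSet_Ioo]
  have e3 : Ioo 0 π ∩ Ioo (-π) π = Ioo 0 π := by
    rw [inter_eq_left]
    intro θ hθ
    exact ⟨by linarith [hθ.1, Real.pi_pos], hθ.2⟩
  rw [e3]

/-- slicing, with the dimension written `j + 1 + 1` -/
theorem slicing_aux (j : ℕ) :
    MeasurePreserving
      (fun q : ℝ × S (j + 1) => (⟨pt q.1 (q.2 : E (j + 1)), pt_mem q.1 q.2⟩ : S (j + 1 + 1)))
      ((((volume : Measure ℝ).restrict (Ioo 0 π)).withDensity
        (fun θ => ENNReal.ofReal (Real.sin θ ^ j))).prod (sm (j + 1))) (sm (j + 1 + 1)) := by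
  have hc : Continuous (fun q : ℝ × S (j + 1) =>
      (⟨pt q.1 (q.2 : E (j + 1)), pt_mem q.1 q.2⟩ : S (j + 1 + 1))) := by
    have hc0 : Continuous fun q : ℝ × S (j + 1) => ((q.1, (q.2 : E (j + 1))) : ℝ × E (j + 1)) := by
      fun_prop
    have hc1 := continuous_pt.comp hc0
    dsimp only [Function.comp_def] at hc1
    exact Continuous.subtype_mk hc1 _
  refine ⟨hc.measurable, ?_⟩
  refine Measure.ext fun A hA => ?_
  rw [Measure.map_apply hc.measurable hA]
  have m0 : Measurable (rad A) := measurable_rad hA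
  set c : ℝ≥0∞ := ENNReal.ofReal (1 / ((j + 1 : ℕ) + 1)) with hcdef
  have hc0 : c ≠ 0 := by
    rw [hcdef]
    simp only [ne_eq, ENNReal.ofReal_eq_zero, not_le]
    positivity
  have hct : c ≠ ∞ := ENNReal.ofReal_ne_top
  have e1 : ∫⁻ x, rad A x = c * sm (j + 1 + 1) A := by
    rw [lintegral_polar (j + 1) _ m0]
    have : ∀ ω : S (j + 1 + 1), ∫⁻ ρ in Ioi (0:ℝ), rad A (ρ • (ω : E (j + 1 + 1))) *
        ENNReal.ofReal (ρ ^ (j + 1)) = c * A.indicator 1 ω := by
      intro ω
      rw [hcdef, ← lintegral_rpow_Iio (j + 1), ← lintegral_mul_const]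
      · refine setLIntegral_congr_fun measurableSet_Ioi fun ρ hρ => ?_
        rw [rad_smul A ω hρ]
        ring
      · refine (measurable_one.indicator measurableSet_Iio).mul ?_
        fun_prop
    simp only [this]
    rw [lintegral_const_mul _ (measurable_one.indicator hA), lintegral_indicator_one hA]
  have e2 : ∫⁻ x, rad A x = c * ((((volume : Measure ℝ).restrict (Ioo 0 π)).withDensity
        (fun θ => ENNReal.ofReal (Real.sin θ ^ j))).prod (sm (j + 1)))
        ((fun q : ℝ × S (j + 1) =>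
      (⟨pt q.1 (q.2 : E (j + 1)), pt_mem q.1 q.2⟩ : S (j + 1 + 1))) ⁻¹' A) := by
    rw [lintegral_join (j + 1) _ m0]
    have m1 : Measurable fun y : E (j + 1) => ∫⁻ z : ℝ, rad A (join y z) := by
      have : Measurable fun q : E (j + 1) × ℝ => rad A (join q.1 q.2) :=
        m0.comp continuous_join.measurable
      exact this.lintegral_prod_right'
    rw [lintegral_polar j _ m1]
    simp only [planar (j + 1) j A hA]
    rw [← lintegral_indicator_one (hc.measurable hA)]
    rw [lintegral_prod_symm' _ (measurable_one.indicator (hc.measurable hA)),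
      ← lintegral_const_mul]
    · refine lintegral_congr fun ω => ?_
      congr 1
      rw [lintegral_withDensity_eq_lintegral_mul]
      · rfl
      · fun_prop
      · have h0 : Measurable fun θ : ℝ => ((θ, ω) : ℝ × S (j + 1)) := by fun_prop
        exact (measurable_one.indicator (hc.measurable hA)).comp h0
    · have : Measurable fun q : S (j + 1) × ℝ => ((fun q : ℝ × S (j + 1) =>
      (⟨pt q.1 (q.2 : E (j + 1)), pt_mem q.1 q.2⟩ : S (j + 1 + 1))) ⁻¹' A).indicator
        (1 : ℝ × S (j + 1) → ℝ≥0∞) (q.2, q.1) :=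
        (measurable_one.indicator (hc.measurable hA)).comp measurable_swap
      exact this.lintegral_prod_right'
  have e3 := e2.symm.trans e1
  exact (ENNReal.mul_right_inj hc0 hct).1 e3

theorem slicing (j : ℕ) :
    MeasurePreserving
      (fun q : ℝ × S (j + 1) => (⟨pt q.1 (q.2 : E (j + 1)), pt_mem q.1 q.2⟩ : S (j + 2)))
      ((((volume : Measure ℝ).restrict (Ioo 0 π)).withDensity
        (fun θ => ENNReal.ofReal (Real.sin θ ^ j))).prod (sm (j + 1))) (sm (j + 2)) :=
  slicing_aux j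

end Pool.Agent.MP_6cbfb8_an
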