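import Pool.Agent.MP_6cbfb8_an.LiftDefs
import Pool.Agent.MP_6cbfb8_an.Bessel
import Pool.Agent.MP_6cbfb8_an.Sphere
import Pool.Agent.MP_6cbfb8_an.Low1

/-!
Uniform `L^p` bound, `p > 2`, on the hyperplane slices of the Fourier transform of a density on
a half sphere; derivative in the last variable.
-/

namespace Pool.Agent.MP_6cbfb8_an

open MeasureTheory Set
open scoped ENNReal Real RealInnerProductSpace

/-- The first coordinates. -/
noncomputable def liftD_pr {k : ℕ} (x : E (k + 1)) : E k :=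
  WithLp.toLp 2 fun i => x (Fin.castSucc i)

lemma liftD_inner {k : ℕ} (x : E (k + 1)) (y : E k) (v : ℝ) :
    inner ℝ x (join y v) = inner ℝ (liftD_pr x) y + x (Fin.last k) * v := by
  simp only [PiLp.inner_apply, Fin.sum_univ_castSucc, join, liftD_pr]
  simp
  ring

lemma liftD_abs_last {k : ℕ} (x : S (k + 1)) : |(x : E (k + 1)) (Fin.last k)| ≤ 1 := by
  have h := PiLp.norm_apply_le (x : E (k + 1)) (Fin.last k)
  have h1 : ‖(x : E (k + 1))‖ = 1 := by simp
  rw [h1, Real.norm_eq_abs] at h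
  exact h

lemma liftD_continuous_last {k : ℕ} : Continuous fun x : E (k + 1) => x (Fin.last k) :=
  (EuclideanSpace.proj (Fin.last k) : E (k + 1) →L[ℝ] ℝ).continuous

lemma liftD_continuous_pr {k : ℕ} : Continuous fun x : E (k + 1) => liftD_pr x := by
  unfold liftD_pr
  refine (PiLp.continuous_toLp 2 _).comp ?_
  refine continuous_pi fun i => ?_
  exact (EuclideanSpace.proj (Fin.castSucc i) : E (k + 1) →L[ℝ] ℝ).continuous

lemma liftD_measurable_tpow {k : ℕ} (j : ℕ) (G : E (k + 1) → ℂ) (hG : Measurable G) :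
    Measurable (tpow j G) := by
  unfold tpow
  have h := (liftD_continuous_last (k := k)).measurable
  refine Measurable.ite (measurableSet_lt measurable_const h) ?_ measurable_const
  exact hG.mul (Complex.measurable_ofReal.comp (h.pow_const j))

lemma liftD_norm_tpow {k : ℕ} (j : ℕ) (G : E (k + 1) → ℂ) (hb : ∀ x, ‖G x‖ ≤ 1)
    (x : S (k + 1)) : ‖tpow j G x‖ ≤ 1 := by
  unfold tpow
  have h1 := liftD_abs_last x
  split_ifs with h
  · rw [norm_mul, Complex.norm_real, norm_pow, Real.norm_eq_abs]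
    have h2 : |(x : E (k + 1)) (Fin.last k)| ^ j ≤ 1 := pow_le_one₀ (abs_nonneg _) h1
    calc ‖G x‖ * |(x : E (k + 1)) (Fin.last k)| ^ j ≤ 1 * 1 := by
          gcongr
          exact hb _
      _ = 1 := one_mul 1
  · simp

lemma liftD_tpow_succ {k : ℕ} (j : ℕ) (G : E (k + 1) → ℂ) (x : E (k + 1)) :
    tpow (j + 1) G x = tpow j G x * ((x (Fin.last k) : ℝ) : ℂ) := by
  unfold tpow
  split_ifs with h
  · push_cast
    ring
  · simp

lemma liftD_measurable_integrand {k : ℕ} (g : E (k + 1) → ℂ) (hg : Measurable g) (ξ : E (k + 1)) :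
    Measurable fun x : S (k + 1) => g x *
      Complex.exp (((-(2 * π * inner ℝ (x : E (k + 1)) ξ) : ℝ) : ℂ) * Complex.I) := by
  have h1 : Measurable fun x : S (k + 1) => g (x : E (k + 1)) := hg.comp (by fun_prop)
  have h2 : Continuous fun x : S (k + 1) => (inner ℝ (x : E (k + 1)) ξ : ℝ) := by fun_prop
  have h3 := h2.measurable
  fun_prop

theorem hasDerivAt_tpow (κ j : ℕ) (G : E (κ + 2) → ℂ) (hG : Measurable G)
    (hb : ∀ x, ‖G x‖ ≤ 1) (y : E (κ + 1)) (v : ℝ) :
    HasDerivAt (fun v => extn (tpow j G) (join y v))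
      (-(2 * π * Complex.I) * extn (tpow (j + 1) G) (join y v)) v := by
  have h := hasDerivAt_integral_of_dominated_loc_of_deriv_le (μ := sm (κ + 2)) (𝕜 := ℝ)
    (F := fun v (x : S (κ + 2)) => tpow j G x *
      Complex.exp (((-(2 * π * inner ℝ (x : E (κ + 2)) (join y v)) : ℝ) : ℂ) * Complex.I))
    (F' := fun v (x : S (κ + 2)) => (-(2 * π * Complex.I)) * (tpow (j + 1) G x *
      Complex.exp (((-(2 * π * inner ℝ (x : E (κ + 2)) (join y v)) : ℝ) : ℂ) * Complex.I)))
    (x₀ := v) (s := univ) (bound := fun _ => 2 * π) Filter.univ_mem ?_ ?_ ?_ ?_ ?_ ?_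
  · have h2 := h.2
    rw [integral_const_mul] at h2
    exact h2
  · exact Filter.Eventually.of_forall fun v =>
      (liftD_measurable_integrand _ (liftD_measurable_tpow j G hG) _).aestronglyMeasurable
  · refine Integrable.of_bound (C := 1)
      (liftD_measurable_integrand _ (liftD_measurable_tpow j G hG) _).aestronglyMeasurable
      (Filter.Eventually.of_forall fun x => ?_)
    rw [norm_mul, Complex.norm_exp_ofReal_mul_I, mul_one]
    exact liftD_norm_tpow j G hb x
  · exact ((liftD_measurable_integrand _ (liftD_measurable_tpow (j + 1) G hG) _).const_mul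
      _).aestronglyMeasurable
  · refine Filter.Eventually.of_forall fun x v _ => ?_
    rw [norm_mul, norm_mul, Complex.norm_exp_ofReal_mul_I, mul_one]
    have h1 := liftD_norm_tpow (j + 1) G hb x
    have h2 : ‖-(2 * (π : ℂ) * Complex.I)‖ = 2 * π := by
      rw [norm_neg, norm_mul, norm_mul, Complex.norm_I, Complex.norm_real, Real.norm_eq_abs,
        abs_of_pos Real.pi_pos]
      simp
    rw [h2]
    have := Real.pi_pos
    nlinarith
  · exact integrable_const _
  · refine Filter.Eventually.of_forall fun x v _ => ?_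
    simp only [liftD_inner]
    rw [liftD_tpow_succ]
    set t : ℝ := (x : E (κ + 2)) (Fin.last (κ + 1)) with ht
    set a : ℝ := inner ℝ (liftD_pr (x : E (κ + 2))) y with ha
    have h1 : HasDerivAt (fun v : ℝ => ((-(2 * π * (a + t * v)) : ℝ) : ℂ) * Complex.I)
        (((-(2 * π * t) : ℝ) : ℂ) * Complex.I) v := by
      have h2 : HasDerivAt (fun v : ℝ => (-(2 * π * (a + t * v)) : ℝ)) (-(2 * π * t)) v := by
        have h3 : HasDerivAt (fun v : ℝ => a + t * v) t v := by
          simpa using ((hasDerivAt_id v).const_mul t).const_add a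
        exact (h3.const_mul (2 * π)).neg
      exact h2.ofReal_comp.mul_const Complex.I
    have h2 := (h1.cexp).const_mul (tpow j G (x : E (κ + 2)))
    refine h2.congr_deriv ?_
    push_cast
    ring

/-! ### The slab estimate -/

/-- The projection to the first coordinates maps `t dσ` on the upper half sphere to Lebesgue
measure. -/
lemma liftD_push (κ : ℕ) (φ : E (κ + 1) → ℝ≥0∞) (hφ : Measurable φ) :
    ∫⁻ x : S (κ + 2), φ (liftD_pr (x : E (κ + 2))) *
      ENNReal.ofReal ((x : E (κ + 2)) (Fin.last (κ + 1))) ∂(sm (κ + 2)) ≤ ∫⁻ x, φ x := by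
  have hs := slicing κ
  have m1 : Measurable fun x : S (κ + 2) => φ (liftD_pr (x : E (κ + 2))) *
      ENNReal.ofReal ((x : E (κ + 2)) (Fin.last (κ + 1))) := by
    have h1 : Continuous fun x : S (κ + 2) => liftD_pr (x : E (κ + 2)) :=
      (liftD_continuous_pr (k := κ + 1)).comp continuous_subtype_val
    have h2 : Continuous fun x : S (κ + 2) => (x : E (κ + 2)) (Fin.last (κ + 1)) :=
      (liftD_continuous_last (k := κ + 1)).comp continuous_subtype_val
    exact (hφ.comp h1.measurable).mul (ENNReal.measurable_ofReal.comp h2.measurable)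
  rw [← hs.lintegral_comp m1]
  have e1 : ∀ q : ℝ × S (κ + 1), φ (liftD_pr (pt q.1 (q.2 : E (κ + 1)))) *
      ENNReal.ofReal ((pt q.1 (q.2 : E (κ + 1))) (Fin.last (κ + 1))) =
      φ (Real.sin q.1 • (q.2 : E (κ + 1))) * ENNReal.ofReal (Real.cos q.1) := by
    intro q
    have e2 : liftD_pr (pt q.1 (q.2 : E (κ + 1))) = Real.sin q.1 • (q.2 : E (κ + 1)) := by
      unfold liftD_pr pt join
      ext i
      simp
    have e3 : (pt q.1 (q.2 : E (κ + 1))) (Fin.last (κ + 1)) = Real.cos q.1 := by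
      unfold pt join
      simp
    rw [e2, e3]
  simp only [e1]
  have m2 : Measurable fun q : ℝ × S (κ + 1) => φ (Real.sin q.1 • (q.2 : E (κ + 1))) *
      ENNReal.ofReal (Real.cos q.1) := by
    have h1 : Continuous fun q : ℝ × S (κ + 1) => Real.sin q.1 • (q.2 : E (κ + 1)) := by fun_prop
    have h2 : Measurable fun q : ℝ × S (κ + 1) => ENNReal.ofReal (Real.cos q.1) := by fun_prop
    exact (hφ.comp h1.measurable).mul h2
  rw [lintegral_prod _ m2.aemeasurable]
  set ψ : ℝ → ℝ≥0∞ := fun ρ => ∫⁻ ω : S (κ + 1), φ (ρ • (ω : E (κ + 1))) ∂(sm (κ + 1)) with hψ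
  have mψ0 : Measurable fun q : ℝ × S (κ + 1) => φ (q.1 • (q.2 : E (κ + 1))) := by
    have h1 : Continuous fun q : ℝ × S (κ + 1) => q.1 • (q.2 : E (κ + 1)) := by fun_prop
    exact hφ.comp h1.measurable
  have mψ : Measurable ψ := mψ0.lintegral_prod_right'
  have e2 : ∀ θ : ℝ, ∫⁻ ω : S (κ + 1), φ (Real.sin θ • (ω : E (κ + 1))) *
      ENNReal.ofReal (Real.cos θ) ∂(sm (κ + 1)) = ψ (Real.sin θ) * ENNReal.ofReal (Real.cos θ) := by
    intro θ
    have h1 : Continuous fun ω : S (κ + 1) => Real.sin θ • (ω : E (κ + 1)) := by fun_prop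
    have h2 : Measurable fun ω : S (κ + 1) => φ (Real.sin θ • (ω : E (κ + 1))) :=
      hφ.comp h1.measurable
    rw [lintegral_mul_const _ h2]
  simp only [e2]
  rw [lintegral_withDensity_eq_lintegral_mul _ (by fun_prop) (by fun_prop)]
  have h3 := lintegral_image_eq_lintegral_abs_deriv_mul (s := Ioo 0 (π / 2)) (f := Real.sin)
    (f' := fun θ => Real.cos θ) measurableSet_Ioo
    (fun x _ => (Real.hasDerivAt_sin x).hasDerivWithinAt)
    (Real.injOn_sin.mono (fun x (hx : x ∈ Ioo 0 (π / 2)) =>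
      show x ∈ Icc (-(π / 2)) (π / 2) from ⟨by linarith [hx.1, Real.pi_pos], hx.2.le⟩))
    (fun ρ => ψ ρ * ENNReal.ofReal (ρ ^ κ))
  calc ∫⁻ θ in Ioo 0 π, ((fun θ => ENNReal.ofReal (Real.sin θ ^ κ)) *
        fun θ => ψ (Real.sin θ) * ENNReal.ofReal (Real.cos θ)) θ
      ≤ ∫⁻ θ in Ioo 0 (π / 2), ENNReal.ofReal |Real.cos θ| *
          (ψ (Real.sin θ) * ENNReal.ofReal (Real.sin θ ^ κ)) := by
        rw [← lintegral_indicator measurableSet_Ioo, ← lintegral_indicator measurableSet_Ioo]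
        refine lintegral_mono_ae ?_
        have hne : ∀ᵐ θ : ℝ, θ ≠ π / 2 := by
          simp [ae_iff, measure_singleton]
        filter_upwards [hne] with θ hθ
        simp only [indicator_apply, mem_Ioo, Pi.mul_apply]
        split_ifs with h1 h2
        · have hc : 0 ≤ Real.cos θ := Real.cos_nonneg_of_neg_pi_div_two_le_of_le
            (by linarith [h2.1, Real.pi_pos]) h2.2.le
          rw [abs_of_nonneg hc]
          apply le_of_eq
          ring
        · have h3 : π / 2 < θ := by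
            rcases lt_trichotomy θ (π / 2) with h | h | h
            · exact absurd ⟨h1.1, h⟩ h2
            · exact absurd h hθ
            · exact h
          have hc : Real.cos θ ≤ 0 := Real.cos_nonpos_of_pi_div_two_le_of_le h3.le
            (by linarith [h1.2, Real.pi_pos])
          rw [ENNReal.ofReal_of_nonpos hc]
          simp
        · simp
        · simp
    _ = ∫⁻ ρ in Real.sin '' Ioo 0 (π / 2), ψ ρ * ENNReal.ofReal (ρ ^ κ) := h3.symm
    _ ≤ ∫⁻ ρ in Ioi (0:ℝ), ψ ρ * ENNReal.ofReal (ρ ^ κ) := by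
        refine lintegral_mono_set ?_
        rintro _ ⟨θ, hθ, rfl⟩
        exact Real.sin_pos_of_pos_of_lt_pi hθ.1 (by linarith [hθ.2, Real.pi_pos])
    _ = ∫⁻ x, φ x := by
        rw [lintegral_polar κ φ hφ]
        have m3 : Measurable fun q : S (κ + 1) × ℝ => φ (q.2 • (q.1 : E (κ + 1))) *
            ENNReal.ofReal (q.2 ^ κ) := by
          have h1 : Continuous fun q : S (κ + 1) × ℝ => q.2 • (q.1 : E (κ + 1)) := by fun_prop
          have h2 : Measurable fun q : S (κ + 1) × ℝ => ENNReal.ofReal (q.2 ^ κ) := by fun_prop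
          exact (hφ.comp h1.measurable).mul h2
        rw [lintegral_lintegral_swap m3.aemeasurable]
        refine lintegral_congr fun ρ => ?_
        have h1 : Continuous fun ω : S (κ + 1) => ρ • (ω : E (κ + 1)) := by fun_prop
        have h2 : Measurable fun ω : S (κ + 1) => φ (ρ • (ω : E (κ + 1))) :=
          hφ.comp h1.measurable
        rw [lintegral_mul_const _ h2]

/-- The surface measure of the band `0 < t ≤ δ`. -/
lemma liftD_band (κ : ℕ) (δ : ℝ) :
    sm (κ + 2) {x : S (κ + 2) | 0 < (x : E (κ + 2)) (Fin.last (κ + 1)) ∧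
      (x : E (κ + 2)) (Fin.last (κ + 1)) ≤ δ} ≤
      ENNReal.ofReal (π / 2 * δ) * sm (κ + 1) univ := by
  have hs := slicing κ
  have hc : Continuous fun x : S (κ + 2) => (x : E (κ + 2)) (Fin.last (κ + 1)) :=
      (liftD_continuous_last (k := κ + 1)).comp continuous_subtype_val
  have hm : MeasurableSet {x : S (κ + 2) | 0 < (x : E (κ + 2)) (Fin.last (κ + 1)) ∧
      (x : E (κ + 2)) (Fin.last (κ + 1)) ≤ δ} :=
    (measurableSet_lt measurable_const hc.measurable).inter
      (measurableSet_le hc.measurable measurable_const)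
  rw [← hs.measure_preimage hm.nullMeasurableSet]
  have e1 : (fun q : ℝ × S (κ + 1) => (⟨pt q.1 (q.2 : E (κ + 1)), pt_mem q.1 q.2⟩ : S (κ + 2))) ⁻¹'
      {x : S (κ + 2) | 0 < (x : E (κ + 2)) (Fin.last (κ + 1)) ∧
      (x : E (κ + 2)) (Fin.last (κ + 1)) ≤ δ} =
      {θ : ℝ | 0 < Real.cos θ ∧ Real.cos θ ≤ δ} ×ˢ (univ : Set (S (κ + 1))) := by
    ext q
    have e3 : (pt q.1 (q.2 : E (κ + 1))) (Fin.last (κ + 1)) = Real.cos q.1 := by
      unfold pt join
      simp
    simp only [mem_preimage, mem_ofPred_eq, mem_prod, mem_univ, and_true, e3]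
  rw [e1, Measure.prod_prod]
  gcongr
  have hm2 : MeasurableSet {θ : ℝ | 0 < Real.cos θ ∧ Real.cos θ ≤ δ} :=
    (measurableSet_lt measurable_const Real.continuous_cos.measurable).inter
      (measurableSet_le Real.continuous_cos.measurable measurable_const)
  rw [withDensity_apply _ hm2, Measure.restrict_restrict hm2]
  calc ∫⁻ θ in {θ : ℝ | 0 < Real.cos θ ∧ Real.cos θ ≤ δ} ∩ Ioo 0 π,
        ENNReal.ofReal (Real.sin θ ^ κ)
      ≤ ∫⁻ θ in {θ : ℝ | 0 < Real.cos θ ∧ Real.cos θ ≤ δ} ∩ Ioo 0 π, 1 := by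
        refine setLIntegral_mono' (hm2.inter measurableSet_Ioo) fun θ hθ => ?_
        rw [← ENNReal.ofReal_one]
        refine ENNReal.ofReal_le_ofReal ?_
        exact pow_le_one₀ (Real.sin_nonneg_of_mem_Icc ⟨hθ.2.1.le, hθ.2.2.le⟩) (Real.sin_le_one θ)
    _ = volume ({θ : ℝ | 0 < Real.cos θ ∧ Real.cos θ ≤ δ} ∩ Ioo 0 π) := by
        rw [setLIntegral_const, one_mul]
    _ ≤ volume (Icc (π / 2 * (1 - δ)) (π / 2)) := by
        refine measure_mono ?_
        rintro θ ⟨⟨h1, h2⟩, h3, h4⟩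
        have h5 : θ < π / 2 := by
          by_contra h
          push Not at h
          have := Real.cos_nonpos_of_pi_div_two_le_of_le h (by linarith [Real.pi_pos])
          linarith
        have h6 := Real.mul_le_sin (x := π / 2 - θ) (by linarith) (by linarith)
        rw [Real.sin_pi_div_two_sub] at h6
        refine ⟨?_, h5.le⟩
        have hpi := Real.pi_pos
        have h7 : 2 / π * (π / 2 - θ) = 1 - 2 / π * θ := by field_simp
        have h8 : 1 - 2 / π * θ ≤ δ := by linarith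
        have h9 : π / 2 * (2 / π * θ) = θ := by field_simp
        nlinarith
    _ = ENNReal.ofReal (π / 2 * δ) := by
        rw [Real.volume_Icc]
        congr 1
        ring

/-- The dyadic pieces of the upper half sphere. -/
def liftD_A (κ m : ℕ) : Set (S (κ + 2)) :=
  {x : S (κ + 2) | (1 / 2 : ℝ) ^ (m + 1) < (x : E (κ + 2)) (Fin.last (κ + 1)) ∧
      (x : E (κ + 2)) (Fin.last (κ + 1)) ≤ (1 / 2 : ℝ) ^ m}

lemma liftD_continuous_last' (κ : ℕ) :
    Continuous fun x : S (κ + 2) => (x : E (κ + 2)) (Fin.last (κ + 1)) :=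
  (liftD_continuous_last (k := κ + 1)).comp continuous_subtype_val

lemma liftD_measurableSet_A (κ m : ℕ) : MeasurableSet (liftD_A κ m) :=
  (measurableSet_lt measurable_const (liftD_continuous_last' κ).measurable).inter
    (measurableSet_le (liftD_continuous_last' κ).measurable measurable_const)

/-- The Fourier transform of a piece. -/
noncomputable def liftD_F (κ m : ℕ) (H : S (κ + 2) → ℂ) (y : E (κ + 1)) : ℂ :=
  ∫ x in liftD_A κ m, H x *
    Complex.exp (((-(2 * π * inner ℝ (liftD_pr (x : E (κ + 2))) y) : ℝ) : ℂ) * Complex.I)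
      ∂(sm (κ + 2))

lemma liftD_measurable_phase (κ : ℕ) (H : S (κ + 2) → ℂ) (hH : Measurable H) :
    Measurable fun q : E (κ + 1) × S (κ + 2) => H q.2 *
      Complex.exp (((-(2 * π * inner ℝ (liftD_pr (q.2 : E (κ + 2))) q.1) : ℝ) : ℂ) * Complex.I) := by
  have h0 : Continuous fun q : E (κ + 1) × S (κ + 2) => liftD_pr (q.2 : E (κ + 2)) :=
    (liftD_continuous_pr (k := κ + 1)).comp (continuous_subtype_val.comp continuous_snd)
  have h1 : Continuous fun q : E (κ + 1) × S (κ + 2) =>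
      (inner ℝ (liftD_pr (q.2 : E (κ + 2))) q.1 : ℝ) := h0.inner continuous_fst
  have h2 := h1.measurable
  have h3 : Measurable fun q : E (κ + 1) × S (κ + 2) => H q.2 := hH.comp measurable_snd
  fun_prop

lemma liftD_measurable_F (κ m : ℕ) (H : S (κ + 2) → ℂ) (hH : Measurable H) :
    Measurable (liftD_F κ m H) := by
  unfold liftD_F
  exact ((liftD_measurable_phase κ H hH).stronglyMeasurable.integral_prod_right'
    (ν := (sm (κ + 2)).restrict (liftD_A κ m))).measurable

lemma liftD_sm_A (κ m : ℕ) : sm (κ + 2) (liftD_A κ m) ≤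
    ENNReal.ofReal (π / 2 * (1 / 2) ^ m) * sm (κ + 1) univ := by
  refine (measure_mono ?_).trans (liftD_band κ ((1 / 2) ^ m))
  intro x hx
  exact ⟨lt_of_le_of_lt (by positivity) hx.1, hx.2⟩

lemma liftD_F_sup (κ m : ℕ) (H : S (κ + 2) → ℂ) (hb : ∀ x, ‖H x‖ ≤ 1) (y : E (κ + 1)) :
    ‖liftD_F κ m H y‖ₑ ≤ ENNReal.ofReal (π / 2 * (1 / 2) ^ m) * sm (κ + 1) univ := by
  unfold liftD_F
  refine (enorm_integral_le_lintegral_enorm _).trans ?_
  refine le_trans ?_ (liftD_sm_A κ m)
  calc ∫⁻ x in liftD_A κ m, ‖H x * Complex.exp (((-(2 * π *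
        inner ℝ (liftD_pr (x : E (κ + 2))) y) : ℝ) : ℂ) * Complex.I)‖ₑ ∂(sm (κ + 2))
      ≤ ∫⁻ x in liftD_A κ m, 1 ∂(sm (κ + 2)) := by
        refine lintegral_mono fun x => ?_
        rw [enorm_mul, enorm_phase, mul_one, ← ofReal_norm, ← ENNReal.ofReal_one]
        exact ENNReal.ofReal_le_ofReal (hb x)
    _ = sm (κ + 2) (liftD_A κ m) := by rw [setLIntegral_const, one_mul]

lemma liftD_F_two (κ m : ℕ) (H : S (κ + 2) → ℂ) (hH : Measurable H) (hb : ∀ x, ‖H x‖ ≤ 1) :
    ∫⁻ y, ‖liftD_F κ m H y‖ₑ ^ (2:ℝ) ≤ ENNReal.ofReal π * sm (κ + 1) univ := by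
  have hpr : Measurable fun x : S (κ + 2) => liftD_pr (x : E (κ + 2)) :=
    ((liftD_continuous_pr (k := κ + 1)).comp continuous_subtype_val).measurable
  have hA : ∀ φ : E (κ + 1) → ℝ≥0∞, Measurable φ →
      ∫⁻ x, φ (liftD_pr (x : E (κ + 2))) ∂((sm (κ + 2)).restrict (liftD_A κ m)) ≤
      ENNReal.ofReal (2 ^ (m + 1)) * ∫⁻ x, φ x := by
    intro φ hφ
    calc ∫⁻ x in liftD_A κ m, φ (liftD_pr (x : E (κ + 2))) ∂(sm (κ + 2))
        ≤ ∫⁻ x in liftD_A κ m, ENNReal.ofReal (2 ^ (m + 1)) * (φ (liftD_pr (x : E (κ + 2))) *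
            ENNReal.ofReal ((x : E (κ + 2)) (Fin.last (κ + 1)))) ∂(sm (κ + 2)) := by
          refine setLIntegral_mono' (liftD_measurableSet_A κ m) fun x hx => ?_
          have h1 : (1 : ℝ≥0∞) ≤ ENNReal.ofReal (2 ^ (m + 1)) *
              ENNReal.ofReal ((x : E (κ + 2)) (Fin.last (κ + 1))) := by
            rw [← ENNReal.ofReal_mul (by positivity), ← ENNReal.ofReal_one]
            refine ENNReal.ofReal_le_ofReal ?_
            have h2 := hx.1
            have h3 : (2:ℝ) ^ (m + 1) * (1 / 2) ^ (m + 1) = 1 := by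
              rw [← mul_pow]; norm_num
            rw [← h3]
            gcongr
          calc φ (liftD_pr (x : E (κ + 2))) = φ (liftD_pr (x : E (κ + 2))) * 1 := (mul_one _).symm
            _ ≤ φ (liftD_pr (x : E (κ + 2))) * (ENNReal.ofReal (2 ^ (m + 1)) *
              ENNReal.ofReal ((x : E (κ + 2)) (Fin.last (κ + 1)))) := by gcongr
            _ = _ := by ring
      _ ≤ ∫⁻ x, ENNReal.ofReal (2 ^ (m + 1)) * (φ (liftD_pr (x : E (κ + 2))) *
            ENNReal.ofReal ((x : E (κ + 2)) (Fin.last (κ + 1)))) ∂(sm (κ + 2)) :=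
          setLIntegral_le_lintegral _ _
      _ = ENNReal.ofReal (2 ^ (m + 1)) * ∫⁻ x, (φ (liftD_pr (x : E (κ + 2))) *
            ENNReal.ofReal ((x : E (κ + 2)) (Fin.last (κ + 1)))) ∂(sm (κ + 2)) := by
          rw [lintegral_const_mul' _ _ ENNReal.ofReal_ne_top]
      _ ≤ ENNReal.ofReal (2 ^ (m + 1)) * ∫⁻ x, φ x := by
          gcongr
          exact liftD_push κ φ hφ
  have hint : Integrable H ((sm (κ + 2)).restrict (liftD_A κ m)) :=
    Integrable.of_bound (C := 1) hH.aestronglyMeasurable (Filter.Eventually.of_forall hb)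
  have h1 := bessel ((sm (κ + 2)).restrict (liftD_A κ m))
    (fun x : S (κ + 2) => liftD_pr (x : E (κ + 2))) hpr (ENNReal.ofReal (2 ^ (m + 1)))
    ENNReal.ofReal_ne_top hA H hint
  refine h1.trans ?_
  calc ENNReal.ofReal (2 ^ (m + 1)) *
        ∫⁻ w, ‖H w‖ₑ ^ (2:ℝ) ∂((sm (κ + 2)).restrict (liftD_A κ m))
      ≤ ENNReal.ofReal (2 ^ (m + 1)) * ∫⁻ w in liftD_A κ m, 1 ∂(sm (κ + 2)) := by
        gcongr with x
        have h2 : ‖H x‖ₑ ≤ 1 := by
          rw [← ofReal_norm, ← ENNReal.ofReal_one]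
          exact ENNReal.ofReal_le_ofReal (hb x)
        calc ‖H x‖ₑ ^ (2:ℝ) ≤ 1 ^ (2:ℝ) := by gcongr
          _ = 1 := ENNReal.one_rpow _
    _ ≤ ENNReal.ofReal (2 ^ (m + 1)) * (ENNReal.ofReal (π / 2 * (1 / 2) ^ m) * sm (κ + 1) univ) := by
        rw [setLIntegral_const, one_mul]
        gcongr
        exact liftD_sm_A κ m
    _ = ENNReal.ofReal π * sm (κ + 1) univ := by
        rw [← mul_assoc, ← ENNReal.ofReal_mul (by positivity)]
        congr 2
        have h3 : (2:ℝ) ^ m * (1 / 2) ^ m = 1 := by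
          rw [← mul_pow]; norm_num
        calc (2:ℝ) ^ (m + 1) * (π / 2 * (1 / 2) ^ m) = π * (2 ^ m * (1 / 2) ^ m) := by ring
          _ = π := by rw [h3, mul_one]

lemma liftD_F_p (κ m : ℕ) (H : S (κ + 2) → ℂ) (hH : Measurable H) (hb : ∀ x, ‖H x‖ ≤ 1)
    {p : ℝ} (hp : 2 < p) :
    ∫⁻ y, ‖liftD_F κ m H y‖ₑ ^ p ≤ (((ENNReal.ofReal (π / 2) * sm (κ + 1) univ) ^ (p - 2)) *
      (ENNReal.ofReal π * sm (κ + 1) univ)) * (((2 : ℝ≥0∞)⁻¹) ^ m) ^ (p - 2) := by
  have h1 := lintegral_rpow_le_sup (μ := (volume : Measure (E (κ + 1))))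
    (fun y => ‖liftD_F κ m H y‖ₑ) (liftD_measurable_F κ m H hH).enorm (p := p) (p' := 2)
    (by norm_num) hp.le _ (liftD_F_sup κ m H hb)
  refine h1.trans ?_
  have h2 : ENNReal.ofReal (π / 2 * (1 / 2) ^ m) * sm (κ + 1) univ =
      (ENNReal.ofReal (π / 2) * sm (κ + 1) univ) * ((2 : ℝ≥0∞)⁻¹) ^ m := by
    rw [ENNReal.ofReal_mul (by positivity), ENNReal.ofReal_pow (by positivity)]
    have : ENNReal.ofReal (1 / 2) = (2 : ℝ≥0∞)⁻¹ := by
      rw [one_div, ENNReal.ofReal_inv_of_pos (by norm_num)]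
      simp
    rw [this]
    ring
  rw [h2, ENNReal.mul_rpow_of_nonneg _ _ (by linarith)]
  calc (ENNReal.ofReal (π / 2) * sm (κ + 1) univ) ^ (p - 2) * (((2 : ℝ≥0∞)⁻¹) ^ m) ^ (p - 2) *
        ∫⁻ y, ‖liftD_F κ m H y‖ₑ ^ (2:ℝ)
      ≤ (ENNReal.ofReal (π / 2) * sm (κ + 1) univ) ^ (p - 2) * (((2 : ℝ≥0∞)⁻¹) ^ m) ^ (p - 2) *
        (ENNReal.ofReal π * sm (κ + 1) univ) := by
        gcongr
        exact liftD_F_two κ m H hH hb
    _ = _ := by ring

lemma liftD_geom (s : ℝ) (hs : 0 < s) : ∑' m : ℕ, (((2 : ℝ≥0∞)⁻¹) ^ m) ^ s ≠ ∞ := by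
  have h1 : ∀ m : ℕ, (((2 : ℝ≥0∞)⁻¹) ^ m) ^ s = (((2 : ℝ≥0∞)⁻¹) ^ s) ^ m := by
    intro m
    rw [← ENNReal.rpow_natCast, ← ENNReal.rpow_natCast, ← ENNReal.rpow_mul, ← ENNReal.rpow_mul,
      mul_comm]
  simp only [h1]
  rw [ENNReal.tsum_geometric]
  have h2 : ((2 : ℝ≥0∞)⁻¹) ^ s < 1 := ENNReal.rpow_lt_one (by norm_num) hs
  simp only [ne_eq, ENNReal.inv_eq_top, tsub_eq_zero_iff_le, not_le]
  exact h2

theorem slab (κ : ℕ) (p : ℝ) (hp : 2 < p) : ∃ C : ℝ≥0∞, C ≠ ∞ ∧ ∀ G : E (κ + 2) → ℂ,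
    Measurable G → (∀ x, ‖G x‖ ≤ 1) → ∀ (j : ℕ) (v : ℝ),
    ∫⁻ y : E (κ + 1), ‖extn (tpow j G) (join y v)‖ₑ ^ p ≤ C := by
  set K : ℝ≥0∞ := ((ENNReal.ofReal (π / 2) * sm (κ + 1) univ) ^ (p - 2)) *
      (ENNReal.ofReal π * sm (κ + 1) univ) with hK
  have hKt : K ≠ ∞ := by
    rw [hK]
    refine ENNReal.mul_ne_top (ENNReal.rpow_ne_top_of_nonneg (by linarith) ?_)
      (ENNReal.mul_ne_top ENNReal.ofReal_ne_top (sm_univ_ne_top _))
    exact ENNReal.mul_ne_top ENNReal.ofReal_ne_top (sm_univ_ne_top _)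
  set θ : ℝ := (p - 2) / 2 with hθ
  have hθ0 : 0 < θ := by rw [hθ]; linarith
  set s : ℝ := θ / (p - 1) with hs
  have hs0 : 0 < s := div_pos hθ0 (by linarith)
  have hsp : s * (1 - p) = -θ := by
    rw [hs]
    have : p - 1 ≠ 0 := by linarith
    field_simp
    ring
  set a : ℕ → ℝ≥0∞ := fun m => ((2 : ℝ≥0∞)⁻¹) ^ m with ha
  have ha0 : ∀ m, a m ≠ 0 := fun m => pow_ne_zero _ (by simp)
  have hat : ∀ m, a m ≠ ∞ := fun m => ENNReal.pow_ne_top (by simp)
  refine ⟨(∑' m, a m ^ s) ^ (p - 1) * (K * ∑' m, a m ^ θ), ?_, ?_⟩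
  · refine ENNReal.mul_ne_top (ENNReal.rpow_ne_top_of_nonneg (by linarith) (liftD_geom s hs0))
      (ENNReal.mul_ne_top hKt (liftD_geom θ hθ0))
  intro G hG hb j v
  set H : S (κ + 2) → ℂ := fun x => tpow j G x *
    Complex.exp (((-(2 * π * ((x : E (κ + 2)) (Fin.last (κ + 1)) * v)) : ℝ) : ℂ) * Complex.I) with hHdef
  have hH : Measurable H := by
    have h1 : Measurable fun x : S (κ + 2) => tpow j G (x : E (κ + 2)) :=
      (liftD_measurable_tpow j G hG).comp measurable_subtype_coe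
    have h2 := (liftD_continuous_last' κ).measurable
    fun_prop
  have hHb : ∀ x, ‖H x‖ ≤ 1 := by
    intro x
    simp only [hHdef]
    rw [norm_mul, Complex.norm_exp_ofReal_mul_I, mul_one]
    exact liftD_norm_tpow j G hb x
  -- the decomposition
  have hdec : ∀ y : E (κ + 1), ‖extn (tpow j G) (join y v)‖ₑ ≤ ∑' m, ‖liftD_F κ m H y‖ₑ := by
    intro y
    have e1 : extn (tpow j G) (join y v) = ∫ x : S (κ + 2), H x *
        Complex.exp (((-(2 * π * inner ℝ (liftD_pr (x : E (κ + 2))) y) : ℝ) : ℂ) * Complex.I)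
        ∂(sm (κ + 2)) := by
      unfold extn
      refine integral_congr_ae (Filter.Eventually.of_forall fun x => ?_)
      simp only [hHdef]
      rw [mul_assoc (tpow j G (x : E (κ + 2))), ← Complex.exp_add, liftD_inner]
      congr 2
      push_cast
      ring
    have hdisj : Pairwise (Function.onFun Disjoint (liftD_A κ)) := by
      have hlt : ∀ m m' : ℕ, m < m' → Disjoint (liftD_A κ m) (liftD_A κ m') := by
        intro m m' hmm
        rw [Set.disjoint_left]
        intro x hx hx'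
        have h1 := hx.1
        have h2 := hx'.2
        have h3 : (1 / 2 : ℝ) ^ m' ≤ (1 / 2) ^ (m + 1) :=
          pow_le_pow_of_le_one (by norm_num) (by norm_num) hmm
        linarith
      intro m m' hmm
      rcases lt_or_gt_of_ne hmm with h | h
      · exact hlt m m' h
      · exact (hlt m' m h).symm
    have hint : Integrable (fun x : S (κ + 2) => H x *
        Complex.exp (((-(2 * π * inner ℝ (liftD_pr (x : E (κ + 2))) y) : ℝ) : ℂ) * Complex.I))
        (sm (κ + 2)) := by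
      refine Integrable.of_bound (C := 1) ?_ (Filter.Eventually.of_forall fun x => ?_)
      · exact ((liftD_measurable_phase κ H hH).comp
          (f := fun x : S (κ + 2) => (y, x)) (by fun_prop)).aestronglyMeasurable
      · rw [norm_mul, Complex.norm_exp_ofReal_mul_I, mul_one]
        exact hHb x
    have e2 : ∫ x : S (κ + 2), H x *
        Complex.exp (((-(2 * π * inner ℝ (liftD_pr (x : E (κ + 2))) y) : ℝ) : ℂ) * Complex.I)
        ∂(sm (κ + 2)) = ∑' m, liftD_F κ m H y := by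
      rw [← setIntegral_eq_integral_of_forall_compl_eq_zero (s := ⋃ m, liftD_A κ m)]
      · rw [integral_iUnion (liftD_measurableSet_A κ) hdisj hint.integrableOn]
        rfl
      · intro x hx
        have h1 : tpow j G (x : E (κ + 2)) = 0 := by
          unfold tpow
          rw [if_neg]
          intro hpos
          apply hx
          have h2 := liftD_abs_last x
          obtain ⟨m, hm1, hm2⟩ := exists_nat_pow_near_of_lt_one hpos ((le_abs_self _).trans h2)
            (show (0:ℝ) < 1 / 2 by norm_num) (by norm_num)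
          exact mem_iUnion.2 ⟨m, hm1, hm2⟩
        simp only [hHdef, h1, zero_mul]
    rw [e1, e2]
    exact enorm_tsum_le_tsum_enorm
  have hweight : ∀ y : E (κ + 1), (∑' m, ‖liftD_F κ m H y‖ₑ) ^ p ≤
      (∑' m, a m ^ s) ^ (p - 1) * ∑' m, a m ^ (-θ) * ‖liftD_F κ m H y‖ₑ ^ p := by
    intro y
    have h1 := holder_weight (Measure.count : Measure ℕ) (fun m => a m ^ s)
      (fun m => a m ^ (-s) * ‖liftD_F κ m H y‖ₑ) (measurable_of_countable _)
      (measurable_of_countable _) (p := p) (by linarith)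
    simp only [lintegral_count] at h1
    have h2 : ∀ m, a m ^ s * (a m ^ (-s) * ‖liftD_F κ m H y‖ₑ) = ‖liftD_F κ m H y‖ₑ := by
      intro m
      rw [← mul_assoc, ← ENNReal.rpow_add _ _ (ha0 m) (hat m)]
      simp
    have h3 : ∀ m, a m ^ s * (a m ^ (-s) * ‖liftD_F κ m H y‖ₑ) ^ p =
        a m ^ (-θ) * ‖liftD_F κ m H y‖ₑ ^ p := by
      intro m
      rw [ENNReal.mul_rpow_of_nonneg _ _ (by linarith), ← mul_assoc, ← ENNReal.rpow_mul,
        ← ENNReal.rpow_add _ _ (ha0 m) (hat m), ← hsp]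
      congr 2
      ring
    simp only [h2, h3] at h1
    exact h1
  calc ∫⁻ y : E (κ + 1), ‖extn (tpow j G) (join y v)‖ₑ ^ p
      ≤ ∫⁻ y : E (κ + 1), (∑' m, a m ^ s) ^ (p - 1) *
          ∑' m, a m ^ (-θ) * ‖liftD_F κ m H y‖ₑ ^ p := by
        refine lintegral_mono fun y => ?_
        refine le_trans ?_ (hweight y)
        have := hdec y
        have hp0 : 0 ≤ p := by linarith
        gcongr
    _ = (∑' m, a m ^ s) ^ (p - 1) * ∫⁻ y : E (κ + 1),
          ∑' m, a m ^ (-θ) * ‖liftD_F κ m H y‖ₑ ^ p := by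
        rw [lintegral_const_mul' _ _
          (ENNReal.rpow_ne_top_of_nonneg (by linarith) (liftD_geom s hs0))]
    _ = (∑' m, a m ^ s) ^ (p - 1) * ∑' m, ∫⁻ y : E (κ + 1),
          a m ^ (-θ) * ‖liftD_F κ m H y‖ₑ ^ p := by
        congr 1
        rw [lintegral_tsum]
        intro m
        exact (((liftD_measurable_F κ m H hH).enorm.pow_const p).const_mul _).aemeasurable
    _ ≤ (∑' m, a m ^ s) ^ (p - 1) * ∑' m, K * a m ^ θ := by
        gcongr with m
        rw [lintegral_const_mul _ ((liftD_measurable_F κ m H hH).enorm.pow_const p)]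
        have h1 := liftD_F_p κ m H hH hHb hp
        calc a m ^ (-θ) * ∫⁻ y, ‖liftD_F κ m H y‖ₑ ^ p
            ≤ a m ^ (-θ) * (K * a m ^ (p - 2)) := by gcongr
          _ = K * (a m ^ (-θ) * a m ^ (p - 2)) := by ring
          _ = K * a m ^ θ := by
              rw [← ENNReal.rpow_add _ _ (ha0 m) (hat m)]
              congr 2
              rw [hθ]
              ring
    _ = (∑' m, a m ^ s) ^ (p - 1) * (K * ∑' m, a m ^ θ) := by
        rw [ENNReal.tsum_mul_left]

end Pool.Agent.MP_6cbfb8_an
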