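import Pool.Agent.MP_6cbfb8_an.Super
import Pool.Agent.MP_6cbfb8_an.LiftD

/-!
Hoelder interpolation between the slab bound and the bound for the whole space.
-/

namespace Pool.Agent.MP_6cbfb8_an

open MeasureTheory Set
open scoped ENNReal Real RealInnerProductSpace

lemma liftE1_measurable_tpow {k : ℕ} (j : ℕ) {G : E (k + 1) → ℂ} (hG : Measurable G) :
    Measurable (tpow j G) := by
  unfold tpow
  have h1 : Measurable fun x : E (k + 1) => x (Fin.last k) := by fun_prop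
  refine Measurable.ite (measurableSet_lt measurable_const h1) ?_ measurable_const
  exact hG.mul (by fun_prop)

lemma liftE1_holder {α : Type*} [MeasurableSpace α] {μ : Measure α} (f : α → ℝ≥0∞)
    (hf : Measurable f) {p r q a : ℝ} (ha0 : 0 ≤ a) (ha1 : a ≤ 1) (hr : 0 ≤ r)
    (hq : 0 ≤ q) (hp : p = r * (1 - a) + q * a) :
    ∫⁻ x, f x ^ p ∂μ ≤ (∫⁻ x, f x ^ r ∂μ) ^ (1 - a) * (∫⁻ x, f x ^ q ∂μ) ^ a := by
  have h := ENNReal.lintegral_mul_norm_pow_le (μ := μ) (f := fun x => f x ^ r)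
    (g := fun x => f x ^ q) (hf.pow_const _).aemeasurable (hf.pow_const _).aemeasurable
    (p := 1 - a) (q := a) (by linarith) ha0 (by ring)
  refine le_trans (le_of_eq ?_) h
  refine lintegral_congr fun x => ?_
  rw [← ENNReal.rpow_mul, ← ENNReal.rpow_mul, hp,
    ENNReal.rpow_add_of_nonneg _ _ (mul_nonneg hr (by linarith)) (mul_nonneg hq ha0)]

theorem slab_vol (κ : ℕ) (q₁ : ℝ) (hq₁ : 2 < q₁) (cls : (E (κ + 2) → ℂ) → Prop)
    (H : ∀ (j : ℕ) (q : ℝ), q₁ < q → ∃ C : ℝ≥0∞, C ≠ ∞ ∧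
      ∀ G : E (κ + 2) → ℂ, Measurable G → (∀ x, ‖G x‖ ≤ 1) → cls G →
        ∫⁻ ξ, ‖extn (tpow j G) ξ‖ₑ ^ q ≤ C)
    (p : ℝ) (hp : 2 < p) (hp' : p < q₁)
    (ϑ₀ : ℝ) (hϑ₀ : ϑ₀ < (p - 2) / (q₁ - 2)) (J : ℕ) :
    ∃ ϑ : ℝ, ϑ₀ < ϑ ∧ 0 < ϑ ∧ ϑ < 1 ∧ ∃ C : ℝ≥0∞, C ≠ ∞ ∧ ∀ G : E (κ + 2) → ℂ, Measurable G →
      (∀ x, ‖G x‖ ≤ 1) → cls G → ∀ j : ℕ, j ≤ J → ∀ V : ℝ, 0 < V →
      ∫⁻ v in Icc (-V) V, ∫⁻ y : E (κ + 1), ‖extn (tpow j G) (join y v)‖ₑ ^ p ≤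
        C * ENNReal.ofReal (V ^ (1 - ϑ)) := by
  have hd : 0 < q₁ - 2 := by linarith
  -- choice of the parameters
  obtain ⟨eps, he0, he1, he2⟩ : ∃ eps : ℝ, 0 < eps ∧ eps < p - 2 ∧
      ϑ₀ < (p - 2 - eps) / (q₁ - 2) := by
    have h1 : ϑ₀ * (q₁ - 2) < p - 2 := by rwa [lt_div_iff₀ hd] at hϑ₀
    refine ⟨min ((p - 2) / 2) ((p - 2 - ϑ₀ * (q₁ - 2)) / 2), lt_min (by linarith) (by linarith),
      ?_, ?_⟩
    · exact (min_le_left _ _).trans_lt (by linarith)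
    · rw [lt_div_iff₀ hd]
      have := min_le_right ((p - 2) / 2) ((p - 2 - ϑ₀ * (q₁ - 2)) / 2)
      linarith
  have ha0 : 0 < (p - 2 - eps) / (q₁ - 2) := div_pos (by linarith) hd
  have ha1 : (p - 2 - eps) / (q₁ - 2) < 1 := by rw [div_lt_one hd]; linarith
  have hpe : p = (2 + eps) * (1 - (p - 2 - eps) / (q₁ - 2)) +
      (q₁ + eps) * ((p - 2 - eps) / (q₁ - 2)) := by
    have : (q₁ - 2) * ((p - 2 - eps) / (q₁ - 2)) = p - 2 - eps := by
      field_simp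
    linear_combination this.symm
  set a := (p - 2 - eps) / (q₁ - 2) with ha
  obtain ⟨C1, hC1, h1⟩ := slab κ (2 + eps) (by linarith)
  choose C2 hC2 h2 using fun j : ℕ => H j (q₁ + eps) (by linarith)
  refine ⟨a, he2, ha0, ha1, (2 * C1) ^ (1 - a) * (∑ j ∈ Finset.range (J + 1), C2 j) ^ a, ?_, ?_⟩
  · refine ENNReal.mul_ne_top (ENNReal.rpow_ne_top_of_nonneg (by linarith)
      (ENNReal.mul_ne_top (by simp) hC1)) (ENNReal.rpow_ne_top_of_nonneg ha0.le ?_)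
    exact (ENNReal.sum_lt_top.2 fun j _ => (hC2 j).lt_top).ne
  intro G hG hb hcls j hj V hV
  set F : ℝ × E (κ + 1) → ℝ≥0∞ := fun x => ‖extn (tpow j G) (join x.2 x.1)‖ₑ with hF
  have hm0 : Measurable (extn (tpow j G)) := measurable_extn _ (liftE1_measurable_tpow j hG)
  have hFm : Measurable F := by
    refine Measurable.enorm (hm0.comp ?_)
    exact (continuous_join.measurable).comp (measurable_snd.prodMk measurable_fst)
  have e1 : ∀ r : ℝ, ∫⁻ v in Icc (-V) V, ∫⁻ y : E (κ + 1),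
      ‖extn (tpow j G) (join y v)‖ₑ ^ r =
      ∫⁻ x, F x ^ r ∂(((volume : Measure ℝ).restrict (Icc (-V) V)).prod
        (volume : Measure (E (κ + 1)))) := fun r => by
    rw [lintegral_prod _ (hFm.pow_const r).aemeasurable]
  have b1 : ∫⁻ x, F x ^ (2 + eps) ∂(((volume : Measure ℝ).restrict (Icc (-V) V)).prod
      (volume : Measure (E (κ + 1)))) ≤ 2 * C1 * ENNReal.ofReal V := by
    rw [← e1]
    calc ∫⁻ v in Icc (-V) V, ∫⁻ y : E (κ + 1), ‖extn (tpow j G) (join y v)‖ₑ ^ (2 + eps)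
        ≤ ∫⁻ _v in Icc (-V) V, C1 := lintegral_mono fun v => h1 G hG hb j v
      _ = C1 * ENNReal.ofReal (2 * V) := by
          rw [setLIntegral_const, Real.volume_Icc]
          congr 2; ring
      _ = 2 * C1 * ENNReal.ofReal V := by
          rw [ENNReal.ofReal_mul (by norm_num)]
          simp only [ENNReal.ofReal_ofNat]
          ring
  have b2 : ∫⁻ x, F x ^ (q₁ + eps) ∂(((volume : Measure ℝ).restrict (Icc (-V) V)).prod
      (volume : Measure (E (κ + 1)))) ≤ ∑ j ∈ Finset.range (J + 1), C2 j := by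
    rw [← e1]
    calc ∫⁻ v in Icc (-V) V, ∫⁻ y : E (κ + 1), ‖extn (tpow j G) (join y v)‖ₑ ^ (q₁ + eps)
        ≤ ∫⁻ v : ℝ, ∫⁻ y : E (κ + 1), ‖extn (tpow j G) (join y v)‖ₑ ^ (q₁ + eps) :=
          setLIntegral_le_lintegral _ _
      _ = ∫⁻ y : E (κ + 1), ∫⁻ v : ℝ, ‖extn (tpow j G) (join y v)‖ₑ ^ (q₁ + eps) := by
          refine lintegral_lintegral_swap ?_
          exact (hFm.pow_const (q₁ + eps)).aemeasurable
      _ = ∫⁻ ξ, ‖extn (tpow j G) ξ‖ₑ ^ (q₁ + eps) :=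
          (lintegral_join (κ + 1) _ (hm0.enorm.pow_const _)).symm
      _ ≤ C2 j := h2 j G hG hb hcls
      _ ≤ _ := Finset.single_le_sum (f := C2) (fun _ _ => zero_le) (by simpa using Nat.lt_succ_of_le hj)
  rw [e1]
  refine (liftE1_holder F hFm ha0.le ha1.le (by linarith) (by linarith) hpe).trans ?_
  calc _ ≤ (2 * C1 * ENNReal.ofReal V) ^ (1 - a) * (∑ j ∈ Finset.range (J + 1), C2 j) ^ a := by
        gcongr
    _ = _ := by
        rw [ENNReal.mul_rpow_of_nonneg _ _ (by linarith), ENNReal.ofReal_rpow_of_pos hV]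
        ring

end Pool.Agent.MP_6cbfb8_an
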