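import Pool.Agent.MP_6cbfb8_an.Sphere

/-!
[E] Gaussian integrals on the sphere.  Both bounds are obtained by averaging over the thin shell
`1 ≤ ρ ≤ 1 + 1 / R` and comparing with Gaussian integrals over the space.
-/

namespace Pool.Agent.MP_6cbfb8_an

open MeasureTheory Set
open scoped ENNReal Real RealInnerProductSpace

theorem lintegral_gauss_space (n : ℕ) (b : ℝ) (hb : 0 < b) (x : E n) :
    ∫⁻ y : E n, ENNReal.ofReal (Real.exp (-(b * ‖x - y‖ ^ 2))) =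
      ENNReal.ofReal ((π / b) ^ ((n : ℝ) / 2)) := by
  have h1 : ∫⁻ y : E n, ENNReal.ofReal (Real.exp (-(b * ‖x - y‖ ^ 2))) =
      ∫⁻ y : E n, ENNReal.ofReal (Real.exp (-b * ‖y‖ ^ 2)) := by
    rw [← lintegral_sub_left_eq_self (fun y : E n => ENNReal.ofReal (Real.exp (-b * ‖y‖ ^ 2))) x]
    simp only [neg_mul]
  rw [h1, ← ofReal_integral_eq_lintegral_ofReal]
  · rw [GaussianFourier.integral_rexp_neg_mul_sq_norm hb]
    simp
  · have := GaussianFourier.integrable_cexp_neg_mul_sq_norm_add (V := E n) (b := (b : ℂ))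
      (by simpa using hb) 0 0
    have h2 := this.re
    refine h2.congr (Filter.Eventually.of_forall fun y => ?_)
    simp only [zero_mul, add_zero]
    rw [show (-(b : ℂ) * (‖y‖ : ℂ) ^ 2) = (((-b * ‖y‖ ^ 2 : ℝ)) : ℂ) by push_cast; ring]
    exact Complex.exp_ofReal_re _
  · exact Filter.Eventually.of_forall fun y => (Real.exp_pos _).le

/-- averaging over the shell -/
theorem shell_average (j : ℕ) (f : S (j + 2) → ℝ≥0∞) (R : ℝ) (hR : 0 < R) :
    ∫⁻ ω : S (j + 2), f ω ∂(sm (j + 2)) =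
      ENNReal.ofReal R * ∫⁻ ω : S (j + 2), (∫⁻ _ρ in Icc (1 : ℝ) (1 + 1 / R), f ω) ∂(sm (j + 2)) := by
  have h1 : ∀ ω : S (j + 2), (∫⁻ _ρ in Icc (1 : ℝ) (1 + 1 / R), f ω) =
      f ω * ENNReal.ofReal (1 / R) := by
    intro ω
    rw [setLIntegral_const, Real.volume_Icc]
    congr 2
    ring
  simp only [h1]
  rw [lintegral_mul_const' _ _ ENNReal.ofReal_ne_top, mul_comm (ENNReal.ofReal R), mul_assoc,
    ← ENNReal.ofReal_mul (by positivity), one_div, inv_mul_cancel₀ hR.ne']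
  simp

theorem norm_sub_smul_le (n : ℕ) (x : E n) (ω : E n) (hω : ‖ω‖ = 1) (ρ R : ℝ) (hR : 0 < R)
    (h1 : 1 ≤ ρ) (h2 : ρ ≤ 1 + 1 / R) :
    R ^ 2 * ‖x - ρ • ω‖ ^ 2 ≤ 2 * (R ^ 2 * ‖x - ω‖ ^ 2) + 2 ∧
      R ^ 2 * ‖x - ω‖ ^ 2 ≤ 2 * (R ^ 2 * ‖x - ρ • ω‖ ^ 2) + 2 := by
  have h3 : ‖ω - ρ • ω‖ ≤ 1 / R := by
    have : ω - ρ • ω = (1 - ρ) • ω := by rw [sub_smul, one_smul]
    rw [this, norm_smul, hω, mul_one, Real.norm_eq_abs, abs_sub_comm, abs_of_nonneg (by linarith)]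
    linarith
  have h4 : ‖x - ρ • ω‖ ≤ ‖x - ω‖ + 1 / R := by
    have : x - ρ • ω = (x - ω) + (ω - ρ • ω) := by abel
    rw [this]
    exact (norm_add_le _ _).trans (by linarith)
  have h5 : ‖x - ω‖ ≤ ‖x - ρ • ω‖ + 1 / R := by
    have : x - ω = (x - ρ • ω) - (ω - ρ • ω) := by abel
    rw [this]
    exact (norm_sub_le _ _).trans (by linarith)
  have h6 : R * (1 / R) = 1 := by field_simp
  have a0 := norm_nonneg (x - ρ • ω)
  have b0 := norm_nonneg (x - ω)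
  constructor
  · have h7 : R * ‖x - ρ • ω‖ ≤ R * ‖x - ω‖ + 1 := by
      calc R * ‖x - ρ • ω‖ ≤ R * (‖x - ω‖ + 1 / R) := by gcongr
        _ = _ := by rw [mul_add, h6]
    have h8 : 0 ≤ R * ‖x - ρ • ω‖ := by positivity
    nlinarith [sq_nonneg (R * ‖x - ω‖ - 1)]
  · have h7 : R * ‖x - ω‖ ≤ R * ‖x - ρ • ω‖ + 1 := by
      calc R * ‖x - ω‖ ≤ R * (‖x - ρ • ω‖ + 1 / R) := by gcongr
        _ = _ := by rw [mul_add, h6]
    have h8 : 0 ≤ R * ‖x - ω‖ := by positivity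
    nlinarith [sq_nonneg (R * ‖x - ρ • ω‖ - 1)]

theorem gauss_upper (j : ℕ) : ∃ C : ℝ, 0 < C ∧ ∀ R : ℝ, 0 < R → ∀ x : E (j + 2),
    ∫⁻ ω : S (j + 2), ENNReal.ofReal (Real.exp (-(R ^ 2 * ‖x - (ω : E (j + 2))‖ ^ 2))) ∂(sm (j + 2))
      ≤ ENNReal.ofReal (C / R ^ (j + 1)) := by
  refine ⟨Real.exp 1 * (2 * π) ^ (((j : ℝ) + 2) / 2), by positivity, fun R hR x => ?_⟩
  rw [shell_average j _ R hR]
  set φ : E (j + 2) → ℝ≥0∞ := fun y =>
    ENNReal.ofReal (Real.exp (-(R ^ 2 / 2 * ‖x - y‖ ^ 2))) with hφ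
  have hφm : Measurable φ := by
    rw [hφ]
    fun_prop
  have key : ∫⁻ ω : S (j + 2), (∫⁻ _ρ in Icc (1 : ℝ) (1 + 1 / R),
      ENNReal.ofReal (Real.exp (-(R ^ 2 * ‖x - (ω : E (j + 2))‖ ^ 2)))) ∂(sm (j + 2)) ≤
      ENNReal.ofReal (Real.exp 1) * ∫⁻ y, φ y := by
    rw [lintegral_polar (j + 1) φ hφm, ← lintegral_const_mul' _ _ ENNReal.ofReal_ne_top]
    refine lintegral_mono fun ω => ?_
    rw [← lintegral_const_mul' _ _ ENNReal.ofReal_ne_top]
    have hsub : Icc (1 : ℝ) (1 + 1 / R) ⊆ Ioi 0 := fun ρ hρ => lt_of_lt_of_le one_pos hρ.1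
    refine le_trans ?_ (lintegral_mono_set hsub)
    refine setLIntegral_mono' measurableSet_Icc fun ρ hρ => ?_
    have hω : ‖(ω : E (j + 2))‖ = 1 := by simp
    obtain ⟨h1, h2⟩ := norm_sub_smul_le (j + 2) x ω hω ρ R hR hρ.1 hρ.2
    rw [hφ]
    simp only
    rw [← ENNReal.ofReal_mul (Real.exp_pos _).le, ← ENNReal.ofReal_mul (Real.exp_pos _).le]
    refine ENNReal.ofReal_le_ofReal ?_
    have h3 : (1 : ℝ) ≤ ρ ^ (j + 1) := one_le_pow₀ hρ.1
    have h4 : Real.exp (-(R ^ 2 * ‖x - (ω : E (j + 2))‖ ^ 2)) ≤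
        Real.exp 1 * Real.exp (-(R ^ 2 / 2 * ‖x - ρ • (ω : E (j + 2))‖ ^ 2)) := by
      rw [← Real.exp_add]
      apply Real.exp_le_exp.mpr
      linarith
    calc _ ≤ Real.exp 1 * Real.exp (-(R ^ 2 / 2 * ‖x - ρ • (ω : E (j + 2))‖ ^ 2)) := h4
      _ = Real.exp 1 * (Real.exp (-(R ^ 2 / 2 * ‖x - ρ • (ω : E (j + 2))‖ ^ 2)) * 1) := by ring
      _ ≤ _ := by gcongr
  have hR2 : (0 : ℝ) < R ^ 2 / 2 := by positivity
  have h5 := lintegral_gauss_space (j + 2) (R ^ 2 / 2) hR2 x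
  calc _ ≤ ENNReal.ofReal R * (ENNReal.ofReal (Real.exp 1) * ∫⁻ y, φ y) := by gcongr
    _ = _ := by
      rw [hφ, h5, ← ENNReal.ofReal_mul (Real.exp_pos _).le, ← ENNReal.ofReal_mul hR.le]
      congr 1
      have e1 : π / (R ^ 2 / 2) = 2 * π * (R⁻¹) ^ 2 := by field_simp
      have e2 : (((j + 2 : ℕ) : ℝ) / 2) = ((j : ℝ) + 2) / 2 := by push_cast; ring
      rw [e1, e2, Real.mul_rpow (by positivity) (by positivity), ← Real.rpow_natCast (R⁻¹) 2,
        ← Real.rpow_mul (by positivity)]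
      have e3 : ((2 : ℕ) : ℝ) * (((j : ℝ) + 2) / 2) = ((j + 2 : ℕ) : ℝ) := by push_cast; ring
      rw [e3, Real.rpow_natCast, inv_pow]
      field_simp
      ring

theorem gauss_lower (j : ℕ) : ∃ c : ℝ, 0 < c ∧ ∀ R : ℝ, 1 ≤ R → ∀ x : S (j + 2),
    ENNReal.ofReal (c / R ^ (j + 1)) ≤
    ∫⁻ ω : S (j + 2), ENNReal.ofReal
      (Real.exp (-(R ^ 2 * ‖(x : E (j + 2)) - (ω : E (j + 2))‖ ^ 2))) ∂(sm (j + 2)) := by
  set V : ℝ≥0∞ := (volume : Measure (E (j + 2))) (Metric.ball 0 1) with hV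
  have hVtop : V ≠ ∞ := measure_ball_lt_top.ne
  have hVpos : 0 < V.toReal := ENNReal.toReal_pos (Metric.measure_ball_pos _ _ one_pos).ne' hVtop
  refine ⟨V.toReal * Real.exp (-4) / (2 ^ (j + 1) * 2 ^ (j + 2)), by positivity, fun R hR1 x => ?_⟩
  have hR : 0 < R := by linarith
  rw [shell_average j _ R hR]
  have hx : ‖(x : E (j + 2))‖ = 1 := by simp
  -- the test ball
  set z : E (j + 2) := (1 + 1 / (2 * R)) • (x : E (j + 2)) with hz
  set φ : E (j + 2) → ℝ≥0∞ := (Metric.ball z (1 / (2 * R))).indicator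
    (fun _ => ENNReal.ofReal (Real.exp (-4) / 2 ^ (j + 1))) with hφ
  have hφm : Measurable φ := measurable_const.indicator Metric.isOpen_ball.measurableSet
  have key : ∫⁻ y, φ y ≤ ∫⁻ ω : S (j + 2), (∫⁻ _ρ in Icc (1 : ℝ) (1 + 1 / R),
      ENNReal.ofReal (Real.exp (-(R ^ 2 * ‖(x : E (j + 2)) - (ω : E (j + 2))‖ ^ 2))))
        ∂(sm (j + 2)) := by
    rw [lintegral_polar (j + 1) φ hφm]
    refine lintegral_mono fun ω => ?_
    have hω : ‖(ω : E (j + 2))‖ = 1 := by simp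
    rw [← lintegral_indicator measurableSet_Icc, ← lintegral_indicator measurableSet_Ioi]
    refine lintegral_mono fun ρ => ?_
    by_cases hρ0 : ρ ∈ Ioi (0 : ℝ)
    · rw [indicator_of_mem hρ0]
      by_cases hb : ρ • (ω : E (j + 2)) ∈ Metric.ball z (1 / (2 * R))
      · have hb' : ‖ρ • (ω : E (j + 2)) - z‖ < 1 / (2 * R) := by
          rwa [Metric.mem_ball, dist_eq_norm] at hb
        have hzn : ‖z‖ = 1 + 1 / (2 * R) := by
          rw [hz, norm_smul, hx, mul_one, Real.norm_of_nonneg (by positivity)]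
        have hρn : ‖ρ • (ω : E (j + 2))‖ = ρ := by
          rw [norm_smul, hω, mul_one, Real.norm_of_nonneg (le_of_lt hρ0)]
        have hd := abs_norm_sub_norm_le (ρ • (ω : E (j + 2))) z
        rw [hzn, hρn] at hd
        have hd' := abs_lt.mp (lt_of_le_of_lt hd hb')
        have e1 : 1 / (2 * R) + 1 / (2 * R) = 1 / R := by field_simp; norm_num
        have hρ1 : ρ ∈ Icc (1 : ℝ) (1 + 1 / R) := ⟨by linarith [hd'.1], by linarith [hd'.2]⟩
        rw [indicator_of_mem hρ1, hφ, indicator_of_mem hb]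
        rw [← ENNReal.ofReal_mul (by positivity)]
        refine ENNReal.ofReal_le_ofReal ?_
        obtain ⟨-, h2⟩ := norm_sub_smul_le (j + 2) (x : E (j + 2)) ω hω ρ R hR hρ1.1 hρ1.2
        have hR1' : 1 / R ≤ 1 := by rw [div_le_one hR]; exact hR1
        have hρ2 : ρ ≤ 2 := by linarith [hρ1.2]
        have hpow : ρ ^ (j + 1) ≤ 2 ^ (j + 1) := by
          have : 0 ≤ ρ := le_of_lt hρ0
          gcongr
        have hxz : ‖(x : E (j + 2)) - z‖ = 1 / (2 * R) := by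
          have : (x : E (j + 2)) - z = (-(1 / (2 * R))) • (x : E (j + 2)) := by
            rw [hz, add_smul, one_smul, neg_smul]
            abel
          rw [this, norm_smul, hx, mul_one, Real.norm_eq_abs, abs_neg, abs_of_pos (by positivity)]
        have hxy : ‖(x : E (j + 2)) - ρ • (ω : E (j + 2))‖ ≤ 1 / R := by
          have : (x : E (j + 2)) - ρ • (ω : E (j + 2)) =
              ((x : E (j + 2)) - z) - (ρ • (ω : E (j + 2)) - z) := by abel
          rw [this]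
          refine (norm_sub_le _ _).trans ?_
          linarith
        have hxy2 : R ^ 2 * ‖(x : E (j + 2)) - ρ • (ω : E (j + 2))‖ ^ 2 ≤ 1 := by
          have h3 : R * ‖(x : E (j + 2)) - ρ • (ω : E (j + 2))‖ ≤ 1 := by
            calc _ ≤ R * (1 / R) := by gcongr
              _ = 1 := by field_simp
          have h4 : 0 ≤ R * ‖(x : E (j + 2)) - ρ • (ω : E (j + 2))‖ := by positivity
          nlinarith
        calc Real.exp (-4) / 2 ^ (j + 1) * ρ ^ (j + 1)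
            ≤ Real.exp (-4) / 2 ^ (j + 1) * 2 ^ (j + 1) := by gcongr
          _ = Real.exp (-4) := by field_simp
          _ ≤ _ := by
            apply Real.exp_le_exp.mpr
            linarith
      · rw [hφ, indicator_of_notMem hb]
        simp
    · rw [indicator_of_notMem hρ0]
      exact bot_le
  have hvol : ∫⁻ y, φ y = ENNReal.ofReal (V.toReal * Real.exp (-4) / (2 ^ (j + 1) * 2 ^ (j + 2)) *
      (1 / R) ^ (j + 2)) := by
    rw [hφ, lintegral_indicator Metric.isOpen_ball.measurableSet, setLIntegral_const,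
      Measure.addHaar_ball _ _ (by positivity), ← hV]
    have e1 : Module.finrank ℝ (E (j + 2)) = j + 2 := by simp
    rw [e1, ← ENNReal.ofReal_toReal hVtop, ← ENNReal.ofReal_mul (by positivity),
      ← ENNReal.ofReal_mul (by positivity), ENNReal.ofReal_toReal hVtop]
    congr 1
    have e3 : (1 / (2 * R)) ^ (j + 2) * 2 ^ (j + 2) = (1 / R) ^ (j + 2) := by
      rw [← mul_pow]
      congr 1
      field_simp
    rw [← e3]
    field_simp
  calc ENNReal.ofReal (V.toReal * Real.exp (-4) / (2 ^ (j + 1) * 2 ^ (j + 2)) / R ^ (j + 1))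
      = ENNReal.ofReal R * ∫⁻ y, φ y := by
        rw [hvol, ← ENNReal.ofReal_mul hR.le]
        congr 1
        rw [one_div, inv_pow, pow_succ R (j + 1)]
        field_simp
    _ ≤ _ := by gcongr

end Pool.Agent.MP_6cbfb8_an
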