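import Pool.Agent.MP_6cbfb8_an.Sphere
import Pool.Agent.MP_6cbfb8_an.Gauss

/-!
Mollification on the sphere.
-/

namespace Pool.Agent.MP_6cbfb8_an

open MeasureTheory Set
open scoped ENNReal Real RealInnerProductSpace

theorem ker_continuous {n : ℕ} (r : ℝ) (x : E n) : Continuous (fun y : S n => ker r x (y : E n)) := by
  unfold ker
  fun_prop

theorem ker_continuous₂ {n : ℕ} (r : ℝ) : Continuous (fun q : E n × E n => ker r q.1 q.2) := by
  unfold ker
  fun_prop

theorem ker_pos {n : ℕ} (r : ℝ) (x y : E n) : 0 < ker r x y := Real.exp_pos _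

theorem ker_integrable {n : ℕ} (r : ℝ) (x : E n) :
    Integrable (fun y : S n => ker r x (y : E n)) (sm n) :=
  (ker_continuous r x).integrable_of_hasCompactSupport (HasCompactSupport.of_compactSpace _)

theorem kerMass_pos {j : ℕ} (r : ℝ) (x : E (j + 2)) : 0 < kerMass r x := by
  have : NeZero (sm (j + 2)) := ⟨Measure.toSphere_ne_zero _⟩
  exact integral_exp_pos (ker_integrable r x)

theorem kerMass_eq {n : ℕ} (r : ℝ) (x y : S n) : kerMass r (x : E n) = kerMass r (y : E n) := by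
  have hx : ‖(x : E n)‖ = ‖(y : E n)‖ := by simp
  let R : E n ≃ₗᵢ[ℝ] E n := (ℝ ∙ ((x : E n) - y))ᗮ.reflection
  have hR : R (x : E n) = y := Submodule.reflection_sub hx
  unfold kerMass
  have h1 := (measurePreserving_isometry R).map_eq
  have h2 : ∫ z : S n, ker r (y : E n) (z : E n) ∂(sm n) =
      ∫ z : S n, ker r (y : E n) (R (z : E n)) ∂(sm n) := by
    conv_lhs => rw [← h1]
    rw [integral_map (measurePreserving_isometry R).measurable.aemeasurable
      (ker_continuous r _).aestronglyMeasurable]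
  rw [h2]
  congr 1
  ext z
  unfold ker
  rw [← hR, ← map_sub, R.norm_map]

set_option linter.unusedVariables false in
theorem norm_moll_le {j : ℕ} (r : ℝ) (g : E (j + 2) → ℂ) (hg : Measurable g)
    (hb : ∀ x, ‖g x‖ ≤ 1) (x : E (j + 2)) : ‖moll r g x‖ ≤ 1 := by
  unfold moll
  have hpos := kerMass_pos r x
  rw [norm_div, Complex.norm_real, Real.norm_of_nonneg hpos.le, div_le_one hpos]
  refine norm_integral_le_of_norm_le (ker_integrable r x) (Filter.Eventually.of_forall ?_)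
  intro y
  rw [norm_mul, Complex.norm_real, Real.norm_of_nonneg (ker_pos r x y).le]
  exact mul_le_of_le_one_right (ker_pos r x y).le (hb _)

theorem ker_measurable₂ {j : ℕ} (r : ℝ) :
    Measurable (fun q : (ℝ × E (j + 2)) × S (j + 2) => ker r q.1.2 (q.2 : E (j + 2))) := by
  have h : Continuous (fun q : (ℝ × E (j + 2)) × S (j + 2) => ker r q.1.2 (q.2 : E (j + 2))) := by
    unfold ker
    fun_prop
  exact h.measurable

theorem measurable_moll {j : ℕ} (r : ℝ) (g : ℝ → E (j + 2) → ℂ)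
    (hg : Measurable (Function.uncurry g)) :
    Measurable (fun q : ℝ × E (j + 2) => moll r (g q.1) q.2) := by
  have h1 : Measurable (fun q : (ℝ × E (j + 2)) × S (j + 2) => g q.1.1 (q.2 : E (j + 2))) :=
    hg.comp (Measurable.prodMk (measurable_fst.comp measurable_fst)
      (measurable_subtype_coe.comp measurable_snd))
  have h2 : Measurable (fun q : (ℝ × E (j + 2)) × S (j + 2) =>
      ((ker r q.1.2 (q.2 : E (j + 2)) : ℝ) : ℂ) * g q.1.1 (q.2 : E (j + 2))) :=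
    (Complex.measurable_ofReal.comp (ker_measurable₂ r)).mul h1
  have h3 : StronglyMeasurable (fun q : ℝ × E (j + 2) =>
      ∫ y : S (j + 2), ((ker r q.2 (y : E (j + 2)) : ℝ) : ℂ) * g q.1 (y : E (j + 2)) ∂(sm (j + 2))) :=
    h2.stronglyMeasurable.integral_prod_right
  have h4 : StronglyMeasurable (fun q : ℝ × E (j + 2) =>
      ∫ y : S (j + 2), ker r q.2 (y : E (j + 2)) ∂(sm (j + 2))) :=
    (ker_measurable₂ r).stronglyMeasurable.integral_prod_right
  exact h3.measurable.div (Complex.measurable_ofReal.comp h4.measurable)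

theorem exp_neg_half_le {a t : ℝ} (ha : 0 < a) (ht : 0 < t) :
    Real.exp (-(t / 2)) ≤ (2 * a) ^ a / t ^ a := by
  have h1 : t / (2 * a) ≤ Real.exp (t / (2 * a)) := by
    have := Real.add_one_le_exp (t / (2 * a))
    linarith
  have h2 : (t / (2 * a)) ^ a ≤ Real.exp (t / 2) := by
    have h3 := Real.rpow_le_rpow (by positivity) h1 ha.le
    rw [← Real.exp_mul] at h3
    have h4 : t / (2 * a) * a = t / 2 := by field_simp
    rwa [h4] at h3
  have h5 : 0 < t ^ a := Real.rpow_pos_of_pos ht a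
  have h6 : 0 < (2 * a) ^ a := Real.rpow_pos_of_pos (by positivity) a
  rw [Real.div_rpow ht.le (by positivity)] at h2
  rw [Real.exp_neg, inv_le_comm₀ (Real.exp_pos _) (by positivity), inv_div]
  exact h2

theorem kerMass_ge (j : ℕ) : ∃ c : ℝ, 0 < c ∧ ∀ r : ℝ, 1 ≤ r → ∀ x : S (j + 2),
    c * r ^ (-(((j : ℝ) + 1) / 2)) ≤ kerMass r (x : E (j + 2)) := by
  obtain ⟨c, hc, h⟩ := gauss_lower j
  refine ⟨c, hc, ?_⟩
  intro r hr x
  have hr0 : 0 < r := by linarith
  have hs1 : 1 ≤ Real.sqrt r := Real.one_le_sqrt.2 hr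
  have h1 := h (Real.sqrt r) hs1 x
  have h2 : ∫⁻ ω : S (j + 2), ENNReal.ofReal
      (Real.exp (-(Real.sqrt r ^ 2 * ‖(x : E (j + 2)) - (ω : E (j + 2))‖ ^ 2))) ∂(sm (j + 2)) ≤
      ENNReal.ofReal (kerMass r (x : E (j + 2))) := by
    unfold kerMass
    rw [ofReal_integral_eq_lintegral_ofReal (ker_integrable r _)
      (Filter.Eventually.of_forall fun y => (ker_pos r _ _).le)]
    refine lintegral_mono fun ω => ENNReal.ofReal_le_ofReal ?_
    unfold ker
    rw [Real.exp_le_exp, Real.sq_sqrt hr0.le]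
    have : 0 ≤ r * ‖(x : E (j + 2)) - (ω : E (j + 2))‖ ^ 2 := by positivity
    linarith
  have h3 := h1.trans h2
  rw [ENNReal.ofReal_le_ofReal_iff (kerMass_pos r _).le] at h3
  have h4 : Real.sqrt r ^ (j + 1) = r ^ (((j : ℝ) + 1) / 2) := by
    rw [Real.sqrt_eq_rpow, ← Real.rpow_natCast, ← Real.rpow_mul hr0.le]
    congr 1
    push_cast
    ring
  rw [h4] at h3
  rw [Real.rpow_neg hr0.le]
  simpa [div_eq_mul_inv] using h3

/-- Cauchy-Schwarz with a weight. -/
theorem sq_lintegral_mul_le {α : Type*} [MeasurableSpace α] (μ : Measure α) (K F : α → ℝ≥0∞)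
    (hK : Measurable K) (hF : Measurable F) :
    (∫⁻ a, K a * F a ∂μ) ^ (2:ℝ) ≤ (∫⁻ a, K a ∂μ) * ∫⁻ a, K a * F a ^ (2:ℝ) ∂μ := by
  have h := ENNReal.lintegral_mul_le_Lp_mul_Lq μ Real.HolderConjugate.two_two
    (f := fun a => K a ^ ((1:ℝ) / 2)) (g := fun a => K a ^ ((1:ℝ) / 2) * F a)
    (hK.pow_const _).aemeasurable ((hK.pow_const _).mul hF).aemeasurable
  have h1 : ∀ a, ((fun a => K a ^ ((1:ℝ) / 2)) * fun a => K a ^ ((1:ℝ) / 2) * F a) a = K a * F a := by
    intro a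
    simp only [Pi.mul_apply]
    rw [← mul_assoc, ← ENNReal.rpow_add_of_nonneg _ _ (by norm_num) (by norm_num)]
    norm_num
  have h2 : ∀ a, (K a ^ ((1:ℝ) / 2)) ^ (2:ℝ) = K a := by
    intro a
    rw [← ENNReal.rpow_mul]
    norm_num
  have h3 : ∀ a, (K a ^ ((1:ℝ) / 2) * F a) ^ (2:ℝ) = K a * F a ^ (2:ℝ) := by
    intro a
    rw [ENNReal.mul_rpow_of_nonneg _ _ (by norm_num), h2]
  simp only [h1, h2, h3] at h
  calc (∫⁻ a, K a * F a ∂μ) ^ (2:ℝ)
      ≤ ((∫⁻ a, K a ∂μ) ^ ((1:ℝ) / 2) * (∫⁻ a, K a * F a ^ (2:ℝ) ∂μ) ^ ((1:ℝ) / 2)) ^ (2:ℝ) :=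
        ENNReal.rpow_le_rpow h (by norm_num)
    _ = _ := by
        rw [ENNReal.mul_rpow_of_nonneg _ _ (by norm_num), ← ENNReal.rpow_mul, ← ENNReal.rpow_mul]
        norm_num

theorem moll_pointwise {j : ℕ} (r : ℝ) (g : E (j + 2) → ℂ) (hg : Measurable g)
    (hb : ∀ x, ‖g x‖ ≤ 1) (x : E (j + 2)) :
    ‖g x - moll r g x‖ₑ ^ (2:ℝ) ≤
      (∫⁻ y : S (j + 2), ENNReal.ofReal (ker r x (y : E (j + 2))) * ‖g x - g y‖ₑ ^ (2:ℝ) ∂(sm (j + 2)))
        / ENNReal.ofReal (kerMass r x) := by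
  have hpos := kerMass_pos r x
  have hgS : Measurable (fun y : S (j + 2) => g (y : E (j + 2))) := hg.comp measurable_subtype_coe
  have hkS : Measurable (fun y : S (j + 2) => ker r x (y : E (j + 2))) := (ker_continuous r x).measurable
  have hint : Integrable (fun y : S (j + 2) => ((ker r x (y : E (j + 2)) : ℝ) : ℂ) * g y) (sm (j + 2)) := by
    refine (ker_integrable r x).mono' ((Complex.measurable_ofReal.comp hkS).mul hgS).aestronglyMeasurable ?_
    refine Filter.Eventually.of_forall fun y => ?_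
    rw [norm_mul, Complex.norm_real, Real.norm_of_nonneg (ker_pos r x y).le]
    exact mul_le_of_le_one_right (ker_pos r x y).le (hb _)
  have hint2 : Integrable (fun y : S (j + 2) => ((ker r x (y : E (j + 2)) : ℝ) : ℂ) * g x) (sm (j + 2)) :=
    (ker_integrable r x).ofReal.mul_const (g x)
  have h1 : g x - moll r g x =
      (∫ y : S (j + 2), ((ker r x (y : E (j + 2)) : ℝ) : ℂ) * (g x - g y) ∂(sm (j + 2))) /
        ((kerMass r x : ℝ) : ℂ) := by
    unfold moll
    have hne : ((kerMass r x : ℝ) : ℂ) ≠ 0 := by exact_mod_cast hpos.ne'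
    rw [eq_div_iff hne, sub_mul, div_mul_cancel₀ _ hne]
    simp only [mul_sub]
    rw [integral_sub hint2 hint, integral_mul_const]
    congr 1
    rw [mul_comm]
    congr 1
    unfold kerMass
    exact integral_ofReal.symm
  have h2 : ‖g x - moll r g x‖ₑ = ‖∫ y : S (j + 2), ((ker r x (y : E (j + 2)) : ℝ) : ℂ) * (g x - g y) ∂(sm (j + 2))‖ₑ
      / ENNReal.ofReal (kerMass r x) := by
    rw [h1, ← ofReal_norm, ← ofReal_norm, norm_div, Complex.norm_real, Real.norm_of_nonneg hpos.le,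
      ENNReal.ofReal_div_of_pos hpos]
  have h3 : ‖∫ y : S (j + 2), ((ker r x (y : E (j + 2)) : ℝ) : ℂ) * (g x - g y) ∂(sm (j + 2))‖ₑ ≤
      ∫⁻ y : S (j + 2), ENNReal.ofReal (ker r x (y : E (j + 2))) * ‖g x - g y‖ₑ ∂(sm (j + 2)) := by
    refine (enorm_integral_le_lintegral_enorm _).trans (le_of_eq ?_)
    refine lintegral_congr fun y => ?_
    rw [enorm_mul]
    congr 1
    rw [← ofReal_norm, Complex.norm_real, Real.norm_of_nonneg (ker_pos r x y).le]
  have h4 := sq_lintegral_mul_le (sm (j + 2)) (fun y : S (j + 2) => ENNReal.ofReal (ker r x (y : E (j + 2))))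
    (fun y : S (j + 2) => ‖g x - g y‖ₑ) hkS.ennreal_ofReal (measurable_const.sub hgS).enorm
  have h5 : ∫⁻ y : S (j + 2), ENNReal.ofReal (ker r x (y : E (j + 2))) ∂(sm (j + 2)) =
      ENNReal.ofReal (kerMass r x) := by
    unfold kerMass
    rw [ofReal_integral_eq_lintegral_ofReal (ker_integrable r _)
      (Filter.Eventually.of_forall fun y => (ker_pos r _ _).le)]
  rw [h5] at h4
  have hm0 : ENNReal.ofReal (kerMass r x) ≠ 0 := by simpa using hpos
  have hmt : ENNReal.ofReal (kerMass r x) ≠ ∞ := ENNReal.ofReal_ne_top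
  rw [h2, ENNReal.div_rpow_of_nonneg _ _ (by norm_num)]
  refine (ENNReal.div_le_div_right ((ENNReal.rpow_le_rpow h3 (by norm_num)).trans h4) _).trans (le_of_eq ?_)
  have h6 : ENNReal.ofReal (kerMass r x) ^ (2:ℝ) = ENNReal.ofReal (kerMass r x) * ENNReal.ofReal (kerMass r x) := by
    rw [ENNReal.rpow_two, sq]
  rw [h6, ENNReal.mul_div_mul_left _ _ hm0 hmt]

theorem moll_L2 (j : ℕ) (s : ℝ) (hs : 0 < s) : ∃ C : ℝ≥0∞, C ≠ ∞ ∧ ∀ r : ℝ, 1 ≤ r →
    ∀ g : E (j + 2) → ℂ, Measurable g → (∀ x, ‖g x‖ ≤ 1) →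
    ∫⁻ ω : S (j + 2), ‖g ω - moll r g ω‖ₑ ^ (2:ℝ) ∂(sm (j + 2)) ≤
      C * ENNReal.ofReal (r ^ (-s)) * ∫⁻ ω : S (j + 2), (∫⁻ ω' : S (j + 2),
        ‖g ω - g ω'‖ₑ ^ (2:ℝ) / ENNReal.ofReal
          (‖(ω : E (j + 2)) - (ω' : E (j + 2))‖ ^ ((((j + 2 : ℕ) : ℝ)) - 1 + 2 * s))
          ∂(sm (j + 2))) ∂(sm (j + 2)) := by
  obtain ⟨c, hc, hmass⟩ := kerMass_ge j
  set a : ℝ := ((j : ℝ) + 1) / 2 + s with ha
  have ha0 : 0 < a := by positivity
  have he : (((j + 2 : ℕ) : ℝ)) - 1 + 2 * s = 2 * a := by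
    rw [ha]; push_cast; ring
  set A : ℝ := (2 * a) ^ a / c with hA
  have hA0 : 0 < A := by
    have : 0 < (2 * a) ^ a := Real.rpow_pos_of_pos (by positivity) a
    positivity
  refine ⟨ENNReal.ofReal A, ENNReal.ofReal_ne_top, ?_⟩
  intro r hr g hg hb
  have hr0 : 0 < r := by linarith
  rw [he]
  -- pointwise bound of the kernel
  have hker : ∀ x y : S (j + 2), (x : E (j + 2)) ≠ y →
      ker r (x : E (j + 2)) y / kerMass r (x : E (j + 2)) ≤
        A * r ^ (-s) / ‖(x : E (j + 2)) - y‖ ^ (2 * a) := by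
    intro x y hxy
    have hd : 0 < ‖(x : E (j + 2)) - y‖ := norm_pos_iff.2 (sub_ne_zero.2 hxy)
    set d := ‖(x : E (j + 2)) - y‖ with hddef
    have h1 : ker r (x : E (j + 2)) y ≤ (2 * a) ^ a / (r ^ a * d ^ (2 * a)) := by
      have h := exp_neg_half_le ha0 (t := r * d ^ 2) (by positivity)
      have e1 : (r * d ^ 2) ^ a = r ^ a * d ^ (2 * a) := by
        rw [Real.mul_rpow hr0.le (by positivity), ← Real.rpow_natCast d 2, ← Real.rpow_mul hd.le]
        norm_num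
      rw [e1] at h
      unfold ker
      rw [← hddef]
      have e2 : r / 2 * d ^ 2 = r * d ^ 2 / 2 := by ring
      rw [e2]
      exact h
    have hm := hmass r hr x
    have hr1 : 0 < r ^ (-(((j : ℝ) + 1) / 2)) := Real.rpow_pos_of_pos hr0 _
    have hra : 0 < r ^ a := Real.rpow_pos_of_pos hr0 _
    have hda : 0 < d ^ (2 * a) := Real.rpow_pos_of_pos hd _
    have h2a : 0 < (2 * a) ^ a := Real.rpow_pos_of_pos (by positivity) a
    calc ker r (x : E (j + 2)) y / kerMass r (x : E (j + 2))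
        ≤ ((2 * a) ^ a / (r ^ a * d ^ (2 * a))) / (c * r ^ (-(((j : ℝ) + 1) / 2))) := by
          gcongr
      _ = A * r ^ (-s) / d ^ (2 * a) := by
          have e3 : r ^ (-s) = (r ^ a)⁻¹ * (r ^ (-(((j : ℝ) + 1) / 2)))⁻¹ := by
            rw [← Real.rpow_neg hr0.le, ← Real.rpow_neg hr0.le, ← Real.rpow_add hr0]
            congr 1
            rw [ha]; ring
          rw [e3, hA]
          field_simp
  have hpt : ∀ x : S (j + 2), ‖g x - moll r g x‖ₑ ^ (2:ℝ) ≤
      ENNReal.ofReal A * ENNReal.ofReal (r ^ (-s)) * ∫⁻ y : S (j + 2),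
        ‖g x - g y‖ₑ ^ (2:ℝ) / ENNReal.ofReal (‖(x : E (j + 2)) - (y : E (j + 2))‖ ^ (2 * a))
          ∂(sm (j + 2)) := by
    intro x
    refine (moll_pointwise r g hg hb x).trans ?_
    rw [ENNReal.div_eq_inv_mul]
    have hm0 : ENNReal.ofReal (kerMass r (x : E (j + 2))) ≠ 0 := by
      simpa using kerMass_pos r (x : E (j + 2))
    rw [← lintegral_const_mul' _ _ (ENNReal.inv_ne_top.2 hm0),
      ← lintegral_const_mul' _ _ (ENNReal.mul_ne_top ENNReal.ofReal_ne_top ENNReal.ofReal_ne_top)]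
    refine lintegral_mono fun y => ?_
    by_cases hxy : (x : E (j + 2)) = y
    · simp only [hxy, sub_self, enorm_zero]
      rw [ENNReal.zero_rpow_of_pos (by norm_num)]
      simp
    · have hd : 0 < ‖(x : E (j + 2)) - y‖ := norm_pos_iff.2 (sub_ne_zero.2 hxy)
      have hda : 0 < ‖(x : E (j + 2)) - y‖ ^ (2 * a) := Real.rpow_pos_of_pos hd _
      have h1 := ENNReal.ofReal_le_ofReal (hker x y hxy)
      rw [ENNReal.ofReal_div_of_pos (kerMass_pos r _), ENNReal.ofReal_div_of_pos hda,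
        ENNReal.ofReal_mul hA0.le] at h1
      calc (ENNReal.ofReal (kerMass r (x : E (j + 2))))⁻¹ *
            (ENNReal.ofReal (ker r (x : E (j + 2)) y) * ‖g x - g y‖ₑ ^ (2:ℝ))
          = (ENNReal.ofReal (ker r (x : E (j + 2)) y) / ENNReal.ofReal (kerMass r (x : E (j + 2)))) *
            ‖g x - g y‖ₑ ^ (2:ℝ) := by
            rw [ENNReal.div_eq_inv_mul, mul_assoc]
        _ ≤ (ENNReal.ofReal A * ENNReal.ofReal (r ^ (-s)) /
              ENNReal.ofReal (‖(x : E (j + 2)) - y‖ ^ (2 * a))) * ‖g x - g y‖ₑ ^ (2:ℝ) := by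
            gcongr
        _ = _ := by
            simp only [div_eq_mul_inv]
            ring
  calc ∫⁻ ω : S (j + 2), ‖g ω - moll r g ω‖ₑ ^ (2:ℝ) ∂(sm (j + 2))
      ≤ ∫⁻ x : S (j + 2), ENNReal.ofReal A * ENNReal.ofReal (r ^ (-s)) * ∫⁻ y : S (j + 2),
        ‖g x - g y‖ₑ ^ (2:ℝ) / ENNReal.ofReal (‖(x : E (j + 2)) - (y : E (j + 2))‖ ^ (2 * a))
          ∂(sm (j + 2)) ∂(sm (j + 2)) := lintegral_mono hpt
    _ = _ := lintegral_const_mul' _ _ (ENNReal.mul_ne_top ENNReal.ofReal_ne_top ENNReal.ofReal_ne_top)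

end Pool.Agent.MP_6cbfb8_an
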