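import Pool.Agent.MP_6cbfb8_an.Low3
import Pool.Agent.MP_6cbfb8_an.Moll

/-!
Representation of the mollified extension along great circles through the last basis vector.
-/

namespace Pool.Agent.MP_6cbfb8_an

open MeasureTheory Set
open scoped ENNReal Real RealInnerProductSpace

/-- The first coordinates of a point. -/
noncomputable def initE {n : ℕ} (y : E (n + 1)) : E n := WithLp.toLp 2 fun i => y (Fin.castSucc i)

lemma join_initE {n : ℕ} (y : E (n + 1)) : join (initE y) (y (Fin.last n)) = y := by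
  unfold join initE
  ext i
  refine Fin.lastCases ?_ (fun i => ?_) i <;> simp

lemma continuous_initE {n : ℕ} : Continuous (initE : E (n + 1) → E n) := by
  unfold initE
  refine (PiLp.continuous_toLp 2 _).comp ?_
  fun_prop

/-- The last basis vector. -/
noncomputable def eLast (n : ℕ) : E (n + 1) := join (0 : E n) 1

lemma norm_eLast (n : ℕ) : ‖eLast n‖ = 1 := by
  have h := norm_join_sq (0 : E n) 1
  unfold eLast
  rw [norm_zero] at h
  have h0 : 0 ≤ ‖join (0 : E n) 1‖ := norm_nonneg _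
  nlinarith

lemma inner_eLast {n : ℕ} (x : E (n + 1)) : inner ℝ x (eLast n) = x (Fin.last n) := by
  conv_lhs => rw [← join_initE x]
  unfold eLast
  rw [inner_join]
  simp

lemma pt_last {n : ℕ} (u : ℝ) (ν : E n) : pt u ν (Fin.last n) = Real.cos u := by
  unfold pt
  rw [join_last]

lemma inner_pt {n : ℕ} (u : ℝ) (ν : E n) (y : E (n + 1)) :
    inner ℝ (pt u ν) y = y (Fin.last n) * Real.cos u + inner ℝ ν (initE y) * Real.sin u := by
  conv_lhs => rw [← join_initE y]
  rw [inner_pt_join]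
  ring

lemma coef_sq_le {n : ℕ} (ν : S n) (y : S (n + 1)) :
    (y : E (n + 1)) (Fin.last n) ^ 2 + (inner ℝ (ν : E n) (initE (y : E (n + 1))) : ℝ) ^ 2 ≤ 1 := by
  have h1 := norm_join_sq (initE (y : E (n + 1))) ((y : E (n + 1)) (Fin.last n))
  rw [join_initE] at h1
  have hy : ‖(y : E (n + 1))‖ = 1 := by simp
  have hν : ‖(ν : E n)‖ = 1 := by simp
  have h2 := abs_real_inner_le_norm (ν : E n) (initE (y : E (n + 1)))
  rw [hν, one_mul] at h2
  have h3 : (inner ℝ (ν : E n) (initE (y : E (n + 1))) : ℝ) ^ 2 ≤ ‖initE (y : E (n + 1))‖ ^ 2 := by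
    rw [← sq_abs]
    exact pow_le_pow_left₀ (abs_nonneg _) h2 2
  rw [hy] at h1
  linarith

lemma norm_pt_sub_sq {n : ℕ} (u : ℝ) (ν : S n) (y : S (n + 1)) :
    ‖pt u (ν : E n) - (y : E (n + 1))‖ ^ 2 = 2 * (1 - ((y : E (n + 1)) (Fin.last n) * Real.cos u +
      inner ℝ (ν : E n) (initE (y : E (n + 1))) * Real.sin u)) := by
  rw [norm_sub_sq_real, norm_pt, inner_pt]
  have hy : ‖(y : E (n + 1))‖ = 1 := by simp
  rw [hy]
  ring

lemma akern_eq {j : ℕ} (r Z u : ℝ) (ν : S (j + 1)) (y : S (j + 2)) :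
    akern j r Z ((y : E (j + 2)) (Fin.last (j + 1))) (inner ℝ (ν : E (j + 1)) (initE (y : E (j + 2))))
      (u : ℂ) = ((Z⁻¹ * ker r (pt u (ν : E (j + 1))) (y : E (j + 2)) * Real.sin u ^ j : ℝ) : ℂ) := by
  rw [akern_ofReal]
  congr 3
  unfold ker
  rw [norm_pt_sub_sq]
  congr 1
  ring

lemma amaj_eq {j : ℕ} (r Z u : ℝ) (ν : S (j + 1)) (y : S (j + 2)) :
    amaj j r Z ((y : E (j + 2)) (Fin.last (j + 1))) (inner ℝ (ν : E (j + 1)) (initE (y : E (j + 2))))
      u = Z⁻¹ * (Real.exp 1 * 6 ^ j) *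
        Real.exp (-(r / 4 * ‖pt u (ν : E (j + 1)) - (y : E (j + 2))‖ ^ 2)) * Real.sin u ^ j := by
  unfold amaj
  rw [norm_pt_sub_sq]
  congr 3
  ring

/-- Slicing for Bochner integrals. -/
lemma integral_slice (j : ℕ) (F : S (j + 2) → ℂ) (hF : Integrable F (sm (j + 2))) :
    ∫ x, F x ∂(sm (j + 2)) = ∫ ν : S (j + 1), (∫ u in Ioo 0 π, ((Real.sin u ^ j : ℝ) : ℂ) *
      F ⟨pt u (ν : E (j + 1)), pt_mem u ν⟩) ∂(sm (j + 1)) := by
  set μ : Measure ℝ := ((volume : Measure ℝ).restrict (Ioo 0 π)).withDensity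
        (fun θ => ENNReal.ofReal (Real.sin θ ^ j)) with hμ
  have hsl := slicing j
  have hμfin : IsFiniteMeasure μ := by
    refine ⟨?_⟩
    rw [hμ, withDensity_apply _ MeasurableSet.univ, Measure.restrict_univ]
    calc ∫⁻ θ in Ioo 0 π, ENNReal.ofReal (Real.sin θ ^ j) ≤ ∫⁻ θ in Ioo 0 π, 1 := by
          refine lintegral_mono fun θ => ?_
          rw [← ENNReal.ofReal_one]
          refine ENNReal.ofReal_le_ofReal ?_
          refine (le_abs_self _).trans ?_
          rw [abs_pow]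
          exact pow_le_one₀ (abs_nonneg _) (Real.abs_sin_le_one θ)
      _ < ∞ := by simp
  have hF' : Integrable (fun q : ℝ × S (j + 1) => F ⟨pt q.1 (q.2 : E (j + 1)), pt_mem q.1 q.2⟩)
      (μ.prod (sm (j + 1))) := hsl.integrable_comp_of_integrable hF
  have h1 : ∫ x, F x ∂(sm (j + 2)) =
      ∫ q : ℝ × S (j + 1), F ⟨pt q.1 (q.2 : E (j + 1)), pt_mem q.1 q.2⟩ ∂(μ.prod (sm (j + 1))) := by
    conv_lhs => rw [← hsl.map_eq]
    rw [integral_map hsl.measurable.aemeasurable]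
    rw [hsl.map_eq]
    exact hF.aestronglyMeasurable
  rw [h1, integral_prod_symm _ hF']
  refine integral_congr_ae (Filter.Eventually.of_forall fun ν => ?_)
  simp only
  rw [hμ, integral_withDensity_eq_integral_toReal_smul (by fun_prop) (by simp)]
  refine setIntegral_congr_fun measurableSet_Ioo ?_
  intro θ hθ
  have hs : 0 ≤ Real.sin θ ^ j := pow_nonneg (Real.sin_pos_of_mem_Ioo hθ).le _
  simp only
  rw [ENNReal.toReal_ofReal hs, Complex.real_smul]

end Pool.Agent.MP_6cbfb8_an
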