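import Pool.Agent.MP_6cbfb8_an.LiftA
import Pool.Agent.MP_6cbfb8_an.LiftB
import Pool.Agent.MP_6cbfb8_an.LiftC
import Pool.Agent.MP_6cbfb8_an.LiftD
import Pool.Agent.MP_6cbfb8_an.LiftE1
import Pool.Agent.MP_6cbfb8_an.Low4
import Pool.Agent.MP_6cbfb8_an.Super

/-!
Lifting of the restriction estimate to higher dimensions: final assembly.
-/

namespace Pool.Agent.MP_6cbfb8_an

open MeasureTheory Set
open scoped ENNReal Real RealInnerProductSpace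

lemma liftE2_measurable_tpow {k : ℕ} (j : ℕ) (G : E (k + 1) → ℂ) (hG : Measurable G) :
    Measurable (tpow j G) := by
  unfold tpow
  have h1 : Measurable fun x : E (k + 1) => x (Fin.last k) := by fun_prop
  refine Measurable.ite (measurableSet_lt measurable_const h1) ?_ measurable_const
  refine hG.mul ?_
  fun_prop

lemma liftE2_norm_tpow_le {k : ℕ} (j : ℕ) (G : E (k + 1) → ℂ) (hb : ∀ x, ‖G x‖ ≤ 1) (x : S (k + 1)) :
    ‖tpow j G x‖ ≤ 1 := by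
  unfold tpow
  split_ifs with h
  · rw [norm_mul, Complex.norm_real, Real.norm_eq_abs, abs_pow]
    have h1 : |(x : E (k + 1)) (Fin.last k)| ≤ 1 := by
      have h2 := PiLp.norm_apply_le (x : E (k + 1)) (Fin.last k)
      rw [Real.norm_eq_abs, norm_eq_of_mem_sphere] at h2
      exact h2
    calc ‖G x‖ * |(x : E (k + 1)) (Fin.last k)| ^ j ≤ 1 * 1 := by
          gcongr
          · exact hb _
          · exact pow_le_one₀ (abs_nonneg _) h1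
      _ = 1 := by norm_num
  · simp

lemma liftE2_measurable_F {k : ℕ} (G : E (k + 2) → ℂ) (hG : Measurable G) :
    Measurable fun q : ℕ × (E (k + 1) × ℝ) => extn (tpow q.1 G) (join q.2.1 q.2.2) := by
  have h1 : Measurable (Function.uncurry fun (j : ℕ) (x : E (k + 2)) => tpow j G x) :=
    measurable_from_prod_countable_right fun j => liftE2_measurable_tpow j G hG
  have h2 := measurable_extn_param (fun (j : ℕ) => tpow j G) h1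
  have h3 : Measurable fun q : ℕ × (E (k + 1) × ℝ) => ((q.1, join q.2.1 q.2.2) : ℕ × E (k + 2)) := by
    have : Measurable fun q : E (k + 1) × ℝ => join q.1 q.2 := continuous_join.measurable
    exact measurable_fst.prodMk (this.comp measurable_snd)
  exact h2.comp h3

lemma liftE2_enorm_extn_le {n : ℕ} (g : E n → ℂ) (hb : ∀ x, ‖g x‖ ≤ 1) (ξ : E n) :
    ‖extn g ξ‖ₑ ≤ sm n univ := by
  unfold extn
  refine (enorm_integral_le_lintegral_enorm _).trans ?_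
  calc ∫⁻ x : S n, ‖g x * Complex.exp (((-(2 * π * inner ℝ (x : E n) ξ) : ℝ) : ℂ) * Complex.I)‖ₑ
        ∂(sm n) ≤ ∫⁻ _x : S n, 1 ∂(sm n) := by
        refine lintegral_mono fun x => ?_
        rw [enorm_mul, enorm_phase, mul_one, ← ofReal_norm]
        exact (ENNReal.ofReal_le_ofReal (hb _)).trans (by simp)
    _ = sm n univ := by simp

lemma liftE2_measurable_lift {k l : ℕ} (G : E (k + 1) → ℂ) (hG : Measurable G) :
    Measurable (lift G : E (k + l) → ℂ) := by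
  unfold lift
  have h1 : Continuous fun x : E (k + l) => (fstE x : E k) := by
    unfold fstE
    refine (PiLp.continuous_toLp 2 _).comp ?_
    fun_prop
  have h2 : Continuous fun x : E (k + l) => (sndE x : E l) := by
    unfold sndE
    refine (PiLp.continuous_toLp 2 _).comp ?_
    fun_prop
  have h3 : Continuous fun x : E (k + l) => join (fstE x : E k) ‖(sndE x : E l)‖ :=
    continuous_join.comp (h1.prodMk h2.norm)
  exact hG.comp h3.measurable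

lemma liftE2_polar (i : ℕ) (Φ : ℝ → ℝ≥0∞) (hΦ : Measurable Φ) :
    ∫⁻ w : E (i + 2), Φ ‖w‖ =
      sm (i + 2) univ * ∫⁻ ρ in Ioi (0:ℝ), Φ ρ * ENNReal.ofReal (ρ ^ (i + 1)) := by
  rw [lintegral_polar (i + 1) (fun w => Φ ‖w‖) (hΦ.comp measurable_norm)]
  have h : ∀ ω : S (i + 1 + 1), (∫⁻ ρ in Ioi (0:ℝ), Φ ‖ρ • (ω : E (i + 1 + 1))‖ *
      ENNReal.ofReal (ρ ^ (i + 1))) = ∫⁻ ρ in Ioi (0:ℝ), Φ ρ * ENNReal.ofReal (ρ ^ (i + 1)) := by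
    intro ω
    refine setLIntegral_congr_fun measurableSet_Ioi fun ρ hρ => ?_
    rw [norm_smul, norm_eq_of_mem_sphere, mul_one, Real.norm_eq_abs, abs_of_pos hρ]
  simp_rw [h]
  rw [lintegral_const, mul_comm]

lemma liftE2_Ioi (Φ : ℝ → ℝ≥0∞) :
    ∫⁻ z in Ioi (0:ℝ), Φ z ≤ (∫⁻ z in Ioc (0:ℝ) 1, Φ z) +
      ∑' m : ℕ, ∫⁻ z in Icc ((2:ℝ) ^ m) (2 * 2 ^ m), Φ z := by
  have hsub : Ioi (0:ℝ) ⊆ Ioc (0:ℝ) 1 ∪ ⋃ m : ℕ, Icc ((2:ℝ) ^ m) (2 * 2 ^ m) := by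
    intro z hz
    by_cases h1 : z ≤ 1
    · exact Or.inl ⟨hz, h1⟩
    · right
      push Not at h1
      obtain ⟨m, hm1, hm2⟩ := exists_nat_pow_near h1.le (by norm_num : (1:ℝ) < 2)
      refine mem_iUnion.2 ⟨m, hm1, ?_⟩
      rw [pow_succ] at hm2
      linarith
  calc ∫⁻ z in Ioi (0:ℝ), Φ z ≤ ∫⁻ z in Ioc (0:ℝ) 1 ∪ ⋃ m : ℕ, Icc ((2:ℝ) ^ m) (2 * 2 ^ m), Φ z :=
        lintegral_mono_set hsub
    _ ≤ (∫⁻ z in Ioc (0:ℝ) 1, Φ z) + ∫⁻ z in ⋃ m : ℕ, Icc ((2:ℝ) ^ m) (2 * 2 ^ m), Φ z :=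
        lintegral_union_le (fun z => Φ z) (Ioc (0:ℝ) 1) (⋃ m : ℕ, Icc ((2:ℝ) ^ m) (2 * 2 ^ m))
    _ ≤ _ := by
        gcongr
        exact lintegral_iUnion_le _ _

lemma liftE2_dilate (Ψ : ℝ → ℝ≥0∞) (hΨ : Measurable Ψ) {c Z : ℝ} (hc : c ≠ 0) (hZ : 0 < Z) :
    ∫⁻ z in Icc Z (2 * Z), Ψ (z * c) ≤
      ENNReal.ofReal |c|⁻¹ * ∫⁻ v in Icc (-(2 * Z * |c|)) (2 * Z * |c|), Ψ v := by
  set A : Set ℝ := Icc (-(2 * Z * |c|)) (2 * Z * |c|) with hA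
  have hAm : MeasurableSet A := measurableSet_Icc
  calc ∫⁻ z in Icc Z (2 * Z), Ψ (z * c) ≤ ∫⁻ z in Icc Z (2 * Z), A.indicator Ψ (z * c) := by
        refine setLIntegral_mono' measurableSet_Icc fun z hz => ?_
        have : z * c ∈ A := by
          have h1 : |z * c| ≤ 2 * Z * |c| := by
            rw [abs_mul]
            gcongr
            rw [abs_of_pos (hZ.trans_le hz.1)]
            exact hz.2
          exact ⟨by linarith [neg_abs_le (z * c)], (le_abs_self _).trans h1⟩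
        rw [indicator_of_mem this]
    _ ≤ ∫⁻ z, A.indicator Ψ (z * c) := setLIntegral_le_lintegral _ _
    _ = ∫⁻ v, A.indicator Ψ v ∂(Measure.map (· * c) volume) := by
        rw [lintegral_map (hΨ.indicator hAm) (by fun_prop)]
    _ = ENNReal.ofReal |c⁻¹| * ∫⁻ v, A.indicator Ψ v := by
        rw [Real.map_volume_mul_right hc, lintegral_smul_measure, smul_eq_mul]
    _ = _ := by
        rw [lintegral_indicator hAm, abs_inv]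

/-- The contribution of one dyadic shell. -/
lemma liftE2_shell (κ i : ℕ) {p ϑ : ℝ} (hp : 2 < p) {C₁ C₂ : ℝ≥0∞}
    (F : ℕ → E (κ + 1) → ℝ → ℂ)
    (hF : Measurable fun q : ℕ × (E (κ + 1) × ℝ) => F q.1 q.2.1 q.2.2)
    (hd : ∀ j y v, HasDerivAt (F j y) (-(2 * π * Complex.I) * F (j + 1) y v) v)
    (hV : ∀ j ≤ i + 1, ∀ V : ℝ, 0 < V →
      ∫⁻ v in Icc (-V) V, ∫⁻ y, ‖F j y v‖ₑ ^ p ≤ C₁ * ENNReal.ofReal (V ^ (1 - ϑ)))
    {Z : ℝ} (hZ : 1 ≤ Z) (K : Measure (ℕ × ℝ)) [IsFiniteMeasure K]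
    (hK1 : ∫⁻ q, ENNReal.ofReal (1 + |q.2| ^ (-ϑ)) ∂K ≤
      C₂ * ENNReal.ofReal (Z ^ (-(((i : ℝ) + 1) / 2))))
    (hK2 : ∀ᵐ q ∂K, q.1 ≤ i + 1 ∧ q.2 ≠ 0 ∧ |q.2| ≤ 1)
    (hK3 : ∀ f : ℕ → ℝ → ℂ,
      (∀ j v, HasDerivAt (f j) (-(2 * π * Complex.I) * f (j + 1) v) v) →
      ∀ z ∈ Icc Z (2 * Z),
        ‖∫ u in Ioo 0 π, ((Real.sin u ^ i : ℝ) : ℂ) * f (i + 1) (z * Real.cos u)‖ₑ ≤
          ∫⁻ q, ‖f q.1 (z * q.2)‖ₑ ∂K) :
    ∫⁻ z in Icc Z (2 * Z), (∫⁻ y, ‖∫ u in Ioo 0 π, ((Real.sin u ^ i : ℝ) : ℂ) *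
        F (i + 1) y (z * Real.cos u)‖ₑ ^ p) * ENNReal.ofReal (z ^ (i + 1)) ≤
      C₁ * C₂ ^ p * ENNReal.ofReal
        (2 ^ ((i : ℝ) + 2 - ϑ) * Z ^ (1 - ((i : ℝ) + 1) * (p - 2) / 2 - ϑ)) := by
  have hZ0 : 0 < Z := by linarith
  have hp0 : 0 < p := by linarith
  set a : ℝ := ((i : ℝ) + 1) / 2 with ha
  -- measurability
  have hM : Measurable fun x : (ℕ × ℝ) × (ℝ × E (κ + 1)) =>
      ‖F x.1.1 x.2.2 (x.2.1 * x.1.2)‖ₑ ^ p := by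
    have h1 : Measurable fun x : (ℕ × ℝ) × (ℝ × E (κ + 1)) =>
        ((x.1.1, (x.2.2, x.2.1 * x.1.2)) : ℕ × (E (κ + 1) × ℝ)) := by fun_prop
    exact (hF.comp h1).enorm.pow_const p
  have hMz : ∀ z : ℝ, Measurable fun x : E (κ + 1) × (ℕ × ℝ) =>
      ‖F x.2.1 x.1 (z * x.2.2)‖ₑ ^ p := by
    intro z
    exact hM.comp (f := fun x : E (κ + 1) × (ℕ × ℝ) => (x.2, (z, x.1))) (by fun_prop)
  have hMy : ∀ (z : ℝ) (y : E (κ + 1)), Measurable fun q : ℕ × ℝ => ‖F q.1 y (z * q.2)‖ₑ := by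
    intro z y
    have h1 : Measurable fun q : ℕ × ℝ => ((q.1, (y, z * q.2)) : ℕ × (E (κ + 1) × ℝ)) := by
      fun_prop
    exact (hF.comp h1).enorm
  have hΨ : ∀ j : ℕ, Measurable fun v : ℝ => ∫⁻ y, ‖F j y v‖ₑ ^ p := by
    intro j
    have h1 : Measurable fun x : ℝ × E (κ + 1) => ‖F j x.2 x.1‖ₑ ^ p := by
      have h2 : Measurable fun x : ℝ × E (κ + 1) => ((j, (x.2, x.1)) : ℕ × (E (κ + 1) × ℝ)) := by
        fun_prop
      exact (hF.comp h2).enorm.pow_const p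
    exact h1.lintegral_prod_right'
  have hMq : Measurable fun x : ℝ × (ℕ × ℝ) => ∫⁻ y, ‖F x.2.1 y (x.1 * x.2.2)‖ₑ ^ p := by
    have h1 : Measurable fun x : (ℝ × (ℕ × ℝ)) × E (κ + 1) =>
        ‖F x.1.2.1 x.2 (x.1.1 * x.1.2.2)‖ₑ ^ p :=
      hM.comp (f := fun x : (ℝ × (ℕ × ℝ)) × E (κ + 1) => (x.1.2, (x.1.1, x.2))) (by fun_prop)
    exact h1.lintegral_prod_right'
  -- mass of K
  have hKu : K univ ≤ C₂ * ENNReal.ofReal (Z ^ (-a)) := by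
    refine le_trans ?_ hK1
    calc K univ = ∫⁻ _q, 1 ∂K := by simp
      _ ≤ _ := by
        refine lintegral_mono fun q => ?_
        rw [← ENNReal.ofReal_one]
        refine ENNReal.ofReal_le_ofReal ?_
        have : (0:ℝ) ≤ |q.2| ^ (-ϑ) := by positivity
        linarith
  -- the inner estimate
  have hA : ∀ z ∈ Icc Z (2 * Z), (∫⁻ y, ‖∫ u in Ioo 0 π, ((Real.sin u ^ i : ℝ) : ℂ) *
      F (i + 1) y (z * Real.cos u)‖ₑ ^ p) ≤
      K univ ^ (p - 1) * ∫⁻ q, (∫⁻ y, ‖F q.1 y (z * q.2)‖ₑ ^ p) ∂K := by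
    intro z hz
    calc (∫⁻ y, ‖∫ u in Ioo 0 π, ((Real.sin u ^ i : ℝ) : ℂ) *
          F (i + 1) y (z * Real.cos u)‖ₑ ^ p)
        ≤ ∫⁻ y, K univ ^ (p - 1) * ∫⁻ q, ‖F q.1 y (z * q.2)‖ₑ ^ p ∂K := by
          refine lintegral_mono fun y => ?_
          calc ‖∫ u in Ioo 0 π, ((Real.sin u ^ i : ℝ) : ℂ) *
                F (i + 1) y (z * Real.cos u)‖ₑ ^ p
              ≤ (∫⁻ q, 1 * ‖F q.1 y (z * q.2)‖ₑ ∂K) ^ p := by
                refine ENNReal.rpow_le_rpow ?_ hp0.le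
                simp only [one_mul]
                exact hK3 (fun j => F j y) (fun j v => hd j y v) z hz
            _ ≤ (∫⁻ _q, 1 ∂K) ^ (p - 1) * ∫⁻ q, 1 * ‖F q.1 y (z * q.2)‖ₑ ^ p ∂K :=
                holder_weight K (fun _ => 1) _ measurable_const (hMy z y) (by linarith)
            _ = _ := by simp
      _ = K univ ^ (p - 1) * ∫⁻ y, ∫⁻ q, ‖F q.1 y (z * q.2)‖ₑ ^ p ∂K := by
          rw [lintegral_const_mul _ (hMz z).lintegral_prod_right']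
      _ = _ := by
          rw [lintegral_lintegral_swap
            (f := fun (y : E (κ + 1)) (q : ℕ × ℝ) => ‖F q.1 y (z * q.2)‖ₑ ^ p) (hMz z).aemeasurable]
  -- dilation
  have hD : ∀ᵐ q ∂K, ∫⁻ z in Icc Z (2 * Z), (∫⁻ y, ‖F q.1 y (z * q.2)‖ₑ ^ p) ≤
      C₁ * ENNReal.ofReal ((2 * Z) ^ (1 - ϑ)) * ENNReal.ofReal (1 + |q.2| ^ (-ϑ)) := by
    filter_upwards [hK2] with q hq
    obtain ⟨hq1, hq2, -⟩ := hq
    have hc : 0 < |q.2| := abs_pos.2 hq2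
    have hVp : 0 < 2 * Z * |q.2| := by positivity
    calc ∫⁻ z in Icc Z (2 * Z), (∫⁻ y, ‖F q.1 y (z * q.2)‖ₑ ^ p)
        ≤ ENNReal.ofReal |q.2|⁻¹ * ∫⁻ v in Icc (-(2 * Z * |q.2|)) (2 * Z * |q.2|),
            ∫⁻ y, ‖F q.1 y v‖ₑ ^ p := liftE2_dilate _ (hΨ q.1) hq2 hZ0
      _ ≤ ENNReal.ofReal |q.2|⁻¹ * (C₁ * ENNReal.ofReal ((2 * Z * |q.2|) ^ (1 - ϑ))) := by
          gcongr
          exact hV q.1 hq1 _ hVp
      _ = C₁ * ENNReal.ofReal ((2 * Z) ^ (1 - ϑ) * |q.2| ^ (-ϑ)) := by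
          rw [mul_left_comm, ← ENNReal.ofReal_mul (by positivity)]
          congr 2
          rw [Real.mul_rpow (by positivity) hc.le, ← Real.rpow_neg_one |q.2|, mul_left_comm,
            ← Real.rpow_add hc]
          congr 2
          ring
      _ ≤ C₁ * ENNReal.ofReal ((2 * Z) ^ (1 - ϑ) * (1 + |q.2| ^ (-ϑ))) := by
          gcongr
          linarith
      _ = _ := by
          rw [ENNReal.ofReal_mul (by positivity), mul_assoc]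
  have hmain : ∫⁻ z in Icc Z (2 * Z), (∫⁻ q, (∫⁻ y, ‖F q.1 y (z * q.2)‖ₑ ^ p) ∂K) ≤
      C₁ * ENNReal.ofReal ((2 * Z) ^ (1 - ϑ)) * (C₂ * ENNReal.ofReal (Z ^ (-a))) := by
    calc ∫⁻ z in Icc Z (2 * Z), (∫⁻ q, (∫⁻ y, ‖F q.1 y (z * q.2)‖ₑ ^ p) ∂K)
        = ∫⁻ q, (∫⁻ z in Icc Z (2 * Z), (∫⁻ y, ‖F q.1 y (z * q.2)‖ₑ ^ p)) ∂K := by
          rw [lintegral_lintegral_swap
            (f := fun (z : ℝ) (q : ℕ × ℝ) => ∫⁻ y, ‖F q.1 y (z * q.2)‖ₑ ^ p) hMq.aemeasurable]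
      _ ≤ ∫⁻ q, C₁ * ENNReal.ofReal ((2 * Z) ^ (1 - ϑ)) * ENNReal.ofReal (1 + |q.2| ^ (-ϑ)) ∂K :=
          lintegral_mono_ae hD
      _ = C₁ * ENNReal.ofReal ((2 * Z) ^ (1 - ϑ)) *
            ∫⁻ q, ENNReal.ofReal (1 + |q.2| ^ (-ϑ)) ∂K := by
          rw [lintegral_const_mul]
          fun_prop
      _ ≤ _ := by gcongr
  calc ∫⁻ z in Icc Z (2 * Z), (∫⁻ y, ‖∫ u in Ioo 0 π, ((Real.sin u ^ i : ℝ) : ℂ) *
        F (i + 1) y (z * Real.cos u)‖ₑ ^ p) * ENNReal.ofReal (z ^ (i + 1))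
      ≤ ∫⁻ z in Icc Z (2 * Z), (K univ ^ (p - 1) * ENNReal.ofReal ((2 * Z) ^ (i + 1))) *
          ∫⁻ q, (∫⁻ y, ‖F q.1 y (z * q.2)‖ₑ ^ p) ∂K := by
        refine setLIntegral_mono' measurableSet_Icc fun z hz => ?_
        rw [mul_right_comm]
        refine mul_le_mul' (hA z hz) (ENNReal.ofReal_le_ofReal ?_)
        have h0 : 0 ≤ z := by linarith [hz.1]
        exact pow_le_pow_left₀ h0 hz.2 _
    _ = (K univ ^ (p - 1) * ENNReal.ofReal ((2 * Z) ^ (i + 1))) *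
          ∫⁻ z in Icc Z (2 * Z), ∫⁻ q, (∫⁻ y, ‖F q.1 y (z * q.2)‖ₑ ^ p) ∂K := by
        rw [lintegral_const_mul _ hMq.lintegral_prod_right']
    _ ≤ ((C₂ * ENNReal.ofReal (Z ^ (-a))) ^ (p - 1) * ENNReal.ofReal ((2 * Z) ^ (i + 1))) *
          (C₁ * ENNReal.ofReal ((2 * Z) ^ (1 - ϑ)) * (C₂ * ENNReal.ofReal (Z ^ (-a)))) := by
        refine mul_le_mul' (mul_le_mul' (ENNReal.rpow_le_rpow hKu (by linarith)) le_rfl) hmain
    _ = C₁ * ((C₂ * ENNReal.ofReal (Z ^ (-a))) ^ (p - 1) * (C₂ * ENNReal.ofReal (Z ^ (-a))) ^ (1:ℝ)) *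
          (ENNReal.ofReal ((2 * Z) ^ (i + 1)) * ENNReal.ofReal ((2 * Z) ^ (1 - ϑ))) := by
        rw [ENNReal.rpow_one]; ring
    _ = C₁ * C₂ ^ p * (ENNReal.ofReal (Z ^ (-a * p)) *
          (ENNReal.ofReal ((2 * Z) ^ (i + 1)) * ENNReal.ofReal ((2 * Z) ^ (1 - ϑ)))) := by
        rw [← ENNReal.rpow_add_of_nonneg _ _ (by linarith) (by norm_num), sub_add_cancel,
          ENNReal.mul_rpow_of_nonneg _ _ hp0.le, ENNReal.ofReal_rpow_of_pos (by positivity),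
          ← Real.rpow_mul hZ0.le]
        ring
    _ = _ := by
        rw [← ENNReal.ofReal_mul (by positivity), ← ENNReal.ofReal_mul (by positivity)]
        congr 2
        rw [← Real.rpow_natCast, Real.mul_rpow (by norm_num) hZ0.le,
          Real.mul_rpow (by norm_num) hZ0.le]
        have e1 : (2:ℝ) ^ ((i : ℝ) + 2 - ϑ) = 2 ^ ((i + 1 : ℕ) : ℝ) * 2 ^ (1 - ϑ) := by
          rw [← Real.rpow_add (by norm_num)]
          congr 1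
          push_cast
          ring
        have e2 : Z ^ (1 - ((i : ℝ) + 1) * (p - 2) / 2 - ϑ) =
            Z ^ (-a * p) * (Z ^ ((i + 1 : ℕ) : ℝ) * Z ^ (1 - ϑ)) := by
          rw [← Real.rpow_add hZ0, ← Real.rpow_add hZ0]
          congr 1
          rw [ha]
          push_cast
          ring
        rw [e1, e2]
        ring

lemma liftE2_trivial (κ i : ℕ) {p : ℝ} (hp : 2 < p) {C₀ : ℝ≥0∞}
    (F : E (κ + 1) → ℝ → ℂ) (hF : Measurable fun q : E (κ + 1) × ℝ => F q.1 q.2)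
    (hs : ∀ v : ℝ, ∫⁻ y, ‖F y v‖ₑ ^ p ≤ C₀) (z : ℝ) :
    (∫⁻ y, ‖∫ u in Ioo 0 π, ((Real.sin u ^ i : ℝ) : ℂ) * F y (z * Real.cos u)‖ₑ ^ p) ≤
      ENNReal.ofReal π ^ (p - 1) * (C₀ * ENNReal.ofReal π) := by
  have hp0 : 0 < p := by linarith
  have hvol : ∫⁻ _u in Ioo 0 π, (1 : ℝ≥0∞) = ENNReal.ofReal π := by
    rw [setLIntegral_one, Real.volume_Ioo, sub_zero]
  have hm : Measurable fun x : E (κ + 1) × ℝ => ‖F x.1 (z * Real.cos x.2)‖ₑ ^ p := by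
    have h2 : Measurable fun x : E (κ + 1) × ℝ => ((x.1, z * Real.cos x.2) : E (κ + 1) × ℝ) := by
      fun_prop
    exact (hF.comp h2).enorm.pow_const p
  have hm1 : ∀ y : E (κ + 1), Measurable fun u : ℝ => ‖F y (z * Real.cos u)‖ₑ := by
    intro y
    have h2 : Measurable fun u : ℝ => ((y, z * Real.cos u) : E (κ + 1) × ℝ) := by
      fun_prop
    exact (hF.comp h2).enorm
  calc (∫⁻ y, ‖∫ u in Ioo 0 π, ((Real.sin u ^ i : ℝ) : ℂ) * F y (z * Real.cos u)‖ₑ ^ p)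
      ≤ ∫⁻ y, ENNReal.ofReal π ^ (p - 1) * ∫⁻ u in Ioo 0 π, ‖F y (z * Real.cos u)‖ₑ ^ p := by
        refine lintegral_mono fun y => ?_
        calc ‖∫ u in Ioo 0 π, ((Real.sin u ^ i : ℝ) : ℂ) * F y (z * Real.cos u)‖ₑ ^ p
            ≤ (∫⁻ u in Ioo 0 π, 1 * ‖F y (z * Real.cos u)‖ₑ) ^ p := by
              refine ENNReal.rpow_le_rpow ?_ hp0.le
              refine (enorm_integral_le_lintegral_enorm _).trans ?_
              refine lintegral_mono fun u => ?_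
              simp only
              rw [enorm_mul]
              refine mul_le_mul' ?_ le_rfl
              rw [← ofReal_norm, Complex.norm_real, Real.norm_eq_abs, abs_pow,
                ← ENNReal.ofReal_one]
              exact ENNReal.ofReal_le_ofReal (pow_le_one₀ (abs_nonneg _) (Real.abs_sin_le_one u))
          _ ≤ (∫⁻ _u in Ioo 0 π, 1) ^ (p - 1) *
                ∫⁻ u in Ioo 0 π, 1 * ‖F y (z * Real.cos u)‖ₑ ^ p :=
              holder_weight _ (fun _ => 1) _ measurable_const (hm1 y) (by linarith)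
          _ = _ := by rw [hvol]; simp
    _ = ENNReal.ofReal π ^ (p - 1) * ∫⁻ y, ∫⁻ u in Ioo 0 π, ‖F y (z * Real.cos u)‖ₑ ^ p := by
        rw [lintegral_const_mul _ hm.lintegral_prod_right']
    _ = ENNReal.ofReal π ^ (p - 1) * ∫⁻ u in Ioo 0 π, ∫⁻ y, ‖F y (z * Real.cos u)‖ₑ ^ p := by
        rw [lintegral_lintegral_swap
          (f := fun (y : E (κ + 1)) (u : ℝ) => ‖F y (z * Real.cos u)‖ₑ ^ p) hm.aemeasurable]
    _ ≤ ENNReal.ofReal π ^ (p - 1) * ∫⁻ _u in Ioo 0 π, C₀ := by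
        gcongr with u
        exact hs _
    _ = _ := by
        rw [lintegral_const, Measure.restrict_apply_univ, Real.volume_Ioo, sub_zero]

/-- The radial integral: all shells together, for an abstract family of functions. -/
lemma liftE2_radial (κ i : ℕ) {p ϑ : ℝ} (hp : 2 < p) {C₀ C₁ C₂ : ℝ≥0∞}
    (hN : ∀ Z : ℝ, 1 ≤ Z → ∃ K : Measure (ℕ × ℝ), IsFiniteMeasure K ∧
      ∫⁻ q, ENNReal.ofReal (1 + |q.2| ^ (-ϑ)) ∂K ≤
        C₂ * ENNReal.ofReal (Z ^ (-(((i : ℝ) + 1) / 2))) ∧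
      (∀ᵐ q ∂K, q.1 ≤ i + 1 ∧ q.2 ≠ 0 ∧ |q.2| ≤ 1) ∧
      ∀ f : ℕ → ℝ → ℂ,
        (∀ j v, HasDerivAt (f j) (-(2 * π * Complex.I) * f (j + 1) v) v) →
        ∀ z ∈ Icc Z (2 * Z),
          ‖∫ u in Ioo 0 π, ((Real.sin u ^ i : ℝ) : ℂ) * f (i + 1) (z * Real.cos u)‖ₑ ≤
            ∫⁻ q, ‖f q.1 (z * q.2)‖ₑ ∂K)
    (F : ℕ → E (κ + 1) → ℝ → ℂ)
    (hF : Measurable fun q : ℕ × (E (κ + 1) × ℝ) => F q.1 q.2.1 q.2.2)
    (hd : ∀ j y v, HasDerivAt (F j y) (-(2 * π * Complex.I) * F (j + 1) y v) v)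
    (hV : ∀ j ≤ i + 1, ∀ V : ℝ, 0 < V →
      ∫⁻ v in Icc (-V) V, ∫⁻ y, ‖F j y v‖ₑ ^ p ≤ C₁ * ENNReal.ofReal (V ^ (1 - ϑ)))
    (hs : ∀ v : ℝ, ∫⁻ y, ‖F (i + 1) y v‖ₑ ^ p ≤ C₀) :
    ∫⁻ z in Ioi (0:ℝ), (∫⁻ y, ‖∫ u in Ioo 0 π, ((Real.sin u ^ i : ℝ) : ℂ) *
        F (i + 1) y (z * Real.cos u)‖ₑ ^ p) * ENNReal.ofReal (z ^ (i + 1)) ≤
      ENNReal.ofReal π ^ (p - 1) * (C₀ * ENNReal.ofReal π) +
        C₁ * C₂ ^ p * ENNReal.ofReal (2 ^ ((i : ℝ) + 2 - ϑ)) *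
          (1 - ENNReal.ofReal (2 ^ (1 - ((i : ℝ) + 1) * (p - 2) / 2 - ϑ)))⁻¹ := by
  have hFm1 : Measurable fun q : E (κ + 1) × ℝ => F (i + 1) q.1 q.2 :=
    hF.comp (f := fun q : E (κ + 1) × ℝ => ((i + 1, q) : ℕ × (E (κ + 1) × ℝ))) (by fun_prop)
  refine (liftE2_Ioi _).trans (add_le_add ?_ ?_)
  · calc ∫⁻ z in Ioc (0:ℝ) 1, (∫⁻ y, ‖∫ u in Ioo 0 π, ((Real.sin u ^ i : ℝ) : ℂ) *
          F (i + 1) y (z * Real.cos u)‖ₑ ^ p) * ENNReal.ofReal (z ^ (i + 1))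
        ≤ ∫⁻ _z in Ioc (0:ℝ) 1, ENNReal.ofReal π ^ (p - 1) * (C₀ * ENNReal.ofReal π) := by
          refine setLIntegral_mono' measurableSet_Ioc fun z hz => ?_
          rw [← mul_one (ENNReal.ofReal π ^ (p - 1) * (C₀ * ENNReal.ofReal π))]
          refine mul_le_mul' (liftE2_trivial κ i hp (F (i + 1)) hFm1 hs z) ?_
          rw [← ENNReal.ofReal_one]
          exact ENNReal.ofReal_le_ofReal (pow_le_one₀ hz.1.le hz.2)
      _ = _ := by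
          rw [lintegral_const, Measure.restrict_apply_univ, Real.volume_Ioc]
          simp
  · rw [← ENNReal.tsum_geometric, ← ENNReal.tsum_mul_left]
    refine ENNReal.tsum_le_tsum fun m => ?_
    have hZ : (1:ℝ) ≤ 2 ^ m := one_le_pow₀ (by norm_num)
    obtain ⟨K, hKf, hK1, hK2, hK3⟩ := hN (2 ^ m) hZ
    refine (liftE2_shell κ i (p := p) (ϑ := ϑ) hp (C₁ := C₁) (C₂ := C₂) F hF hd
      hV hZ K hK1 hK2 hK3).trans (le_of_eq ?_)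
    rw [ENNReal.ofReal_mul (by positivity), ← mul_assoc]
    congr 1
    rw [← ENNReal.ofReal_pow (by positivity)]
    congr 1
    rw [← Real.rpow_natCast (2 ^ _), ← Real.rpow_natCast 2,
      ← Real.rpow_mul (by norm_num), ← Real.rpow_mul (by norm_num), mul_comm]

lemma liftE2_meas (κ i : ℕ) (p : ℝ) (F : E (κ + 1) → ℝ → ℂ)
    (hF : Measurable fun q : E (κ + 1) × ℝ => F q.1 q.2) :
    Measurable fun x : ℝ × E (κ + 1) => ‖∫ u in Ioo 0 π, ((Real.sin u ^ i : ℝ) : ℂ) *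
      F x.2 (x.1 * Real.cos u)‖ₑ ^ p := by
  have h4 : Measurable fun x : (ℝ × E (κ + 1)) × ℝ => F x.1.2 (x.1.1 * Real.cos x.2) := by
    have h5 : Measurable fun x : (ℝ × E (κ + 1)) × ℝ =>
        ((x.1.2, x.1.1 * Real.cos x.2) : E (κ + 1) × ℝ) := by fun_prop
    exact hF.comp h5
  have h6 : Measurable fun x : (ℝ × E (κ + 1)) × ℝ => ((Real.sin x.2 ^ i : ℝ) : ℂ) := by
    fun_prop
  have h7 : Measurable fun x : (ℝ × E (κ + 1)) × ℝ => ((Real.sin x.2 ^ i : ℝ) : ℂ) *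
      F x.1.2 (x.1.1 * Real.cos x.2) := h6.mul h4
  exact (h7.stronglyMeasurable.integral_prod_right'
    (ν := volume.restrict (Ioo 0 π))).measurable.enorm.pow_const p

/-- Reduction of the lifted estimate to the radial integral. -/
lemma liftE2_reduce (κ i : ℕ) {p : ℝ} (hp0 : 0 < p) (G : E (κ + 2) → ℂ) (hG : Measurable G)
    (hb : ∀ x, ‖G x‖ ≤ 1) :
    ∫⁻ ξ, ‖extn (lift G : E ((κ + 1) + (i + 2)) → ℂ) ξ‖ₑ ^ p =
      ‖(((sm (i + 1)).real univ : ℝ) : ℂ)‖ₑ ^ p * (sm (i + 2) univ *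
        ∫⁻ z in Ioi (0:ℝ), (∫⁻ y, ‖∫ u in Ioo 0 π, ((Real.sin u ^ i : ℝ) : ℂ) *
          extn (tpow (i + 1) G) (join y (z * Real.cos u))‖ₑ ^ p) *
            ENNReal.ofReal (z ^ (i + 1))) := by
  have hFm1 : Measurable fun q : E (κ + 1) × ℝ => extn (tpow (i + 1) G) (join q.1 q.2) :=
    (liftE2_measurable_F G hG).comp
      (f := fun q : E (κ + 1) × ℝ => ((i + 1, q) : ℕ × (E (κ + 1) × ℝ))) (by fun_prop)
  have hΞm := liftE2_meas κ i p (fun y v => extn (tpow (i + 1) G) (join y v)) hFm1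
  beta_reduce at hΞm
  have hΦm : Measurable fun z : ℝ => ∫⁻ y : E (κ + 1), ‖∫ u in Ioo 0 π,
      ((Real.sin u ^ i : ℝ) : ℂ) *
        extn (tpow (i + 1) G) (join y (z * Real.cos u))‖ₑ ^ p := hΞm.lintegral_prod_right'
  have hext : Measurable fun ξ => ‖extn (lift G : E ((κ + 1) + (i + 2)) → ℂ) ξ‖ₑ ^ p :=
    (measurable_extn _ (liftE2_measurable_lift G hG)).enorm.pow_const p
  have hbjm : Measurable fun x : E (κ + 1) × E (i + 2) =>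
      ‖extn (lift G : E ((κ + 1) + (i + 2)) → ℂ) (bj x.1 x.2)‖ₑ ^ p :=
    hext.comp continuous_bj.measurable
  rw [lintegral_bj (κ + 1) (i + 2) _ hext, lintegral_lintegral_swap
    (f := fun (y : E (κ + 1)) (w : E (i + 2)) =>
      ‖extn (lift G : E ((κ + 1) + (i + 2)) → ℂ) (bj y w)‖ₑ ^ p) hbjm.aemeasurable]
  have hw : ∀ w : E (i + 2), ∫⁻ y : E (κ + 1),
      ‖extn (lift G : E ((κ + 1) + (i + 2)) → ℂ) (bj y w)‖ₑ ^ p =
      ‖(((sm (i + 1)).real univ : ℝ) : ℂ)‖ₑ ^ p * ∫⁻ y : E (κ + 1), ‖∫ u in Ioo 0 π,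
      ((Real.sin u ^ i : ℝ) : ℂ) *
        extn (tpow (i + 1) G) (join y (‖w‖ * Real.cos u))‖ₑ ^ p := by
    intro w
    have h4 : Measurable fun y : E (κ + 1) => ‖∫ u in Ioo 0 π, ((Real.sin u ^ i : ℝ) : ℂ) *
        extn (tpow (i + 1) G) (join y (‖w‖ * Real.cos u))‖ₑ ^ p :=
      hΞm.comp (f := fun y : E (κ + 1) => (‖w‖, y)) (by fun_prop)
    rw [← lintegral_const_mul _ h4]
    refine lintegral_congr fun y => ?_
    rw [extn_lift κ i G hG hb y w, enorm_mul, ENNReal.mul_rpow_of_nonneg _ _ hp0.le]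
  have hΦn : Measurable fun w : E (i + 2) => ∫⁻ y : E (κ + 1), ‖∫ u in Ioo 0 π,
      ((Real.sin u ^ i : ℝ) : ℂ) *
        extn (tpow (i + 1) G) (join y (‖w‖ * Real.cos u))‖ₑ ^ p := hΦm.comp measurable_norm
  calc ∫⁻ w : E (i + 2), ∫⁻ y : E (κ + 1),
        ‖extn (lift G : E ((κ + 1) + (i + 2)) → ℂ) (bj y w)‖ₑ ^ p
      = ∫⁻ w : E (i + 2), ‖(((sm (i + 1)).real univ : ℝ) : ℂ)‖ₑ ^ p *
          ∫⁻ y : E (κ + 1), ‖∫ u in Ioo 0 π, ((Real.sin u ^ i : ℝ) : ℂ) *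
            extn (tpow (i + 1) G) (join y (‖w‖ * Real.cos u))‖ₑ ^ p := lintegral_congr hw
    _ = ‖(((sm (i + 1)).real univ : ℝ) : ℂ)‖ₑ ^ p * ∫⁻ w : E (i + 2),
          ∫⁻ y : E (κ + 1), ‖∫ u in Ioo 0 π, ((Real.sin u ^ i : ℝ) : ℂ) *
            extn (tpow (i + 1) G) (join y (‖w‖ * Real.cos u))‖ₑ ^ p :=
        lintegral_const_mul _ hΦn
    _ = _ := congrArg _ (liftE2_polar i _ hΦm)

/-- The estimate for exponents in the open range. -/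
lemma liftE2_core (κ i : ℕ) (q₁ : ℝ) (hq₁ : 2 < q₁) (cls : (E (κ + 2) → ℂ) → Prop)
    (H : ∀ (j : ℕ) (q : ℝ), q₁ < q → ∃ C : ℝ≥0∞, C ≠ ∞ ∧
      ∀ G : E (κ + 2) → ℂ, Measurable G → (∀ x, ‖G x‖ ≤ 1) → cls G →
        ∫⁻ ξ, ‖extn (tpow j G) ξ‖ₑ ^ q ≤ C)
    (p : ℝ) (hp2 : 2 < p) (hpq : 1 / (p - 2) < ((i : ℝ) + 1) / 2 + 1 / (q₁ - 2))
    (hp' : p < q₁) :
    ∃ C : ℝ≥0∞, C ≠ ∞ ∧ ∀ G : E (κ + 2) → ℂ, Measurable G → (∀ x, ‖G x‖ ≤ 1) → cls G →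
      ∫⁻ ξ, ‖extn (lift G : E ((κ + 1) + (i + 2)) → ℂ) ξ‖ₑ ^ p ≤ C := by
  have hp0 : 0 < p := by linarith
  have hthr : 1 - ((i : ℝ) + 1) * (p - 2) / 2 < (p - 2) / (q₁ - 2) := by
    have h1 : 0 < p - 2 := by linarith
    have h2 := mul_lt_mul_of_pos_right hpq h1
    rw [one_div_mul_cancel h1.ne', add_mul, one_div_mul_eq_div] at h2
    linarith
  obtain ⟨ϑ, h1, h2, h3, C₁, hC₁, hS⟩ := slab_vol κ q₁ hq₁ cls H p hp2 hp' _ hthr (i + 1)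
  obtain ⟨C₂, hC₂, hN⟩ := near_far i ϑ h2.le h3
  obtain ⟨C₀, hC₀, hsl⟩ := slab κ p hp2
  refine ⟨‖(((sm (i + 1)).real univ : ℝ) : ℂ)‖ₑ ^ p * (sm (i + 2) univ *
      (ENNReal.ofReal π ^ (p - 1) * (C₀ * ENNReal.ofReal π) +
        C₁ * C₂ ^ p * ENNReal.ofReal (2 ^ ((i : ℝ) + 2 - ϑ)) *
          (1 - ENNReal.ofReal (2 ^ (1 - ((i : ℝ) + 1) * (p - 2) / 2 - ϑ)))⁻¹)), ?_, ?_⟩
  · have hr1 : ENNReal.ofReal (2 ^ (1 - ((i : ℝ) + 1) * (p - 2) / 2 - ϑ)) < 1 := by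
      rw [← ENNReal.ofReal_one]
      refine (ENNReal.ofReal_lt_ofReal_iff one_pos).2 ?_
      exact Real.rpow_lt_one_of_one_lt_of_neg (by norm_num) (by linarith)
    have t4 : (1 - ENNReal.ofReal (2 ^ (1 - ((i : ℝ) + 1) * (p - 2) / 2 - ϑ)))⁻¹ ≠ ∞ := by
      rw [ENNReal.inv_ne_top]
      exact (tsub_pos_of_lt hr1).ne'
    refine ENNReal.mul_ne_top (ENNReal.rpow_ne_top_of_nonneg hp0.le enorm_ne_top)
      (ENNReal.mul_ne_top (sm_univ_ne_top _) (ENNReal.add_ne_top.2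
        ⟨ENNReal.mul_ne_top (ENNReal.rpow_ne_top_of_nonneg (by linarith) ENNReal.ofReal_ne_top)
        (ENNReal.mul_ne_top hC₀ ENNReal.ofReal_ne_top), ENNReal.mul_ne_top (ENNReal.mul_ne_top
          (ENNReal.mul_ne_top hC₁ (ENNReal.rpow_ne_top_of_nonneg hp0.le hC₂))
        ENNReal.ofReal_ne_top) t4⟩))
  intro G hG hb hc
  rw [liftE2_reduce κ i hp0 G hG hb]
  refine mul_le_mul' le_rfl (mul_le_mul' le_rfl ?_)
  exact liftE2_radial κ i hp2 hN (fun j y v => extn (tpow j G) (join y v))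
    (liftE2_measurable_F G hG) (fun j y v => hasDerivAt_tpow κ j G hG hb y v)
    (fun j hj V hV => hS G hG hb hc j hj V hV) (fun v => hsl G hG hb (i + 1) v)

theorem lifting (κ i : ℕ) (q₁ : ℝ) (hq₁ : 2 < q₁) (cls : (E (κ + 2) → ℂ) → Prop)
    (H : ∀ (j : ℕ) (q : ℝ), q₁ < q → ∃ C : ℝ≥0∞, C ≠ ∞ ∧
      ∀ G : E (κ + 2) → ℂ, Measurable G → (∀ x, ‖G x‖ ≤ 1) → cls G →
        ∫⁻ ξ, ‖extn (tpow j G) ξ‖ₑ ^ q ≤ C)
    (p : ℝ) (hp : 2 < p) (hpq : 1 / (p - 2) < ((i : ℝ) + 1) / 2 + 1 / (q₁ - 2)) :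
    ∃ C : ℝ≥0∞, C ≠ ∞ ∧ ∀ G : E (κ + 2) → ℂ, Measurable G → (∀ x, ‖G x‖ ≤ 1) → cls G →
      ∫⁻ ξ, ‖extn (lift G : E ((κ + 1) + (i + 2)) → ℂ) ξ‖ₑ ^ p ≤ C := by
  by_cases hp' : p < q₁
  · exact liftE2_core κ i q₁ hq₁ cls H p hp hpq hp'
  push Not at hp'
  have hq0 : 0 < q₁ - 2 := by linarith
  have hD : 0 < ((i : ℝ) + 1) / 2 + 1 / (q₁ - 2) := by positivity
  have hlt : 1 / (((i : ℝ) + 1) / 2 + 1 / (q₁ - 2)) < q₁ - 2 := by
    rw [div_lt_iff₀ hD, mul_add, mul_one_div_cancel hq0.ne']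
    have : 0 < (q₁ - 2) * (((i : ℝ) + 1) / 2) := by positivity
    linarith
  obtain ⟨s, hs1, hs2⟩ := exists_between hlt
  have hs0 : 0 < s := lt_trans (by positivity) hs1
  have hs3 : 1 / ((2 + s) - 2) < ((i : ℝ) + 1) / 2 + 1 / (q₁ - 2) := by
    rw [add_sub_cancel_left, div_lt_iff₀ hs0]
    rwa [div_lt_iff₀ hD, mul_comm] at hs1
  obtain ⟨C, hC, h⟩ := liftE2_core κ i q₁ hq₁ cls H (2 + s) (by linarith) hs3 (by linarith)
  refine ⟨sm ((κ + 1) + (i + 2)) univ ^ (p - (2 + s)) * C,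
    ENNReal.mul_ne_top (ENNReal.rpow_ne_top_of_nonneg (by linarith) (sm_univ_ne_top _)) hC, ?_⟩
  intro G hG hb hc
  refine (lintegral_rpow_le_sup (p := p) (p' := 2 + s)
    (fun ξ => ‖extn (lift G : E ((κ + 1) + (i + 2)) → ℂ) ξ‖ₑ)
    (measurable_extn _ (liftE2_measurable_lift G hG)).enorm
    (by linarith) (by linarith) _ (fun ξ => liftE2_enorm_extn_le _ (fun x => hb _) ξ)).trans ?_
  exact mul_le_mul' le_rfl (h G hG hb hc)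

end Pool.Agent.MP_6cbfb8_an
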