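import Pool.Agent.MP_6cbfb8_an.LonDefs

/-!
The Fourier transform of an odd function of the longitude in parabolic coordinates: the extension
operator of the circle applied twice.
-/

namespace Pool.Agent.MP_6cbfb8_an

open MeasureTheory Set
open scoped ENNReal Real

/-- The character. -/
noncomputable def lch (t : ℝ) : ℂ := Complex.exp (((-(2 * π * t) : ℝ) : ℂ) * Complex.I)

lemma continuous_lch : Continuous lch := by
  unfold lch; fun_prop

lemma norm_lch (t : ℝ) : ‖lch t‖ = 1 := Complex.norm_exp_ofReal_mul_I _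

lemma lonC_Ioo (F : ℝ → ℂ) : ∫ θ in Ioo (-π) π, F θ = ∫ θ in (-π)..π, F θ := by
  rw [intervalIntegral.integral_of_le (by linarith [Real.pi_pos]), integral_Ioc_eq_integral_Ioo]

lemma lonC_shift (F : ℝ → ℂ) (hF : Function.Periodic F (2 * π)) (c : ℝ) :
    ∫ θ in (-π)..π, F (θ + c) = ∫ θ in (-π)..π, F θ := by
  rw [intervalIntegral.integral_comp_add_right]
  have h := hF.intervalIntegral_add_eq (-π + c) (-π)
  have e1 : -π + c + 2 * π = π + c := by ring
  have e2 : -π + 2 * π = π := by ring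
  rw [e1, e2] at h
  exact h

/-- The kernel at `(A, B)` in the direction `ω`. -/
noncomputable def lonJ (A B ω : ℝ) : ℂ :=
  ∫ θ in (-π)..π, ((Real.cos (θ - ω) : ℝ) : ℂ) * lch (A * Real.cos θ + B * Real.sin θ)

/-- The radial kernel. -/
noncomputable def lonK (R : ℝ) : ℂ :=
  ∫ θ in (-π)..π, ((Real.cos θ : ℝ) : ℂ) * lch (R * Real.cos θ)

lemma lonC_odd (R : ℝ) :
    ∫ θ in (-π)..π, ((Real.sin θ : ℝ) : ℂ) * lch (R * Real.cos θ) = 0 := by
  have h := intervalIntegral.integral_comp_neg (a := -π) (b := π)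
    (fun θ => ((Real.sin θ : ℝ) : ℂ) * lch (R * Real.cos θ))
  simp only [Real.sin_neg, Real.cos_neg, neg_neg, Complex.ofReal_neg, neg_mul] at h
  rw [intervalIntegral.integral_neg] at h
  exact self_eq_neg.1 h.symm

lemma lonC_rot (A B ω : ℝ) : ((√(A ^ 2 + B ^ 2) : ℝ) : ℂ) * lonJ A B ω =
    ((A * Real.cos ω + B * Real.sin ω : ℝ) : ℂ) * lonK (√(A ^ 2 + B ^ 2)) := by
  set R := √(A ^ 2 + B ^ 2) with hR
  set w : ℂ := ⟨A, B⟩ with hw
  have hn : ‖w‖ = R := by
    rw [Complex.norm_def, Complex.normSq_mk, hR]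
    congr 1
    ring
  set ζ := Complex.arg w with hζ
  have hA : A = R * Real.cos ζ := by
    have := Complex.norm_mul_cos_arg w
    rw [hn] at this
    simpa [hw] using this.symm
  have hB : B = R * Real.sin ζ := by
    have := Complex.norm_mul_sin_arg w
    rw [hn] at this
    simpa [hw] using this.symm
  have h1 : lonJ A B ω = ((Real.cos (ζ - ω) : ℝ) : ℂ) * lonK R := by
    unfold lonJ
    have e : ∀ θ : ℝ, A * Real.cos θ + B * Real.sin θ = R * Real.cos (θ - ζ) := by
      intro θ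
      conv_lhs => rw [hA, hB]
      rw [Real.cos_sub]
      ring
    simp_rw [e]
    have hp : Function.Periodic (fun θ : ℝ => ((Real.cos (θ - ω) : ℝ) : ℂ) *
        lch (R * Real.cos (θ - ζ))) (2 * π) := by
      intro θ
      simp only
      have e1 : θ + 2 * π - ω = (θ - ω) + 2 * π := by ring
      have e2 : θ + 2 * π - ζ = (θ - ζ) + 2 * π := by ring
      rw [e1, e2, Real.cos_add_two_pi, Real.cos_add_two_pi]
    rw [← lonC_shift _ hp ζ]
    have e3 : ∀ θ : ℝ, ((Real.cos (θ + ζ - ω) : ℝ) : ℂ) * lch (R * Real.cos (θ + ζ - ζ)) =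
        ((Real.cos (ζ - ω) : ℝ) : ℂ) * (((Real.cos θ : ℝ) : ℂ) * lch (R * Real.cos θ)) -
        ((Real.sin (ζ - ω) : ℝ) : ℂ) * (((Real.sin θ : ℝ) : ℂ) * lch (R * Real.cos θ)) := by
      intro θ
      have e4 : θ + ζ - ω = θ + (ζ - ω) := by ring
      have e5 : θ + ζ - ζ = θ := by ring
      rw [e4, e5, Real.cos_add]
      push_cast
      ring
    simp_rw [e3]
    have hc : Continuous lch := continuous_lch
    rw [intervalIntegral.integral_sub, intervalIntegral.integral_const_mul,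
      intervalIntegral.integral_const_mul, lonC_odd]
    · unfold lonK
      ring
    · apply Continuous.intervalIntegrable
      fun_prop
    · apply Continuous.intervalIntegrable
      fun_prop
  rw [h1]
  have h2 : (A * Real.cos ω + B * Real.sin ω) = R * Real.cos (ζ - ω) := by
    conv_lhs => rw [hA, hB]
    rw [Real.cos_sub]
    ring
  rw [h2]
  push_cast
  ring

/-- Half angle substitution. -/
lemma lonC_half (G : ℝ → ℂ) (hG : Function.Periodic G (2 * π))
    (hi : ∀ a b, IntervalIntegrable G volume a b) :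
    ∫ φ in (-π)..π, G (2 * φ) = ∫ θ in (-π)..π, G θ := by
  rw [intervalIntegral.integral_comp_mul_left _ (by norm_num : (2:ℝ) ≠ 0)]
  have e1 : (2:ℝ) * -π = -π - π := by ring
  have h1 : ∫ x in (2 * -π)..(2 * π), G x = (∫ x in (2 * -π)..0, G x) + ∫ x in (0:ℝ)..(2 * π), G x :=
    (intervalIntegral.integral_add_adjacent_intervals (hi _ _) (hi _ _)).symm
  have h2 := hG.intervalIntegral_add_eq (2 * -π) (-π)
  have h3 := hG.intervalIntegral_add_eq 0 (-π)
  have e2 : 2 * -π + 2 * π = 0 := by ring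
  have e3 : -π + 2 * π = π := by ring
  have e4 : 0 + 2 * π = 2 * π := by ring
  rw [e2, e3] at h2
  rw [e4, e3] at h3
  rw [h1, h2, h3, ← two_smul ℝ (∫ x in (-π)..π, G x), smul_smul]
  norm_num

lemma lonC_key (a b α : ℝ) (ha : 0 < a) (hb : 0 < b) :
    lonJ (a - b) (2 * √(a * b) * Real.cos α) (π / 2) = ((2 * √(a * b) / (a + b) : ℝ) : ℂ) *
      lonJ (a + b * Real.cos (2 * α)) (b * Real.sin (2 * α)) α := by
  have hab : 0 < a + b := by linarith
  have hs : √(a * b) ^ 2 = a * b := Real.sq_sqrt (by positivity)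
  have hcos : Real.cos (2 * α) = 2 * Real.cos α ^ 2 - 1 := Real.cos_two_mul α
  have hsin : Real.sin (2 * α) = 2 * Real.sin α * Real.cos α := Real.sin_two_mul α
  have hsc : Real.sin α ^ 2 = 1 - Real.cos α ^ 2 := by
    have := Real.sin_sq_add_cos_sq α; linarith
  have hR : (a - b) ^ 2 + (2 * √(a * b) * Real.cos α) ^ 2 =
      (a + b * Real.cos (2 * α)) ^ 2 + (b * Real.sin (2 * α)) ^ 2 := by
    have : (b * Real.sin (2 * α)) ^ 2 = b ^ 2 * (1 - Real.cos (2 * α) ^ 2) := by
      have := Real.sin_sq_add_cos_sq (2 * α)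
      rw [mul_pow]
      congr 1
      linarith
    rw [this, mul_pow, mul_pow, hs, hcos]
    ring
  have h1 := lonC_rot (a - b) (2 * √(a * b) * Real.cos α) (π / 2)
  have h2 := lonC_rot (a + b * Real.cos (2 * α)) (b * Real.sin (2 * α)) α
  rw [← hR] at h2
  set R := √((a - b) ^ 2 + (2 * √(a * b) * Real.cos α) ^ 2) with hRd
  rw [Real.cos_pi_div_two, Real.sin_pi_div_two] at h1
  have e1 : (a + b * Real.cos (2 * α)) * Real.cos α + b * Real.sin (2 * α) * Real.sin α =
      (a + b) * Real.cos α := by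
    rw [hcos, hsin]
    have : b * (2 * Real.sin α * Real.cos α) * Real.sin α =
        b * (2 * Real.cos α) * Real.sin α ^ 2 := by ring
    rw [this, hsc]
    ring
  rw [e1] at h2
  by_cases hR0 : R = 0
  · have h3 : (a - b) ^ 2 + (2 * √(a * b) * Real.cos α) ^ 2 = 0 := by
      have := Real.sqrt_eq_zero (x := (a - b) ^ 2 + (2 * √(a * b) * Real.cos α) ^ 2)
        (by positivity)
      exact this.1 hR0
    have h4 : a - b = 0 := by nlinarith [sq_nonneg (a - b), sq_nonneg (2 * √(a * b) * Real.cos α)]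
    have h5 : 2 * √(a * b) * Real.cos α = 0 := by
      nlinarith [sq_nonneg (a - b), sq_nonneg (2 * √(a * b) * Real.cos α)]
    have h6 : (a + b * Real.cos (2 * α)) ^ 2 + (b * Real.sin (2 * α)) ^ 2 = 0 := by rw [← hR, h3]
    have h7 : a + b * Real.cos (2 * α) = 0 := by
      nlinarith [sq_nonneg (a + b * Real.cos (2 * α)), sq_nonneg (b * Real.sin (2 * α))]
    have h8 : b * Real.sin (2 * α) = 0 := by
      nlinarith [sq_nonneg (a + b * Real.cos (2 * α)), sq_nonneg (b * Real.sin (2 * α))]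
    have hz : ∀ ω : ℝ, lonJ 0 0 ω = 0 := by
      intro ω
      unfold lonJ
      have hc0 : ∀ θ : ℝ, ((Real.cos (θ - ω) : ℝ) : ℂ) * lch (0 * Real.cos θ + 0 * Real.sin θ) =
          ((Real.cos (θ - ω) : ℝ) : ℂ) := by
        intro θ
        have : lch (0 * Real.cos θ + 0 * Real.sin θ) = 1 := by
          unfold lch
          simp
        rw [this, mul_one]
      simp_rw [hc0]
      rw [intervalIntegral.integral_ofReal]
      have : ∫ θ in (-π)..π, Real.cos (θ - ω) = 0 := by
        rw [intervalIntegral.integral_comp_sub_right (fun x => Real.cos x), integral_cos]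
        rw [Real.sin_pi_sub]
        have : -π - ω = -(π + ω) := by ring
        rw [this, Real.sin_neg, add_comm, Real.sin_add_pi]
        ring
      rw [this]
      simp
    rw [h4, h5, h7, h8, hz, hz, mul_zero]
  · have hR' : ((R : ℝ) : ℂ) ≠ 0 := by exact_mod_cast hR0
    have hab' : ((a + b : ℝ) : ℂ) ≠ 0 := by exact_mod_cast hab.ne'
    apply mul_left_cancel₀ hR'
    rw [h1, mul_left_comm, h2]
    push_cast at hab' ⊢
    field_simp
    ring


/-- The kernel of the half circle. -/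
noncomputable def lonH (z u : ℝ) : ℂ :=
  ∫ θ in (0:ℝ)..π, ((Real.sin θ : ℝ) : ℂ) * lch (u * Real.sin θ + z * Real.cos θ)

lemma continuous_lonH (z : ℝ) : Continuous (lonH z) := by
  unfold lonH
  have hc : Continuous lch := continuous_lch
  apply intervalIntegral.continuous_parametric_intervalIntegral_of_continuous'
  fun_prop

lemma lonC_J (z u : ℝ) : lonJ z u (π / 2) = lonH z u - lonH z (-u) := by
  unfold lonJ lonH
  have hc : Continuous lch := continuous_lch
  have hi : ∀ x y, IntervalIntegrable (fun θ : ℝ => ((Real.cos (θ - π / 2) : ℝ) : ℂ) *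
      lch (z * Real.cos θ + u * Real.sin θ)) volume x y := fun x y =>
    Continuous.intervalIntegrable (by fun_prop) _ _
  rw [← intervalIntegral.integral_add_adjacent_intervals (hi (-π) 0) (hi 0 π)]
  have h1 : ∫ θ in (-π)..0, ((Real.cos (θ - π / 2) : ℝ) : ℂ) *
      lch (z * Real.cos θ + u * Real.sin θ) =
      -∫ θ in (0:ℝ)..π, ((Real.sin θ : ℝ) : ℂ) * lch (-u * Real.sin θ + z * Real.cos θ) := by
    have h := intervalIntegral.integral_comp_neg (a := 0) (b := π)
      (fun θ : ℝ => ((Real.cos (θ - π / 2) : ℝ) : ℂ) * lch (z * Real.cos θ + u * Real.sin θ))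
    rw [neg_zero] at h
    rw [← h, ← intervalIntegral.integral_neg]
    refine intervalIntegral.integral_congr fun θ _ => ?_
    beta_reduce
    rw [Real.cos_sub_pi_div_two, Real.cos_neg, Real.sin_neg]
    have : z * Real.cos θ + u * -Real.sin θ = -u * Real.sin θ + z * Real.cos θ := by ring
    rw [this]
    push_cast
    ring
  have h2 : ∫ θ in (0:ℝ)..π, ((Real.cos (θ - π / 2) : ℝ) : ℂ) *
      lch (z * Real.cos θ + u * Real.sin θ) =
      ∫ θ in (0:ℝ)..π, ((Real.sin θ : ℝ) : ℂ) * lch (u * Real.sin θ + z * Real.cos θ) := by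
    refine intervalIntegral.integral_congr fun θ _ => ?_
    beta_reduce
    rw [Real.cos_sub_pi_div_two]
    have : z * Real.cos θ + u * Real.sin θ = u * Real.sin θ + z * Real.cos θ := by ring
    rw [this]
  rw [h1, h2]
  ring

lemma lonC_int {h : ℝ → ℂ} (hm : Measurable h) (hb : ∀ x, ‖h x‖ ≤ 1) {k : ℝ → ℂ}
    (hk : Continuous k) (x y : ℝ) : IntervalIntegrable (fun φ => h φ * k φ) volume x y := by
  have h1 : IntervalIntegrable (fun φ => k φ) volume x y := hk.intervalIntegrable _ _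
  refine h1.mono_fun (hm.mul hk.measurable).aestronglyMeasurable ?_
  refine Filter.Eventually.of_forall fun φ => ?_
  simp only
  rw [norm_mul]
  exact mul_le_of_le_one_left (norm_nonneg _) (hb φ)

lemma lonC_step1 (h : ℝ → ℂ) (hm : Measurable h) (hb : ∀ x, ‖h x‖ ≤ 1)
    (hodd : ∀ x, h (x + π) = -h x) (ρ ψ z : ℝ) :
    2 * sph h ρ ψ z =
      ∫ φ in (-π)..π, h φ * lonJ z (ρ * Real.cos (φ - ψ)) (π / 2) := by
  have hk := continuous_lonH z
  have hsph : sph h ρ ψ z = ∫ φ in (-π)..π, h φ * lonH z (ρ * Real.cos (φ - ψ)) := by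
    unfold sph
    rw [lonC_Ioo]
    refine intervalIntegral.integral_congr fun φ _ => ?_
    beta_reduce
    congr 1
    unfold lonH lch
    rw [intervalIntegral.integral_of_le Real.pi_pos.le, integral_Ioc_eq_integral_Ioo]
    refine setIntegral_congr_fun measurableSet_Ioo fun θ _ => ?_
    beta_reduce
    congr 4
    ring
  have hper : Function.Periodic (fun φ => h φ * lonH z (ρ * Real.cos (φ - ψ))) (2 * π) := by
    intro φ
    simp only
    have e1 : φ + 2 * π - ψ = (φ - ψ) + 2 * π := by ring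
    have e2 : φ + 2 * π = (φ + π) + π := by ring
    rw [e1, Real.cos_add_two_pi, e2, hodd, hodd, neg_neg]
  have h2 := lonC_shift _ hper π
  have e3 : ∀ φ : ℝ, h (φ + π) * lonH z (ρ * Real.cos (φ + π - ψ)) =
      -(h φ * lonH z (-(ρ * Real.cos (φ - ψ)))) := by
    intro φ
    have e1 : φ + π - ψ = (φ - ψ) + π := by ring
    rw [hodd, e1, Real.cos_add_pi]
    ring_nf
  simp_rw [e3] at h2
  rw [intervalIntegral.integral_neg] at h2
  simp_rw [lonC_J, mul_sub]
  rw [intervalIntegral.integral_sub (lonC_int hm hb (by fun_prop) _ _)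
    (lonC_int hm hb (by fun_prop) _ _)]
  rw [hsph]
  linear_combination -h2


lemma measurable_tw (s : ℝ) {h : ℝ → ℂ} (hm : Measurable h) : Measurable (tw s h) := by
  unfold tw
  fun_prop

lemma norm_tw_le (s : ℝ) {h : ℝ → ℂ} (hb : ∀ x, ‖h x‖ ≤ 1) (t : ℝ) : ‖tw s h t‖ ≤ 1 := by
  unfold tw
  rw [norm_mul, Complex.norm_exp_ofReal_mul_I, one_mul]
  exact hb _

lemma tw_periodic (s : ℝ) (hs : s = 1 ∨ s = -1) {h : ℝ → ℂ} (hodd : ∀ x, h (x + π) = -h x) :
    Function.Periodic (tw s h) (2 * π) := by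
  intro t
  unfold tw
  have e1 : (t + 2 * π) / 2 = t / 2 + π := by ring
  rw [e1, hodd]
  have e2 : (((s * (t + 2 * π) / 2 : ℝ) : ℂ) * Complex.I) =
      ((s * t / 2 : ℝ) : ℂ) * Complex.I + ((s * π : ℝ) : ℂ) * Complex.I := by
    push_cast
    ring
  rw [e2, Complex.exp_add]
  have e3 : Complex.exp (((s * π : ℝ) : ℂ) * Complex.I) = -1 := by
    rcases hs with rfl | rfl
    · rw [one_mul, Complex.exp_pi_mul_I]
    · push_cast
      rw [neg_one_mul, neg_mul, Complex.exp_neg, Complex.exp_pi_mul_I]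
      norm_num
  rw [e3]
  ring

lemma Q_eq (f : ℝ → ℂ) (a τ : ℝ) : Q f a τ = ∫ θ in (-π)..π, f θ * lch (a * Real.cos (θ - τ)) := by
  unfold Q lch
  rw [lonC_Ioo]

lemma Q_periodic (f : ℝ → ℂ) (a : ℝ) : Function.Periodic (Q f a) (2 * π) := by
  intro τ
  rw [Q_eq, Q_eq]
  refine intervalIntegral.integral_congr fun θ _ => ?_
  beta_reduce
  have : θ - (τ + 2 * π) = (θ - τ) - 2 * π := by ring
  rw [this, Real.cos_sub_two_pi]

/-- The double integral. -/
noncomputable def lonD (s : ℝ) (h : ℝ → ℂ) (a b ψ : ℝ) : ℂ :=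
  ∫ φ in (-π)..π, ∫ β in (-π)..π, h φ *
    (Complex.exp (((-(s * (β - (φ - ψ))) : ℝ) : ℂ) * Complex.I) *
      lch (a * Real.cos β + b * Real.cos (2 * (φ - ψ) - β)))

lemma lch_add (s t : ℝ) : lch (s + t) = lch s * lch t := by
  unfold lch
  rw [← Complex.exp_add]
  congr 1
  push_cast
  ring

lemma lonC_inner (s : ℝ) (hs : s = 1 ∨ s = -1) (h : ℝ → ℂ) (hm : Measurable h)
    (hb : ∀ x, ‖h x‖ ≤ 1) (hodd : ∀ x, h (x + π) = -h x) (b ψ β : ℝ) :
    ∫ φ in (-π)..π, Complex.exp (((s * φ : ℝ) : ℂ) * Complex.I) * h φ *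
      lch (b * Real.cos (2 * (φ - ψ) - β)) = Q (tw s h) b (2 * ψ + β) := by
  have hc : Continuous lch := continuous_lch
  rw [Q_eq]
  have hG : Function.Periodic (fun θ => tw s h θ * lch (b * Real.cos (θ - (2 * ψ + β))))
      (2 * π) := by
    intro θ
    have h1 := tw_periodic s hs hodd θ
    have h2 : θ + 2 * π - (2 * ψ + β) = (θ - (2 * ψ + β)) + 2 * π := by ring
    simp only
    rw [h1, h2, Real.cos_add_two_pi]
  rw [← lonC_half _ hG (fun x y => lonC_int (measurable_tw s hm) (norm_tw_le s hb)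
    (k := fun θ => lch (b * Real.cos (θ - (2 * ψ + β)))) (by fun_prop) x y)]
  refine intervalIntegral.integral_congr fun φ _ => ?_
  beta_reduce
  unfold tw
  have e1 : s * (2 * φ) / 2 = s * φ := by ring
  have e2 : 2 * φ / 2 = φ := by ring
  have e3 : 2 * (φ - ψ) - β = 2 * φ - (2 * ψ + β) := by ring
  rw [e1, e2, e3]

lemma lonC_D (s : ℝ) (hs : s = 1 ∨ s = -1) (h : ℝ → ℂ) (hm : Measurable h)
    (hb : ∀ x, ‖h x‖ ≤ 1) (hodd : ∀ x, h (x + π) = -h x) (a b ψ : ℝ) :
    lonD s h a b ψ = Complex.exp (((s * ψ : ℝ) : ℂ) * Complex.I) *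
      Q (fun t => Complex.exp (((-(s * t) : ℝ) : ℂ) * Complex.I) * Q (tw s h) b t) a (2 * ψ) := by
  have hc : Continuous lch := continuous_lch
  have hpi := Real.pi_pos
  unfold lonD
  have hint : IntegrableOn (Function.uncurry fun φ β : ℝ => h φ *
      (Complex.exp (((-(s * (β - (φ - ψ))) : ℝ) : ℂ) * Complex.I) *
      lch (a * Real.cos β + b * Real.cos (2 * (φ - ψ) - β))))
      (uIoc (-π) π ×ˢ uIoc (-π) π) := by
    refine Measure.integrableOn_of_bounded (M := 1) ?_ ?_ ?_
    · rw [Measure.volume_eq_prod, Measure.prod_prod, uIoc_of_le (by linarith), Real.volume_Ioc]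
      exact ENNReal.mul_ne_top ENNReal.ofReal_ne_top ENNReal.ofReal_ne_top
    · apply Measurable.aestronglyMeasurable
      unfold Function.uncurry
      fun_prop
    · refine Filter.Eventually.of_forall fun q => ?_
      simp only [Function.uncurry]
      rw [norm_mul, norm_mul, norm_lch, mul_one, Complex.norm_exp_ofReal_mul_I, mul_one]
      exact hb _
  rw [intervalIntegral_intervalIntegral_swap hint]
  rw [Q_eq]
  have hper : Function.Periodic (fun θ : ℝ => (Complex.exp (((-(s * θ) : ℝ) : ℂ) * Complex.I) *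
      Q (tw s h) b θ) * lch (a * Real.cos (θ - 2 * ψ))) (2 * π) := by
    intro θ
    simp only
    have e1 : θ + 2 * π - 2 * ψ = (θ - 2 * ψ) + 2 * π := by ring
    rw [e1, Real.cos_add_two_pi, Q_periodic (tw s h) b θ]
    congr 2
    have e2 : (((-(s * (θ + 2 * π)) : ℝ) : ℂ) * Complex.I) =
      ((-(s * θ) : ℝ) : ℂ) * Complex.I + (-s : ℝ) * (2 * π * Complex.I) := by
      push_cast
      ring
    rw [e2, Complex.exp_add]
    have e3 : Complex.exp ((-s : ℝ) * (2 * π * Complex.I)) = 1 := by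
      rcases hs with rfl | rfl
      · push_cast
        rw [neg_one_mul, Complex.exp_neg, Complex.exp_two_pi_mul_I]
        norm_num
      · push_cast
        rw [neg_neg, one_mul, Complex.exp_two_pi_mul_I]
    rw [e3, mul_one]
  rw [← lonC_shift _ hper (2 * ψ), ← intervalIntegral.integral_const_mul]
  refine intervalIntegral.integral_congr fun β _ => ?_
  beta_reduce
  rw [show β + 2 * ψ = 2 * ψ + β by ring, ← lonC_inner s hs h hm hb hodd b ψ β]
  have e1 : 2 * ψ + β - 2 * ψ = β := by ring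
  rw [e1]
  have e2 : ∀ x : ℝ, h x * (Complex.exp (((-(s * (β - (x - ψ))) : ℝ) : ℂ) * Complex.I) *
      lch (a * Real.cos β + b * Real.cos (2 * (x - ψ) - β))) =
      (Complex.exp (((-(s * (β + ψ)) : ℝ) : ℂ) * Complex.I) * lch (a * Real.cos β)) *
      (Complex.exp (((s * x : ℝ) : ℂ) * Complex.I) * h x *
      lch (b * Real.cos (2 * (x - ψ) - β))) := by
    intro x
    have e3 : (((-(s * (β - (x - ψ))) : ℝ) : ℂ) * Complex.I) =
        ((-(s * (β + ψ)) : ℝ) : ℂ) * Complex.I + ((s * x : ℝ) : ℂ) * Complex.I := by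
      push_cast
      ring
    rw [e3, Complex.exp_add, lch_add]
    ring
  simp_rw [e2]
  rw [intervalIntegral.integral_const_mul]
  have e4 : Complex.exp (((-(s * (β + ψ)) : ℝ) : ℂ) * Complex.I) =
      Complex.exp (((s * ψ : ℝ) : ℂ) * Complex.I) *
      Complex.exp (((-(s * (2 * ψ + β)) : ℝ) : ℂ) * Complex.I) := by
    rw [← Complex.exp_add]
    congr 1
    push_cast
    ring
  rw [e4]
  ring

theorem sph_eq (h : ℝ → ℂ) (hm : Measurable h) (hb : ∀ x, ‖h x‖ ≤ 1)
    (hodd : ∀ x, h (x + π) = -h x) (a b ψ : ℝ) (ha : 0 < a) (hb' : 0 < b) :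
    sph h (2 * √(a * b)) ψ (a - b) = ((√(a * b) / (2 * (a + b)) : ℝ) : ℂ) *
      (Complex.exp ((ψ : ℂ) * Complex.I) *
          Q (fun t => Complex.exp (((-t : ℝ) : ℂ) * Complex.I) * Q (tw 1 h) b t) a (2 * ψ) +
        Complex.exp (((-ψ : ℝ) : ℂ) * Complex.I) *
          Q (fun t => Complex.exp ((t : ℂ) * Complex.I) * Q (tw (-1) h) b t) a (2 * ψ)) := by
  have hc : Continuous lch := continuous_lch
  have h1 := lonC_step1 h hm hb hodd (2 * √(a * b)) ψ (a - b)
  have h2 := lonC_D 1 (Or.inl rfl) h hm hb hodd a b ψ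
  have h3 := lonC_D (-1) (Or.inr rfl) h hm hb hodd a b ψ
  have e1 : (fun t : ℝ => Complex.exp (((-(1 * t) : ℝ) : ℂ) * Complex.I) * Q (tw 1 h) b t) =
      fun t : ℝ => Complex.exp (((-t : ℝ) : ℂ) * Complex.I) * Q (tw 1 h) b t := by
    funext t
    rw [one_mul]
  have e2 : (fun t : ℝ => Complex.exp (((-(-1 * t) : ℝ) : ℂ) * Complex.I) * Q (tw (-1) h) b t) =
      fun t : ℝ => Complex.exp ((t : ℂ) * Complex.I) * Q (tw (-1) h) b t := by
    funext t
    have : -(-1 * t) = t := by ring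
    rw [this]
  have e3 : ((-1 * ψ : ℝ) : ℂ) = ((-ψ : ℝ) : ℂ) := by
    congr 1
    ring
  rw [e1, one_mul] at h2
  rw [e2, e3] at h3
  rw [← h2, ← h3]
  have hab : ((a + b : ℝ) : ℂ) ≠ 0 := by
    have : a + b ≠ 0 := by positivity
    exact_mod_cast this
  have h4 : ∫ φ in (-π)..π, h φ * lonJ (a - b) (2 * √(a * b) * Real.cos (φ - ψ)) (π / 2) =
      ((√(a * b) / (a + b) : ℝ) : ℂ) * (lonD 1 h a b ψ + lonD (-1) h a b ψ) := by
    unfold lonD
    have hI : ∀ s : ℝ, IntervalIntegrable (fun φ => ∫ β in (-π)..π, h φ *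
        (Complex.exp (((-(s * (β - (φ - ψ))) : ℝ) : ℂ) * Complex.I) *
        lch (a * Real.cos β + b * Real.cos (2 * (φ - ψ) - β)))) volume (-π) π := by
      intro s
      have e : (fun φ => ∫ β in (-π)..π, h φ *
        (Complex.exp (((-(s * (β - (φ - ψ))) : ℝ) : ℂ) * Complex.I) *
        lch (a * Real.cos β + b * Real.cos (2 * (φ - ψ) - β)))) = fun φ => h φ * ∫ β in (-π)..π,
        (Complex.exp (((-(s * (β - (φ - ψ))) : ℝ) : ℂ) * Complex.I) *
        lch (a * Real.cos β + b * Real.cos (2 * (φ - ψ) - β))) := by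
        funext φ
        rw [intervalIntegral.integral_const_mul]
      rw [e]
      refine lonC_int hm hb ?_ _ _
      apply intervalIntegral.continuous_parametric_intervalIntegral_of_continuous'
      fun_prop
    rw [← intervalIntegral.integral_add (hI 1) (hI (-1)), ← intervalIntegral.integral_const_mul]
    refine intervalIntegral.integral_congr fun φ _ => ?_
    beta_reduce
    have hJ : ∀ s : ℝ, IntervalIntegrable (fun β => h φ *
        (Complex.exp (((-(s * (β - (φ - ψ))) : ℝ) : ℂ) * Complex.I) *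
        lch (a * Real.cos β + b * Real.cos (2 * (φ - ψ) - β)))) volume (-π) π := fun s =>
      Continuous.intervalIntegrable (by fun_prop) _ _
    rw [← intervalIntegral.integral_add (hJ 1) (hJ (-1)), lonC_key a b _ ha hb']
    unfold lonJ
    rw [mul_left_comm, ← intervalIntegral.integral_const_mul, ← intervalIntegral.integral_const_mul,
      ← intervalIntegral.integral_const_mul]
    refine intervalIntegral.integral_congr fun β _ => ?_
    beta_reduce
    have e5 : (a + b * Real.cos (2 * (φ - ψ))) * Real.cos β + b * Real.sin (2 * (φ - ψ)) * Real.sin β =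
        a * Real.cos β + b * Real.cos (2 * (φ - ψ) - β) := by
      rw [Real.cos_sub (2 * (φ - ψ)) β]
      ring
    rw [e5]
    have e6 : ((Real.cos (β - (φ - ψ)) : ℝ) : ℂ) =
        (Complex.exp (((-(1 * (β - (φ - ψ))) : ℝ) : ℂ) * Complex.I) +
          Complex.exp (((-(-1 * (β - (φ - ψ))) : ℝ) : ℂ) * Complex.I)) / 2 := by
      rw [Complex.ofReal_cos, Complex.cos]
      congr 1
      rw [add_comm]
      congr 2 <;> · push_cast; ring
    rw [e6]
    push_cast
    ring
  have h5 : 2 * sph h (2 * √(a * b)) ψ (a - b) =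
      ((√(a * b) / (a + b) : ℝ) : ℂ) * (lonD 1 h a b ψ + lonD (-1) h a b ψ) := h1.trans h4
  have h6 : sph h (2 * √(a * b)) ψ (a - b) =
      (((√(a * b) / (a + b) : ℝ) : ℂ) * (lonD 1 h a b ψ + lonD (-1) h a b ψ)) / 2 := by
    rw [← h5]
    ring
  rw [h6]
  push_cast
  push_cast at hab
  field_simp

end Pool.Agent.MP_6cbfb8_an
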