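import Pool.Agent.MP_6cbfb8_an.Aux0

/-!
Definitions for densities on the sphere of `R^3` which depend on the longitude.
-/

namespace Pool.Agent.MP_6cbfb8_an

open MeasureTheory Set
open scoped ENNReal Real

/-- The function on `R^3` whose value at `x` is `h` of the longitude of `x`, the polar angle
in `(-π, π]` of `(x_1, x_2)`. -/
noncomputable def lon (h : ℝ → ℂ) (x : E 3) : ℂ := h (Complex.arg ⟨x 0, x 1⟩)

/-- The indicator function of the half space of all `x` with `⟨x, v⟩ > c`. -/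
noncomputable def hs (c : ℝ) (v x : E 3) : ℂ := if c < inner ℝ x v then 1 else 0

/-- The extension operator of the unit circle, in polar coordinates. -/
noncomputable def Q (f : ℝ → ℂ) (a τ : ℝ) : ℂ :=
  ∫ θ in Ioo (-π) π, f θ *
    Complex.exp (((-(2 * π * (a * Real.cos (θ - τ))) : ℝ) : ℂ) * Complex.I)

/-- The point of `R^3` with cylindrical coordinates `ρ`, `ψ`, `z`. -/
noncomputable def cylpt (ρ ψ z : ℝ) : E 3 := !₂[ρ * Real.cos ψ, ρ * Real.sin ψ, z]

/-- The Fourier transform of the density `h` (longitude), in cylindrical coordinates. -/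
noncomputable def sph (h : ℝ → ℂ) (ρ ψ z : ℝ) : ℂ :=
  ∫ φ in Ioo (-π) π, h φ * ∫ θ in Ioo 0 π, ((Real.sin θ : ℝ) : ℂ) *
    Complex.exp (((-(2 * π * (ρ * Real.sin θ * Real.cos (φ - ψ) + z * Real.cos θ)) : ℝ) : ℂ)
      * Complex.I)

/-- Half angle twist. -/
noncomputable def tw (s : ℝ) (h : ℝ → ℂ) (t : ℝ) : ℂ :=
  Complex.exp (((s * t / 2 : ℝ) : ℂ) * Complex.I) * h (t / 2)

end Pool.Agent.MP_6cbfb8_an
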