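import Pool.Agent.MP_6cbfb8_an.Sphere
import Pool.Agent.MP_6cbfb8_an.LonDefs

/-!
Change of variables to parabolic coordinates in `R^3`.
-/

namespace Pool.Agent.MP_6cbfb8_an

open MeasureTheory Set
open scoped ENNReal Real

/-- polar coordinates in the plane -/
lemma lonE_polar2 (g : ℝ × ℝ → ℝ≥0∞) (hg : Measurable g) :
    ∫⁻ y : E 2, g (y 0, y 1) = ∫⁻ ρ in Ioi (0:ℝ), ∫⁻ ψ in Ioo (-π) π,
      ENNReal.ofReal ρ * g (ρ * Real.cos ψ, ρ * Real.sin ψ) := by
  have h3 := PiLp.volume_preserving_toLp (Fin 2)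
  have h4 := volume_preserving_finTwoArrow ℝ
  have m0 : Measurable fun y : E 2 => g (y 0, y 1) := by
    have : Continuous fun y : E 2 => ((y 0, y 1) : ℝ × ℝ) := by fun_prop
    exact hg.comp this.measurable
  rw [← h3.lintegral_comp m0]
  have e1 : ∫⁻ f : Fin 2 → ℝ, g ((WithLp.toLp 2 f : E 2) 0, (WithLp.toLp 2 f : E 2) 1) =
      ∫⁻ f : Fin 2 → ℝ, g (MeasurableEquiv.finTwoArrow f) := rfl
  rw [e1, h4.lintegral_comp hg, ← lintegral_comp_polarCoord_symm]
  have m1 : Measurable fun p : ℝ × ℝ => ENNReal.ofReal p.1 * g (p.1 * Real.cos p.2,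
      p.1 * Real.sin p.2) := by
    have h5 : Continuous fun p : ℝ × ℝ => ((p.1 * Real.cos p.2, p.1 * Real.sin p.2) : ℝ × ℝ) := by
      fun_prop
    exact (ENNReal.measurable_ofReal.comp measurable_fst).mul (hg.comp h5.measurable)
  have e2 : polarCoord.target = Ioi (0:ℝ) ×ˢ Ioo (-π) π := rfl
  rw [e2, Measure.volume_eq_prod, ← Measure.prod_restrict]
  have e3 : ∀ p : ℝ × ℝ, ENNReal.ofReal p.1 • g (polarCoord.symm p) =
      ENNReal.ofReal p.1 * g (p.1 * Real.cos p.2, p.1 * Real.sin p.2) := fun p => rfl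
  simp only [e3]
  rw [lintegral_prod _ m1.aemeasurable]

/-- even functions on the line -/
lemma lonE_even (k : ℝ → ℝ≥0∞) (hk : ∀ z, k (-z) = k z) :
    ∫⁻ z, k z = 2 * ∫⁻ z in Ioi (0:ℝ), k z := by
  have h1 : ∫⁻ z in Iio (0:ℝ), k z = ∫⁻ z in Ioi (0:ℝ), k z := by
    have h2 : MeasurePreserving (fun z : ℝ => -z) volume volume :=
      Measure.measurePreserving_neg (volume : Measure ℝ)
    have h3 := h2.setLIntegral_comp_preimage_emb (MeasurableEquiv.neg ℝ).measurableEmbedding k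
      (Ioi (0:ℝ))
    rw [← h3]
    have e : (fun z : ℝ => -z) ⁻¹' (Ioi (0:ℝ)) = Iio 0 := by
      ext z; simp
    rw [e]
    exact setLIntegral_congr_fun measurableSet_Iio (fun z _ => (hk z).symm)
  have h4 := lintegral_add_compl k (measurableSet_Iio (a := (0:ℝ))) (μ := volume)
  rw [← h4]
  have e2 : (Iio (0:ℝ))ᶜ = Ici 0 := by ext z; simp
  rw [e2, setLIntegral_congr (Ioi_ae_eq_Ici (a := (0:ℝ))).symm, h1, two_mul]

/-- substitution in the radial variable -/
lemma lonE_subst (z : ℝ) (hz : 0 < z) (k : ℝ → ℝ≥0∞) :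
    ∫⁻ ρ in Ioi (0:ℝ), ENNReal.ofReal ρ * k ρ =
      ∫⁻ b in Ioi (0:ℝ), ENNReal.ofReal (2 * (2 * b + z)) * k (2 * √(b * (b + z))) := by
  have himg : (fun b : ℝ => 2 * √(b * (b + z))) '' Ioi 0 = Ioi 0 := by
    apply Subset.antisymm
    · rintro _ ⟨b, hb, rfl⟩
      have hb : 0 < b := hb
      show 0 < 2 * √(b * (b + z))
      positivity
    · intro ρ hρ
      have hρ : 0 < ρ := hρ
      refine ⟨(√(z ^ 2 + ρ ^ 2) - z) / 2, ?_, ?_⟩
      · show 0 < (√(z ^ 2 + ρ ^ 2) - z) / 2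
        have : z < √(z ^ 2 + ρ ^ 2) := Real.lt_sqrt_of_sq_lt (by nlinarith)
        linarith
      · show 2 * √((√(z ^ 2 + ρ ^ 2) - z) / 2 * ((√(z ^ 2 + ρ ^ 2) - z) / 2 + z)) = ρ
        have h1 : √(z ^ 2 + ρ ^ 2) ^ 2 = z ^ 2 + ρ ^ 2 := Real.sq_sqrt (by positivity)
        have h2 : (√(z ^ 2 + ρ ^ 2) - z) / 2 * ((√(z ^ 2 + ρ ^ 2) - z) / 2 + z) = (ρ / 2) ^ 2 := by
          nlinarith
        rw [h2, Real.sqrt_sq (by positivity)]
        ring
  have hinj : InjOn (fun b : ℝ => 2 * √(b * (b + z))) (Ioi 0) := by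
    intro b hb c hc h
    have hb : 0 < b := hb
    have hc : 0 < c := hc
    simp only at h
    have h1 : √(b * (b + z)) = √(c * (c + z)) := by linarith
    rw [Real.sqrt_inj (by positivity) (by positivity)] at h1
    have h2 : (b - c) * (b + c + z) = 0 := by ring_nf; ring_nf at h1; linarith
    rcases mul_eq_zero.1 h2 with h3 | h3
    · linarith
    · exfalso; linarith
  have hder : ∀ b ∈ Ioi (0:ℝ), HasDerivWithinAt (fun b : ℝ => 2 * √(b * (b + z)))
      ((2 * b + z) / √(b * (b + z))) (Ioi 0) b := by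
    intro b hb
    have hb : 0 < b := hb
    have hpos : 0 < b * (b + z) := by positivity
    have h1 : HasDerivAt (fun b : ℝ => b * (b + z)) (1 * (b + z) + b * 1) b :=
      (hasDerivAt_id b).mul ((hasDerivAt_id b).add_const z)
    have h2 := (h1.sqrt hpos.ne').const_mul 2
    refine (h2.congr_deriv ?_).hasDerivWithinAt
    have h3 : √(b * (b + z)) ≠ 0 := (Real.sqrt_pos.2 hpos).ne'
    field_simp
    ring
  have h := lintegral_image_eq_lintegral_abs_deriv_mul measurableSet_Ioi hder hinj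
    (fun ρ => ENNReal.ofReal ρ * k ρ)
  rw [himg] at h
  rw [h]
  refine setLIntegral_congr_fun measurableSet_Ioi (fun b hb => ?_)
  have hb : 0 < b := hb
  have hpos : 0 < b * (b + z) := by positivity
  have hs : 0 < √(b * (b + z)) := Real.sqrt_pos.2 hpos
  rw [← mul_assoc, ← ENNReal.ofReal_mul (abs_nonneg _)]
  congr 2
  rw [abs_of_pos (by positivity)]
  field_simp

/-- translation -/
lemma lonE_shift (b : ℝ) (k : ℝ → ℝ≥0∞) :
    ∫⁻ z in Ioi (0:ℝ), k z = ∫⁻ a in Ioi b, k (a - b) := by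
  have h2 : MeasurePreserving (fun a : ℝ => a - b) volume volume :=
    measurePreserving_sub_right volume b
  have h3 := h2.setLIntegral_comp_preimage_emb (MeasurableEquiv.subRight b).measurableEmbedding k
      (Ioi (0:ℝ))
  rw [← h3]
  have e : (fun a : ℝ => a - b) ⁻¹' (Ioi (0:ℝ)) = Ioi b := by
    ext z; simp
  rw [e]

theorem lintegral_parab (F : E 3 → ℝ≥0∞) (hF : Measurable F)
    (hev : ∀ ρ ψ z, F (cylpt ρ ψ (-z)) = F (cylpt ρ ψ z)) :
    ∫⁻ x, F x = ∫⁻ b in Ioi (0:ℝ), ∫⁻ a in Ioi b, ∫⁻ ψ in Ioo (-π) π,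
      ENNReal.ofReal (4 * (a + b)) * F (cylpt (2 * √(a * b)) ψ (a - b)) := by
  -- measurability facts
  have c0 : Continuous fun q : (ℝ × ℝ) × ℝ => (!₂[q.1.1, q.1.2, q.2] : E 3) := by
    apply (PiLp.continuous_toLp 2 _).comp
    refine continuous_pi fun i => ?_
    fin_cases i <;> simp <;> fun_prop
  have m0 : Measurable fun q : (ℝ × ℝ) × ℝ => F (!₂[q.1.1, q.1.2, q.2]) := hF.comp c0.measurable
  have c1 : Continuous fun q : (ℝ × ℝ) × ℝ => cylpt q.1.1 q.2 q.1.2 := by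
    unfold cylpt
    apply (PiLp.continuous_toLp 2 _).comp
    refine continuous_pi fun i => ?_
    fin_cases i <;> simp <;> fun_prop
  have m1 : Measurable fun q : (ℝ × ℝ) × ℝ => F (cylpt q.1.1 q.2 q.1.2) := hF.comp c1.measurable
  have mK : Measurable fun q : ℝ × ℝ => ∫⁻ ψ in Ioo (-π) π, F (cylpt q.1 ψ q.2) :=
    m1.lintegral_prod_right'
  set K : ℝ → ℝ → ℝ≥0∞ := fun ρ z => ∫⁻ ψ in Ioo (-π) π, F (cylpt ρ ψ z) with hK
  have mK2 : Measurable (Function.uncurry K) := mK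
  -- step 1
  have s1 : ∫⁻ x, F x = ∫⁻ y : E 2, ∫⁻ z : ℝ, F (!₂[y 0, y 1, z]) := by
    rw [lintegral_join 2 F hF]
    refine lintegral_congr fun y => lintegral_congr fun z => ?_
    congr 1
    unfold join
    congr 1
    ext i
    fin_cases i <;> simp [Fin.snoc]
  have s2 : ∫⁻ y : E 2, ∫⁻ z : ℝ, F (!₂[y 0, y 1, z]) =
      ∫⁻ ρ in Ioi (0:ℝ), ∫⁻ ψ in Ioo (-π) π, ENNReal.ofReal ρ * ∫⁻ z : ℝ, F (cylpt ρ ψ z) := by
    have := lonE_polar2 (fun q => ∫⁻ z : ℝ, F (!₂[q.1, q.2, z])) m0.lintegral_prod_right'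
    exact this
  have s3 : ∀ ρ : ℝ, ∫⁻ ψ in Ioo (-π) π, ENNReal.ofReal ρ * ∫⁻ z : ℝ, F (cylpt ρ ψ z) =
      2 * ∫⁻ z in Ioi (0:ℝ), ENNReal.ofReal ρ * K ρ z := by
    intro ρ
    have c2 : Continuous fun q : ℝ × ℝ => cylpt ρ q.1 q.2 := by
      unfold cylpt
      apply (PiLp.continuous_toLp 2 _).comp
      refine continuous_pi fun i => ?_
      fin_cases i <;> simp <;> fun_prop
    have m2 : Measurable fun q : ℝ × ℝ => F (cylpt ρ q.1 q.2) := hF.comp c2.measurable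
    rw [lintegral_const_mul _ m2.lintegral_prod_right']
    rw [lintegral_lintegral_swap m2.aemeasurable]
    rw [lonE_even (fun z => ∫⁻ ψ in Ioo (-π) π, F (cylpt ρ ψ z))
      (fun z => lintegral_congr fun ψ => hev ρ ψ z)]
    rw [lintegral_const_mul]
    · ring
    · exact mK2.comp (measurable_const.prodMk measurable_id)
  rw [s1, s2]
  simp only [s3]
  have m3 : Measurable fun q : ℝ × ℝ => ENNReal.ofReal q.1 * K q.1 q.2 :=
    (ENNReal.measurable_ofReal.comp measurable_fst).mul mK2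
  rw [lintegral_const_mul _ m3.lintegral_prod_right']
  rw [lintegral_lintegral_swap m3.aemeasurable]
  have s4 : ∀ z ∈ Ioi (0:ℝ), ∫⁻ ρ in Ioi (0:ℝ), ENNReal.ofReal ρ * K ρ z =
      ∫⁻ b in Ioi (0:ℝ), ENNReal.ofReal (2 * (2 * b + z)) * K (2 * √(b * (b + z))) z := by
    intro z hz
    exact lonE_subst z hz (fun ρ => K ρ z)
  rw [setLIntegral_congr_fun measurableSet_Ioi s4]
  have c4 : Continuous fun q : ℝ × ℝ => ((2 * √(q.2 * (q.2 + q.1)), q.1) : ℝ × ℝ) := by fun_prop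
  have m4 : Measurable fun q : ℝ × ℝ => ENNReal.ofReal (2 * (2 * q.2 + q.1)) *
      K (2 * √(q.2 * (q.2 + q.1))) q.1 := by
    refine Measurable.mul ?_ (mK2.comp c4.measurable)
    fun_prop
  rw [lintegral_lintegral_swap m4.aemeasurable]
  rw [← lintegral_const_mul _ (by
    have c5 : Continuous fun q : ℝ × ℝ => ((2 * √(q.1 * (q.1 + q.2)), q.2) : ℝ × ℝ) := by fun_prop
    have m5 : Measurable fun q : ℝ × ℝ => ENNReal.ofReal (2 * (2 * q.1 + q.2)) *
        K (2 * √(q.1 * (q.1 + q.2))) q.2 := by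
      refine Measurable.mul ?_ (mK2.comp c5.measurable)
      fun_prop
    exact m5.lintegral_prod_right')]
  refine setLIntegral_congr_fun measurableSet_Ioi fun b hb => ?_
  have hb : 0 < b := hb
  rw [lonE_shift b]
  have m6 : Measurable fun a : ℝ => ENNReal.ofReal (2 * (2 * b + (a - b))) *
      K (2 * √(b * (b + (a - b)))) (a - b) := by
    have c6 : Continuous fun a : ℝ => ((2 * √(b * (b + (a - b))), a - b) : ℝ × ℝ) := by fun_prop
    refine Measurable.mul ?_ (mK2.comp c6.measurable)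
    fun_prop
  rw [← lintegral_const_mul _ m6]
  refine lintegral_congr fun a => ?_
  have e1 : b * (b + (a - b)) = a * b := by ring
  have e2 : 2 * (2 * b + (a - b)) = 2 * (a + b) := by ring
  rw [e1, e2, hK]
  simp only
  have m7 : Measurable fun ψ : ℝ => F (cylpt (2 * √(a * b)) ψ (a - b)) := by
    have c7 : Continuous fun ψ : ℝ => cylpt (2 * √(a * b)) ψ (a - b) := by
      unfold cylpt
      apply (PiLp.continuous_toLp 2 _).comp
      refine continuous_pi fun i => ?_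
      fin_cases i <;> simp <;> fun_prop
    exact hF.comp c7.measurable
  rw [lintegral_const_mul _ m7, ← mul_assoc]
  congr 1
  have : (2 : ℝ≥0∞) = ENNReal.ofReal 2 := by simp
  rw [this, ← ENNReal.ofReal_mul (by norm_num)]
  congr 1
  ring

end Pool.Agent.MP_6cbfb8_an
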