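import Pool.Agent.MP_6cbfb8_an.ExtnCyl
import Pool.Agent.MP_6cbfb8_an.LonDefs

/-!
The Fourier transform of a density which depends on the longitude, in spherical coordinates.
-/

namespace Pool.Agent.MP_6cbfb8_an

open MeasureTheory Set
open scoped ENNReal Real RealInnerProductSpace

/-- the point of the unit circle with polar angle `φ` -/
noncomputable def lonF_c (φ : ℝ) : E 2 := !₂[Real.cos φ, Real.sin φ]

lemma lonF_c_zero (φ : ℝ) : lonF_c φ 0 = Real.cos φ := by simp [lonF_c]

lemma lonF_c_one (φ : ℝ) : lonF_c φ 1 = Real.sin φ := by simp [lonF_c]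

lemma lonF_mem (φ : ℝ) : lonF_c φ ∈ S 2 := by
  rw [mem_sphere_zero_iff_norm, EuclideanSpace.norm_eq]
  simp [Fin.sum_univ_two, lonF_c_zero, lonF_c_one, Real.cos_sq_add_sin_sq]

lemma lonF_continuous : Continuous lonF_c := by
  unfold lonF_c
  refine (PiLp.continuous_toLp 2 _).comp ?_
  refine continuous_pi fun i => ?_
  fin_cases i
  · simpa using Real.continuous_cos
  · simpa using Real.continuous_sin

lemma lonF_continuous' : Continuous (fun φ : ℝ => (⟨lonF_c φ, lonF_mem φ⟩ : S 2)) :=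
  Continuous.subtype_mk lonF_continuous _

/-- integration on the plane in polar coordinates -/
lemma lonF_polar (f : E 2 → ℝ≥0∞) (hf : Measurable f) :
    ∫⁻ x, f x = ∫⁻ p in polarCoord.target, ENNReal.ofReal p.1 * f (p.1 • lonF_c p.2) := by
  have h1 := PiLp.volume_preserving_toLp (Fin 2)
  have h2 := (volume_preserving_finTwoArrow ℝ).symm
  rw [← h1.lintegral_comp hf]
  have m2 : Measurable fun g : Fin 2 → ℝ => f (WithLp.toLp 2 g) := hf.comp h1.measurable
  rw [← h2.lintegral_comp m2, ← lintegral_comp_polarCoord_symm]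
  refine setLIntegral_congr_fun polarCoord.open_target.measurableSet fun p hp => ?_
  simp only [smul_eq_mul]
  congr 2
  ext i
  fin_cases i
  · simp [lonF_c_zero, polarCoord_symm_apply]
  · simp [lonF_c_one, polarCoord_symm_apply]

theorem lonF_circle :
    MeasurePreserving (fun φ : ℝ => (⟨lonF_c φ, lonF_mem φ⟩ : S 2))
      ((volume : Measure ℝ).restrict (Ioo (-π) π)) (sm 2) := by
  refine ⟨lonF_continuous'.measurable, ?_⟩
  refine Measure.ext fun A hA => ?_
  rw [Measure.map_apply lonF_continuous'.measurable hA]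
  have m0 : Measurable (rad A) := measurable_rad hA
  set c : ℝ≥0∞ := ENNReal.ofReal (1 / ((1 : ℕ) + 1)) with hcdef
  have hc0 : c ≠ 0 := by
    rw [hcdef]
    simp only [ne_eq, ENNReal.ofReal_eq_zero, not_le]
    positivity
  have hct : c ≠ ∞ := ENNReal.ofReal_ne_top
  have e1 : ∫⁻ x, rad A x = c * sm 2 A := by
    rw [lintegral_polar 1 _ m0]
    have : ∀ ω : S (1 + 1), ∫⁻ ρ in Ioi (0:ℝ), rad A (ρ • (ω : E (1 + 1))) *
        ENNReal.ofReal (ρ ^ 1) = c * A.indicator 1 ω := by
      intro ω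
      rw [hcdef, ← lintegral_rpow_Iio 1, ← lintegral_mul_const]
      · refine setLIntegral_congr_fun measurableSet_Ioi fun ρ hρ => ?_
        rw [rad_smul A ω hρ]
        ring
      · refine (measurable_one.indicator measurableSet_Iio).mul ?_
        fun_prop
    simp only [this]
    rw [lintegral_const_mul _ (measurable_one.indicator hA), lintegral_indicator_one hA]
  have m1 : Measurable fun φ : ℝ => A.indicator (1 : S 2 → ℝ≥0∞) ⟨lonF_c φ, lonF_mem φ⟩ :=
    (measurable_one.indicator hA).comp lonF_continuous'.measurable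
  have m2 : Measurable fun r : ℝ => (Iio (1:ℝ)).indicator (1 : ℝ → ℝ≥0∞) r *
        ENNReal.ofReal (r ^ 1) := by
    refine (measurable_one.indicator measurableSet_Iio).mul ?_
    fun_prop
  have e2 : ∫⁻ x, rad A x = c * ((volume : Measure ℝ).restrict (Ioo (-π) π))
      ((fun φ : ℝ => (⟨lonF_c φ, lonF_mem φ⟩ : S 2)) ⁻¹' A) := by
    rw [lonF_polar _ m0]
    have e3 : ∫⁻ p in polarCoord.target, ENNReal.ofReal p.1 * rad A (p.1 • lonF_c p.2) =
        ∫⁻ p : ℝ × ℝ in polarCoord.target, ((Iio (1:ℝ)).indicator 1 p.1 *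
        ENNReal.ofReal (p.1 ^ 1)) * (A.indicator (1 : S 2 → ℝ≥0∞) ⟨lonF_c p.2, lonF_mem p.2⟩) := by
      refine setLIntegral_congr_fun polarCoord.open_target.measurableSet fun p hp => ?_
      rw [polarCoord_target] at hp
      obtain ⟨hr, hθ⟩ := hp
      simp only [mem_Ioi] at hr
      have h3 := rad_smul A (⟨lonF_c p.2, lonF_mem p.2⟩ : S 2) hr
      simp only at h3
      rw [h3, pow_one]
      ring
    rw [e3, polarCoord_target, Measure.volume_eq_prod, ← Measure.prod_restrict,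
      lintegral_prod_mul m2.aemeasurable m1.aemeasurable, lintegral_rpow_Iio, hcdef]
    congr 1
    rw [← lintegral_indicator_one (lonF_continuous'.measurable hA)]
    rfl
  have e3 := e2.symm.trans e1
  exact (ENNReal.mul_right_inj hc0 hct).1 e3

lemma lonF_inner (φ ρ ψ : ℝ) :
    (inner ℝ (lonF_c φ) (!₂[ρ * Real.cos ψ, ρ * Real.sin ψ] : E 2) : ℝ) =
      ρ * Real.cos (φ - ψ) := by
  rw [Real.cos_sub]
  simp [lonF_c, PiLp.inner_apply, Fin.sum_univ_two]
  ring

lemma lonF_join (ρ ψ z : ℝ) :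
    cylpt ρ ψ z = join (!₂[ρ * Real.cos ψ, ρ * Real.sin ψ] : E 2) z := by
  unfold cylpt join
  ext i
  fin_cases i
  · rfl
  · rfl
  · rfl

lemma lonF_lon (h : ℝ → ℂ) {θ φ : ℝ} (hθ : θ ∈ Ioo 0 π) (hφ : φ ∈ Ioo (-π) π) :
    lon h (pt θ (lonF_c φ)) = h φ := by
  have hs : 0 < Real.sin θ := Real.sin_pos_of_mem_Ioo hθ
  have h0 : (pt θ (lonF_c φ) : E 3) 0 = Real.sin θ * Real.cos φ := by
    rfl
  have h1 : (pt θ (lonF_c φ) : E 3) 1 = Real.sin θ * Real.sin φ := by
    rfl
  unfold lon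
  rw [h0, h1]
  congr 1
  have e : (⟨Real.sin θ * Real.cos φ, Real.sin θ * Real.sin φ⟩ : ℂ) =
      ((Real.sin θ : ℝ) : ℂ) * (Complex.cos φ + Complex.sin φ * Complex.I) := by
    apply Complex.ext
    · simp [← Complex.ofReal_cos, ← Complex.ofReal_sin]
    · simp [← Complex.ofReal_cos, ← Complex.ofReal_sin]
  rw [e]
  exact Complex.arg_mul_cos_add_sin_mul_I hs ⟨hφ.1, hφ.2.le⟩

lemma lonF_measurable (h : ℝ → ℂ) (hm : Measurable h) : Measurable (lon h) := by
  unfold lon
  refine hm.comp (Complex.measurable_arg.comp ?_)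
  have : (fun x : E 3 => (⟨x 0, x 1⟩ : ℂ)) = fun x : E 3 => ((x 0 : ℝ) : ℂ) + ((x 1 : ℝ) : ℂ) * Complex.I := by
    ext x
    exact Complex.mk_eq_add_mul_I _ _
  rw [this]
  fun_prop

theorem extn_lon (h : ℝ → ℂ) (hm : Measurable h) (hb : ∀ x, ‖h x‖ ≤ 1) (ρ ψ z : ℝ) :
    extn (lon h) (cylpt ρ ψ z) = sph h ρ ψ z := by
  have hlm := lonF_measurable h hm
  have hlb : ∀ x : E 3, ‖lon h x‖ ≤ 2 := fun x => (hb _).trans (by norm_num)
  rw [lonF_join]
  rw [extn_eq_cyl 0 (lon h) hlm hlb]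
  unfold cyl sph
  set y : E 2 := !₂[ρ * Real.cos ψ, ρ * Real.sin ψ] with hy
  -- the inner integral
  have h1 : ∀ θ ∈ Ioo 0 π, (∫ ω : S (0 + 2), lon h (pt θ (ω : E 2)) *
      Complex.exp (((-(2 * π * (Real.sin θ * inner ℝ (ω : E (0 + 2)) y + z * Real.cos θ)) : ℝ) : ℂ)
      * Complex.I) ∂(sm (0 + 2))) * ((Real.sin θ ^ (0 + 1) : ℝ) : ℂ) =
      ∫ φ in Ioo (-π) π, h φ * (((Real.sin θ : ℝ) : ℂ) *
    Complex.exp (((-(2 * π * (ρ * Real.sin θ * Real.cos (φ - ψ) + z * Real.cos θ)) : ℝ) : ℂ)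
      * Complex.I)) := by
    intro θ hθ
    have hF : Measurable (fun ω : S 2 => lon h (pt θ (ω : E 2)) *
      Complex.exp (((-(2 * π * (Real.sin θ * inner ℝ (ω : E 2) y + z * Real.cos θ)) : ℝ) : ℂ)
      * Complex.I)) := by
      refine Measurable.mul ?_ ?_
      · refine hlm.comp ?_
        have hc : Continuous (fun ω : S 2 => (pt θ (ω : E 2) : E 3)) :=
          pt_continuous.comp (f := fun ω : S 2 => (θ, (ω : E 2))) (by fun_prop)
        exact hc.measurable
      · have : Continuous (fun ω : S 2 =>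
          Complex.exp (((-(2 * π * (Real.sin θ * inner ℝ (ω : E 2) y + z * Real.cos θ)) : ℝ) : ℂ)
      * Complex.I)) := by fun_prop
        exact this.measurable
    have h2 : (∫ ω : S (0 + 2), lon h (pt θ (ω : E 2)) *
      Complex.exp (((-(2 * π * (Real.sin θ * inner ℝ (ω : E (0 + 2)) y + z * Real.cos θ)) : ℝ) : ℂ)
      * Complex.I) ∂(sm (0 + 2))) = ∫ φ in Ioo (-π) π, lon h (pt θ (lonF_c φ)) *
      Complex.exp (((-(2 * π * (Real.sin θ * inner ℝ (lonF_c φ) y + z * Real.cos θ)) : ℝ) : ℂ)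
      * Complex.I) := by
      have := integral_map (μ := (volume : Measure ℝ).restrict (Ioo (-π) π))
        lonF_circle.measurable.aemeasurable (f := fun ω : S 2 => lon h (pt θ (ω : E 2)) *
      Complex.exp (((-(2 * π * (Real.sin θ * inner ℝ (ω : E 2) y + z * Real.cos θ)) : ℝ) : ℂ)
      * Complex.I)) hF.aestronglyMeasurable
      rw [lonF_circle.map_eq] at this
      exact this
    rw [h2, ← integral_mul_const]
    refine setIntegral_congr_fun measurableSet_Ioo fun φ hφ => ?_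
    rw [lonF_lon h hθ hφ, hy, lonF_inner, zero_add, pow_one]
    have e : Real.sin θ * (ρ * Real.cos (φ - ψ)) = ρ * Real.sin θ * Real.cos (φ - ψ) := by ring
    rw [e]
    ring
  rw [setIntegral_congr_fun measurableSet_Ioo h1]
  -- Fubini
  have hint : Integrable (Function.uncurry fun θ φ : ℝ => h φ * (((Real.sin θ : ℝ) : ℂ) *
    Complex.exp (((-(2 * π * (ρ * Real.sin θ * Real.cos (φ - ψ) + z * Real.cos θ)) : ℝ) : ℂ)
      * Complex.I))) (((volume : Measure ℝ).restrict (Ioo 0 π)).prod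
        ((volume : Measure ℝ).restrict (Ioo (-π) π))) := by
    refine Integrable.of_bound (C := 1) ?_ (Filter.Eventually.of_forall fun q => ?_)
    · have : Measurable (Function.uncurry fun θ φ : ℝ => h φ * (((Real.sin θ : ℝ) : ℂ) *
    Complex.exp (((-(2 * π * (ρ * Real.sin θ * Real.cos (φ - ψ) + z * Real.cos θ)) : ℝ) : ℂ)
      * Complex.I))) := by
        unfold Function.uncurry
        refine Measurable.mul (hm.comp measurable_snd) ?_
        have : Continuous (fun q : ℝ × ℝ => (((Real.sin q.1 : ℝ) : ℂ) *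
    Complex.exp (((-(2 * π * (ρ * Real.sin q.1 * Real.cos (q.2 - ψ) + z * Real.cos q.1)) : ℝ) : ℂ)
      * Complex.I))) := by fun_prop
        exact this.measurable
      exact this.aestronglyMeasurable
    · simp only [Function.uncurry]
      rw [norm_mul, norm_mul, Complex.norm_exp_ofReal_mul_I, mul_one, Complex.norm_real,
        Real.norm_eq_abs]
      exact mul_le_one₀ (hb _) (abs_nonneg _) (Real.abs_sin_le_one _)
  rw [integral_integral_swap hint]
  refine setIntegral_congr_fun measurableSet_Ioo fun φ hφ => ?_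
  rw [integral_const_mul]

end Pool.Agent.MP_6cbfb8_an
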