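import Pool.Agent.MP_6cbfb8_an.Super
import Pool.Agent.MP_6cbfb8_an.LonDefs

/-!
Multiplication of densities by indicator functions of half spaces.
-/

namespace Pool.Agent.MP_6cbfb8_an

open MeasureTheory Set
open scoped ENNReal Real RealInnerProductSpace FourierTransform

lemma lonG_fourier (t : ℝ) :
    ∫ s : ℝ, ((s * Real.exp (-(π * s ^ 2)) : ℝ) : ℂ) *
      Complex.exp (((2 * π * (s * t) : ℝ) : ℂ) * Complex.I) =
      Complex.I * ((t * Real.exp (-(π * t ^ 2)) : ℝ) : ℂ) := by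
  have h1 := fourier_gaussian_pi (b := 1) (by norm_num)
  set f : ℝ → ℂ := fun x : ℝ => Complex.exp (-π * 1 * (x : ℂ) ^ 2) with hf
  have hfR : ∀ x : ℝ, f x = ((Real.exp (-(π * x ^ 2)) : ℝ) : ℂ) := by
    intro x
    rw [hf]
    simp only
    push_cast
    congr 1
    ring
  have hfi : Integrable f := by
    have h := (integrable_exp_neg_mul_sq Real.pi_pos).ofReal (𝕜 := ℂ)
    refine h.congr (Filter.Eventually.of_forall fun x => ?_)
    simp only
    rw [hfR]
    simp only [Complex.coe_algebraMap, neg_mul]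
  have hd : ∀ x : ℝ, HasDerivAt f (((-(2 * π) * (x * Real.exp (-(π * x ^ 2))) : ℝ) : ℂ)) x := by
    intro x
    have h2 : HasDerivAt (fun x : ℝ => Real.exp (-(π * x ^ 2)))
        (Real.exp (-(π * x ^ 2)) * (-(π * (2 * x)))) x := by
      have h3 : HasDerivAt (fun x : ℝ => -(π * x ^ 2)) (-(π * (2 * x))) x := by
        have := ((hasDerivAt_pow 2 x).const_mul π).fun_neg
        simpa using this
      exact h3.exp
    have h4 := h2.ofReal_comp
    have h5 : (fun y : ℝ => ((Real.exp (-(π * y ^ 2)) : ℝ) : ℂ)) = f := by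
      funext y; rw [hfR]
    rw [h5] at h4
    convert h4 using 1
    push_cast
    ring
  have hdf : deriv f = fun x : ℝ => ((-(2 * π) * (x * Real.exp (-(π * x ^ 2))) : ℝ) : ℂ) := by
    funext x; exact (hd x).deriv
  have hdi : Integrable (deriv f) := by
    rw [hdf]
    have h := (integrable_mul_exp_neg_mul_sq Real.pi_pos).const_mul (-(2 * π))
    have h6 := h.ofReal (𝕜 := ℂ)
    refine h6.congr (Filter.Eventually.of_forall fun x => ?_)
    simp only [Complex.coe_algebraMap, neg_mul]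
  have h2 := congrFun (Real.fourier_deriv hfi (fun x => (hd x).differentiableAt) hdi) (-t)
  rw [h1, hdf, Real.fourier_real_eq_integral_exp_smul] at h2
  simp only [smul_eq_mul] at h2
  have hpi : (π : ℂ) ≠ 0 := by exact_mod_cast Real.pi_ne_zero
  have h3 : ∫ s : ℝ, Complex.exp (((-2 * π * s * -t : ℝ) : ℂ) * Complex.I) *
      ((-(2 * π) * (s * Real.exp (-(π * s ^ 2))) : ℝ) : ℂ) =
      (-(2 * π) : ℂ) * ∫ s : ℝ, ((s * Real.exp (-(π * s ^ 2)) : ℝ) : ℂ) *
      Complex.exp (((2 * π * (s * t) : ℝ) : ℂ) * Complex.I) := by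
    rw [← integral_const_mul]
    refine integral_congr_ae (Filter.Eventually.of_forall fun s => ?_)
    simp only
    have : (-2 * π * s * -t : ℝ) = 2 * π * (s * t) := by ring
    rw [this]
    push_cast
    ring
  rw [h3] at h2
  have h4 : (-(2 * π) : ℂ) ≠ 0 := by
    simp [hpi]
  refine mul_left_cancel₀ h4 ?_
  rw [h2]
  have h5 : Complex.exp (-(π : ℂ) / 1 * ((-t : ℝ) : ℂ) ^ 2) = ((Real.exp (-(π * t ^ 2)) : ℝ) : ℂ) := by
    push_cast
    congr 1
    ring
  rw [h5]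
  push_cast
  simp
  ring

/-- `∫ |u| exp (-π λ² u²) du = 1 / (π λ²)`. -/
lemma lonG_moment {l : ℝ} (hl : 0 < l) (c : ℝ) :
    ∫⁻ t : ℝ, ENNReal.ofReal (|t - c| * Real.exp (-(π * l ^ 2 * (t - c) ^ 2))) =
      ENNReal.ofReal (1 / (π * l ^ 2)) := by
  rw [lintegral_sub_right_eq_self
    (fun t : ℝ => ENNReal.ofReal (|t| * Real.exp (-(π * l ^ 2 * t ^ 2)))) c]
  have hb : 0 < π * l ^ 2 := by positivity
  have hi : Integrable (fun t : ℝ => |t| * Real.exp (-(π * l ^ 2 * t ^ 2))) := by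
    have h := (integrable_mul_exp_neg_mul_sq hb).abs
    refine h.congr (Filter.Eventually.of_forall fun x => ?_)
    simp only [abs_mul, Real.abs_exp, neg_mul]
  rw [← ofReal_integral_eq_lintegral_ofReal hi (Filter.Eventually.of_forall fun x => by positivity)]
  congr 1
  have h2 : ∫ t : ℝ, |t| * Real.exp (-(π * l ^ 2 * t ^ 2)) =
      2 * ∫ t in Ioi (0:ℝ), t * Real.exp (-(π * l ^ 2 * t ^ 2)) := by
    have := integral_comp_abs (f := fun t : ℝ => t * Real.exp (-(π * l ^ 2 * t ^ 2)))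
    simp only [sq_abs] at this
    exact this
  rw [h2]
  have h3 := integral_mul_cexp_neg_mul_sq (b := ((π * l ^ 2 : ℝ) : ℂ)) (by rw [Complex.ofReal_re]; exact hb)
  have h4 : ∫ r in Ioi (0:ℝ), (r : ℂ) * Complex.exp (-((π * l ^ 2 : ℝ) : ℂ) * (r : ℂ) ^ 2) =
      ((∫ r in Ioi (0:ℝ), r * Real.exp (-(π * l ^ 2 * r ^ 2)) : ℝ) : ℂ) := by
    rw [← integral_complex_ofReal]
    refine integral_congr_ae (Filter.Eventually.of_forall fun s => ?_)
    simp
  rw [h4] at h3
  have h5 : ((∫ r in Ioi (0:ℝ), r * Real.exp (-(π * l ^ 2 * r ^ 2)) : ℝ) : ℂ) =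
      (((2 * (π * l ^ 2))⁻¹ : ℝ) : ℂ) := by
    rw [h3]; push_cast; ring
  rw [Complex.ofReal_inj.1 h5]
  field_simp

/-- `∫_0^∞ t exp (-π λ² t²) dλ = sgn t / 2`. -/
lemma lonG_sgn (t : ℝ) (ht : t ≠ 0) :
    ∫ l in Ioi (0:ℝ), t * Real.exp (-(π * l ^ 2 * t ^ 2)) = (if 0 < t then 1 else -1) / 2 := by
  rw [integral_const_mul]
  have h := integral_gaussian_Ioi (π * t ^ 2)
  have h1 : ∫ l in Ioi (0:ℝ), Real.exp (-(π * l ^ 2 * t ^ 2)) =
      ∫ x in Ioi (0 : ℝ), Real.exp (-(π * t ^ 2) * x ^ 2) := by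
    refine integral_congr_ae (Filter.Eventually.of_forall fun s => ?_)
    simp only
    congr 1; ring
  rw [h1, h]
  have h2 : π / (π * t ^ 2) = (1 / |t|) ^ 2 := by
    rw [div_pow, one_pow, sq_abs]
    field_simp
  rw [h2, Real.sqrt_sq (by positivity)]
  split_ifs with h3
  · rw [abs_of_pos h3]; field_simp
  · rw [abs_of_neg (lt_of_le_of_ne (not_lt.1 h3) ht)]
    field_simp

lemma lonG_sgn_lint (t : ℝ) :
    ∫⁻ l in Ioi (0:ℝ), ENNReal.ofReal (|t| * Real.exp (-(π * l ^ 2 * t ^ 2))) ≤ 1 := by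
  rcases eq_or_ne t 0 with h0 | h0
  · simp [h0]
  have hb : 0 < π * t ^ 2 := by positivity
  have hi : IntegrableOn (fun l : ℝ => |t| * Real.exp (-(π * l ^ 2 * t ^ 2))) (Ioi 0) := by
    have h := ((integrable_exp_neg_mul_sq hb).const_mul |t|).integrableOn (s := Ioi 0)
    refine h.congr (Filter.Eventually.of_forall fun x => ?_)
    simp only
    congr 2; ring
  rw [← ofReal_integral_eq_lintegral_ofReal hi (Filter.Eventually.of_forall fun x => by positivity)]
  have h1 := lonG_sgn |t| (abs_ne_zero.2 h0)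
  simp only [sq_abs] at h1
  rw [h1]
  rw [if_pos (abs_pos.2 h0)]
  rw [← ENNReal.ofReal_one]
  exact ENNReal.ofReal_le_ofReal (by norm_num)


lemma lonG_last (j : ℕ) (Φ : ℝ → ℝ≥0∞) (hΦ : Measurable Φ) :
    ∫⁻ x : S (j + 3), Φ ((x : E (j + 3)) (Fin.last (j + 2))) ∂(sm (j + 3)) ≤
      sm (j + 2) univ * ∫⁻ t, Φ t := by
  have hm : Measurable fun x : E (j + 3) => Φ (x (Fin.last (j + 2))) := by
    refine hΦ.comp ?_
    fun_prop
  have h := lintegral_slice (j + 1) (fun x => Φ (x (Fin.last (j + 2)))) hm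
  rw [h]
  have hpt : ∀ (θ : ℝ) (ω : E (j + 2)), (pt θ ω) (Fin.last (j + 2)) = Real.cos θ := by
    intro θ ω
    simp [pt, join]
  calc ∫⁻ θ in Ioo 0 π, ENNReal.ofReal (Real.sin θ ^ (j + 1)) *
        ∫⁻ ω : S (j + 2), Φ ((pt θ (ω : E (j + 2))) (Fin.last (j + 2))) ∂(sm (j + 2))
      ≤ ∫⁻ θ in Ioo 0 π, sm (j + 2) univ * (ENNReal.ofReal |-(Real.sin θ)| * Φ (Real.cos θ)) := by
        refine setLIntegral_mono' measurableSet_Ioo fun θ hθ => ?_
        have hs : 0 < Real.sin θ := Real.sin_pos_of_mem_Ioo hθ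
        simp only [hpt, lintegral_const]
        rw [abs_neg, abs_of_pos hs, mul_comm (Φ _) (sm (j + 2) univ), mul_left_comm]
        gcongr
        calc Real.sin θ ^ (j + 1) ≤ Real.sin θ ^ 1 :=
              pow_le_pow_of_le_one hs.le (Real.sin_le_one θ) (by omega)
          _ = Real.sin θ := pow_one _
    _ = sm (j + 2) univ * ∫⁻ θ in Ioo 0 π, ENNReal.ofReal |-(Real.sin θ)| * Φ (Real.cos θ) := by
        rw [lintegral_const_mul]
        have := hΦ.comp Real.measurable_cos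
        fun_prop
    _ = sm (j + 2) univ * ∫⁻ t in Real.cos '' Ioo 0 π, Φ t := by
        rw [lintegral_image_eq_lintegral_abs_deriv_mul measurableSet_Ioo
          (fun x _ => (Real.hasDerivAt_cos x).hasDerivWithinAt)
          (Real.injOn_cos.mono Ioo_subset_Icc_self)]
    _ ≤ _ := by
        gcongr
        exact Measure.restrict_le_self

lemma lonG_slab (j : ℕ) (v : E (j + 3)) (hv : ‖v‖ = 1) (Φ : ℝ → ℝ≥0∞) (hΦ : Measurable Φ) :
    ∫⁻ x : S (j + 3), Φ (inner ℝ (x : E (j + 3)) v) ∂(sm (j + 3)) ≤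
      sm (j + 2) univ * ∫⁻ t, Φ t := by
  set e : E (j + 3) := join (0 : E (j + 2)) 1 with he
  have hen : ‖e‖ = 1 := by
    have h1 : ‖e‖ ^ 2 = 1 := by rw [he, norm_join_sq]; simp
    nlinarith [norm_nonneg e, sq_nonneg (‖e‖ - 1)]
  have hei : ∀ x : E (j + 3), inner ℝ x e = x (Fin.last (j + 2)) := by
    intro x
    rw [PiLp.inner_apply, Fin.sum_univ_castSucc]
    simp [he, join]
  set R : E (j + 3) ≃ₗᵢ[ℝ] E (j + 3) := Submodule.reflection (ℝ ∙ (v - e))ᗮ with hR
  have hRv : R v = e := Submodule.reflection_sub (by rw [hv, hen])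
  have hmp := measurePreserving_isometry R
  have hm : Measurable fun x : S (j + 3) => Φ ((x : E (j + 3)) (Fin.last (j + 2))) := by
    refine hΦ.comp ?_
    have : Measurable fun x : S (j + 3) => (x : E (j + 3)) := measurable_subtype_coe
    fun_prop
  have h1 := hmp.lintegral_comp hm
  refine le_trans (le_of_eq ?_) ((le_of_eq h1).trans (lonG_last j Φ hΦ))
  refine lintegral_congr fun x => ?_
  simp only
  rw [← hei, ← hRv, R.inner_map_map]

/-- The weighted inequality of Minkowski type. -/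
lemma lonG_pow {X : Type*} [MeasurableSpace X] {μ : Measure X} [SFinite μ] (A : Set ℝ)
    (hA : MeasurableSet A)
    (hA0 : A ⊆ Ioi 0) (a b : ℝ) {p : ℝ} (hp : 1 ≤ p) (F : ℝ → X → ℝ≥0∞)
    (hF : Measurable (Function.uncurry F)) (K : ℝ≥0∞)
    (hB : ∀ l ∈ A, ∫⁻ x, F l x ^ p ∂μ ≤ K * ENNReal.ofReal (l ^ b)) :
    ∫⁻ x, (∫⁻ l in A, F l x) ^ p ∂μ ≤
      (∫⁻ l in A, ENNReal.ofReal (l ^ a)) ^ (p - 1) *
        (K * ∫⁻ l in A, ENNReal.ofReal (l ^ (a * (1 - p) + b))) := by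
  have hp0 : 0 < p := by linarith
  have hma : Measurable fun l : ℝ => ENNReal.ofReal (l ^ a) := by fun_prop
  have hmna : Measurable fun l : ℝ => ENNReal.ofReal (l ^ (-a)) := by fun_prop
  have hFx : ∀ x, Measurable fun l => F l x := fun x =>
    hF.comp (f := fun l : ℝ => (l, x)) (by fun_prop)
  have hFl : ∀ l, Measurable fun x => F l x := fun l =>
    hF.comp (f := fun x : X => (l, x)) (by fun_prop)
  calc ∫⁻ x, (∫⁻ l in A, F l x) ^ p ∂μ
      ≤ ∫⁻ x, (∫⁻ l in A, ENNReal.ofReal (l ^ a)) ^ (p - 1) *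
          (∫⁻ l in A, ENNReal.ofReal (l ^ a) * (ENNReal.ofReal (l ^ (-a)) * F l x) ^ p) ∂μ := by
        refine lintegral_mono fun x => ?_
        refine le_trans (le_of_eq ?_) (holder_weight (volume.restrict A) _
          (fun l => ENNReal.ofReal (l ^ (-a)) * F l x) hma (hmna.mul (hFx x)) hp)
        congr 1
        refine setLIntegral_congr_fun hA fun l hl => ?_
        have hl0 : 0 < l := hA0 hl
        rw [← mul_assoc, ← ENNReal.ofReal_mul (by positivity), ← Real.rpow_add hl0]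
        simp
    _ = (∫⁻ l in A, ENNReal.ofReal (l ^ a)) ^ (p - 1) *
          ∫⁻ x, (∫⁻ l in A, ENNReal.ofReal (l ^ a) * (ENNReal.ofReal (l ^ (-a)) * F l x) ^ p) ∂μ := by
        rw [lintegral_const_mul]
        have : Measurable fun q : X × ℝ =>
            ENNReal.ofReal (q.2 ^ a) * (ENNReal.ofReal (q.2 ^ (-a)) * F q.2 q.1) ^ p := by
          have h1 : Measurable fun q : X × ℝ => F q.2 q.1 := hF.comp measurable_swap
          fun_prop
        exact this.lintegral_prod_right'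
    _ = (∫⁻ l in A, ENNReal.ofReal (l ^ a)) ^ (p - 1) *
          ∫⁻ l in A, (∫⁻ x, ENNReal.ofReal (l ^ a) * (ENNReal.ofReal (l ^ (-a)) * F l x) ^ p ∂μ) := by
        congr 1
        rw [lintegral_lintegral_swap]
        have : Measurable fun q : X × ℝ =>
            ENNReal.ofReal (q.2 ^ a) * (ENNReal.ofReal (q.2 ^ (-a)) * F q.2 q.1) ^ p := by
          have h1 : Measurable fun q : X × ℝ => F q.2 q.1 := hF.comp measurable_swap
          fun_prop
        exact this.aemeasurable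
    _ ≤ (∫⁻ l in A, ENNReal.ofReal (l ^ a)) ^ (p - 1) *
          ∫⁻ l in A, K * ENNReal.ofReal (l ^ (a * (1 - p) + b)) := by
        refine mul_le_mul' le_rfl ?_
        refine setLIntegral_mono' hA fun l hl => ?_
        have hl0 : 0 < l := hA0 hl
        calc ∫⁻ x, ENNReal.ofReal (l ^ a) * (ENNReal.ofReal (l ^ (-a)) * F l x) ^ p ∂μ
            = ENNReal.ofReal (l ^ a) * (ENNReal.ofReal (l ^ (-a)) ^ p * ∫⁻ x, F l x ^ p ∂μ) := by
              rw [lintegral_const_mul _ (((hFl l).const_mul _).pow_const p)]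
              congr 1
              rw [← lintegral_const_mul _ ((hFl l).pow_const p)]
              refine lintegral_congr fun x => ?_
              rw [ENNReal.mul_rpow_of_nonneg _ _ hp0.le]
          _ ≤ ENNReal.ofReal (l ^ a) * (ENNReal.ofReal (l ^ (-a)) ^ p *
              (K * ENNReal.ofReal (l ^ b))) := by
              gcongr
              exact hB l hl
          _ = K * ENNReal.ofReal (l ^ (a * (1 - p) + b)) := by
              rw [ENNReal.ofReal_rpow_of_pos (by positivity), ← Real.rpow_mul hl0.le]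
              have e : a * (1 - p) + b = a + -a * p + b := by ring
              rw [e, Real.rpow_add hl0, Real.rpow_add hl0, ENNReal.ofReal_mul (by positivity),
                ENNReal.ofReal_mul (by positivity)]
              ring
    _ = _ := by
        rw [lintegral_const_mul _ (by fun_prop)]

lemma lonG_int_small {a : ℝ} (ha : -1 < a) : ∫⁻ l in Ioc (0:ℝ) 1, ENNReal.ofReal (l ^ a) ≠ ∞ := by
  have h := (intervalIntegral.intervalIntegrable_rpow' (a := 0) (b := 1) ha).1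
  have h2 : HasFiniteIntegral (fun l : ℝ => l ^ a) (volume.restrict (Ioc 0 1)) := h.2
  refine ne_of_lt ((lintegral_mono fun l => ?_).trans_lt h2)
  exact Real.ofReal_le_enorm _

lemma lonG_int_large {a : ℝ} (ha : a < -1) : ∫⁻ l in Ioi (1:ℝ), ENNReal.ofReal (l ^ a) ≠ ∞ := by
  have h := integrableOn_Ioi_rpow_of_lt ha (zero_lt_one)
  have h2 : HasFiniteIntegral (fun l : ℝ => l ^ a) (volume.restrict (Ioi 1)) := h.2
  refine ne_of_lt ((lintegral_mono fun l => ?_).trans_lt h2)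
  exact Real.ofReal_le_enorm _


/-- The measure `|s| exp (-π s²) ds`. -/
noncomputable def lonGν : Measure ℝ :=
  (volume : Measure ℝ).withDensity fun s => ENNReal.ofReal (|s| * Real.exp (-(π * s ^ 2)))

instance lonG_finite : IsFiniteMeasure lonGν := by
  refine ⟨?_⟩
  rw [lonGν, withDensity_apply _ MeasurableSet.univ, Measure.restrict_univ]
  have h := lonG_moment (l := 1) one_pos 0
  simp only [sub_zero, one_pow, mul_one] at h
  rw [h]
  exact ENNReal.ofReal_lt_top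

/-- The localised density. -/
noncomputable def lonGG {n : ℕ} (v : E n) (c : ℝ) (g : E n → ℂ) (l : ℝ) (x : E n) : ℂ :=
  (((inner ℝ x v - c) * Real.exp (-(π * l ^ 2 * (inner ℝ x v - c) ^ 2)) : ℝ) : ℂ) * g x

lemma lonG_extn_const_mul {n : ℕ} (a : ℂ) (g : E n → ℂ) (ξ : E n) :
    extn (fun x => a * g x) ξ = a * extn g ξ := by
  unfold extn
  rw [← integral_const_mul]
  refine integral_congr_ae (Filter.Eventually.of_forall fun x => ?_)
  simp only
  ring

lemma lonG_mix {n : ℕ} (v : E n) (c : ℝ) (g : E n → ℂ) {l : ℝ} (x : E n) :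
    mix lonGν (fun _ => LinearIsometryEquiv.refl ℝ (E n)) (fun s => (s * l) • v)
      (fun s x => (-Complex.I * ((SignType.sign s : ℝ) : ℂ) *
        Complex.exp (((-(2 * π * (s * (l * c))) : ℝ) : ℂ) * Complex.I)) * g x) x =
      (l : ℂ) * lonGG v c g l x := by
  unfold mix lonGν lonGG
  rw [integral_withDensity_eq_integral_toReal_smul (by fun_prop)
    (Filter.Eventually.of_forall fun s => ENNReal.ofReal_lt_top)]
  set T : ℝ := inner ℝ x v - c with hT
  calc ∫ s : ℝ, (ENNReal.ofReal (|s| * Real.exp (-(π * s ^ 2)))).toReal •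
        (Complex.exp (((2 * π * inner ℝ x ((s * l) • v) : ℝ) : ℂ) * Complex.I) *
        ((-Complex.I * ((SignType.sign s : ℝ) : ℂ) *
        Complex.exp (((-(2 * π * (s * (l * c))) : ℝ) : ℂ) * Complex.I)) *
          g ((LinearIsometryEquiv.refl ℝ (E n)) x)))
      = ∫ s : ℝ, (-Complex.I * g x) * (((s * Real.exp (-(π * s ^ 2)) : ℝ) : ℂ) *
      Complex.exp (((2 * π * (s * (l * T)) : ℝ) : ℂ) * Complex.I)) := by
        refine integral_congr_ae (Filter.Eventually.of_forall fun s => ?_)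
        simp only
        rw [ENNReal.toReal_ofReal (by positivity), LinearIsometryEquiv.coe_refl, id]
        have h1 : Complex.exp (((2 * π * (s * (l * T)) : ℝ) : ℂ) * Complex.I) =
            Complex.exp (((2 * π * inner ℝ x ((s * l) • v) : ℝ) : ℂ) * Complex.I) *
            Complex.exp (((-(2 * π * (s * (l * c))) : ℝ) : ℂ) * Complex.I) := by
          rw [← Complex.exp_add]
          congr 1
          rw [inner_smul_right, hT]
          push_cast
          ring
        have h2 : (|s| : ℝ) * (SignType.sign s : ℝ) = s := by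
          rcases lt_trichotomy s 0 with h | h | h
          · rw [sign_neg h, abs_of_neg h]; simp
          · simp [h]
          · rw [sign_pos h, abs_of_pos h]; simp
        have h3 : ((s * Real.exp (-(π * s ^ 2)) : ℝ) : ℂ) =
            (((|s| * Real.exp (-(π * s ^ 2)) : ℝ)) : ℂ) * ((SignType.sign s : ℝ) : ℂ) := by
          rw [← Complex.ofReal_mul]
          congr 1
          calc s * Real.exp (-(π * s ^ 2)) = (|s| * (SignType.sign s : ℝ)) *
              Real.exp (-(π * s ^ 2)) := by rw [h2]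
            _ = _ := by ring
        rw [h1, h3, Complex.real_smul]
        ring
    _ = (-Complex.I * g x) * (Complex.I * (((l * T) * Real.exp (-(π * (l * T) ^ 2)) : ℝ) : ℂ)) := by
        rw [integral_const_mul, lonG_fourier]
    _ = _ := by
        have e : Real.exp (-(π * (l * T) ^ 2)) = Real.exp (-(π * l ^ 2 * T ^ 2)) := by
          congr 1; ring
        rw [e]
        push_cast
        linear_combination (-(l * T * Complex.exp (-(π * l ^ 2 * T ^ 2)) * g x)) * Complex.I_sq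

lemma measurable_lonGG {n : ℕ} (v : E n) (c : ℝ) (g : E n → ℂ) (hg : Measurable g) :
    Measurable (Function.uncurry (lonGG v c g)) := by
  unfold lonGG Function.uncurry
  have h1 : Measurable fun q : ℝ × E n => (inner ℝ q.2 v : ℝ) := by fun_prop
  have h2 : Measurable fun q : ℝ × E n => g q.2 := hg.comp measurable_snd
  fun_prop

lemma lonG_L1 {n : ℕ} {p1 : ℝ} (hp1 : 1 ≤ p1) {C1 : ℝ≥0∞} (v : E n) (c : ℝ) (g : E n → ℂ)
    (hg : Measurable g) (hb : ∀ x, ‖g x‖ ≤ 1) (hC : ∫⁻ ξ, ‖extn g ξ‖ₑ ^ p1 ≤ C1) {l : ℝ}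
    (hl : 0 < l) :
    ∫⁻ ξ, ‖extn (lonGG v c g l) ξ‖ₑ ^ p1 ≤ C1 * lonGν univ ^ p1 * ENNReal.ofReal (l ^ (-p1)) := by
  have hp0 : 0 ≤ p1 := by linarith
  have h := lintegral_mix_le hp1 (C := C1) (fun g' : E n → ℂ => ∫⁻ ξ, ‖extn g' ξ‖ₑ ^ p1 ≤ C1)
    (fun g' _ _ h => h) lonGν (fun _ => LinearIsometryEquiv.refl ℝ (E n)) (fun s => (s * l) • v)
      (fun s x => (-Complex.I * ((SignType.sign s : ℝ) : ℂ) *
        Complex.exp (((-(2 * π * (s * (l * c))) : ℝ) : ℂ) * Complex.I)) * g x) ?_ ?_ ?_ ?_ ?_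
  · have e : mix lonGν (fun _ => LinearIsometryEquiv.refl ℝ (E n)) (fun s => (s * l) • v)
      (fun s x => (-Complex.I * ((SignType.sign s : ℝ) : ℂ) *
        Complex.exp (((-(2 * π * (s * (l * c))) : ℝ) : ℂ) * Complex.I)) * g x) =
      fun x => (l : ℂ) * lonGG v c g l x := by
      funext x
      exact lonG_mix v c g x
    rw [e] at h
    have h2 : ∫⁻ ξ, ‖extn (lonGG v c g l) ξ‖ₑ ^ p1 =
        ENNReal.ofReal (l ^ (-p1)) * ∫⁻ ξ, ‖extn (fun x => (l : ℂ) * lonGG v c g l x) ξ‖ₑ ^ p1 := by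
      rw [← lintegral_const_mul']
      · refine lintegral_congr fun ξ => ?_
        rw [lonG_extn_const_mul, enorm_mul, ENNReal.mul_rpow_of_nonneg _ _ hp0, ← mul_assoc]
        have : ENNReal.ofReal (l ^ (-p1)) * ‖(l : ℂ)‖ₑ ^ p1 = 1 := by
          rw [← ofReal_norm, Complex.norm_real, Real.norm_eq_abs, abs_of_pos hl,
            ENNReal.ofReal_rpow_of_pos hl, ← ENNReal.ofReal_mul (by positivity),
            ← Real.rpow_add hl]
          simp
        rw [this, one_mul]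
      · exact ENNReal.ofReal_ne_top
    rw [h2, mul_comm]
    gcongr
  · exact measurable_snd
  · fun_prop
  · have h2 : Measurable fun q : ℝ × E n => g q.2 := hg.comp measurable_snd
    have h3 : Measurable fun q : ℝ × E n => ((SignType.sign q.1 : ℝ) : ℂ) := by
      have h4 : Measurable fun s : ℝ => (SignType.sign s : ℝ) := by
        have : (fun s : ℝ => (SignType.sign s : ℝ)) =
            fun s => if 0 < s then 1 else if s < 0 then -1 else 0 := by
          funext s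
          simp only [sign_apply]
          split_ifs <;> simp
        rw [this]
        exact Measurable.ite measurableSet_Ioi measurable_const
          (Measurable.ite measurableSet_Iio measurable_const measurable_const)
      exact Complex.measurable_ofReal.comp (h4.comp measurable_fst)
    unfold Function.uncurry
    fun_prop
  · intro s x
    rw [norm_mul, norm_mul, norm_mul, norm_phase, norm_neg, Complex.norm_I, one_mul, mul_one,
      Complex.norm_real]
    refine mul_le_one₀ ?_ (norm_nonneg _) (hb x)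
    rcases lt_trichotomy s 0 with h | h | h
    · rw [sign_neg h]; simp
    · simp [h]
    · rw [sign_pos h]; simp
  · intro s
    refine le_trans (lintegral_mono fun ξ => ?_) hC
    rw [lonG_extn_const_mul]
    refine ENNReal.rpow_le_rpow ?_ hp0
    rw [enorm_mul]
    have : ‖(-Complex.I * ((SignType.sign s : ℝ) : ℂ) *
        Complex.exp (((-(2 * π * (s * (l * c))) : ℝ) : ℂ) * Complex.I))‖ₑ ≤ 1 := by
      rw [← ofReal_norm, ENNReal.ofReal_le_one]
      rw [norm_mul, norm_mul, norm_phase, norm_neg, Complex.norm_I, one_mul, mul_one,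
        Complex.norm_real]
      rcases lt_trichotomy s 0 with h | h | h
      · rw [sign_neg h]; simp
      · simp [h]
      · rw [sign_pos h]; simp
    calc _ ≤ 1 * ‖extn g ξ‖ₑ := by gcongr
      _ = _ := one_mul _

lemma lonG_enorm_extn_le {n : ℕ} (g : E n → ℂ) (ξ : E n) :
    ‖extn g ξ‖ₑ ≤ ∫⁻ x : S n, ‖g x‖ₑ ∂(sm n) := by
  unfold extn
  refine (enorm_integral_le_lintegral_enorm _).trans (le_of_eq ?_)
  refine lintegral_congr fun x => ?_
  rw [enorm_mul, enorm_phase, mul_one]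

lemma enorm_lonGG_le {n : ℕ} (v : E n) (c : ℝ) (g : E n → ℂ) (hb : ∀ x, ‖g x‖ ≤ 1) (l : ℝ)
    (x : E n) : ‖lonGG v c g l x‖ₑ ≤
      ENNReal.ofReal (|inner ℝ x v - c| * Real.exp (-(π * l ^ 2 * (inner ℝ x v - c) ^ 2))) := by
  rw [← ofReal_norm]
  refine ENNReal.ofReal_le_ofReal ?_
  rw [lonGG, norm_mul, Complex.norm_real, norm_mul, Real.norm_eq_abs, Real.norm_eq_abs,
    Real.abs_exp]
  exact mul_le_of_le_one_right (by positivity) (hb x)

lemma lonG_abs_T_le {n : ℕ} (v : E n) (hv : ‖v‖ = 1) {c : ℝ} (hc : |c| ≤ 1) (x : S n) :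
    |inner ℝ (x : E n) v - c| ≤ 2 := by
  have h1 : |(inner ℝ (x : E n) v : ℝ)| ≤ 1 := by
    have := abs_real_inner_le_norm (x : E n) v
    rw [hv] at this
    simpa using this
  calc |inner ℝ (x : E n) v - c| ≤ |(inner ℝ (x : E n) v : ℝ)| + |c| := abs_sub _ _
    _ ≤ 2 := by linarith

lemma lonG_sup1 {n : ℕ} (v : E n) (hv : ‖v‖ = 1) {c : ℝ} (hc : |c| ≤ 1) (g : E n → ℂ)
    (hb : ∀ x, ‖g x‖ ≤ 1) (l : ℝ) (ξ : E n) :
    ‖extn (lonGG v c g l) ξ‖ₑ ≤ 2 * sm n univ := by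
  refine (lonG_enorm_extn_le _ ξ).trans ?_
  calc ∫⁻ x : S n, ‖lonGG v c g l x‖ₑ ∂(sm n) ≤ ∫⁻ _x : S n, 2 ∂(sm n) := by
        refine lintegral_mono fun x => ?_
        refine (enorm_lonGG_le v c g hb l x).trans ?_
        refine ENNReal.ofReal_le_of_le_toReal ?_
        rw [ENNReal.toReal_ofNat]
        have h1 := lonG_abs_T_le v hv hc x
        have h2 : Real.exp (-(π * l ^ 2 * (inner ℝ (x : E n) v - c) ^ 2)) ≤ 1 := by
          rw [Real.exp_le_one_iff]
          have : 0 ≤ π * l ^ 2 * (inner ℝ (x : E n) v - c) ^ 2 := by positivity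
          linarith
        calc |inner ℝ (x : E n) v - c| * Real.exp (-(π * l ^ 2 * (inner ℝ (x : E n) v - c) ^ 2))
            ≤ 2 * 1 := by gcongr
          _ = 2 := by norm_num
    _ = _ := by rw [lintegral_const]

lemma lonG_sup2 (j : ℕ) (v : E (j + 3)) (hv : ‖v‖ = 1) (c : ℝ) (g : E (j + 3) → ℂ)
    (hb : ∀ x, ‖g x‖ ≤ 1) {l : ℝ} (hl : 0 < l) (ξ : E (j + 3)) :
    ‖extn (lonGG v c g l) ξ‖ₑ ≤ sm (j + 2) univ * ENNReal.ofReal (l ^ (-2 : ℝ)) := by
  refine (lonG_enorm_extn_le _ ξ).trans ?_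
  calc ∫⁻ x : S (j + 3), ‖lonGG v c g l x‖ₑ ∂(sm (j + 3))
      ≤ ∫⁻ x : S (j + 3), ENNReal.ofReal (|inner ℝ (x : E (j + 3)) v - c| *
        Real.exp (-(π * l ^ 2 * (inner ℝ (x : E (j + 3)) v - c) ^ 2))) ∂(sm (j + 3)) := by
        refine lintegral_mono fun x => ?_
        exact enorm_lonGG_le v c g hb l x
    _ ≤ sm (j + 2) univ * ∫⁻ t : ℝ, ENNReal.ofReal (|t - c| *
        Real.exp (-(π * l ^ 2 * (t - c) ^ 2))) := by
        exact lonG_slab j v hv (fun t => ENNReal.ofReal (|t - c| *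
          Real.exp (-(π * l ^ 2 * (t - c) ^ 2)))) (by fun_prop)
    _ ≤ _ := by
        rw [lonG_moment hl]
        gcongr
        rw [Real.rpow_neg hl.le, Real.rpow_two, ← one_div]
        have h1 : 1 ≤ π := by linarith [Real.pi_gt_three]
        have h2 : 0 < l ^ 2 := by positivity
        refine one_div_le_one_div_of_le h2 ?_
        nlinarith

lemma lonG_null (j : ℕ) (v : E (j + 3)) (hv : ‖v‖ = 1) (c : ℝ) :
    ∀ᵐ x : S (j + 3) ∂(sm (j + 3)), inner ℝ (x : E (j + 3)) v ≠ c := by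
  have h := lonG_slab j v hv (indicator {c} 1) (measurable_one.indicator (measurableSet_singleton c))
  have h0 : ∫⁻ t : ℝ, indicator {c} (1 : ℝ → ℝ≥0∞) t = 0 := by
    rw [lintegral_indicator_one (measurableSet_singleton c)]
    simp
  rw [h0, mul_zero] at h
  have h1 : Measurable fun x : S (j + 3) => (inner ℝ (x : E (j + 3)) v : ℝ) := by
    have : Measurable fun x : S (j + 3) => (x : E (j + 3)) := measurable_subtype_coe
    fun_prop
  have h2 := (lintegral_eq_zero_iff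
    ((measurable_one.indicator (measurableSet_singleton c)).comp h1)).1 (le_antisymm h bot_le)
  filter_upwards [h2] with x hx hxc
  simp only [Function.comp_apply, Pi.zero_apply] at hx
  rw [hxc] at hx
  simp at hx

lemma lonG_decomp (j : ℕ) (v : E (j + 3)) (hv : ‖v‖ = 1) (c : ℝ) (g : E (j + 3) → ℂ)
    (hg : Measurable g) (hb : ∀ x, ‖g x‖ ≤ 1) (ξ : E (j + 3)) :
    extn (fun x => if c < inner ℝ x v then g x else 0) ξ =
      (1 / 2) * extn g ξ + ∫ l in Ioi (0:ℝ), extn (lonGG v c g l) ξ := by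
  have hT : Measurable fun x : S (j + 3) => (inner ℝ (x : E (j + 3)) v : ℝ) := by
    have : Measurable fun x : S (j + 3) => (x : E (j + 3)) := measurable_subtype_coe
    fun_prop
  have hph : Measurable fun x : S (j + 3) =>
      Complex.exp (((-(2 * π * inner ℝ (x : E (j + 3)) ξ) : ℝ) : ℂ) * Complex.I) := by
    have : Measurable fun x : S (j + 3) => (x : E (j + 3)) := measurable_subtype_coe
    have h2 : Measurable fun x : S (j + 3) => (inner ℝ (x : E (j + 3)) ξ : ℝ) := by fun_prop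
    fun_prop
  have hgs : Measurable fun x : S (j + 3) => g x := hg.comp measurable_subtype_coe
  have hmG : Measurable fun q : ℝ × S (j + 3) => lonGG v c g q.1 (q.2 : E (j + 3)) :=
    (measurable_lonGG v c g hg).comp (f := fun q : ℝ × S (j + 3) => (q.1, (q.2 : E (j + 3))))
      (by fun_prop)
  have hmI : Measurable fun q : ℝ × S (j + 3) => lonGG v c g q.1 (q.2 : E (j + 3)) *
      Complex.exp (((-(2 * π * inner ℝ (q.2 : E (j + 3)) ξ) : ℝ) : ℂ) * Complex.I) :=
    hmG.mul (hph.comp measurable_snd)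
  have hint : Integrable (Function.uncurry fun (l : ℝ) (x : S (j + 3)) =>
      lonGG v c g l (x : E (j + 3)) *
      Complex.exp (((-(2 * π * inner ℝ (x : E (j + 3)) ξ) : ℝ) : ℂ) * Complex.I))
      ((volume.restrict (Ioi (0:ℝ))).prod (sm (j + 3))) := by
    refine ⟨hmI.aestronglyMeasurable, ?_⟩
    unfold HasFiniteIntegral Function.uncurry
    rw [lintegral_prod_symm _ hmI.enorm.aemeasurable]
    calc ∫⁻ x : S (j + 3), (∫⁻ l in Ioi (0:ℝ), ‖lonGG v c g l (x : E (j + 3)) *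
          Complex.exp (((-(2 * π * inner ℝ (x : E (j + 3)) ξ) : ℝ) : ℂ) * Complex.I)‖ₑ) ∂(sm (j + 3))
        ≤ ∫⁻ _x : S (j + 3), 1 ∂(sm (j + 3)) := by
          refine lintegral_mono fun x => ?_
          refine le_trans (lintegral_mono fun l => ?_) (lonG_sgn_lint (inner ℝ (x : E (j + 3)) v - c))
          rw [enorm_mul, enorm_phase, mul_one]
          exact enorm_lonGG_le v c g hb l x
      _ < ∞ := by
          rw [lintegral_const, one_mul]
          exact (sm_univ_ne_top _).lt_top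
  have hswap : ∫ l in Ioi (0:ℝ), extn (lonGG v c g l) ξ =
      ∫ x : S (j + 3), (∫ l in Ioi (0:ℝ), lonGG v c g l (x : E (j + 3)) *
      Complex.exp (((-(2 * π * inner ℝ (x : E (j + 3)) ξ) : ℝ) : ℂ) * Complex.I)) ∂(sm (j + 3)) := by
    unfold extn
    exact integral_integral_swap hint
  have hi2 : Integrable (fun x : S (j + 3) => (∫ l in Ioi (0:ℝ), lonGG v c g l (x : E (j + 3)) *
      Complex.exp (((-(2 * π * inner ℝ (x : E (j + 3)) ξ) : ℝ) : ℂ) * Complex.I))) (sm (j + 3)) :=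
    hint.integral_prod_right
  rw [hswap]
  have hi1 : Integrable (fun x : S (j + 3) => (1 / 2 : ℂ) * (g x *
      Complex.exp (((-(2 * π * inner ℝ (x : E (j + 3)) ξ) : ℝ) : ℂ) * Complex.I))) (sm (j + 3)) := by
    refine Integrable.const_mul ?_ _
    refine Integrable.of_bound (hgs.mul hph).aestronglyMeasurable 1
      (Filter.Eventually.of_forall fun x => ?_)
    rw [norm_mul, norm_phase, mul_one]
    exact hb _
  have e1 : (1 / 2 : ℂ) * extn g ξ = ∫ x : S (j + 3), (1 / 2 : ℂ) * (g x *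
      Complex.exp (((-(2 * π * inner ℝ (x : E (j + 3)) ξ) : ℝ) : ℂ) * Complex.I)) ∂(sm (j + 3)) := by
    unfold extn
    rw [integral_const_mul]
  rw [e1, ← integral_add hi1 hi2]
  unfold extn
  refine integral_congr_ae ?_
  filter_upwards [lonG_null j v hv c] with x hx
  have hT0 : inner ℝ (x : E (j + 3)) v - c ≠ 0 := sub_ne_zero.2 hx
  have e2 : ∫ l in Ioi (0:ℝ), lonGG v c g l (x : E (j + 3)) *
      Complex.exp (((-(2 * π * inner ℝ (x : E (j + 3)) ξ) : ℝ) : ℂ) * Complex.I) =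
      (((if 0 < inner ℝ (x : E (j + 3)) v - c then 1 else -1) / 2 : ℝ) : ℂ) * (g x *
      Complex.exp (((-(2 * π * inner ℝ (x : E (j + 3)) ξ) : ℝ) : ℂ) * Complex.I)) := by
    rw [← lonG_sgn _ hT0, ← integral_complex_ofReal, ← integral_mul_const]
    refine integral_congr_ae (Filter.Eventually.of_forall fun l => ?_)
    simp only [lonGG]
    ring
  rw [e2]
  by_cases h : c < inner ℝ (x : E (j + 3)) v
  · have h' : 0 < inner ℝ (x : E (j + 3)) v - c := sub_pos.2 h
    rw [if_pos h, if_pos h']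
    push_cast
    ring
  · have h' : ¬ (0 < inner ℝ (x : E (j + 3)) v - c) := fun h'' => h (sub_pos.1 h'')
    rw [if_neg h, if_neg h']
    push_cast
    ring

lemma lonG_unit (j : ℕ) (p p1 : ℝ) (hp1 : 1 ≤ p1) (hpp : p1 < p) (C1 C2 : ℝ≥0∞) (hC1 : C1 ≠ ∞)
    (hC2 : C2 ≠ ∞) : ∃ C : ℝ≥0∞, C ≠ ∞ ∧ ∀ g : E (j + 3) → ℂ, Measurable g → (∀ x, ‖g x‖ ≤ 1) →
      ∫⁻ ξ, ‖extn g ξ‖ₑ ^ p1 ≤ C1 → ∫⁻ ξ, ‖extn g ξ‖ₑ ^ p ≤ C2 →
      ∀ (v : E (j + 3)) (c : ℝ), ‖v‖ = 1 → |c| ≤ 1 →
      ∫⁻ ξ, ‖extn (fun x => if c < inner ℝ x v then g x else 0) ξ‖ₑ ^ p ≤ C := by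
  have hp0 : 0 < p := by linarith
  have hp : 1 ≤ p := by linarith
  have hpp1 : 0 ≤ p - p1 := by linarith
  -- weights
  set ε : ℝ := (p - p1) / (2 * p) with hε
  have hεp : ε * (2 * p) = p - p1 := by rw [hε]; field_simp
  have hε0 : 0 < ε := by
    rw [hε]
    exact div_pos (by linarith) (by linarith)
  have hεp1 : ε * (p - 1) < p - p1 := by nlinarith
  set N := lonGν univ with hN
  have hNtop : N ≠ ∞ := measure_ne_top _ _
  set M1 : ℝ≥0∞ := 2 * sm (j + 3) univ with hM1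
  set M2 : ℝ≥0∞ := sm (j + 2) univ with hM2
  have hM1top : M1 ≠ ∞ := ENNReal.mul_ne_top (by simp) (sm_univ_ne_top _)
  have hM2top : M2 ≠ ∞ := sm_univ_ne_top _
  set K1 : ℝ≥0∞ := M1 ^ (p - p1) * (C1 * N ^ p1) with hK1
  set K2 : ℝ≥0∞ := M2 ^ (p - p1) * (C1 * N ^ p1) with hK2
  have hCN : C1 * N ^ p1 ≠ ∞ :=
    ENNReal.mul_ne_top hC1 (ENNReal.rpow_ne_top_of_nonneg (by linarith) hNtop)
  have hK1top : K1 ≠ ∞ :=
    ENNReal.mul_ne_top (ENNReal.rpow_ne_top_of_nonneg hpp1 hM1top) hCN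
  have hK2top : K2 ≠ ∞ :=
    ENNReal.mul_ne_top (ENNReal.rpow_ne_top_of_nonneg hpp1 hM2top) hCN
  have hI1a := lonG_int_small (a := -1 + ε) (by linarith)
  have hI1b := lonG_int_small (a := (-1 + ε) * (1 - p) + -p1) (by nlinarith)
  have hI2a := lonG_int_large (a := -1 - ε) (by linarith)
  have hI2b := lonG_int_large (a := (-1 - ε) * (1 - p) + (-2 * (p - p1) + -p1)) (by nlinarith)
  set I1a := ∫⁻ l in Ioc (0:ℝ) 1, ENNReal.ofReal (l ^ (-1 + ε)) with hI1ad
  set I1b := ∫⁻ l in Ioc (0:ℝ) 1, ENNReal.ofReal (l ^ ((-1 + ε) * (1 - p) + -p1)) with hI1bd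
  set I2a := ∫⁻ l in Ioi (1:ℝ), ENNReal.ofReal (l ^ (-1 - ε)) with hI2ad
  set I2b := ∫⁻ l in Ioi (1:ℝ), ENNReal.ofReal
    (l ^ ((-1 - ε) * (1 - p) + (-2 * (p - p1) + -p1))) with hI2bd
  refine ⟨3 ^ p * (C2 + I1a ^ (p - 1) * (K1 * I1b) + I2a ^ (p - 1) * (K2 * I2b)), ?_, ?_⟩
  · refine ENNReal.mul_ne_top (ENNReal.rpow_ne_top_of_nonneg hp0.le (by simp)) ?_
    refine ENNReal.add_ne_top.2 ⟨ENNReal.add_ne_top.2 ⟨hC2, ?_⟩, ?_⟩
    · exact ENNReal.mul_ne_top (ENNReal.rpow_ne_top_of_nonneg (by linarith) hI1a)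
        (ENNReal.mul_ne_top hK1top hI1b)
    · exact ENNReal.mul_ne_top (ENNReal.rpow_ne_top_of_nonneg (by linarith) hI2a)
        (ENNReal.mul_ne_top hK2top hI2b)
  intro g hg hb hg1 hg2 v c hv hc
  have hF0 : Measurable fun q : ℝ × E (j + 3) => extn (lonGG v c g q.1) q.2 :=
    measurable_extn_param (lonGG v c g) (measurable_lonGG v c g hg)
  have hF : Measurable (Function.uncurry fun (l : ℝ) (ξ : E (j + 3)) =>
      ‖extn (lonGG v c g l) ξ‖ₑ) := hF0.enorm
  have hFl : ∀ l : ℝ, Measurable fun ξ => ‖extn (lonGG v c g l) ξ‖ₑ := fun l =>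
    hF.comp (f := fun ξ : E (j + 3) => (l, ξ)) (by fun_prop)
  have hB1 : ∀ l ∈ Ioc (0:ℝ) 1, ∫⁻ ξ, ‖extn (lonGG v c g l) ξ‖ₑ ^ p ≤
      K1 * ENNReal.ofReal (l ^ (-p1)) := by
    intro l hl
    refine (lintegral_rpow_le_sup _ (hFl l) (by linarith) hpp.le M1
      (fun ξ => lonG_sup1 v hv hc g hb l ξ)).trans ?_
    rw [hK1, mul_assoc]
    gcongr
    exact lonG_L1 hp1 v c g hg hb hg1 hl.1
  have hB2 : ∀ l ∈ Ioi (1:ℝ), ∫⁻ ξ, ‖extn (lonGG v c g l) ξ‖ₑ ^ p ≤
      K2 * ENNReal.ofReal (l ^ (-2 * (p - p1) + -p1)) := by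
    intro l hl
    have hl0 : (0:ℝ) < l := lt_trans one_pos hl
    refine (lintegral_rpow_le_sup _ (hFl l) (by linarith) hpp.le
      (M2 * ENNReal.ofReal (l ^ (-2 : ℝ)))
      (fun ξ => lonG_sup2 j v hv c g hb hl0 ξ)).trans ?_
    calc (M2 * ENNReal.ofReal (l ^ (-2 : ℝ))) ^ (p - p1) *
          ∫⁻ ξ, ‖extn (lonGG v c g l) ξ‖ₑ ^ p1
        ≤ (M2 * ENNReal.ofReal (l ^ (-2 : ℝ))) ^ (p - p1) *
          (C1 * N ^ p1 * ENNReal.ofReal (l ^ (-p1))) := by
          gcongr
          exact lonG_L1 hp1 v c g hg hb hg1 hl0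
      _ = K2 * ENNReal.ofReal (l ^ (-2 * (p - p1) + -p1)) := by
          rw [ENNReal.mul_rpow_of_nonneg _ _ hpp1, ENNReal.ofReal_rpow_of_pos (by positivity),
            ← Real.rpow_mul hl0.le, Real.rpow_add hl0, ENNReal.ofReal_mul (by positivity), hK2]
          ring
  have hA1 := lonG_pow (μ := (volume : Measure (E (j + 3)))) (Ioc (0:ℝ) 1) measurableSet_Ioc
    (fun l hl => hl.1) (-1 + ε) (-p1) hp _ hF K1 hB1
  have hA2 := lonG_pow (μ := (volume : Measure (E (j + 3)))) (Ioi (1:ℝ)) measurableSet_Ioi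
    (fun l hl => mem_Ioi.2 (lt_trans one_pos (mem_Ioi.1 hl))) (-1 - ε) (-2 * (p - p1) + -p1)
    hp _ hF K2 hB2
  have hFs : Measurable fun q : E (j + 3) × ℝ => ‖extn (lonGG v c g q.2) q.1‖ₑ :=
    (hF0.comp (f := fun q : E (j + 3) × ℝ => (q.2, q.1)) (by fun_prop)).enorm
  have hm1 : Measurable fun ξ => ∫⁻ l in Ioc (0:ℝ) 1, ‖extn (lonGG v c g l) ξ‖ₑ :=
    hFs.lintegral_prod_right'
  have hm2 : Measurable fun ξ => ∫⁻ l in Ioi (1:ℝ), ‖extn (lonGG v c g l) ξ‖ₑ :=
    hFs.lintegral_prod_right'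
  calc ∫⁻ ξ, ‖extn (fun x => if c < inner ℝ x v then g x else 0) ξ‖ₑ ^ p
      ≤ ∫⁻ ξ, 3 ^ p * (‖extn g ξ‖ₑ ^ p + (∫⁻ l in Ioc (0:ℝ) 1, ‖extn (lonGG v c g l) ξ‖ₑ) ^ p +
          (∫⁻ l in Ioi (1:ℝ), ‖extn (lonGG v c g l) ξ‖ₑ) ^ p) := by
        refine lintegral_mono fun ξ => ?_
        refine le_trans ?_ (add_rpow_le_three hp0.le)
        refine ENNReal.rpow_le_rpow ?_ hp0.le
        rw [lonG_decomp j v hv c g hg hb ξ]
        refine (enorm_add_le _ _).trans ?_
        rw [add_assoc]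
        refine add_le_add ?_ ?_
        · rw [enorm_mul]
          have h2 : ‖(1 / 2 : ℂ)‖ₑ ≤ 1 := by
            rw [← ofReal_norm, ENNReal.ofReal_le_one]
            norm_num
          calc ‖(1 / 2 : ℂ)‖ₑ * ‖extn g ξ‖ₑ ≤ 1 * ‖extn g ξ‖ₑ := by gcongr
            _ = _ := one_mul _
        · refine (enorm_integral_le_lintegral_enorm _).trans ?_
          have h3 : Ioi (0:ℝ) ⊆ Ioc 0 1 ∪ Ioi 1 := by
            intro l hl
            rcases le_or_gt l 1 with h | h
            · exact Or.inl ⟨hl, h⟩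
            · exact Or.inr h
          exact (lintegral_mono_set h3).trans (lintegral_union_le _ _ _)
    _ = 3 ^ p * ((∫⁻ ξ, ‖extn g ξ‖ₑ ^ p) +
          (∫⁻ ξ, (∫⁻ l in Ioc (0:ℝ) 1, ‖extn (lonGG v c g l) ξ‖ₑ) ^ p) +
          ∫⁻ ξ, (∫⁻ l in Ioi (1:ℝ), ‖extn (lonGG v c g l) ξ‖ₑ) ^ p) :=
        lintegral_mul_add3 _ _ _ _ ((measurable_extn g hg).enorm.pow_const p)
          (hm1.pow_const p) (hm2.pow_const p)
    _ ≤ _ := by
        gcongr

theorem cut_bound (j : ℕ) (p0 : ℝ) (hp0 : 1 ≤ p0) (cls : (E (j + 3) → ℂ) → Prop)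
    (H : ∀ p, p0 < p → ∃ C : ℝ≥0∞, C ≠ ∞ ∧ ∀ g, Measurable g → (∀ x, ‖g x‖ ≤ 1) → cls g →
      ∫⁻ ξ, ‖extn g ξ‖ₑ ^ p ≤ C) (p : ℝ) (hp : p0 < p) :
    ∃ C : ℝ≥0∞, C ≠ ∞ ∧ ∀ g, Measurable g → (∀ x, ‖g x‖ ≤ 1) → cls g →
      ∀ (v : E (j + 3)) (c : ℝ),
      ∫⁻ ξ, ‖extn (fun x => if c < inner ℝ x v then g x else 0) ξ‖ₑ ^ p ≤ C := by
  obtain ⟨C1, hC1, h1⟩ := H ((p0 + p) / 2) (by linarith)
  obtain ⟨C2, hC2, h2⟩ := H p hp
  obtain ⟨C, hC, h3⟩ := lonG_unit j p ((p0 + p) / 2) (by linarith) (by linarith) C1 C2 hC1 hC2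
  refine ⟨C + C2, ENNReal.add_ne_top.2 ⟨hC, hC2⟩, ?_⟩
  intro g hg hb hcls v c
  have hin : ∀ x : S (j + 3), |(inner ℝ (x : E (j + 3)) v : ℝ)| ≤ ‖v‖ := by
    intro x
    have := abs_real_inner_le_norm (x : E (j + 3)) v
    simpa using this
  have hzero : (∀ x : S (j + 3), ¬ c < inner ℝ (x : E (j + 3)) v) →
      ∫⁻ ξ, ‖extn (fun x => if c < inner ℝ x v then g x else 0) ξ‖ₑ ^ p ≤ C + C2 := by
    intro hx
    have e : ∀ ξ, extn (fun x => if c < inner ℝ x v then g x else 0) ξ = 0 := by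
      intro ξ
      unfold extn
      refine integral_eq_zero_of_ae (Filter.Eventually.of_forall fun x => ?_)
      simp only
      rw [if_neg (hx x)]
      simp
    simp only [e]
    rw [enorm_zero, ENNReal.zero_rpow_of_pos (by linarith)]
    simp
  rcases lt_or_ge c (-‖v‖) with hcv | hcv
  · have e : ∀ ξ, extn (fun x => if c < inner ℝ x v then g x else 0) ξ = extn g ξ := by
      intro ξ
      unfold extn
      refine integral_congr_ae (Filter.Eventually.of_forall fun x => ?_)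
      have hx : c < inner ℝ (x : E (j + 3)) v := by
        have := (abs_le.1 (hin x)).1
        linarith
      simp only
      rw [if_pos hx]
    simp only [e]
    exact (h2 g hg hb hcls).trans le_add_self
  rcases eq_or_ne v 0 with h0 | h0
  · refine hzero fun x => ?_
    rw [h0] at hcv ⊢
    rw [norm_zero, neg_zero] at hcv
    rw [inner_zero_right]
    exact not_lt.2 hcv
  rcases lt_or_ge ‖v‖ c with hvc | hvc
  · refine hzero fun x => ?_
    have := (abs_le.1 (hin x)).2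
    exact not_lt.2 (by linarith)
  · have hn : 0 < ‖v‖ := norm_pos_iff.2 h0
    have e : (fun x => if c < inner ℝ x v then g x else 0) =
        fun x => if c / ‖v‖ < inner ℝ x (‖v‖⁻¹ • v) then g x else 0 := by
      funext x
      have : (c < inner ℝ x v) ↔ (c / ‖v‖ < inner ℝ x (‖v‖⁻¹ • v)) := by
        rw [inner_smul_right, div_eq_inv_mul, mul_lt_mul_iff_right₀ (inv_pos.2 hn)]
      simp only [this]
    rw [e]
    refine (h3 g hg hb (h1 g hg hb hcls) (h2 g hg hb hcls) (‖v‖⁻¹ • v) (c / ‖v‖) ?_ ?_).trans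
      le_self_add
    · rw [norm_smul, norm_inv, norm_norm, inv_mul_cancel₀ hn.ne']
    · rw [abs_div, abs_of_pos hn, div_le_one hn]
      exact abs_le.2 ⟨by linarith, hvc⟩

end Pool.Agent.MP_6cbfb8_an
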