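import Pool.Agent.MP_6cbfb8_an.LonD
import Pool.Agent.MP_6cbfb8_an.LonF
import Pool.Agent.MP_6cbfb8_an.LonG
import Pool.Agent.MP_6cbfb8_an.LonC
import Pool.Agent.MP_6cbfb8_an.LonE

/-!
Densities which depend on the longitude only: the full range.
-/

namespace Pool.Agent.MP_6cbfb8_an

open MeasureTheory Set
open scoped ENNReal Real RealInnerProductSpace

lemma lonM_half (G : ℝ → ℝ≥0∞) (hG : Function.Periodic G (2 * π)) :
    ∫⁻ ψ in Ioo (-π) π, G (2 * ψ) ≤ ∫⁻ τ in Ioo (-π) π, G τ := by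
  have hpi := Real.pi_pos
  have h1 := lintegral_image_eq_lintegral_abs_deriv_mul (s := Ioo (-π) π) (f := fun ψ : ℝ => 2 * ψ)
    (f' := fun _ => 2) measurableSet_Ioo
    (fun x _ => by simpa using ((hasDerivAt_id x).const_mul (2:ℝ)).hasDerivWithinAt)
    (fun x _ y _ hxy => by simpa using hxy) G
  have himg : (fun ψ : ℝ => 2 * ψ) '' Ioo (-π) π ⊆ Ioo (-(2 * π)) (2 * π) := by
    rintro _ ⟨x, hx, rfl⟩
    exact ⟨by simp only; linarith [hx.1], by simp only; linarith [hx.2]⟩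
  have hshift : ∀ c s t : ℝ, ∫⁻ x in Ioc s t, G (x + c) = ∫⁻ x in Ioc (s + c) (t + c), G x := by
    intro c s t
    have := (measurePreserving_add_right volume c).setLIntegral_comp_preimage_emb
      (MeasurableEquiv.addRight c).measurableEmbedding G (Ioc (s + c) (t + c))
    rw [← this]
    congr 1
    rw [preimage_add_const_Ioc]
    simp
  have hper2 : ∀ x, G (x + -(2 * π)) = G x := fun x => by
    have := hG (x + -(2 * π))
    rw [← this]
    congr 1
    ring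
  have hbig : ∫⁻ x in Ioo (-(2 * π)) (2 * π), G x ≤ 2 * ∫⁻ τ in Ioo (-π) π, G τ := by
    calc ∫⁻ x in Ioo (-(2 * π)) (2 * π), G x
        ≤ ∫⁻ x in (Ioc (-(2 * π)) (-π) ∪ (Ioc (-π) 0 ∪ (Ioc 0 π ∪ Ioc π (2 * π)))), G x := by
          refine lintegral_mono_set fun x hx => ?_
          rcases le_or_gt x (-π) with h | h
          · exact Or.inl ⟨hx.1, h⟩
          rcases le_or_gt x 0 with h' | h'
          · exact Or.inr (Or.inl ⟨h, h'⟩)
          rcases le_or_gt x π with h'' | h''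
          · exact Or.inr (Or.inr (Or.inl ⟨h', h''⟩))
          · exact Or.inr (Or.inr (Or.inr ⟨h'', hx.2.le⟩))
      _ ≤ (∫⁻ x in Ioc (-(2 * π)) (-π), G x) + ((∫⁻ x in Ioc (-π) 0, G x) +
          ((∫⁻ x in Ioc 0 π, G x) + ∫⁻ x in Ioc π (2 * π), G x)) := by
          refine (lintegral_union_le _ _ _).trans (add_le_add le_rfl ?_)
          refine (lintegral_union_le _ _ _).trans (add_le_add le_rfl ?_)
          exact lintegral_union_le _ _ _
      _ = (∫⁻ x in Ioc 0 π, G x) + ((∫⁻ x in Ioc (-π) 0, G x) +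
          ((∫⁻ x in Ioc 0 π, G x) + ∫⁻ x in Ioc (-π) 0, G x)) := by
          congr 1
          · have h := hshift (-(2 * π)) 0 π
            simp only [hper2] at h
            rw [h]
            congr 2
            ring_nf
          · congr 2
            have h := hshift (2 * π) (-π) 0
            have e : ∀ x, G (x + 2 * π) = G x := hG
            simp only [e] at h
            rw [h]
            congr 2
            ring_nf
      _ = 2 * ((∫⁻ x in Ioc (-π) 0, G x) + ∫⁻ x in Ioc 0 π, G x) := by ring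
      _ = 2 * ∫⁻ x in Ioc (-π) π, G x := by
          congr 1
          rw [← lintegral_union measurableSet_Ioc, Ioc_union_Ioc_eq_Ioc (by linarith) (by linarith)]
          rw [Set.disjoint_left]
          intro x hx hx'
          exact absurd hx.2 (not_le.2 hx'.1)
      _ = 2 * ∫⁻ τ in Ioo (-π) π, G τ := by
          congr 1
          exact setLIntegral_congr Ioo_ae_eq_Ioc.symm
  have h2 : 2 * ∫⁻ ψ in Ioo (-π) π, G (2 * ψ) ≤ 2 * ∫⁻ τ in Ioo (-π) π, G τ := by
    rw [← lintegral_const_mul' _ _ (by simp)]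
    have e : ∀ ψ : ℝ, ENNReal.ofReal |(2:ℝ)| * G (2 * ψ) = 2 * G (2 * ψ) := by
      intro ψ
      rw [abs_of_pos (by norm_num)]
      norm_num
    simp only [e] at h1
    rw [← h1]
    exact (lintegral_mono_set himg).trans hbig
  exact (ENNReal.mul_le_mul_iff_right (by norm_num) (by simp)).1 h2

lemma lonM_add (x y : ℝ≥0∞) {p : ℝ} (hp : 1 ≤ p) : (x + y) ^ p ≤ 2 ^ p * (x ^ p + y ^ p) := by
  refine (ENNReal.rpow_add_le_mul_rpow_add_rpow x y hp).trans ?_
  gcongr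
  · norm_num
  · linarith

lemma sph_neg (h : ℝ → ℂ) (ρ ψ z : ℝ) : sph h ρ ψ (-z) = sph h ρ ψ z := by
  unfold sph
  refine integral_congr_ae (Filter.Eventually.of_forall fun φ => ?_)
  simp only
  congr 1
  rw [← integral_Ioc_eq_integral_Ioo, ← integral_Ioc_eq_integral_Ioo,
    ← intervalIntegral.integral_of_le Real.pi_pos.le,
    ← intervalIntegral.integral_of_le Real.pi_pos.le]
  have h1 := intervalIntegral.integral_comp_sub_left (a := 0) (b := π)
    (fun θ => ((Real.sin θ : ℝ) : ℂ) *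
    Complex.exp (((-(2 * π * (ρ * Real.sin θ * Real.cos (φ - ψ) + z * Real.cos θ)) : ℝ) : ℂ)
      * Complex.I)) π
  rw [sub_self, sub_zero] at h1
  rw [← h1]
  refine intervalIntegral.integral_congr fun θ _ => ?_
  rw [Real.sin_pi_sub, Real.cos_pi_sub]
  congr 4
  ring

lemma measurable_Q_param {W : Type*} [MeasurableSpace W] (f : W → ℝ → ℂ)
    (hf : Measurable (Function.uncurry f)) :
    Measurable fun q : W × (ℝ × ℝ) => Q (f q.1) q.2.1 q.2.2 := by
  unfold Q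
  have h1 : Measurable fun x : (W × (ℝ × ℝ)) × ℝ => f x.1.1 x.2 *
      Complex.exp (((-(2 * π * (x.1.2.1 * Real.cos (x.2 - x.1.2.2))) : ℝ) : ℂ) * Complex.I) := by
    have h2 : Measurable fun x : (W × (ℝ × ℝ)) × ℝ => f x.1.1 x.2 :=
      hf.comp (f := fun x : (W × (ℝ × ℝ)) × ℝ => (x.1.1, x.2)) (by fun_prop)
    fun_prop
  exact (h1.stronglyMeasurable.integral_prod_right'
    (ν := (volume : Measure ℝ).restrict (Ioo (-π) π))).measurable

lemma measurable_Q2 {f u : ℝ → ℂ} (hf : Measurable f) (hu : Measurable u) :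
    Measurable fun q : ℝ × (ℝ × ℝ) => Q (fun t => u t * Q f q.1 t) q.2.1 q.2.2 := by
  refine measurable_Q_param (fun b t => u t * Q f b t) ?_
  have h1 := measurable_Q_param (fun (_ : Unit) => f)
    (hf.comp (f := fun q : Unit × ℝ => q.2) measurable_snd)
  have h2 : Measurable fun q : ℝ × ℝ => Q f q.1 q.2 :=
    h1.comp (f := fun q : ℝ × ℝ => ((), q)) (by fun_prop)
  exact (hu.comp measurable_snd).mul h2

lemma measurable_lon {h : ℝ → ℂ} (hm : Measurable h) : Measurable (lon h) := by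
  unfold lon
  have h1 : Measurable fun x : E 3 => (⟨x 0, x 1⟩ : ℂ) := by
    have : Measurable fun x : E 3 => (x 0, x 1) := by fun_prop
    exact Complex.measurableEquivRealProd.symm.measurable.comp this
  exact hm.comp (Complex.measurable_arg.comp h1)

lemma lonM_bound34 (p : ℝ) (hp3 : 3 < p) (hp4 : p < 4) : ∃ C : ℝ≥0∞, C ≠ ∞ ∧
    ∀ h : ℝ → ℂ, Measurable h → (∀ x, ‖h x‖ ≤ 1) → (∀ x, h (x + π) = -h x) →
    ∫⁻ ξ, ‖extn (lon h) ξ‖ₑ ^ p ≤ C := by
  obtain ⟨C, hC, H⟩ := double_Lp p hp3 hp4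
  have hp1 : 1 ≤ p := by linarith
  have hp0 : 0 ≤ p := by linarith
  refine ⟨4 * (C + C), by finiteness, ?_⟩
  intro h hm hb hodd
  have hF : Measurable fun ξ : E 3 => ‖extn (lon h) ξ‖ₑ ^ p :=
    (measurable_extn _ (measurable_lon hm)).enorm.pow_const p
  rw [lintegral_parab _ hF (fun ρ ψ z => by
    rw [extn_lon h hm hb, extn_lon h hm hb, sph_neg])]
  have hu1 : Measurable fun t : ℝ => Complex.exp (((-t : ℝ) : ℂ) * Complex.I) := by fun_prop
  have hu2 : Measurable fun t : ℝ => Complex.exp ((t : ℂ) * Complex.I) := by fun_prop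
  have H1 := H (tw 1 h) _ (measurable_tw 1 hm) hu1 (norm_tw_le 1 hb)
    (fun t => (Complex.norm_exp_ofReal_mul_I _).le)
  have H2 := H (tw (-1) h) _ (measurable_tw (-1) hm) hu2 (norm_tw_le (-1) hb)
    (fun t => (Complex.norm_exp_ofReal_mul_I _).le)
  set Q1 : ℝ → ℝ → ℝ → ℂ := fun b a τ =>
    Q (fun t => Complex.exp (((-t : ℝ) : ℂ) * Complex.I) * Q (tw 1 h) b t) a τ with hQ1
  set Q2 : ℝ → ℝ → ℝ → ℂ := fun b a τ =>
    Q (fun t => Complex.exp ((t : ℂ) * Complex.I) * Q (tw (-1) h) b t) a τ with hQ2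
  have hm1 : Measurable fun q : ℝ × (ℝ × ℝ) => Q1 q.1 q.2.1 q.2.2 :=
    measurable_Q2 (measurable_tw 1 hm) hu1
  have hm2 : Measurable fun q : ℝ × (ℝ × ℝ) => Q2 q.1 q.2.1 q.2.2 :=
    measurable_Q2 (measurable_tw (-1) hm) hu2
  set w : ℝ → ℝ → ℝ := fun b a => (√(a * b) / (a + b)) ^ p * (a + b) with hw
  have hwm : Measurable fun q : ℝ × (ℝ × ℝ) => w q.1 q.2.1 := by
    rw [hw]
    fun_prop
  set G1 : ℝ → ℝ → ℝ → ℝ≥0∞ := fun b a τ => ENNReal.ofReal (w b a) * ‖Q1 b a τ‖ₑ ^ p with hG1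
  set G2 : ℝ → ℝ → ℝ → ℝ≥0∞ := fun b a τ => ENNReal.ofReal (w b a) * ‖Q2 b a τ‖ₑ ^ p with hG2
  have hmG1 : Measurable fun q : ℝ × (ℝ × ℝ) => G1 q.1 q.2.1 q.2.2 :=
    (hwm.ennreal_ofReal).mul (hm1.enorm.pow_const p)
  have hmG2 : Measurable fun q : ℝ × (ℝ × ℝ) => G2 q.1 q.2.1 q.2.2 :=
    (hwm.ennreal_ofReal).mul (hm2.enorm.pow_const p)
  have hpt : ∀ b > 0, ∀ a > b, ∀ ψ : ℝ, ENNReal.ofReal (4 * (a + b)) *
      ‖extn (lon h) (cylpt (2 * √(a * b)) ψ (a - b))‖ₑ ^ p ≤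
      4 * (G1 b a (2 * ψ) + G2 b a (2 * ψ)) := by
    intro b hb' a ha' ψ
    have ha0 : 0 < a := lt_trans hb' ha'
    have hab : 0 < a + b := by linarith
    have hc : 0 ≤ √(a * b) / (a + b) := by positivity
    rw [extn_lon h hm hb, sph_eq h hm hb hodd a b ψ ha0 hb']
    have hc2 : √(a * b) / (2 * (a + b)) = √(a * b) / (a + b) / 2 := by
      field_simp
    have h1 : ‖((√(a * b) / (2 * (a + b)) : ℝ) : ℂ)‖ₑ = ENNReal.ofReal (√(a * b) / (a + b)) / 2 := by
      rw [← ofReal_norm, Complex.norm_real, hc2, Real.norm_of_nonneg (by positivity),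
        ENNReal.ofReal_div_of_pos (by norm_num)]
      norm_num
    have h2 : ‖Complex.exp ((ψ : ℂ) * Complex.I) * Q1 b a (2 * ψ) +
        Complex.exp (((-ψ : ℝ) : ℂ) * Complex.I) * Q2 b a (2 * ψ)‖ₑ ≤
        ‖Q1 b a (2 * ψ)‖ₑ + ‖Q2 b a (2 * ψ)‖ₑ := by
      refine (enorm_add_le _ _).trans (le_of_eq ?_)
      rw [enorm_mul, enorm_mul, enorm_phase, enorm_phase, one_mul, one_mul]
    have h3 : ENNReal.ofReal (4 * (a + b)) = 4 * ENNReal.ofReal (a + b) := by
      rw [ENNReal.ofReal_mul (by norm_num)]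
      norm_num
    calc ENNReal.ofReal (4 * (a + b)) * ‖((√(a * b) / (2 * (a + b)) : ℝ) : ℂ) *
        (Complex.exp ((ψ : ℂ) * Complex.I) * Q1 b a (2 * ψ) +
        Complex.exp (((-ψ : ℝ) : ℂ) * Complex.I) * Q2 b a (2 * ψ))‖ₑ ^ p
        ≤ (4 * ENNReal.ofReal (a + b)) * ((ENNReal.ofReal (√(a * b) / (a + b)) / 2) *
          (‖Q1 b a (2 * ψ)‖ₑ + ‖Q2 b a (2 * ψ)‖ₑ)) ^ p := by
          rw [enorm_mul, h1, h3]
          gcongr
      _ ≤ (4 * ENNReal.ofReal (a + b)) * ((ENNReal.ofReal (√(a * b) / (a + b)) / 2) ^ p *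
          (2 ^ p * (‖Q1 b a (2 * ψ)‖ₑ ^ p + ‖Q2 b a (2 * ψ)‖ₑ ^ p))) := by
          rw [ENNReal.mul_rpow_of_nonneg _ _ hp0]
          gcongr
          exact lonM_add _ _ hp1
      _ = 4 * (G1 b a (2 * ψ) + G2 b a (2 * ψ)) := by
          have h4 : (ENNReal.ofReal (√(a * b) / (a + b)) / 2) ^ p * 2 ^ p =
              ENNReal.ofReal ((√(a * b) / (a + b)) ^ p) := by
            rw [← ENNReal.mul_rpow_of_nonneg _ _ hp0, ENNReal.div_mul_cancel (by norm_num) (by simp),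
              ENNReal.ofReal_rpow_of_nonneg hc hp0]
          have h5 : ENNReal.ofReal (w b a) = ENNReal.ofReal ((√(a * b) / (a + b)) ^ p) *
              ENNReal.ofReal (a + b) := by
            rw [hw]
            simp only
            rw [ENNReal.ofReal_mul (by positivity)]
          rw [hG1, hG2]
          simp only
          rw [h5, ← h4]
          ring
  have hper : ∀ (u H' : ℝ → ℂ) (b a : ℝ), Function.Periodic
      (fun τ => ENNReal.ofReal (w b a) * ‖Q (fun t => u t * Q H' b t) a τ‖ₑ ^ p) (2 * π) := by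
    intro u H' b a τ
    simp only
    rw [Q_periodic]
  calc ∫⁻ b in Ioi (0:ℝ), ∫⁻ a in Ioi b, ∫⁻ ψ in Ioo (-π) π,
      ENNReal.ofReal (4 * (a + b)) * ‖extn (lon h) (cylpt (2 * √(a * b)) ψ (a - b))‖ₑ ^ p
      ≤ ∫⁻ b in Ioi (0:ℝ), ∫⁻ a in Ioi b,
        4 * ((∫⁻ τ in Ioo (-π) π, G1 b a τ) + ∫⁻ τ in Ioo (-π) π, G2 b a τ) := by
        refine setLIntegral_mono' measurableSet_Ioi fun b hb' => ?_
        refine setLIntegral_mono' measurableSet_Ioi fun a ha' => ?_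
        calc ∫⁻ ψ in Ioo (-π) π, ENNReal.ofReal (4 * (a + b)) *
            ‖extn (lon h) (cylpt (2 * √(a * b)) ψ (a - b))‖ₑ ^ p
            ≤ ∫⁻ ψ in Ioo (-π) π, 4 * (G1 b a (2 * ψ) + G2 b a (2 * ψ)) :=
              lintegral_mono fun ψ => hpt b hb' a ha' ψ
          _ = 4 * ((∫⁻ ψ in Ioo (-π) π, G1 b a (2 * ψ)) + ∫⁻ ψ in Ioo (-π) π, G2 b a (2 * ψ)) := by
              rw [lintegral_const_mul' _ _ (by simp), lintegral_add_left]
              exact hmG1.comp (f := fun ψ : ℝ => (b, (a, 2 * ψ))) (by fun_prop)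
          _ ≤ _ := by
              refine mul_le_mul' le_rfl (add_le_add ?_ ?_)
              · exact lonM_half (fun τ => G1 b a τ) (hper _ _ b a)
              · exact lonM_half (fun τ => G2 b a τ) (hper _ _ b a)
    _ = 4 * ((∫⁻ b in Ioi (0:ℝ), ∫⁻ a in Ioi b, ∫⁻ τ in Ioo (-π) π, G1 b a τ) +
        ∫⁻ b in Ioi (0:ℝ), ∫⁻ a in Ioi b, ∫⁻ τ in Ioo (-π) π, G2 b a τ) := by
        have hI1 : Measurable fun q : ℝ × ℝ => ∫⁻ τ in Ioo (-π) π, G1 q.1 q.2 τ := by
          have : Measurable fun q : (ℝ × ℝ) × ℝ => G1 q.1.1 q.1.2 q.2 :=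
            hmG1.comp (f := fun q : (ℝ × ℝ) × ℝ => (q.1.1, (q.1.2, q.2))) (by fun_prop)
          exact this.lintegral_prod_right'
        have hJ1 : Measurable fun b : ℝ => ∫⁻ a in Ioi b, ∫⁻ τ in Ioo (-π) π, G1 b a τ := by
          have e : (fun b : ℝ => ∫⁻ a in Ioi b, ∫⁻ τ in Ioo (-π) π, G1 b a τ) = fun b : ℝ =>
              ∫⁻ a, {q : ℝ × ℝ | q.1 < q.2}.indicator
                (fun q => ∫⁻ τ in Ioo (-π) π, G1 q.1 q.2 τ) (b, a) := by
            funext b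
            rw [← lintegral_indicator measurableSet_Ioi]
            rfl
          rw [e]
          have hs : MeasurableSet {q : ℝ × ℝ | q.1 < q.2} := measurableSet_lt measurable_fst measurable_snd
          exact (hI1.indicator hs).lintegral_prod_right'
        rw [← lintegral_add_left hJ1, ← lintegral_const_mul' _ _ (by simp)]
        refine lintegral_congr fun b => ?_
        have hI1b : Measurable fun a : ℝ => ∫⁻ τ in Ioo (-π) π, G1 b a τ :=
          hI1.comp (f := fun a : ℝ => (b, a)) (by fun_prop)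
        rw [← lintegral_add_left hI1b, ← lintegral_const_mul' _ _ (by simp)]
    _ ≤ 4 * (C + C) := by
        gcongr


/-- The odd functions of the longitude. -/
def oddLon (g : E 3 → ℂ) : Prop :=
  ∃ h : ℝ → ℂ, Measurable h ∧ (∀ x, ‖h x‖ ≤ 1) ∧ (∀ x, h (x + π) = -h x) ∧ g = lon h

lemma enorm_extn_le {n : ℕ} (g : E n → ℂ) (hb : ∀ x, ‖g x‖ ≤ 1) (ξ : E n) :
    ‖extn g ξ‖ₑ ≤ sm n univ := by
  unfold extn
  refine (enorm_integral_le_lintegral_enorm _).trans ?_
  calc ∫⁻ x : S n, ‖g x * Complex.exp (((-(2 * π * inner ℝ (x : E n) ξ) : ℝ) : ℂ) * Complex.I)‖ₑ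
        ∂(sm n) ≤ ∫⁻ _x : S n, 1 ∂(sm n) := by
        refine lintegral_mono fun x => ?_
        rw [enorm_mul, enorm_phase, mul_one, ← ofReal_norm]
        exact ENNReal.ofReal_le_one.2 (hb _)
    _ = sm n univ := by simp

lemma lonM_up {n : ℕ} {p p' : ℝ} (hp' : 0 ≤ p') (hp : p' ≤ p) (cls : (E n → ℂ) → Prop)
    (H : ∃ C : ℝ≥0∞, C ≠ ∞ ∧ ∀ g, Measurable g → (∀ x, ‖g x‖ ≤ 1) → cls g →
      ∫⁻ ξ, ‖extn g ξ‖ₑ ^ p' ≤ C) :
    ∃ C : ℝ≥0∞, C ≠ ∞ ∧ ∀ g, Measurable g → (∀ x, ‖g x‖ ≤ 1) → cls g →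
      ∫⁻ ξ, ‖extn g ξ‖ₑ ^ p ≤ C := by
  obtain ⟨C, hC, H⟩ := H
  refine ⟨sm n univ ^ (p - p') * C, ENNReal.mul_ne_top
    (ENNReal.rpow_ne_top_of_nonneg (by linarith) (sm_univ_ne_top n)) hC, ?_⟩
  intro g hg hb hc
  refine (lintegral_rpow_le_sup _ (measurable_extn g hg).enorm hp' hp _
    (enorm_extn_le g hb)).trans ?_
  gcongr
  exact H g hg hb hc

lemma oddLon_bound (p : ℝ) (hp : 3 < p) : ∃ C : ℝ≥0∞, C ≠ ∞ ∧ ∀ g : E 3 → ℂ, Measurable g →
    (∀ x, ‖g x‖ ≤ 1) → oddLon g → ∫⁻ ξ, ‖extn g ξ‖ₑ ^ p ≤ C := by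
  have key : ∀ p' : ℝ, 3 < p' → p' < 4 → ∃ C : ℝ≥0∞, C ≠ ∞ ∧ ∀ g : E 3 → ℂ, Measurable g →
      (∀ x, ‖g x‖ ≤ 1) → oddLon g → ∫⁻ ξ, ‖extn g ξ‖ₑ ^ p' ≤ C := by
    intro p' h3 h4
    obtain ⟨C, hC, H⟩ := lonM_bound34 p' h3 h4
    refine ⟨C, hC, ?_⟩
    rintro g _ _ ⟨h, hm, hb, hodd, rfl⟩
    exact H h hm hb hodd
  rcases lt_or_ge p 4 with h4 | h4
  · exact key p hp h4
  · exact lonM_up (p' := 7 / 2) (by norm_num) (by linarith) _
      (key (7 / 2) (by norm_num) (by norm_num))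

lemma measurable_hs (c : ℝ) (v : E 3) : Measurable (hs c v) := by
  unfold hs
  refine Measurable.ite ?_ measurable_const measurable_const
  exact measurableSet_lt measurable_const (by fun_prop)

lemma norm_hs_le (c : ℝ) (v x : E 3) : ‖hs c v x‖ ≤ 1 := by
  unfold hs
  split_ifs <;> simp

/-- Odd functions of the longitude times indicators of `N` half spaces. -/
def cutLon : ℕ → (E 3 → ℂ) → Prop
  | 0 => oddLon
  | (N + 1) => fun g => ∃ (g' : E 3 → ℂ) (v : E 3) (c : ℝ), Measurable g' ∧ (∀ x, ‖g' x‖ ≤ 1) ∧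
      cutLon N g' ∧ g = fun x => g' x * hs c v x

lemma cutLon_bound (N : ℕ) : ∀ p : ℝ, 3 < p → ∃ C : ℝ≥0∞, C ≠ ∞ ∧ ∀ g : E 3 → ℂ, Measurable g →
    (∀ x, ‖g x‖ ≤ 1) → cutLon N g → ∫⁻ ξ, ‖extn g ξ‖ₑ ^ p ≤ C := by
  induction N with
  | zero => exact oddLon_bound
  | succ N ih =>
    intro p hp
    obtain ⟨C, hC, H⟩ := cut_bound 0 3 (by norm_num) (cutLon N) ih p hp
    refine ⟨C, hC, ?_⟩
    rintro g - - ⟨g', v, c, hm, hb, hcut, rfl⟩
    refine le_trans (le_of_eq ?_) (H g' hm hb hcut v c)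
    refine lintegral_congr fun ξ => ?_
    congr 2
    congr 1
    funext x
    unfold hs
    split_ifs <;> simp

lemma cutLon_prod (N : ℕ) (h : ℝ → ℂ) (hm : Measurable h) (hb : ∀ x, ‖h x‖ ≤ 1)
    (hodd : ∀ x, h (x + π) = -h x) (v : Fin N → E 3) (c : Fin N → ℝ) :
    cutLon N (fun x => lon h x * ∏ i, hs (c i) (v i) x) := by
  induction N with
  | zero => exact ⟨h, hm, hb, hodd, by funext x; simp⟩
  | succ N ih =>
    refine ⟨fun x => lon h x * ∏ i : Fin N, hs (c i.succ) (v i.succ) x, v 0, c 0, ?_, ?_,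
      ih (fun i => v i.succ) (fun i => c i.succ), ?_⟩
    · refine (measurable_lon hm).mul ?_
      exact Finset.measurable_prod _ fun i _ => measurable_hs _ _
    · intro x
      rw [norm_mul, norm_prod]
      refine mul_le_one₀ (hb _) (Finset.prod_nonneg fun i _ => norm_nonneg _) ?_
      exact Finset.prod_le_one (fun i _ => norm_nonneg _) fun i _ => norm_hs_le _ _ _
    · funext x
      rw [Fin.prod_univ_succ]
      ring


/-- The periodic extension. -/
noncomputable def lonPer (h : ℝ → ℂ) (x : ℝ) : ℂ :=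
  h (Complex.arg (Complex.exp ((x : ℂ) * Complex.I)))

lemma lonPer_periodic (h : ℝ → ℂ) (x : ℝ) : lonPer h (x + π + π) = lonPer h x := by
  unfold lonPer
  congr 2
  have : (((x + π + π : ℝ) : ℂ) * Complex.I) = (x : ℂ) * Complex.I + 2 * π * Complex.I := by
    push_cast
    ring
  rw [this, Complex.exp_add, Complex.exp_two_pi_mul_I, mul_one]

lemma lonPer_eq (h : ℝ → ℂ) {x : ℝ} (hx : x ∈ Ioc (-π) π) : lonPer h x = h x := by
  unfold lonPer
  rw [Complex.arg_exp_mul_I, (toIocMod_eq_self Real.two_pi_pos).2]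
  refine ⟨hx.1, hx.2.trans (by linarith)⟩

lemma measurable_lonPer {h : ℝ → ℂ} (hm : Measurable h) : Measurable (lonPer h) := by
  unfold lonPer
  exact hm.comp (Complex.measurable_arg.comp (by fun_prop))

/-- Odd part of the periodic extension. -/
noncomputable def lonO (h : ℝ → ℂ) (x : ℝ) : ℂ := (lonPer h x - lonPer h (x + π)) / 2

/-- Even part of the periodic extension times the sign of the cosine. -/
noncomputable def lonV (h : ℝ → ℂ) (x : ℝ) : ℂ :=
  (lonPer h x + lonPer h (x + π)) / 2 * ((SignType.sign (Real.cos x) : ℝ) : ℂ)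

lemma lonO_odd (h : ℝ → ℂ) (x : ℝ) : lonO h (x + π) = -lonO h x := by
  unfold lonO
  rw [lonPer_periodic]
  ring

lemma lonV_odd (h : ℝ → ℂ) (x : ℝ) : lonV h (x + π) = -lonV h x := by
  unfold lonV
  rw [lonPer_periodic, Real.cos_add_pi, Left.sign_neg]
  push_cast
  ring

lemma norm_lonPer_le {h : ℝ → ℂ} (hb : ∀ x, ‖h x‖ ≤ 1) (x : ℝ) : ‖lonPer h x‖ ≤ 1 := hb _

lemma norm_lonO_le {h : ℝ → ℂ} (hb : ∀ x, ‖h x‖ ≤ 1) (x : ℝ) : ‖lonO h x‖ ≤ 1 := by
  unfold lonO
  rw [norm_div]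
  have h1 : ‖lonPer h x - lonPer h (x + π)‖ ≤ 1 + 1 :=
    (norm_sub_le _ _).trans (add_le_add (norm_lonPer_le hb _) (norm_lonPer_le hb _))
  have h2 : ‖(2 : ℂ)‖ = 2 := by simp
  rw [h2, div_le_one (by norm_num)]
  linarith

lemma norm_lonV_le {h : ℝ → ℂ} (hb : ∀ x, ‖h x‖ ≤ 1) (x : ℝ) : ‖lonV h x‖ ≤ 1 := by
  unfold lonV
  rw [norm_mul, norm_div]
  have h1 : ‖lonPer h x + lonPer h (x + π)‖ ≤ 1 + 1 :=
    (norm_add_le _ _).trans (add_le_add (norm_lonPer_le hb _) (norm_lonPer_le hb _))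
  have h2 : ‖(2 : ℂ)‖ = 2 := by simp
  refine mul_le_one₀ ?_ (norm_nonneg _) ?_
  · rw [h2, div_le_one (by norm_num)]
    linarith
  · rw [Complex.norm_real, Real.norm_eq_abs]
    rcases lt_trichotomy (Real.cos x) 0 with h | h | h
    · rw [sign_neg h]; simp
    · rw [h]; simp
    · rw [sign_pos h]; simp

lemma measurable_lonO {h : ℝ → ℂ} (hm : Measurable h) : Measurable (lonO h) := by
  unfold lonO
  have h1 := measurable_lonPer hm
  have h2 : Measurable fun x : ℝ => lonPer h (x + π) := h1.comp (by fun_prop)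
  exact (h1.sub h2).div_const 2

lemma measurable_lonV {h : ℝ → ℂ} (hm : Measurable h) : Measurable (lonV h) := by
  unfold lonV
  have h1 := measurable_lonPer hm
  have h2 : Measurable fun x : ℝ => lonPer h (x + π) := h1.comp (by fun_prop)
  have h3 : Measurable fun x : ℝ => (SignType.sign (Real.cos x) : ℝ) := by
    have e : (fun x : ℝ => (SignType.sign (Real.cos x) : ℝ)) = fun x : ℝ =>
        if 0 < Real.cos x then 1 else if Real.cos x < 0 then -1 else 0 := by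
      funext x
      rcases lt_trichotomy (Real.cos x) 0 with h | h | h
      · rw [sign_neg h, if_neg (not_lt.2 h.le), if_pos h]; simp
      · rw [h]; simp
      · rw [sign_pos h, if_pos h]; simp
    rw [e]
    refine Measurable.ite ?_ measurable_const (Measurable.ite ?_ measurable_const measurable_const)
    · exact measurableSet_lt measurable_const (by fun_prop)
    · exact measurableSet_lt (by fun_prop) measurable_const
  exact ((h1.add h2).div_const 2).mul (Complex.measurable_ofReal.comp h3)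

/-- The first basis vector. -/
noncomputable def e0 : E 3 := EuclideanSpace.single 0 1

lemma inner_e0 (x : E 3) : (inner ℝ x e0 : ℝ) = x 0 := by
  simp [e0, EuclideanSpace.inner_single_right]

lemma lon_decomp (h : ℝ → ℂ) (x : E 3) (hx : x 0 ≠ 0) :
    lon h x = lon (lonO h) x + lon (lonV h) x * hs 0 e0 x - lon (lonV h) x * hs 0 (-e0) x := by
  unfold lon
  set w : ℂ := ⟨x 0, x 1⟩ with hw
  have hw0 : w ≠ 0 := by
    intro h0
    apply hx
    have := congrArg Complex.re h0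
    simpa [hw] using this
  have hn : 0 < ‖w‖ := norm_pos_iff.2 hw0
  have hcos : Real.cos w.arg = x 0 / ‖w‖ := Complex.cos_arg hw0
  have hm : w.arg ∈ Ioc (-π) π := Complex.arg_mem_Ioc w
  have hp : lonPer h w.arg = h w.arg := lonPer_eq h hm
  unfold lonO lonV hs
  rw [inner_neg_right, inner_e0, hp]
  rcases lt_or_gt_of_ne hx with hneg | hpos
  · have h1 : Real.cos w.arg < 0 := by
      rw [hcos]
      exact div_neg_of_neg_of_pos hneg hn
    rw [sign_neg h1, if_neg (not_lt.2 hneg.le), if_pos (by linarith)]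
    simp only [SignType.coe_neg_one]
    push_cast
    ring
  · have h1 : 0 < Real.cos w.arg := by
      rw [hcos]
      exact div_pos hpos hn
    rw [sign_pos h1, if_pos hpos, if_neg (by linarith)]
    simp only [SignType.coe_one]
    push_cast
    ring

theorem lon_bound (N : ℕ) (p : ℝ) (hp : 3 < p) : ∃ C : ℝ≥0∞, C ≠ ∞ ∧ ∀ h : ℝ → ℂ, Measurable h →
    (∀ x, ‖h x‖ ≤ 1) → ∀ (v : Fin N → E 3) (c : Fin N → ℝ),
    ∫⁻ ξ, ‖extn (fun x => lon h x * ∏ i, hs (c i) (v i) x) ξ‖ₑ ^ p ≤ C := by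
  obtain ⟨C0, hC0, H0⟩ := cutLon_bound N p hp
  obtain ⟨C1, hC1, H1⟩ := cutLon_bound (N + 1) p hp
  have hp0 : 0 ≤ p := by linarith
  refine ⟨3 ^ p * (C0 + C1 + C1), ?_, ?_⟩
  · refine ENNReal.mul_ne_top (ENNReal.rpow_ne_top_of_nonneg hp0 (by simp)) ?_
    exact ENNReal.add_ne_top.2 ⟨ENNReal.add_ne_top.2 ⟨hC0, hC1⟩, hC1⟩
  intro h hm hb v c
  set cu : E 3 → ℂ := fun x => ∏ i, hs (c i) (v i) x with hcu
  have hcum : Measurable cu := Finset.measurable_prod _ fun i _ => measurable_hs _ _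
  have hcub : ∀ x, ‖cu x‖ ≤ 1 := fun x => by
    rw [hcu]
    simp only
    rw [norm_prod]
    exact Finset.prod_le_one (fun i _ => norm_nonneg _) fun i _ => norm_hs_le _ _ _
  have hmO := measurable_lonO hm
  have hmV := measurable_lonV hm
  have hbO := norm_lonO_le hb
  have hbV := norm_lonV_le hb
  set g0 : E 3 → ℂ := fun x => lon (lonO h) x * cu x with hg0
  set gV : E 3 → ℂ := fun x => lon (lonV h) x * cu x with hgV
  set g1 : E 3 → ℂ := fun x => gV x * hs 0 e0 x with hg1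
  set g2 : E 3 → ℂ := fun x => gV x * hs 0 (-e0) x with hg2
  have hm0 : Measurable g0 := (measurable_lon hmO).mul hcum
  have hmgV : Measurable gV := (measurable_lon hmV).mul hcum
  have hm1 : Measurable g1 := hmgV.mul (measurable_hs _ _)
  have hm2 : Measurable g2 := hmgV.mul (measurable_hs _ _)
  have hb0 : ∀ x, ‖g0 x‖ ≤ 1 := fun x => by
    rw [hg0]; simp only; rw [norm_mul]
    exact mul_le_one₀ (hbO _) (norm_nonneg _) (hcub x)
  have hbgV : ∀ x, ‖gV x‖ ≤ 1 := fun x => by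
    rw [hgV]; simp only; rw [norm_mul]
    exact mul_le_one₀ (hbV _) (norm_nonneg _) (hcub x)
  have hb1 : ∀ x, ‖g1 x‖ ≤ 1 := fun x => by
    rw [hg1]; simp only; rw [norm_mul]
    exact mul_le_one₀ (hbgV _) (norm_nonneg _) (norm_hs_le _ _ _)
  have hb2 : ∀ x, ‖g2 x‖ ≤ 1 := fun x => by
    rw [hg2]; simp only; rw [norm_mul]
    exact mul_le_one₀ (hbgV _) (norm_nonneg _) (norm_hs_le _ _ _)
  have B0 := H0 g0 hm0 hb0 (cutLon_prod N _ hmO hbO (lonO_odd h) v c)
  have hcV : cutLon N gV := cutLon_prod N _ hmV hbV (lonV_odd h) v c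
  have B1 := H1 g1 hm1 hb1 ⟨gV, e0, 0, hmgV, hbgV, hcV, rfl⟩
  have B2 := H1 g2 hm2 hb2 ⟨gV, -e0, 0, hmgV, hbgV, hcV, rfl⟩
  have he : ‖e0‖ = 1 := by simp [e0]
  have hnull := lonG_null 0 e0 he 0
  have hext : ∀ ξ, extn (fun x => lon h x * cu x) ξ = extn g0 ξ + extn g1 ξ - extn g2 ξ := by
    intro ξ
    have hint : ∀ g : E 3 → ℂ, Measurable g → (∀ x, ‖g x‖ ≤ 1) → Integrable (fun x : S 3 => g x *
        Complex.exp (((-(2 * π * inner ℝ (x : E 3) ξ) : ℝ) : ℂ) * Complex.I)) (sm 3) := by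
      intro g hg hb'
      refine Integrable.of_bound (C := 1) ?_ (Filter.Eventually.of_forall fun x => ?_)
      · apply Measurable.aestronglyMeasurable
        have h2 : Measurable fun x : S 3 => (inner ℝ (x : E 3) ξ : ℝ) := by fun_prop
        have h1 : Measurable fun x : S 3 => g (x : E 3) := by fun_prop
        fun_prop
      · rw [norm_mul, norm_phase, mul_one]
        exact hb' _
    unfold extn
    rw [← integral_add (hint g0 hm0 hb0) (hint g1 hm1 hb1)]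
    refine Eq.trans ?_ (integral_sub
      ((hint g0 hm0 hb0).add (hint g1 hm1 hb1)) (hint g2 hm2 hb2))
    refine integral_congr_ae ?_
    filter_upwards [hnull] with x hx
    have hx' : (x : E 3) 0 ≠ 0 := by
      rw [inner_e0] at hx
      exact hx
    simp only [hg0, hg1, hg2, hgV]
    rw [lon_decomp h x hx']
    ring
  have hmE : ∀ g : E 3 → ℂ, Measurable g → Measurable fun ξ => ‖extn g ξ‖ₑ ^ p := fun g hg =>
    (measurable_extn g hg).enorm.pow_const p
  calc ∫⁻ ξ, ‖extn (fun x => lon h x * cu x) ξ‖ₑ ^ p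
      ≤ ∫⁻ ξ, 3 ^ p * (‖extn g0 ξ‖ₑ ^ p + ‖extn g1 ξ‖ₑ ^ p + ‖extn g2 ξ‖ₑ ^ p) := by
        refine lintegral_mono fun ξ => ?_
        simp only
        rw [hext ξ]
        refine le_trans ?_ (add_rpow_le_three hp0)
        gcongr
        refine enorm_sub_le.trans ?_
        gcongr
        exact enorm_add_le _ _
    _ = 3 ^ p * ((∫⁻ ξ, ‖extn g0 ξ‖ₑ ^ p) + (∫⁻ ξ, ‖extn g1 ξ‖ₑ ^ p) +
          ∫⁻ ξ, ‖extn g2 ξ‖ₑ ^ p) := by
        have hm01 : Measurable fun ξ => ‖extn g0 ξ‖ₑ ^ p + ‖extn g1 ξ‖ₑ ^ p :=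
          (hmE g0 hm0).add (hmE g1 hm1)
        rw [lintegral_const_mul' _ _ (ENNReal.rpow_ne_top_of_nonneg hp0 (by simp)),
          lintegral_add_left hm01, lintegral_add_left (hmE g0 hm0)]
    _ ≤ 3 ^ p * (C0 + C1 + C1) := by gcongr

end Pool.Agent.MP_6cbfb8_an
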