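import Pool.Agent.MP_6cbfb8_an.Main
import Pool.Agent.MP_6cbfb8_an.LonMain
import Pool.Agent.MP_6cbfb8_an.LiftE2

namespace Pool.Agent.MP_6cbfb8_an

open MeasureTheory Set
open scoped ENNReal Real RealInnerProductSpace

/-- The indicator function of the half space of all `x` in `R^n` with `⟨x, v⟩ > c`. -/
noncomputable def hsn {n : ℕ} (c : ℝ) (v x : E n) : ℂ := if c < inner ℝ x v then 1 else 0

lemma measurable_hsn {n : ℕ} (c : ℝ) (v : E n) : Measurable (hsn c v) := by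
  unfold hsn
  refine Measurable.ite ?_ measurable_const measurable_const
  exact measurableSet_lt measurable_const (by fun_prop)

lemma norm_hsn_le {n : ℕ} (c : ℝ) (v x : E n) : ‖hsn c v x‖ ≤ 1 := by
  unfold hsn
  split_ifs <;> simp

lemma norm_prod_hsn_le {n N : ℕ} (c : Fin N → ℝ) (v : Fin N → E n) (x : E n) :
    ‖∏ i, hsn (c i) (v i) x‖ ≤ 1 := by
  rw [norm_prod]
  exact Finset.prod_le_one (fun i _ => norm_nonneg _) fun i _ => norm_hsn_le _ _ _

lemma measurable_prod_hsn {n N : ℕ} (c : Fin N → ℝ) (v : Fin N → E n) :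
    Measurable fun x : E n => ∏ i, hsn (c i) (v i) x :=
  Finset.measurable_prod _ fun i _ => measurable_hsn _ _

theorem multicut (n : ℕ) (hn : 3 ≤ n) (p0 : ℝ) (hp0 : 1 ≤ p0) (cls : (E n → ℂ) → Prop)
    (H : ∀ p, p0 < p → ∃ C : ℝ≥0∞, C ≠ ∞ ∧ ∀ g, Measurable g → (∀ x, ‖g x‖ ≤ 1) → cls g →
      ∫⁻ ξ, ‖extn g ξ‖ₑ ^ p ≤ C) (N : ℕ) : ∀ p, p0 < p →
    ∃ C : ℝ≥0∞, C ≠ ∞ ∧ ∀ g, Measurable g → (∀ x, ‖g x‖ ≤ 1) → cls g →
      ∀ (v : Fin N → E n) (c : Fin N → ℝ),
      ∫⁻ ξ, ‖extn (fun x => g x * ∏ i, hsn (c i) (v i) x) ξ‖ₑ ^ p ≤ C := by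
  obtain ⟨j, rfl⟩ : ∃ j, n = j + 3 := ⟨n - 3, by omega⟩
  induction N with
  | zero =>
    intro p hp
    obtain ⟨C, hC, h⟩ := H p hp
    refine ⟨C, hC, fun g hg hb hc v c => ?_⟩
    simpa using h g hg hb hc
  | succ N ih =>
    intro p hp
    obtain ⟨C, hC, h⟩ := cut_bound j p0 hp0 (fun g' => ∃ g, Measurable g ∧ (∀ x, ‖g x‖ ≤ 1) ∧
      cls g ∧ ∃ (v : Fin N → E (j + 3)) (c : Fin N → ℝ),
        g' = fun x => g x * ∏ i, hsn (c i) (v i) x) (by
      intro p' hp'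
      obtain ⟨C, hC, h⟩ := ih p' hp'
      refine ⟨C, hC, ?_⟩
      rintro g' _ _ ⟨g, hg, hb, hc, v, c, rfl⟩
      exact h g hg hb hc v c) p hp
    refine ⟨C, hC, fun g hg hb hc v c => ?_⟩
    have h1 := h (fun x => g x * ∏ i, hsn (c (Fin.castSucc i)) (v (Fin.castSucc i)) x)
      (hg.mul (measurable_prod_hsn _ _)) (fun x => by
        rw [norm_mul]
        exact mul_le_one₀ (hb x) (norm_nonneg _) (norm_prod_hsn_le _ _ x))
      ⟨g, hg, hb, hc, _, _, rfl⟩ (v (Fin.last N)) (c (Fin.last N))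
    refine le_trans (le_of_eq ?_) h1
    refine lintegral_congr fun ξ => ?_
    congr 3
    funext x
    rw [Fin.prod_univ_castSucc]
    unfold hsn
    split_ifs <;> simp

lemma extn_congr_sphere {n : ℕ} {g g' : E n → ℂ} (h : ∀ x, ‖x‖ = 1 → g x = g' x) :
    extn g = extn g' := by
  funext ξ
  unfold extn
  refine integral_congr_ae (Filter.Eventually.of_forall fun x => ?_)
  simp only
  rw [h x (by simp)]

/-- Truncation to the unit sphere. -/
noncomputable def onS {n : ℕ} (g : E n → ℂ) (x : E n) : ℂ := if ‖x‖ = 1 then g x else 0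

lemma onS_eq {n : ℕ} (g : E n → ℂ) {x : E n} (h : ‖x‖ = 1) : onS g x = g x := if_pos h

lemma measurable_onS {n : ℕ} {g : E n → ℂ} (hg : Measurable g) : Measurable (onS g) := by
  unfold onS
  refine Measurable.ite ?_ hg measurable_const
  exact measurableSet_eq_fun (by fun_prop) (by fun_prop)

lemma extn_onS {n : ℕ} (g : E n → ℂ) : extn (onS g) = extn g :=
  extn_congr_sphere fun _ h => onS_eq g h

lemma norm_onS_le {n : ℕ} {g : E n → ℂ} {B : ℝ} (hB : 0 ≤ B) (h : ∀ x, ‖x‖ = 1 → ‖g x‖ ≤ B)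
    (x : E n) : ‖onS g x‖ ≤ B := by
  unfold onS
  split_ifs with h1
  · exact h x h1
  · simpa using hB

lemma measurable_tpow {k : ℕ} (j : ℕ) {G : E (k + 1) → ℂ} (hG : Measurable G) :
    Measurable (tpow j G) := by
  unfold tpow
  refine Measurable.ite ?_ ?_ measurable_const
  · exact measurableSet_lt measurable_const (by fun_prop)
  · have : Measurable fun x : E (k + 1) => (((x (Fin.last k)) ^ j : ℝ) : ℂ) := by fun_prop
    exact hG.mul this

lemma abs_last_le {k : ℕ} (x : E (k + 1)) : |x (Fin.last k)| ≤ ‖x‖ := by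
  have := PiLp.norm_apply_le x (Fin.last k)
  simpa using this

lemma norm_tpow_le {k : ℕ} (j : ℕ) {G : E (k + 1) → ℂ} (hb : ∀ x, ‖G x‖ ≤ 1) (x : E (k + 1))
    (hx : ‖x‖ = 1) : ‖tpow j G x‖ ≤ 1 := by
  unfold tpow
  split_ifs with h
  · rw [norm_mul, Complex.norm_real, Real.norm_eq_abs, abs_pow]
    refine mul_le_one₀ (hb x) (by positivity) (pow_le_one₀ (abs_nonneg _) ?_)
    rw [← hx]
    exact abs_last_le x
  · simp

lemma angEnergy_tpow_le {n : ℕ} (s : ℝ) (j : ℕ) (G : E (n + 1) → ℂ) :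
    angEnergy s (onS (tpow j G)) ≤ angEnergy s G := by
  unfold angEnergy
  refine setLIntegral_mono' measurableSet_Ioo fun θ _ => ?_
  gcongr with ω ω'
  rw [onS_eq _ (norm_pt θ ω), onS_eq _ (norm_pt θ ω')]
  unfold tpow
  rw [pt_last, pt_last]
  split_ifs with h
  · rw [← sub_mul, enorm_mul]
    have : ‖(((Real.cos θ) ^ j : ℝ) : ℂ)‖ₑ ≤ 1 := by
      rw [← ofReal_norm, Complex.norm_real, Real.norm_eq_abs, abs_pow]
      exact ENNReal.ofReal_le_one.2 (pow_le_one₀ (abs_nonneg _) (Real.abs_cos_le_one θ))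
    calc ‖G (pt θ (ω : E n)) - G (pt θ (ω' : E n))‖ₑ * ‖(((Real.cos θ) ^ j : ℝ) : ℂ)‖ₑ
        ≤ ‖G (pt θ (ω : E n)) - G (pt θ (ω' : E n))‖ₑ * 1 := by gcongr
      _ = _ := mul_one _
  · simp

/-- The base estimate for densities with angular regularity. -/
theorem base_ang (κ : ℕ) (hκ : 1 ≤ κ) (s q : ℝ) (hs : 0 < s)
    (hq1 : 2 * ((κ : ℝ) + 2) / (κ + 1) < q) (hq2 : 2 * ((κ : ℝ) + 3) / (κ + 1 + 2 * s) < q)
    (j : ℕ) : ∃ C : ℝ≥0∞, C ≠ ∞ ∧ ∀ G : E (κ + 2) → ℂ, Measurable G → (∀ x, ‖G x‖ ≤ 1) →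
      angEnergy s G ≤ 1 → ∫⁻ ξ, ‖extn (tpow j G) ξ‖ₑ ^ q ≤ C := by
  obtain ⟨C, hC, h⟩ := main (κ + 1) (by omega) s q hs
    (by push_cast; rw [show (κ : ℝ) + 1 + 1 = κ + 2 by ring]; exact hq1)
    (by push_cast; rw [show (κ : ℝ) + 1 + 2 = κ + 3 by ring]; exact hq2)
  refine ⟨C, hC, fun G hG hb hE => ?_⟩
  have := h (onS (tpow j G)) (measurable_onS (measurable_tpow j hG))
    (norm_onS_le zero_le_one fun x hx => norm_tpow_le j hb x hx)
    ((angEnergy_tpow_le s j G).trans hE)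
  rwa [extn_onS] at this



lemma continuous_fstE {k l : ℕ} : Continuous (fstE : E (k + l) → E k) := by
  unfold fstE
  refine (PiLp.continuous_toLp 2 _).comp ?_
  fun_prop

lemma continuous_sndE {k l : ℕ} : Continuous (sndE : E (k + l) → E l) := by
  unfold sndE
  refine (PiLp.continuous_toLp 2 _).comp ?_
  fun_prop

lemma measurable_lift {k l : ℕ} {G : E (k + 1) → ℂ} (hG : Measurable G) :
    Measurable (lift G : E (k + l) → ℂ) := by
  unfold lift
  refine hG.comp ?_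
  exact (continuous_join.comp (continuous_fstE.prodMk continuous_sndE.norm)).measurable

theorem block_base (κ i : ℕ) (hκ : 1 ≤ κ) (s p : ℝ) (hs : 0 < s) (hs1 : s < 1)
    (hp : 2 * ((κ : ℝ) + i + 3) / (κ + i + 2) < p)
    (hps : 2 + 4 * (1 - s) / ((κ : ℝ) + 1 + 2 * s + 2 * (i + 1) * (1 - s)) < p) :
    ∃ C : ℝ≥0∞, C ≠ ∞ ∧ ∀ G : E (κ + 2) → ℂ, Measurable G → (∀ x, ‖G x‖ ≤ 1) →
      angEnergy s G ≤ 1 → ∫⁻ ξ, ‖extn (lift G : E ((κ + 1) + (i + 2)) → ℂ) ξ‖ₑ ^ p ≤ C := by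
  have hκ0 : (0:ℝ) ≤ κ := Nat.cast_nonneg κ
  have hi0 : (0:ℝ) ≤ i := Nat.cast_nonneg i
  have hs2 : 0 < 1 - s := by linarith
  set A : ℝ := 2 * ((κ : ℝ) + 2) / (κ + 1) with hA
  set B : ℝ := 2 * ((κ : ℝ) + 3) / (κ + 1 + 2 * s) with hB
  have hA2 : A - 2 = 2 / (κ + 1) := by rw [hA]; field_simp; ring
  have hB2 : B - 2 = 4 * (1 - s) / (κ + 1 + 2 * s) := by rw [hB]; field_simp; ring
  have hp2 : 2 < p := by
    refine lt_trans ?_ hp
    rw [lt_div_iff₀ (by positivity)]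
    linarith
  have hpp : 0 < p - 2 := by linarith
  have hA3 : 0 < A - 2 := by rw [hA2]; positivity
  have hB3 : 0 < B - 2 := by rw [hB2]; positivity
  refine lifting κ i (max A B) (lt_max_of_lt_left (by linarith)) _ ?_ p hp2 ?_
  · intro j q hq
    exact base_ang κ hκ s q hs ((le_max_left _ _).trans_lt hq) ((le_max_right _ _).trans_lt hq) j
  · rcases max_choice A B with h | h
    · rw [h, hA2, one_div_div]
      have h1 : 2 * ((κ : ℝ) + i + 3) / (κ + i + 2) = 2 + 2 / (κ + i + 2) := by field_simp; ring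
      have h2 : 2 / ((κ:ℝ) + i + 2) < p - 2 := by linarith
      have h3 : 1 / (p - 2) < 1 / (2 / ((κ:ℝ) + i + 2)) := one_div_lt_one_div_of_lt (by positivity) h2
      rw [one_div_div] at h3
      refine h3.trans_le (le_of_eq ?_)
      ring
    · rw [h, hB2, one_div_div]
      have h2 : 4 * (1 - s) / ((κ : ℝ) + 1 + 2 * s + 2 * (i + 1) * (1 - s)) < p - 2 := by linarith
      have h3 := one_div_lt_one_div_of_lt (by positivity) h2
      rw [one_div_div] at h3
      refine h3.trans_le (le_of_eq ?_)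
      field_simp
      ring

/-- The class of block densities. -/
def blockCls (k l : ℕ) (s : ℝ) (g : E (k + l) → ℂ) : Prop :=
  ∃ G : E (k + 1) → ℂ, Measurable G ∧ (∀ x, ‖G x‖ ≤ 1) ∧ angEnergy s G ≤ 1 ∧ g = lift G

theorem block_cuts (k l : ℕ) (hk : 2 ≤ k) (hl : 2 ≤ l) (N : ℕ) (s p : ℝ) (hs : 0 < s) (hs1 : s < 1)
    (hp : 2 * ((k : ℝ) + l) / (k + l - 1) < p)
    (hps : 2 + 4 * (1 - s) / (k + 2 * s + 2 * (l - 1) * (1 - s)) < p) :
    ∃ C : ℝ≥0∞, C ≠ ∞ ∧ ∀ g : E (k + l) → ℂ, Measurable g → (∀ x, ‖g x‖ ≤ 1) →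
      blockCls k l s g → ∀ (v : Fin N → E (k + l)) (c : Fin N → ℝ),
      ∫⁻ ξ, ‖extn (fun x => g x * ∏ i, hsn (c i) (v i) x) ξ‖ₑ ^ p ≤ C := by
  obtain ⟨κ, rfl⟩ : ∃ κ, k = κ + 1 := ⟨k - 1, by omega⟩
  obtain ⟨i, rfl⟩ : ∃ i, l = i + 2 := ⟨l - 2, by omega⟩
  have hκ0 : (0:ℝ) ≤ κ := Nat.cast_nonneg κ
  have hi0 : (0:ℝ) ≤ i := Nat.cast_nonneg i
  push_cast at hp hps
  have e1 : 2 * ((κ : ℝ) + 1 + (i + 2)) / (κ + 1 + (i + 2) - 1) =
      2 * ((κ : ℝ) + i + 3) / (κ + i + 2) := by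
    rw [show (κ : ℝ) + 1 + (i + 2) = κ + i + 3 by ring,
      show (κ : ℝ) + i + 3 - 1 = κ + i + 2 by ring]
  have e2 : (κ : ℝ) + 1 + 2 * s + 2 * (i + 2 - 1) * (1 - s) =
      (κ : ℝ) + 1 + 2 * s + 2 * (i + 1) * (1 - s) := by ring
  rw [e1] at hp
  rw [e2] at hps
  refine multicut _ (by omega) (max (2 * ((κ : ℝ) + i + 3) / (κ + i + 2))
    (2 + 4 * (1 - s) / ((κ : ℝ) + 1 + 2 * s + 2 * (i + 1) * (1 - s)))) ?_ _ ?_ N p (max_lt hp hps)
  · refine le_max_of_le_left ?_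
    rw [le_div_iff₀ (by positivity)]
    linarith
  · intro p' hp'
    obtain ⟨C, hC, h⟩ := block_base κ i (by omega) s p' hs hs1
      ((le_max_left _ _).trans_lt hp') ((le_max_right _ _).trans_lt hp')
    refine ⟨C, hC, ?_⟩
    rintro g _ _ ⟨G, hG, hb, hE, rfl⟩
    exact h G hG hb hE

/-- The measure `m c^(m-1) dc` on `(0,1)`. -/
noncomputable def powν (j : ℕ) : Measure ℝ :=
  (volume.restrict (Ioo (0:ℝ) 1)).withDensity fun c => ENNReal.ofReal (((j : ℝ) + 1) * c ^ j)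

lemma powν_Iio (j : ℕ) {t : ℝ} (h0 : 0 < t) (h1 : t ≤ 1) :
    powν j (Iio t) = ENNReal.ofReal (t ^ (j + 1)) := by
  unfold powν
  rw [withDensity_apply _ measurableSet_Iio, Measure.restrict_restrict measurableSet_Iio]
  have e : Iio t ∩ Ioo (0:ℝ) 1 = Ioo 0 t := by
    ext x
    simp only [mem_inter_iff, mem_Iio, mem_Ioo]
    constructor
    · rintro ⟨h2, h3, h4⟩
      exact ⟨h3, h2⟩
    · rintro ⟨h2, h3⟩
      exact ⟨h3, h2, lt_of_lt_of_le h3 h1⟩
  rw [e, ← ofReal_integral_eq_lintegral_ofReal]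
  · congr 1
    rw [← integral_Ioc_eq_integral_Ioo, ← intervalIntegral.integral_of_le h0.le,
      intervalIntegral.integral_const_mul, integral_pow]
    have : (j:ℝ) + 1 ≠ 0 := by positivity
    field_simp
    simp
  · have hc : Continuous fun c : ℝ => ((j : ℝ) + 1) * c ^ j := by fun_prop
    exact (hc.integrableOn_Icc (a := 0) (b := t)).mono_set Ioo_subset_Icc_self
  · refine (ae_restrict_iff' measurableSet_Ioo).2 (Filter.Eventually.of_forall fun x hx => ?_)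
    have := hx.1
    simp only [Pi.zero_apply]
    positivity

lemma powν_Iio_neg (j : ℕ) {t : ℝ} (h0 : t ≤ 0) : powν j (Iio t) = 0 := by
  unfold powν
  rw [withDensity_apply _ measurableSet_Iio, Measure.restrict_restrict measurableSet_Iio]
  have e : Iio t ∩ Ioo (0:ℝ) 1 = ∅ := by
    ext x
    simp only [mem_inter_iff, mem_Iio, mem_Ioo, mem_empty_iff_false, iff_false]
    rintro ⟨h2, h3, h4⟩
    linarith
  rw [e]
  simp

instance (j : ℕ) : IsFiniteMeasure (powν j) := by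
  unfold powν
  refine isFiniteMeasure_withDensity_ofReal ?_
  have hc : Continuous fun c : ℝ => ((j : ℝ) + 1) * c ^ j := by fun_prop
  exact ((hc.integrableOn_Icc (a := 0) (b := 1)).mono_set Ioo_subset_Icc_self).2

lemma inner_eLast2 (x : E 3) : inner ℝ x (eLast 2) = x (Fin.last 2) := inner_eLast x

/-- The base estimate for functions of the longitude. -/
theorem base_lon (j : ℕ) (q : ℝ) (hq : 3 < q) : ∃ C : ℝ≥0∞, C ≠ ∞ ∧ ∀ h : ℝ → ℂ, Measurable h →
    (∀ x, ‖h x‖ ≤ 1) → ∫⁻ ξ, ‖extn (tpow j (lon h) : E 3 → ℂ) ξ‖ₑ ^ q ≤ C := by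
  obtain ⟨C, hC, H⟩ := lon_bound 1 q hq
  rcases j with _ | j
  · refine ⟨C, hC, fun h hm hb => ?_⟩
    refine le_trans (le_of_eq ?_) (H h hm hb (fun _ => eLast 2) (fun _ => 0))
    refine lintegral_congr fun ξ => ?_
    congr 3
    funext x
    rw [Fin.prod_univ_one]
    unfold tpow hs
    rw [inner_eLast2]
    split_ifs <;> simp
  · refine ⟨C * powν j univ ^ q, ENNReal.mul_ne_top hC
      (ENNReal.rpow_ne_top_of_nonneg (by linarith) (measure_ne_top _ _)), fun h hm hb => ?_⟩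
    have key := lintegral_mix_le (p := q) (C := C) (by linarith)
      (fun g : E 3 → ℂ => ∃ c : ℝ, g = fun x => lon h x * ∏ _i : Fin 1, hs c (eLast 2) x)
      (by
        rintro g _ _ ⟨c, rfl⟩
        exact H h hm hb (fun _ => eLast 2) (fun _ => c))
      (powν j) (fun _ => LinearIsometryEquiv.refl ℝ (E 3)) (fun _ => 0)
      (fun c x => lon h x * ∏ _i : Fin 1, hs c (eLast 2) x)
      measurable_snd measurable_const (by
        have h1 : Measurable fun q : ℝ × E 3 => lon h q.2 := (measurable_lon hm).comp measurable_snd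
        refine h1.mul ?_
        simp only [Fin.prod_univ_one]
        unfold hs
        refine Measurable.ite ?_ measurable_const measurable_const
        exact measurableSet_lt measurable_fst (by fun_prop))
      (fun c x => by
        rw [norm_mul, Fin.prod_univ_one]
        exact mul_le_one₀ (hb _) (norm_nonneg _) (norm_hs_le _ _ _))
      (fun c => ⟨c, rfl⟩)
    refine le_trans (le_of_eq ?_) key
    have : extn (tpow (j + 1) (lon h) : E 3 → ℂ) = extn (mix (powν j)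
        (fun _ => LinearIsometryEquiv.refl ℝ (E 3)) (fun _ => 0)
        (fun c x => lon h x * ∏ _i : Fin 1, hs c (eLast 2) x)) := by
      refine extn_congr_sphere fun x hx => ?_
      unfold mix
      simp only [Fin.prod_univ_one, inner_zero_right, mul_zero, Complex.ofReal_zero, zero_mul,
        Complex.exp_zero, one_mul, LinearIsometryEquiv.coe_refl, id]
      rw [integral_const_mul]
      have e1 : (fun c : ℝ => hs c (eLast 2) x) = (Iio (x (Fin.last 2))).indicator fun _ => (1:ℂ) := by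
        funext c
        unfold hs
        rw [inner_eLast2]
        by_cases h : c < x (Fin.last 2)
        · rw [if_pos h, indicator_of_mem (mem_Iio.2 h)]
        · rw [if_neg h, indicator_of_notMem]
          exact h
      rw [e1, integral_indicator_const _ measurableSet_Iio]
      unfold tpow Measure.real
      split_ifs with h
      · rw [powν_Iio j h ((le_abs_self _).trans ((abs_last_le x).trans hx.le)),
          ENNReal.toReal_ofReal (by positivity)]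
        simp
      · rw [powν_Iio_neg j (not_lt.1 h)]
        simp
    rw [this]

/-- The function on `R^(2+l)` whose value at `x` is `h` of the polar angle in `(-π, π]` of
`(x_1, x_2)`. -/
noncomputable def longi {l : ℕ} (h : ℝ → ℂ) (x : E (2 + l)) : ℂ :=
  h (Complex.arg ⟨x (Fin.castAdd l 0), x (Fin.castAdd l 1)⟩)

lemma lift_lon {l : ℕ} (h : ℝ → ℂ) : (lift (k := 2) (lon h) : E (2 + l) → ℂ) = longi h := by
  funext x
  unfold lift lon longi
  have e0 : (join (fstE x) ‖(sndE x : E l)‖ : E 3) 0 = x (Fin.castAdd l 0) := by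
    simp [join, fstE, Fin.snoc]
  have e1 : (join (fstE x) ‖(sndE x : E l)‖ : E 3) 1 = x (Fin.castAdd l 1) := by
    simp [join, fstE, Fin.snoc]
  rw [e0, e1]

lemma longi_one (h : ℝ → ℂ) : (longi h : E (2 + 1) → ℂ) = lon h := by
  funext x
  rfl

lemma measurable_longi_angle {l : ℕ} : Measurable fun x : E (2 + l) =>
    Complex.arg ⟨x (Fin.castAdd l 0), x (Fin.castAdd l 1)⟩ := by
  have h1 : Measurable fun x : E (2 + l) => (⟨x (Fin.castAdd l 0), x (Fin.castAdd l 1)⟩ : ℂ) := by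
    have : Measurable fun x : E (2 + l) => (x (Fin.castAdd l 0), x (Fin.castAdd l 1)) := by fun_prop
    exact Complex.measurableEquivRealProd.symm.measurable.comp this
  exact Complex.measurable_arg.comp h1

lemma measurable_longi {l : ℕ} {h : ℝ → ℂ} (hm : Measurable h) :
    Measurable (longi h : E (2 + l) → ℂ) :=
  hm.comp measurable_longi_angle

theorem longi_base (l : ℕ) (hl : 1 ≤ l) (p : ℝ) (hp : 2 * ((l : ℝ) + 2) / (l + 1) < p) :
    ∃ C : ℝ≥0∞, C ≠ ∞ ∧ ∀ h : ℝ → ℂ, Measurable h → (∀ x, ‖h x‖ ≤ 1) →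
      ∫⁻ ξ, ‖extn (longi h : E (2 + l) → ℂ) ξ‖ₑ ^ p ≤ C := by
  obtain rfl | hl2 : l = 1 ∨ 2 ≤ l := by omega
  · obtain ⟨C, hC, H⟩ := lon_bound 0 p (by norm_num at hp; exact hp)
    refine ⟨C, hC, fun h hm hb => ?_⟩
    have := H h hm hb Fin.elim0 Fin.elim0
    simpa [longi_one] using this
  · obtain ⟨i, rfl⟩ : ∃ i, l = i + 2 := ⟨l - 2, by omega⟩
    have hi0 : (0:ℝ) ≤ i := Nat.cast_nonneg i
    push_cast at hp
    have hp2 : 2 < p := by
      refine lt_trans ?_ hp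
      rw [lt_div_iff₀ (by positivity)]
      linarith
    obtain ⟨C, hC, H⟩ := lifting 1 i 3 (by norm_num) (fun G => ∃ h : ℝ → ℂ, Measurable h ∧
      (∀ x, ‖h x‖ ≤ 1) ∧ G = lon h) (by
        intro j q hq
        obtain ⟨C, hC, H⟩ := base_lon j q hq
        refine ⟨C, hC, ?_⟩
        rintro G _ _ ⟨h, hm, hb, rfl⟩
        exact H h hm hb) p hp2 (by
        have h1 : 2 * ((i : ℝ) + 2 + 2) / (i + 2 + 1) = 2 + 2 / (i + 3) := by field_simp; ring
        have h2 : 2 / ((i:ℝ) + 3) < p - 2 := by linarith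
        have h3 := one_div_lt_one_div_of_lt (by positivity) h2
        rw [one_div_div] at h3
        refine h3.trans_le (le_of_eq ?_)
        norm_num
        ring)
    refine ⟨C, hC, fun h hm hb => ?_⟩
    have := H (lon h) (measurable_lon hm) (fun x => hb _) ⟨h, hm, hb, rfl⟩
    rw [← lift_lon]
    exact this

theorem longi_bound (l : ℕ) (hl : 1 ≤ l) (N : ℕ) (p : ℝ) (hp : 2 * ((l : ℝ) + 2) / (l + 1) < p) :
    ∃ C : ℝ≥0∞, C ≠ ∞ ∧ ∀ h : ℝ → ℂ, Measurable h → (∀ x, ‖h x‖ ≤ 1) →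
      ∀ (v : Fin N → E (2 + l)) (c : Fin N → ℝ),
      ∫⁻ ξ, ‖extn (fun x => longi h x * ∏ i, hsn (c i) (v i) x) ξ‖ₑ ^ p ≤ C := by
  obtain ⟨C, hC, H⟩ := multicut (2 + l) (by omega) (2 * ((l : ℝ) + 2) / (l + 1)) (by
    rw [le_div_iff₀ (by positivity)]
    have : (0:ℝ) ≤ l := Nat.cast_nonneg l
    linarith) (fun g => ∃ h : ℝ → ℂ, Measurable h ∧ (∀ x, ‖h x‖ ≤ 1) ∧ g = longi h) (by
    intro p' hp'
    obtain ⟨C, hC, H⟩ := longi_base l hl p' hp'
    refine ⟨C, hC, ?_⟩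
    rintro g _ _ ⟨h, hm, hb, rfl⟩
    exact H h hm hb) N p hp
  refine ⟨C, hC, fun h hm hb v c => ?_⟩
  exact H (longi h) (measurable_longi hm) (fun x => hb _) ⟨h, hm, hb, rfl⟩ v c

end Pool.Agent.MP_6cbfb8_an
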