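import Pool.Agent.MP_6cbfb8_an.Aux0

/-!
Repeated integration by parts.
-/

namespace Pool.Agent.MP_6cbfb8_an

open MeasureTheory Set
open scoped ENNReal Real RealInnerProductSpace

/-- Lower bound for the complex sine near a real point. -/
theorem half_sin_le_norm_sin {δ u : ℝ} (hδ : 0 < δ) (hu : u ∈ Icc δ (π - δ)) {w : ℂ}
    (hw : ‖w - u‖ ≤ δ / 2) : Real.sin u / 2 ≤ ‖Complex.sin w‖ := by
  obtain ⟨hu1, hu2⟩ := hu
  have hre : |w.re - u| ≤ δ / 2 := by
    have h := Complex.abs_re_le_norm (w - u)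
    simp only [Complex.sub_re, Complex.ofReal_re] at h
    exact h.trans hw
  rw [abs_le] at hre
  have h1 : Real.sin u / 2 ≤ Real.sin w.re := by
    have hconc : ConcaveOn ℝ (Icc 0 π) Real.sin := strictConcaveOn_sin_Icc.concaveOn
    have hx0 : 0 ≤ w.re := by linarith
    have hxpi : w.re ≤ π := by linarith
    have hsu : 0 ≤ Real.sin u := Real.sin_nonneg_of_nonneg_of_le_pi (by linarith) (by linarith)
    rcases le_total w.re u with h | h
    · -- w.re = t * u with t ∈ [1/2, 1]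
      have hupos : 0 < u := by linarith
      have hm0 : (0:ℝ) ∈ Icc 0 π := ⟨le_rfl, Real.pi_pos.le⟩
      have hmu : u ∈ Icc 0 π := ⟨hupos.le, by linarith⟩
      have ha0 : 0 ≤ 1 - w.re / u := by rw [sub_nonneg, div_le_one hupos]; exact h
      have hb0 : 0 ≤ w.re / u := by positivity
      have key := hconc.2 hm0 hmu ha0 hb0 (by ring)
      simp only [smul_eq_mul, mul_zero, zero_add, Real.sin_zero] at key
      rw [div_mul_cancel₀ _ hupos.ne'] at key
      have ht : 1 / 2 ≤ w.re / u := by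
        rw [div_le_div_iff₀ (by norm_num) hupos]; linarith
      nlinarith
    · have hupos : 0 < π - u := by linarith
      have hm0 : π ∈ Icc 0 π := ⟨Real.pi_pos.le, le_rfl⟩
      have hmu : u ∈ Icc 0 π := ⟨by linarith, by linarith⟩
      have ha0 : 0 ≤ 1 - (π - w.re) / (π - u) := by
        rw [sub_nonneg, div_le_one hupos]; linarith
      have hb0 : 0 ≤ (π - w.re) / (π - u) := div_nonneg (by linarith) hupos.le
      have key := hconc.2 hm0 hmu ha0 hb0 (by ring)
      simp only [smul_eq_mul, Real.sin_pi, mul_zero, zero_add] at key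
      have hx : (1 - (π - w.re) / (π - u)) * π + (π - w.re) / (π - u) * u = w.re := by
        field_simp
        ring
      rw [hx] at key
      have ht : 1 / 2 ≤ (π - w.re) / (π - u) := by
        rw [div_le_div_iff₀ (by norm_num) hupos]; linarith
      nlinarith
  have h2 : Real.sin w.re ≤ ‖Complex.sin w‖ := by
    have h3 : (Complex.sin w).re = Real.sin w.re * Real.cosh w.im := by
      rw [Complex.sin_eq]
      simp [Complex.sin_ofReal_re, Complex.cosh_ofReal_re]
    have h4 : Real.sin w.re ≤ Real.sin w.re * Real.cosh w.im := by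
      have hs : 0 ≤ Real.sin w.re :=
        Real.sin_nonneg_of_nonneg_of_le_pi (by linarith) (by linarith)
      nlinarith [Real.one_le_cosh w.im]
    calc Real.sin w.re ≤ (Complex.sin w).re := by rw [h3]; exact h4
      _ ≤ |(Complex.sin w).re| := le_abs_self _
      _ ≤ _ := Complex.abs_re_le_norm _
  exact h1.trans h2

/-- The set where the complex sine does not vanish. -/
def sinU : Set ℂ := {w : ℂ | Complex.sin w ≠ 0}

theorem isOpen_sinU : IsOpen sinU :=
  isOpen_ne_fun Complex.continuous_sin continuous_const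

theorem itd_differentiableOn {a : ℂ → ℂ} (ha : Differentiable ℂ a) (k : ℕ) :
    DifferentiableOn ℂ (itd a k) sinU := by
  induction k with
  | zero => exact ha.differentiableOn
  | succ k ih =>
    have h : DifferentiableOn ℂ (fun w => itd a k w / Complex.sin w) sinU :=
      ih.div Complex.differentiable_sin.differentiableOn (fun w hw => hw)
    exact h.deriv isOpen_sinU

theorem itd_hasDerivAt {a : ℂ → ℂ} (ha : Differentiable ℂ a) (k : ℕ) {w : ℂ} (hw : w ∈ sinU) :
    HasDerivAt (fun w => itd a k w / Complex.sin w) (itd a (k + 1) w) w := by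
  have h : DifferentiableOn ℂ (fun w => itd a k w / Complex.sin w) sinU :=
    (itd_differentiableOn ha k).div Complex.differentiable_sin.differentiableOn (fun w hw => hw)
  exact ((h w hw).differentiableAt (isOpen_sinU.mem_nhds hw)).hasDerivAt

theorem sin_pos_Icc {δ u : ℝ} (hδ : 0 < δ) (hu : u ∈ Icc δ (π - δ)) : 0 < Real.sin u :=
  Real.sin_pos_of_pos_of_lt_pi (by linarith [hu.1]) (by linarith [hu.2])

theorem mem_sinU_of_near {δ u : ℝ} (hδ : 0 < δ) (hu : u ∈ Icc δ (π - δ)) {w : ℂ}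
    (hw : ‖w - u‖ ≤ δ / 2) : w ∈ sinU := by
  have h1 := half_sin_le_norm_sin hδ hu hw
  have h2 := sin_pos_Icc hδ hu
  intro h3
  rw [h3, norm_zero] at h1
  linarith

/-- Cauchy estimates for the iterated adjoint derivatives. -/
theorem itd_bound (M : ℕ) {δ u : ℝ} (hδ : 0 < δ) (hu : u ∈ Icc δ (π - δ)) {a : ℂ → ℂ}
    (ha : Differentiable ℂ a) {L : ℝ} (hL : ∀ w : ℂ, ‖w - u‖ ≤ δ / 2 → ‖a w‖ ≤ L) (k : ℕ)
    (hk : k ≤ M + 1) (w : ℂ) (hw : ‖w - u‖ ≤ δ / 2 * (1 - k / (M + 1))) :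
    ‖itd a k w‖ ≤ (4 * (M + 1)) ^ k * L / (δ * Real.sin u) ^ k := by
  induction k generalizing w with
  | zero =>
    simp only [pow_zero, one_mul, div_one]
    apply hL
    simpa using hw
  | succ k ih =>
    have hsin := sin_pos_Icc hδ hu
    have hMpos : (0:ℝ) < M + 1 := by positivity
    set r : ℝ := δ / (2 * (M + 1)) with hr
    have hrpos : 0 < r := by positivity
    have hk' : (k:ℝ) + 1 ≤ M + 1 := by exact_mod_cast hk
    have hnear : ∀ z : ℂ, ‖z - w‖ ≤ r → ‖z - u‖ ≤ δ / 2 * (1 - k / (M + 1)) := by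
      intro z hz
      have h1 : ‖z - u‖ ≤ ‖z - w‖ + ‖w - u‖ := by
        have := norm_add_le (z - w) (w - u)
        simpa using this
      have h2 : δ / 2 * (1 - k / (M + 1)) = r + δ / 2 * (1 - ((k + 1 : ℕ) : ℝ) / (M + 1)) := by
        rw [hr]; push_cast; field_simp; ring
      rw [h2]
      linarith
    have hnear2 : ∀ z : ℂ, ‖z - w‖ ≤ r → ‖z - u‖ ≤ δ / 2 := by
      intro z hz
      refine (hnear z hz).trans ?_
      have : 0 ≤ (k:ℝ) / (M + 1) := by positivity
      nlinarith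
    have hdiff : DiffContOnCl ℂ (fun w => itd a k w / Complex.sin w) (Metric.ball w r) := by
      refine DifferentiableOn.diffContOnCl_ball (U := sinU) ?_ ?_
      · exact (itd_differentiableOn ha k).div Complex.differentiable_sin.differentiableOn
          (fun w hw => hw)
      · intro z hz
        rw [Metric.mem_closedBall, dist_eq_norm] at hz
        exact mem_sinU_of_near hδ hu (hnear2 z hz)
    have hC : ∀ z ∈ Metric.sphere w r, ‖itd a k z / Complex.sin z‖ ≤
        ((4 * (M + 1)) ^ k * L / (δ * Real.sin u) ^ k) / (Real.sin u / 2) := by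
      intro z hz
      rw [mem_sphere_iff_norm] at hz
      rw [norm_div]
      have h1 := ih (by omega) z (hnear z hz.le)
      have h2 := half_sin_le_norm_sin hδ hu (hnear2 z hz.le)
      exact div_le_div₀ ((norm_nonneg _).trans h1) h1 (by linarith) h2
    have hfin := Complex.norm_deriv_le_of_forall_mem_sphere_norm_le hrpos hdiff hC
    have heq : ((4 * ((M:ℝ) + 1)) ^ k * L / (δ * Real.sin u) ^ k) / (Real.sin u / 2) / r =
        (4 * (M + 1)) ^ (k + 1) * L / (δ * Real.sin u) ^ (k + 1) := by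
      rw [hr]; field_simp; ring
    rw [heq] at hfin
    exact hfin

theorem ibp_step {δ ρ : ℝ} (hδ : 0 < δ) (hδ1 : δ ≤ 1) {a : ℂ → ℂ}
    (ha : Differentiable ℂ a) (H : ℕ → ℝ → ℂ) (hHc : ∀ k, Continuous (H k)) (k : ℕ)
    (hH : ∀ u ∈ Icc δ (π - δ), HasDerivAt (H (k + 1))
      (((2 * π * ρ * Real.sin u : ℝ) : ℂ) * Complex.I * H k u) u) :
    (((2 * π * ρ : ℝ) : ℂ) * Complex.I) * ∫ u in δ..(π - δ), itd a k u * H k u =
      itd a k ((π - δ : ℝ) : ℂ) / Complex.sin ((π - δ : ℝ) : ℂ) * H (k + 1) (π - δ) -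
      itd a k (δ : ℂ) / Complex.sin (δ : ℂ) * H (k + 1) δ -
      ∫ u in δ..(π - δ), itd a (k + 1) u * H (k + 1) u := by
  have hle : δ ≤ π - δ := by linarith [Real.pi_gt_three]
  have hmem : ∀ x ∈ uIcc δ (π - δ), x ∈ Icc δ (π - δ) := by
    intro x hx; rwa [uIcc_of_le hle] at hx
  have hU : ∀ x ∈ uIcc δ (π - δ), (x : ℂ) ∈ sinU := by
    intro x hx
    exact mem_sinU_of_near hδ (hmem x hx) (by simp; positivity)
  have hcont : ∀ m, ContinuousOn (fun x : ℝ => itd a m (x : ℂ)) (uIcc δ (π - δ)) := by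
    intro m
    exact (itd_differentiableOn ha m).continuousOn.comp
      Complex.continuous_ofReal.continuousOn (fun x hx => hU x hx)
  have hibp := intervalIntegral.integral_mul_deriv_eq_deriv_mul
    (a := δ) (b := π - δ)
    (u := fun x : ℝ => itd a k (x : ℂ) / Complex.sin (x : ℂ))
    (v := H (k + 1))
    (u' := fun x : ℝ => itd a (k + 1) (x : ℂ))
    (v' := fun u : ℝ => ((2 * π * ρ * Real.sin u : ℝ) : ℂ) * Complex.I * H k u)
    (fun x hx => (itd_hasDerivAt ha k (hU x hx)).comp_ofReal)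
    (fun x hx => hH x (hmem x hx))
    ((hcont (k + 1)).intervalIntegrable)
    ((Continuous.continuousOn (by
      have := hHc k
      fun_prop)).intervalIntegrable)
  rw [← intervalIntegral.integral_const_mul]
  refine Eq.trans ?_ hibp
  apply intervalIntegral.integral_congr
  intro x hx
  have h1 : Complex.sin (x : ℂ) ≠ 0 := hU x hx
  simp only
  push_cast
  field_simp

theorem half_le_sin {δ : ℝ} (hδ : 0 < δ) (hδ1 : δ ≤ 1) : δ / 2 ≤ Real.sin δ := by
  have h1 : 2 / π * δ ≤ Real.sin δ :=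
    Real.mul_le_sin hδ.le (by linarith [Real.pi_gt_three])
  have h2 : (1:ℝ) / 2 ≤ 2 / π := by
    rw [div_le_div_iff₀ (by norm_num) Real.pi_pos]
    linarith [Real.pi_le_four]
  nlinarith

/-- Size of one boundary term. -/
theorem boundary_bound (M k : ℕ) (hk : k ≤ M) {δ ρ x : ℝ} (hδ : 0 < δ) (hδ1 : δ ≤ 1)
    (hρ : 1 / δ ^ 2 ≤ ρ) (hx : x ∈ Icc δ (π - δ)) (hsx : Real.sin x = Real.sin δ)
    {a : ℂ → ℂ} (ha : Differentiable ℂ a) {L : ℝ}
    (hL : ∀ w : ℂ, ‖w - x‖ ≤ δ / 2 → ‖a w‖ ≤ L) :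
    ‖itd a k (x : ℂ) / Complex.sin (x : ℂ)‖ / (2 * π * ρ) ^ (k + 1) ≤
      2 * (8 * (M + 1)) ^ M * (δ * L) := by
  have hL0 : 0 ≤ L := (norm_nonneg _).trans (hL x (by simp; positivity))
  have h1 := itd_bound M hδ hx ha hL k (by omega) x (by
    simp only [sub_self, norm_zero]
    have : (k:ℝ) / (M + 1) ≤ 1 := by
      rw [div_le_one (by positivity)]
      have : (k:ℝ) ≤ M := by exact_mod_cast hk
      linarith
    nlinarith)
  have hsin : 0 < Real.sin δ := by rw [← hsx]; exact sin_pos_Icc hδ hx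
  rw [hsx] at h1
  have hns : ‖Complex.sin (x : ℂ)‖ = Real.sin δ := by
    rw [← Complex.ofReal_sin, Complex.norm_real, Real.norm_eq_abs, hsx, abs_of_pos hsin]
  rw [norm_div, hns]
  have hρ1 : 1 / δ ^ 2 ≤ 2 * π * ρ := by
    have hρ0 : 0 < ρ := lt_of_lt_of_le (by positivity) hρ
    nlinarith [Real.pi_gt_three]
  have h2 : (1 / δ ^ 2) ^ (k + 1) ≤ (2 * π * ρ) ^ (k + 1) :=
    pow_le_pow_left₀ (by positivity) hρ1 _
  have h3 : (δ * (δ / 2)) ^ k ≤ (δ * Real.sin δ) ^ k :=
    pow_le_pow_left₀ (by positivity) (by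
      apply mul_le_mul_of_nonneg_left (half_le_sin hδ hδ1) hδ.le) _
  have h4 : ‖itd a k (x : ℂ)‖ ≤ (4 * (M + 1)) ^ k * L / (δ * (δ / 2)) ^ k :=
    h1.trans (div_le_div_of_nonneg_left (by positivity) (by positivity) h3)
  calc ‖itd a k (x : ℂ)‖ / Real.sin δ / (2 * π * ρ) ^ (k + 1)
      ≤ ((4 * (M + 1)) ^ k * L / (δ * (δ / 2)) ^ k) / (δ / 2) / (1 / δ ^ 2) ^ (k + 1) := by
        apply div_le_div₀ _ _ (by positivity) h2
        · positivity
        · exact div_le_div₀ (by positivity) h4 (by positivity) (half_le_sin hδ hδ1)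
    _ = 2 * (8 * (M + 1)) ^ k * (δ * L) := by
        have h8 : (8 * ((M:ℝ) + 1)) ^ k = (4 * (M + 1)) ^ k * 2 ^ k := by
          rw [← mul_pow]; ring_nf
        have e1 : (δ * (δ / 2)) ^ k = δ ^ k * δ ^ k / 2 ^ k := by
          rw [mul_pow, div_pow, mul_div_assoc]
        have e2 : (1 / δ ^ 2) ^ (k + 1) = 1 / (δ ^ k * δ ^ k * δ ^ 2) := by
          rw [one_div, inv_pow, ← pow_mul, one_div]
          congr 1
          ring
        rw [h8, e1, e2]
        have hk0 : δ ^ k ≠ 0 := by positivity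
        field_simp
    _ ≤ 2 * (8 * (M + 1)) ^ M * (δ * L) := by
        apply mul_le_mul_of_nonneg_right _ (by positivity)
        apply mul_le_mul_of_nonneg_left _ (by norm_num)
        apply pow_le_pow_right₀ _ hk
        have : (0:ℝ) ≤ M := by positivity
        linarith

theorem iterate_bound {T B : ℕ → ℝ} {x : ℝ} (hx : 0 < x) (M : ℕ)
    (h : ∀ k < M, x * T k ≤ B k + T (k + 1)) :
    T 0 ≤ ∑ k ∈ Finset.range M, B k / x ^ (k + 1) + T M / x ^ M := by
  induction M with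
  | zero => simp
  | succ M ih =>
    have h1 := ih (fun k hk => h k (by omega))
    have h2 := h M (by omega)
    rw [Finset.sum_range_succ]
    have h3 : T M / x ^ M ≤ B M / x ^ (M + 1) + T (M + 1) / x ^ (M + 1) := by
      rw [← add_div, div_le_div_iff₀ (by positivity) (by positivity)]
      rw [pow_succ]
      nlinarith [pow_pos hx M]
    linarith

theorem far_bound (M : ℕ) : ∃ C : ℝ, 0 < C ∧ ∀ δ : ℝ, 0 < δ → δ ≤ 1 → ∀ a : ℂ → ℂ,
    Differentiable ℂ a → ∀ Λ : ℝ → ℝ, ContinuousOn Λ (Icc δ (π - δ)) →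
    (∀ u ∈ Icc δ (π - δ), ∀ w : ℂ, ‖w - u‖ ≤ δ / 2 → ‖a w‖ ≤ Λ u) →
    ∀ ρ : ℝ, 1 / δ ^ 2 ≤ ρ → ∀ H : ℕ → ℝ → ℂ, (∀ k, Continuous (H k)) →
    (∀ k < M, ∀ u ∈ Icc δ (π - δ), HasDerivAt (H (k + 1))
      (((2 * π * ρ * Real.sin u : ℝ) : ℂ) * Complex.I * H k u) u) →
    ‖∫ u in δ..(π - δ), a u * H 0 u‖ ≤
      C * (δ * (∑ k ∈ Finset.range M, (Λ δ * ‖H (k + 1) δ‖ + Λ (π - δ) * ‖H (k + 1) (π - δ)‖))
        + δ ^ M * ∫ u in δ..(π - δ), Λ u / Real.sin u ^ M * ‖H M u‖) := by
  refine ⟨2 * (8 * (M + 1)) ^ M, by positivity, ?_⟩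
  intro δ hδ hδ1 a ha Λ hΛc hΛ ρ hρ H hHc hH
  have hle : δ ≤ π - δ := by linarith [Real.pi_gt_three]
  have hρ0 : 0 < ρ := lt_of_lt_of_le (by positivity) hρ
  have hx0 : 0 < 2 * π * ρ := by positivity
  have hδmem : δ ∈ Icc δ (π - δ) := ⟨le_rfl, hle⟩
  have hpmem : π - δ ∈ Icc δ (π - δ) := ⟨hle, le_rfl⟩
  set C : ℝ := 2 * (8 * (M + 1)) ^ M with hC
  have hsp : Real.sin (π - δ) = Real.sin δ := Real.sin_pi_sub δ
  -- iteration
  have hstep : ∀ k < M, (2 * π * ρ) * ‖∫ u in δ..(π - δ), itd a k u * H k u‖ ≤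
      (‖itd a k ((π - δ : ℝ) : ℂ) / Complex.sin ((π - δ : ℝ) : ℂ)‖ * ‖H (k + 1) (π - δ)‖ +
        ‖itd a k (δ : ℂ) / Complex.sin (δ : ℂ)‖ * ‖H (k + 1) δ‖) +
      ‖∫ u in δ..(π - δ), itd a (k + 1) u * H (k + 1) u‖ := by
    intro k hk
    have h1 := ibp_step hδ hδ1 ha H hHc k (hH k hk)
    have h2 : (2 * π * ρ) * ‖∫ u in δ..(π - δ), itd a k u * H k u‖ =
        ‖(((2 * π * ρ : ℝ) : ℂ) * Complex.I) * ∫ u in δ..(π - δ), itd a k u * H k u‖ := by
      rw [norm_mul, norm_mul, Complex.norm_I, mul_one, Complex.norm_real, Real.norm_eq_abs,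
        abs_of_pos hx0]
    rw [h2, h1]
    refine (norm_sub_le _ _).trans ?_
    refine add_le_add ((norm_sub_le _ _).trans ?_) le_rfl
    rw [norm_mul, norm_mul]
  have hit := iterate_bound hx0 M hstep
  have h0 : (∫ u in δ..(π - δ), a u * H 0 u) = ∫ u in δ..(π - δ), itd a 0 u * H 0 u := rfl
  rw [h0]
  refine hit.trans ?_
  rw [mul_add]
  refine add_le_add ?_ ?_
  · rw [← mul_assoc, Finset.mul_sum]
    apply Finset.sum_le_sum
    intro k hk
    have hkM : k ≤ M := (Finset.mem_range.mp hk).le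
    have b1 := boundary_bound M k hkM hδ hδ1 hρ hδmem rfl ha (hΛ δ hδmem)
    have b2 := boundary_bound M k hkM hδ hδ1 hρ hpmem hsp ha (hΛ (π - δ) hpmem)
    rw [← hC] at b1 b2
    calc (‖itd a k ((π - δ : ℝ) : ℂ) / Complex.sin ((π - δ : ℝ) : ℂ)‖ * ‖H (k + 1) (π - δ)‖ +
          ‖itd a k (δ : ℂ) / Complex.sin (δ : ℂ)‖ * ‖H (k + 1) δ‖) / (2 * π * ρ) ^ (k + 1)
        = ‖itd a k ((π - δ : ℝ) : ℂ) / Complex.sin ((π - δ : ℝ) : ℂ)‖ / (2 * π * ρ) ^ (k + 1)
            * ‖H (k + 1) (π - δ)‖ +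
          ‖itd a k (δ : ℂ) / Complex.sin (δ : ℂ)‖ / (2 * π * ρ) ^ (k + 1) * ‖H (k + 1) δ‖ := by
          ring
      _ ≤ C * (δ * Λ (π - δ)) * ‖H (k + 1) (π - δ)‖ + C * (δ * Λ δ) * ‖H (k + 1) δ‖ :=
          add_le_add (mul_le_mul_of_nonneg_right b2 (norm_nonneg _))
            (mul_le_mul_of_nonneg_right b1 (norm_nonneg _))
      _ = C * δ * (Λ δ * ‖H (k + 1) δ‖ + Λ (π - δ) * ‖H (k + 1) (π - δ)‖) := by ring
  · -- the last integral
    have hsinne : ∀ u ∈ Icc δ (π - δ), Real.sin u ≠ 0 := fun u hu => (sin_pos_Icc hδ hu).ne'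
    have hgc : ContinuousOn (fun u => Λ u / Real.sin u ^ M * ‖H M u‖) (Icc δ (π - δ)) := by
      apply ContinuousOn.mul
      · exact hΛc.div (Real.continuous_sin.continuousOn.pow M)
          (fun u hu => pow_ne_zero _ (hsinne u hu))
      · exact (hHc M).norm.continuousOn
    have hbound : ‖∫ u in δ..(π - δ), itd a M u * H M u‖ ≤
        ∫ u in δ..(π - δ), ((4 * (M + 1)) ^ M / δ ^ M) * (Λ u / Real.sin u ^ M * ‖H M u‖) := by
      apply intervalIntegral.norm_integral_le_of_norm_le hle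
      · refine Filter.Eventually.of_forall ?_
        intro u hu
        have hu' : u ∈ Icc δ (π - δ) := ⟨hu.1.le, hu.2⟩
        rw [norm_mul]
        have h1 := itd_bound M hδ hu' ha (hΛ u hu') M (by omega) u (by
          simp only [sub_self, norm_zero]
          have : (M:ℝ) / (M + 1) ≤ 1 := by
            rw [div_le_one (by positivity)]
            linarith
          nlinarith)
        calc ‖itd a M u‖ * ‖H M u‖
            ≤ ((4 * (M + 1)) ^ M * Λ u / (δ * Real.sin u) ^ M) * ‖H M u‖ :=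
              mul_le_mul_of_nonneg_right h1 (norm_nonneg _)
          _ = _ := by
              have := hsinne u hu'
              rw [mul_pow δ]
              field_simp
      · have : ContinuousOn (fun u => ((4 * ((M:ℝ) + 1)) ^ M / δ ^ M) *
            (Λ u / Real.sin u ^ M * ‖H M u‖)) (uIcc δ (π - δ)) := by
          rw [uIcc_of_le hle]
          exact continuousOn_const.mul hgc
        exact this.intervalIntegrable
    rw [intervalIntegral.integral_const_mul] at hbound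
    have hI0 : 0 ≤ ∫ u in δ..(π - δ), Λ u / Real.sin u ^ M * ‖H M u‖ := by
      apply intervalIntegral.integral_nonneg hle
      intro u hu
      have hs := sin_pos_Icc hδ hu
      have hL0 : 0 ≤ Λ u := (norm_nonneg _).trans (hΛ u hu u (by simp; positivity))
      positivity
    set I := ∫ u in δ..(π - δ), Λ u / Real.sin u ^ M * ‖H M u‖ with hI
    have hρ1 : 1 / δ ^ 2 ≤ 2 * π * ρ := by nlinarith [Real.pi_gt_three]
    have h2 : (1 / δ ^ 2) ^ M ≤ (2 * π * ρ) ^ M := pow_le_pow_left₀ (by positivity) hρ1 _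
    calc ‖∫ u in δ..(π - δ), itd a M u * H M u‖ / (2 * π * ρ) ^ M
        ≤ ((4 * (M + 1)) ^ M / δ ^ M * I) / (1 / δ ^ 2) ^ M :=
          div_le_div₀ (by positivity) hbound (by positivity) h2
      _ = (4 * (M + 1)) ^ M * (δ ^ M * I) := by
          have e2 : (1 / δ ^ 2) ^ M = 1 / (δ ^ M * δ ^ M) := by
            rw [one_div, inv_pow, ← pow_mul, one_div]
            congr 1
            ring
          rw [e2]
          have hk0 : δ ^ M ≠ 0 := by positivity
          field_simp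
      _ ≤ C * (δ ^ M * I) := by
          apply mul_le_mul_of_nonneg_right _ (by positivity)
          rw [hC]
          have h5 : (4 * ((M:ℝ) + 1)) ^ M ≤ (8 * (M + 1)) ^ M := by
            apply pow_le_pow_left₀ (by positivity)
            have : (0:ℝ) ≤ M := by positivity
            linarith
          have h6 : (0:ℝ) ≤ (8 * ((M:ℝ) + 1)) ^ M := by positivity
          linarith

end Pool.Agent.MP_6cbfb8_an
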