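import Pool.Agent.MP_6cbfb8_an.Aux0
import Pool.Agent.MP_6cbfb8_an.Sphere
import Pool.Agent.MP_6cbfb8_an.FarBound

namespace Pool.Agent.MP_6cbfb8_an

open MeasureTheory Set
open scoped ENNReal Real RealInnerProductSpace

/-! ## decay of the Fourier transform of the surface measure -/

namespace DecayAux

/-- the character -/
noncomputable def ch (t : ℝ) : ℂ := Complex.exp (((-(2 * π * t) : ℝ) : ℂ) * Complex.I)

theorem norm_ch (t : ℝ) : ‖ch t‖ = 1 := Complex.norm_exp_ofReal_mul_I _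

theorem continuous_ch : Continuous ch := by
  unfold ch; fun_prop

theorem ch_add (s t : ℝ) : ch (s + t) = ch s * ch t := by
  unfold ch
  rw [← Complex.exp_add]
  congr 1
  push_cast
  ring

theorem ch_neg (t : ℝ) : ch (-t) = (starRingEnd ℂ) (ch t) := by
  unfold ch
  rw [← Complex.exp_conj]
  congr 1
  rw [map_mul, Complex.conj_ofReal, Complex.conj_I]
  push_cast
  ring

theorem ch_sub (s t : ℝ) : ch (s - t) = ch s * (starRingEnd ℂ) (ch t) := by
  rw [sub_eq_add_neg, ch_add, ch_neg]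

theorem extn_eq {n : ℕ} (g : E n → ℂ) (ξ : E n) :
    extn g ξ = ∫ x : S n, g x * ch (inner ℝ (x : E n) ξ) ∂(sm n) := rfl

theorem inner_join {n : ℕ} (x y : E n) (s t : ℝ) :
    inner ℝ (join x s) (join y t) = inner ℝ x y + s * t := by
  unfold join
  rw [PiLp.inner_apply, PiLp.inner_apply, Fin.sum_univ_castSucc]
  simp [mul_comm]

theorem norm_join_zero_one {n : ℕ} : ‖(join (0 : E n) 1)‖ = 1 := by
  have h : inner ℝ (join (0 : E n) 1) (join (0 : E n) 1) = (1:ℝ) := by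
    rw [inner_join]; simp
  rw [real_inner_self_eq_norm_sq] at h
  have := norm_nonneg (join (0 : E n) 1)
  nlinarith

/-- rotation invariance -/
theorem extn_one_rot {n : ℕ} (ξ : E (n + 1)) :
    extn (fun _ => (1:ℂ)) ξ = extn (fun _ => (1:ℂ)) (‖ξ‖ • join (0 : E n) 1) := by
  set v : E (n + 1) := ‖ξ‖ • join (0 : E n) 1 with hv
  have hnorm : ‖v‖ = ‖ξ‖ := by
    rw [hv, norm_smul, norm_join_zero_one]; simp
  set R : E (n + 1) ≃ₗᵢ[ℝ] E (n + 1) := Submodule.reflection (ℝ ∙ (v - ξ))ᗮ with hR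
  have hRv : R v = ξ := Submodule.reflection_sub hnorm
  have hmp := measurePreserving_isometry R
  rw [extn_eq, extn_eq]
  have h1 : ∫ x : S (n + 1), (1:ℂ) * ch (inner ℝ (x : E (n + 1)) ξ) ∂(sm (n + 1)) =
      ∫ x : S (n + 1), (1:ℂ) * ch (inner ℝ (R (x : E (n + 1))) ξ) ∂(sm (n + 1)) := by
    conv_lhs => rw [← hmp.map_eq]
    rw [integral_map hmp.measurable.aemeasurable]
    refine Continuous.aestronglyMeasurable ?_
    have := continuous_ch
    fun_prop
  rw [h1]
  congr 1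
  funext x
  rw [← hRv, LinearIsometryEquiv.inner_map_map]

theorem extn_one_eq (j : ℕ) (ρ : ℝ) :
    extn (fun _ => (1:ℂ)) (ρ • join (0 : E (j + 1)) 1) =
      ((sm (j + 1)).real univ : ℂ) *
        ∫ θ in (0:ℝ)..π, ((Real.sin θ ^ j : ℝ) : ℂ) * ch (ρ * Real.cos θ) := by
  have hmp := slicing j
  rw [extn_eq]
  have h1 : ∫ x : S (j + 2), (1:ℂ) * ch (inner ℝ (x : E (j + 2)) (ρ • join (0 : E (j + 1)) 1))
      ∂(sm (j + 2)) =
      ∫ q : ℝ × S (j + 1), ch (ρ * Real.cos q.1)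
        ∂((((volume : Measure ℝ).restrict (Ioo 0 π)).withDensity
        (fun θ => ENNReal.ofReal (Real.sin θ ^ j))).prod (sm (j + 1))) := by
    conv_lhs => rw [← hmp.map_eq]
    rw [integral_map hmp.measurable.aemeasurable]
    · congr 1
      funext q
      rw [one_mul]
      congr 1
      show inner ℝ (pt q.1 (q.2 : E (j + 1))) _ = _
      rw [inner_smul_right]
      unfold pt
      rw [inner_join]
      simp
    · refine Continuous.aestronglyMeasurable ?_
      have := continuous_ch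
      fun_prop
  rw [h1, integral_fun_fst (fun θ => ch (ρ * Real.cos θ)),
    integral_withDensity_eq_integral_toReal_smul (by fun_prop)
      (by filter_upwards with x using ENNReal.ofReal_lt_top),
    intervalIntegral.integral_of_le Real.pi_pos.le, integral_Ioc_eq_integral_Ioo]
  rw [Complex.real_smul]
  congr 1
  refine setIntegral_congr_fun measurableSet_Ioo fun θ hθ => ?_
  have : 0 ≤ Real.sin θ := Real.sin_nonneg_of_nonneg_of_le_pi hθ.1.le hθ.2.le
  simp only [ENNReal.toReal_ofReal (pow_nonneg this j), Complex.real_smul]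

theorem norm_sin_le {z : ℂ} (hz : ‖z‖ ≤ 1) : ‖Complex.sin z‖ ≤ 2 * ‖z‖ := by
  have h1 : Complex.sin z =
      ((Complex.exp (-z * Complex.I) - 1) - (Complex.exp (z * Complex.I) - 1)) * Complex.I / 2 := by
    rw [Complex.sin]; ring
  have h2 : ‖Complex.exp (-z * Complex.I) - 1‖ ≤ 2 * ‖z‖ := by
    have := Complex.norm_exp_sub_one_le (x := -z * Complex.I) (by simpa using hz)
    simpa using this
  have h3 : ‖Complex.exp (z * Complex.I) - 1‖ ≤ 2 * ‖z‖ := by
    have := Complex.norm_exp_sub_one_le (x := z * Complex.I) (by simpa using hz)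
    simpa using this
  rw [h1, norm_div, norm_mul, Complex.norm_I, mul_one, Complex.norm_ofNat]
  have h4 := norm_sub_le (Complex.exp (-z * Complex.I) - 1) (Complex.exp (z * Complex.I) - 1)
  linarith

theorem norm_cos_le {z : ℂ} (hz : ‖z‖ ≤ 1 / 2) : ‖Complex.cos z‖ ≤ 2 := by
  have h1 : Complex.cos z =
      1 + ((Complex.exp (z * Complex.I) - 1) + (Complex.exp (-z * Complex.I) - 1)) / 2 := by
    rw [Complex.cos]; ring
  have h2 : ‖Complex.exp (-z * Complex.I) - 1‖ ≤ 2 * ‖z‖ := by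
    have := Complex.norm_exp_sub_one_le (x := -z * Complex.I) (by simpa using hz.trans (by norm_num))
    simpa using this
  have h3 : ‖Complex.exp (z * Complex.I) - 1‖ ≤ 2 * ‖z‖ := by
    have := Complex.norm_exp_sub_one_le (x := z * Complex.I) (by simpa using hz.trans (by norm_num))
    simpa using this
  rw [h1]
  calc ‖1 + ((Complex.exp (z * Complex.I) - 1) + (Complex.exp (-z * Complex.I) - 1)) / 2‖
      ≤ ‖(1:ℂ)‖ + ‖((Complex.exp (z * Complex.I) - 1) + (Complex.exp (-z * Complex.I) - 1)) / 2‖ :=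
        norm_add_le _ _
    _ ≤ 1 + (2 * ‖z‖ + 2 * ‖z‖) / 2 := by
        rw [norm_one, norm_div, Complex.norm_ofNat]
        have := norm_add_le (Complex.exp (z * Complex.I) - 1) (Complex.exp (-z * Complex.I) - 1)
        linarith
    _ ≤ 2 := by linarith

theorem sin_lower {δ u : ℝ} (hδ : 0 < δ) (hδ1 : δ ≤ 1) (hu : u ∈ Icc δ (π - δ)) :
    2 / π * δ ≤ Real.sin u := by
  have hpi := Real.pi_gt_three
  have h1 : 2 / π * δ ≤ Real.sin δ := Real.mul_le_sin hδ.le (by linarith)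
  refine h1.trans ?_
  by_cases h : u ≤ π / 2
  · exact Real.sin_le_sin_of_le_of_le_pi_div_two (by linarith) h hu.1
  · push Not at h
    rw [← Real.sin_pi_sub u]
    exact Real.sin_le_sin_of_le_of_le_pi_div_two (by linarith) (by linarith) (by linarith [hu.2])

theorem norm_csin_le {δ u : ℝ} (hδ : 0 < δ) (hδ1 : δ ≤ 1) (hu : u ∈ Icc δ (π - δ)) {w : ℂ}
    (hw : ‖w - u‖ ≤ δ / 2) : ‖Complex.sin w‖ ≤ 4 * Real.sin u := by
  have hs := sin_lower hδ hδ1 hu
  have hpi := Real.pi_gt_three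
  have hpi4 := Real.pi_le_four
  have h1 : Complex.sin w = Complex.sin u * Complex.cos (w - u) +
      Complex.cos u * Complex.sin (w - u) := by
    rw [← Complex.sin_add]; congr 1; ring
  have h2 := norm_sin_le (hw.trans (by linarith : δ / 2 ≤ 1))
  have h3 := norm_cos_le (hw.trans (by linarith : δ / 2 ≤ 1 / 2))
  have h4 : ‖Complex.sin (u : ℂ)‖ = Real.sin u := by
    rw [← Complex.ofReal_sin, Complex.norm_real, Real.norm_eq_abs, abs_of_nonneg]
    exact le_trans (by positivity) hs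
  have h5 : ‖Complex.cos (u : ℂ)‖ ≤ 1 := by
    rw [← Complex.ofReal_cos, Complex.norm_real, Real.norm_eq_abs]
    exact Real.abs_cos_le_one u
  have h6 : δ ≤ 2 * Real.sin u := by
    have : δ ≤ π / 2 * Real.sin u := by
      have h7 : π / 2 * (2 / π * δ) = δ := by field_simp
      have h8 := mul_le_mul_of_nonneg_left hs (by positivity : (0:ℝ) ≤ π / 2)
      rw [h7] at h8
      exact h8
    have hs0 : 0 ≤ Real.sin u := le_trans (by positivity) hs
    nlinarith
  calc ‖Complex.sin w‖ ≤ ‖Complex.sin (u:ℂ) * Complex.cos (w - u)‖ +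
        ‖Complex.cos (u:ℂ) * Complex.sin (w - u)‖ := by rw [h1]; exact norm_add_le _ _
    _ = Real.sin u * ‖Complex.cos (w - u)‖ + ‖Complex.cos (u:ℂ)‖ * ‖Complex.sin (w - u)‖ := by
        rw [norm_mul, norm_mul, h4]
    _ ≤ Real.sin u * 2 + 1 * (2 * (δ / 2)) := by
        have hs0 : 0 ≤ Real.sin u := le_trans (by positivity) hs
        gcongr
        linarith
    _ ≤ 4 * Real.sin u := by linarith

theorem sin_pos_of_mem {δ u : ℝ} (hδ : 0 < δ) (hδ1 : δ ≤ 1) (hu : u ∈ Icc δ (π - δ)) :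
    0 < Real.sin u := lt_of_lt_of_le (by positivity) (sin_lower hδ hδ1 hu)

theorem integral_inv_sin_sq {δ : ℝ} (hδ : 0 < δ) (hδ1 : δ ≤ 1) :
    ∫ u in δ..(π - δ), 1 / Real.sin u ^ 2 ≤ π / δ := by
  have hpi := Real.pi_gt_three
  have hle : δ ≤ π - δ := by linarith
  have h1 : ∫ u in δ..(π - δ), 1 / Real.sin u ^ 2 =
      (-(Real.cos (π - δ) / Real.sin (π - δ))) - (-(Real.cos δ / Real.sin δ)) := by
    refine intervalIntegral.integral_eq_sub_of_hasDerivAt (f := fun u => -(Real.cos u / Real.sin u))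
      (fun u hu => ?_) ?_
    · rw [uIcc_of_le hle] at hu
      have hs := sin_pos_of_mem hδ hδ1 hu
      have h2 : HasDerivAt (fun u => -(Real.cos u / Real.sin u))
          (-((-Real.sin u * Real.sin u - Real.cos u * Real.cos u) / Real.sin u ^ 2)) u :=
        ((Real.hasDerivAt_cos u).div (Real.hasDerivAt_sin u) hs.ne').neg
      have h3 := Real.sin_sq_add_cos_sq u
      have h4 : 1 / Real.sin u ^ 2 =
          -((-Real.sin u * Real.sin u - Real.cos u * Real.cos u) / Real.sin u ^ 2) := by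
        rw [show -((-Real.sin u * Real.sin u - Real.cos u * Real.cos u) / Real.sin u ^ 2) =
          (Real.sin u ^ 2 + Real.cos u ^ 2) / Real.sin u ^ 2 by ring, h3]
      rw [h4]
      exact h2
    · refine ContinuousOn.intervalIntegrable fun u hu => ?_
      rw [uIcc_of_le hle] at hu
      have hs := sin_pos_of_mem hδ hδ1 hu
      refine ContinuousAt.continuousWithinAt ?_
      refine ContinuousAt.div continuousAt_const (by fun_prop) (by positivity)
  rw [h1, Real.cos_pi_sub, Real.sin_pi_sub]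
  have hs : 2 / π * δ ≤ Real.sin δ := Real.mul_le_sin hδ.le (by linarith)
  have hs0 : 0 < Real.sin δ := lt_of_lt_of_le (by positivity) hs
  have hc : Real.cos δ ≤ 1 := Real.cos_le_one δ
  have h2 : -(-Real.cos δ / Real.sin δ) - -(Real.cos δ / Real.sin δ) = 2 * Real.cos δ / Real.sin δ := by
    ring
  rw [h2, div_le_div_iff₀ hs0 hδ]
  have h3 : 2 * δ ≤ π * Real.sin δ := by
    have h4 := mul_le_mul_of_nonneg_left hs Real.pi_pos.le
    have h5 : π * (2 / π * δ) = 2 * δ := by field_simp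
    rw [h5] at h4
    exact h4
  nlinarith

theorem one_dim (j : ℕ) : ∃ C : ℝ, 0 < C ∧ ∀ ρ : ℝ, 1 ≤ ρ →
    ‖∫ θ in (0:ℝ)..π, ((Real.sin θ ^ j : ℝ) : ℂ) * ch (ρ * Real.cos θ)‖ ≤
      C * ρ ^ (-((j : ℝ) + 1) / 2) := by
  obtain ⟨C, hC, hfar⟩ := far_bound (j + 2)
  refine ⟨2 + C * (4 ^ j * (2 * (j + 2) + π)), by positivity, fun ρ hρ => ?_⟩
  have hpi := Real.pi_gt_three
  have hρ0 : 0 < ρ := by linarith
  set δ : ℝ := ρ ^ (-(1:ℝ) / 2) with hδdef
  have hδ : 0 < δ := Real.rpow_pos_of_pos hρ0 _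
  have hδ1 : δ ≤ 1 := Real.rpow_le_one_of_one_le_of_nonpos hρ (by norm_num)
  have hδ2 : 1 / δ ^ 2 = ρ := by
    rw [hδdef, ← Real.rpow_natCast, ← Real.rpow_mul hρ0.le]
    norm_num
    rw [Real.rpow_neg_one, inv_inv]
  have hδj : δ ^ (j + 1) = ρ ^ (-((j : ℝ) + 1) / 2) := by
    rw [hδdef, ← Real.rpow_natCast, ← Real.rpow_mul hρ0.le]
    congr 1
    push_cast
    ring
  have hle : δ ≤ π - δ := by linarith
  have hcont : Continuous fun θ : ℝ => ((Real.sin θ ^ j : ℝ) : ℂ) * ch (ρ * Real.cos θ) := by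
    have := continuous_ch
    fun_prop
  -- splitting
  have hsplit : ∫ θ in (0:ℝ)..π, ((Real.sin θ ^ j : ℝ) : ℂ) * ch (ρ * Real.cos θ) =
      (∫ θ in (0:ℝ)..δ, ((Real.sin θ ^ j : ℝ) : ℂ) * ch (ρ * Real.cos θ)) +
      (∫ θ in δ..(π - δ), ((Real.sin θ ^ j : ℝ) : ℂ) * ch (ρ * Real.cos θ)) +
      (∫ θ in (π - δ)..π, ((Real.sin θ ^ j : ℝ) : ℂ) * ch (ρ * Real.cos θ)) := by
    rw [intervalIntegral.integral_add_adjacent_intervals (hcont.intervalIntegrable _ _)
      (hcont.intervalIntegrable _ _),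
      intervalIntegral.integral_add_adjacent_intervals (hcont.intervalIntegrable _ _)
      (hcont.intervalIntegrable _ _)]
  have hI1 : ‖∫ θ in (0:ℝ)..δ, ((Real.sin θ ^ j : ℝ) : ℂ) * ch (ρ * Real.cos θ)‖ ≤
      δ ^ j * |δ - 0| := by
    refine intervalIntegral.norm_integral_le_of_norm_le_const fun θ hθ => ?_
    rw [uIoc_of_le hδ.le] at hθ
    rw [norm_mul, norm_ch, mul_one, Complex.norm_real, Real.norm_eq_abs, abs_pow]
    have h0 : 0 ≤ Real.sin θ :=
      Real.sin_nonneg_of_nonneg_of_le_pi hθ.1.le (by linarith [hθ.2])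
    rw [abs_of_nonneg h0]
    exact pow_le_pow_left₀ h0 ((Real.sin_le hθ.1.le).trans hθ.2) j
  have hI3 : ‖∫ θ in (π - δ)..π, ((Real.sin θ ^ j : ℝ) : ℂ) * ch (ρ * Real.cos θ)‖ ≤
      δ ^ j * |π - (π - δ)| := by
    refine intervalIntegral.norm_integral_le_of_norm_le_const fun θ hθ => ?_
    rw [uIoc_of_le (by linarith)] at hθ
    rw [norm_mul, norm_ch, mul_one, Complex.norm_real, Real.norm_eq_abs, abs_pow]
    have h0 : 0 ≤ Real.sin θ :=
      Real.sin_nonneg_of_nonneg_of_le_pi (by linarith [hθ.1]) hθ.2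
    rw [abs_of_nonneg h0]
    refine pow_le_pow_left₀ h0 ?_ j
    rw [← Real.sin_pi_sub]
    exact (Real.sin_le (by linarith [hθ.2])).trans (by linarith [hθ.1])
  have hI2 := hfar δ hδ hδ1 (fun w => Complex.sin w ^ j) (by fun_prop)
    (fun u => (4 * Real.sin u) ^ j) (by fun_prop)
    (fun u hu w hw => by
      rw [norm_pow]
      exact pow_le_pow_left₀ (norm_nonneg _) (norm_csin_le hδ hδ1 hu hw) j)
    ρ hδ2.le (fun _ u => ch (ρ * Real.cos u))
    (fun k => by
      have := continuous_ch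
      fun_prop)
    (fun k hk u hu => by
      have h1 : HasDerivAt (fun u : ℝ => -(2 * π * (ρ * Real.cos u)))
          (2 * π * ρ * Real.sin u) u := by
        have h0 : HasDerivAt (fun u : ℝ => -(2 * π * (ρ * Real.cos u)))
          (-(2 * π * (ρ * -Real.sin u))) u :=
          (((Real.hasDerivAt_cos u).const_mul ρ).const_mul (2 * π)).neg
        have e0 : 2 * π * ρ * Real.sin u = -(2 * π * (ρ * -Real.sin u)) := by ring
        rw [e0]
        exact h0
      have h2 := (h1.ofReal_comp.mul_const Complex.I).cexp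
      have h3 : ((2 * π * ρ * Real.sin u : ℝ) : ℂ) * Complex.I * ch (ρ * Real.cos u) =
          Complex.exp (((-(2 * π * (ρ * Real.cos u)) : ℝ) : ℂ) * Complex.I) *
            (((2 * π * ρ * Real.sin u : ℝ) : ℂ) * Complex.I) := mul_comm _ _
      rw [h3]
      exact h2)
  have e1 : ∀ u : ℝ, Complex.sin (u : ℂ) ^ j = ((Real.sin u ^ j : ℝ) : ℂ) := fun u => by
    push_cast; rfl
  simp only [e1, norm_ch, mul_one] at hI2
  have hb1 : (4 * Real.sin δ) ^ j ≤ 4 ^ j * δ ^ j := by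
    rw [mul_pow]
    gcongr
    · exact (sin_pos_of_mem hδ hδ1 ⟨le_rfl, hle⟩).le
    · exact Real.sin_le hδ.le
  have hb2 : ∑ k ∈ Finset.range (j + 2),
      ((4 * Real.sin δ) ^ j + (4 * Real.sin (π - δ)) ^ j) ≤ (j + 2) * (2 * (4 ^ j * δ ^ j)) := by
    rw [Finset.sum_const, Finset.card_range, nsmul_eq_mul, Real.sin_pi_sub]
    push_cast
    gcongr
    linarith
  have hb3 : ∫ u in δ..(π - δ), (4 * Real.sin u) ^ j / Real.sin u ^ (j + 2) ≤
      4 ^ j * (π / δ) := by
    have h3 : ∫ u in δ..(π - δ), (4 * Real.sin u) ^ j / Real.sin u ^ (j + 2) =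
        ∫ u in δ..(π - δ), 4 ^ j * (1 / Real.sin u ^ 2) := by
      refine intervalIntegral.integral_congr fun u hu => ?_
      rw [uIcc_of_le hle] at hu
      have hs := sin_pos_of_mem hδ hδ1 hu
      show (4 * Real.sin u) ^ j / Real.sin u ^ (j + 2) = 4 ^ j * (1 / Real.sin u ^ 2)
      rw [mul_pow, pow_add]
      field_simp
    rw [h3, intervalIntegral.integral_const_mul]
    exact mul_le_mul_of_nonneg_left (integral_inv_sin_sq hδ hδ1) (by positivity)
  have hI2' : ‖∫ θ in δ..(π - δ), ((Real.sin θ ^ j : ℝ) : ℂ) * ch (ρ * Real.cos θ)‖ ≤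
      C * (4 ^ j * (2 * (j + 2) + π)) * δ ^ (j + 1) := by
    refine hI2.trans ?_
    calc C * (δ * ∑ k ∈ Finset.range (j + 2),
          ((4 * Real.sin δ) ^ j + (4 * Real.sin (π - δ)) ^ j) +
          δ ^ (j + 2) * ∫ u in δ..(π - δ), (4 * Real.sin u) ^ j / Real.sin u ^ (j + 2))
        ≤ C * (δ * ((j + 2) * (2 * (4 ^ j * δ ^ j))) + δ ^ (j + 2) * (4 ^ j * (π / δ))) := by
          gcongr
      _ = C * (4 ^ j * (2 * (j + 2) + π)) * δ ^ (j + 1) := by
          field_simp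
          ring
  rw [hsplit, ← hδj]
  have hI1' : ‖∫ θ in (0:ℝ)..δ, ((Real.sin θ ^ j : ℝ) : ℂ) * ch (ρ * Real.cos θ)‖ ≤
      δ ^ (j + 1) := by
    refine hI1.trans (le_of_eq ?_)
    rw [sub_zero, abs_of_pos hδ, pow_succ]
  have hI3' : ‖∫ θ in (π - δ)..π, ((Real.sin θ ^ j : ℝ) : ℂ) * ch (ρ * Real.cos θ)‖ ≤
      δ ^ (j + 1) := by
    refine hI3.trans (le_of_eq ?_)
    rw [sub_sub_cancel, abs_of_pos hδ, pow_succ]
  refine (norm_add₃_le).trans ?_
  linarith

end DecayAux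

theorem decay (j : ℕ) : ∃ C : ℝ, 0 < C ∧ ∀ ξ : E (j + 2), ξ ≠ 0 →
    ‖extn (fun _ => (1:ℂ)) ξ‖ ≤ C * ‖ξ‖ ^ (-((j : ℝ) + 1) / 2) := by
  obtain ⟨C, hC, h1⟩ := DecayAux.one_dim j
  refine ⟨(sm (j + 1)).real univ * C + (sm (j + 2)).real univ + 1, by positivity,
    fun ξ hξ => ?_⟩
  have hξ0 : 0 < ‖ξ‖ := norm_pos_iff.2 hξ
  have hp : 0 < ‖ξ‖ ^ (-((j : ℝ) + 1) / 2) := Real.rpow_pos_of_pos hξ0 _
  by_cases hle : 1 ≤ ‖ξ‖
  · rw [DecayAux.extn_one_rot, DecayAux.extn_one_eq, norm_mul, Complex.norm_real,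
      Real.norm_eq_abs, abs_of_nonneg measureReal_nonneg]
    calc (sm (j + 1)).real univ *
        ‖∫ θ in (0:ℝ)..π, ((Real.sin θ ^ j : ℝ) : ℂ) * DecayAux.ch (‖ξ‖ * Real.cos θ)‖
        ≤ (sm (j + 1)).real univ * (C * ‖ξ‖ ^ (-((j : ℝ) + 1) / 2)) := by
          gcongr
          exact h1 _ hle
      _ ≤ ((sm (j + 1)).real univ * C + (sm (j + 2)).real univ + 1) *
          ‖ξ‖ ^ (-((j : ℝ) + 1) / 2) := by
          have h2 : 0 ≤ (sm (j + 2)).real univ := measureReal_nonneg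
          nlinarith
  · push Not at hle
    have h2 : ‖extn (fun _ => (1:ℂ)) ξ‖ ≤ 1 * (sm (j + 2)).real univ := by
      rw [DecayAux.extn_eq]
      refine norm_integral_le_of_norm_le_const ?_
      filter_upwards with x
      rw [one_mul, DecayAux.norm_ch]
    have h3 : 1 ≤ ‖ξ‖ ^ (-((j : ℝ) + 1) / 2) := by
      refine Real.one_le_rpow_of_pos_of_le_one_of_nonpos hξ0 hle.le ?_
      have : (0:ℝ) ≤ j := Nat.cast_nonneg j
      linarith
    have h4 : 0 ≤ (sm (j + 2)).real univ := measureReal_nonneg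
    have h5 : 0 ≤ (sm (j + 1)).real univ * C := by positivity
    nlinarith

end Pool.Agent.MP_6cbfb8_an
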