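import Pool.Agent.MP_6cbfb8_an.Aux0
import Pool.Agent.MP_6cbfb8_an.Decay
import Pool.Agent.MP_6cbfb8_an.Bessel
import Pool.Agent.MP_6cbfb8_an.Gauss

namespace Pool.Agent.MP_6cbfb8_an

open MeasureTheory Set
open scoped ENNReal Real RealInnerProductSpace

/-! ## Stein-Tomas in the open range, by the weak-type argument -/

namespace STAux

open DecayAux

/-- Fourier transform of a function. -/
noncomputable def ft {n : ℕ} (f : E n → ℂ) (x : E n) : ℂ :=
  ∫ ξ : E n, f ξ * ch (inner ℝ ξ x)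

theorem stronglyMeasurable_ft {n : ℕ} (f : E n → ℂ) (hf : Measurable f) :
    StronglyMeasurable (ft f) := by
  unfold ft
  refine StronglyMeasurable.integral_prod_right (f := fun x ξ => f ξ * ch (inner ℝ ξ x)) ?_
  refine Measurable.stronglyMeasurable ?_
  have h1 : Measurable fun p : E n × E n => ch (inner ℝ p.2 p.1) := by
    have := continuous_ch
    exact Continuous.measurable (by fun_prop)
  exact (hf.comp measurable_snd).mul h1

theorem lintegral_ft_sq_le {n : ℕ} (f : E n → ℂ) (hf : Integrable f) :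
    ∫⁻ x, ‖ft f x‖ₑ ^ (2:ℝ) ≤ ∫⁻ x, ‖f x‖ₑ ^ (2:ℝ) := by
  have h := bessel (volume : Measure (E n)) (fun x : E n => x) measurable_id 1 ENNReal.one_ne_top
    (fun φ hφ => by simp) f hf
  rw [one_mul] at h
  exact h

/-- The quadratic form attached to a positive measure. -/
theorem quad_eq {n : ℕ} {Ω : Type*} [MeasurableSpace Ω] (ν : Measure Ω) [SFinite ν]
    (k : Ω → ℝ) (hk : Integrable k ν) (Ψ : Ω → E n) (hΨ : Measurable Ψ) (f : E n → ℂ)
    (hf : Integrable f) :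
    ((∫ w, k w * ‖ft f (Ψ w)‖ ^ 2 ∂ν : ℝ) : ℂ) =
      ∫ p : E n × E n, f p.1 * (starRingEnd ℂ) (f p.2) *
        (∫ w, ((k w : ℝ) : ℂ) * ch (inner ℝ (Ψ w) (p.1 - p.2)) ∂ν) := by
  have hfc : Integrable (fun x => (starRingEnd ℂ) (f x)) := by
    exact (Complex.conjCLE : ℂ →L[ℝ] ℂ).integrable_comp hf
  have hint : Integrable (fun z : (E n × E n) × Ω => f z.1.1 * (starRingEnd ℂ) (f z.1.2) *
      (((k z.2 : ℝ) : ℂ) * ch (inner ℝ (Ψ z.2) (z.1.1 - z.1.2))))
      ((volume : Measure (E n × E n)).prod ν) := by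
    have h1 : Integrable (fun p : E n × E n => f p.1 * (starRingEnd ℂ) (f p.2)) :=
      hf.mul_prod hfc
    have h2 : Integrable (fun z : (E n × E n) × Ω => (f z.1.1 * (starRingEnd ℂ) (f z.1.2)) *
        ((k z.2 : ℝ) : ℂ)) ((volume : Measure (E n × E n)).prod ν) :=
      h1.mul_prod hk.ofReal
    have h3 : Measurable fun z : (E n × E n) × Ω => ch (inner ℝ (Ψ z.2) (z.1.1 - z.1.2)) := by
      refine continuous_ch.measurable.comp ?_
      fun_prop
    have h4 := h2.mul_bdd (c := 1) h3.aestronglyMeasurable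
      (by filter_upwards with z using (norm_ch _).le)
    refine h4.congr ?_
    filter_upwards with z
    ring
  symm
  calc ∫ p : E n × E n, f p.1 * (starRingEnd ℂ) (f p.2) *
        (∫ w, ((k w : ℝ) : ℂ) * ch (inner ℝ (Ψ w) (p.1 - p.2)) ∂ν)
      = ∫ p : E n × E n, ∫ w, f p.1 * (starRingEnd ℂ) (f p.2) *
        (((k w : ℝ) : ℂ) * ch (inner ℝ (Ψ w) (p.1 - p.2))) ∂ν := by
        congr 1; funext p
        rw [integral_const_mul]
    _ = ∫ w, (∫ p : E n × E n, f p.1 * (starRingEnd ℂ) (f p.2) *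
        (((k w : ℝ) : ℂ) * ch (inner ℝ (Ψ w) (p.1 - p.2)))) ∂ν :=
        integral_integral_swap hint
    _ = ∫ w, ((k w * ‖ft f (Ψ w)‖ ^ 2 : ℝ) : ℂ) ∂ν := by
        congr 1; funext w
        have h1 : ∀ p : E n × E n, f p.1 * (starRingEnd ℂ) (f p.2) *
            (((k w : ℝ) : ℂ) * ch (inner ℝ (Ψ w) (p.1 - p.2))) =
            ((k w : ℝ) : ℂ) * ((f p.1 * ch (inner ℝ p.1 (Ψ w))) *
              (starRingEnd ℂ) (f p.2 * ch (inner ℝ p.2 (Ψ w)))) := by
          intro p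
          rw [inner_sub_right, ch_sub, map_mul, real_inner_comm (Ψ w) p.1,
            real_inner_comm (Ψ w) p.2]
          ring
        simp_rw [h1]
        rw [integral_const_mul]
        have h2 := integral_prod_mul (μ := (volume : Measure (E n))) (ν := (volume : Measure (E n)))
          (fun x => f x * ch (inner ℝ x (Ψ w)))
          (fun y => (starRingEnd ℂ) (f y * ch (inner ℝ y (Ψ w))))
        have h3 : ∫ y, (starRingEnd ℂ) (f y * ch (inner ℝ y (Ψ w))) =
            (starRingEnd ℂ) (ft f (Ψ w)) := by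
          rw [integral_conj]; rfl
        rw [h3] at h2
        have h4 : ∫ z : E n × E n, f z.1 * ch (inner ℝ z.1 (Ψ w)) *
            (starRingEnd ℂ) (f z.2 * ch (inner ℝ z.2 (Ψ w))) =
            ft f (Ψ w) * (starRingEnd ℂ) (ft f (Ψ w)) := h2
        rw [h4, Complex.mul_conj']
        push_cast
        ring
    _ = ((∫ w, k w * ‖ft f (Ψ w)‖ ^ 2 ∂ν : ℝ) : ℂ) := integral_ofReal

theorem norm_quad_le {n : ℕ} (f : E n → ℂ) (hf : Integrable f) (K : E n × E n → ℂ) (M : ℝ)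
    (hM : ∀ p, ‖K p‖ ≤ M) :
    ‖∫ p : E n × E n, f p.1 * (starRingEnd ℂ) (f p.2) * K p‖ ≤ M * (∫ x, ‖f x‖) ^ 2 := by
  have h1 : Integrable (fun p : E n × E n => ‖f p.1‖ * ‖f p.2‖) := hf.norm.mul_prod hf.norm
  have h2 : ∫ p : E n × E n, M * (‖f p.1‖ * ‖f p.2‖) = M * (∫ x, ‖f x‖) ^ 2 := by
    rw [integral_const_mul]
    have h3 := integral_prod_mul (μ := (volume : Measure (E n))) (ν := (volume : Measure (E n)))
      (fun x => ‖f x‖) (fun x => ‖f x‖)
    have h4 : ∫ p : E n × E n, ‖f p.1‖ * ‖f p.2‖ = (∫ x, ‖f x‖) * (∫ x, ‖f x‖) := h3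
    rw [h4, sq]
  rw [← h2]
  refine norm_integral_le_of_norm_le (h1.const_mul M) ?_
  filter_upwards with p
  rw [norm_mul, norm_mul, RCLike.norm_conj]
  have := hM p
  have h5 : 0 ≤ ‖f p.1‖ * ‖f p.2‖ := by positivity
  nlinarith

/-- The normalised Gaussian with Fourier transform `exp (-π s |ζ|²)`. -/
noncomputable def gs {n : ℕ} (s : ℝ) (y : E n) : ℝ :=
  s ^ (-(n : ℝ) / 2) * Real.exp (-(π / s * ‖y‖ ^ 2))

theorem gs_nonneg {n : ℕ} {s : ℝ} (hs : 0 < s) (y : E n) : 0 ≤ gs s y := by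
  unfold gs; positivity

theorem continuous_gs {n : ℕ} (s : ℝ) : Continuous (gs s : E n → ℝ) := by
  unfold gs; fun_prop

theorem integrable_gs {n : ℕ} {s : ℝ} (hs : 0 < s) : Integrable (gs s : E n → ℝ) := by
  have h1 := GaussianFourier.integrable_cexp_neg_mul_sq_norm_add (V := E n) (b := ((π / s : ℝ) : ℂ))
    (by rw [Complex.ofReal_re]; positivity) 0 0
  have h2 := h1.norm.const_mul (s ^ (-(n : ℝ) / 2))
  refine h2.congr ?_
  filter_upwards with y
  unfold gs
  rw [Complex.norm_exp]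
  congr 2
  simp [← Complex.ofReal_pow]

theorem integral_gs {n : ℕ} {s : ℝ} (hs : 0 < s) (ζ : E n) :
    ∫ y : E n, ((gs s y : ℝ) : ℂ) * ch (inner ℝ y ζ) =
      ((Real.exp (-(π * s * ‖ζ‖ ^ 2)) : ℝ) : ℂ) := by
  have h1 := GaussianFourier.integral_cexp_neg_mul_sq_norm_add (V := E n)
    (b := ((π / s : ℝ) : ℂ)) (by rw [Complex.ofReal_re]; positivity) (-(2 * π * Complex.I)) ζ
  have h2 : ∀ y : E n, ((gs s y : ℝ) : ℂ) * ch (inner ℝ y ζ) =
      ((s ^ (-(n : ℝ) / 2) : ℝ) : ℂ) * Complex.exp (-((π / s : ℝ) : ℂ) * ‖y‖ ^ 2 +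
        -(2 * π * Complex.I) * (inner ℝ ζ y : ℝ)) := by
    intro y
    unfold gs ch
    rw [Complex.ofReal_mul, Complex.ofReal_exp, mul_assoc, ← Complex.exp_add, real_inner_comm]
    congr 2
    push_cast
    ring
  simp_rw [h2]
  rw [integral_const_mul, h1]
  have h3 : (π : ℂ) / ((π / s : ℝ) : ℂ) = ((s : ℝ) : ℂ) := by
    rw [← Complex.ofReal_div]
    congr 1
    field_simp
  have h4 : ((Module.finrank ℝ (E n) : ℕ) : ℂ) / 2 = (((n : ℝ) / 2 : ℝ) : ℂ) := by
    rw [finrank_euclideanSpace_fin]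
    push_cast
    rfl
  rw [h3, h4, ← Complex.ofReal_cpow hs.le, ← mul_assoc, ← Complex.ofReal_mul,
    ← Real.rpow_add hs]
  have h5 : -(n : ℝ) / 2 + (n : ℝ) / 2 = 0 := by ring
  rw [h5, Real.rpow_zero, Complex.ofReal_one, one_mul, Complex.ofReal_exp]
  congr 1
  have hs0 : (s : ℂ) ≠ 0 := by exact_mod_cast hs.ne'
  have hpi : (π : ℂ) ≠ 0 := by exact_mod_cast Real.pi_ne_zero
  have hI : Complex.I ^ 2 = -1 := Complex.I_sq
  push_cast
  rw [neg_sq, mul_pow, mul_pow, hI]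
  field_simp
  ring

/-- The smoothed form: quadratic form of the kernel `σ̂(ζ) exp (-π s |ζ|²)`. -/
theorem smoothed_eq {n : ℕ} {s : ℝ} (hs : 0 < s) (f : E n → ℂ) (hf : Integrable f) :
    ((∫ q : S n × E n, gs s q.2 * ‖ft f ((q.1 : E n) + q.2)‖ ^ 2 ∂((sm n).prod volume) : ℝ) : ℂ) =
      ∫ p : E n × E n, f p.1 * (starRingEnd ℂ) (f p.2) *
        (extn (fun _ => (1:ℂ)) (p.1 - p.2) *
          ((Real.exp (-(π * s * ‖p.1 - p.2‖ ^ 2)) : ℝ) : ℂ)) := by
  have hk : Integrable (fun q : S n × E n => gs s q.2) ((sm n).prod volume) := by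
    exact (integrable_gs hs).comp_snd (sm n)
  have hsf : SFinite ((sm n).prod (volume : Measure (E n))) := Measure.prod.instSFinite
  rw [quad_eq ((sm n).prod (volume : Measure (E n))) (fun q : S n × E n => gs s q.2) hk
    (fun q => (q.1 : E n) + q.2) (by fun_prop) f hf]
  congr 1
  funext p
  congr 1
  rw [← integral_gs hs, extn_eq]
  have h1 := integral_prod_mul (μ := sm n) (ν := (volume : Measure (E n)))
    (fun x : S n => (1:ℂ) * ch (inner ℝ (x : E n) (p.1 - p.2)))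
    (fun y => ((gs s y : ℝ) : ℂ) * ch (inner ℝ y (p.1 - p.2)))
  rw [← h1]
  congr 1
  funext q
  rw [inner_add_left, ch_add]
  ring

theorem unsmoothed_eq {n : ℕ} (f : E n → ℂ) (hf : Integrable f) :
    ((∫ x : S n, ‖ft f (x : E n)‖ ^ 2 ∂(sm n) : ℝ) : ℂ) =
      ∫ p : E n × E n, f p.1 * (starRingEnd ℂ) (f p.2) * (extn (fun _ => (1:ℂ)) (p.1 - p.2)) := by
  have h := quad_eq (sm n) (fun _ : S n => (1:ℝ)) (integrable_const _)
    (fun q : S n => (q : E n)) (by fun_prop) f hf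
  simp only [one_mul] at h
  rw [h]
  rfl

/-- Upper bound for the smoothed form. -/
theorem smoothed_le (j : ℕ) : ∃ C : ℝ, 0 < C ∧ ∀ s : ℝ, 0 < s → ∀ f : E (j + 2) → ℂ,
    Measurable f → Integrable f → ∫⁻ x, ‖f x‖ₑ ^ (2:ℝ) ≠ ∞ →
    ∫ q : S (j + 2) × E (j + 2), gs s q.2 * ‖ft f ((q.1 : E (j + 2)) + q.2)‖ ^ 2
      ∂((sm (j + 2)).prod volume) ≤
      C * s ^ (-(1:ℝ) / 2) * (∫⁻ x, ‖f x‖ₑ ^ (2:ℝ)).toReal := by
  obtain ⟨C, hC, hg⟩ := gauss_upper j
  refine ⟨C * (π ^ (-(((j + 1 : ℕ) : ℝ)) / 2)), by positivity, fun s hs f hfm hf hfin => ?_⟩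
  have hmeas : Measurable fun q : S (j + 2) × E (j + 2) =>
      ENNReal.ofReal (gs s q.2) * ‖ft f ((q.1 : E (j + 2)) + q.2)‖ₑ ^ (2:ℝ) := by
    have h1 : Measurable fun q : S (j + 2) × E (j + 2) => ft f ((q.1 : E (j + 2)) + q.2) :=
      (stronglyMeasurable_ft f hfm).measurable.comp (by fun_prop)
    have h2 : Measurable fun q : S (j + 2) × E (j + 2) => gs s q.2 :=
      (continuous_gs s).measurable.comp measurable_snd
    fun_prop
  have h1 : ∫ q : S (j + 2) × E (j + 2), gs s q.2 * ‖ft f ((q.1 : E (j + 2)) + q.2)‖ ^ 2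
      ∂((sm (j + 2)).prod volume) = (∫⁻ q : S (j + 2) × E (j + 2),
      ENNReal.ofReal (gs s q.2) * ‖ft f ((q.1 : E (j + 2)) + q.2)‖ₑ ^ (2:ℝ)
      ∂((sm (j + 2)).prod volume)).toReal := by
    rw [integral_eq_lintegral_of_nonneg_ae]
    · congr 1
      refine lintegral_congr fun q => ?_
      rw [ENNReal.ofReal_mul (gs_nonneg hs _)]
      congr 1
      rw [ENNReal.ofReal_pow (norm_nonneg _), ofReal_norm]
      norm_cast
    · filter_upwards with q
      have := gs_nonneg hs q.2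
      positivity
    · have h1 : Measurable fun q : S (j + 2) × E (j + 2) => ft f ((q.1 : E (j + 2)) + q.2) :=
        (stronglyMeasurable_ft f hfm).measurable.comp (by fun_prop)
      have h2 : Measurable fun q : S (j + 2) × E (j + 2) => gs s q.2 :=
        (continuous_gs s).measurable.comp measurable_snd
      exact (h2.mul (h1.norm.pow_const 2)).aestronglyMeasurable
  rw [h1]
  have h2 : ∀ x : S (j + 2), ∫⁻ y : E (j + 2),
      ENNReal.ofReal (gs s y) * ‖ft f ((x : E (j + 2)) + y)‖ₑ ^ (2:ℝ) =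
      ∫⁻ z : E (j + 2), ENNReal.ofReal (gs s (z - (x : E (j + 2)))) * ‖ft f z‖ₑ ^ (2:ℝ) := by
    intro x
    rw [← lintegral_add_left_eq_self (fun z : E (j + 2) =>
      ENNReal.ofReal (gs s (z - (x : E (j + 2)))) * ‖ft f z‖ₑ ^ (2:ℝ)) (x : E (j + 2))]
    simp only [add_sub_cancel_left]
  have h3 : ∀ z : E (j + 2), ∫⁻ x : S (j + 2), ENNReal.ofReal (gs s (z - (x : E (j + 2))))
      ∂(sm (j + 2)) ≤ ENNReal.ofReal (C * (π ^ (-(((j + 1 : ℕ) : ℝ)) / 2)) * s ^ (-(1:ℝ) / 2)) := by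
    intro z
    have h4 := hg (Real.sqrt (π / s)) (by positivity) z
    have h5 : ∀ x : S (j + 2), ENNReal.ofReal (gs s (z - (x : E (j + 2)))) =
        ENNReal.ofReal (s ^ (-(((j + 2 : ℕ) : ℝ)) / 2)) *
        ENNReal.ofReal (Real.exp (-(Real.sqrt (π / s) ^ 2 * ‖z - (x : E (j + 2))‖ ^ 2))) := by
      intro x
      rw [← ENNReal.ofReal_mul (by positivity), Real.sq_sqrt (by positivity)]
      rfl
    simp_rw [h5]
    rw [lintegral_const_mul' _ _ ENNReal.ofReal_ne_top]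
    refine (mul_le_mul_right h4 _).trans ?_
    rw [← ENNReal.ofReal_mul (by positivity)]
    refine ENNReal.ofReal_le_ofReal (le_of_eq ?_)
    have e1 : Real.sqrt (π / s) ^ (j + 1) = π ^ (((j + 1 : ℕ) : ℝ) / 2) *
        s ^ (-(((j + 1 : ℕ) : ℝ)) / 2) := by
      rw [Real.sqrt_eq_rpow, ← Real.rpow_natCast, ← Real.rpow_mul (by positivity),
        Real.div_rpow Real.pi_pos.le hs.le, div_eq_mul_inv, ← Real.rpow_neg hs.le]
      congr 2 <;> ring
    rw [e1, div_eq_mul_inv C, mul_inv, ← Real.rpow_neg Real.pi_pos.le, ← Real.rpow_neg hs.le]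
    have e2 : s ^ (-(1:ℝ) / 2) = s ^ (-(((j + 2 : ℕ) : ℝ)) / 2) *
        s ^ (-(-(((j + 1 : ℕ) : ℝ)) / 2)) := by
      rw [← Real.rpow_add hs]
      congr 1
      push_cast
      ring
    rw [e2]
    have e3 : -(((j + 1 : ℕ) : ℝ) / 2) = -(((j + 1 : ℕ) : ℝ)) / 2 := by ring
    rw [e3]
    ring
  have hft : Measurable (ft f) := (stronglyMeasurable_ft f hfm).measurable
  have h6 : ∫⁻ q : S (j + 2) × E (j + 2),
      ENNReal.ofReal (gs s q.2) * ‖ft f ((q.1 : E (j + 2)) + q.2)‖ₑ ^ (2:ℝ)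
      ∂((sm (j + 2)).prod volume) ≤
      ENNReal.ofReal (C * (π ^ (-(((j + 1 : ℕ) : ℝ)) / 2)) * s ^ (-(1:ℝ) / 2)) *
        ∫⁻ x, ‖f x‖ₑ ^ (2:ℝ) := by
    rw [lintegral_prod _ hmeas.aemeasurable]
    simp only [h2]
    rw [lintegral_lintegral_swap]
    · calc ∫⁻ z : E (j + 2), ∫⁻ x : S (j + 2), ENNReal.ofReal (gs s (z - (x : E (j + 2)))) *
            ‖ft f z‖ₑ ^ (2:ℝ) ∂(sm (j + 2))
          ≤ ∫⁻ z : E (j + 2), ENNReal.ofReal
            (C * (π ^ (-(((j + 1 : ℕ) : ℝ)) / 2)) * s ^ (-(1:ℝ) / 2)) * ‖ft f z‖ₑ ^ (2:ℝ) := by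
            refine lintegral_mono fun z => ?_
            rw [lintegral_mul_const]
            · exact mul_le_mul_left (h3 z) _
            · have := (continuous_gs (n := j + 2) s).measurable
              fun_prop
        _ = ENNReal.ofReal (C * (π ^ (-(((j + 1 : ℕ) : ℝ)) / 2)) * s ^ (-(1:ℝ) / 2)) *
            ∫⁻ z : E (j + 2), ‖ft f z‖ₑ ^ (2:ℝ) := lintegral_const_mul' _ _ ENNReal.ofReal_ne_top
        _ ≤ _ := mul_le_mul_right (lintegral_ft_sq_le f hf) _
    · refine Measurable.aemeasurable ?_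
      have h7 := (continuous_gs (n := j + 2) s).measurable
      have h8 : Measurable fun q : S (j + 2) × E (j + 2) => gs s (q.2 - (q.1 : E (j + 2))) :=
        h7.comp (by fun_prop)
      have h9 : Measurable fun q : S (j + 2) × E (j + 2) => ft f q.2 := hft.comp measurable_snd
      exact (h8.ennreal_ofReal).mul (h9.enorm.pow_const 2)
  have h7 := ENNReal.toReal_mono (ENNReal.mul_ne_top ENNReal.ofReal_ne_top hfin) h6
  rw [ENNReal.toReal_mul, ENNReal.toReal_ofReal (by positivity)] at h7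
  exact h7

/-- The pointwise bound for the remaining kernel. -/
theorem kernel_le (j : ℕ) {C : ℝ} (hC : 0 < C) (hdec : ∀ ξ : E (j + 2), ξ ≠ 0 →
    ‖extn (fun _ => (1:ℂ)) ξ‖ ≤ C * ‖ξ‖ ^ (-((j : ℝ) + 1) / 2)) {t : ℝ} (ht : 0 < t)
    (ζ : E (j + 2)) :
    ‖extn (fun _ => (1:ℂ)) ζ * (1 - ((Real.exp (-(π * t * ‖ζ‖ ^ 2)) : ℝ) : ℂ)) ^ (j + 1)‖ ≤
      C * (π * t) ^ (((j : ℝ) + 1) / 4) := by
  by_cases hζ : ζ = 0
  · subst hζ
    simp only [norm_zero, ne_eq, OfNat.ofNat_ne_zero, not_false_eq_true, zero_pow, mul_zero,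
      neg_zero, Real.exp_zero, Complex.ofReal_one, sub_self, Nat.add_eq_zero_iff, one_ne_zero,
      and_false]
    positivity
  · have hn : 0 < ‖ζ‖ := norm_pos_iff.2 hζ
    have hx : 0 < π * t * ‖ζ‖ ^ 2 := by positivity
    have h1 : Real.exp (-(π * t * ‖ζ‖ ^ 2)) ≤ 1 := Real.exp_le_one_iff.2 (by linarith)
    have h2 : 1 - Real.exp (-(π * t * ‖ζ‖ ^ 2)) ≤ π * t * ‖ζ‖ ^ 2 := by
      have := Real.add_one_le_exp (-(π * t * ‖ζ‖ ^ 2))
      linarith
    have h3 : 0 ≤ 1 - Real.exp (-(π * t * ‖ζ‖ ^ 2)) := by linarith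
    have h3' : 1 - Real.exp (-(π * t * ‖ζ‖ ^ 2)) ≤ 1 := by
      have := Real.exp_pos (-(π * t * ‖ζ‖ ^ 2))
      linarith
    rw [norm_mul, norm_pow, ← Complex.ofReal_one, ← Complex.ofReal_sub, Complex.norm_real,
      Real.norm_eq_abs, abs_of_nonneg h3]
    have h4 : (1 - Real.exp (-(π * t * ‖ζ‖ ^ 2))) ^ (j + 1) ≤
        (π * t * ‖ζ‖ ^ 2) ^ (((j : ℝ) + 1) / 4) := by
      rcases h3.eq_or_lt with h0 | h0
      · rw [← h0]
        rw [zero_pow (by omega)]
        positivity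
      · calc (1 - Real.exp (-(π * t * ‖ζ‖ ^ 2))) ^ (j + 1)
            = (1 - Real.exp (-(π * t * ‖ζ‖ ^ 2))) ^ ((j : ℝ) + 1) := by
              rw [← Real.rpow_natCast]; push_cast; rfl
          _ ≤ (1 - Real.exp (-(π * t * ‖ζ‖ ^ 2))) ^ (((j : ℝ) + 1) / 4) :=
              Real.rpow_le_rpow_of_exponent_ge h0 h3' (by
                have : (0:ℝ) ≤ j := Nat.cast_nonneg j
                linarith)
          _ ≤ _ := Real.rpow_le_rpow h3 h2 (by positivity)
    calc ‖extn (fun _ => ((1:ℝ):ℂ)) ζ‖ * (1 - Real.exp (-(π * t * ‖ζ‖ ^ 2))) ^ (j + 1)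
        ≤ (C * ‖ζ‖ ^ (-((j : ℝ) + 1) / 2)) * (π * t * ‖ζ‖ ^ 2) ^ (((j : ℝ) + 1) / 4) := by
          gcongr
          have := hdec ζ hζ
          simpa using this
      _ = C * (π * t) ^ (((j : ℝ) + 1) / 4) := by
          rw [Real.mul_rpow (by positivity) (by positivity), ← Real.rpow_natCast ‖ζ‖ 2,
            ← Real.rpow_mul hn.le]
          have e1 : ‖ζ‖ ^ (-((j : ℝ) + 1) / 2) * ‖ζ‖ ^ (((2 : ℕ) : ℝ) * (((j : ℝ) + 1) / 4)) = 1 := by
            rw [← Real.rpow_add hn]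
            have : -((j : ℝ) + 1) / 2 + ((2 : ℕ) : ℝ) * (((j : ℝ) + 1) / 4) = 0 := by
              push_cast; ring
            rw [this, Real.rpow_zero]
          calc C * ‖ζ‖ ^ (-((j : ℝ) + 1) / 2) * ((π * t) ^ (((j : ℝ) + 1) / 4) *
                ‖ζ‖ ^ (((2 : ℕ) : ℝ) * (((j : ℝ) + 1) / 4)))
              = C * (π * t) ^ (((j : ℝ) + 1) / 4) *
                (‖ζ‖ ^ (-((j : ℝ) + 1) / 2) * ‖ζ‖ ^ (((2 : ℕ) : ℝ) * (((j : ℝ) + 1) / 4))) := by
                ring
            _ = _ := by rw [e1, mul_one]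

theorem norm_extn_one_le {n : ℕ} (ξ : E n) :
    ‖extn (fun _ => (1:ℂ)) ξ‖ ≤ (sm n).real univ := by
  rw [extn_eq]
  refine (norm_integral_le_of_norm_le_const (C := 1) ?_).trans (by rw [one_mul])
  filter_upwards with x
  rw [one_mul, norm_ch]

theorem measurable_extn {n : ℕ} (g : E n → ℂ) (hg : Measurable g) : Measurable (extn g) := by
  refine StronglyMeasurable.measurable ?_
  have h : extn g = fun ξ => ∫ x : S n, g x * ch (inner ℝ (x : E n) ξ) ∂(sm n) := rfl
  rw [h]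
  refine StronglyMeasurable.integral_prod_right
    (f := fun (ξ : E n) (x : S n) => g x * ch (inner ℝ (x : E n) ξ)) ?_
  refine Measurable.stronglyMeasurable ?_
  have h1 : Measurable fun p : E n × S n => ch (inner ℝ (p.2 : E n) p.1) := by
    have := continuous_ch
    exact Continuous.measurable (by fun_prop)
  exact (hg.comp (measurable_subtype_coe.comp measurable_snd)).mul h1

theorem restr_L2 (j : ℕ) : ∃ C : ℝ, 0 < C ∧ ∀ t : ℝ, 0 < t → ∀ f : E (j + 2) → ℂ,
    Measurable f → Integrable f → ∫⁻ x, ‖f x‖ₑ ^ (2:ℝ) ≠ ∞ →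
    ∫ x : S (j + 2), ‖ft f (x : E (j + 2))‖ ^ 2 ∂(sm (j + 2)) ≤
      C * (t ^ (-(1:ℝ) / 2) * (∫⁻ x, ‖f x‖ₑ ^ (2:ℝ)).toReal +
        t ^ (((j : ℝ) + 1) / 4) * (∫ x, ‖f x‖) ^ 2) := by
  obtain ⟨Cd, hCd, hdec⟩ := decay j
  obtain ⟨Cs, hCs, hsm⟩ := smoothed_le j
  refine ⟨Cd * π ^ (((j : ℝ) + 1) / 4) +
    ∑ k ∈ Finset.range (j + 1), ((j + 1).choose (k + 1) : ℝ) * Cs, by positivity,
    fun t ht f hfm hf hfin => ?_⟩
  set N := j + 1 with hN
  set σ : E (j + 2) → ℂ := extn (fun _ => (1:ℂ)) with hσ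
  set L2 : ℝ := (∫⁻ x, ‖f x‖ₑ ^ (2:ℝ)).toReal with hL2
  set L1 : ℝ := ∫ x, ‖f x‖ with hL1
  have hL20 : 0 ≤ L2 := ENNReal.toReal_nonneg
  set Er : E (j + 2) × E (j + 2) → ℂ := fun p =>
    ((Real.exp (-(π * t * ‖p.1 - p.2‖ ^ 2)) : ℝ) : ℂ) with hEr
  set Ik : ℕ → ℂ := fun k => ∫ p : E (j + 2) × E (j + 2),
    f p.1 * (starRingEnd ℂ) (f p.2) * (σ (p.1 - p.2) * Er p ^ k) with hIk
  have hErle : ∀ p, ‖Er p‖ ≤ 1 := fun p => by
    rw [hEr]
    simp only [Complex.norm_real, Real.norm_eq_abs, Real.abs_exp]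
    exact Real.exp_le_one_iff.2 (by
      have : 0 ≤ π * t * ‖p.1 - p.2‖ ^ 2 := by positivity
      linarith)
  have hErm : Measurable Er := by
    rw [hEr]
    exact Continuous.measurable (by fun_prop)
  have hσm : Measurable σ := measurable_extn _ measurable_const
  have hfc : Integrable (fun x => (starRingEnd ℂ) (f x)) := by
    exact (Complex.conjCLE : ℂ →L[ℝ] ℂ).integrable_comp hf
  have hFk : ∀ k : ℕ, Integrable (fun p : E (j + 2) × E (j + 2) =>
      f p.1 * (starRingEnd ℂ) (f p.2) * (σ (p.1 - p.2) * Er p ^ k)) := by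
    intro k
    refine (hf.mul_prod hfc).mul_bdd (c := (sm (j + 2)).real univ) ?_ ?_
    · exact ((hσm.comp (by fun_prop)).mul (hErm.pow_const k)).aestronglyMeasurable
    · filter_upwards with p
      rw [norm_mul, norm_pow]
      calc ‖σ (p.1 - p.2)‖ * ‖Er p‖ ^ k ≤ (sm (j + 2)).real univ * 1 := by
            gcongr
            · exact norm_extn_one_le _
            · exact pow_le_one₀ (norm_nonneg _) (hErle p)
        _ = _ := mul_one _
  -- the values
  have hI0 : Ik 0 = ((∫ x : S (j + 2), ‖ft f (x : E (j + 2))‖ ^ 2 ∂(sm (j + 2)) : ℝ) : ℂ) := by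
    rw [unsmoothed_eq f hf, hIk]
    simp only [pow_zero, mul_one]
    rfl
  have hIs : ∀ k : ℕ, ‖Ik (k + 1)‖ ≤ Cs * t ^ (-(1:ℝ) / 2) * L2 := by
    intro k
    have hk : 0 < ((k + 1 : ℕ) : ℝ) * t := by positivity
    have h1 := smoothed_eq hk f hf
    have h2 : Ik (k + 1) = ((∫ q : S (j + 2) × E (j + 2), gs (((k + 1 : ℕ) : ℝ) * t) q.2 *
        ‖ft f ((q.1 : E (j + 2)) + q.2)‖ ^ 2 ∂((sm (j + 2)).prod volume) : ℝ) : ℂ) := by
      rw [h1]
      refine integral_congr_ae (Filter.Eventually.of_forall fun p => ?_)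
      have h3 : Er p ^ (k + 1) =
          ((Real.exp (-(π * (((k + 1 : ℕ) : ℝ) * t) * ‖p.1 - p.2‖ ^ 2)) : ℝ) : ℂ) := by
        show ((Real.exp (-(π * t * ‖p.1 - p.2‖ ^ 2)) : ℝ) : ℂ) ^ (k + 1) = _
        rw [← Complex.ofReal_pow, ← Real.exp_nat_mul]
        congr 2
        ring
      simp only [h3]
      rfl
    rw [h2, Complex.norm_real, Real.norm_eq_abs, abs_of_nonneg]
    · refine (hsm _ hk f hfm hf hfin).trans ?_
      have h3 : (((k + 1 : ℕ) : ℝ) * t) ^ (-(1:ℝ) / 2) ≤ t ^ (-(1:ℝ) / 2) := by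
        refine Real.rpow_le_rpow_of_nonpos ht ?_ (by norm_num)
        have : (1:ℝ) ≤ ((k + 1 : ℕ) : ℝ) := by exact_mod_cast Nat.succ_pos k
        nlinarith
      gcongr
    · refine integral_nonneg fun q => ?_
      have := gs_nonneg hk q.2
      positivity
  -- binomial expansion
  have hbin : ∑ k ∈ Finset.range (N + 1), ((-1:ℂ) ^ k * (N.choose k : ℂ)) * Ik k =
      ∫ p : E (j + 2) × E (j + 2), f p.1 * (starRingEnd ℂ) (f p.2) *
        (σ (p.1 - p.2) * (1 - Er p) ^ N) := by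
    rw [hIk]
    simp only [← integral_const_mul]
    rw [← integral_finsetSum _ (fun k _ => (hFk k).const_mul _)]
    congr 1
    funext p
    have h1 : (1 - Er p) ^ N = ∑ k ∈ Finset.range (N + 1), (-1:ℂ) ^ k * (N.choose k : ℂ) * Er p ^ k := by
      rw [sub_eq_add_neg, add_comm, add_pow]
      refine Finset.sum_congr rfl fun k _ => ?_
      rw [one_pow, neg_pow]
      ring
    rw [h1, Finset.mul_sum, Finset.mul_sum]
    refine Finset.sum_congr rfl fun k _ => ?_
    ring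
  have hK : ‖∫ p : E (j + 2) × E (j + 2), f p.1 * (starRingEnd ℂ) (f p.2) *
        (σ (p.1 - p.2) * (1 - Er p) ^ N)‖ ≤ Cd * (π * t) ^ (((j : ℝ) + 1) / 4) * L1 ^ 2 :=
    norm_quad_le f hf _ _ fun p => kernel_le j hCd hdec ht (p.1 - p.2)
  rw [Finset.sum_range_succ'] at hbin
  simp only [pow_zero, Nat.choose_zero_right, Nat.cast_one, mul_one, one_mul] at hbin
  have hI0' : Ik 0 = (∫ p : E (j + 2) × E (j + 2), f p.1 * (starRingEnd ℂ) (f p.2) *
        (σ (p.1 - p.2) * (1 - Er p) ^ N)) -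
        ∑ k ∈ Finset.range N, ((-1:ℂ) ^ (k + 1) * (N.choose (k + 1) : ℂ)) * Ik (k + 1) := by
    rw [← hbin]; ring
  have hnn : 0 ≤ ∫ x : S (j + 2), ‖ft f (x : E (j + 2))‖ ^ 2 ∂(sm (j + 2)) :=
    integral_nonneg fun x => by positivity
  have hD0 : ∫ x : S (j + 2), ‖ft f (x : E (j + 2))‖ ^ 2 ∂(sm (j + 2)) = ‖Ik 0‖ := by
    rw [hI0, Complex.norm_real, Real.norm_eq_abs, abs_of_nonneg hnn]
  rw [hD0, hI0']
  calc _ ≤ ‖∫ p : E (j + 2) × E (j + 2), f p.1 * (starRingEnd ℂ) (f p.2) *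
        (σ (p.1 - p.2) * (1 - Er p) ^ N)‖ +
        ‖∑ k ∈ Finset.range N, ((-1:ℂ) ^ (k + 1) * (N.choose (k + 1) : ℂ)) * Ik (k + 1)‖ :=
        norm_sub_le _ _
    _ ≤ Cd * (π * t) ^ (((j : ℝ) + 1) / 4) * L1 ^ 2 +
        ∑ k ∈ Finset.range N, ((N.choose (k + 1) : ℝ)) * (Cs * t ^ (-(1:ℝ) / 2) * L2) := by
        gcongr
        refine (norm_sum_le _ _).trans (Finset.sum_le_sum fun k _ => ?_)
        rw [norm_mul, norm_mul, norm_pow, norm_neg, norm_one, one_pow, one_mul,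
          Complex.norm_natCast]
        gcongr
        exact hIs k
    _ ≤ _ := by
        rw [Real.mul_rpow Real.pi_pos.le ht.le, ← Finset.sum_mul, ← Finset.sum_mul]
        set B : ℝ := ∑ k ∈ Finset.range N, ((N.choose (k + 1) : ℝ)) with hB
        have hB0 : 0 ≤ B := by positivity
        have h1 : 0 ≤ Cd * π ^ (((j : ℝ) + 1) / 4) * (t ^ (-(1:ℝ) / 2) * L2) := by positivity
        have h2 : 0 ≤ B * Cs * (t ^ (((j : ℝ) + 1) / 4) * L1 ^ 2) := by positivity
        nlinarith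

/-- Cauchy-Schwarz on the sphere. -/
theorem norm_integral_mul_le {n : ℕ} (g h : S n → ℂ) (hg : Measurable g) (hh : Measurable h)
    (hg2 : Integrable (fun x => ‖g x‖ ^ 2) (sm n)) (hh2 : Integrable (fun x => ‖h x‖ ^ 2) (sm n)) :
    ‖∫ x, g x * h x ∂(sm n)‖ ≤
      Real.sqrt (∫ x, ‖g x‖ ^ 2 ∂(sm n)) * Real.sqrt (∫ x, ‖h x‖ ^ 2 ∂(sm n)) := by
  have h1 : ‖∫ x, g x * h x ∂(sm n)‖ ≤ ∫ x, ‖g x‖ * ‖h x‖ ∂(sm n) := by
    refine (norm_integral_le_integral_norm _).trans (le_of_eq ?_)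
    congr 1
    funext x
    rw [norm_mul]
  refine h1.trans ?_
  have h2 := integral_mul_norm_le_Lp_mul_Lq (μ := sm n) (f := g) (g := h) (p := 2) (q := 2)
    (by constructor <;> norm_num) ?_ ?_
  · rw [Real.sqrt_eq_rpow, Real.sqrt_eq_rpow]
    refine h2.trans (le_of_eq ?_)
    norm_cast
  · rw [ENNReal.ofReal_ofNat, memLp_two_iff_integrable_sq_norm hg.aestronglyMeasurable]
    exact hg2
  · rw [ENNReal.ofReal_ofNat, memLp_two_iff_integrable_sq_norm hh.aestronglyMeasurable]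
    exact hh2

theorem norm_ft_le {n : ℕ} (f : E n → ℂ) (x : E n) : ‖ft f x‖ ≤ ∫ ξ, ‖f ξ‖ := by
  unfold ft
  refine (norm_integral_le_integral_norm _).trans (le_of_eq ?_)
  congr 1
  funext ξ
  rw [norm_mul, norm_ch, mul_one]

theorem integral_mul_extn {n : ℕ} (f g : E n → ℂ) (hf : Integrable f) (hg : Measurable g)
    (hgb : ∀ x, ‖g x‖ ≤ 2) :
    ∫ ξ, f ξ * extn g ξ = ∫ x : S n, g x * ft f (x : E n) ∂(sm n) := by
  have hgi : Integrable (fun x : S n => g x) (sm n) := by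
    refine Integrable.of_bound (hg.comp measurable_subtype_coe).aestronglyMeasurable 2 ?_
    filter_upwards with x using hgb x
  have hint : Integrable (fun z : E n × S n => f z.1 * (g z.2 * ch (inner ℝ (z.2 : E n) z.1)))
      ((volume : Measure (E n)).prod (sm n)) := by
    have h2 : Integrable (fun z : E n × S n => f z.1 * g z.2)
        ((volume : Measure (E n)).prod (sm n)) := hf.mul_prod hgi
    have h3 : Measurable fun z : E n × S n => ch (inner ℝ (z.2 : E n) z.1) := by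
      refine continuous_ch.measurable.comp ?_
      exact Continuous.measurable (by fun_prop)
    have h4 := h2.mul_bdd (c := 1) h3.aestronglyMeasurable
      (by filter_upwards with z using (norm_ch _).le)
    refine h4.congr ?_
    filter_upwards with z
    ring
  calc ∫ ξ, f ξ * extn g ξ
      = ∫ ξ, (∫ x : S n, f ξ * (g x * ch (inner ℝ (x : E n) ξ)) ∂(sm n)) := by
        congr 1; funext ξ
        rw [integral_const_mul]; rfl
    _ = ∫ x : S n, (∫ ξ, f ξ * (g x * ch (inner ℝ (x : E n) ξ))) ∂(sm n) :=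
        integral_integral_swap hint
    _ = _ := by
        congr 1; funext x
        unfold ft
        rw [← integral_const_mul]
        congr 1; funext ξ
        rw [real_inner_comm]
        ring

/-- The weak type estimate. -/
theorem weak_type (j : ℕ) : ∃ C : ℝ, 0 < C ∧ ∀ g : E (j + 2) → ℂ, Measurable g →
    (∀ x, ‖g x‖ ≤ 2) → ∀ l : ℝ, 0 < l →
    volume {ξ : E (j + 2) | l < ‖extn g ξ‖} ≤ ENNReal.ofReal
      ((C * (∫ x : S (j + 2), ‖g x‖ ^ 2 ∂(sm (j + 2))) / l ^ 2) ^ (((j : ℝ) + 3) / (j + 1))) := by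
  obtain ⟨C, hC, hr⟩ := restr_L2 j
  refine ⟨2 * C, by positivity, fun g hg hgb l hl => ?_⟩
  set γ2 : ℝ := ∫ x : S (j + 2), ‖g x‖ ^ 2 ∂(sm (j + 2)) with hγ2
  have hγ0 : 0 ≤ γ2 := integral_nonneg fun x => by positivity
  have hm : Measurable (extn g) := measurable_extn g hg
  -- it is enough to bound the part in a ball
  have key : ∀ m : ℕ, volume ({ξ : E (j + 2) | l < ‖extn g ξ‖} ∩ Metric.ball 0 m) ≤
      ENNReal.ofReal ((2 * C * γ2 / l ^ 2) ^ (((j : ℝ) + 3) / (j + 1))) := by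
    intro m
    set A : Set (E (j + 2)) := {ξ : E (j + 2) | l < ‖extn g ξ‖} ∩ Metric.ball 0 m with hA
    have hAm : MeasurableSet A :=
      (measurableSet_lt measurable_const hm.norm).inter Metric.isOpen_ball.measurableSet
    have hAfin : volume A ≠ ∞ :=
      ((measure_mono inter_subset_right).trans_lt measure_ball_lt_top).ne
    set a : ℝ := (volume A).toReal with ha
    rw [← ENNReal.ofReal_toReal hAfin]
    refine ENNReal.ofReal_le_ofReal ?_
    rcases (ENNReal.toReal_nonneg (a := volume A)).eq_or_lt with h0 | h00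
    · rw [← h0]; positivity
    have h0 : 0 < a := h00
    -- the test function
    set φ : E (j + 2) → ℂ := fun ξ => (starRingEnd ℂ) (extn g ξ) / ((‖extn g ξ‖ : ℝ) : ℂ) with hφ
    set f : E (j + 2) → ℂ := A.indicator φ with hf
    have hφm : Measurable φ :=
      (Complex.continuous_conj.measurable.comp hm).div (Complex.measurable_ofReal.comp hm.norm)
    have hfm : Measurable f := hφm.indicator hAm
    have hφ1 : ∀ ξ, ‖φ ξ‖ ≤ 1 := fun ξ => by
      simp only [hφ]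
      rw [norm_div, RCLike.norm_conj, Complex.norm_real, norm_norm]
      exact div_self_le_one _
    have hfle : ∀ ξ, ‖f ξ‖ ≤ A.indicator (fun _ => (1:ℝ)) ξ := fun ξ => by
      by_cases hξ : ξ ∈ A
      · rw [hf, indicator_of_mem hξ, indicator_of_mem hξ]
        exact hφ1 ξ
      · rw [hf, indicator_of_notMem hξ, indicator_of_notMem hξ, norm_zero]
    have hind : Integrable (A.indicator (fun _ => (1:ℝ))) :=
      (integrable_indicator_iff hAm).2 (integrableOn_const hAfin)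
    have hfi : Integrable f := by
      refine hind.mono' hfm.aestronglyMeasurable ?_
      filter_upwards with ξ using hfle ξ
    have hL1 : ∫ ξ, ‖f ξ‖ ≤ a := by
      calc ∫ ξ, ‖f ξ‖ ≤ ∫ ξ, A.indicator (fun _ => (1:ℝ)) ξ :=
            integral_mono hfi.norm hind hfle
        _ = a := by
            rw [integral_indicator hAm, setIntegral_const, smul_eq_mul, mul_one]
            rfl
    have hL2' : ∫⁻ ξ, ‖f ξ‖ₑ ^ (2:ℝ) ≤ volume A := by
      calc ∫⁻ ξ, ‖f ξ‖ₑ ^ (2:ℝ) ≤ ∫⁻ ξ, A.indicator (fun _ => (1:ℝ≥0∞)) ξ := by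
            refine lintegral_mono fun ξ => ?_
            by_cases hξ : ξ ∈ A
            · rw [hf, indicator_of_mem hξ, indicator_of_mem hξ]
              have h1 : ‖φ ξ‖ₑ ≤ 1 := by
                rw [← ofReal_norm]
                exact ENNReal.ofReal_le_one.2 (hφ1 ξ)
              calc ‖φ ξ‖ₑ ^ (2:ℝ) ≤ 1 ^ (2:ℝ) := ENNReal.rpow_le_rpow h1 (by norm_num)
                _ = 1 := ENNReal.one_rpow _
            · rw [hf, indicator_of_notMem hξ, indicator_of_notMem hξ, enorm_zero,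
                ENNReal.zero_rpow_of_pos (by norm_num)]
        _ = volume A := by
            rw [lintegral_indicator hAm, setLIntegral_const, one_mul]
    have hL2fin : ∫⁻ ξ, ‖f ξ‖ₑ ^ (2:ℝ) ≠ ∞ := (hL2'.trans_lt hAfin.lt_top).ne
    have hL2 : (∫⁻ ξ, ‖f ξ‖ₑ ^ (2:ℝ)).toReal ≤ a := ENNReal.toReal_mono hAfin hL2'
    -- lower bound for the pairing
    have hpair : l * a ≤ ‖∫ ξ, f ξ * extn g ξ‖ := by
      have h1 : ∀ ξ, f ξ * extn g ξ = ((A.indicator (fun ξ => ‖extn g ξ‖) ξ : ℝ) : ℂ) := by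
        intro ξ
        by_cases hξ : ξ ∈ A
        · rw [hf, indicator_of_mem hξ, indicator_of_mem hξ]
          have h2 : (0:ℝ) < ‖extn g ξ‖ := hl.trans hξ.1
          have h3 : ((‖extn g ξ‖ : ℝ) : ℂ) ≠ 0 := by exact_mod_cast h2.ne'
          simp only [hφ]
          rw [div_mul_eq_mul_div, Complex.conj_mul', sq, mul_div_assoc, div_self h3, mul_one]
        · rw [hf, indicator_of_notMem hξ, indicator_of_notMem hξ]
          simp
      have h2 : ∫ ξ, f ξ * extn g ξ =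
          ((∫ ξ, A.indicator (fun ξ => ‖extn g ξ‖) ξ : ℝ) : ℂ) := by
        calc ∫ ξ, f ξ * extn g ξ
            = ∫ ξ, ((A.indicator (fun ξ => ‖extn g ξ‖) ξ : ℝ) : ℂ) := by
              congr 1; funext ξ; exact h1 ξ
          _ = _ := integral_ofReal
      rw [h2, Complex.norm_real, Real.norm_eq_abs]
      refine le_trans ?_ (le_abs_self _)
      have h3 : l * a = ∫ ξ, A.indicator (fun _ => l) ξ := by
        rw [integral_indicator hAm, setIntegral_const, smul_eq_mul, mul_comm]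
        rfl
      rw [h3]
      have hgbd : ∀ ξ, ‖extn g ξ‖ ≤ 2 * (sm (j + 2)).real univ := fun ξ => by
        rw [extn_eq]
        refine norm_integral_le_of_norm_le_const ?_
        filter_upwards with x
        rw [norm_mul, norm_ch, mul_one]
        exact hgb _
      refine integral_mono ?_ ?_ ?_
      · exact (integrable_indicator_iff hAm).2 (integrableOn_const hAfin)
      · refine (integrable_indicator_iff hAm).2 ?_
        refine Measure.integrableOn_of_bounded hAfin hm.norm.aestronglyMeasurable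
          (M := 2 * (sm (j + 2)).real univ) ?_
        filter_upwards with ξ
        rw [norm_norm]
        exact hgbd ξ
      · intro ξ
        by_cases hξ : ξ ∈ A
        · rw [indicator_of_mem hξ, indicator_of_mem hξ]
          exact hξ.1.le
        · rw [indicator_of_notMem hξ, indicator_of_notMem hξ]
    -- upper bound
    have hS : ∫ x : S (j + 2), ‖ft f (x : E (j + 2))‖ ^ 2 ∂(sm (j + 2)) ≤
        2 * C * a ^ (((j : ℝ) + 5) / (j + 3)) := by
      have ht : 0 < a ^ (-(4:ℝ) / (j + 3)) := Real.rpow_pos_of_pos h0 _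
      refine (hr _ ht f hfm hfi hL2fin).trans ?_
      have hj3 : (0:ℝ) < (j:ℝ) + 3 := by positivity
      have e1 : (a ^ (-(4:ℝ) / (j + 3))) ^ (-(1:ℝ) / 2) * a = a ^ (((j : ℝ) + 5) / (j + 3)) := by
        calc (a ^ (-(4:ℝ) / (j + 3))) ^ (-(1:ℝ) / 2) * a
            = a ^ (-(4:ℝ) / (j + 3) * (-(1:ℝ) / 2)) * a ^ (1:ℝ) := by
              rw [Real.rpow_one, ← Real.rpow_mul h0.le]
          _ = a ^ (((j : ℝ) + 5) / (j + 3)) := by
              rw [← Real.rpow_add h0]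
              congr 1
              field_simp
              ring
      have e2 : (a ^ (-(4:ℝ) / (j + 3))) ^ (((j : ℝ) + 1) / 4) * a ^ 2 =
          a ^ (((j : ℝ) + 5) / (j + 3)) := by
        rw [← Real.rpow_mul h0.le, ← Real.rpow_natCast a 2, ← Real.rpow_add h0]
        congr 1
        push_cast
        field_simp
        ring
      have hL10 : 0 ≤ ∫ ξ, ‖f ξ‖ := integral_nonneg fun ξ => norm_nonneg _
      calc C * ((a ^ (-(4:ℝ) / (j + 3))) ^ (-(1:ℝ) / 2) * (∫⁻ x, ‖f x‖ₑ ^ (2:ℝ)).toReal +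
            (a ^ (-(4:ℝ) / (j + 3))) ^ (((j : ℝ) + 1) / 4) * (∫ x, ‖f x‖) ^ 2)
          ≤ C * ((a ^ (-(4:ℝ) / (j + 3))) ^ (-(1:ℝ) / 2) * a +
            (a ^ (-(4:ℝ) / (j + 3))) ^ (((j : ℝ) + 1) / 4) * a ^ 2) := by
            gcongr
        _ = _ := by rw [e1, e2]; ring
    have hCS := norm_integral_mul_le (fun x : S (j + 2) => g x)
      (fun x : S (j + 2) => ft f (x : E (j + 2)))
      (hg.comp measurable_subtype_coe)
      ((stronglyMeasurable_ft f hfm).measurable.comp measurable_subtype_coe)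
      (by
        refine Integrable.of_bound
          (((hg.comp measurable_subtype_coe).norm.pow_const 2).aestronglyMeasurable) (2 ^ 2) ?_
        filter_upwards with x
        rw [norm_pow, norm_norm]
        exact pow_le_pow_left₀ (norm_nonneg _) (hgb _) 2)
      (by
        refine Integrable.of_bound
          ((((stronglyMeasurable_ft f hfm).measurable.comp
            measurable_subtype_coe).norm.pow_const 2).aestronglyMeasurable)
            ((∫ ξ, ‖f ξ‖) ^ 2) ?_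
        filter_upwards with x
        rw [norm_pow, norm_norm]
        exact pow_le_pow_left₀ (norm_nonneg _) (norm_ft_le f _) 2)
    rw [← integral_mul_extn f g hfi hg hgb] at hCS
    have h1 : l * a ≤ Real.sqrt γ2 * Real.sqrt (2 * C * a ^ (((j : ℝ) + 5) / (j + 3))) := by
      refine hpair.trans (hCS.trans ?_)
      gcongr
    have h2 : (l * a) ^ 2 ≤ γ2 * (2 * C * a ^ (((j : ℝ) + 5) / (j + 3))) := by
      calc (l * a) ^ 2 ≤ (Real.sqrt γ2 * Real.sqrt (2 * C * a ^ (((j : ℝ) + 5) / (j + 3)))) ^ 2 :=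
            pow_le_pow_left₀ (by positivity) h1 2
        _ = _ := by rw [mul_pow, Real.sq_sqrt hγ0, Real.sq_sqrt (by positivity)]
    have hj3 : (0:ℝ) < (j:ℝ) + 3 := by positivity
    have hj1 : (0:ℝ) < (j:ℝ) + 1 := by positivity
    have h3 : a ^ (((j : ℝ) + 1) / (j + 3)) ≤ 2 * C * γ2 / l ^ 2 := by
      rw [le_div_iff₀ (by positivity)]
      have e1 : a ^ 2 = a ^ (((j : ℝ) + 1) / (j + 3)) * a ^ (((j : ℝ) + 5) / (j + 3)) := by
        rw [← Real.rpow_add h0, ← Real.rpow_natCast a 2]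
        congr 1
        push_cast
        field_simp
        ring
      have hp : 0 < a ^ (((j : ℝ) + 5) / (j + 3)) := Real.rpow_pos_of_pos h0 _
      refine le_of_mul_le_mul_right ?_ hp
      calc a ^ (((j : ℝ) + 1) / (j + 3)) * l ^ 2 * a ^ (((j : ℝ) + 5) / (j + 3))
          = (l * a) ^ 2 := by rw [mul_pow, e1]; ring
        _ ≤ _ := h2
        _ = _ := by ring
    calc a = (a ^ (((j : ℝ) + 1) / (j + 3))) ^ (((j : ℝ) + 3) / (j + 1)) := by
          rw [← Real.rpow_mul h0.le]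
          have : ((j : ℝ) + 1) / (j + 3) * (((j : ℝ) + 3) / (j + 1)) = 1 := by
            field_simp
          rw [this, Real.rpow_one]
      _ ≤ _ := Real.rpow_le_rpow (by positivity) h3 (by positivity)
  have hun : {ξ : E (j + 2) | l < ‖extn g ξ‖} =
      ⋃ m : ℕ, ({ξ : E (j + 2) | l < ‖extn g ξ‖} ∩ Metric.ball 0 m) := by
    ext ξ
    simp only [mem_iUnion, mem_inter_iff, exists_and_left, iff_self_and]
    intro _
    obtain ⟨m, hm⟩ := exists_nat_gt ‖ξ‖
    exact ⟨m, by simpa using hm⟩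
  rw [hun, Monotone.measure_iUnion]
  · exact iSup_le key
  · intro m m' hmm'
    exact inter_subset_inter_right _ (Metric.ball_subset_ball (by exact_mod_cast hmm'))

end STAux

open STAux DecayAux in
theorem stein_tomas (j : ℕ) (q : ℝ) (hq : 2 * ((j : ℝ) + 3) / (j + 1) < q) :
    ∃ C : ℝ≥0∞, C ≠ ∞ ∧ ∀ g : E (j + 2) → ℂ, Measurable g → (∀ x, ‖g x‖ ≤ 2) →
      ∫⁻ ξ, ‖extn g ξ‖ₑ ^ q ≤ C * (∫⁻ x : S (j + 2), ‖g x‖ₑ ^ (2:ℝ) ∂(sm (j + 2))) ^ (q / 2) := by
  obtain ⟨C, hC, hw⟩ := weak_type j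
  have hj1 : (0:ℝ) < (j:ℝ) + 1 := by positivity
  set q0 : ℝ := 2 * ((j : ℝ) + 3) / (j + 1) with hq0
  have hq0' : ((j : ℝ) + 3) / (j + 1) = q0 / 2 := by rw [hq0]; ring
  have hq0pos : 0 < q0 := by positivity
  have hqpos : 0 < q := hq0pos.trans hq
  have hr : 0 < q - q0 := by linarith
  set Sg : ℝ := (sm (j + 2)).real univ with hSg
  have hSg0 : 0 ≤ Sg := measureReal_nonneg
  refine ⟨ENNReal.ofReal (q * C ^ (q0 / 2) * Sg ^ ((q - q0) / 2) / (q - q0)),
    ENNReal.ofReal_ne_top, fun g hg hgb => ?_⟩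
  set γ2 : ℝ := ∫ x : S (j + 2), ‖g x‖ ^ 2 ∂(sm (j + 2)) with hγ2
  have hγ0 : 0 ≤ γ2 := integral_nonneg fun x => by positivity
  have hm : Measurable (extn g) := measurable_extn g hg
  have hgi : Integrable (fun x : S (j + 2) => ‖g x‖ ^ 2) (sm (j + 2)) := by
    refine Integrable.of_bound
      (((hg.comp measurable_subtype_coe).norm.pow_const 2).aestronglyMeasurable) (2 ^ 2) ?_
    filter_upwards with x
    rw [norm_pow, norm_norm]
    exact pow_le_pow_left₀ (norm_nonneg _) (hgb _) 2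
  have hγ : ∫⁻ x : S (j + 2), ‖g x‖ₑ ^ (2:ℝ) ∂(sm (j + 2)) = ENNReal.ofReal γ2 := by
    rw [hγ2, ofReal_integral_eq_lintegral_ofReal hgi (by filter_upwards with x using by positivity)]
    refine lintegral_congr fun x => ?_
    rw [ENNReal.ofReal_pow (norm_nonneg _), ofReal_norm]
    norm_cast
  -- sup bound
  set B : ℝ := Real.sqrt (Sg * γ2) with hB
  have hB0 : 0 ≤ B := Real.sqrt_nonneg _
  have hsup : ∀ ξ, ‖extn g ξ‖ ≤ B := by
    intro ξ
    have h1 := norm_integral_mul_le (fun x : S (j + 2) => g x)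
      (fun x : S (j + 2) => ch (inner ℝ (x : E (j + 2)) ξ))
      (hg.comp measurable_subtype_coe)
      (by
        have := continuous_ch
        exact Continuous.measurable (by fun_prop)) hgi
      (by
        simp only [norm_ch]
        exact integrable_const _)
    simp only [norm_ch, one_pow, integral_const, smul_eq_mul, mul_one] at h1
    rw [extn_eq]
    refine h1.trans (le_of_eq ?_)
    rw [hB, mul_comm Sg, Real.sqrt_mul hγ0]
  have h1 : ∫⁻ ξ, ‖extn g ξ‖ₑ ^ q = ENNReal.ofReal q *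
      ∫⁻ t in Ioi 0, volume {ξ : E (j + 2) | t < ‖extn g ξ‖} * ENNReal.ofReal (t ^ (q - 1)) := by
    rw [← lintegral_rpow_eq_lintegral_meas_lt_mul volume
      (by filter_upwards with ξ using norm_nonneg _) hm.norm.aemeasurable hqpos]
    refine lintegral_congr fun ξ => ?_
    rw [← ENNReal.ofReal_rpow_of_nonneg (norm_nonneg _) hqpos.le, ofReal_norm]
  have h2 : ∫⁻ t in Ioi 0, volume {ξ : E (j + 2) | t < ‖extn g ξ‖} * ENNReal.ofReal (t ^ (q - 1)) ≤
      ∫⁻ t in Ioc 0 B, ENNReal.ofReal ((C * γ2) ^ (q0 / 2) * t ^ (q - q0 - 1)) := by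
    rw [← lintegral_indicator measurableSet_Ioi, ← lintegral_indicator measurableSet_Ioc]
    refine lintegral_mono fun t => ?_
    by_cases ht : t ∈ Ioc 0 B
    · have ht' : t ∈ Ioi (0:ℝ) := ht.1
      rw [indicator_of_mem ht', indicator_of_mem ht]
      have ht0 : (0:ℝ) < t := ht.1
      refine (mul_le_mul_left (hw g hg hgb t ht0) _).trans ?_
      rw [← ENNReal.ofReal_mul (by positivity)]
      refine ENNReal.ofReal_le_ofReal (le_of_eq ?_)
      rw [hq0', Real.div_rpow (by positivity) (by positivity), ← Real.rpow_natCast t 2,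
        ← Real.rpow_mul ht0.le, div_eq_mul_inv, ← Real.rpow_neg ht0.le, mul_assoc,
        ← Real.rpow_add ht0]
      congr 2
      push_cast
      ring
    · rw [indicator_of_notMem ht]
      by_cases ht' : t ∈ Ioi (0:ℝ)
      · rw [indicator_of_mem ht']
        have h3 : {ξ : E (j + 2) | t < ‖extn g ξ‖} = ∅ := by
          rw [eq_empty_iff_forall_notMem]
          intro ξ hξ
          have h4 : t < ‖extn g ξ‖ := hξ
          exact ht ⟨ht', (h4.trans_le (hsup ξ)).le⟩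
        rw [h3]
        simp
      · rw [indicator_of_notMem ht']
  have hii : IntegrableOn (fun t : ℝ => t ^ (q - q0 - 1)) (Ioc 0 B) := by
    have := intervalIntegral.intervalIntegrable_rpow' (a := 0) (b := B) (r := q - q0 - 1)
      (by linarith)
    exact (intervalIntegrable_iff_integrableOn_Ioc_of_le hB0).1 this
  have h3 : ∫⁻ t in Ioc 0 B, ENNReal.ofReal ((C * γ2) ^ (q0 / 2) * t ^ (q - q0 - 1)) =
      ENNReal.ofReal ((C * γ2) ^ (q0 / 2) * (B ^ (q - q0) / (q - q0))) := by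
    rw [← ofReal_integral_eq_lintegral_ofReal (hii.const_mul _)]
    · rw [integral_const_mul, ← intervalIntegral.integral_of_le hB0, integral_rpow]
      · congr 2
        rw [sub_add_cancel, Real.zero_rpow hr.ne', sub_zero]
      · left; linarith
    · filter_upwards [ae_restrict_mem measurableSet_Ioc] with t ht
      have : (0:ℝ) < t := ht.1
      positivity
  rw [h1, hγ]
  refine (mul_le_mul_right (h2.trans_eq h3) _).trans (le_of_eq ?_)
  rw [ENNReal.ofReal_rpow_of_nonneg hγ0 (by positivity), ← ENNReal.ofReal_mul hqpos.le,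
    ← ENNReal.ofReal_mul (by positivity)]
  congr 1
  rw [hB, Real.sqrt_eq_rpow, ← Real.rpow_mul (by positivity), Real.mul_rpow hC.le hγ0,
    Real.mul_rpow hSg0 hγ0]
  have e1 : γ2 ^ (q / 2) = γ2 ^ (q0 / 2) * γ2 ^ (1 / 2 * (q - q0)) := by
    rcases hγ0.eq_or_lt with h0 | h0
    · rw [← h0, Real.zero_rpow (by positivity), Real.zero_rpow (by positivity), zero_mul]
    · rw [← Real.rpow_add h0]
      congr 1
      ring
  rw [e1]
  have e2 : 1 / 2 * (q - q0) = (q - q0) / 2 := by ring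
  rw [e2]
  ring

end Pool.Agent.MP_6cbfb8_an
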