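import Pool.Agent.MP_6cbfb8_an.Sphere

/-!
Polar coordinates for the extension operator.
-/

namespace Pool.Agent.MP_6cbfb8_an

open MeasureTheory Set
open scoped ENNReal Real RealInnerProductSpace

theorem inner_join {n : ℕ} (x y : E n) (s t : ℝ) :
    inner ℝ (join x s) (join y t) = inner ℝ x y + s * t := by
  unfold join
  simp only [PiLp.inner_apply, Fin.sum_univ_castSucc, Fin.snoc_castSucc, Fin.snoc_last]
  simp [mul_comm]

theorem inner_pt_join {n : ℕ} (θ : ℝ) (ω y : E n) (z : ℝ) :
    inner ℝ (pt θ ω) (join y z) = Real.sin θ * inner ℝ ω y + z * Real.cos θ := by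
  unfold pt
  rw [inner_join, real_inner_smul_left]
  ring

theorem join_continuous {n : ℕ} : Continuous (fun q : E n × ℝ => join q.1 q.2) := by
  unfold join
  refine (PiLp.continuous_toLp 2 _).comp ?_
  refine continuous_pi fun i => ?_
  refine Fin.lastCases ?_ (fun i => ?_) i
  · simp only [Fin.snoc_last]
    fun_prop
  · simp only [Fin.snoc_castSucc]
    fun_prop

theorem pt_continuous {n : ℕ} : Continuous (fun q : ℝ × E n => pt q.1 q.2) := by
  unfold pt
  exact join_continuous.comp (f := fun q : ℝ × E n => (Real.sin q.1 • q.2, Real.cos q.1))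
    (by fun_prop)

theorem extn_eq_cyl (j : ℕ) (g : E (j + 3) → ℂ) (hg : Measurable g) (hb : ∀ x, ‖g x‖ ≤ 2)
    (y : E (j + 2)) (z : ℝ) : extn g (join y z) = cyl j (fun θ ω => g (pt θ ω)) y z := by
  unfold extn cyl
  set μ : Measure ℝ := ((volume : Measure ℝ).restrict (Ioo 0 π)).withDensity
        (fun θ => ENNReal.ofReal (Real.sin θ ^ (j + 1))) with hμ
  have hsl := slicing (j + 1)
  have hμfin : IsFiniteMeasure μ := by
    refine ⟨?_⟩
    rw [hμ, withDensity_apply _ MeasurableSet.univ, Measure.restrict_univ]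
    calc ∫⁻ θ in Ioo 0 π, ENNReal.ofReal (Real.sin θ ^ (j + 1)) ≤ ∫⁻ θ in Ioo 0 π, 1 := by
          refine lintegral_mono fun θ => ?_
          rw [← ENNReal.ofReal_one]
          refine ENNReal.ofReal_le_ofReal ?_
          refine (le_abs_self _).trans ?_
          rw [abs_pow]
          exact pow_le_one₀ (abs_nonneg _) (Real.abs_sin_le_one θ)
      _ < ∞ := by simp
  have hF : Measurable (fun x : S (j + 3) => g x *
      Complex.exp (((-(2 * π * inner ℝ (x : E (j + 3)) (join y z)) : ℝ) : ℂ) * Complex.I)) := by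
    refine (hg.comp measurable_subtype_coe).mul ?_
    have : Continuous (fun x : S (j + 3) =>
        Complex.exp (((-(2 * π * inner ℝ (x : E (j + 3)) (join y z)) : ℝ) : ℂ) * Complex.I)) := by
      fun_prop
    exact this.measurable
  have hnorm : ∀ (t : ℝ) (w : ℂ), ‖w * Complex.exp ((t : ℂ) * Complex.I)‖ = ‖w‖ := by
    intro t w
    rw [norm_mul, Complex.norm_exp_ofReal_mul_I, mul_one]
  have hG : Measurable (fun q : ℝ × S (j + 2) => g (pt q.1 (q.2 : E (j + 2))) *
        Complex.exp (((-(2 * π * (Real.sin q.1 * inner ℝ (q.2 : E (j + 2)) y + z * Real.cos q.1)) : ℝ) : ℂ)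
          * Complex.I)) := by
    have h := hF.comp hsl.measurable
    have h2 : ((fun x : S (j + 3) => g x *
      Complex.exp (((-(2 * π * inner ℝ (x : E (j + 3)) (join y z)) : ℝ) : ℂ) * Complex.I)) ∘
      (fun q : ℝ × S (j + 2) => (⟨pt q.1 (q.2 : E (j + 2)), pt_mem q.1 q.2⟩ : S (j + 3)))) =
      (fun q : ℝ × S (j + 2) => g (pt q.1 (q.2 : E (j + 2))) *
        Complex.exp (((-(2 * π * (Real.sin q.1 * inner ℝ (q.2 : E (j + 2)) y + z * Real.cos q.1)) : ℝ) : ℂ)
          * Complex.I)) := by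
      ext q
      simp only [Function.comp, inner_pt_join]
    rw [← h2]
    exact h
  have hint : Integrable (fun q : ℝ × S (j + 2) => g (pt q.1 (q.2 : E (j + 2))) *
        Complex.exp (((-(2 * π * (Real.sin q.1 * inner ℝ (q.2 : E (j + 2)) y + z * Real.cos q.1)) : ℝ) : ℂ)
          * Complex.I)) (μ.prod (sm (j + 2))) := by
    refine Integrable.of_bound hG.aestronglyMeasurable 2 (Filter.Eventually.of_forall fun q => ?_)
    rw [hnorm]
    exact hb _
  have h1 : ∫ x : S (j + 3), g x *
      Complex.exp (((-(2 * π * inner ℝ (x : E (j + 3)) (join y z)) : ℝ) : ℂ) * Complex.I) ∂(sm (j + 3)) =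
      ∫ q : ℝ × S (j + 2), g (pt q.1 (q.2 : E (j + 2))) *
        Complex.exp (((-(2 * π * (Real.sin q.1 * inner ℝ (q.2 : E (j + 2)) y + z * Real.cos q.1)) : ℝ) : ℂ)
          * Complex.I) ∂(μ.prod (sm (j + 2))) := by
    conv_lhs => rw [← hsl.map_eq]
    rw [integral_map hsl.measurable.aemeasurable hF.aestronglyMeasurable]
    simp only [inner_pt_join]
    rfl
  rw [h1]
  rw [integral_prod _ hint, hμ, integral_withDensity_eq_integral_toReal_smul (by fun_prop) (by simp)]
  refine setIntegral_congr_fun measurableSet_Ioo ?_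
  intro θ hθ
  have hs : 0 ≤ Real.sin θ ^ (j + 1) := pow_nonneg (Real.sin_pos_of_mem_Ioo hθ).le _
  simp only
  rw [ENNReal.toReal_ofReal hs, Complex.real_smul, mul_comm]

end Pool.Agent.MP_6cbfb8_an
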