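import Pool.Agent.MP_6cbfb8_an.Tools
import Pool.Agent.MP_6cbfb8_an.Sphere
import Pool.Agent.MP_6cbfb8_an.ExtnCyl
import Pool.Agent.MP_6cbfb8_an.SteinTomas

/-!
Consequences of the slicing formula; the Stein-Tomas estimate in polar coordinates.
-/

namespace Pool.Agent.MP_6cbfb8_an

open MeasureTheory Set
open scoped ENNReal Real RealInnerProductSpace

lemma measurable_join {n : ℕ} : Measurable fun q : E n × ℝ => join q.1 q.2 := by
  unfold join
  refine (WithLp.measurable_toLp 2 _).comp ?_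
  refine measurable_pi_lambda _ fun i => ?_
  refine Fin.lastCases ?_ (fun i => ?_) i
  · simp only [Fin.snoc_last]
    fun_prop
  · simp only [Fin.snoc_castSucc]
    fun_prop

lemma measurable_pt {n : ℕ} : Measurable fun q : ℝ × E n => pt q.1 q.2 := by
  unfold pt
  exact measurable_join.comp (f := fun q : ℝ × E n => (Real.sin q.1 • q.2, Real.cos q.1))
    (by fun_prop)

lemma join_castSucc {n : ℕ} (y : E n) (z : ℝ) (i : Fin n) : join y z (Fin.castSucc i) = y i := by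
  simp [join]

lemma join_last {n : ℕ} (y : E n) (z : ℝ) : join y z (Fin.last n) = z := by
  simp [join]

lemma lintegral_slice (j : ℕ) (φ : E (j + 2) → ℝ≥0∞) (hφ : Measurable φ) :
    ∫⁻ x : S (j + 2), φ x ∂(sm (j + 2)) =
      ∫⁻ θ in Ioo 0 π, ENNReal.ofReal (Real.sin θ ^ j) *
        (∫⁻ ω : S (j + 1), φ (pt θ (ω : E (j + 1))) ∂(sm (j + 1))) := by
  have h := (slicing j).lintegral_comp (f := fun x : S (j + 2) => φ (x : E (j + 2)))
    (hφ.comp measurable_subtype_coe)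
  rw [← h]
  have hm : Measurable fun q : ℝ × S (j + 1) => φ (pt q.1 (q.2 : E (j + 1))) := by
    refine hφ.comp (measurable_pt.comp (f := fun q : ℝ × S (j + 1) => (q.1, (q.2 : E (j + 1)))) ?_)
    fun_prop
  rw [lintegral_prod _ hm.aemeasurable]
  rw [lintegral_withDensity_eq_lintegral_mul₀]
  · rfl
  · fun_prop
  · exact (hm.lintegral_prod_right' (ν := sm (j + 1))).aemeasurable

/-- The function on the sphere of `R^(n+1)` with given values in polar coordinates. -/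
noncomputable def uncyl {n : ℕ} (G : ℝ → E n → ℂ) (x : E (n + 1)) : ℂ :=
  G (Real.arccos (x (Fin.last n)))
    (‖(WithLp.toLp 2 fun i => x (Fin.castSucc i) : E n)‖⁻¹ •
      (WithLp.toLp 2 fun i => x (Fin.castSucc i) : E n))

lemma measurable_uncyl {n : ℕ} (G : ℝ → E n → ℂ) (hG : Measurable (Function.uncurry G)) :
    Measurable (uncyl G) := by
  unfold uncyl
  have h0 : Measurable fun x : E (n + 1) => (WithLp.toLp 2 fun i => x (Fin.castSucc i) : E n) := by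
    refine (WithLp.measurable_toLp 2 _).comp ?_
    fun_prop
  have h1 : Measurable fun x : E (n + 1) => (Real.arccos (x (Fin.last n)),
    ‖(WithLp.toLp 2 fun i => x (Fin.castSucc i) : E n)‖⁻¹ •
      (WithLp.toLp 2 fun i => x (Fin.castSucc i) : E n)) := by
    refine Measurable.prodMk ?_ ?_
    · exact Real.continuous_arccos.measurable.comp (by fun_prop)
    · exact (h0.norm.inv).smul h0
  exact hG.comp h1

lemma uncyl_pt {n : ℕ} (G : ℝ → E n → ℂ) {θ : ℝ} (hθ : θ ∈ Ioo 0 π) (ω : S n) :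
    uncyl G (pt θ (ω : E n)) = G θ ω := by
  unfold uncyl pt
  have h1 : (WithLp.toLp 2 fun i => (join (Real.sin θ • (ω : E n)) (Real.cos θ)) (Fin.castSucc i) : E n)
      = Real.sin θ • (ω : E n) := by
    ext i
    simp [join_castSucc]
  have hs : 0 < Real.sin θ := Real.sin_pos_of_mem_Ioo hθ
  have hω : ‖(ω : E n)‖ = 1 := by simp
  rw [h1, join_last, Real.arccos_cos hθ.1.le hθ.2.le, norm_smul, hω, mul_one, Real.norm_eq_abs,
    abs_of_pos hs, smul_smul, inv_mul_cancel₀ hs.ne', one_smul]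

lemma measurable_extn {n : ℕ} (g : E n → ℂ) (hg : Measurable g) : Measurable (extn g) := by
  unfold extn
  have h : Measurable fun q : E n × S n => g q.2 *
      Complex.exp (((-(2 * π * inner ℝ (q.2 : E n) q.1) : ℝ) : ℂ) * Complex.I) := by
    have h2 : Measurable fun q : E n × S n => (inner ℝ (q.2 : E n) q.1 : ℝ) := measurable_inner_coe
    have h1 : Measurable fun q : E n × S n => g (q.2 : E n) := by fun_prop
    fun_prop
  exact (h.stronglyMeasurable.integral_prod_right' (ν := sm n)).measurable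

lemma cyl_congr {j : ℕ} (G₁ G₂ : ℝ → E (j + 2) → ℂ)
    (h : ∀ θ ∈ Ioo 0 π, ∀ ω : S (j + 2), G₁ θ ω = G₂ θ ω) (y : E (j + 2)) (z : ℝ) :
    cyl j G₁ y z = cyl j G₂ y z := by
  unfold cyl
  refine setIntegral_congr_fun measurableSet_Ioo fun θ hθ => ?_
  congr 2
  ext ω
  rw [h θ hθ ω]

theorem st_cyl (j : ℕ) (q : ℝ) (hq : 2 * ((j : ℝ) + 4) / (j + 2) < q) :
    ∃ C : ℝ≥0∞, C ≠ ∞ ∧ ∀ G : ℝ → E (j + 2) → ℂ, Measurable (Function.uncurry G) →
      (∀ θ x, ‖G θ x‖ ≤ 2) →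
      ∫⁻ y, ∫⁻ z, ‖cyl j G y z‖ₑ ^ q ≤
        C * (∫⁻ θ in Ioo 0 π, ENNReal.ofReal (Real.sin θ ^ j) *
          (∫⁻ ω : S (j + 2), ‖G θ ω‖ₑ ^ (2:ℝ) ∂(sm (j + 2)))) ^ (q / 2) := by
  have hq' : 2 * (((j + 1 : ℕ) : ℝ) + 3) / (((j + 1 : ℕ) : ℝ) + 1) < q := by
    push_cast
    have : ((j:ℝ) + 1 + 3) = (j:ℝ) + 4 := by ring
    rw [this]
    have : ((j:ℝ) + 1 + 1) = (j:ℝ) + 2 := by ring
    rw [this]
    exact hq
  obtain ⟨C, hC, H⟩ := stein_tomas (j + 1) q hq'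
  have hq0 : 0 < q := lt_of_le_of_lt (by positivity) hq
  refine ⟨C, hC, fun G hG hB => ?_⟩
  have hU := measurable_uncyl G hG
  have h1 := H (uncyl G) hU (fun x => hB _ _)
  have h2 : ∀ (y : E (j + 2)) (z : ℝ), extn (uncyl G) (join y z) = cyl j G y z := by
    intro y z
    rw [extn_eq_cyl j (uncyl G) hU (fun x => hB _ _)]
    exact cyl_congr _ _ (fun θ hθ ω => uncyl_pt G hθ ω) y z
  have h3 : ∫⁻ ξ : E (j + 3), ‖extn (uncyl G) ξ‖ₑ ^ q = ∫⁻ y, ∫⁻ z, ‖cyl j G y z‖ₑ ^ q := by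
    rw [lintegral_join (j + 2) _ (((measurable_extn _ hU).enorm).pow_const q)]
    simp only [h2]
  have h4 : ∫⁻ x : S (j + 3), ‖uncyl G x‖ₑ ^ (2:ℝ) ∂(sm (j + 3)) ≤
      ∫⁻ θ in Ioo 0 π, ENNReal.ofReal (Real.sin θ ^ j) *
        (∫⁻ ω : S (j + 2), ‖G θ ω‖ₑ ^ (2:ℝ) ∂(sm (j + 2))) := by
    rw [lintegral_slice (j + 1) (fun x => ‖uncyl G x‖ₑ ^ (2:ℝ)) (hU.enorm.pow_const _)]
    refine setLIntegral_mono' measurableSet_Ioo fun θ hθ => ?_
    have h5 : ENNReal.ofReal (Real.sin θ ^ (j + 1)) ≤ ENNReal.ofReal (Real.sin θ ^ j) := by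
      refine ENNReal.ofReal_le_ofReal ?_
      exact pow_le_pow_of_le_one (Real.sin_nonneg_of_mem_Icc ⟨hθ.1.le, hθ.2.le⟩)
        (Real.sin_le_one θ) (by omega)
    calc _ ≤ ENNReal.ofReal (Real.sin θ ^ j) *
          ∫⁻ ω : S (j + 2), ‖uncyl G (pt θ (ω : E (j + 2)))‖ₑ ^ (2:ℝ) ∂(sm (j + 2)) := by
          gcongr
      _ = _ := by
          refine congrArg (ENNReal.ofReal (Real.sin θ ^ j) * ·) ?_
          refine lintegral_congr fun ω => ?_
          rw [uncyl_pt G hθ ω]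
  calc ∫⁻ y, ∫⁻ z, ‖cyl j G y z‖ₑ ^ q = ∫⁻ ξ : E (j + 3), ‖extn (uncyl G) ξ‖ₑ ^ q := h3.symm
    _ ≤ C * (∫⁻ x : S (j + 3), ‖uncyl G x‖ₑ ^ (2:ℝ) ∂(sm (j + 3))) ^ (q / 2) := h1
    _ ≤ _ := by gcongr

end Pool.Agent.MP_6cbfb8_an
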