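import Pool.Agent.MP_6cbfb8_an.Planar

namespace Pool.Agent.MP_6cbfb8_an

open MeasureTheory Set
open scoped ENNReal Real RealInnerProductSpace

namespace PlanarLp

theorem measurable_P (f : ℝ → ℂ) (hf : Measurable f) :
    Measurable (fun q : ℝ × ℝ => P f q.1 q.2) := by
  have h : Measurable (fun x : (ℝ × ℝ) × ℝ => f x.2 *
      Complex.exp (((-(2 * π * (x.1.1 * Real.sin x.2 + x.1.2 * Real.cos x.2)) : ℝ) : ℂ)
        * Complex.I)) := by
    refine (hf.comp measurable_snd).mul ?_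
    exact (by fun_prop : Continuous (fun x : (ℝ × ℝ) × ℝ =>
      Complex.exp (((-(2 * π * (x.1.1 * Real.sin x.2 + x.1.2 * Real.cos x.2)) : ℝ) : ℂ)
        * Complex.I))).measurable
  exact (StronglyMeasurable.integral_prod_right' (ν := volume.restrict (Ioo 0 π))
    h.stronglyMeasurable).measurable

theorem sin_lower {θ : ℝ} (h0 : 0 < θ) (hπ : θ < π) :
    2 / π * min θ (π - θ) ≤ Real.sin θ := by
  rcases le_total θ (π / 2) with h | h
  · refine le_trans ?_ (Real.mul_le_sin h0.le h)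
    gcongr
    exact min_le_left _ _
  · have := Real.mul_le_sin (x := π - θ) (by linarith) (by linarith)
    rw [Real.sin_pi_sub] at this
    refine le_trans ?_ this
    gcongr
    exact min_le_right _ _

/-- the integral of a power of the sine larger than `-1` is finite -/
theorem lint_sin (η : ℝ) (hη : 0 < η) (hη1 : η ≤ 1) :
    ∫⁻ θ in Ioo 0 π, ENNReal.ofReal (Real.sin θ ^ (η - 1)) ≠ ∞ := by
  have h1 : IntegrableOn (fun θ : ℝ => θ ^ (η - 1)) (Ioo 0 π) := by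
    rw [intervalIntegral.integrableOn_Ioo_rpow_iff Real.pi_pos]
    linarith
  have h2 : IntegrableOn (fun θ : ℝ => (π - θ) ^ (η - 1)) (Ioo 0 π) := by
    have h3 : IntervalIntegrable (fun θ : ℝ => θ ^ (η - 1)) volume 0 π :=
      intervalIntegral.intervalIntegrable_rpow' (by linarith)
    have h4 := (h3.comp_sub_left π).symm
    rw [sub_self, sub_zero] at h4
    rw [← integrableOn_Ioc_iff_integrableOn_Ioo]
    exact (intervalIntegrable_iff_integrableOn_Ioc_of_le Real.pi_pos.le).mp h4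
  have h5 := (h1.add h2).const_mul ((π / 2) ^ (1 - η))
  have h6 : ∫⁻ θ in Ioo 0 π, ENNReal.ofReal ((π / 2) ^ (1 - η) *
      (θ ^ (η - 1) + (π - θ) ^ (η - 1))) < ∞ := by
    have := h5.hasFiniteIntegral
    refine lt_of_le_of_lt ?_ this
    refine lintegral_mono fun θ => ?_
    exact Real.ofReal_le_enorm _
  refine ne_top_of_le_ne_top h6.ne ?_
  refine setLIntegral_mono' measurableSet_Ioo fun θ hθ => ?_
  apply ENNReal.ofReal_le_ofReal
  have hm : 0 < min θ (π - θ) := lt_min hθ.1 (by linarith [hθ.2])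
  have hs := sin_lower hθ.1 hθ.2
  calc Real.sin θ ^ (η - 1) ≤ (2 / π * min θ (π - θ)) ^ (η - 1) :=
        Real.rpow_le_rpow_of_nonpos (by positivity) hs (by linarith)
    _ = (π / 2) ^ (1 - η) * min θ (π - θ) ^ (η - 1) := by
        rw [Real.mul_rpow (by positivity) hm.le]
        congr 1
        rw [← inv_div, Real.inv_rpow (by positivity), ← Real.rpow_neg (by positivity)]
        congr 1
        ring
    _ ≤ _ := by
        gcongr
        rcases min_choice θ (π - θ) with h | h <;> rw [h]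
        · have : 0 ≤ (π - θ) ^ (η - 1) := Real.rpow_nonneg (by linarith [hθ.2]) _
          linarith
        · have : 0 ≤ θ ^ (η - 1) := Real.rpow_nonneg hθ.1.le _
          linarith

theorem L2_bound (η : ℝ) (hη : 0 < η) (r : ℝ) (hr : 1 ≤ r) (f : ℝ → ℂ)
    (hb : ∀ θ, ‖f θ‖ ≤ 1) (h0 : ∀ θ ∈ Ioo 0 π, Real.sin θ < 1 / r → f θ = 0) :
    ∫⁻ θ in Ioo 0 π, ‖f θ‖ₑ ^ (2:ℝ) / ENNReal.ofReal (Real.sin θ) ≤
      ENNReal.ofReal (r ^ η) * ∫⁻ θ in Ioo 0 π, ENNReal.ofReal (Real.sin θ ^ (η - 1)) := by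
  have hr0 : 0 < r := by linarith
  rw [← lintegral_const_mul' _ _ ENNReal.ofReal_ne_top]
  refine setLIntegral_mono' measurableSet_Ioo fun θ hθ => ?_
  by_cases hs : Real.sin θ < 1 / r
  · rw [h0 θ hθ hs]
    simp
  · push Not at hs
    have hsp : 0 < Real.sin θ := lt_of_lt_of_le (by positivity) hs
    have h1 : ‖f θ‖ₑ ^ (2:ℝ) ≤ 1 := by
      apply ENNReal.rpow_le_one _ (by norm_num)
      rw [← ofReal_norm]
      exact ENNReal.ofReal_le_one.mpr (hb θ)
    calc ‖f θ‖ₑ ^ (2:ℝ) / ENNReal.ofReal (Real.sin θ)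
        ≤ 1 / ENNReal.ofReal (Real.sin θ) := by gcongr
      _ = ENNReal.ofReal (1 / Real.sin θ) := by
          rw [ENNReal.ofReal_div_of_pos hsp, ENNReal.ofReal_one]
      _ ≤ ENNReal.ofReal (r ^ η * Real.sin θ ^ (η - 1)) := by
          apply ENNReal.ofReal_le_ofReal
          have h2 : 1 ≤ (r * Real.sin θ) ^ η := by
            apply Real.one_le_rpow _ hη.le
            rw [div_le_iff₀ hr0] at hs
            linarith
          rw [Real.mul_rpow hr0.le hsp.le] at h2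
          rw [Real.rpow_sub_one hsp.ne', ← mul_div_assoc]
          gcongr
      _ = _ := by rw [ENNReal.ofReal_mul (by positivity)]

end PlanarLp

open PlanarLp

theorem planar_Lp (p : ℝ) (hp2 : 2 < p) (hp4 : p < 4) (κ : ℝ) (hκ : 0 < κ) :
    ∃ C : ℝ≥0∞, C ≠ ∞ ∧ ∃ b : ℝ, 0 < b ∧ b < 1 ∧ ∀ r : ℝ, 1 ≤ r → ∀ f : ℝ → ℂ, Measurable f →
      (∀ θ, ‖f θ‖ ≤ 1) → (∀ θ ∈ Ioo 0 π, Real.sin θ < 1 / r → f θ = 0) →
      ∀ c : ℝ, c ≠ 0 → |c| ≤ 1 →
      ∫⁻ ρ in Icc r (2 * r), ∫⁻ z : ℝ, ‖P f (ρ * c) z‖ₑ ^ p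
        ≤ C * ENNReal.ofReal (r ^ (2 - p / 2 + κ) * |c| ^ (-b)) := by
  set q : ℝ := 4 + κ with hq
  set a : ℝ := (q - p) / (q - 2) with ha
  set b : ℝ := (p - 2) / (q - 2) with hb
  have hq2 : 0 < q - 2 := by linarith
  have ha0 : 0 < a := div_pos (by linarith) hq2
  have hb0 : 0 < b := div_pos (by linarith) hq2
  have hab : a + b = 1 := by
    rw [ha, hb, ← add_div, div_eq_one_iff_eq hq2.ne']
    ring
  have hpab : 2 * a + q * b = p := by
    rw [ha, hb]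
    field_simp
    ring
  have ha1 : a ≤ 2 - p / 2 + κ / 2 := by
    rw [ha, div_le_iff₀ hq2, hq]
    nlinarith
  set η : ℝ := min (κ / 2) 1 with hη
  have hη0 : 0 < η := lt_min (by linarith) one_pos
  have hη1 : η ≤ 1 := min_le_right _ _
  have hηκ : η ≤ κ / 2 := min_le_left _ _
  obtain ⟨Cq, hCq, hC⟩ := planar_Lq q (by linarith)
  set K : ℝ≥0∞ := ∫⁻ θ in Ioo 0 π, ENNReal.ofReal (Real.sin θ ^ (η - 1)) with hK
  have hKt : K ≠ ∞ := lint_sin η hη0 hη1
  refine ⟨K ^ a * Cq ^ b, ENNReal.mul_ne_top (ENNReal.rpow_ne_top_of_nonneg ha0.le hKt)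
    (ENNReal.rpow_ne_top_of_nonneg hb0.le hCq), b, hb0, by linarith, ?_⟩
  intro r hr f hf hfb hf0 c hc hc1
  have hr0 : 0 < r := by linarith
  have hmP := measurable_P f hf
  have hmz : ∀ v : ℝ, Measurable (fun z : ℝ => ‖P f v z‖ₑ) := fun v =>
    (hmP.comp measurable_prodMk_left).enorm
  have hmG : Measurable (fun v : ℝ => ∫⁻ z : ℝ, ‖P f v z‖ₑ ^ q) :=
    (hmP.enorm.pow_const q).lintegral_prod_right'
  set A : ℝ≥0∞ := ENNReal.ofReal (r ^ η) * K with hA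
  have hinner : ∀ v : ℝ, ∫⁻ z : ℝ, ‖P f v z‖ₑ ^ p ≤
      A ^ a * (∫⁻ z : ℝ, ‖P f v z‖ₑ ^ q) ^ b := by
    intro v
    calc ∫⁻ z : ℝ, ‖P f v z‖ₑ ^ p
        = ∫⁻ z : ℝ, (‖P f v z‖ₑ ^ (2:ℝ)) ^ a * (‖P f v z‖ₑ ^ q) ^ b := by
          refine lintegral_congr fun z => ?_
          rw [← ENNReal.rpow_mul, ← ENNReal.rpow_mul, ← ENNReal.rpow_add_of_nonneg _ _
            (by positivity) (mul_nonneg (by linarith) hb0.le), hpab]
      _ ≤ (∫⁻ z : ℝ, ‖P f v z‖ₑ ^ (2:ℝ)) ^ a * (∫⁻ z : ℝ, ‖P f v z‖ₑ ^ q) ^ b :=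
          ENNReal.lintegral_mul_norm_pow_le ((hmz v).pow_const _).aemeasurable
            ((hmz v).pow_const _).aemeasurable ha0.le hb0.le hab
      _ ≤ _ := by
          gcongr
          exact (planar_L2 f hf hfb v).trans (L2_bound η hη0 r hr f hfb hf0)
  have hscale : ∫⁻ ρ in Icc r (2 * r), ∫⁻ z : ℝ, ‖P f (ρ * c) z‖ₑ ^ q ≤
      ENNReal.ofReal |c⁻¹| * Cq := by
    calc ∫⁻ ρ in Icc r (2 * r), ∫⁻ z : ℝ, ‖P f (ρ * c) z‖ₑ ^ q
        ≤ ∫⁻ ρ : ℝ, ∫⁻ z : ℝ, ‖P f (ρ * c) z‖ₑ ^ q := setLIntegral_le_lintegral _ _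
      _ = ∫⁻ v, (∫⁻ z : ℝ, ‖P f v z‖ₑ ^ q) ∂(Measure.map (fun ρ : ℝ => ρ * c) volume) := by
          rw [lintegral_map hmG (measurable_mul_const c)]
      _ ≤ _ := by
          rw [Real.map_volume_mul_right hc, lintegral_smul_measure, smul_eq_mul]
          gcongr
          exact hC f hf hfb
  calc ∫⁻ ρ in Icc r (2 * r), ∫⁻ z : ℝ, ‖P f (ρ * c) z‖ₑ ^ p
      ≤ ∫⁻ ρ in Icc r (2 * r), A ^ a * (∫⁻ z : ℝ, ‖P f (ρ * c) z‖ₑ ^ q) ^ b :=
        lintegral_mono fun ρ => hinner (ρ * c)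
    _ = A ^ a * ∫⁻ ρ in Icc r (2 * r), (fun _ => (1:ℝ≥0∞)) ρ ^ a *
          (∫⁻ z : ℝ, ‖P f (ρ * c) z‖ₑ ^ q) ^ b := by
        rw [lintegral_const_mul]
        · simp
        · exact (hmG.comp (measurable_mul_const c)).pow_const b
    _ ≤ A ^ a * ((∫⁻ ρ in Icc r (2 * r), (fun _ => (1:ℝ≥0∞)) ρ) ^ a *
          (∫⁻ ρ in Icc r (2 * r), ∫⁻ z : ℝ, ‖P f (ρ * c) z‖ₑ ^ q) ^ b) := by
        gcongr
        exact ENNReal.lintegral_mul_norm_pow_le measurable_const.aemeasurable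
          (hmG.comp (measurable_mul_const c)).aemeasurable ha0.le hb0.le hab
    _ ≤ A ^ a * (ENNReal.ofReal r ^ a * (ENNReal.ofReal |c⁻¹| * Cq) ^ b) := by
        have h1 : ∫⁻ ρ in Icc r (2 * r), (fun _ => (1:ℝ≥0∞)) ρ = ENNReal.ofReal r := by
          simp only [lintegral_const, Measure.restrict_apply MeasurableSet.univ, univ_inter,
            Real.volume_Icc, one_mul]
          congr 1
          ring
        rw [h1]
        gcongr
    _ = K ^ a * Cq ^ b * ENNReal.ofReal (r ^ (η * a) * r ^ a * |c| ^ (-b)) := by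
        have hc' : 0 < |c| := abs_pos.mpr hc
        rw [hA, ENNReal.mul_rpow_of_nonneg _ _ ha0.le, ENNReal.mul_rpow_of_nonneg _ _ hb0.le,
          ENNReal.ofReal_rpow_of_nonneg (by positivity) ha0.le,
          ENNReal.ofReal_rpow_of_nonneg hr0.le ha0.le,
          ENNReal.ofReal_rpow_of_nonneg (abs_nonneg _) hb0.le,
          ENNReal.ofReal_mul (by positivity), ENNReal.ofReal_mul (by positivity),
          ← Real.rpow_mul hr0.le, abs_inv, Real.inv_rpow hc'.le, ← Real.rpow_neg hc'.le]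
        ring
    _ ≤ _ := by
        gcongr
        rw [← Real.rpow_add hr0]
        apply Real.rpow_le_rpow_of_exponent_le hr
        have : η * a ≤ η * 1 := by
          gcongr
          linarith
        linarith

end Pool.Agent.MP_6cbfb8_an
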