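import Pool.Agent.MP_6cbfb8_an.Shell

/-!
The main estimate, by summing over dyadic shells.
-/

namespace Pool.Agent.MP_6cbfb8_an

open MeasureTheory Set
open scoped ENNReal Real RealInnerProductSpace

/-- Choice of exponents. -/
lemma exists_exponents (N s p : ℝ) (hN : 3 ≤ N) (hs : 0 < s)
    (hp : 2 * N / (N - 1) < p) (hps : 2 * (N + 1) / (N - 1 + 2 * s) < p) :
    ∃ p' q : ℝ, 2 * N / (N - 1) < p' ∧ p' < p ∧ p' < 4 ∧ p' < q ∧ 2 * (N + 1) / (N - 1) < q ∧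
      (q - p') / (q - 2) - s * p' / 2 < 0 := by
  have hN1 : 0 < N - 1 := by linarith
  have hN0 : 0 < N := by linarith
  have hN2 : 0 < N - 1 + 2 * s := by linarith
  have hc4 : 2 * N / (N - 1) < 4 := by rw [div_lt_iff₀ hN1]; linarith
  have hcq : 2 * N / (N - 1) < 2 * (N + 1) / (N - 1) := by gcongr; linarith
  have hd4 : 2 * (N + 1) / (N - 1 + 2 * s) < 4 := by rw [div_lt_iff₀ hN2]; linarith
  have hdq : 2 * (N + 1) / (N - 1 + 2 * s) < 2 * (N + 1) / (N - 1) := by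
    gcongr; linarith
  set m := min p (min 4 (2 * (N + 1) / (N - 1))) with hm
  set l := max (2 * N / (N - 1)) (2 * (N + 1) / (N - 1 + 2 * s)) with hl
  have hmc : l < m := by
    rw [hm, hl]
    exact lt_min (max_lt hp hps) (lt_min (max_lt hc4 hd4) (max_lt hcq hdq))
  obtain ⟨p', h1', h2⟩ := exists_between hmc
  have h1 : 2 * N / (N - 1) < p' := lt_of_le_of_lt (le_max_left _ _) h1'
  have h1s : 2 * (N + 1) / (N - 1 + 2 * s) < p' := lt_of_le_of_lt (le_max_right _ _) h1'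
  have h3 : p' < p := lt_of_lt_of_le h2 (min_le_left _ _)
  have h4 : p' < 4 := lt_of_lt_of_le h2 ((min_le_right _ _).trans (min_le_left _ _))
  have h5 : p' < 2 * (N + 1) / (N - 1) :=
    lt_of_lt_of_le h2 ((min_le_right _ _).trans (min_le_right _ _))
  set Q := 2 * (N + 1) / (N - 1) with hQ
  have hQ2 : Q - 2 = 4 / (N - 1) := by rw [hQ]; field_simp; ring
  have hp'0 : 0 < p' := lt_trans (by positivity) h1
  have hgap : 0 < s * p' * (Q - 2) - 2 * (Q - p') := by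
    have h6 : s * p' * (Q - 2) - 2 * (Q - p') =
        2 * (p' * (N - 1 + 2 * s) - 2 * (N + 1)) / (N - 1) := by
      rw [hQ2, hQ]; field_simp; ring
    rw [h6]
    rw [div_lt_iff₀ hN2] at h1s
    have : 0 < p' * (N - 1 + 2 * s) - 2 * (N + 1) := by linarith
    positivity
  set gap := s * p' * (Q - 2) - 2 * (Q - p') with hgapdef
  refine ⟨p', Q + gap / 4, h1, h3, h4, by linarith, by linarith, ?_⟩
  have hq2 : 0 < Q + gap / 4 - 2 := by
    have : 0 < Q - 2 := by rw [hQ2]; positivity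
    linarith
  rw [sub_neg, div_lt_iff₀ hq2]
  have h11 : 0 ≤ s * p' * (gap / 4) := by positivity
  nlinarith

/-- Sum of a geometric-type series. -/
lemma tsum_dyadic_ne_top (e : ℝ) (he : e < 0) :
    ∑' k : ℕ, ENNReal.ofReal (((2:ℝ) ^ k) ^ e) ≠ ∞ := by
  have h1 : ∀ k : ℕ, ENNReal.ofReal (((2:ℝ) ^ k) ^ e) = (ENNReal.ofReal ((2:ℝ) ^ e)) ^ k := by
    intro k
    rw [← ENNReal.ofReal_pow (by positivity), ← Real.rpow_natCast, ← Real.rpow_natCast,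
      ← Real.rpow_mul (by norm_num), ← Real.rpow_mul (by norm_num), mul_comm]
  simp_rw [h1]
  rw [ENNReal.tsum_geometric]
  have h2 : ENNReal.ofReal ((2:ℝ) ^ e) < 1 := by
    rw [ENNReal.ofReal_lt_one]
    exact Real.rpow_lt_one_of_one_lt_of_neg (by norm_num) he
  exact ENNReal.inv_ne_top.mpr (tsub_pos_of_lt h2).ne'

lemma iUnion_shell (j : ℕ) :
    (univ : Set (E (j + 2))) ⊆ Metric.ball 0 2 ∪ ⋃ k : ℕ, shell j ((2:ℝ) ^ k) := by
  intro y _
  by_cases h : ‖y‖ < 2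
  · left; simpa using h
  · right
    push Not at h
    obtain ⟨k, hk1, hk2⟩ := exists_nat_pow_near (x := ‖y‖) (y := 2) (by linarith) (by norm_num)
    refine mem_iUnion.2 ⟨k, hk1, ?_⟩
    rw [← pow_succ']
    exact hk2

lemma lintegral_mul_add3 {α : Type*} [MeasurableSpace α] {μ : Measure α} (c : ℝ≥0∞)
    (f g h : α → ℝ≥0∞) (hf : Measurable f) (hg : Measurable g) (hh : Measurable h) :
    ∫⁻ x, c * (f x + g x + h x) ∂μ = c * ((∫⁻ x, f x ∂μ) + (∫⁻ x, g x ∂μ) + ∫⁻ x, h x ∂μ) := by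
  have h1 : Measurable fun x => f x + g x := hf.add hg
  have h2 : Measurable fun x => f x + g x + h x := h1.add hh
  rw [lintegral_const_mul _ h2, lintegral_add_left h1, lintegral_add_left hf]

theorem main_cyl (j : ℕ) (s p : ℝ) (hs0 : 0 < s)
    (hp : 2 * ((j : ℝ) + 3) / ((j : ℝ) + 2) < p)
    (hps : 2 * ((j : ℝ) + 4) / ((j : ℝ) + 2 + 2 * s) < p) : ∃ C : ℝ≥0∞, C ≠ ∞ ∧
    ∀ G : ℝ → E (j + 2) → ℂ, Measurable (Function.uncurry G) → (∀ θ x, ‖G θ x‖ ≤ 1) →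
    (∫⁻ θ in Ioo 0 π, ENNReal.ofReal (Real.sin θ ^ j) *
        (∫⁻ ω : S (j + 2), (∫⁻ ω' : S (j + 2),
        ‖G θ ω - G θ ω'‖ₑ ^ (2:ℝ) / ENNReal.ofReal
          (‖(ω : E (j + 2)) - (ω' : E (j + 2))‖ ^ ((((j + 2 : ℕ) : ℝ)) - 1 + 2 * s))
          ∂(sm (j + 2))) ∂(sm (j + 2))) ≤ 1) →
    ∫⁻ y, ∫⁻ z, ‖cyl j G y z‖ₑ ^ p ≤ C := by
  obtain ⟨p', q, h1, h2, h3, h4, h5, h6⟩ := exists_exponents ((j:ℝ) + 3) s p
    (by have : (0:ℝ) ≤ j := Nat.cast_nonneg j; linarith) hs0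
    (by have : (j:ℝ) + 3 - 1 = (j:ℝ) + 2 := by ring
        rw [this]; exact hp)
    (by have h1 : (j:ℝ) + 3 - 1 = (j:ℝ) + 2 := by ring
        have h2 : (j:ℝ) + 3 + 1 = (j:ℝ) + 4 := by ring
        rw [h1, h2]; exact hps)
  have e1 : (j:ℝ) + 3 - 1 = (j:ℝ) + 2 := by ring
  have e2 : (j:ℝ) + 3 + 1 = (j:ℝ) + 4 := by ring
  rw [e1] at h1 h5
  rw [e2] at h5
  have hj0 : (0:ℝ) ≤ j := Nat.cast_nonneg j
  have hp'2 : 2 < p' := by
    refine lt_of_le_of_lt ?_ h1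
    rw [le_div_iff₀ (by positivity)]
    linarith
  -- exponents
  set e3 : ℝ := ((j:ℝ) + 3) - p' * ((j:ℝ) + 2) / 2 with he3
  have he3neg : e3 < 0 := by
    rw [he3]
    rw [div_lt_iff₀ (by positivity)] at h1
    linarith
  obtain ⟨C1, hC1, H1⟩ := cap_shell j p' hp'2
  obtain ⟨C2, hC2, H2⟩ := low_shell j p' hp'2 h3 (-e3 / 2) (by linarith)
  obtain ⟨C3, hC3, H3⟩ := high_shell j s p' q hs0 hp'2 h4 h5
  obtain ⟨C4, hC4, H4⟩ := cyl_L2 j
  set M : ℝ≥0∞ := sm (j + 2) univ * ENNReal.ofReal π with hM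
  have hMtop : M ≠ ∞ := ENNReal.mul_ne_top (sm_univ_ne_top _) ENNReal.ofReal_ne_top
  set T1 := ∑' k : ℕ, ENNReal.ofReal (((2:ℝ) ^ k) ^ (-(((j : ℝ) + 2) * (p' - 2)))) with hT1
  set T2 := ∑' k : ℕ, ENNReal.ofReal (((2:ℝ) ^ k) ^ (((j : ℝ) + 3) - p' * ((j : ℝ) + 2) / 2 + -e3 / 2)) with hT2
  set T3 := ∑' k : ℕ, ENNReal.ofReal (((2:ℝ) ^ k) ^ ((q - p') / (q - 2) - s * p' / 2)) with hT3
  have hT1t : T1 ≠ ∞ := tsum_dyadic_ne_top _ (by
    have : 0 < ((j:ℝ) + 2) * (p' - 2) := mul_pos (by positivity) (by linarith)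
    linarith)
  have hT2t : T2 ≠ ∞ := tsum_dyadic_ne_top _ (by linarith)
  have hT3t : T3 ≠ ∞ := tsum_dyadic_ne_top _ h6
  refine ⟨M ^ (p - p') * (M ^ (p' - 2) * (C4 * M) + 3 ^ p' * (C1 * T1 + C2 * T2 + C3 * T3)),
    ?_, fun G hG hb hE => ?_⟩
  · refine ENNReal.mul_ne_top (ENNReal.rpow_ne_top_of_nonneg (by linarith) hMtop) ?_
    refine ENNReal.add_ne_top.2 ⟨ENNReal.mul_ne_top (ENNReal.rpow_ne_top_of_nonneg (by linarith)
      hMtop) (ENNReal.mul_ne_top hC4 hMtop), ENNReal.mul_ne_top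
        (ENNReal.rpow_ne_top_of_nonneg (by linarith) (by norm_num)) ?_⟩
    refine ENNReal.add_ne_top.2 ⟨ENNReal.add_ne_top.2 ⟨?_, ?_⟩, ?_⟩
    · exact ENNReal.mul_ne_top hC1 hT1t
    · exact ENNReal.mul_ne_top hC2 hT2t
    · exact ENNReal.mul_ne_top hC3 hT3t
  -- sup bound
  have hsup : ∀ y z, ‖cyl j G y z‖ₑ ≤ M := by
    intro y z
    refine (enorm_cyl_le G y z).trans ?_
    calc _ ≤ ∫⁻ θ in Ioo 0 π, sm (j + 2) univ := by
          refine setLIntegral_mono' measurableSet_Ioo fun θ hθ => ?_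
          have h7 : ENNReal.ofReal (Real.sin θ ^ (j + 1)) ≤ 1 := by
            rw [ENNReal.ofReal_le_one]
            exact pow_le_one₀ (Real.sin_nonneg_of_mem_Icc ⟨hθ.1.le, hθ.2.le⟩) (Real.sin_le_one θ)
          calc _ ≤ (∫⁻ ω : S (j + 2), 1 ∂(sm (j + 2))) * 1 := by
                gcongr with ω
                rw [← ofReal_norm, ENNReal.ofReal_le_one]
                exact hb _ _
            _ = _ := by simp
      _ = M := by
          simp [hM]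
  have hm : Measurable fun q : E (j + 2) × ℝ => cyl j G q.1 q.2 := measurable_cyl G hG
  have hm' : Measurable fun q : E (j + 2) × ℝ => ‖cyl j G q.1 q.2‖ₑ := hm.enorm
  -- reduction to p'
  have hred : ∫⁻ y, ∫⁻ z, ‖cyl j G y z‖ₑ ^ p ≤ M ^ (p - p') * ∫⁻ y, ∫⁻ z, ‖cyl j G y z‖ₑ ^ p' := by
    rw [← lintegral_prod (f := fun q : E (j + 2) × ℝ => ‖cyl j G q.1 q.2‖ₑ ^ p)
        (hm'.pow_const p).aemeasurable,
      ← lintegral_prod (f := fun q : E (j + 2) × ℝ => ‖cyl j G q.1 q.2‖ₑ ^ p')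
        (hm'.pow_const p').aemeasurable]
    exact lintegral_rpow_le_sup _ hm' (by linarith) h2.le M (fun q => hsup _ _)
  refine hred.trans ?_
  gcongr
  -- the ball
  have hball : ∫⁻ y in Metric.ball (0 : E (j + 2)) 2, ∫⁻ z, ‖cyl j G y z‖ₑ ^ p' ≤
      M ^ (p' - 2) * (C4 * M) := by
    have e4 : ∀ t : ℝ, ∫⁻ y in Metric.ball (0 : E (j + 2)) 2, ∫⁻ z, ‖cyl j G y z‖ₑ ^ t =
        ∫⁻ q : E (j + 2) × ℝ, ‖cyl j G q.1 q.2‖ₑ ^ t
          ∂((volume.restrict (Metric.ball (0 : E (j + 2)) 2)).prod volume) := fun t =>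
      (lintegral_prod _ (hm'.pow_const t).aemeasurable).symm
    rw [e4]
    refine (lintegral_rpow_le_sup _ hm' (p' := 2) (by norm_num) hp'2.le M
      (fun q => hsup _ _)).trans ?_
    rw [← e4]
    gcongr
    have h8 := H4 1 one_pos G hG (fun θ x => (hb θ x).trans (by norm_num))
    rw [mul_one] at h8
    refine h8.trans ?_
    rw [ENNReal.ofReal_one, mul_one]
    gcongr
    calc _ ≤ ∫⁻ θ in Ioo 0 π, (∫⁻ ω : S (j + 2), 1 ∂(sm (j + 2))) := by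
          gcongr with θ ω
          refine ENNReal.rpow_le_one ?_ (by norm_num)
          rw [← ofReal_norm, ENNReal.ofReal_le_one]
          exact hb _ _
      _ = M := by simp [hM]
  -- the shells
  have hshell : ∀ k : ℕ, ∫⁻ y in shell j ((2:ℝ) ^ k), ∫⁻ z, ‖cyl j G y z‖ₑ ^ p' ≤
      3 ^ p' * (C1 * ENNReal.ofReal (((2:ℝ) ^ k) ^ (-(((j : ℝ) + 2) * (p' - 2)))) +
        C2 * ENNReal.ofReal (((2:ℝ) ^ k) ^ (((j : ℝ) + 3) - p' * ((j : ℝ) + 2) / 2 + -e3 / 2)) +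
        C3 * ENNReal.ofReal (((2:ℝ) ^ k) ^ ((q - p') / (q - 2) - s * p' / 2))) := by
    intro k
    set r : ℝ := (2:ℝ) ^ k with hr
    have hr1 : 1 ≤ r := one_le_pow₀ (by norm_num)
    have m1 : Measurable fun q : E (j + 2) × ℝ => ‖cyl j (capPart r G) q.1 q.2‖ₑ ^ p' :=
      ((measurable_cyl _ (measurable_capPart r G hG)).enorm).pow_const p'
    have m2 : Measurable fun q : E (j + 2) × ℝ =>
        ‖cyl j (fun θ => moll r (corePart r G θ)) q.1 q.2‖ₑ ^ p' :=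
      ((measurable_cyl _ (measurable_mollCore r G hG)).enorm).pow_const p'
    have m3 : Measurable fun q : E (j + 2) × ℝ => ‖cyl j (highPart r G) q.1 q.2‖ₑ ^ p' :=
      ((measurable_cyl _ (measurable_highPart r G hG)).enorm).pow_const p'
    calc ∫⁻ y in shell j r, ∫⁻ z, ‖cyl j G y z‖ₑ ^ p' ≤
        ∫⁻ y in shell j r, ∫⁻ z, 3 ^ p' * (‖cyl j (capPart r G) y z‖ₑ ^ p' +
          ‖cyl j (fun θ => moll r (corePart r G θ)) y z‖ₑ ^ p' +
          ‖cyl j (highPart r G) y z‖ₑ ^ p') := by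
          refine lintegral_mono fun y => lintegral_mono fun z => ?_
          simp only
          rw [cyl_decomp r G hG hb y z]
          have h9 : ∀ a b c : ℂ, ‖a + b + c‖ₑ ≤ ‖a‖ₑ + ‖b‖ₑ + ‖c‖ₑ := fun a b c =>
            (enorm_add_le _ _).trans (by gcongr; exact enorm_add_le _ _)
          refine le_trans ?_ (add_rpow_le_three (by linarith : (0:ℝ) ≤ p'))
          have : 0 ≤ p' := by linarith
          gcongr
          exact h9 _ _ _
      _ = 3 ^ p' * ((∫⁻ y in shell j r, ∫⁻ z, ‖cyl j (capPart r G) y z‖ₑ ^ p') +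
          (∫⁻ y in shell j r, ∫⁻ z, ‖cyl j (fun θ => moll r (corePart r G θ)) y z‖ₑ ^ p') +
          ∫⁻ y in shell j r, ∫⁻ z, ‖cyl j (highPart r G) y z‖ₑ ^ p') := by
          have t1 : ∀ y, ∫⁻ z, 3 ^ p' * (‖cyl j (capPart r G) y z‖ₑ ^ p' +
              ‖cyl j (fun θ => moll r (corePart r G θ)) y z‖ₑ ^ p' +
              ‖cyl j (highPart r G) y z‖ₑ ^ p') =
              3 ^ p' * ((∫⁻ z, ‖cyl j (capPart r G) y z‖ₑ ^ p') +
              (∫⁻ z, ‖cyl j (fun θ => moll r (corePart r G θ)) y z‖ₑ ^ p') +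
              ∫⁻ z, ‖cyl j (highPart r G) y z‖ₑ ^ p') := by
            intro y
            have n1 : Measurable fun z => ‖cyl j (capPart r G) y z‖ₑ ^ p' :=
              m1.comp (f := fun z : ℝ => (y, z)) (by fun_prop)
            have n2 : Measurable fun z => ‖cyl j (fun θ => moll r (corePart r G θ)) y z‖ₑ ^ p' :=
              m2.comp (f := fun z : ℝ => (y, z)) (by fun_prop)
            have n3 : Measurable fun z => ‖cyl j (highPart r G) y z‖ₑ ^ p' :=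
              m3.comp (f := fun z : ℝ => (y, z)) (by fun_prop)
            exact lintegral_mul_add3 _ _ _ _ n1 n2 n3
          simp_rw [t1]
          have n1 : Measurable fun y => ∫⁻ z, ‖cyl j (capPart r G) y z‖ₑ ^ p' :=
            m1.lintegral_prod_right'
          have n2 : Measurable fun y => ∫⁻ z, ‖cyl j (fun θ => moll r (corePart r G θ)) y z‖ₑ ^ p' :=
            m2.lintegral_prod_right'
          have n3 : Measurable fun y => ∫⁻ z, ‖cyl j (highPart r G) y z‖ₑ ^ p' :=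
            m3.lintegral_prod_right'
          exact lintegral_mul_add3 _ _ _ _ n1 n2 n3
      _ ≤ _ := by
          gcongr
          · exact H1 r hr1 G hG hb
          · exact H2 r hr1 G hG hb
          · exact H3 r hr1 G hG hb hE
  calc ∫⁻ y, ∫⁻ z, ‖cyl j G y z‖ₑ ^ p' = ∫⁻ y in univ, ∫⁻ z, ‖cyl j G y z‖ₑ ^ p' := by
        rw [setLIntegral_univ]
    _ ≤ ∫⁻ y in Metric.ball 0 2 ∪ ⋃ k : ℕ, shell j ((2:ℝ) ^ k), ∫⁻ z, ‖cyl j G y z‖ₑ ^ p' :=
        lintegral_mono_set (iUnion_shell j)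
    _ ≤ (∫⁻ y in Metric.ball (0 : E (j + 2)) 2, ∫⁻ z, ‖cyl j G y z‖ₑ ^ p') +
        ∫⁻ y in ⋃ k : ℕ, shell j ((2:ℝ) ^ k), ∫⁻ z, ‖cyl j G y z‖ₑ ^ p' :=
        lintegral_union_le _ _ _
    _ ≤ M ^ (p' - 2) * (C4 * M) + ∑' k : ℕ, 3 ^ p' *
        (C1 * ENNReal.ofReal (((2:ℝ) ^ k) ^ (-(((j : ℝ) + 2) * (p' - 2)))) +
        C2 * ENNReal.ofReal (((2:ℝ) ^ k) ^ (((j : ℝ) + 3) - p' * ((j : ℝ) + 2) / 2 + -e3 / 2)) +
        C3 * ENNReal.ofReal (((2:ℝ) ^ k) ^ ((q - p') / (q - 2) - s * p' / 2))) := by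
        gcongr
        refine (lintegral_iUnion_le _ _).trans ?_
        exact ENNReal.tsum_le_tsum hshell
    _ = _ := by
        rw [ENNReal.tsum_mul_left, ENNReal.tsum_add, ENNReal.tsum_add, ENNReal.tsum_mul_left,
          ENNReal.tsum_mul_left, ENNReal.tsum_mul_left]

/-- Main estimate. -/
theorem main (n : ℕ) (hn : 2 ≤ n) (s p : ℝ) (hs : 0 < s)
    (hp : 2 * ((n : ℝ) + 1) / n < p) (hps : 2 * ((n : ℝ) + 2) / (n + 2 * s) < p) :
    ∃ C : ℝ≥0∞, C ≠ ∞ ∧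
    ∀ g : E (n + 1) → ℂ, Measurable g → (∀ x, ‖g x‖ ≤ 1) → angEnergy s g ≤ 1 →
    ∫⁻ ξ, ‖extn g ξ‖ₑ ^ p ≤ C := by
  obtain ⟨j, rfl⟩ : ∃ j, n = j + 2 := ⟨n - 2, by omega⟩
  have e1 : (((j + 2 : ℕ) : ℝ)) + 1 = (j:ℝ) + 3 := by push_cast; ring
  have e2 : (((j + 2 : ℕ) : ℝ)) = (j:ℝ) + 2 := by push_cast; ring
  have e3 : (((j + 2 : ℕ) : ℝ)) + 2 = (j:ℝ) + 4 := by push_cast; ring
  obtain ⟨C, hC, H⟩ := main_cyl j s p hs (by rw [← e1, ← e2]; exact hp)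
    (by rw [← e3, ← e2]; exact hps)
  refine ⟨C, hC, fun g hg hb hE => ?_⟩
  have hG : Measurable (Function.uncurry fun θ (ω : E (j + 2)) => g (pt θ ω)) :=
    hg.comp measurable_pt
  have h1 := H (fun θ ω => g (pt θ ω)) hG (fun θ x => hb _) hE
  rw [lintegral_join (j + 2) _ (((measurable_extn _ hg).enorm).pow_const p)]
  calc _ = ∫⁻ y, ∫⁻ z, ‖cyl j (fun θ ω => g (pt θ ω)) y z‖ₑ ^ p := by
        refine lintegral_congr fun y => lintegral_congr fun z => ?_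
        rw [extn_eq_cyl j g hg (fun x => (hb x).trans (by norm_num))]
    _ ≤ C := h1

end Pool.Agent.MP_6cbfb8_an
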