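import Mathlib

/-!
Basic definitions for the restriction problem (surface measure on the sphere, the Fourier
transform of a measure with a density, angular regularity along the parallels).
-/

namespace Pool.Agent.MP_6cbfb8_an

open MeasureTheory Set
open scoped ENNReal Real

/-- `R^n` with its Euclidean structure. -/
abbrev E (n : ℕ) : Type := EuclideanSpace ℝ (Fin n)

/-- The unit sphere of `R^n`. -/
abbrev S (n : ℕ) : Set (E n) := Metric.sphere (0 : E n) 1

/-- Surface measure on the unit sphere of `R^n`. -/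
noncomputable abbrev sm (n : ℕ) : Measure (S n) := (volume : Measure (E n)).toSphere

/-- The point `(x, t)` of `R^(n+1)`. -/
noncomputable def join {n : ℕ} (x : E n) (t : ℝ) : E (n + 1) :=
  WithLp.toLp 2 (Fin.snoc (α := fun _ => ℝ) (fun i => x i) t)

/-- The point `(sin θ • ω, cos θ)`: for `ω` in the unit sphere of `R^n` it runs through the
parallel of polar angle `θ` of the unit sphere of `R^(n+1)`. -/
noncomputable def pt {n : ℕ} (θ : ℝ) (ω : E n) : E (n + 1) :=
  join (Real.sin θ • ω) (Real.cos θ)

/-- The Fourier transform at `ξ` of the measure with density `g` with respect to the surface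
measure of the unit sphere of `R^n`. -/
noncomputable def extn {n : ℕ} (g : E n → ℂ) (ξ : E n) : ℂ :=
  ∫ x : S n, g x * Complex.exp (((-(2 * π * inner ℝ (x : E n) ξ) : ℝ) : ℂ) * Complex.I) ∂(sm n)

/-- Angular energy: the integral over all parallels `θ = const` of the square of the `H^s`
(Gagliardo) seminorm of `g` on the parallel, each parallel being parametrised by the unit sphere
of `R^n`, with the weight `(sin θ)^(n-2)`. -/
noncomputable def angEnergy {n : ℕ} (s : ℝ) (g : E (n + 1) → ℂ) : ℝ≥0∞ :=
  ∫⁻ θ in Ioo 0 π, ENNReal.ofReal (Real.sin θ ^ (n - 2)) *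
    (∫⁻ ω : S n, (∫⁻ ω' : S n,
      ‖g (pt θ (ω : E n)) - g (pt θ (ω' : E n))‖ₑ ^ (2:ℝ) /
        ENNReal.ofReal (‖(ω : E n) - (ω' : E n)‖ ^ ((n : ℝ) - 1 + 2 * s)) ∂(sm n)) ∂(sm n))

/-- The superposition over `w`, with respect to the measure `ν`, of the densities
`x ↦ exp (2 π i ⟨x, η w⟩) h w (R w x)` (each `h w` is rotated by `R w` and modulated by the
frequency `η w`). -/
noncomputable def mix {n : ℕ} {W : Type*} [MeasurableSpace W] (ν : Measure W)
    (R : W → (E n ≃ₗᵢ[ℝ] E n)) (η : W → E n) (h : W → E n → ℂ) (x : E n) : ℂ :=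
  ∫ w, Complex.exp (((2 * π * inner ℝ x (η w) : ℝ) : ℂ) * Complex.I) * h w (R w x) ∂ν

end Pool.Agent.MP_6cbfb8_an
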