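import Pool.Agent.MP_6cbfb8_an.Super

/-!
The restriction conjecture for the sphere of `R^(n+1)`, `n ≥ 2`, for bounded densities which have
a fraction (less than one half) of a derivative in `L^2` along the parallels, no regularity at all
being assumed across the parallels, and for all superpositions of rotated and modulated densities
of this kind.
-/

namespace Pool.Agent.MP_6cbfb8_an.AngularVariant

open MeasureTheory Set Pool.Agent.MP_6cbfb8_an
open scoped ENNReal Real

/-- For `s > 0`, `p > 2(n+1)/n` and `p > 2(n+2)/(n+2s)` (the second condition follows from the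
first one as soon as `s ≥ n/(2(n+1))`) there is a finite `C` such that the Fourier transform of
every superposition, over a finite measure space, of rotated and modulated measurable densities
`h w` with `|h w| ≤ 1` and angular energy at most one has `L^p` norm at most `C^(1/p)` times the
total mass of the measure space. -/
theorem result (n : ℕ) (hn : 2 ≤ n) (s p : ℝ) (hs : 0 < s)
    (hp : 2 * ((n : ℝ) + 1) / n < p) (hps : 2 * ((n : ℝ) + 2) / (n + 2 * s) < p) :
    ∃ C : ℝ≥0∞, C ≠ ∞ ∧ ∀ (W : Type) (_ : MeasurableSpace W) (ν : Measure W)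
      (_ : IsFiniteMeasure ν) (R : W → (E (n + 1) ≃ₗᵢ[ℝ] E (n + 1))) (η : W → E (n + 1))
      (h : W → E (n + 1) → ℂ),
      (Measurable fun q : W × E (n + 1) => R q.1 q.2) → Measurable η →
      (Measurable fun q : W × E (n + 1) => h q.1 q.2) →
      (∀ w x, ‖h w x‖ ≤ 1) → (∀ w, angEnergy s (h w) ≤ 1) →
      ∫⁻ ξ, ‖extn (mix ν R η h) ξ‖ₑ ^ p ≤ C * ν univ ^ p := by
  obtain ⟨C, hC, H⟩ := main n hn s p hs hp hps
  refine ⟨C, hC, ?_⟩
  intro W _ ν _ R η h hR hη hh hb hE
  have hp1 : 1 ≤ p := by
    have hn0 : (0:ℝ) < n := by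
      have : (2:ℝ) ≤ n := by exact_mod_cast hn
      linarith
    refine le_trans ?_ hp.le
    rw [le_div_iff₀ hn0]
    linarith
  exact lintegral_mix_le hp1 (fun g => angEnergy s g ≤ 1) H ν R η h hR hη hh hb hE

end Pool.Agent.MP_6cbfb8_an.AngularVariant
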