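import Pool.Agent.MP_6cbfb8_an.Defs

/-!
Auxiliary definitions used in the proofs.
-/

namespace Pool.Agent.MP_6cbfb8_an

open MeasureTheory Set
open scoped ENNReal Real

/-- The planar extension operator of the half circle. -/
noncomputable def P (f : ℝ → ℂ) (v z : ℝ) : ℂ :=
  ∫ θ in Ioo 0 π, f θ *
    Complex.exp (((-(2 * π * (v * Real.sin θ + z * Real.cos θ)) : ℝ) : ℂ) * Complex.I)

/-- The extension operator of the sphere of `R^(j+3)` in polar coordinates. -/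
noncomputable def cyl (j : ℕ) (G : ℝ → E (j + 2) → ℂ) (y : E (j + 2)) (z : ℝ) : ℂ :=
  ∫ θ in Ioo 0 π, (∫ ω : S (j + 2), G θ ω *
    Complex.exp (((-(2 * π * (Real.sin θ * inner ℝ (ω : E (j + 2)) y + z * Real.cos θ)) : ℝ) : ℂ)
      * Complex.I) ∂(sm (j + 2))) * ((Real.sin θ ^ (j + 1) : ℝ) : ℂ)

/-- Gaussian kernel on the sphere. -/
noncomputable def ker {n : ℕ} (r : ℝ) (x y : E n) : ℝ := Real.exp (-(r / 2 * ‖x - y‖ ^ 2))

/-- Normalising constant of the kernel at `x`. -/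
noncomputable def kerMass {n : ℕ} (r : ℝ) (x : E n) : ℝ := ∫ y : S n, ker r x (y : E n) ∂(sm n)

/-- Mollification on the sphere at scale `r ^ (-1/2)`. -/
noncomputable def moll {n : ℕ} (r : ℝ) (g : E n → ℂ) (x : E n) : ℂ :=
  (∫ y : S n, ((ker r x (y : E n) : ℝ) : ℂ) * g y ∂(sm n)) / ((kerMass r x : ℝ) : ℂ)

/-- Iterated adjoint derivative `a ↦ (a / sin)'`. -/
noncomputable def itd (a : ℂ → ℂ) : ℕ → ℂ → ℂ
  | 0 => a
  | (k + 1) => deriv (fun w => itd a k w / Complex.sin w)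

end Pool.Agent.MP_6cbfb8_an
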