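import Pool.Agent.MP_6cbfb8_an.LiftF

/-!
The case `l = 1` of the block densities.
-/

namespace Pool.Agent.MP_6cbfb8_an

open MeasureTheory Set
open scoped ENNReal Real

/-- reflection in the last coordinate. -/
noncomputable def bone_R (m : ℕ) : E (m + 1) ≃ₗᵢ[ℝ] E (m + 1) :=
  LinearIsometryEquiv.piLpCongrRight 2
    (fun i : Fin (m + 1) => if i = Fin.last m then LinearIsometryEquiv.neg ℝ
      else LinearIsometryEquiv.refl ℝ ℝ)

lemma bone_R_last (m : ℕ) (x : E (m + 1)) : bone_R m x (Fin.last m) = - x (Fin.last m) := by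
  simp [bone_R]

lemma bone_R_cast (m : ℕ) (x : E (m + 1)) (i : Fin m) :
    bone_R m x (Fin.castSucc i) = x (Fin.castSucc i) := by
  have h : Fin.castSucc i ≠ Fin.last m := (Fin.castSucc_lt_last i).ne
  simp [bone_R, h]

lemma bone_null (m : ℕ) : (sm (m + 2)) {x : S (m + 2) | (x : E (m + 2)) (Fin.last (m + 1)) = 0} = 0 := by
  have hm : MeasurableSet {x : E (m + 2) | x (Fin.last (m + 1)) = 0} :=
    measurableSet_eq_fun (by fun_prop) measurable_const
  have h := lintegral_slice m ({x : E (m + 2) | x (Fin.last (m + 1)) = 0}.indicator 1)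
    (measurable_const.indicator hm)
  have h1 : ∫⁻ x : S (m + 2), ({x : E (m + 2) | x (Fin.last (m + 1)) = 0}.indicator
      (1 : E (m + 2) → ℝ≥0∞)) x ∂(sm (m + 2)) =
      (sm (m + 2)) {x : S (m + 2) | (x : E (m + 2)) (Fin.last (m + 1)) = 0} := by
    have hm' : MeasurableSet {x : S (m + 2) | (x : E (m + 2)) (Fin.last (m + 1)) = 0} :=
      hm.preimage measurable_subtype_coe
    rw [← lintegral_indicator_one hm']
    rfl
  rw [← h1, h]
  rw [lintegral_eq_zero_iff']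
  swap
  · refine Measurable.aemeasurable ?_
    refine Measurable.mul (by fun_prop) ?_
    have hm2 : Measurable fun q : ℝ × S (m + 1) =>
        ({x : E (m + 2) | x (Fin.last (m + 1)) = 0}.indicator (1 : E (m + 2) → ℝ≥0∞))
          (pt q.1 (q.2 : E (m + 1))) := by
      refine (measurable_const.indicator hm).comp
        (measurable_pt.comp (f := fun q : ℝ × S (m + 1) => (q.1, (q.2 : E (m + 1)))) ?_)
      fun_prop
    exact hm2.lintegral_prod_right' (ν := sm (m + 1))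
  have h2 : ∀ᵐ θ : ℝ ∂(volume.restrict (Ioo 0 π)), θ ≠ π / 2 := by
    refine ae_restrict_of_ae ?_
    rw [ae_iff]
    simp
  filter_upwards [h2, ae_restrict_mem measurableSet_Ioo] with θ hθ hθ'
  simp only [Pi.zero_apply]
  have h3 : ∀ ω : S (m + 1), ({x : E (m + 2) | x (Fin.last (m + 1)) = 0}.indicator
      (1 : E (m + 2) → ℝ≥0∞)) (pt θ (ω : E (m + 1))) = 0 := by
    intro ω
    rw [indicator_of_notMem]
    simp only [mem_ofPred_eq]
    unfold pt
    rw [join_last]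
    intro hc
    apply hθ
    exact (Real.injOn_cos.eq_iff ⟨hθ'.1.le, hθ'.2.le⟩ ⟨by positivity, by linarith [Real.pi_pos]⟩).mp
      (by rw [hc, Real.cos_pi_div_two])
  rw [lintegral_congr h3]
  simp

lemma bone_join (m : ℕ) (x : E (m + 1)) (t : ℝ) (ht : t = |x (Fin.last m)|) :
    (join (fstE (k := m) (l := 1) x) t : E (m + 1)) = if 0 < x (Fin.last m) then x
      else bone_R m x := by
  ext i
  refine Fin.lastCases ?_ (fun i => ?_) i
  · rw [join_last, ht]
    split_ifs with h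
    · exact abs_of_pos h
    · rw [bone_R_last]
      exact abs_of_nonpos (not_lt.1 h)
  · rw [join_castSucc]
    split_ifs
    · rfl
    · rw [bone_R_cast]
      rfl

theorem block_base_one (κ : ℕ) (hκ : 1 ≤ κ) (s p : ℝ) (hs : 0 < s)
    (hp : 2 * ((κ : ℝ) + 2) / (κ + 1) < p) (hps : 2 * ((κ : ℝ) + 3) / (κ + 1 + 2 * s) < p) :
    ∃ C : ℝ≥0∞, C ≠ ∞ ∧ ∀ G : E (κ + 2) → ℂ, Measurable G → (∀ x, ‖G x‖ ≤ 1) →
      angEnergy s G ≤ 1 → ∫⁻ ξ, ‖extn (lift G : E ((κ + 1) + 1) → ℂ) ξ‖ₑ ^ p ≤ C := by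
  obtain ⟨C, hC, H⟩ := base_ang κ hκ s p hs hp hps 0
  have hp1 : 1 ≤ p := by
    refine le_trans ?_ hp.le
    have : (0:ℝ) ≤ κ := Nat.cast_nonneg κ
    rw [le_div_iff₀ (by positivity)]
    linarith
  have hp0 : 0 ≤ p := by linarith
  refine ⟨2 ^ (p + 1) * C, ENNReal.mul_ne_top (ENNReal.rpow_ne_top_of_nonneg (by linarith)
    (by norm_num)) hC, ?_⟩
  intro G hG hb hE
  have hH := H G hG hb hE
  set F : E (κ + 2) → ℂ := tpow 0 G with hF
  have hFm : Measurable F := measurable_tpow 0 hG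
  have hFb : ∀ x, ‖F x‖ ≤ 1 := by
    intro x
    rw [hF]
    unfold tpow
    split_ifs
    · simpa using hb x
    · simp
  have key : ∀ ξ : E (κ + 2), extn (lift G : E ((κ + 1) + 1) → ℂ) ξ =
      extn F ξ + extn F (bone_R (κ + 1) ξ) := by
    intro ξ
    have hiso := extn_isometry F (bone_R (κ + 1)) ξ
    rw [← hiso]
    unfold extn
    have hphase : ∀ x : S (κ + 2), ‖Complex.exp (((-(2 * π * inner ℝ (x : E (κ + 2)) ξ) : ℝ) : ℂ) *
        Complex.I)‖ = 1 := fun x => Complex.norm_exp_ofReal_mul_I _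
    have hem : Measurable fun x : S (κ + 2) =>
        Complex.exp (((-(2 * π * inner ℝ (x : E (κ + 2)) ξ) : ℝ) : ℂ) * Complex.I) := by
      have : Measurable fun x : S (κ + 2) => (inner ℝ (x : E (κ + 2)) ξ : ℝ) := by
        have h4 : Measurable fun x : S (κ + 2) => (x : E (κ + 2)) := measurable_subtype_coe
        exact h4.inner measurable_const
      fun_prop
    rw [← integral_add]
    · refine integral_congr_ae ?_
      have hnull : ∀ᵐ x : S (κ + 2) ∂(sm (κ + 2)), (x : E (κ + 2)) (Fin.last (κ + 1)) ≠ 0 := by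
        rw [ae_iff]
        simpa using bone_null κ
      filter_upwards [hnull] with x hx
      rw [← add_mul]
      congr 1
      have hsnd : ‖(sndE (k := κ + 1) (l := 1) (x : E (κ + 2)) : E 1)‖ =
          |(x : E (κ + 2)) (Fin.last (κ + 1))| := by
        rw [EuclideanSpace.norm_eq]
        simp only [Fin.sum_univ_one, Real.norm_eq_abs, sq_abs, Real.sqrt_sq_eq_abs]
        rfl
      unfold lift
      rw [bone_join (κ + 1) (x : E (κ + 2)) _ hsnd, hF]
      unfold tpow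
      rw [bone_R_last]
      rcases lt_or_gt_of_ne hx with h | h
      · rw [if_neg (by linarith), if_neg (by linarith), if_pos (by linarith)]
        simp
      · rw [if_pos h, if_pos h, if_neg (by linarith)]
        simp
    · refine Integrable.of_bound
        ((hFm.comp measurable_subtype_coe).mul hem).aestronglyMeasurable 1
        (Filter.Eventually.of_forall fun x => ?_)
      rw [norm_mul, hphase, mul_one]
      exact hFb _
    · refine Integrable.of_bound
        (((hFm.comp (bone_R (κ + 1)).continuous.measurable).comp measurable_subtype_coe).mul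
          hem).aestronglyMeasurable 1 (Filter.Eventually.of_forall fun x => ?_)
      rw [norm_mul, hphase, mul_one]
      exact hFb _
  have hme : Measurable fun ξ : E (κ + 2) => ‖extn F ξ‖ₑ ^ p :=
    (measurable_extn _ hFm).enorm.pow_const p
  have hRint : ∫⁻ ξ : E (κ + 2), ‖extn F (bone_R (κ + 1) ξ)‖ₑ ^ p =
      ∫⁻ ξ : E (κ + 2), ‖extn F ξ‖ₑ ^ p :=
    (bone_R (κ + 1)).measurePreserving.lintegral_comp hme
  calc ∫⁻ ξ, ‖extn (lift G : E ((κ + 1) + 1) → ℂ) ξ‖ₑ ^ p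
      ≤ ∫⁻ ξ : E (κ + 2), 2 ^ p * (‖extn F ξ‖ₑ ^ p + ‖extn F (bone_R (κ + 1) ξ)‖ₑ ^ p) := by
        refine lintegral_mono fun ξ => ?_
        simp only
        rw [key ξ]
        have h1 : ‖extn F ξ + extn F (bone_R (κ + 1) ξ)‖ₑ ≤
            ‖extn F ξ‖ₑ + ‖extn F (bone_R (κ + 1) ξ)‖ₑ := enorm_add_le _ _
        exact (ENNReal.rpow_le_rpow h1 hp0).trans (lonM_add _ _ hp1)
    _ = 2 ^ p * ((∫⁻ ξ : E (κ + 2), ‖extn F ξ‖ₑ ^ p) +
        ∫⁻ ξ : E (κ + 2), ‖extn F (bone_R (κ + 1) ξ)‖ₑ ^ p) := by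
        rw [lintegral_const_mul _ (by
          exact hme.add ((hme.comp (bone_R (κ + 1)).continuous.measurable))),
          lintegral_add_left hme]
    _ = 2 ^ (p + 1) * ∫⁻ ξ : E (κ + 2), ‖extn F ξ‖ₑ ^ p := by
        rw [hRint, ← two_mul, ← mul_assoc, ENNReal.rpow_add _ _ (by norm_num) (by norm_num),
          ENNReal.rpow_one]
    _ ≤ 2 ^ (p + 1) * C := by gcongr

/-- The bound for block densities cut by half spaces, for all `l ≥ 1`. -/
theorem block_cuts_one (k l : ℕ) (hk : 2 ≤ k) (hl : 1 ≤ l) (N : ℕ) (s p : ℝ) (hs : 0 < s)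
    (hs1 : s < 1) (hp : 2 * ((k : ℝ) + l) / (k + l - 1) < p)
    (hps : 2 + 4 * (1 - s) / (k + 2 * s + 2 * (l - 1) * (1 - s)) < p) :
    ∃ C : ℝ≥0∞, C ≠ ∞ ∧ ∀ g : E (k + l) → ℂ, Measurable g → (∀ x, ‖g x‖ ≤ 1) →
      blockCls k l s g → ∀ (v : Fin N → E (k + l)) (c : Fin N → ℝ),
      ∫⁻ ξ, ‖extn (fun x => g x * ∏ i, hsn (c i) (v i) x) ξ‖ₑ ^ p ≤ C := by
  obtain rfl | hl2 : l = 1 ∨ 2 ≤ l := by omega
  · obtain ⟨κ, rfl⟩ : ∃ κ, k = κ + 1 := ⟨k - 1, by omega⟩
    have hκ0 : (0:ℝ) ≤ κ := Nat.cast_nonneg κ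
    push_cast at hp hps
    have e1 : 2 * ((κ : ℝ) + 1 + 1) / (κ + 1 + 1 - 1) = 2 * ((κ : ℝ) + 2) / (κ + 1) := by
      rw [show (κ : ℝ) + 1 + 1 = κ + 2 by ring, show (κ : ℝ) + 2 - 1 = κ + 1 by ring]
    have e2 : 2 + 4 * (1 - s) / ((κ : ℝ) + 1 + 2 * s + 2 * (1 - 1) * (1 - s)) =
        2 * ((κ : ℝ) + 3) / (κ + 1 + 2 * s) := by
      rw [show (κ : ℝ) + 1 + 2 * s + 2 * (1 - 1) * (1 - s) = κ + 1 + 2 * s by ring]
      field_simp
      ring
    rw [e1] at hp
    rw [e2] at hps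
    refine multicut _ (by omega) (max (2 * ((κ : ℝ) + 2) / (κ + 1))
      (2 * ((κ : ℝ) + 3) / (κ + 1 + 2 * s))) ?_ _ ?_ N p (max_lt hp hps)
    · refine le_max_of_le_left ?_
      rw [le_div_iff₀ (by positivity)]
      linarith
    · intro p' hp'
      obtain ⟨C, hC, h⟩ := block_base_one κ (by omega) s p' hs
        ((le_max_left _ _).trans_lt hp') ((le_max_right _ _).trans_lt hp')
      refine ⟨C, hC, ?_⟩
      rintro g _ _ ⟨G, hG, hb, hE, rfl⟩
      exact h G hG hb hE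
  · exact block_cuts k l hk hl2 N s p hs hs1 hp hps

end Pool.Agent.MP_6cbfb8_an
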