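import Pool.Agent.MP_6cbfb8_an.BlockOne

/-!
The restriction conjecture for the unit sphere of `R^(k+l)`, `k ≥ 2`, `l ≥ 1`, for bounded
densities `G(x', |x''|)`, `x = (x', x'')` in `R^k × R^l`, which have a fraction of a derivative in
`L^2` in the direction of `x'`, no regularity at all being assumed in `|x'|`, cut by half spaces,
and for all superpositions of rotated and modulated densities of this kind. (For `l = 1` these
superpositions contain all bounded densities with a fraction of a derivative along the parallels: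
write the density as the sum of its restrictions to the half spaces `x'' > 0` and `x'' < 0`.)
-/

namespace Pool.Agent.MP_6cbfb8_an.BlockRegularityVariant

open MeasureTheory Set Pool.Agent.MP_6cbfb8_an
open scoped ENNReal Real

/-- For `k ≥ 2`, `l ≥ 1`, `0 < s < 1`, `p > 2(k+l)/(k+l-1)` and `p > 2 + 4(1-s)/(k+2s+2(l-1)(1-s))` (the
second condition follows from the first one as soon as `s ≥ k/(2(k+1))`) and every number `N` of
half spaces there is a finite `C` such that the Fourier transform of every superposition, over a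
finite measure space, of rotated and modulated densities on the unit sphere of `R^k × R^l`, each
of the form `x ↦ G w (x', |x''|)` times the indicator function of an intersection of `N` half
spaces, where `G w` is measurable on `R^(k+1)`, `|G w| ≤ 1` and the angular energy of `G w` is at
most one, has `L^p` norm at most `C^(1/p)` times the total mass of the measure space. -/
theorem result (k l : ℕ) (hk : 2 ≤ k) (hl : 1 ≤ l) (N : ℕ) (s p : ℝ) (hs : 0 < s) (hs1 : s < 1)
    (hp : 2 * ((k : ℝ) + l) / (k + l - 1) < p)
    (hps : 2 + 4 * (1 - s) / (k + 2 * s + 2 * (l - 1) * (1 - s)) < p) :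
    ∃ C : ℝ≥0∞, C ≠ ∞ ∧ ∀ (W : Type) (_ : MeasurableSpace W) (ν : Measure W)
      (_ : IsFiniteMeasure ν) (R : W → (E (k + l) ≃ₗᵢ[ℝ] E (k + l))) (η : W → E (k + l))
      (G : W → E (k + 1) → ℂ) (v : W → Fin N → E (k + l)) (c : W → Fin N → ℝ),
      (Measurable fun q : W × E (k + l) => R q.1 q.2) → Measurable η →
      (Measurable fun q : W × E (k + 1) => G q.1 q.2) → Measurable v → Measurable c →
      (∀ w x, ‖G w x‖ ≤ 1) → (∀ w, angEnergy s (G w) ≤ 1) →
      ∫⁻ ξ, ‖extn (mix ν R η fun w x => lift (G w) x * ∏ i, hsn (c w i) (v w i) x) ξ‖ₑ ^ p ≤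
        C * ν univ ^ p := by
  obtain ⟨C, hC, H⟩ := block_cuts_one k l hk hl N s p hs hs1 hp hps
  refine ⟨C, hC, ?_⟩
  intro W _ ν _ R η G v c hR hη hG hv hc hb hE
  have hp1 : 1 ≤ p := by
    have hk2 : (2:ℝ) ≤ k := by exact_mod_cast hk
    have hl2 : (1:ℝ) ≤ l := by exact_mod_cast hl
    refine le_trans ?_ hp.le
    rw [le_div_iff₀ (by linarith)]
    linarith
  refine lintegral_mix_le hp1 (fun g => ∃ (G' : E (k + 1) → ℂ) (v' : Fin N → E (k + l))
    (c' : Fin N → ℝ), Measurable G' ∧ (∀ x, ‖G' x‖ ≤ 1) ∧ angEnergy s G' ≤ 1 ∧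
    g = fun x => lift G' x * ∏ i, hsn (c' i) (v' i) x) ?_ ν R η _ hR hη ?_ ?_ ?_
  · rintro g - - ⟨G', v', c', hG', hb', hE', rfl⟩
    exact H (lift G') (measurable_lift hG') (fun x => hb' _) ⟨G', hG', hb', hE', rfl⟩ v' c'
  · have h1 : Measurable fun q : W × E (k + l) => (lift (G q.1) q.2 : ℂ) := by
      unfold lift
      refine hG.comp (f := fun q : W × E (k + l) => (q.1, join (fstE q.2) ‖(sndE q.2 : E l)‖)) ?_
      refine measurable_fst.prodMk ?_
      exact (continuous_join.comp (continuous_fstE.prodMk continuous_sndE.norm)).measurable.comp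
        measurable_snd
    have h2 : Measurable fun q : W × E (k + l) => ∏ i, hsn (c q.1 i) (v q.1 i) q.2 := by
      refine Finset.measurable_prod _ fun i _ => ?_
      unfold hsn
      refine Measurable.ite ?_ measurable_const measurable_const
      have h3 : Measurable fun q : W × E (k + l) => c q.1 i :=
        (measurable_pi_iff.1 hc i).comp measurable_fst
      have h4 : Measurable fun q : W × E (k + l) => v q.1 i :=
        (measurable_pi_iff.1 hv i).comp measurable_fst
      exact measurableSet_lt h3 (measurable_snd.inner h4)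
    exact h1.mul h2
  · intro w x
    rw [norm_mul]
    exact mul_le_one₀ (hb w _) (norm_nonneg _) (norm_prod_hsn_le _ _ _)
  · intro w
    exact ⟨G w, v w, c w, hG.comp (f := fun t : E (k + 1) => (w, t)) (by fun_prop), hb w, hE w, rfl⟩

end Pool.Agent.MP_6cbfb8_an.BlockRegularityVariant
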