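import Pool.Agent.MP_6cbfb8_an.Bessel
import Pool.Agent.MP_6cbfb8_an.Gauss

/-!
Local L2 estimate.
-/

namespace Pool.Agent.MP_6cbfb8_an

open MeasureTheory Set
open scoped ENNReal Real RealInnerProductSpace

namespace CylL2

theorem cos_push (φ : ℝ → ℝ≥0∞) (hφ : Measurable φ) :
    ∫⁻ θ, φ (Real.cos θ) ∂(((volume : Measure ℝ).restrict (Ioo 0 π)).withDensity
      (fun θ => ENNReal.ofReal (Real.sin θ))) ≤ ∫⁻ x, φ x := by
  rw [lintegral_withDensity_eq_lintegral_mul _ (by fun_prop) (by fun_prop)]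
  have h := lintegral_image_eq_lintegral_abs_deriv_mul (s := Ioo 0 π) (f := Real.cos)
    (f' := fun θ => - Real.sin θ) measurableSet_Ioo
    (fun x _ => (Real.hasDerivAt_cos x).hasDerivWithinAt)
    (Real.injOn_cos.mono Ioo_subset_Icc_self) φ
  calc ∫⁻ θ in Ioo 0 π, ((fun θ => ENNReal.ofReal (Real.sin θ)) * fun θ => φ (Real.cos θ)) θ
      = ∫⁻ θ in Ioo 0 π, ENNReal.ofReal |(- Real.sin θ)| * φ (Real.cos θ) := by
        apply setLIntegral_congr_fun measurableSet_Ioo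
        intro θ hθ
        simp only [Pi.mul_apply]
        rw [abs_neg, abs_of_pos (Real.sin_pos_of_mem_Ioo hθ)]
    _ = ∫⁻ x in Real.cos '' Ioo 0 π, φ x := h.symm
    _ ≤ ∫⁻ x, φ x := setLIntegral_le_lintegral _ _

/-- the oscillating factor -/
noncomputable def osc {n : ℕ} (s : ℝ) (ω y : E n) : ℂ :=
  Complex.exp (((-(2 * π * (s * inner ℝ ω y)) : ℝ) : ℂ) * Complex.I)

theorem norm_osc {n : ℕ} (s : ℝ) (ω y : E n) : ‖osc s ω y‖ = 1 := by
  unfold osc
  exact Complex.norm_exp_ofReal_mul_I _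

theorem continuous_osc {n : ℕ} (s : ℝ) : Continuous (fun q : E n × E n => osc s q.1 q.2) := by
  unfold osc
  fun_prop

theorem mul_le_sq (a b : ℝ≥0∞) : a * b ≤ a ^ (2:ℝ) + b ^ (2:ℝ) := by
  have h2 : ∀ c : ℝ≥0∞, c ^ (2:ℝ) = c * c := by
    intro c
    rw [ENNReal.rpow_two, sq]
  rw [h2, h2]
  rcases le_total a b with h | h
  · exact (mul_le_mul_left h b).trans le_add_self
  · exact (mul_le_mul_right h a).trans le_self_add

theorem osc_mul_conj {n : ℕ} (s : ℝ) (ω ω' y : E n) :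
    osc s ω y * (starRingEnd ℂ) (osc s ω' y) =
      Complex.exp ((((-(2 * π * s) : ℝ) : ℂ) * Complex.I) * ((inner ℝ (ω - ω') y : ℝ) : ℂ)) := by
  unfold osc
  rw [← Complex.exp_conj, ← Complex.exp_add]
  congr 1
  rw [map_mul, Complex.conj_ofReal, Complex.conj_I, inner_sub_left]
  push_cast
  ring

/-- the integrand in the double integral -/
noncomputable def Hfun {n : ℕ} (F : S n → ℂ) (s b : ℝ) (y : E n) (q : S n × S n) : ℂ :=
  (F q.1 * osc s q.1 y) * (starRingEnd ℂ) (F q.2 * osc s q.2 y) *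
    ((Real.exp (-(b * ‖y‖ ^ 2)) : ℝ) : ℂ)

theorem norm_gauss_val {n : ℕ} (s r : ℝ) (hr : 0 < r) (w : E n) :
    ‖∫ y : E n, Complex.exp (-((π / r ^ 2 : ℝ) : ℂ) * ‖y‖ ^ 2 +
      (((-(2 * π * s) : ℝ) : ℂ) * Complex.I) * ((inner ℝ w y : ℝ) : ℂ))‖ =
      r ^ n * Real.exp (-(π * s ^ 2 * r ^ 2 * ‖w‖ ^ 2)) := by
  have hb : 0 < (((π / r ^ 2 : ℝ) : ℂ)).re := by
    rw [Complex.ofReal_re]
    positivity
  rw [GaussianFourier.integral_cexp_neg_mul_sq_norm_add hb]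
  rw [norm_mul]
  congr 1
  · have h1 : (π : ℂ) / ((π / r ^ 2 : ℝ) : ℂ) = ((r ^ 2 : ℝ) : ℂ) := by
      push_cast
      have := Real.pi_pos
      have hpi : (π : ℂ) ≠ 0 := by exact_mod_cast this.ne'
      have hr' : (r : ℂ) ≠ 0 := by exact_mod_cast hr.ne'
      field_simp
    rw [h1, Complex.norm_cpow_eq_rpow_re_of_pos (by positivity)]
    rw [finrank_euclideanSpace_fin]
    have h2 : ((n : ℂ) / 2).re = (n : ℝ) / 2 := by
      rw [show ((n : ℂ) / 2) = (((n : ℝ) / 2 : ℝ) : ℂ) by push_cast; ring, Complex.ofReal_re]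
    rw [h2, ← Real.rpow_natCast r 2, ← Real.rpow_mul hr.le, ← Real.rpow_natCast r n]
    congr 1
    push_cast
    ring
  · rw [Complex.norm_exp]
    congr 1
    have h3 : (((-(2 * π * s) : ℝ) : ℂ) * Complex.I) ^ 2 * (‖w‖ : ℂ) ^ 2 /
        (4 * ((π / r ^ 2 : ℝ) : ℂ)) = ((-(π * s ^ 2 * r ^ 2 * ‖w‖ ^ 2) : ℝ) : ℂ) := by
      push_cast
      have := Real.pi_pos
      have hpi : (π : ℂ) ≠ 0 := by exact_mod_cast this.ne'
      have hr' : (r : ℂ) ≠ 0 := by exact_mod_cast hr.ne'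
      field_simp
      rw [Complex.I_sq]
      ring
    rw [h3, Complex.ofReal_re]

theorem gaussL2 {n : ℕ} (F : S n → ℂ) (hF : Measurable F) (K : ℝ) (hK : ∀ ω, ‖F ω‖ ≤ K)
    (s r : ℝ) (hr : 0 < r) :
    ∫⁻ y : E n, ‖∫ ω : S n, F ω * osc s ω y ∂(sm n)‖ₑ ^ (2:ℝ) *
        ENNReal.ofReal (Real.exp (-(π / r ^ 2 * ‖y‖ ^ 2))) ≤
      ∫⁻ q : S n × S n, ‖F q.1‖ₑ * ‖F q.2‖ₑ *
        ENNReal.ofReal (r ^ n * Real.exp (-(π * s ^ 2 * r ^ 2 * ‖(q.1 : E n) - q.2‖ ^ 2)))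
        ∂((sm n).prod (sm n)) := by
  set b : ℝ := π / r ^ 2 with hb
  have hb0 : 0 < b := by positivity
  set σ := sm n with hσ
  have hosc : ∀ y : E n, Measurable (fun ω : S n => osc s (ω : E n) y) := by
    intro y
    exact ((continuous_osc s).comp ((continuous_subtype_val).prodMk continuous_const)).measurable
  set Kf : E n → ℂ := fun y => ∫ ω : S n, F ω * osc s ω y ∂σ with hKf
  -- square as a double integral
  have hsq : ∀ y, ((‖Kf y‖ ^ 2 * Real.exp (-(b * ‖y‖ ^ 2)) : ℝ) : ℂ) =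
      ∫ q : S n × S n, Hfun F s b y q ∂(σ.prod σ) := by
    intro y
    unfold Hfun
    rw [integral_mul_const, integral_prod_mul (μ := σ) (ν := σ) (fun ω => F ω * osc s (ω : E n) y)
      (fun ω => (starRingEnd ℂ) (F ω * osc s (ω : E n) y)), integral_conj]
    push_cast
    rw [Complex.mul_conj, Complex.normSq_eq_norm_sq]
    push_cast
    rfl
  -- integrability
  have hgint : Integrable (fun y : E n => Real.exp (-(b * ‖y‖ ^ 2))) := by
    have h := GaussianFourier.integrable_cexp_neg_mul_sq_norm_add (V := E n) (b := (b : ℂ))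
      (by rw [Complex.ofReal_re]; exact hb0) 0 0
    have h2 := h.norm
    refine h2.congr (Filter.Eventually.of_forall fun y => ?_)
    simp only [zero_mul, add_zero]
    rw [show -(b : ℂ) * (‖y‖ : ℂ) ^ 2 = ((-(b * ‖y‖ ^ 2) : ℝ) : ℂ) by push_cast; ring,
      Complex.norm_exp_ofReal]
  have hmeasH : Measurable (Function.uncurry (Hfun F s b)) := by
    have ho1 : Measurable (fun p : E n × (S n × S n) => osc s (p.2.1 : E n) p.1) :=
      ((continuous_osc s).comp ((continuous_subtype_val.comp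
        (continuous_fst.comp continuous_snd)).prodMk continuous_fst)).measurable
    have ho2 : Measurable (fun p : E n × (S n × S n) => osc s (p.2.2 : E n) p.1) :=
      ((continuous_osc s).comp ((continuous_subtype_val.comp
        (continuous_snd.comp continuous_snd)).prodMk continuous_fst)).measurable
    have hF1 : Measurable (fun p : E n × (S n × S n) => F p.2.1) :=
      hF.comp (measurable_fst.comp measurable_snd)
    have hF2 : Measurable (fun p : E n × (S n × S n) => F p.2.2) :=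
      hF.comp (measurable_snd.comp measurable_snd)
    have hconj : Measurable (starRingEnd ℂ) := Complex.continuous_conj.measurable
    have hg : Measurable (fun p : E n × (S n × S n) =>
        ((Real.exp (-(b * ‖p.1‖ ^ 2)) : ℝ) : ℂ)) := by fun_prop
    exact ((hF1.mul ho1).mul (hconj.comp (hF2.mul ho2))).mul hg
  have hnormH : ∀ y q, ‖Hfun F s b y q‖ = ‖F q.1‖ * ‖F q.2‖ * Real.exp (-(b * ‖y‖ ^ 2)) := by
    intro y q
    unfold Hfun
    rw [norm_mul, norm_mul, norm_mul, RCLike.norm_conj, norm_mul, norm_osc, norm_osc, mul_one,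
      mul_one, Complex.norm_real, Real.norm_eq_abs, abs_of_pos (Real.exp_pos _)]
  have hintH : Integrable (Function.uncurry (Hfun F s b)) ((volume : Measure (E n)).prod (σ.prod σ)) := by
    have hdom : Integrable (fun p : E n × (S n × S n) => Real.exp (-(b * ‖p.1‖ ^ 2)) * (K * K))
        ((volume : Measure (E n)).prod (σ.prod σ)) :=
      hgint.mul_prod (integrable_const (K * K))
    refine hdom.mono' hmeasH.aestronglyMeasurable (Filter.Eventually.of_forall ?_)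
    rintro ⟨y, q⟩
    show ‖Hfun F s b y q‖ ≤ _
    rw [hnormH, mul_comm]
    have h0 : ∀ ω, 0 ≤ ‖F ω‖ := fun ω => norm_nonneg _
    have hK0 : 0 ≤ K := (h0 q.1).trans (hK q.1)
    exact mul_le_mul_of_nonneg_left (mul_le_mul (hK _) (hK _) (h0 _) hK0) (Real.exp_pos _).le
  -- the left-hand side
  have hinteg : Integrable (fun y => ‖Kf y‖ ^ 2 * Real.exp (-(b * ‖y‖ ^ 2))) := by
    have h1 : Integrable (fun y => ∫ q : S n × S n, Hfun F s b y q ∂(σ.prod σ)) :=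
      hintH.integral_prod_left
    have h2 := h1.norm
    refine h2.congr (Filter.Eventually.of_forall fun y => ?_)
    simp only
    rw [← hsq y, Complex.norm_real, Real.norm_eq_abs, abs_of_nonneg (by positivity)]
  have hlhs : ∫⁻ y : E n, ‖Kf y‖ₑ ^ (2:ℝ) * ENNReal.ofReal (Real.exp (-(b * ‖y‖ ^ 2))) =
      ‖∫ y : E n, ∫ q : S n × S n, Hfun F s b y q ∂(σ.prod σ)‖ₑ := by
    have h1 : ∫⁻ y : E n, ‖Kf y‖ₑ ^ (2:ℝ) * ENNReal.ofReal (Real.exp (-(b * ‖y‖ ^ 2))) =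
        ∫⁻ y : E n, ENNReal.ofReal (‖Kf y‖ ^ 2 * Real.exp (-(b * ‖y‖ ^ 2))) := by
      apply lintegral_congr
      intro y
      rw [ENNReal.ofReal_mul (by positivity), ENNReal.ofReal_pow (norm_nonneg _),
        ofReal_norm, ENNReal.rpow_two]
    rw [h1, ← ofReal_integral_eq_lintegral_ofReal hinteg
      (Filter.Eventually.of_forall fun y => by positivity)]
    have h2 : ∫ y : E n, ∫ q : S n × S n, Hfun F s b y q ∂(σ.prod σ) =
        ((∫ y : E n, ‖Kf y‖ ^ 2 * Real.exp (-(b * ‖y‖ ^ 2)) : ℝ) : ℂ) := by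
      rw [← integral_complex_ofReal]
      apply integral_congr_ae
      exact Filter.Eventually.of_forall fun y => (hsq y).symm
    rw [h2, ← ofReal_norm, Complex.norm_real, Real.norm_eq_abs, abs_of_nonneg]
    apply integral_nonneg
    intro y
    positivity
  rw [hlhs, integral_integral_swap hintH]
  refine (enorm_integral_le_lintegral_enorm _).trans (lintegral_mono fun q => ?_)
  -- the inner integral
  have hinner : ∫ y : E n, Hfun F s b y q = F q.1 * (starRingEnd ℂ) (F q.2) *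
      ∫ y : E n, Complex.exp (-((π / r ^ 2 : ℝ) : ℂ) * ‖y‖ ^ 2 +
      (((-(2 * π * s) : ℝ) : ℂ) * Complex.I) * ((inner ℝ ((q.1 : E n) - q.2) y : ℝ) : ℂ)) := by
    rw [← integral_const_mul]
    apply integral_congr_ae
    refine Filter.Eventually.of_forall fun y => ?_
    simp only
    unfold Hfun
    rw [Complex.exp_add, ← osc_mul_conj, map_mul]
    have h5 : ((Real.exp (-(b * ‖y‖ ^ 2)) : ℝ) : ℂ) =
        Complex.exp (-((π / r ^ 2 : ℝ) : ℂ) * (‖y‖ : ℂ) ^ 2) := by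
      rw [Complex.ofReal_exp]
      congr 1
      rw [← hb]
      push_cast
      ring
    rw [h5]
    ring
  rw [hinner, ← ofReal_norm, norm_mul, norm_mul, RCLike.norm_conj,
    norm_gauss_val s r hr, ENNReal.ofReal_mul (by positivity), ENNReal.ofReal_mul (by positivity),
    ofReal_norm, ofReal_norm]

theorem kernel_bound (j : ℕ) (C : ℝ) (hC : 0 < C) (hg : ∀ R : ℝ, 0 < R → ∀ x : E (j + 2),
    ∫⁻ ω : S (j + 2), ENNReal.ofReal (Real.exp (-(R ^ 2 * ‖x - (ω : E (j + 2))‖ ^ 2))) ∂(sm (j + 2))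
      ≤ ENNReal.ofReal (C / R ^ (j + 1)))
    (F : S (j + 2) → ℂ) (hF : Measurable F) (s r : ℝ) (hs : 0 < s) (hr : 0 < r) :
    ∫⁻ q : S (j + 2) × S (j + 2), ‖F q.1‖ₑ * ‖F q.2‖ₑ *
        ENNReal.ofReal (r ^ (j + 2) *
          Real.exp (-(π * s ^ 2 * r ^ 2 * ‖(q.1 : E (j + 2)) - q.2‖ ^ 2)))
        ∂((sm (j + 2)).prod (sm (j + 2))) ≤
      ENNReal.ofReal (2 * C * r ^ (j + 2) / (s * r) ^ (j + 1)) *
        ∫⁻ ω : S (j + 2), ‖F ω‖ₑ ^ (2:ℝ) ∂(sm (j + 2)) := by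
  set σ := sm (j + 2) with hσ
  set R : ℝ := √π * (s * r) with hR
  have hR0 : 0 < R := by positivity
  have hR2 : R ^ 2 = π * s ^ 2 * r ^ 2 := by
    rw [hR, mul_pow, Real.sq_sqrt Real.pi_pos.le]; ring
  set k : E (j + 2) → E (j + 2) → ℝ≥0∞ := fun x y =>
    ENNReal.ofReal (r ^ (j + 2) * Real.exp (-(π * s ^ 2 * r ^ 2 * ‖x - y‖ ^ 2))) with hk
  have hkm : Measurable (fun q : S (j + 2) × S (j + 2) => k q.1 q.2) := by
    apply Measurable.ennreal_ofReal
    apply Continuous.measurable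
    fun_prop
  have hkx : ∀ x : E (j + 2), ∫⁻ ω : S (j + 2), k x ω ∂σ ≤
      ENNReal.ofReal (C * r ^ (j + 2) / (s * r) ^ (j + 1)) := by
    intro x
    have h1 : ∀ ω : S (j + 2), k x ω = ENNReal.ofReal (r ^ (j + 2)) *
        ENNReal.ofReal (Real.exp (-(R ^ 2 * ‖x - (ω : E (j + 2))‖ ^ 2))) := by
      intro ω
      rw [hk, hR2]
      exact ENNReal.ofReal_mul (by positivity)
    simp_rw [h1]
    rw [lintegral_const_mul' _ _ ENNReal.ofReal_ne_top]
    refine (mul_le_mul_right (hg R hR0 x) _).trans ?_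
    rw [← ENNReal.ofReal_mul (by positivity)]
    apply ENNReal.ofReal_le_ofReal
    have h2 : (s * r) ^ (j + 1) ≤ R ^ (j + 1) := by
      apply pow_le_pow_left₀ (by positivity)
      rw [hR]
      have h3 : 1 ≤ √π := by
        rw [Real.one_le_sqrt]
        linarith [Real.pi_gt_three]
      nlinarith [mul_pos hs hr]
    have h4 : C / R ^ (j + 1) ≤ C / (s * r) ^ (j + 1) :=
      div_le_div_of_nonneg_left hC.le (by positivity) h2
    calc r ^ (j + 2) * (C / R ^ (j + 1)) ≤ r ^ (j + 2) * (C / (s * r) ^ (j + 1)) :=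
          mul_le_mul_of_nonneg_left h4 (by positivity)
      _ = _ := by ring
  have hksymm : ∀ x y, k x y = k y x := by
    intro x y
    simp only [hk]
    rw [norm_sub_rev]
  have hF1 : Measurable (fun q : S (j + 2) × S (j + 2) => ‖F q.1‖ₑ ^ (2:ℝ) * k q.1 q.2) :=
    (((hF.comp measurable_fst).enorm).pow_const _).mul hkm
  have hF2 : Measurable (fun q : S (j + 2) × S (j + 2) => ‖F q.2‖ₑ ^ (2:ℝ) * k q.1 q.2) :=
    (((hF.comp measurable_snd).enorm).pow_const _).mul hkm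
  have hA1 : ∫⁻ q : S (j + 2) × S (j + 2), ‖F q.1‖ₑ ^ (2:ℝ) * k q.1 q.2 ∂(σ.prod σ) ≤
      ENNReal.ofReal (C * r ^ (j + 2) / (s * r) ^ (j + 1)) * ∫⁻ ω, ‖F ω‖ₑ ^ (2:ℝ) ∂σ := by
    rw [lintegral_prod _ hF1.aemeasurable, ← lintegral_const_mul' _ _ ENNReal.ofReal_ne_top]
    apply lintegral_mono
    intro ω
    simp only
    have hne : ‖F ω‖ₑ ^ (2:ℝ) ≠ ∞ := ENNReal.rpow_ne_top_of_nonneg (by norm_num) enorm_ne_top
    rw [lintegral_const_mul' _ _ hne, mul_comm]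
    exact mul_le_mul_left (hkx ω) _
  have hA2 : ∫⁻ q : S (j + 2) × S (j + 2), ‖F q.2‖ₑ ^ (2:ℝ) * k q.1 q.2 ∂(σ.prod σ) ≤
      ENNReal.ofReal (C * r ^ (j + 2) / (s * r) ^ (j + 1)) * ∫⁻ ω, ‖F ω‖ₑ ^ (2:ℝ) ∂σ := by
    rw [lintegral_prod_symm _ hF2.aemeasurable, ← lintegral_const_mul' _ _ ENNReal.ofReal_ne_top]
    apply lintegral_mono
    intro ω
    simp only
    have hne : ‖F ω‖ₑ ^ (2:ℝ) ≠ ∞ := ENNReal.rpow_ne_top_of_nonneg (by norm_num) enorm_ne_top
    rw [lintegral_const_mul' _ _ hne, mul_comm]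
    simp_rw [hksymm _ (ω : E (j + 2))]
    exact mul_le_mul_left (hkx ω) _
  calc ∫⁻ q : S (j + 2) × S (j + 2), ‖F q.1‖ₑ * ‖F q.2‖ₑ * k q.1 q.2 ∂(σ.prod σ)
      ≤ ∫⁻ q : S (j + 2) × S (j + 2), (‖F q.1‖ₑ ^ (2:ℝ) * k q.1 q.2 +
          ‖F q.2‖ₑ ^ (2:ℝ) * k q.1 q.2) ∂(σ.prod σ) := by
        apply lintegral_mono
        intro q
        simp only
        rw [← add_mul]
        exact mul_le_mul_left (mul_le_sq _ _) _
    _ = ∫⁻ q : S (j + 2) × S (j + 2), ‖F q.1‖ₑ ^ (2:ℝ) * k q.1 q.2 ∂(σ.prod σ) +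
        ∫⁻ q : S (j + 2) × S (j + 2), ‖F q.2‖ₑ ^ (2:ℝ) * k q.1 q.2 ∂(σ.prod σ) :=
        lintegral_add_left hF1 _
    _ ≤ ENNReal.ofReal (C * r ^ (j + 2) / (s * r) ^ (j + 1)) * ∫⁻ ω, ‖F ω‖ₑ ^ (2:ℝ) ∂σ +
        ENNReal.ofReal (C * r ^ (j + 2) / (s * r) ^ (j + 1)) * ∫⁻ ω, ‖F ω‖ₑ ^ (2:ℝ) ∂σ :=
        add_le_add hA1 hA2
    _ = _ := by
        rw [← add_mul, ← ENNReal.ofReal_add (by positivity) (by positivity)]
        congr 2
        ring

theorem sphere_bound (j : ℕ) (C : ℝ) (hC : 0 < C) (hg : ∀ R : ℝ, 0 < R → ∀ x : E (j + 2),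
    ∫⁻ ω : S (j + 2), ENNReal.ofReal (Real.exp (-(R ^ 2 * ‖x - (ω : E (j + 2))‖ ^ 2))) ∂(sm (j + 2))
      ≤ ENNReal.ofReal (C / R ^ (j + 1)))
    (F : S (j + 2) → ℂ) (hF : Measurable F) (K : ℝ) (hK : ∀ ω, ‖F ω‖ ≤ K)
    (s r : ℝ) (hs : 0 < s) (hr : 0 < r) :
    ∫⁻ y in Metric.ball (0 : E (j + 2)) (2 * r),
      ‖∫ ω : S (j + 2), F ω * osc s ω y ∂(sm (j + 2))‖ₑ ^ (2:ℝ) ≤
      ENNReal.ofReal (Real.exp (4 * π) * (2 * C * r ^ (j + 2) / (s * r) ^ (j + 1))) *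
        ∫⁻ ω : S (j + 2), ‖F ω‖ₑ ^ (2:ℝ) ∂(sm (j + 2)) := by
  calc ∫⁻ y in Metric.ball (0 : E (j + 2)) (2 * r),
      ‖∫ ω : S (j + 2), F ω * osc s ω y ∂(sm (j + 2))‖ₑ ^ (2:ℝ)
      ≤ ∫⁻ y in Metric.ball (0 : E (j + 2)) (2 * r), ENNReal.ofReal (Real.exp (4 * π)) *
        (‖∫ ω : S (j + 2), F ω * osc s ω y ∂(sm (j + 2))‖ₑ ^ (2:ℝ) *
          ENNReal.ofReal (Real.exp (-(π / r ^ 2 * ‖y‖ ^ 2)))) := by
        apply setLIntegral_mono' measurableSet_ball
        intro y hy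
        rw [← mul_assoc, mul_comm (ENNReal.ofReal _) (_ ^ _), mul_assoc,
          ← ENNReal.ofReal_mul (Real.exp_pos _).le]
        apply le_mul_of_one_le_right zero_le
        rw [← ENNReal.ofReal_one]
        apply ENNReal.ofReal_le_ofReal
        rw [← Real.exp_add]
        apply Real.one_le_exp
        rw [mem_ball_zero_iff] at hy
        have h1 : ‖y‖ ^ 2 ≤ 4 * r ^ 2 := by nlinarith [norm_nonneg y]
        have h2 : π / r ^ 2 * ‖y‖ ^ 2 ≤ π / r ^ 2 * (4 * r ^ 2) :=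
          mul_le_mul_of_nonneg_left h1 (by positivity)
        have h3 : π / r ^ 2 * (4 * r ^ 2) = 4 * π := by field_simp
        linarith
    _ ≤ ∫⁻ y : E (j + 2), ENNReal.ofReal (Real.exp (4 * π)) *
        (‖∫ ω : S (j + 2), F ω * osc s ω y ∂(sm (j + 2))‖ₑ ^ (2:ℝ) *
          ENNReal.ofReal (Real.exp (-(π / r ^ 2 * ‖y‖ ^ 2)))) := setLIntegral_le_lintegral _ _
    _ = ENNReal.ofReal (Real.exp (4 * π)) * ∫⁻ y : E (j + 2),
        (‖∫ ω : S (j + 2), F ω * osc s ω y ∂(sm (j + 2))‖ₑ ^ (2:ℝ) *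
          ENNReal.ofReal (Real.exp (-(π / r ^ 2 * ‖y‖ ^ 2)))) :=
        lintegral_const_mul' _ _ ENNReal.ofReal_ne_top
    _ ≤ ENNReal.ofReal (Real.exp (4 * π)) *
        (ENNReal.ofReal (2 * C * r ^ (j + 2) / (s * r) ^ (j + 1)) *
        ∫⁻ ω : S (j + 2), ‖F ω‖ₑ ^ (2:ℝ) ∂(sm (j + 2))) :=
        mul_le_mul_right ((gaussL2 F hF K hK s r hr).trans
          (kernel_bound j C hC hg F hF s r hs hr)) _
    _ = _ := by
        rw [← mul_assoc, ← ENNReal.ofReal_mul (Real.exp_pos _).le]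

/-- the angular integral -/
noncomputable def ang (j : ℕ) (G : ℝ → E (j + 2) → ℂ) (θ : ℝ) (y : E (j + 2)) : ℂ :=
  ∫ ω : S (j + 2), G θ ω * osc (Real.sin θ) ω y ∂(sm (j + 2))

theorem measurable_ang (j : ℕ) (G : ℝ → E (j + 2) → ℂ) (hG : Measurable (Function.uncurry G)) :
    Measurable (fun q : ℝ × E (j + 2) => ang j G q.1 q.2) := by
  apply StronglyMeasurable.measurable
  unfold ang
  apply StronglyMeasurable.integral_prod_right'
    (f := fun p : (ℝ × E (j + 2)) × S (j + 2) =>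
      G p.1.1 p.2 * osc (Real.sin p.1.1) (p.2 : E (j + 2)) p.1.2)
  apply Measurable.stronglyMeasurable
  apply Measurable.mul
  · exact hG.comp ((measurable_fst.comp measurable_fst).prodMk
      (measurable_subtype_coe.comp measurable_snd))
  · apply Continuous.measurable
    unfold osc
    fun_prop

theorem norm_ang_le (j : ℕ) (G : ℝ → E (j + 2) → ℂ) (hb : ∀ θ x, ‖G θ x‖ ≤ 2)
    (θ : ℝ) (y : E (j + 2)) : ‖ang j G θ y‖ ≤ 2 * (sm (j + 2)).real univ := by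
  unfold ang
  apply norm_integral_le_of_norm_le_const
  refine Filter.Eventually.of_forall fun ω => ?_
  rw [norm_mul, norm_osc, mul_one]
  exact hb _ _

theorem cyl_eq (j : ℕ) (G : ℝ → E (j + 2) → ℂ) (y : E (j + 2)) (z : ℝ) :
    cyl j G y z = ∫ θ, (ang j G θ y * ((Real.sin θ ^ j : ℝ) : ℂ)) *
      Complex.exp (((-(2 * π * inner ℝ (Real.cos θ) z) : ℝ) : ℂ) * Complex.I)
      ∂(((volume : Measure ℝ).restrict (Ioo 0 π)).withDensity
      (fun θ => ENNReal.ofReal (Real.sin θ))) := by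
  rw [integral_withDensity_eq_integral_toReal_smul (by fun_prop)
    (Filter.Eventually.of_forall fun _ => ENNReal.ofReal_lt_top)]
  unfold cyl
  apply setIntegral_congr_fun measurableSet_Ioo
  intro θ hθ
  simp only
  have hs := Real.sin_pos_of_mem_Ioo hθ
  rw [ENNReal.toReal_ofReal hs.le]
  have h1 : (∫ ω : S (j + 2), G θ ω *
      Complex.exp (((-(2 * π * (Real.sin θ * inner ℝ (ω : E (j + 2)) y + z * Real.cos θ)) : ℝ) : ℂ)
      * Complex.I) ∂(sm (j + 2))) = ang j G θ y *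
      Complex.exp (((-(2 * π * inner ℝ (Real.cos θ) z) : ℝ) : ℂ) * Complex.I) := by
    unfold ang osc
    rw [← integral_mul_const]
    apply integral_congr_ae
    refine Filter.Eventually.of_forall fun ω => ?_
    simp only
    rw [mul_assoc (G θ ω), ← Complex.exp_add]
    congr 2
    simp only [RCLike.inner_apply, conj_trivial]
    push_cast
    ring
  rw [h1, Complex.real_smul]
  push_cast
  ring

end CylL2

open CylL2 in
theorem cyl_L2w (j : ℕ) : ∃ C : ℝ≥0∞, C ≠ ∞ ∧ ∀ r : ℝ, 0 < r → ∀ G : ℝ → E (j + 2) → ℂ,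
    Measurable (Function.uncurry G) → (∀ θ x, ‖G θ x‖ ≤ 2) →
    ∫⁻ y in Metric.ball (0 : E (j + 2)) (2 * r), ∫⁻ z : ℝ, ‖cyl j G y z‖ₑ ^ (2:ℝ)
      ≤ C * ENNReal.ofReal r * ∫⁻ θ in Ioo 0 π, ENNReal.ofReal (Real.sin θ ^ j) *
          (∫⁻ ω : S (j + 2), ‖G θ ω‖ₑ ^ (2:ℝ) ∂(sm (j + 2))) := by
  obtain ⟨C, hC, hg⟩ := gauss_upper j
  refine ⟨ENNReal.ofReal (Real.exp (4 * π) * (2 * C)), ENNReal.ofReal_ne_top, ?_⟩
  intro r hr G hG hb
  have hμfin : IsFiniteMeasure (((volume : Measure ℝ).restrict (Ioo 0 π)).withDensity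
      (fun θ => ENNReal.ofReal (Real.sin θ))) := by
    refine ⟨?_⟩
    rw [withDensity_apply _ MeasurableSet.univ, Measure.restrict_univ]
    calc ∫⁻ θ in Ioo 0 π, ENNReal.ofReal (Real.sin θ) ≤ ∫⁻ θ in Ioo 0 π, 1 := by
          apply lintegral_mono
          intro θ
          rw [← ENNReal.ofReal_one]
          exact ENNReal.ofReal_le_ofReal (Real.sin_le_one θ)
      _ < ∞ := by simp
  have hangm := measurable_ang j G hG
  -- Bessel in the variable `z`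
  have hbes : ∀ y : E (j + 2), ∫⁻ z : ℝ, ‖cyl j G y z‖ₑ ^ (2:ℝ) ≤
      ∫⁻ θ in Ioo 0 π, ENNReal.ofReal (Real.sin θ ^ (2 * j + 1)) * ‖ang j G θ y‖ₑ ^ (2:ℝ) := by
    intro y
    have hmeas : Measurable (fun θ => ang j G θ y * ((Real.sin θ ^ j : ℝ) : ℂ)) := by
      apply Measurable.mul
      · exact hangm.comp (measurable_id.prodMk measurable_const)
      · fun_prop
    have hF : Integrable (fun θ => ang j G θ y * ((Real.sin θ ^ j : ℝ) : ℂ))
        (((volume : Measure ℝ).restrict (Ioo 0 π)).withDensity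
        (fun θ => ENNReal.ofReal (Real.sin θ))) := by
      apply Integrable.of_bound hmeas.aestronglyMeasurable (2 * (sm (j + 2)).real univ)
      refine Filter.Eventually.of_forall fun θ => ?_
      rw [norm_mul, Complex.norm_real, Real.norm_eq_abs, abs_pow]
      have h1 : |Real.sin θ| ^ j ≤ 1 := pow_le_one₀ (abs_nonneg _) (Real.abs_sin_le_one θ)
      have h2 := norm_ang_le j G hb θ y
      calc ‖ang j G θ y‖ * |Real.sin θ| ^ j ≤ (2 * (sm (j + 2)).real univ) * 1 :=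
            mul_le_mul h2 h1 (by positivity) ((norm_nonneg _).trans h2)
        _ = _ := mul_one _
    have hB := bessel (((volume : Measure ℝ).restrict (Ioo 0 π)).withDensity
      (fun θ => ENNReal.ofReal (Real.sin θ))) (V := ℝ) Real.cos Real.measurable_cos 1
      ENNReal.one_ne_top (fun φ hφ => by rw [one_mul]; exact cos_push φ hφ)
      (fun θ => ang j G θ y * ((Real.sin θ ^ j : ℝ) : ℂ)) hF
    simp_rw [cyl_eq]
    refine hB.trans ?_
    rw [one_mul, lintegral_withDensity_eq_lintegral_mul _ (by fun_prop) (hmeas.enorm.pow_const _)]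
    apply le_of_eq
    apply setLIntegral_congr_fun measurableSet_Ioo
    intro θ hθ
    have hs := Real.sin_pos_of_mem_Ioo hθ
    simp only [Pi.mul_apply]
    rw [enorm_mul, ENNReal.mul_rpow_of_nonneg _ _ (by norm_num)]
    have h3 : ‖((Real.sin θ ^ j : ℝ) : ℂ)‖ₑ ^ (2:ℝ) = ENNReal.ofReal (Real.sin θ ^ (2 * j)) := by
      rw [← ofReal_norm, Complex.norm_real, Real.norm_eq_abs, abs_of_pos (by positivity),
        ENNReal.rpow_two, ← ENNReal.ofReal_pow (by positivity), ← pow_mul, mul_comm j 2]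
    rw [h3, mul_comm (‖ang j G θ y‖ₑ ^ (2:ℝ)), ← mul_assoc, ← ENNReal.ofReal_mul hs.le]
    congr 2
    ring
  -- integrate in `y`
  have hswapm : AEMeasurable (Function.uncurry fun (y : E (j + 2)) (θ : ℝ) =>
      ENNReal.ofReal (Real.sin θ ^ (2 * j + 1)) * ‖ang j G θ y‖ₑ ^ (2:ℝ))
      (((volume : Measure (E (j + 2))).restrict (Metric.ball 0 (2 * r))).prod
        ((volume : Measure ℝ).restrict (Ioo 0 π))) := by
    apply Measurable.aemeasurable
    apply Measurable.mul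
    · show Measurable (fun p : E (j + 2) × ℝ => ENNReal.ofReal (Real.sin p.2 ^ (2 * j + 1)))
      fun_prop
    · exact ((hangm.comp measurable_swap).enorm).pow_const _
  calc ∫⁻ y in Metric.ball (0 : E (j + 2)) (2 * r), ∫⁻ z : ℝ, ‖cyl j G y z‖ₑ ^ (2:ℝ)
      ≤ ∫⁻ y in Metric.ball (0 : E (j + 2)) (2 * r), ∫⁻ θ in Ioo 0 π,
          ENNReal.ofReal (Real.sin θ ^ (2 * j + 1)) * ‖ang j G θ y‖ₑ ^ (2:ℝ) :=
        lintegral_mono fun y => hbes y
    _ = ∫⁻ θ in Ioo 0 π, ∫⁻ y in Metric.ball (0 : E (j + 2)) (2 * r),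
          ENNReal.ofReal (Real.sin θ ^ (2 * j + 1)) * ‖ang j G θ y‖ₑ ^ (2:ℝ) :=
        lintegral_lintegral_swap hswapm
    _ ≤ ∫⁻ θ in Ioo 0 π, ENNReal.ofReal (Real.exp (4 * π) * (2 * C)) * ENNReal.ofReal r *
          (ENNReal.ofReal (Real.sin θ ^ j) *
            ∫⁻ ω : S (j + 2), ‖G θ ω‖ₑ ^ (2:ℝ) ∂(sm (j + 2))) := by
        apply setLIntegral_mono' measurableSet_Ioo
        intro θ hθ
        have hs := Real.sin_pos_of_mem_Ioo hθ
        rw [lintegral_const_mul' _ _ ENNReal.ofReal_ne_top]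
        have hGm : Measurable (fun ω : S (j + 2) => G θ ω) :=
          hG.comp (measurable_const.prodMk measurable_subtype_coe)
        have h4 := sphere_bound j C hC hg (fun ω => G θ ω) hGm 2 (fun ω => hb θ ω)
          (Real.sin θ) r hs hr
        refine (mul_le_mul_right h4 _).trans ?_
        rw [← mul_assoc, ← mul_assoc, ← ENNReal.ofReal_mul (by positivity),
          ← ENNReal.ofReal_mul (by positivity), ← ENNReal.ofReal_mul (by positivity)]
        apply mul_le_mul_left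
        apply ENNReal.ofReal_le_ofReal
        have h5 : Real.sin θ ^ (2 * j + 1) * (Real.exp (4 * π) *
            (2 * C * r ^ (j + 2) / (Real.sin θ * r) ^ (j + 1))) =
            (Real.exp (4 * π) * (2 * C) * r) * Real.sin θ ^ j := by
          field_simp
          ring
        rw [h5]
    _ = _ := lintegral_const_mul' _ _ (ENNReal.mul_ne_top ENNReal.ofReal_ne_top
        ENNReal.ofReal_ne_top)

theorem cyl_L2 (j : ℕ) : ∃ C : ℝ≥0∞, C ≠ ∞ ∧ ∀ r : ℝ, 0 < r → ∀ G : ℝ → E (j + 2) → ℂ,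
    Measurable (Function.uncurry G) → (∀ θ x, ‖G θ x‖ ≤ 2) →
    ∫⁻ y in Metric.ball (0 : E (j + 2)) (2 * r), ∫⁻ z : ℝ, ‖cyl j G y z‖ₑ ^ (2:ℝ)
      ≤ C * ENNReal.ofReal r *
        ∫⁻ θ in Ioo 0 π, (∫⁻ ω : S (j + 2), ‖G θ ω‖ₑ ^ (2:ℝ) ∂(sm (j + 2))) := by
  obtain ⟨C, hC, H⟩ := cyl_L2w j
  refine ⟨C, hC, fun r hr G hG hb => (H r hr G hG hb).trans ?_⟩
  refine mul_le_mul' le_rfl (setLIntegral_mono' measurableSet_Ioo fun θ hθ => ?_)
  have h1 : ENNReal.ofReal (Real.sin θ ^ j) ≤ 1 := by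
    rw [ENNReal.ofReal_le_one]
    exact pow_le_one₀ (Real.sin_pos_of_mem_Ioo hθ).le (Real.sin_le_one θ)
  calc _ ≤ 1 * ∫⁻ ω : S (j + 2), ‖G θ ω‖ₑ ^ (2:ℝ) ∂(sm (j + 2)) := mul_le_mul' h1 le_rfl
    _ = _ := one_mul _

end Pool.Agent.MP_6cbfb8_an
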