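import Pool.Agent.MST.ED8

/-!
Stein's restriction conjecture for the sphere of `R^n`, `n ≥ 3`, for every bounded measurable
density in two variables: the exceptional set of dilations at the exponent `p` has Hausdorff
dimension at most `2 / (p - 2) - (n - 2)`, which is `< 1` for `p > 2n/(n-1)`.
-/

namespace Pool.Agent.MP_6cbfb8_an.ExceptionalDilationsVariant

open MeasureTheory Set Pool.Agent.MP_6cbfb8_an
open scoped ENNReal Real

/-- Let `G : R^2 → ℂ` be bounded and measurable, `n = 2 + l ≥ 3` and `p > 2`. The set of all
`r > 0` such that for some finite family of half spaces the Fourier transform of the measure with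
density `G (r x_1, r x_2)`, restricted to the intersection of the half spaces, with respect to
surface measure on the unit sphere of `R^n`, does not belong to `L^p`, has Hausdorff dimension at
most `2 / (p - 2) - l` (and dimension `0` if this is negative). -/
theorem result (G : E 2 → ℂ) (hG : Measurable G) (hb : ∃ B : ℝ, ∀ w, ‖G w‖ ≤ B) (l : ℕ)
    (hl : 1 ≤ l) (p : ℝ) (hp : 2 < p) :
    dimH {r : ℝ | 0 < r ∧ ∃ (N : ℕ) (v : Fin N → E (2 + l)) (c : Fin N → ℝ),
      ∫⁻ ξ, ‖extn (fun x : E (2 + l) => G (r • fstE x) * ∏ i, hsn (c i) (v i) x) ξ‖ₑ ^ p = ∞} ≤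
      ENNReal.ofReal (2 / (p - 2) - l) :=
  Pool.Agent.MST.exceptional G hG hb l hl p hp

end Pool.Agent.MP_6cbfb8_an.ExceptionalDilationsVariant
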