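import Pool.Agent.MP_6cbfb8_an.Planar
import Pool.Agent.MP_6cbfb8_an.LonDefs

/-!
The planar `L^q` bound with the `L^4` norm of the density on the right hand side.
-/

namespace Pool.Agent.MP_6cbfb8_an

open MeasureTheory Set
open scoped ENNReal Real RealInnerProductSpace

theorem lonA_slice {x ε : ℝ} (hε : 0 ≤ ε) :
    volume (Prod.mk x ⁻¹' Near ε) ≤ ENNReal.ofReal (2 * π * ε) := by
  have hpi := Real.pi_pos
  set T : Set ℝ := Icc (-(π * ε / 2)) (π * ε / 2) ∪ (Icc (π - π * ε / 2) π ∪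
      Icc (-π) (-π + π * ε / 2)) with hT
  have hvT : volume T ≤ ENNReal.ofReal (2 * π * ε) := by
    calc volume T ≤ volume (Icc (-(π * ε / 2)) (π * ε / 2)) + (volume (Icc (π - π * ε / 2) π) +
        volume (Icc (-π) (-π + π * ε / 2))) :=
          (measure_union_le _ _).trans (add_le_add le_rfl (measure_union_le _ _))
      _ = ENNReal.ofReal (2 * π * ε) := by
          rw [Real.volume_Icc, Real.volume_Icc, Real.volume_Icc,
            ← ENNReal.ofReal_add (by nlinarith [mul_nonneg hpi.le hε])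
              (by nlinarith [mul_nonneg hpi.le hε]),
            ← ENNReal.ofReal_add (by nlinarith [mul_nonneg hpi.le hε])
              (by nlinarith [mul_nonneg hpi.le hε])]
          congr 1
          ring
  have hsub : Prod.mk x ⁻¹' Near ε ⊆ (fun y => y + -x) ⁻¹' T := by
    intro y hy
    obtain ⟨⟨hy1, hy2⟩, hy3⟩ := hy
    simp only at hy1 hy2 hy3
    have : y - x ∈ T := near_mem (by linarith [hy1.2, hy2.1]) (by linarith [hy1.1, hy2.2]) hy3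
    simpa [sub_eq_add_neg] using this
  refine (measure_mono hsub).trans ?_
  rw [measure_preimage_add_right]
  exact hvT

theorem lonA_fst (k : ℕ) (g : ℝ → ℝ≥0∞) (hg : Measurable g) :
    ∫⁻ q in Om k, g q.1 ≤ ENNReal.ofReal (2 * π * (1 / 2) ^ k) * ∫⁻ θ in Ioo 0 π, g θ := by
  have hmO := measurableSet_Om k
  have hmi : Measurable ((Om k).indicator (fun q : ℝ × ℝ => g q.1)) :=
    (hg.comp measurable_fst).indicator hmO
  rw [← lintegral_indicator hmO, Measure.volume_eq_prod, lintegral_prod _ hmi.aemeasurable]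
  have hsl : ∀ x : ℝ, ∫⁻ y : ℝ, (Om k).indicator (fun q : ℝ × ℝ => g q.1) (x, y) =
      g x * volume (Prod.mk x ⁻¹' Om k) := by
    intro x
    have h1 : (fun y : ℝ => (Om k).indicator (fun q : ℝ × ℝ => g q.1) (x, y)) =
        (Prod.mk x ⁻¹' Om k).indicator (fun _ => g x) := by
      funext y
      by_cases hy : (x, y) ∈ Om k
      · rw [indicator_of_mem hy, indicator_of_mem (show y ∈ Prod.mk x ⁻¹' Om k from hy)]
      · rw [indicator_of_notMem hy, indicator_of_notMem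
          (show y ∉ Prod.mk x ⁻¹' Om k from hy)]
    rw [h1, lintegral_indicator (measurable_prodMk_left hmO), setLIntegral_const]
  simp_rw [hsl]
  rw [← lintegral_const_mul' _ _ ENNReal.ofReal_ne_top, ← lintegral_indicator measurableSet_Ioo]
  refine lintegral_mono fun x => ?_
  by_cases hx : x ∈ Ioo 0 π
  · rw [indicator_of_mem hx, mul_comm]
    gcongr
    refine le_trans (measure_mono ?_) (lonA_slice (x := x) (by positivity))
    intro y hy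
    exact ⟨hy.1, hy.2.2⟩
  · rw [indicator_of_notMem hx]
    have : Prod.mk x ⁻¹' Om k = ∅ := by
      ext y
      simp only [mem_preimage, mem_empty_iff_false, iff_false]
      intro hy
      exact hx hy.1.1
    rw [this]
    simp

theorem lonA_Om_swap (k : ℕ) (q : ℝ × ℝ) : q.swap ∈ Om k ↔ q ∈ Om k := by
  have hs : |Real.sin (q.1 - q.2)| = |Real.sin (q.2 - q.1)| := by
    rw [← neg_sub, Real.sin_neg, abs_neg]
  have hD : q.swap ∈ Dsq ↔ q ∈ Dsq := by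
    unfold Dsq
    rw [mem_prod, mem_prod]
    exact and_comm
  unfold Om
  rw [Set.mem_ofPred_eq, Set.mem_ofPred_eq, hD, Prod.snd_swap, Prod.fst_swap, hs]

theorem lonA_snd (k : ℕ) (g : ℝ → ℝ≥0∞) (hg : Measurable g) :
    ∫⁻ q in Om k, g q.2 ≤ ENNReal.ofReal (2 * π * (1 / 2) ^ k) * ∫⁻ θ in Ioo 0 π, g θ := by
  have h1 : ∫⁻ q in Om k, g q.2 = ∫⁻ q in Om k, g q.1 := by
    rw [← lintegral_indicator (measurableSet_Om k), ← lintegral_indicator (measurableSet_Om k)]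
    have hm : Measurable ((Om k).indicator (fun q : ℝ × ℝ => g q.1)) :=
      (hg.comp measurable_fst).indicator (measurableSet_Om k)
    have h2 := (Measure.measurePreserving_swap (μ := (volume : Measure ℝ))
      (ν := (volume : Measure ℝ))).lintegral_comp hm
    rw [Measure.volume_eq_prod, ← h2]
    refine lintegral_congr fun q => ?_
    by_cases hq : q ∈ Om k
    · rw [indicator_of_mem hq, indicator_of_mem ((lonA_Om_swap k q).2 hq), Prod.fst_swap]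
    · rw [indicator_of_notMem hq, indicator_of_notMem (fun h => hq ((lonA_Om_swap k q).1 h))]
  rw [h1]
  exact lonA_fst k g hg

theorem lonA_sq_le (a b : ℝ≥0∞) : (a * b) ^ (2:ℝ) ≤ a ^ (4:ℝ) + b ^ (4:ℝ) := by
  have key : ∀ c d : ℝ≥0∞, c ≤ d → (c * d) ^ (2:ℝ) ≤ d ^ (4:ℝ) := by
    intro c d h
    calc (c * d) ^ (2:ℝ) ≤ (d * d) ^ (2:ℝ) := by gcongr
      _ = d ^ (4:ℝ) := by
          rw [ENNReal.mul_rpow_of_nonneg _ _ (by norm_num),
            ← ENNReal.rpow_add_of_nonneg _ _ (by norm_num) (by norm_num)]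
          norm_num
  rcases le_total a b with h | h
  · exact (key a b h).trans le_add_self
  · rw [mul_comm]
    exact (key b a h).trans le_self_add

theorem lonA_Gk_L2 {f : ℝ → ℂ} (hf : Measurable f) (hb : ∀ θ, ‖f θ‖ ≤ 1) (k : ℕ) :
    ∫⁻ ξ, ‖Gk f (Om k) ξ‖ₑ ^ (2:ℝ) ≤
      2 ^ (k + 2) * (ENNReal.ofReal (4 * π * (1 / 2) ^ k) *
        ∫⁻ θ in Ioo 0 π, ‖f θ‖ₑ ^ (4:ℝ)) := by
  have hB := bessel ((volume : Measure (ℝ × ℝ)).restrict (Om k)) Smc measurable_Smc (2 ^ (k + 2))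
    (by simp) (fun φ hφ => Om_push k φ hφ) (fun q => f q.1 * f q.2)
    (integrableOn_pair hf hb fun q hq => hq.1)
  refine hB.trans ?_
  gcongr
  have hm : Measurable (fun θ => ‖f θ‖ₑ ^ (4:ℝ)) := hf.enorm.pow_const _
  have hconst : ENNReal.ofReal (4 * π * (1 / 2) ^ k) =
      ENNReal.ofReal (2 * π * (1 / 2) ^ k) + ENNReal.ofReal (2 * π * (1 / 2) ^ k) := by
    rw [← ENNReal.ofReal_add (by positivity) (by positivity)]
    congr 1
    ring
  calc ∫⁻ q in Om k, ‖f q.1 * f q.2‖ₑ ^ (2:ℝ)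
      ≤ ∫⁻ q in Om k, (‖f q.1‖ₑ ^ (4:ℝ) + ‖f q.2‖ₑ ^ (4:ℝ)) := by
        refine lintegral_mono fun q => ?_
        rw [enorm_mul]
        exact lonA_sq_le _ _
    _ = (∫⁻ q in Om k, ‖f q.1‖ₑ ^ (4:ℝ)) + ∫⁻ q in Om k, ‖f q.2‖ₑ ^ (4:ℝ) :=
        lintegral_add_left (hm.comp measurable_fst) _
    _ ≤ ENNReal.ofReal (2 * π * (1 / 2) ^ k) * (∫⁻ θ in Ioo 0 π, ‖f θ‖ₑ ^ (4:ℝ)) +
        ENNReal.ofReal (2 * π * (1 / 2) ^ k) * ∫⁻ θ in Ioo 0 π, ‖f θ‖ₑ ^ (4:ℝ) :=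
        add_le_add (lonA_fst k _ hm) (lonA_snd k _ hm)
    _ = _ := by rw [hconst, add_mul]

theorem lonA_Gk_Lt {f : ℝ → ℂ} (hf : Measurable f) (hb : ∀ θ, ‖f θ‖ ≤ 1) (k : ℕ) {t : ℝ}
    (ht : 2 < t) :
    ∫⁻ ξ, ‖Gk f (Om k) ξ‖ₑ ^ t ≤ (ENNReal.ofReal (2 * π ^ 2 * (1 / 2) ^ k) ^ (t - 2) *
      (2 ^ (k + 2) * ENNReal.ofReal (4 * π * (1 / 2) ^ k))) *
        ∫⁻ θ in Ioo 0 π, ‖f θ‖ₑ ^ (4:ℝ) := by
  calc ∫⁻ ξ, ‖Gk f (Om k) ξ‖ₑ ^ t
      ≤ ∫⁻ ξ, ENNReal.ofReal (2 * π ^ 2 * (1 / 2) ^ k) ^ (t - 2) *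
          ‖Gk f (Om k) ξ‖ₑ ^ (2:ℝ) := by
        refine lintegral_mono fun ξ => ?_
        have : ‖Gk f (Om k) ξ‖ₑ ^ t = ‖Gk f (Om k) ξ‖ₑ ^ (t - 2) *
            ‖Gk f (Om k) ξ‖ₑ ^ (2:ℝ) := by
          rw [← ENNReal.rpow_add_of_nonneg _ _ (by linarith) (by norm_num)]
          congr 1
          ring
        rw [this]
        gcongr
        exact Gk_sup hb k ξ
    _ = ENNReal.ofReal (2 * π ^ 2 * (1 / 2) ^ k) ^ (t - 2) *
          ∫⁻ ξ, ‖Gk f (Om k) ξ‖ₑ ^ (2:ℝ) := by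
        rw [lintegral_const_mul' _ _ (ENNReal.rpow_ne_top_of_nonneg (by linarith)
          ENNReal.ofReal_ne_top)]
    _ ≤ ENNReal.ofReal (2 * π ^ 2 * (1 / 2) ^ k) ^ (t - 2) *
          (2 ^ (k + 2) * (ENNReal.ofReal (4 * π * (1 / 2) ^ k) *
        ∫⁻ θ in Ioo 0 π, ‖f θ‖ₑ ^ (4:ℝ))) := by
        gcongr
        exact lonA_Gk_L2 hf hb k
    _ = _ := by ring

theorem planar_Lq4 (q : ℝ) (hq : 4 < q) : ∃ C : ℝ≥0∞, C ≠ ∞ ∧ ∀ f : ℝ → ℂ, Measurable f →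
    (∀ θ, ‖f θ‖ ≤ 1) → ∫⁻ v : ℝ, ∫⁻ z : ℝ, ‖P f v z‖ₑ ^ q ≤ C * ∫⁻ θ in Ioo 0 π, ‖f θ‖ₑ ^ (4:ℝ) := by
  obtain ⟨t, ht⟩ : ∃ t : ℝ, t = q / 2 := ⟨_, rfl⟩
  have ht2 : 2 < t := by rw [ht]; linarith
  have ht0 : 0 < t := by linarith
  set ρ : ℝ := (1 / 2) ^ ((t - 2) / (2 * t)) with hρ
  set σ : ℝ := (1 / 2) ^ ((t - 2) / 2) with hσ
  have hρ0 : 0 < ρ := by positivity
  have hρ1 : ρ < 1 := Real.rpow_lt_one (by norm_num) (by norm_num)
    (div_pos (by linarith) (by linarith))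
  have hσ0 : 0 < σ := by positivity
  have hσ1 : σ < 1 := Real.rpow_lt_one (by norm_num) (by norm_num) (by linarith)
  have hρσ : ρ ^ t = σ := by
    rw [hρ, hσ, ← Real.rpow_mul (by norm_num)]
    congr 1
    field_simp
  have hσσ : ((1:ℝ) / 2) ^ (t - 2) = σ * σ := by
    rw [hσ, ← Real.rpow_add (by norm_num)]
    congr 1
    ring
  set w : ℕ → ℝ≥0∞ := fun k => ENNReal.ofReal (ρ ^ k) with hw
  have hw0 : ∀ k, w k ≠ 0 := fun k => by
    have : 0 < ρ ^ k := by positivity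
    simpa [hw] using this
  have hwt : ∀ k, w k ≠ ∞ := fun k => ENNReal.ofReal_ne_top
  have hW : ∑' k, w k ≠ ∞ := by
    rw [hw, ← ENNReal.ofReal_tsum_of_nonneg (fun k => by positivity)
      (summable_geometric_of_lt_one hρ0.le hρ1)]
    exact ENNReal.ofReal_ne_top
  set C0 : ℝ := (2 * π ^ 2) ^ (t - 2) * (4 * π * 4) with hC0
  have hterm : ∀ k : ℕ, (ENNReal.ofReal (2 * π ^ 2 * (1 / 2) ^ k) ^ (t - 2) *
      (2 ^ (k + 2) * ENNReal.ofReal (4 * π * (1 / 2) ^ k))) / w k ^ t =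
      ENNReal.ofReal (C0 * σ ^ k) := by
    intro k
    have e1 : (2 : ℝ≥0∞) ^ (k + 2) = ENNReal.ofReal (2 ^ (k + 2)) := by
      rw [ENNReal.ofReal_pow (by norm_num)]
      norm_num
    rw [e1, ENNReal.ofReal_rpow_of_nonneg (by positivity) (by linarith),
      ← ENNReal.ofReal_mul (by positivity), ← ENNReal.ofReal_mul (by positivity), hw]
    simp only
    rw [ENNReal.ofReal_rpow_of_nonneg (by positivity) ht0.le,
      ← ENNReal.ofReal_div_of_pos (by positivity)]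
    congr 1
    have e2 : (ρ ^ k) ^ t = σ ^ k := by
      rw [← Real.rpow_natCast, ← Real.rpow_mul hρ0.le, mul_comm, Real.rpow_mul hρ0.le, hρσ,
        Real.rpow_natCast]
    have e3 : (((1:ℝ) / 2) ^ k) ^ (t - 2) = σ ^ k * σ ^ k := by
      rw [← mul_pow, ← hσσ, ← Real.rpow_natCast, ← Real.rpow_mul (by norm_num), mul_comm,
        Real.rpow_mul (by norm_num), Real.rpow_natCast]
    have e4 : (2:ℝ) ^ (k + 2) * (1 / 2) ^ k = 4 := by
      rw [pow_add, one_div, inv_pow]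
      field_simp
      norm_num
    rw [Real.mul_rpow (by positivity) (by positivity), e2, e3, div_eq_iff (by positivity), hC0]
    calc (2 * π ^ 2) ^ (t - 2) * (σ ^ k * σ ^ k) * (2 ^ (k + 2) * (4 * π * (1 / 2) ^ k))
        = (2 * π ^ 2) ^ (t - 2) * (4 * π) * (2 ^ (k + 2) * (1 / 2) ^ k) *
          (σ ^ k * σ ^ k) := by ring
      _ = _ := by rw [e4]; ring
  have hC : ∑' k : ℕ, (ENNReal.ofReal (2 * π ^ 2 * (1 / 2) ^ k) ^ (t - 2) *
      (2 ^ (k + 2) * ENNReal.ofReal (4 * π * (1 / 2) ^ k))) / w k ^ t ≠ ∞ := by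
    simp_rw [hterm]
    rw [← ENNReal.ofReal_tsum_of_nonneg (fun k => by positivity)
      ((summable_geometric_of_lt_one hσ0.le hσ1).mul_left C0)]
    exact ENNReal.ofReal_ne_top
  refine ⟨(∑' k, w k) ^ t * ∑' k : ℕ, (ENNReal.ofReal (2 * π ^ 2 * (1 / 2) ^ k) ^ (t - 2) *
      (2 ^ (k + 2) * ENNReal.ofReal (4 * π * (1 / 2) ^ k))) / w k ^ t,
    ENNReal.mul_ne_top (ENNReal.rpow_ne_top_of_nonneg ht0.le hW) hC, ?_⟩
  intro f hf hb
  have hpt : ∀ v z, ‖P f v z‖ₑ ^ q = ‖Gk f Dsq ⟨v, z⟩‖ₑ ^ t := by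
    intro v z
    rw [← sq_eq, enorm_pow, ← ENNReal.rpow_natCast, ← ENNReal.rpow_mul]
    congr 1
    rw [ht]
    push_cast
    ring
  have hmG : ∀ s, Measurable (fun ξ => ‖Gk f s ξ‖ₑ ^ t) := fun s =>
    (measurable_Gk hf s).measurable.enorm.pow_const _
  have hmk : Measurable (fun p : ℝ × ℝ => (⟨p.1, p.2⟩ : ℂ)) :=
    Complex.measurableEquivRealProd.symm.measurable
  calc ∫⁻ v : ℝ, ∫⁻ z : ℝ, ‖P f v z‖ₑ ^ q
      = ∫⁻ v : ℝ, ∫⁻ z : ℝ, ‖Gk f Dsq ⟨v, z⟩‖ₑ ^ t := by simp_rw [hpt]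
    _ = ∫⁻ p : ℝ × ℝ, ‖Gk f Dsq ⟨p.1, p.2⟩‖ₑ ^ t := by
        rw [Measure.volume_eq_prod,
          lintegral_prod (fun p : ℝ × ℝ => ‖Gk f Dsq ⟨p.1, p.2⟩‖ₑ ^ t)
            ((hmG Dsq).comp hmk).aemeasurable]
    _ = ∫⁻ ξ : ℂ, ‖Gk f Dsq ξ‖ₑ ^ t := (lintegral_complex _ (hmG Dsq)).symm
    _ ≤ ∫⁻ ξ : ℂ, (∑' k, w k) ^ t * ∑' k, ‖Gk f (Om k) ξ‖ₑ ^ t / w k ^ t := by
        refine lintegral_mono fun ξ => ?_
        calc ‖Gk f Dsq ξ‖ₑ ^ t ≤ (∑' k, ‖Gk f (Om k) ξ‖ₑ) ^ t := by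
              gcongr
              exact Gk_sum hf hb ξ
          _ ≤ _ := tsum_rpow_le _ w hw0 hwt ht0
    _ = (∑' k, w k) ^ t * ∑' k, (∫⁻ ξ : ℂ, ‖Gk f (Om k) ξ‖ₑ ^ t) / w k ^ t := by
        rw [lintegral_const_mul' _ _ (ENNReal.rpow_ne_top_of_nonneg ht0.le hW),
          lintegral_tsum fun k => ((hmG (Om k)).div_const _).aemeasurable]
        congr 1
        refine tsum_congr fun k => ?_
        simp_rw [div_eq_mul_inv]
        rw [lintegral_mul_const _ (hmG (Om k))]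
    _ ≤ (∑' k, w k) ^ t * ∑' k : ℕ, ((ENNReal.ofReal (2 * π ^ 2 * (1 / 2) ^ k) ^ (t - 2) *
          (2 ^ (k + 2) * ENNReal.ofReal (4 * π * (1 / 2) ^ k))) *
          ∫⁻ θ in Ioo 0 π, ‖f θ‖ₑ ^ (4:ℝ)) / w k ^ t := by
        gcongr with k
        exact lonA_Gk_Lt hf hb k ht2
    _ = _ := by
        rw [mul_assoc, ← ENNReal.tsum_mul_right]
        congr 1
        refine tsum_congr fun k => ?_
        simp only [div_eq_mul_inv]
        ring

end Pool.Agent.MP_6cbfb8_an
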