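import Pool.Agent.MP_6cbfb8_an.LonA
import Pool.Agent.MP_6cbfb8_an.LonDefs

/-!
The `L^4 → L^q` bound for the extension operator of the unit circle, in polar coordinates.
-/

namespace Pool.Agent.MP_6cbfb8_an

open MeasureTheory Set
open scoped ENNReal Real RealInnerProductSpace

theorem lonB_measurable_P (f : ℝ → ℂ) (hf : Measurable f) :
    Measurable (fun q : ℝ × ℝ => P f q.1 q.2) := by
  have h : Measurable (fun x : (ℝ × ℝ) × ℝ => f x.2 *
      Complex.exp (((-(2 * π * (x.1.1 * Real.sin x.2 + x.1.2 * Real.cos x.2)) : ℝ) : ℂ)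
        * Complex.I)) := by
    refine (hf.comp measurable_snd).mul ?_
    exact (by fun_prop : Continuous (fun x : (ℝ × ℝ) × ℝ =>
      Complex.exp (((-(2 * π * (x.1.1 * Real.sin x.2 + x.1.2 * Real.cos x.2)) : ℝ) : ℂ)
        * Complex.I))).measurable
  exact (StronglyMeasurable.integral_prod_right' (ν := volume.restrict (Ioo 0 π))
    h.stronglyMeasurable).measurable

theorem lonB_intervalIntegrable (f : ℝ → ℂ) (hf : Measurable f) (hb : ∀ θ, ‖f θ‖ ≤ 1)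
    (a τ x y : ℝ) : IntervalIntegrable (fun θ => f θ *
      Complex.exp (((-(2 * π * (a * Real.cos (θ - τ))) : ℝ) : ℂ) * Complex.I))
      volume x y := by
  have hm : Measurable (fun θ => f θ *
      Complex.exp (((-(2 * π * (a * Real.cos (θ - τ))) : ℝ) : ℂ) * Complex.I)) := by
    refine hf.mul ?_
    exact (by fun_prop : Continuous (fun θ : ℝ =>
      Complex.exp (((-(2 * π * (a * Real.cos (θ - τ))) : ℝ) : ℂ) * Complex.I))).measurable
  refine (intervalIntegrable_const (c := (1:ℝ))).mono_fun hm.aestronglyMeasurable ?_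
  refine Filter.Eventually.of_forall fun θ => ?_
  beta_reduce
  rw [norm_mul, Complex.norm_exp_ofReal_mul_I, mul_one, norm_one]
  exact hb θ

theorem lonB_Q_eq (f : ℝ → ℂ) (hf : Measurable f) (hb : ∀ θ, ‖f θ‖ ≤ 1) (a τ : ℝ) :
    Q f a τ = P f (a * Real.sin τ) (a * Real.cos τ) +
      P (fun θ => f (-θ)) (-(a * Real.sin τ)) (a * Real.cos τ) := by
  have hπ : (0:ℝ) ≤ π := Real.pi_pos.le
  have h1 : Q f a τ = ∫ θ in (-π)..π, f θ *
      Complex.exp (((-(2 * π * (a * Real.cos (θ - τ))) : ℝ) : ℂ) * Complex.I) := by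
    rw [intervalIntegral.integral_of_le (by linarith), integral_Ioc_eq_integral_Ioo]
    rfl
  have h2 : P f (a * Real.sin τ) (a * Real.cos τ) = ∫ θ in (0:ℝ)..π, f θ *
      Complex.exp (((-(2 * π * (a * Real.cos (θ - τ))) : ℝ) : ℂ) * Complex.I) := by
    rw [intervalIntegral.integral_of_le hπ, integral_Ioc_eq_integral_Ioo]
    unfold P
    congr 1
    funext θ
    rw [Real.cos_sub]
    congr 3
    push_cast
    ring
  have h3 : P (fun θ => f (-θ)) (-(a * Real.sin τ)) (a * Real.cos τ) =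
      ∫ θ in (-π)..(0:ℝ), f θ *
      Complex.exp (((-(2 * π * (a * Real.cos (θ - τ))) : ℝ) : ℂ) * Complex.I) := by
    have h4 := intervalIntegral.integral_comp_neg (a := 0) (b := π) (fun θ => f θ *
      Complex.exp (((-(2 * π * (a * Real.cos (θ - τ))) : ℝ) : ℂ) * Complex.I))
    rw [neg_zero] at h4
    rw [← h4, intervalIntegral.integral_of_le hπ, integral_Ioc_eq_integral_Ioo]
    unfold P
    congr 1
    funext θ
    rw [Real.cos_sub, Real.cos_neg, Real.sin_neg]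
    congr 3
    push_cast
    ring
  rw [h1, h2, h3, add_comm]
  exact (intervalIntegral.integral_add_adjacent_intervals
    (lonB_intervalIntegrable f hf hb a τ _ _) (lonB_intervalIntegrable f hf hb a τ _ _)).symm

/-- polar coordinates, with the first cartesian coordinate `a sin τ`. -/
theorem lonB_polar (F : ℝ → ℝ → ℝ≥0∞) (hF : Measurable (fun q : ℝ × ℝ => F q.1 q.2)) :
    ∫⁻ a in Ioi (0:ℝ), ∫⁻ τ in Ioo (-π) π, ENNReal.ofReal a *
      F (a * Real.sin τ) (a * Real.cos τ) = ∫⁻ v : ℝ, ∫⁻ z : ℝ, F v z := by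
  have h1 := lintegral_comp_polarCoord_symm (fun p => F p.2 p.1)
  have h2 : ∫⁻ p : ℝ × ℝ, F p.2 p.1 = ∫⁻ v : ℝ, ∫⁻ z : ℝ, F v z := by
    rw [Measure.volume_eq_prod, lintegral_prod_symm]
    exact (hF.comp measurable_swap).aemeasurable
  rw [← h2, ← h1, polarCoord_target, Measure.volume_eq_prod, ← Measure.prod_restrict,
    lintegral_prod]
  · simp only [polarCoord_symm_apply, smul_eq_mul]
  · refine Measurable.aemeasurable ?_
    refine (ENNReal.measurable_ofReal.comp measurable_fst).mul ?_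
    refine hF.comp (f := fun p : ℝ × ℝ => ((polarCoord.symm p).2, (polarCoord.symm p).1)) ?_
    simp only [polarCoord_symm_apply]
    fun_prop

theorem lonB_polar_neg (F : ℝ → ℝ → ℝ≥0∞) (hF : Measurable (fun q : ℝ × ℝ => F q.1 q.2)) :
    ∫⁻ a in Ioi (0:ℝ), ∫⁻ τ in Ioo (-π) π, ENNReal.ofReal a *
      F (-(a * Real.sin τ)) (a * Real.cos τ) = ∫⁻ v : ℝ, ∫⁻ z : ℝ, F v z := by
  have h := lonB_polar (fun v z => F (-v) z)
    (hF.comp (f := fun q : ℝ × ℝ => (-q.1, q.2)) (by fun_prop))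
  rw [h]
  exact lintegral_neg_eq_self (fun v : ℝ => ∫⁻ z : ℝ, F v z)

theorem circle_Lq4 (q : ℝ) (hq : 4 < q) : ∃ C : ℝ≥0∞, C ≠ ∞ ∧ ∀ f : ℝ → ℂ, Measurable f →
    (∀ θ, ‖f θ‖ ≤ 1) →
    ∫⁻ a in Ioi (0:ℝ), ∫⁻ τ in Ioo (-π) π, ENNReal.ofReal a * ‖Q f a τ‖ₑ ^ q ≤
      C * ∫⁻ θ in Ioo (-π) π, ‖f θ‖ₑ ^ (4:ℝ) := by
  obtain ⟨C, hC, h⟩ := planar_Lq4 q hq
  have hq0 : 0 ≤ q := by linarith
  refine ⟨2 ^ (q - 1) * C, ?_, fun f hf hb => ?_⟩
  · refine ENNReal.mul_ne_top ?_ hC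
    exact ENNReal.rpow_ne_top_of_nonneg (by linarith) (by norm_num)
  have hfn : Measurable (fun θ => f (-θ)) := hf.comp measurable_neg
  have hbn : ∀ θ, ‖f (-θ)‖ ≤ 1 := fun θ => hb (-θ)
  have hm1 : Measurable (fun v : ℝ × ℝ => ‖P f v.1 v.2‖ₑ ^ q) :=
    (lonB_measurable_P f hf).enorm.pow_const q
  have hm2 : Measurable (fun v : ℝ × ℝ => ‖P (fun θ => f (-θ)) (-v.1) v.2‖ₑ ^ q) :=
    ((lonB_measurable_P _ hfn).comp (f := fun v : ℝ × ℝ => (-v.1, v.2))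
      (by fun_prop)).enorm.pow_const q
  have hA := h f hf hb
  have hB := h (fun θ => f (-θ)) hfn hbn
  have hsplit : ∫⁻ θ in Ioo 0 π, ‖f (-θ)‖ₑ ^ (4:ℝ) = ∫⁻ θ in Ioo (-π) 0, ‖f θ‖ₑ ^ (4:ℝ) := by
    have hpre : (fun x : ℝ => -x) ⁻¹' (Ioo (-π) 0) = Ioo 0 π := by
      ext x
      simp only [mem_preimage, mem_Ioo]
      constructor
      · rintro ⟨h1, h2⟩
        exact ⟨by linarith, by linarith⟩
      · rintro ⟨h1, h2⟩
        exact ⟨by linarith, by linarith⟩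
    have h5 := (Measure.measurePreserving_neg (volume : Measure ℝ)).setLIntegral_comp_preimage_emb
      (MeasurableEquiv.neg ℝ).measurableEmbedding (fun θ => ‖f θ‖ₑ ^ (4:ℝ)) (Ioo (-π) 0)
    rw [← h5]
    congr 2
    exact hpre.symm
  have hm1z : ∀ v : ℝ, Measurable (fun z : ℝ => ‖P f v z‖ₑ ^ q) := fun v =>
    hm1.comp (f := fun z : ℝ => (v, z)) (by fun_prop)
  have hm1v : Measurable (fun v : ℝ => ∫⁻ z : ℝ, ‖P f v z‖ₑ ^ q) :=
    hm1.lintegral_prod_right'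
  have hneg : ∫⁻ v : ℝ, ∫⁻ z : ℝ, ‖P (fun θ => f (-θ)) (-v) z‖ₑ ^ q =
      ∫⁻ v : ℝ, ∫⁻ z : ℝ, ‖P (fun θ => f (-θ)) v z‖ₑ ^ q :=
    lintegral_neg_eq_self (fun v : ℝ => ∫⁻ z : ℝ, ‖P (fun θ => f (-θ)) v z‖ₑ ^ q)
  calc ∫⁻ a in Ioi (0:ℝ), ∫⁻ τ in Ioo (-π) π, ENNReal.ofReal a * ‖Q f a τ‖ₑ ^ q
      ≤ ∫⁻ a in Ioi (0:ℝ), ∫⁻ τ in Ioo (-π) π, ENNReal.ofReal a *
          (fun v z : ℝ => 2 ^ (q - 1) * (‖P f v z‖ₑ ^ q + ‖P (fun θ => f (-θ)) (-v) z‖ₑ ^ q))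
            (a * Real.sin τ) (a * Real.cos τ) := by
        refine lintegral_mono fun a => lintegral_mono fun τ => ?_
        refine mul_le_mul_right ?_ _
        rw [lonB_Q_eq f hf hb]
        refine (ENNReal.rpow_le_rpow (enorm_add_le _ _) hq0).trans ?_
        exact ENNReal.rpow_add_le_mul_rpow_add_rpow _ _ (by linarith)
    _ = ∫⁻ v : ℝ, ∫⁻ z : ℝ, 2 ^ (q - 1) *
          (‖P f v z‖ₑ ^ q + ‖P (fun θ => f (-θ)) (-v) z‖ₑ ^ q) :=
        lonB_polar (fun v z : ℝ => 2 ^ (q - 1) *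
          (‖P f v z‖ₑ ^ q + ‖P (fun θ => f (-θ)) (-v) z‖ₑ ^ q)) ((hm1.add hm2).const_mul _)
    _ = 2 ^ (q - 1) * ((∫⁻ v : ℝ, ∫⁻ z : ℝ, ‖P f v z‖ₑ ^ q) +
          (∫⁻ v : ℝ, ∫⁻ z : ℝ, ‖P (fun θ => f (-θ)) v z‖ₑ ^ q)) := by
        rw [← hneg, ← lintegral_add_left hm1v, ← lintegral_const_mul']
        · refine lintegral_congr fun v => ?_
          rw [← lintegral_add_left (hm1z v), ← lintegral_const_mul']
          exact ENNReal.rpow_ne_top_of_nonneg (by linarith) (by norm_num)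
        · exact ENNReal.rpow_ne_top_of_nonneg (by linarith) (by norm_num)
    _ ≤ 2 ^ (q - 1) * ((C * ∫⁻ θ in Ioo 0 π, ‖f θ‖ₑ ^ (4:ℝ)) +
          (C * ∫⁻ θ in Ioo 0 π, ‖f (-θ)‖ₑ ^ (4:ℝ))) := by
        refine mul_le_mul_right ?_ _
        exact add_le_add hA hB
    _ = 2 ^ (q - 1) * C * ((∫⁻ θ in Ioo (-π) 0, ‖f θ‖ₑ ^ (4:ℝ)) +
          (∫⁻ θ in Ioo 0 π, ‖f θ‖ₑ ^ (4:ℝ))) := by
        rw [hsplit]
        ring
    _ = 2 ^ (q - 1) * C * ∫⁻ θ in Ioo (-π) 0 ∪ Ioo 0 π, ‖f θ‖ₑ ^ (4:ℝ) := by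
        rw [lintegral_union measurableSet_Ioo]
        rw [Set.disjoint_left]
        intro x hx hx'
        exact lt_asymm hx.2 hx'.1
    _ ≤ 2 ^ (q - 1) * C * ∫⁻ θ in Ioo (-π) π, ‖f θ‖ₑ ^ (4:ℝ) := by
        refine mul_le_mul_right ?_ _
        refine lintegral_mono_set ?_
        have hπ := Real.pi_pos
        rintro x (hx | hx)
        · exact ⟨hx.1, by linarith [hx.2]⟩
        · exact ⟨by linarith [hx.1], hx.2⟩

end Pool.Agent.MP_6cbfb8_an
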