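import Pool.Agent.MP_6cbfb8_an.LonDefs
import Pool.Agent.MP_6cbfb8_an.LonB

/-!
The planar operator applied twice: the `L^p` bound, `p > 3`, with the weight of parabolic
coordinates.
-/

namespace Pool.Agent.MP_6cbfb8_an

open MeasureTheory Set
open scoped ENNReal Real RealInnerProductSpace


lemma lonD_norm_Q_le (f : ℝ → ℂ) (hb : ∀ θ, ‖f θ‖ ≤ 1) (a τ : ℝ) : ‖Q f a τ‖ ≤ 2 * π := by
  have h := norm_setIntegral_le_of_norm_le_const (μ := (volume : Measure ℝ)) (s := Ioo (-π) π)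
    (f := fun θ => f θ *
      Complex.exp (((-(2 * π * (a * Real.cos (θ - τ))) : ℝ) : ℂ) * Complex.I)) (C := 1)
    (by simp) (fun θ _ => by
      rw [norm_mul, Complex.norm_exp_ofReal_mul_I, mul_one]
      exact hb θ)
  refine h.trans (le_of_eq ?_)
  rw [Measure.real, Real.volume_Ioo, one_mul, ENNReal.toReal_ofReal (by linarith [Real.pi_pos])]
  ring

lemma lonD_measurable_Q (f : ℝ → ℂ) (hf : Measurable f) :
    Measurable fun x : ℝ × ℝ => Q f x.1 x.2 := by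
  unfold Q
  have h : Measurable fun x : (ℝ × ℝ) × ℝ => f x.2 *
      Complex.exp (((-(2 * π * (x.1.1 * Real.cos (x.2 - x.1.2))) : ℝ) : ℂ) * Complex.I) := by
    have h1 : Measurable fun x : (ℝ × ℝ) × ℝ => f x.2 := hf.comp measurable_snd
    refine h1.mul ?_
    fun_prop
  exact (h.stronglyMeasurable.integral_prod_right' (ν := volume.restrict (Ioo (-π) π))).measurable

lemma lonD_Q_smul (c : ℂ) (f : ℝ → ℂ) (a τ : ℝ) : Q (fun t => c * f t) a τ = c * Q f a τ := by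
  unfold Q
  rw [← integral_const_mul]
  refine integral_congr_ae (Filter.Eventually.of_forall fun θ => ?_)
  simp only
  ring

/-- Inner application of the planar estimate. -/
lemma lonD_step1 (q : ℝ) (hq : 4 < q) : ∃ C : ℝ≥0∞, C ≠ ∞ ∧
    ∀ H u : ℝ → ℂ, Measurable H → Measurable u → (∀ t, ‖H t‖ ≤ 1) → (∀ t, ‖u t‖ ≤ 1) → ∀ b : ℝ,
    ∫⁻ a in Ioi (0:ℝ), ∫⁻ τ in Ioo (-π) π, ENNReal.ofReal a *
      ‖Q (fun t => u t * Q H b t) a τ‖ₑ ^ q ≤
      C * (∫⁻ τ in Ioo (-π) π, ‖Q H b τ‖ₑ ^ q) ^ (4 / q) := by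
  obtain ⟨C, hC, h⟩ := circle_Lq4 q hq
  have hq0 : 0 < q := by linarith
  have hpi := Real.pi_pos
  refine ⟨(ENNReal.ofReal (2 * π)) ^ q * (C * ((ENNReal.ofReal (2 * π)⁻¹) ^ (4:ℝ) *
    (volume (Ioo (-π) π)) ^ (1 - 4 / q))), ?_, ?_⟩
  · refine ENNReal.mul_ne_top (ENNReal.rpow_ne_top_of_nonneg hq0.le ENNReal.ofReal_ne_top) ?_
    refine ENNReal.mul_ne_top hC (ENNReal.mul_ne_top
      (ENNReal.rpow_ne_top_of_nonneg (by norm_num) ENNReal.ofReal_ne_top) ?_)
    refine ENNReal.rpow_ne_top_of_nonneg ?_ (by simp)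
    rw [sub_nonneg, div_le_one hq0]; exact hq.le
  · intro H u hH hu hH1 hu1 b
    have hQm : Measurable fun t => Q H b t :=
      (lonD_measurable_Q H hH).comp (f := fun t : ℝ => (b, t)) (by fun_prop)
    set g : ℝ → ℂ := fun t => (((2 * π)⁻¹ : ℝ) : ℂ) * (u t * Q H b t) with hg
    have hgm : Measurable g := by
      rw [hg]
      exact (measurable_const.mul (hu.mul hQm))
    have hn : ∀ t, ‖u t * Q H b t‖ ≤ ‖Q H b t‖ := fun t => by
      rw [norm_mul]
      exact mul_le_of_le_one_left (norm_nonneg _) (hu1 t)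
    have hg1 : ∀ t, ‖g t‖ ≤ 1 := fun t => by
      rw [hg]
      simp only
      rw [norm_mul, Complex.norm_real, Real.norm_of_nonneg (by positivity)]
      calc (2 * π)⁻¹ * ‖u t * Q H b t‖ ≤ (2 * π)⁻¹ * (2 * π) := by
            gcongr
            exact (hn t).trans (lonD_norm_Q_le H hH1 b t)
        _ = 1 := by field_simp
    have h1 := h g hgm hg1
    have e1 : ∀ a τ, ‖Q (fun t => u t * Q H b t) a τ‖ₑ ^ q =
        (ENNReal.ofReal (2 * π)) ^ q * ‖Q g a τ‖ₑ ^ q := fun a τ => by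
      rw [hg, lonD_Q_smul, ← ENNReal.mul_rpow_of_nonneg _ _ hq0.le, enorm_mul, ← mul_assoc]
      congr 1
      have : ENNReal.ofReal (2 * π) * ‖(((2 * π)⁻¹ : ℝ) : ℂ)‖ₑ = 1 := by
        rw [← ofReal_norm, Complex.norm_real, Real.norm_of_nonneg (by positivity),
          ← ENNReal.ofReal_mul (by positivity), mul_inv_cancel₀ (by positivity),
          ENNReal.ofReal_one]
      rw [this, one_mul]
    have e2 : ∫⁻ a in Ioi (0:ℝ), ∫⁻ τ in Ioo (-π) π, ENNReal.ofReal a *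
        ‖Q (fun t => u t * Q H b t) a τ‖ₑ ^ q = (ENNReal.ofReal (2 * π)) ^ q *
        ∫⁻ a in Ioi (0:ℝ), ∫⁻ τ in Ioo (-π) π, ENNReal.ofReal a * ‖Q g a τ‖ₑ ^ q := by
      have hne : (ENNReal.ofReal (2 * π)) ^ q ≠ ∞ :=
        ENNReal.rpow_ne_top_of_nonneg hq0.le ENNReal.ofReal_ne_top
      rw [← lintegral_const_mul' _ _ hne]
      refine lintegral_congr fun a => ?_
      rw [← lintegral_const_mul' _ _ hne]
      refine lintegral_congr fun τ => ?_
      rw [e1]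
      ring
    have e3 : ∫⁻ θ in Ioo (-π) π, ‖g θ‖ₑ ^ (4:ℝ) ≤ (ENNReal.ofReal (2 * π)⁻¹) ^ (4:ℝ) *
        ∫⁻ θ in Ioo (-π) π, ‖Q H b θ‖ₑ ^ (4:ℝ) := by
      rw [← lintegral_const_mul' _ _ (ENNReal.rpow_ne_top_of_nonneg (by norm_num)
        ENNReal.ofReal_ne_top)]
      refine lintegral_mono fun θ => ?_
      simp only
      rw [← ENNReal.mul_rpow_of_nonneg _ _ (by norm_num)]
      refine ENNReal.rpow_le_rpow ?_ (by norm_num)
      rw [hg]
      simp only
      rw [enorm_mul, ← ofReal_norm (((2 * π)⁻¹ : ℝ) : ℂ), Complex.norm_real,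
        Real.norm_of_nonneg (by positivity)]
      refine mul_le_mul' le_rfl ?_
      rw [← ofReal_norm, ← ofReal_norm]
      exact ENNReal.ofReal_le_ofReal (hn θ)
    have e4 : ∫⁻ θ in Ioo (-π) π, ‖Q H b θ‖ₑ ^ (4:ℝ) ≤
        (∫⁻ τ in Ioo (-π) π, ‖Q H b τ‖ₑ ^ q) ^ (4 / q) * (volume (Ioo (-π) π)) ^ (1 - 4 / q) := by
      have hh := ENNReal.lintegral_mul_norm_pow_le (μ := (volume : Measure ℝ).restrict (Ioo (-π) π))
        (f := fun τ => ‖Q H b τ‖ₑ ^ q) (g := fun _ => 1) (hQm.enorm.pow_const q).aemeasurable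
        aemeasurable_const (p := 4 / q) (q := 1 - 4 / q) (by positivity)
        (by rw [sub_nonneg, div_le_one hq0]; exact hq.le) (by ring)
      rw [lintegral_one, Measure.restrict_apply_univ] at hh
      refine le_trans (le_of_eq ?_) hh
      refine lintegral_congr fun τ => ?_
      rw [ENNReal.one_rpow, mul_one, ← ENNReal.rpow_mul, mul_div_cancel₀ _ hq0.ne']
    rw [e2]
    calc _ ≤ (ENNReal.ofReal (2 * π)) ^ q * (C * ((ENNReal.ofReal (2 * π)⁻¹) ^ (4:ℝ) *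
          ((∫⁻ τ in Ioo (-π) π, ‖Q H b τ‖ₑ ^ q) ^ (4 / q) *
            (volume (Ioo (-π) π)) ^ (1 - 4 / q)))) := by
          refine mul_le_mul' le_rfl (h1.trans (mul_le_mul' le_rfl (e3.trans ?_)))
          exact mul_le_mul' le_rfl e4
      _ = _ := by ring

lemma lonD_weight {p a b : ℝ} (hp : 1 ≤ p) (hb : 0 < b) (ha : b < a) :
    (√(a * b) / (a + b)) ^ p * (a + b) ≤ b ^ (p / 2) * a ^ (1 - p / 2) := by
  have ha0 : 0 < a := hb.trans ha
  have hab : 0 < a + b := by linarith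
  rw [Real.div_rpow (Real.sqrt_nonneg _) hab.le, Real.sqrt_eq_rpow, ← Real.rpow_mul (by positivity),
    Real.mul_rpow ha0.le hb.le]
  have e1 : (1 / 2 * p) = p / 2 := by ring
  rw [e1]
  have e2 : a ^ (p / 2) * b ^ (p / 2) / (a + b) ^ p * (a + b) =
      b ^ (p / 2) * (a ^ (p / 2) * (a + b) ^ (1 - p)) := by
    rw [Real.rpow_sub hab, Real.rpow_one]
    ring
  rw [e2]
  have e3 : a ^ (1 - p / 2) = a ^ (p / 2) * a ^ (1 - p) := by
    rw [← Real.rpow_add ha0]; ring_nf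
  rw [e3]
  gcongr b ^ (p / 2) * (a ^ (p / 2) * ?_)
  exact Real.rpow_le_rpow_of_nonpos ha0 (by linarith) (by linarith)

lemma lonD_tail {e b : ℝ} (he : e < -1) (hb : 0 < b) :
    ∫⁻ a in Ioi b, ENNReal.ofReal (a ^ e) = ENNReal.ofReal (-b ^ (e + 1) / (e + 1)) := by
  rw [← integral_Ioi_rpow_of_lt he hb, ofReal_integral_eq_lintegral_ofReal]
  · exact integrableOn_Ioi_rpow_of_lt he hb
  · refine (ae_restrict_iff' measurableSet_Ioi).2 (Filter.Eventually.of_forall fun x hx => ?_)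
    exact Real.rpow_nonneg (hb.le.trans (le_of_lt hx)) _

/-- Hoelder in `(a, τ)`. -/
lemma lonD_step2 (p q : ℝ) (hp : 3 < p) (hp4 : p < 4) (hq : 4 < q) (hq5 : q < 5) :
    ∃ C : ℝ≥0∞, C ≠ ∞ ∧
    ∀ F : ℝ → ℝ → ℝ≥0∞, Measurable (Function.uncurry F) → ∀ b : ℝ, 0 < b →
    ∫⁻ a in Ioi b, ∫⁻ τ in Ioo (-π) π,
      ENNReal.ofReal ((√(a * b) / (a + b)) ^ p * (a + b)) * F a τ ^ p ≤
      C * ENNReal.ofReal (b ^ (2 - 2 * p / q)) *
        (∫⁻ a in Ioi (0:ℝ), ∫⁻ τ in Ioo (-π) π, ENNReal.ofReal a * F a τ ^ q) ^ (p / q) := by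
  have hp0 : 0 < p := by linarith
  have hq0 : 0 < q := by linarith
  have hpi := Real.pi_pos
  have hpq : 0 < q - p := by linarith
  have hpq1 : 0 < 1 - p / q := by rw [sub_pos, div_lt_one hq0]; linarith
  set e : ℝ := (1 - p / 2 - p / q) / (1 - p / q) with he
  have he1 : e < -1 := by
    rw [he, div_lt_iff₀ hpq1]
    have h1 : 1 - p / 2 - p / q - (-1 * (1 - p / q)) = 2 - p / 2 - 2 * (p / q) := by ring
    have h2 : 3 / 5 < p / q := by
      rw [div_lt_div_iff₀ (by norm_num) hq0]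
      nlinarith
    nlinarith
  refine ⟨(ENNReal.ofReal (2 * π) * ENNReal.ofReal (-(e + 1))⁻¹) ^ (1 - p / q), ?_, ?_⟩
  · exact ENNReal.rpow_ne_top_of_nonneg hpq1.le
      (ENNReal.mul_ne_top ENNReal.ofReal_ne_top ENNReal.ofReal_ne_top)
  intro F hF b hb
  set μ : Measure (ℝ × ℝ) := ((volume : Measure ℝ).restrict (Ioi b)).prod
    ((volume : Measure ℝ).restrict (Ioo (-π) π)) with hμ
  have hF' : Measurable fun x : ℝ × ℝ => F x.1 x.2 := hF
  have hm1 : Measurable fun x : ℝ × ℝ => ENNReal.ofReal x.1 * F x.1 x.2 ^ q :=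
    (measurable_fst.ennreal_ofReal).mul (hF'.pow_const q)
  have hm2 : Measurable fun x : ℝ × ℝ => ENNReal.ofReal (x.1 ^ e) :=
    (measurable_fst.pow_const e).ennreal_ofReal
  have hH := ENNReal.lintegral_mul_norm_pow_le (μ := μ)
    (f := fun x => ENNReal.ofReal x.1 * F x.1 x.2 ^ q) (g := fun x => ENNReal.ofReal (x.1 ^ e))
    hm1.aemeasurable hm2.aemeasurable (p := p / q) (q := 1 - p / q) (by positivity) hpq1.le
    (by ring)
  have c1 : ∫⁻ x, ENNReal.ofReal x.1 * F x.1 x.2 ^ q ∂μ ≤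
      ∫⁻ a in Ioi (0:ℝ), ∫⁻ τ in Ioo (-π) π, ENNReal.ofReal a * F a τ ^ q := by
    rw [hμ, lintegral_prod _ hm1.aemeasurable]
    exact lintegral_mono_set (Ioi_subset_Ioi hb.le)
  have c2 : ∫⁻ x, ENNReal.ofReal (x.1 ^ e) ∂μ =
      ENNReal.ofReal (2 * π) * ENNReal.ofReal (-(e + 1))⁻¹ * ENNReal.ofReal (b ^ (e + 1)) := by
    rw [hμ, lintegral_prod _ hm2.aemeasurable]
    simp only [lintegral_const, Measure.restrict_apply_univ]
    rw [lintegral_mul_const _ (by fun_prop), lonD_tail he1 hb, Real.volume_Ioo, mul_comm,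
      mul_assoc]
    congr 1
    · congr 1; ring
    · rw [← ENNReal.ofReal_mul (by
        rw [inv_nonneg]; linarith)]
      congr 1
      rw [neg_div, inv_neg]
      ring
  have c3 : ∫⁻ a in Ioi b, ∫⁻ τ in Ioo (-π) π,
      ENNReal.ofReal ((√(a * b) / (a + b)) ^ p * (a + b)) * F a τ ^ p ≤
      ENNReal.ofReal (b ^ (p / 2)) * ∫⁻ x, (ENNReal.ofReal x.1 * F x.1 x.2 ^ q) ^ (p / q) *
        (ENNReal.ofReal (x.1 ^ e)) ^ (1 - p / q) ∂μ := by
    have hm3 : Measurable fun x : ℝ × ℝ => (ENNReal.ofReal x.1 * F x.1 x.2 ^ q) ^ (p / q) *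
        (ENNReal.ofReal (x.1 ^ e)) ^ (1 - p / q) := (hm1.pow_const _).mul (hm2.pow_const _)
    rw [hμ, lintegral_prod _ hm3.aemeasurable,
      ← lintegral_const_mul' _ _ ENNReal.ofReal_ne_top]
    refine setLIntegral_mono' measurableSet_Ioi fun a ha => ?_
    rw [← lintegral_const_mul' _ _ ENNReal.ofReal_ne_top]
    refine lintegral_mono fun τ => ?_
    have ha0 : 0 < a := hb.trans ha
    simp only
    rw [ENNReal.mul_rpow_of_nonneg _ _ (by positivity : (0:ℝ) ≤ p / q), ← ENNReal.rpow_mul,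
      mul_div_cancel₀ _ hq0.ne', ENNReal.ofReal_rpow_of_pos ha0,
      ENNReal.ofReal_rpow_of_pos (Real.rpow_pos_of_pos ha0 _), ← Real.rpow_mul ha0.le]
    have e1 : e * (1 - p / q) = 1 - p / 2 - p / q := by
      rw [he, div_mul_cancel₀ _ hpq1.ne']
    rw [e1]
    calc ENNReal.ofReal ((√(a * b) / (a + b)) ^ p * (a + b)) * F a τ ^ p
        ≤ ENNReal.ofReal (b ^ (p / 2) * a ^ (1 - p / 2)) * F a τ ^ p :=
          mul_le_mul' (ENNReal.ofReal_le_ofReal (lonD_weight (by linarith) hb ha)) le_rfl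
      _ = ENNReal.ofReal (b ^ (p / 2) * (a ^ (p / q) * a ^ (1 - p / 2 - p / q))) * F a τ ^ p := by
          rw [← Real.rpow_add ha0]
          congr 4
          ring
      _ = _ := by
          rw [ENNReal.ofReal_mul (by positivity), ENNReal.ofReal_mul (by positivity)]
          ring
  refine c3.trans ((mul_le_mul' le_rfl hH).trans ?_)
  rw [c2, ENNReal.mul_rpow_of_nonneg _ (ENNReal.ofReal (b ^ (e + 1))) hpq1.le,
    ENNReal.ofReal_rpow_of_pos (Real.rpow_pos_of_pos hb _), ← Real.rpow_mul hb.le]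
  have e2 : (e + 1) * (1 - p / q) = 2 - 2 * p / q - p / 2 := by
    rw [add_mul, he, div_mul_cancel₀ _ hpq1.ne']
    ring
  rw [e2]
  have e3 : b ^ (2 - 2 * p / q) = b ^ (p / 2) * b ^ (2 - 2 * p / q - p / 2) := by
    rw [← Real.rpow_add hb]; congr 1; ring
  generalize (ENNReal.ofReal (2 * π) * ENNReal.ofReal (-(e + 1))⁻¹) ^ (1 - p / q) = M
  rw [e3, ENNReal.ofReal_mul (by positivity)]
  calc _ ≤ ENNReal.ofReal (b ^ (p / 2)) *
        ((∫⁻ a in Ioi (0:ℝ), ∫⁻ τ in Ioo (-π) π, ENNReal.ofReal a * F a τ ^ q) ^ (p / q) *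
        (M * ENNReal.ofReal (b ^ (2 - 2 * p / q - p / 2)))) := by
        refine mul_le_mul' le_rfl (mul_le_mul' (ENNReal.rpow_le_rpow c1 (by positivity)) le_rfl)
    _ = _ := by ring

theorem double_Lp (p : ℝ) (hp3 : 3 < p) (hp4 : p < 4) : ∃ C : ℝ≥0∞, C ≠ ∞ ∧
    ∀ H u : ℝ → ℂ, Measurable H → Measurable u → (∀ t, ‖H t‖ ≤ 1) → (∀ t, ‖u t‖ ≤ 1) →
    ∫⁻ b in Ioi (0:ℝ), ∫⁻ a in Ioi b, ∫⁻ τ in Ioo (-π) π,
      ENNReal.ofReal ((√(a * b) / (a + b)) ^ p * (a + b)) *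
        ‖Q (fun t => u t * Q H b t) a τ‖ₑ ^ p ≤ C := by
  set q : ℝ := 4 + (p - 3) / 2 with hqd
  have hq : 4 < q := by rw [hqd]; linarith
  have hq5 : q < 5 := by rw [hqd]; linarith
  have hp0 : 0 < p := by linarith
  have hq0 : 0 < q := by linarith
  have hpi := Real.pi_pos
  obtain ⟨C1, hC1, H1⟩ := lonD_step1 q hq
  obtain ⟨C2, hC2, H2⟩ := lonD_step2 p q hp3 hp4 hq hq5
  obtain ⟨C3, hC3, H3⟩ := circle_Lq4 q hq
  set s : ℝ := 4 / q * (p / q) with hs
  have hs0 : 0 < s := by positivity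
  have hs1 : s < 1 := by
    rw [hs, div_mul_div_comm, div_lt_one (by positivity)]
    nlinarith
  have hs1' : 0 < 1 - s := by linarith
  set e : ℝ := (2 - 2 * p / q - s) / (1 - s) with he
  have he1 : e < -1 := by
    rw [he, div_lt_iff₀ hs1']
    have h3 : 3 * q ^ 2 < p * (2 * q + 8) := by
      have : p = 2 * (q - 4) + 3 := by rw [hqd]; ring
      rw [this]
      nlinarith
    have h4 : 3 < 2 * p / q + 2 * s := by
      rw [hs]
      have : 2 * p / q + 2 * (4 / q * (p / q)) = p * (2 * q + 8) / q ^ 2 := by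
        field_simp
        ring
      rw [this, lt_div_iff₀ (by positivity)]
      exact h3
    linarith
  set V : ℝ≥0∞ := volume (Ioo (-π) π) with hV
  have hVt : V ≠ ∞ := by rw [hV]; simp
  set K : ℝ≥0∞ := C2 * C1 ^ (p / q) with hK
  have hKt : K ≠ ∞ := ENNReal.mul_ne_top hC2 (ENNReal.rpow_ne_top_of_nonneg (by positivity) hC1)
  set D1 : ℝ≥0∞ := ((ENNReal.ofReal (2 * π)) ^ q * V) ^ s with hD1
  set D2 : ℝ≥0∞ := (C3 * V) ^ s * (ENNReal.ofReal (-1 ^ (e + 1) / (e + 1))) ^ (1 - s) with hD2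
  refine ⟨K * D1 + K * D2, ?_, ?_⟩
  · refine ENNReal.add_ne_top.2 ⟨ENNReal.mul_ne_top hKt ?_, ENNReal.mul_ne_top hKt ?_⟩
    · exact ENNReal.rpow_ne_top_of_nonneg hs0.le (ENNReal.mul_ne_top
        (ENNReal.rpow_ne_top_of_nonneg hq0.le ENNReal.ofReal_ne_top) hVt)
    · exact ENNReal.mul_ne_top (ENNReal.rpow_ne_top_of_nonneg hs0.le (ENNReal.mul_ne_top hC3 hVt))
        (ENNReal.rpow_ne_top_of_nonneg hs1'.le ENNReal.ofReal_ne_top)
  intro H u hH hu hb1 hu1
  set Y : ℝ → ℝ≥0∞ := fun b => ∫⁻ τ in Ioo (-π) π, ‖Q H b τ‖ₑ ^ q with hY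
  have hQm : Measurable fun x : ℝ × ℝ => Q H x.1 x.2 := lonD_measurable_Q H hH
  have hYm : Measurable Y := by
    have := (hQm.enorm.pow_const q).lintegral_prod_right' (ν := volume.restrict (Ioo (-π) π))
    exact this
  -- the bound for fixed b
  have key : ∀ b : ℝ, 0 < b → ∫⁻ a in Ioi b, ∫⁻ τ in Ioo (-π) π,
      ENNReal.ofReal ((√(a * b) / (a + b)) ^ p * (a + b)) *
        ‖Q (fun t => u t * Q H b t) a τ‖ₑ ^ p ≤
      K * (ENNReal.ofReal (b ^ (2 - 2 * p / q)) * Y b ^ s) := by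
    intro b hb
    have hQb : Measurable fun t => Q H b t := hQm.comp (f := fun t : ℝ => (b, t)) (by fun_prop)
    have hTm : Measurable fun x : ℝ × ℝ => Q (fun t => u t * Q H b t) x.1 x.2 :=
      lonD_measurable_Q _ (hu.mul hQb)
    have h2 := H2 (fun a τ => ‖Q (fun t => u t * Q H b t) a τ‖ₑ) hTm.enorm b hb
    refine h2.trans ?_
    calc _ ≤ C2 * ENNReal.ofReal (b ^ (2 - 2 * p / q)) * (C1 * Y b ^ (4 / q)) ^ (p / q) := by
          gcongr
          exact H1 H u hH hu hb1 hu1 b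
      _ = _ := by
          rw [ENNReal.mul_rpow_of_nonneg _ _ (by positivity), ← ENNReal.rpow_mul, hK]
          ring
  calc _ ≤ ∫⁻ b in Ioi (0:ℝ), K * (ENNReal.ofReal (b ^ (2 - 2 * p / q)) * Y b ^ s) :=
        setLIntegral_mono' measurableSet_Ioi fun b hb => key b hb
    _ = K * ∫⁻ b in Ioi (0:ℝ), ENNReal.ofReal (b ^ (2 - 2 * p / q)) * Y b ^ s :=
        lintegral_const_mul' _ _ hKt
    _ ≤ K * (D1 + D2) := ?_
    _ = _ := by ring
  refine mul_le_mul' le_rfl ?_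
  have hsplit : (Ioi (0:ℝ)) = Ioc 0 1 ∪ Ioi 1 := by
    rw [Ioc_union_Ioi_eq_Ioi (by norm_num)]
  rw [hsplit]
  refine (lintegral_union_le _ _ _).trans (add_le_add ?_ ?_)
  · -- small b
    calc ∫⁻ b in Ioc (0:ℝ) 1, ENNReal.ofReal (b ^ (2 - 2 * p / q)) * Y b ^ s
        ≤ ∫⁻ b in Ioc (0:ℝ) 1, D1 := by
          refine setLIntegral_mono' measurableSet_Ioc fun b hb => ?_
          have h1 : ENNReal.ofReal (b ^ (2 - 2 * p / q)) ≤ 1 := by
            rw [← ENNReal.ofReal_one]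
            refine ENNReal.ofReal_le_ofReal (Real.rpow_le_one hb.1.le hb.2 ?_)
            rw [sub_nonneg, div_le_iff₀ hq0]
            linarith
          have h2 : Y b ≤ (ENNReal.ofReal (2 * π)) ^ q * V := by
            rw [hY]
            calc ∫⁻ τ in Ioo (-π) π, ‖Q H b τ‖ₑ ^ q
                ≤ ∫⁻ τ in Ioo (-π) π, (ENNReal.ofReal (2 * π)) ^ q := by
                  refine lintegral_mono fun τ => ?_
                  refine ENNReal.rpow_le_rpow ?_ hq0.le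
                  rw [← ofReal_norm]
                  exact ENNReal.ofReal_le_ofReal (lonD_norm_Q_le H hb1 b τ)
              _ = _ := by rw [lintegral_const, Measure.restrict_apply_univ]
          calc _ ≤ 1 * D1 := by
                rw [hD1]
                exact mul_le_mul' h1 (ENNReal.rpow_le_rpow h2 hs0.le)
            _ = D1 := one_mul _
      _ = D1 := by
          rw [lintegral_const, Measure.restrict_apply_univ, Real.volume_Ioc]
          simp
  · -- large b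
    have hm1 : Measurable fun b : ℝ => ENNReal.ofReal b * Y b :=
      (measurable_id.ennreal_ofReal).mul hYm
    have hm2 : Measurable fun b : ℝ => ENNReal.ofReal (b ^ e) :=
      (measurable_id.pow_const e).ennreal_ofReal
    have hHo := ENNReal.lintegral_mul_norm_pow_le (μ := (volume : Measure ℝ).restrict (Ioi 1))
      (f := fun b => ENNReal.ofReal b * Y b) (g := fun b => ENNReal.ofReal (b ^ e))
      hm1.aemeasurable hm2.aemeasurable (p := s) (q := 1 - s) hs0.le hs1'.le (by ring)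
    have c1 : ∫⁻ b in Ioi (1:ℝ), ENNReal.ofReal b * Y b ≤ C3 * V := by
      calc ∫⁻ b in Ioi (1:ℝ), ENNReal.ofReal b * Y b
          ≤ ∫⁻ b in Ioi (0:ℝ), ENNReal.ofReal b * Y b :=
            lintegral_mono_set (Ioi_subset_Ioi (by norm_num))
        _ = ∫⁻ b in Ioi (0:ℝ), ∫⁻ τ in Ioo (-π) π, ENNReal.ofReal b * ‖Q H b τ‖ₑ ^ q := by
            refine lintegral_congr fun b => ?_
            rw [lintegral_const_mul' _ _ ENNReal.ofReal_ne_top]
        _ ≤ C3 * ∫⁻ θ in Ioo (-π) π, ‖H θ‖ₑ ^ (4:ℝ) := H3 H hH hb1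
        _ ≤ C3 * V := by
            refine mul_le_mul' le_rfl ?_
            calc ∫⁻ θ in Ioo (-π) π, ‖H θ‖ₑ ^ (4:ℝ) ≤ ∫⁻ θ in Ioo (-π) π, 1 := by
                  refine lintegral_mono fun θ => ?_
                  simp only
                  calc ‖H θ‖ₑ ^ (4:ℝ) ≤ 1 ^ (4:ℝ) := by
                        refine ENNReal.rpow_le_rpow ?_ (by norm_num)
                        rw [← ofReal_norm, ← ENNReal.ofReal_one]
                        exact ENNReal.ofReal_le_ofReal (hb1 θ)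
                    _ = 1 := ENNReal.one_rpow _
              _ = V := by rw [lintegral_one, Measure.restrict_apply_univ]
    have c2 : ∫⁻ b in Ioi (1:ℝ), ENNReal.ofReal (b ^ e) =
        ENNReal.ofReal (-1 ^ (e + 1) / (e + 1)) := lonD_tail he1 one_pos
    have c3 : ∫⁻ b in Ioi (1:ℝ), ENNReal.ofReal (b ^ (2 - 2 * p / q)) * Y b ^ s =
        ∫⁻ b in Ioi (1:ℝ), (ENNReal.ofReal b * Y b) ^ s * (ENNReal.ofReal (b ^ e)) ^ (1 - s) := by
      refine setLIntegral_congr_fun measurableSet_Ioi fun b hb => ?_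
      have hb0 : (0:ℝ) < b := lt_trans one_pos hb
      rw [ENNReal.mul_rpow_of_nonneg _ _ hs0.le, ENNReal.ofReal_rpow_of_pos hb0,
        ENNReal.ofReal_rpow_of_pos (Real.rpow_pos_of_pos hb0 _), ← Real.rpow_mul hb0.le]
      have e1 : e * (1 - s) = 2 - 2 * p / q - s := by
        rw [he, div_mul_cancel₀ _ hs1'.ne']
      have e2 : b ^ (2 - 2 * p / q) = b ^ s * b ^ (2 - 2 * p / q - s) := by
        rw [← Real.rpow_add hb0]; congr 1; ring
      rw [e1, e2, ENNReal.ofReal_mul (by positivity)]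
      ring
    rw [c3, hD2, ← c2]
    refine hHo.trans ?_
    gcongr

end Pool.Agent.MP_6cbfb8_an
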