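import Pool.Agent.MP_6cbfb8_an.Low9

/-!
Estimate of the smooth part: reduction to the last basis vector.
-/

namespace Pool.Agent.MP_6cbfb8_an

open MeasureTheory Set
open scoped ENNReal Real RealInnerProductSpace

lemma moll_isometry {j : ℕ} (r : ℝ) (g : E (j + 2) → ℂ) (R : E (j + 2) ≃ₗᵢ[ℝ] E (j + 2))
    (x : S (j + 2)) : moll r g (R (x : E (j + 2))) = moll r (fun y => g (R y)) (x : E (j + 2)) := by
  unfold moll
  have hk : kerMass r (R (x : E (j + 2))) = kerMass r (x : E (j + 2)) :=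
    kerMass_eq r ⟨R (x : E (j + 2)), by simp⟩ x
  rw [hk]
  congr 1
  have hme : MeasurableEmbedding (fun x : S (j + 2) => (⟨R x, by simp⟩ : S (j + 2))) := by
    have h1 : Continuous (fun x : S (j + 2) => (⟨R x, by simp⟩ : S (j + 2))) :=
      (R.continuous.comp continuous_subtype_val).subtype_mk _
    refine h1.measurableEmbedding ?_
    intro a b hab
    have : R (a : E (j + 2)) = R (b : E (j + 2)) := congrArg Subtype.val hab
    exact Subtype.ext (R.injective this)
  have h := (measurePreserving_isometry R).integral_comp hme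
    (fun y : S (j + 2) => ((ker r (R (x : E (j + 2))) (y : E (j + 2)) : ℝ) : ℂ) * g y)
  rw [← h]
  refine integral_congr_ae (Filter.Eventually.of_forall fun y => ?_)
  simp only
  have hker : ker r (R (x : E (j + 2))) (R (y : E (j + 2))) = ker r (x : E (j + 2)) (y : E (j + 2)) := by
    unfold ker
    rw [← map_sub, R.norm_map]
  rw [hker]

lemma cyl_isometry {j : ℕ} (G : ℝ → E (j + 2) → ℂ) (R : E (j + 2) ≃ₗᵢ[ℝ] E (j + 2))
    (y : E (j + 2)) (z : ℝ) : cyl j G (R y) z = cyl j (fun θ x => G θ (R x)) y z := by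
  unfold cyl
  have hme : MeasurableEmbedding (fun x : S (j + 2) => (⟨R x, by simp⟩ : S (j + 2))) := by
    have h1 : Continuous (fun x : S (j + 2) => (⟨R x, by simp⟩ : S (j + 2))) :=
      (R.continuous.comp continuous_subtype_val).subtype_mk _
    refine h1.measurableEmbedding ?_
    intro a b hab
    have : R (a : E (j + 2)) = R (b : E (j + 2)) := congrArg Subtype.val hab
    exact Subtype.ext (R.injective this)
  refine integral_congr_ae (Filter.Eventually.of_forall fun θ => ?_)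
  simp only
  congr 1
  have h := (measurePreserving_isometry R).integral_comp hme
    (fun ω : S (j + 2) => G θ ω *
    Complex.exp (((-(2 * π * (Real.sin θ * inner ℝ (ω : E (j + 2)) (R y) + z * Real.cos θ)) : ℝ) : ℂ)
      * Complex.I))
  rw [← h]
  refine integral_congr_ae (Filter.Eventually.of_forall fun ω => ?_)
  simp only
  rw [R.inner_map_map]

theorem low_estimate (j : ℕ) (p : ℝ) (hp2 : 2 < p) (hp4 : p < 4) (κ : ℝ) (hκ : 0 < κ) :
    ∃ C : ℝ≥0∞, C ≠ ∞ ∧ ∀ r : ℝ, 1 ≤ r → ∀ g : ℝ → E (j + 2) → ℂ,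
      Measurable (Function.uncurry g) → (∀ θ x, ‖g θ x‖ ≤ 1) →
      (∀ θ ∈ Ioo 0 π, Real.sin θ < 1 / r → ∀ x, g θ x = 0) → ∀ ψ : S (j + 2),
      ∫⁻ ρ in Icc r (2 * r), ∫⁻ z : ℝ, ‖cyl j (fun θ => moll r (g θ)) (ρ • (ψ : E (j + 2))) z‖ₑ ^ p
        ≤ C * ENNReal.ofReal (r ^ (2 - p / 2 - p * (j + 1) / 2 + κ)) := by
  obtain ⟨C, hC, H⟩ := low_eLast j p hp2 hp4 κ hκ
  refine ⟨C, hC, fun r hr g hg hb h0 ψ => ?_⟩
  have hn : ‖eLast (j + 1)‖ = ‖(ψ : E (j + 2))‖ := by rw [norm_eLast]; simp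
  set R : E (j + 2) ≃ₗᵢ[ℝ] E (j + 2) := (ℝ ∙ (eLast (j + 1) - (ψ : E (j + 2))))ᗮ.reflection with hR
  have hRe : R (eLast (j + 1)) = ψ := Submodule.reflection_sub hn
  have h := H r hr (fun θ x => g θ (R x))
    (hg.comp (f := fun q : ℝ × E (j + 2) => (q.1, R q.2))
      (measurable_fst.prodMk (R.continuous.measurable.comp measurable_snd)))
    (fun θ x => hb θ _) (fun θ hθ hs x => h0 θ hθ hs _)
  refine le_trans (le_of_eq ?_) h
  refine lintegral_congr fun ρ => lintegral_congr fun z => ?_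
  have e1 : cyl j (fun θ => moll r (g θ)) (ρ • (ψ : E (j + 2))) z =
      cyl j (fun θ => moll r (fun x => g θ (R x))) (ρ • eLast (j + 1)) z := by
    rw [← hRe, ← map_smul, cyl_isometry]
    unfold cyl
    refine integral_congr_ae (Filter.Eventually.of_forall fun θ => ?_)
    simp only
    congr 1
    refine integral_congr_ae (Filter.Eventually.of_forall fun ω => ?_)
    simp only
    rw [moll_isometry r (g θ) R ω]
  rw [e1]

end Pool.Agent.MP_6cbfb8_an
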