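import Pool.Agent.MP_6cbfb8_an.Low1

/-!
The analytic kernel along a great circle.
-/

namespace Pool.Agent.MP_6cbfb8_an

open MeasureTheory Set
open scoped ENNReal Real RealInnerProductSpace

/-- The kernel along a great circle, as an entire function. -/
noncomputable def akern (j : ℕ) (r Z A B : ℝ) (w : ℂ) : ℂ :=
  (Z⁻¹ : ℝ) * Complex.exp ((r : ℂ) * ((A : ℂ) * Complex.cos w + (B : ℂ) * Complex.sin w - 1)) *
    Complex.sin w ^ j

/-- The majorant of the kernel. -/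
noncomputable def amaj (j : ℕ) (r Z A B : ℝ) (u : ℝ) : ℝ :=
  Z⁻¹ * (Real.exp 1 * 6 ^ j) * Real.exp (-(r / 2 * (1 - (A * Real.cos u + B * Real.sin u)))) *
    Real.sin u ^ j

lemma differentiable_akern (j : ℕ) (r Z A B : ℝ) : Differentiable ℂ (akern j r Z A B) := by
  unfold akern
  fun_prop

lemma akern_ofReal (j : ℕ) (r Z A B u : ℝ) : akern j r Z A B (u : ℂ) =
    ((Z⁻¹ * Real.exp (r * (A * Real.cos u + B * Real.sin u - 1)) * Real.sin u ^ j : ℝ) : ℂ) := by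
  unfold akern
  push_cast
  rfl

lemma re_kernel (A B x τ : ℝ) :
    ((A : ℂ) * Complex.cos ((x : ℂ) + (τ : ℂ) * Complex.I) +
      (B : ℂ) * Complex.sin ((x : ℂ) + (τ : ℂ) * Complex.I) - 1).re =
    Real.cosh τ * (A * Real.cos x + B * Real.sin x) - 1 := by
  rw [Complex.cos_add_mul_I, Complex.sin_add_mul_I]
  rw [← Complex.ofReal_cos, ← Complex.ofReal_sin, ← Complex.ofReal_cosh, ← Complex.ofReal_sinh]
  simp
  rw [Complex.cos_ofReal_re, Complex.sin_ofReal_re]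
  ring

lemma norm_cos_le_two {ζ : ℂ} (h : ‖ζ‖ ≤ 1 / 2) : ‖Complex.cos ζ‖ ≤ 2 := by
  have h1 : ‖Complex.exp (ζ * Complex.I)‖ ≤ 2 := by
    refine (Complex.norm_exp_le_exp_norm _).trans ?_
    rw [norm_mul, Complex.norm_I, mul_one]
    have : Real.exp ‖ζ‖ ≤ Real.exp (1 / 2) := Real.exp_le_exp.2 h
    have h3 : Real.exp (1 / 2) ≤ 2 := by
      have h4 := Real.exp_one_lt_d9
      have h5 : Real.exp (1 / 2) * Real.exp (1 / 2) = Real.exp 1 := by
        rw [← Real.exp_add]; norm_num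
      nlinarith [Real.exp_pos (1 / 2 : ℝ)]
    linarith
  have h2 : ‖Complex.exp (-ζ * Complex.I)‖ ≤ 2 := by
    refine (Complex.norm_exp_le_exp_norm _).trans ?_
    rw [norm_mul, Complex.norm_I, mul_one, norm_neg]
    have : Real.exp ‖ζ‖ ≤ Real.exp (1 / 2) := Real.exp_le_exp.2 h
    have h3 : Real.exp (1 / 2) ≤ 2 := by
      have h4 := Real.exp_one_lt_d9
      have h5 : Real.exp (1 / 2) * Real.exp (1 / 2) = Real.exp 1 := by
        rw [← Real.exp_add]; norm_num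
      nlinarith [Real.exp_pos (1 / 2 : ℝ)]
    linarith
  unfold Complex.cos
  rw [norm_div, Complex.norm_ofNat, div_le_iff₀ (by norm_num)]
  refine (norm_add_le _ _).trans ?_
  linarith

lemma norm_sin_le_two_mul {ζ : ℂ} (h : ‖ζ‖ ≤ 1) : ‖Complex.sin ζ‖ ≤ 2 * ‖ζ‖ := by
  have h1 : ‖Complex.exp (ζ * Complex.I) - 1‖ ≤ 2 * ‖ζ‖ := by
    have := Complex.norm_exp_sub_one_le (x := ζ * Complex.I) (by simpa using h)
    simpa using this
  have h2 : ‖Complex.exp (-ζ * Complex.I) - 1‖ ≤ 2 * ‖ζ‖ := by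
    have := Complex.norm_exp_sub_one_le (x := -ζ * Complex.I) (by simpa using h)
    simpa using this
  have h3 : Complex.sin ζ = ((Complex.exp (-ζ * Complex.I) - 1) - (Complex.exp (ζ * Complex.I) - 1))
      * Complex.I / 2 := by
    unfold Complex.sin
    ring
  rw [h3, norm_div, norm_mul, Complex.norm_I, mul_one, Complex.norm_ofNat,
    div_le_iff₀ (by norm_num)]
  refine (norm_sub_le _ _).trans ?_
  linarith

lemma half_le_sin' {δ : ℝ} (hδ : 0 < δ) (hδ1 : δ ≤ 1) : δ / 2 ≤ Real.sin δ := by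
  have h := Real.sin_gt_sub_cube hδ
  have h1 : δ ^ 3 ≤ δ := by
    calc δ ^ 3 ≤ δ ^ 1 := pow_le_pow_of_le_one hδ.le hδ1 (by norm_num)
      _ = δ := pow_one δ
  linarith

lemma sin_ge_of_mem {δ u : ℝ} (hδ : 0 < δ) (hδ1 : δ ≤ 1) (hu : u ∈ Icc δ (π - δ)) :
    δ / 2 ≤ Real.sin u := by
  have hπ := Real.pi_gt_three
  refine (half_le_sin' hδ hδ1).trans ?_
  rcases le_total u (π / 2) with h | h
  · exact Real.sin_le_sin_of_le_of_le_pi_div_two (by linarith) h hu.1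
  · rw [← Real.sin_pi_sub u]
    exact Real.sin_le_sin_of_le_of_le_pi_div_two (by linarith) (by linarith) (by linarith [hu.2])

lemma norm_sin_le_six {δ u : ℝ} (hδ : 0 < δ) (hδ1 : δ ≤ 1) (hu : u ∈ Icc δ (π - δ)) {w : ℂ}
    (hw : ‖w - u‖ ≤ δ / 2) : ‖Complex.sin w‖ ≤ 6 * Real.sin u := by
  have hs := sin_ge_of_mem hδ hδ1 hu
  have hs0 : 0 ≤ Real.sin u := by linarith
  have h1 : Complex.sin w = Complex.sin (u : ℂ) * Complex.cos (w - u) +
      Complex.cos (u : ℂ) * Complex.sin (w - u) := by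
    rw [← Complex.sin_add]; congr 1; ring
  rw [h1]
  refine (norm_add_le _ _).trans ?_
  rw [norm_mul, norm_mul, ← Complex.ofReal_sin, ← Complex.ofReal_cos, Complex.norm_real,
    Complex.norm_real, Real.norm_eq_abs, Real.norm_eq_abs, abs_of_nonneg hs0]
  have h2 := norm_cos_le_two (ζ := w - u) (by linarith)
  have h3 := norm_sin_le_two_mul (ζ := w - u) (by linarith)
  have h4 : |Real.cos u| ≤ 1 := Real.abs_cos_le_one u
  calc Real.sin u * ‖Complex.cos (w - u)‖ + |Real.cos u| * ‖Complex.sin (w - u)‖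
      ≤ Real.sin u * 2 + 1 * (2 * ‖w - u‖) := by gcongr
    _ ≤ 6 * Real.sin u := by linarith

lemma kernel_exponent {r δ A B : ℝ} (hδ : 0 < δ) (hδ1 : δ ≤ 1) (hrδ : r * δ ^ 2 = 1)
    (hAB : A ^ 2 + B ^ 2 ≤ 1) (u x τ : ℝ) (hx : |x - u| ≤ δ / 2) (hτ : |τ| ≤ δ / 2) :
    r * (Real.cosh τ * (A * Real.cos x + B * Real.sin x) - 1) ≤
      -(r / 2 * (1 - (A * Real.cos u + B * Real.sin u))) + 1 := by
  have hr : 0 < r := by
    by_contra h
    push Not at h
    have : r * δ ^ 2 ≤ 0 := mul_nonpos_of_nonpos_of_nonneg h (by positivity)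
    linarith
  set X := A * Real.cos x + B * Real.sin x with hX
  set U := A * Real.cos u + B * Real.sin u with hU
  have hX1 : X ≤ 1 := by
    have h1 : X ^ 2 ≤ 1 := by
      have := Real.sin_sq_add_cos_sq x
      have h2 : X ^ 2 ≤ (A ^ 2 + B ^ 2) * (Real.cos x ^ 2 + Real.sin x ^ 2) := by
        rw [hX]; nlinarith [sq_nonneg (A * Real.sin x - B * Real.cos x)]
      calc X ^ 2 ≤ (A ^ 2 + B ^ 2) * (Real.cos x ^ 2 + Real.sin x ^ 2) := h2
        _ = (A ^ 2 + B ^ 2) := by rw [add_comm (Real.cos x ^ 2), this, mul_one]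
        _ ≤ 1 := hAB
    nlinarith
  have hc1 : 1 ≤ Real.cosh τ := Real.one_le_cosh τ
  have hc2 : Real.cosh τ - 1 ≤ τ ^ 2 := by
    have h1 := Real.cosh_le_exp_half_sq τ
    have hτ1 : |τ| ≤ 1 / 2 := by linarith
    have hτ2 : τ ^ 2 ≤ 1 / 4 := by
      rw [← sq_abs]; nlinarith [abs_nonneg τ]
    have h2 := Real.abs_exp_sub_one_le (x := τ ^ 2 / 2) (by
      rw [abs_of_nonneg (by positivity)]; linarith)
    rw [abs_of_nonneg (by linarith [Real.add_one_le_exp (τ ^ 2 / 2), sq_nonneg τ] : (0:ℝ) ≤ Real.exp (τ ^ 2 / 2) - 1),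
      abs_of_nonneg (by positivity)] at h2
    linarith
  have hτ2 : τ ^ 2 ≤ δ ^ 2 / 4 := by
    rw [← sq_abs]; nlinarith [abs_nonneg τ]
  have hx2 : (x - u) ^ 2 ≤ δ ^ 2 / 4 := by
    rw [← sq_abs]; nlinarith [abs_nonneg (x - u)]
  -- comparison of X and U
  have hcomp : X - 1 ≤ -(1 / 2) * (1 - U) + (1 / 2) * (x - u) ^ 2 := by
    have h3 := Real.one_sub_sq_div_two_le_cos (x := x - u)
    rw [Real.cos_sub] at h3
    have hsx := Real.sin_sq_add_cos_sq x
    have hsu := Real.sin_sq_add_cos_sq u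
    have h4 : 0 ≤ (2 * Real.cos x - Real.cos u - A) ^ 2 + (2 * Real.sin x - Real.sin u - B) ^ 2 +
        (1 - (A ^ 2 + B ^ 2)) := by
      have : 0 ≤ 1 - (A ^ 2 + B ^ 2) := by linarith
      positivity
    have h5 : (2 * Real.cos x - Real.cos u - A) ^ 2 + (2 * Real.sin x - Real.sin u - B) ^ 2 +
        (1 - (A ^ 2 + B ^ 2)) = 6 - 4 * (Real.cos x * Real.cos u + Real.sin x * Real.sin u)
          - 4 * X + 2 * U := by
      rw [hX, hU]
      have e1 : (2 * Real.cos x - Real.cos u - A) ^ 2 + (2 * Real.sin x - Real.sin u - B) ^ 2 +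
        (1 - (A ^ 2 + B ^ 2)) = 4 * (Real.sin x ^ 2 + Real.cos x ^ 2) +
          (Real.sin u ^ 2 + Real.cos u ^ 2) + 1 -
          4 * (Real.cos x * Real.cos u + Real.sin x * Real.sin u) -
          4 * (A * Real.cos x + B * Real.sin x) + 2 * (A * Real.cos u + B * Real.sin u) := by ring
      rw [e1, hsx, hsu]; ring
    rw [h5] at h4
    linarith
  have h6 : Real.cosh τ * X - 1 ≤ (X - 1) + (Real.cosh τ - 1) := by nlinarith
  have h7 : Real.cosh τ * X - 1 ≤ -(1 / 2) * (1 - U) + (1 / 2) * (δ ^ 2 / 4) + δ ^ 2 / 4 := by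
    linarith
  calc r * (Real.cosh τ * X - 1) ≤ r * (-(1 / 2) * (1 - U) + (1 / 2) * (δ ^ 2 / 4) + δ ^ 2 / 4) := by
        gcongr
    _ = -(r / 2 * (1 - U)) + (3 / 8) * (r * δ ^ 2) := by ring
    _ ≤ _ := by rw [hrδ]; linarith

lemma norm_akern_le {j : ℕ} {r δ Z A B : ℝ} (hδ : 0 < δ) (hδ1 : δ ≤ 1) (hrδ : r * δ ^ 2 = 1)
    (hZ : 0 < Z) (hAB : A ^ 2 + B ^ 2 ≤ 1) {u : ℝ} (hu : u ∈ Icc δ (π - δ)) {w : ℂ}
    (hw : ‖w - u‖ ≤ δ / 2) : ‖akern j r Z A B w‖ ≤ amaj j r Z A B u := by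
  unfold akern amaj
  have hs := sin_ge_of_mem hδ hδ1 hu
  have hs0 : 0 ≤ Real.sin u := by linarith
  rw [norm_mul, norm_mul, norm_pow, Complex.norm_real, Real.norm_eq_abs, abs_of_pos (by positivity),
    Complex.norm_exp]
  have h1 : ((r : ℂ) * ((A : ℂ) * Complex.cos w + (B : ℂ) * Complex.sin w - 1)).re =
      r * (Real.cosh w.im * (A * Real.cos w.re + B * Real.sin w.re) - 1) := by
    rw [Complex.re_ofReal_mul]
    have h2 := re_kernel A B w.re w.im
    rw [Complex.re_add_im] at h2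
    rw [h2]
  have hre : |w.re - u| ≤ δ / 2 := by
    have := (Complex.abs_re_le_norm (w - u)).trans hw
    simpa using this
  have him : |w.im| ≤ δ / 2 := by
    have := (Complex.abs_im_le_norm (w - u)).trans hw
    simpa using this
  have h3 := kernel_exponent hδ hδ1 hrδ hAB u w.re w.im hre him
  have h4 := norm_sin_le_six hδ hδ1 hu hw
  rw [h1]
  calc Z⁻¹ * Real.exp (r * (Real.cosh w.im * (A * Real.cos w.re + B * Real.sin w.re) - 1)) *
        ‖Complex.sin w‖ ^ j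
      ≤ Z⁻¹ * Real.exp (-(r / 2 * (1 - (A * Real.cos u + B * Real.sin u))) + 1) *
        (6 * Real.sin u) ^ j := by gcongr
    _ = _ := by rw [Real.exp_add, mul_pow]; ring

lemma continuous_amaj (j : ℕ) (r Z A B : ℝ) : Continuous (amaj j r Z A B) := by
  unfold amaj
  fun_prop

end Pool.Agent.MP_6cbfb8_an
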