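import Pool.Agent.MP_6cbfb8_an.Low2
import Pool.Agent.MP_6cbfb8_an.FarBound

/-!
Derivatives of the planar extension and the pointwise estimate along one great circle.
-/

namespace Pool.Agent.MP_6cbfb8_an

open MeasureTheory Set
open scoped ENNReal Real RealInnerProductSpace

/-- Density multiplied by a power of the sine. -/
noncomputable def sinD (f : ℝ → ℂ) (k : ℕ) (θ : ℝ) : ℂ := f θ * ((Real.sin θ ^ k : ℝ) : ℂ)

lemma measurable_sinD (f : ℝ → ℂ) (hf : Measurable f) (k : ℕ) : Measurable (sinD f k) := by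
  unfold sinD
  fun_prop

lemma norm_sinD_le (f : ℝ → ℂ) (hf : ∀ θ, ‖f θ‖ ≤ 1) (k : ℕ) (θ : ℝ) : ‖sinD f k θ‖ ≤ 1 := by
  unfold sinD
  rw [norm_mul, Complex.norm_real, Real.norm_eq_abs, abs_pow]
  have h1 : |Real.sin θ| ^ k ≤ 1 := pow_le_one₀ (abs_nonneg _) (Real.abs_sin_le_one θ)
  calc ‖f θ‖ * |Real.sin θ| ^ k ≤ 1 * 1 := mul_le_mul (hf θ) h1 (by positivity) (by norm_num)
    _ = 1 := by norm_num

lemma hasDerivAt_P (f : ℝ → ℂ) (hf : Measurable f) (hb : ∀ θ, ‖f θ‖ ≤ 1) (k : ℕ) (v z : ℝ) :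
    HasDerivAt (fun v => P (sinD f k) v z)
      (-(2 * π : ℝ) * Complex.I * P (sinD f (k + 1)) v z) v := by
  have hmeas : ∀ (n : ℕ) (v : ℝ), AEStronglyMeasurable (fun θ => sinD f n θ *
      Complex.exp (((-(2 * π * (v * Real.sin θ + z * Real.cos θ)) : ℝ) : ℂ) * Complex.I))
      (volume.restrict (Ioo 0 π)) := fun n v =>
    ((measurable_sinD f hf n).mul (by fun_prop)).aestronglyMeasurable
  have h := hasDerivAt_integral_of_dominated_loc_of_deriv_le (μ := volume.restrict (Ioo 0 π))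
    (F := fun v θ => sinD f k θ *
      Complex.exp (((-(2 * π * (v * Real.sin θ + z * Real.cos θ)) : ℝ) : ℂ) * Complex.I))
    (F' := fun v θ => -(2 * π : ℝ) * Complex.I * (sinD f (k + 1) θ *
      Complex.exp (((-(2 * π * (v * Real.sin θ + z * Real.cos θ)) : ℝ) : ℂ) * Complex.I)))
    (x₀ := v) (s := univ) (bound := fun _ => 2 * π) Filter.univ_mem
    (Filter.Eventually.of_forall fun v => hmeas k v) ?_ ?_ ?_ ?_ ?_
  · have h2 := h.2
    unfold P
    rw [← integral_const_mul]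
    exact h2
  · refine Integrable.of_bound (C := 1) (hmeas k v) (Filter.Eventually.of_forall fun θ => ?_)
    rw [norm_mul, norm_phase, mul_one]
    exact norm_sinD_le f hb k θ
  · exact ((hmeas (k + 1) v).const_mul _)
  · refine Filter.Eventually.of_forall fun θ => fun v _ => ?_
    rw [norm_mul, norm_mul, norm_mul, norm_phase, Complex.norm_I, norm_neg, Complex.norm_real,
      Real.norm_eq_abs, abs_of_pos (by positivity : (0:ℝ) < 2 * π), mul_one, mul_one]
    have := norm_sinD_le f hb (k + 1) θ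
    have hπ := Real.pi_pos
    nlinarith [norm_nonneg (sinD f (k + 1) θ)]
  · exact integrable_const _
  · refine Filter.Eventually.of_forall fun θ => fun v _ => ?_
    have h1 : HasDerivAt (fun v : ℝ => (((-(2 * π * (v * Real.sin θ + z * Real.cos θ)) : ℝ) : ℂ)
        * Complex.I)) (((-(2 * π * Real.sin θ) : ℝ) : ℂ) * Complex.I) v := by
      have h0 : HasDerivAt (fun v : ℝ => (-(2 * π * (v * Real.sin θ + z * Real.cos θ)) : ℝ))
          (-(2 * π * Real.sin θ)) v := by
        have h := ((((hasDerivAt_id' v).mul_const (Real.sin θ)).add_const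
          (z * Real.cos θ)).const_mul (2 * π)).neg
        have e : (2 * π * (1 * Real.sin θ)) = 2 * π * Real.sin θ := by ring
        rw [e] at h
        exact h
      exact h0.ofReal_comp.mul_const Complex.I
    have h2 := (h1.cexp).const_mul (sinD f k θ)
    refine h2.congr_deriv ?_
    unfold sinD
    push_cast
    ring

lemma continuous_P_cos (f : ℝ → ℂ) (hf : Measurable f) (hb : ∀ θ, ‖f θ‖ ≤ 1) (k : ℕ) (ρ z : ℝ) :
    Continuous fun u : ℝ => P (sinD f k) (ρ * Real.cos u) z := by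
  have h1 : Continuous fun v : ℝ => P (sinD f k) v z :=
    continuous_iff_continuousAt.2 fun v => (hasDerivAt_P f hf hb k v z).continuousAt
  exact h1.comp (by fun_prop : Continuous fun u : ℝ => ρ * Real.cos u)

lemma hasDerivAt_P_cos (f : ℝ → ℂ) (hf : Measurable f) (hb : ∀ θ, ‖f θ‖ ≤ 1) (k : ℕ)
    (ρ z u : ℝ) : HasDerivAt (fun u : ℝ => P (sinD f k) (ρ * Real.cos u) z)
      (((2 * π * ρ * Real.sin u : ℝ) : ℂ) * Complex.I * P (sinD f (k + 1)) (ρ * Real.cos u) z) u := by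
  have h1 := hasDerivAt_P f hf hb k (ρ * Real.cos u) z
  have h2 : HasDerivAt (fun u : ℝ => ρ * Real.cos u) (ρ * (-Real.sin u)) u :=
    (Real.hasDerivAt_cos u).const_mul ρ
  have h3 := HasDerivAt.scomp u h1 h2
  refine h3.congr_deriv ?_
  rw [Complex.real_smul]
  push_cast
  ring

/-- The exceptional neighbourhood of the poles of a great circle. -/
def nearSet (δ : ℝ) : Set ℝ := Ioo 0 π \ Ioc δ (π - δ)

lemma measurableSet_nearSet (δ : ℝ) : MeasurableSet (nearSet δ) :=
  measurableSet_Ioo.diff measurableSet_Ioc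

lemma norm_akern_real_le {j : ℕ} {r Z A B : ℝ} (hr : 0 < r) (hZ : 0 < Z)
    (hAB : A ^ 2 + B ^ 2 ≤ 1) {u : ℝ} (hu : u ∈ Ioo 0 π) :
    ‖akern j r Z A B (u : ℂ)‖ ≤ amaj j r Z A B u := by
  have hs : 0 ≤ Real.sin u := (Real.sin_pos_of_mem_Ioo hu).le
  rw [akern_ofReal, Complex.norm_real, Real.norm_eq_abs, abs_of_nonneg (by positivity)]
  unfold amaj
  set U := A * Real.cos u + B * Real.sin u with hU
  have hU1 : U ≤ 1 := by
    have h1 : U ^ 2 ≤ 1 := by
      have := Real.sin_sq_add_cos_sq u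
      have h2 : U ^ 2 ≤ (A ^ 2 + B ^ 2) * (Real.cos u ^ 2 + Real.sin u ^ 2) := by
        rw [hU]; nlinarith [sq_nonneg (A * Real.sin u - B * Real.cos u)]
      calc U ^ 2 ≤ (A ^ 2 + B ^ 2) * (Real.cos u ^ 2 + Real.sin u ^ 2) := h2
        _ = (A ^ 2 + B ^ 2) := by rw [add_comm (Real.cos u ^ 2), this, mul_one]
        _ ≤ 1 := hAB
    nlinarith
  have h3 : Real.exp (r * (U - 1)) ≤ Real.exp (-(r / 2 * (1 - U))) := by
    refine Real.exp_le_exp.2 ?_
    nlinarith
  have h4 : (1:ℝ) ≤ Real.exp 1 * 6 ^ j := by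
    have h5 : (1:ℝ) ≤ Real.exp 1 := Real.one_le_exp (by norm_num)
    have h6 : (1:ℝ) ≤ 6 ^ j := one_le_pow₀ (by norm_num)
    nlinarith
  calc Z⁻¹ * Real.exp (r * (U - 1)) * Real.sin u ^ j
      ≤ Z⁻¹ * Real.exp (-(r / 2 * (1 - U))) * Real.sin u ^ j := by gcongr
    _ ≤ (Real.exp 1 * 6 ^ j) * (Z⁻¹ * Real.exp (-(r / 2 * (1 - U))) * Real.sin u ^ j) :=
        le_mul_of_one_le_left (by positivity) h4
    _ = _ := by ring

lemma amaj_nonneg {j : ℕ} {r Z A B : ℝ} (hZ : 0 < Z) {u : ℝ} (hu : 0 ≤ Real.sin u) :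
    0 ≤ amaj j r Z A B u := by
  unfold amaj
  positivity

lemma ofReal_mul_norm {a : ℝ} (h : 0 ≤ a) (y : ℂ) :
    ENNReal.ofReal (a * ‖y‖) = ENNReal.ofReal a * ‖y‖ₑ := by
  rw [ENNReal.ofReal_mul h, ofReal_norm]

theorem great_circle (j : ℕ) : ∃ C : ℝ, 0 < C ∧ ∀ r δ Z A B ρ z : ℝ, 0 < δ → δ ≤ 1 →
    r * δ ^ 2 = 1 → 0 < Z → A ^ 2 + B ^ 2 ≤ 1 → r ≤ ρ → ∀ f : ℝ → ℂ, Measurable f →
    (∀ θ, ‖f θ‖ ≤ 1) →
    ‖∫ u in Ioo 0 π, akern j r Z A B u * P (sinD f (j + 1)) (ρ * Real.cos u) z‖ₑ ≤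
      (∫⁻ u in nearSet δ, ENNReal.ofReal (amaj j r Z A B u) *
        ‖P (sinD f (j + 1)) (ρ * Real.cos u) z‖ₑ) +
      (∑ k ∈ Finset.range (j + 1),
        (ENNReal.ofReal (C * δ * amaj j r Z A B δ) * ‖P (sinD f k) (ρ * Real.cos δ) z‖ₑ +
        ENNReal.ofReal (C * δ * amaj j r Z A B (π - δ)) *
          ‖P (sinD f k) (ρ * Real.cos (π - δ)) z‖ₑ)) +
      ∫⁻ u in Ioc δ (π - δ), ENNReal.ofReal (C * δ ^ (j + 1) * (amaj j r Z A B u / Real.sin u ^ (j + 1))) *
        ‖P (sinD f 0) (ρ * Real.cos u) z‖ₑ := by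
  obtain ⟨C, hC, H⟩ := far_bound (j + 1)
  refine ⟨C, hC, fun r δ Z A B ρ z hδ hδ1 hrδ hZ hAB hρ f hf hb => ?_⟩
  have hπ := Real.pi_gt_three
  have hr : 0 < r := by
    by_contra h
    push Not at h
    have : r * δ ^ 2 ≤ 0 := mul_nonpos_of_nonpos_of_nonneg h (by positivity)
    linarith
  have hδρ : 1 / δ ^ 2 ≤ ρ := by
    have : 1 / δ ^ 2 = r := by field_simp; linarith
    rw [this]; exact hρ
  set F : ℝ → ℂ := fun u => akern j r Z A B u * P (sinD f (j + 1)) (ρ * Real.cos u) z with hF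
  have hak : Continuous fun u : ℝ => akern j r Z A B (u : ℂ) :=
    (differentiable_akern j r Z A B).continuous.comp Complex.continuous_ofReal
  have hFc : Continuous F := hak.mul (continuous_P_cos f hf hb (j + 1) ρ z)
  have hFi : IntegrableOn F (Ioo 0 π) :=
    (hFc.integrableOn_Icc (a := 0) (b := π)).mono_set Ioo_subset_Icc_self
  have hsub : Ioc δ (π - δ) ⊆ Ioo 0 π := fun u hu => ⟨by linarith [hu.1], by linarith [hu.2]⟩
  have hle : δ ≤ π - δ := by linarith
  -- splitting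
  have hsplit : ∫ u in Ioo 0 π, F u = (∫ u in nearSet δ, F u) + ∫ u in δ..(π - δ), F u := by
    rw [intervalIntegral.integral_of_le hle]
    have h1 := integral_inter_add_sdiff (μ := volume) (f := F) (s := Ioo 0 π)
      (t := Ioc δ (π - δ)) measurableSet_Ioc hFi
    rw [inter_eq_right.2 hsub] at h1
    rw [← h1, add_comm]
    rfl
  -- the far part
  have hfar := H δ hδ hδ1 (akern j r Z A B) (differentiable_akern j r Z A B) (amaj j r Z A B)
    (continuous_amaj j r Z A B).continuousOn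
    (fun u hu w hw => norm_akern_le hδ hδ1 hrδ hZ hAB hu hw) ρ hδρ
    (fun k u => P (sinD f (j + 1 - k)) (ρ * Real.cos u) z)
    (fun k => continuous_P_cos f hf hb _ ρ z)
    (fun k hk u _ => by
      have h1 := hasDerivAt_P_cos f hf hb (j + 1 - (k + 1)) ρ z u
      have h2 : j + 1 - (k + 1) + 1 = j + 1 - k := by omega
      rw [h2] at h1
      exact h1)
  simp only [Nat.sub_zero] at hfar
  have hsin : ∀ u ∈ Icc δ (π - δ), 0 < Real.sin u := fun u hu =>
    Real.sin_pos_of_mem_Ioo ⟨by linarith [hu.1], by linarith [hu.2]⟩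
  have hcontG : ContinuousOn (fun u => amaj j r Z A B u / Real.sin u ^ (j + 1) *
      ‖P (sinD f 0) (ρ * Real.cos u) z‖) (Icc δ (π - δ)) := by
    refine ContinuousOn.mul ?_ (continuous_P_cos f hf hb 0 ρ z).norm.continuousOn
    refine (continuous_amaj j r Z A B).continuousOn.div (by fun_prop) ?_
    intro u hu
    exact pow_ne_zero _ (hsin u hu).ne'
  have hint : ENNReal.ofReal (∫ u in δ..(π - δ), amaj j r Z A B u / Real.sin u ^ (j + 1) *
      ‖P (sinD f 0) (ρ * Real.cos u) z‖) =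
      ∫⁻ u in Ioc δ (π - δ), ENNReal.ofReal (amaj j r Z A B u / Real.sin u ^ (j + 1)) *
        ‖P (sinD f 0) (ρ * Real.cos u) z‖ₑ := by
    rw [intervalIntegral.integral_of_le hle, ofReal_integral_eq_lintegral_ofReal]
    · refine setLIntegral_congr_fun measurableSet_Ioc fun u hu => ?_
      have hs := hsin u ⟨hu.1.le, hu.2⟩
      rw [ENNReal.ofReal_mul (div_nonneg (amaj_nonneg hZ hs.le) (by positivity)), ofReal_norm]
    · exact (hcontG.integrableOn_Icc).mono_set Ioc_subset_Icc_self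
    · refine (ae_restrict_iff' measurableSet_Ioc).2 (Filter.Eventually.of_forall fun u hu => ?_)
      have hs := hsin u ⟨hu.1.le, hu.2⟩
      have := amaj_nonneg (j := j) (r := r) (A := A) (B := B) hZ hs.le
      simp only [Pi.zero_apply]
      positivity
  have hnear : ‖∫ u in nearSet δ, F u‖ₑ ≤ ∫⁻ u in nearSet δ, ENNReal.ofReal (amaj j r Z A B u) *
        ‖P (sinD f (j + 1)) (ρ * Real.cos u) z‖ₑ := by
    refine (enorm_integral_le_lintegral_enorm _).trans ?_
    refine setLIntegral_mono' (measurableSet_nearSet δ) fun u hu => ?_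
    rw [hF]
    simp only
    rw [enorm_mul]
    gcongr
    rw [← ofReal_norm]
    exact ENNReal.ofReal_le_ofReal (norm_akern_real_le hr hZ hAB hu.1)
  rw [hsplit]
  refine (enorm_add_le _ _).trans ?_
  rw [add_assoc]
  refine add_le_add hnear ?_
  rw [← ofReal_norm]
  refine (ENNReal.ofReal_le_ofReal hfar).trans ?_
  have hδmem : δ ∈ Icc δ (π - δ) := ⟨le_rfl, hle⟩
  have hδmem' : π - δ ∈ Icc δ (π - δ) := ⟨hle, le_rfl⟩
  have ha1 := amaj_nonneg (j := j) (r := r) (A := A) (B := B) hZ (hsin _ hδmem).le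
  have ha2 := amaj_nonneg (j := j) (r := r) (A := A) (B := B) hZ (hsin _ hδmem').le
  rw [mul_add, ENNReal.ofReal_add (by positivity) (by
    refine mul_nonneg hC.le (mul_nonneg (by positivity) ?_)
    refine intervalIntegral.integral_nonneg hle fun u hu => ?_
    have hs := hsin u hu
    have := amaj_nonneg (j := j) (r := r) (A := A) (B := B) hZ hs.le
    positivity)]
  refine add_le_add ?_ ?_
  · rw [← mul_assoc, Finset.mul_sum, ENNReal.ofReal_sum_of_nonneg (fun k _ => by positivity)]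
    -- reindexing k ↦ j - k
    rw [← Finset.sum_range_reflect]
    refine Finset.sum_le_sum fun k hk => ?_
    have hk' : k < j + 1 := Finset.mem_range.1 hk
    have e1 : j + 1 - (j + 1 - 1 - k + 1) = k := by omega
    rw [e1, mul_add, ENNReal.ofReal_add (by positivity) (by positivity), ← mul_assoc, ← mul_assoc,
      ofReal_mul_norm (by positivity), ofReal_mul_norm (by positivity)]
  · rw [← mul_assoc, ENNReal.ofReal_mul (by positivity)]
    have e2 : j + 1 - (j + 1) = 0 := by omega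
    simp only [e2]
    rw [hint, ← lintegral_const_mul' _ _ ENNReal.ofReal_ne_top]
    refine setLIntegral_mono' measurableSet_Ioc fun u hu => ?_
    rw [ENNReal.ofReal_mul (by positivity : (0:ℝ) ≤ C * δ ^ (j + 1)), ENNReal.ofReal_mul hC.le]
    simp only [mul_assoc]
    exact le_rfl

end Pool.Agent.MP_6cbfb8_an
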