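import Pool.Agent.MP_6cbfb8_an.Low4

/-!
Representation of the mollified extension along great circles through the last basis vector.
-/

namespace Pool.Agent.MP_6cbfb8_an

open MeasureTheory Set
open scoped ENNReal Real RealInnerProductSpace

section

variable {j : ℕ}

/-- The phase of the planar extension. -/
noncomputable def pht (ρ z θ c : ℝ) : ℂ :=
  Complex.exp (((-(2 * π * (ρ * c * Real.sin θ + z * Real.cos θ)) : ℝ) : ℂ) * Complex.I)

lemma norm_pht (ρ z θ c : ℝ) : ‖pht ρ z θ c‖ = 1 := norm_phase _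

lemma ker_le_one {n : ℕ} {r : ℝ} (hr : 0 ≤ r) (x y : E n) : ker r x y ≤ 1 := by
  unfold ker
  rw [Real.exp_le_one_iff]
  have : 0 ≤ r / 2 * ‖x - y‖ ^ 2 := by positivity
  linarith

/-- The real kernel. -/
noncomputable def kr (r Z : ℝ) (q : (S (j + 2) × S (j + 1)) × ℝ) : ℝ :=
  Z⁻¹ * ker r (pt q.2 (q.1.2 : E (j + 1))) (q.1.1 : E (j + 2)) * Real.sin q.2 ^ j

lemma continuous_kr (r Z : ℝ) : Continuous (kr r Z : (S (j + 2) × S (j + 1)) × ℝ → ℝ) := by
  unfold kr
  have h1 : Continuous fun q : (S (j + 2) × S (j + 1)) × ℝ => pt q.2 (q.1.2 : E (j + 1)) :=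
    continuous_pt.comp (f := fun q : (S (j + 2) × S (j + 1)) × ℝ => (q.2, (q.1.2 : E (j + 1))))
      (by fun_prop)
  have h2 : Continuous fun q : (S (j + 2) × S (j + 1)) × ℝ =>
      ker r (pt q.2 (q.1.2 : E (j + 1))) (q.1.1 : E (j + 2)) :=
    (ker_continuous₂ r).comp (f := fun q : (S (j + 2) × S (j + 1)) × ℝ =>
      (pt q.2 (q.1.2 : E (j + 1)), (q.1.1 : E (j + 2)))) (h1.prodMk (by fun_prop))
  fun_prop

lemma abs_kr_le {r Z : ℝ} (hr : 0 ≤ r) (hZ : 0 < Z) (q : (S (j + 2) × S (j + 1)) × ℝ) :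
    |kr r Z q| ≤ Z⁻¹ := by
  unfold kr
  rw [abs_mul, abs_mul, abs_of_pos (inv_pos.2 hZ), abs_of_pos (ker_pos _ _ _), abs_pow]
  have h1 := ker_le_one hr (pt q.2 (q.1.2 : E (j + 1))) (q.1.1 : E (j + 2))
  have h2 : |Real.sin q.2| ^ j ≤ 1 := pow_le_one₀ (abs_nonneg _) (Real.abs_sin_le_one _)
  calc Z⁻¹ * ker r (pt q.2 (q.1.2 : E (j + 1))) (q.1.1 : E (j + 2)) * |Real.sin q.2| ^ j
      ≤ Z⁻¹ * 1 * 1 := by
        have := ker_pos r (pt q.2 (q.1.2 : E (j + 1))) (q.1.1 : E (j + 2))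
        gcongr
    _ = Z⁻¹ := by ring

theorem cyl_moll_eq (r : ℝ) (hr : 0 ≤ r) (g : ℝ → E (j + 2) → ℂ)
    (hg : Measurable (Function.uncurry g)) (hb : ∀ θ x, ‖g θ x‖ ≤ 1) (ρ z : ℝ) :
    cyl j (fun θ => moll r (g θ)) (ρ • eLast (j + 1)) z =
      ∫ q : S (j + 2) × S (j + 1), (∫ u in Ioo 0 π,
        akern j r (kerMass r (eLast (j + 1))) ((q.1 : E (j + 2)) (Fin.last (j + 1)))
          (inner ℝ (q.2 : E (j + 1)) (initE (q.1 : E (j + 2)))) u *
        P (sinD (fun θ => g θ q.1) (j + 1)) (ρ * Real.cos u) z) ∂((sm (j + 2)).prod (sm (j + 1))) := by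
  set Z := kerMass r (eLast (j + 1)) with hZdef
  have hZ : 0 < Z := kerMass_pos r _
  have hZx : ∀ x : S (j + 2), kerMass r (x : E (j + 2)) = Z := fun x =>
    kerMass_eq r x ⟨eLast (j + 1), by simp [norm_eLast]⟩
  -- the full integrand
  set Φ : ℝ → (S (j + 2) × S (j + 1)) × ℝ → ℂ := fun θ q =>
    ((kr r Z q : ℝ) : ℂ) * (g θ q.1.1 * pht ρ z θ (Real.cos q.2)) with hΦ
  have hΦm : Measurable fun x : ℝ × ((S (j + 2) × S (j + 1)) × ℝ) => Φ x.1 x.2 := by
    have h1 : Measurable fun x : ℝ × ((S (j + 2) × S (j + 1)) × ℝ) => ((kr r Z x.2 : ℝ) : ℂ) :=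
      Complex.measurable_ofReal.comp ((continuous_kr r Z).measurable.comp measurable_snd)
    have h2 : Measurable fun x : ℝ × ((S (j + 2) × S (j + 1)) × ℝ) => g x.1 (x.2.1.1 : E (j + 2)) :=
      hg.comp (f := fun x : ℝ × ((S (j + 2) × S (j + 1)) × ℝ) => (x.1, (x.2.1.1 : E (j + 2))))
        (by fun_prop)
    have h3 : Measurable fun x : ℝ × ((S (j + 2) × S (j + 1)) × ℝ) =>
        pht ρ z x.1 (Real.cos x.2.2) := by
      unfold pht; fun_prop
    exact h1.mul (h2.mul h3)
  have hΦb : ∀ θ q, ‖Φ θ q‖ ≤ Z⁻¹ := by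
    intro θ q
    rw [hΦ]
    simp only
    rw [norm_mul, norm_mul, norm_pht, mul_one, Complex.norm_real, Real.norm_eq_abs]
    calc |kr r Z q| * ‖g θ q.1.1‖ ≤ Z⁻¹ * 1 := by
          have := abs_kr_le hr hZ q
          have h0 : 0 ≤ Z⁻¹ := by positivity
          exact mul_le_mul this (hb _ _) (norm_nonneg _) h0
      _ = Z⁻¹ := mul_one _
  -- Step A
  have hA : ∀ θ, (∫ ω : S (j + 2), moll r (g θ) ω *
      Complex.exp (((-(2 * π * (Real.sin θ * inner ℝ (ω : E (j + 2)) (ρ • eLast (j + 1)) +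
        z * Real.cos θ)) : ℝ) : ℂ) * Complex.I) ∂(sm (j + 2))) =
      ∫ q : (S (j + 2) × S (j + 1)) × ℝ, Φ θ q
        ∂(((sm (j + 2)).prod (sm (j + 1))).prod (volume.restrict (Ioo 0 π))) := by
    intro θ
    have hgθ : Measurable (g θ) := hg.comp (f := fun x : E (j + 2) => (θ, x)) (by fun_prop)
    set Ψ : S (j + 2) → S (j + 2) → ℂ := fun ω y =>
      ((Z⁻¹ * ker r (ω : E (j + 2)) (y : E (j + 2)) : ℝ) : ℂ) *
        (g θ y * pht ρ z θ ((ω : E (j + 2)) (Fin.last (j + 1)))) with hΨ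
    have hΨm : Measurable fun x : S (j + 2) × S (j + 2) => Ψ x.1 x.2 := by
      have h1 : Measurable fun x : S (j + 2) × S (j + 2) =>
          ((Z⁻¹ * ker r (x.1 : E (j + 2)) (x.2 : E (j + 2)) : ℝ) : ℂ) := by
        have h0 : Continuous fun x : S (j + 2) × S (j + 2) =>
            Z⁻¹ * ker r (x.1 : E (j + 2)) (x.2 : E (j + 2)) := by
          have := (ker_continuous₂ (n := j + 2) r).comp (f := fun x : S (j + 2) × S (j + 2) =>
            ((x.1 : E (j + 2)), (x.2 : E (j + 2)))) (by fun_prop)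
          exact continuous_const.mul this
        exact Complex.measurable_ofReal.comp h0.measurable
      have h3 : Measurable fun x : S (j + 2) × S (j + 2) =>
          pht ρ z θ ((x.1 : E (j + 2)) (Fin.last (j + 1))) := by
        unfold pht; fun_prop
      exact h1.mul ((hgθ.comp (by fun_prop)).mul h3)
    have hΨb : ∀ ω y, ‖Ψ ω y‖ ≤ Z⁻¹ := by
      intro ω y
      rw [hΨ]
      simp only
      rw [norm_mul, norm_mul, norm_pht, mul_one, Complex.norm_real, Real.norm_eq_abs, abs_mul,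
        abs_of_pos (inv_pos.2 hZ), abs_of_pos (ker_pos _ _ _)]
      calc Z⁻¹ * ker r (ω : E (j + 2)) (y : E (j + 2)) * ‖g θ y‖ ≤ Z⁻¹ * 1 * 1 := by
            have h0 : 0 ≤ Z⁻¹ := by positivity
            have := ker_pos r (ω : E (j + 2)) (y : E (j + 2))
            gcongr
            · exact ker_le_one hr _ _
            · exact hb _ _
        _ = Z⁻¹ := by ring
    have hΨi : Integrable (fun x : S (j + 2) × S (j + 2) => Ψ x.1 x.2)
        ((sm (j + 2)).prod (sm (j + 2))) :=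
      Integrable.of_bound hΨm.aestronglyMeasurable Z⁻¹ (Filter.Eventually.of_forall fun x => hΨb _ _)
    have e1 : ∀ ω : S (j + 2), moll r (g θ) ω *
      Complex.exp (((-(2 * π * (Real.sin θ * inner ℝ (ω : E (j + 2)) (ρ • eLast (j + 1)) +
        z * Real.cos θ)) : ℝ) : ℂ) * Complex.I) = ∫ y : S (j + 2), Ψ ω y ∂(sm (j + 2)) := by
      intro ω
      unfold moll
      rw [hZx ω]
      have e2 : Complex.exp (((-(2 * π * (Real.sin θ * inner ℝ (ω : E (j + 2)) (ρ • eLast (j + 1)) +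
        z * Real.cos θ)) : ℝ) : ℂ) * Complex.I) = pht ρ z θ ((ω : E (j + 2)) (Fin.last (j + 1))) := by
        unfold pht
        rw [inner_smul_right, inner_eLast]
        congr 3
        ring
      rw [e2, div_mul_eq_mul_div, ← integral_mul_const, ← integral_div]
      refine integral_congr_ae (Filter.Eventually.of_forall fun y => ?_)
      simp only [hΨ]
      push_cast
      field_simp
    calc _ = ∫ ω : S (j + 2), (∫ y : S (j + 2), Ψ ω y ∂(sm (j + 2))) ∂(sm (j + 2)) := by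
          refine integral_congr_ae (Filter.Eventually.of_forall fun ω => e1 ω)
      _ = ∫ y : S (j + 2), (∫ ω : S (j + 2), Ψ ω y ∂(sm (j + 2))) ∂(sm (j + 2)) :=
          integral_integral_swap hΨi
      _ = ∫ y : S (j + 2), (∫ ν : S (j + 1), (∫ u in Ioo 0 π, Φ θ ((y, ν), u)) ∂(sm (j + 1)))
            ∂(sm (j + 2)) := by
          refine integral_congr_ae (Filter.Eventually.of_forall fun y => ?_)
          simp only
          have hi : Integrable (fun ω => Ψ ω y) (sm (j + 2)) :=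
            Integrable.of_bound (hΨm.comp (f := fun ω : S (j + 2) => (ω, y))
              (by fun_prop)).aestronglyMeasurable Z⁻¹ (Filter.Eventually.of_forall fun x => hΨb _ _)
          rw [integral_slice j _ hi]
          refine integral_congr_ae (Filter.Eventually.of_forall fun ν => ?_)
          simp only
          refine integral_congr_ae (Filter.Eventually.of_forall fun u => ?_)
          simp only [hΨ, hΦ, kr, pt_last]
          push_cast
          ring
      _ = ∫ q : S (j + 2) × S (j + 1), (∫ u in Ioo 0 π, Φ θ (q, u)) ∂((sm (j + 2)).prod (sm (j + 1))) := by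
          rw [integral_prod]
          refine Integrable.of_bound (C := Z⁻¹ * (volume.restrict (Ioo 0 π)).real univ) ?_ ?_
          · have := (hΦm.comp (f := fun x : (S (j + 2) × S (j + 1)) × ℝ => (θ, x))
              (by fun_prop)).stronglyMeasurable.integral_prod_right' (ν := volume.restrict (Ioo 0 π))
            exact this.aestronglyMeasurable
          · refine Filter.Eventually.of_forall fun q => ?_
            exact norm_integral_le_of_norm_le_const (Filter.Eventually.of_forall fun u => hΦb θ (q, u))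
      _ = _ := by
          have hΦi : Integrable (fun q : (S (j + 2) × S (j + 1)) × ℝ => Φ θ q)
              (((sm (j + 2)).prod (sm (j + 1))).prod (volume.restrict (Ioo 0 π))) :=
            Integrable.of_bound (hΦm.comp (f := fun x : (S (j + 2) × S (j + 1)) × ℝ => (θ, x))
              (by fun_prop)).aestronglyMeasurable Z⁻¹ (Filter.Eventually.of_forall fun x => hΦb _ _)
          exact (integral_prod _ hΦi).symm
  -- Step B
  unfold cyl
  have e3 : (∫ θ in Ioo 0 π, (∫ ω : S (j + 2), moll r (g θ) ω *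
      Complex.exp (((-(2 * π * (Real.sin θ * inner ℝ (ω : E (j + 2)) (ρ • eLast (j + 1)) +
        z * Real.cos θ)) : ℝ) : ℂ) * Complex.I) ∂(sm (j + 2))) * ((Real.sin θ ^ (j + 1) : ℝ) : ℂ)) =
      ∫ θ in Ioo 0 π, (∫ q : (S (j + 2) × S (j + 1)) × ℝ, Φ θ q * ((Real.sin θ ^ (j + 1) : ℝ) : ℂ)
        ∂(((sm (j + 2)).prod (sm (j + 1))).prod (volume.restrict (Ioo 0 π)))) := by
    refine integral_congr_ae (Filter.Eventually.of_forall fun θ => ?_)
    simp only
    rw [hA θ, ← integral_mul_const]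
  rw [e3]
  have hm2 : Measurable fun x : ℝ × ((S (j + 2) × S (j + 1)) × ℝ) =>
      Φ x.1 x.2 * ((Real.sin x.1 ^ (j + 1) : ℝ) : ℂ) := hΦm.mul (by fun_prop)
  have hb2 : ∀ θ q, ‖Φ θ q * ((Real.sin θ ^ (j + 1) : ℝ) : ℂ)‖ ≤ Z⁻¹ := by
    intro θ q
    rw [norm_mul, Complex.norm_real, Real.norm_eq_abs, abs_pow]
    have h2 : |Real.sin θ| ^ (j + 1) ≤ 1 := pow_le_one₀ (abs_nonneg _) (Real.abs_sin_le_one _)
    calc ‖Φ θ q‖ * |Real.sin θ| ^ (j + 1) ≤ Z⁻¹ * 1 := by
          have h0 : 0 ≤ Z⁻¹ := by positivity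
          exact mul_le_mul (hΦb θ q) h2 (by positivity) h0
      _ = Z⁻¹ := mul_one _
  rw [integral_integral_swap (f := fun (θ : ℝ) (q : (S (j + 2) × S (j + 1)) × ℝ) =>
      Φ θ q * ((Real.sin θ ^ (j + 1) : ℝ) : ℂ))
    (Integrable.of_bound hm2.aestronglyMeasurable Z⁻¹ (Filter.Eventually.of_forall fun x => hb2 _ _))]
  rw [integral_prod]
  swap
  · refine Integrable.of_bound (C := Z⁻¹ * (volume.restrict (Ioo 0 π)).real univ) ?_ ?_
    · have hm3 : Measurable fun x : ((S (j + 2) × S (j + 1)) × ℝ) × ℝ =>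
          Φ x.2 x.1 * ((Real.sin x.2 ^ (j + 1) : ℝ) : ℂ) :=
        hm2.comp (f := fun x : ((S (j + 2) × S (j + 1)) × ℝ) × ℝ => (x.2, x.1)) (by fun_prop)
      exact (hm3.stronglyMeasurable.integral_prod_right'
        (ν := volume.restrict (Ioo 0 π))).aestronglyMeasurable
    · refine Filter.Eventually.of_forall fun q => ?_
      exact norm_integral_le_of_norm_le_const (Filter.Eventually.of_forall fun u => hb2 _ _)
  refine integral_congr_ae (Filter.Eventually.of_forall fun q => ?_)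
  simp only
  refine integral_congr_ae (Filter.Eventually.of_forall fun u => ?_)
  simp only
  rw [akern_eq]
  unfold P
  rw [← integral_const_mul]
  refine integral_congr_ae (Filter.Eventually.of_forall fun θ => ?_)
  simp only [hΦ, kr, sinD, pht]
  ring

end

end Pool.Agent.MP_6cbfb8_an
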