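import Pool.Agent.MP_6cbfb8_an.Low5
import Pool.Agent.MP_6cbfb8_an.PlanarLp

/-!
Integrals of the majorant and of the weights.
-/

namespace Pool.Agent.MP_6cbfb8_an

open MeasureTheory Set
open scoped ENNReal Real RealInnerProductSpace

/-- The majorant integrated in the two spherical variables. -/
theorem lintegral_amaj_le (j : ℕ) : ∃ A₀ : ℝ, 0 < A₀ ∧ ∀ r : ℝ, 1 ≤ r → ∀ u ∈ Ioo 0 π,
    ∫⁻ q : S (j + 2) × S (j + 1), ENNReal.ofReal (amaj j r (kerMass r (eLast (j + 1)))
      ((q.1 : E (j + 2)) (Fin.last (j + 1))) (inner ℝ (q.2 : E (j + 1)) (initE (q.1 : E (j + 2)))) u)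
      ∂((sm (j + 2)).prod (sm (j + 1))) ≤ ENNReal.ofReal (A₀ * Real.sin u ^ j) := by
  obtain ⟨C, hC, hG⟩ := gauss_upper j
  obtain ⟨c, hc, hM⟩ := kerMass_ge j
  set σ : ℝ := ((sm (j + 1)) univ).toReal with hσ
  refine ⟨(Real.exp 1 * 6 ^ j) * (C * 2 ^ (j + 1) / c) * (σ + 1), by positivity, fun r hr u hu => ?_⟩
  have hr0 : 0 < r := by linarith
  have hs : 0 ≤ Real.sin u := (Real.sin_pos_of_mem_Ioo hu).le
  set Z := kerMass r (eLast (j + 1)) with hZ
  have hZc : c * r ^ (-(((j : ℝ) + 1) / 2)) ≤ Z :=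
    hM r hr ⟨eLast (j + 1), by simp [norm_eLast]⟩
  have hZ0 : 0 < Z := kerMass_pos r _
  set R : ℝ := Real.sqrt r / 2 with hR
  have hR0 : 0 < R := by positivity
  have hR2 : R ^ 2 = r / 4 := by
    rw [hR, div_pow, Real.sq_sqrt hr0.le]; norm_num
  have hRj : R ^ (j + 1) = r ^ (((j : ℝ) + 1) / 2) / 2 ^ (j + 1) := by
    rw [hR, div_pow, Real.sqrt_eq_rpow, ← Real.rpow_natCast, ← Real.rpow_mul hr0.le]
    congr 2
    push_cast
    ring
  have hZR : Z⁻¹ * (C / R ^ (j + 1)) ≤ C * 2 ^ (j + 1) / c := by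
    rw [hRj]
    have h1 : (0:ℝ) < r ^ (((j : ℝ) + 1) / 2) := by positivity
    have h2 : r ^ (-(((j : ℝ) + 1) / 2)) = (r ^ (((j : ℝ) + 1) / 2))⁻¹ := Real.rpow_neg hr0.le _
    have h3 : Z⁻¹ ≤ (c * (r ^ (((j : ℝ) + 1) / 2))⁻¹)⁻¹ := by
      rw [← h2]
      exact inv_anti₀ (by positivity) hZc
    calc Z⁻¹ * (C / (r ^ (((j : ℝ) + 1) / 2) / 2 ^ (j + 1)))
        ≤ (c * (r ^ (((j : ℝ) + 1) / 2))⁻¹)⁻¹ * (C / (r ^ (((j : ℝ) + 1) / 2) / 2 ^ (j + 1))) := by
          gcongr
      _ = C * 2 ^ (j + 1) / c := by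
          field_simp
  set D : ℝ := Z⁻¹ * (Real.exp 1 * 6 ^ j) * Real.sin u ^ j with hD
  have hD0 : 0 ≤ D := by positivity
  have hcont : Measurable fun q : S (j + 2) × S (j + 1) =>
      ENNReal.ofReal (Real.exp (-(R ^ 2 * ‖pt u (q.2 : E (j + 1)) - (q.1 : E (j + 2))‖ ^ 2))) := by
    have h1 : Continuous fun q : S (j + 2) × S (j + 1) => pt u (q.2 : E (j + 1)) :=
      continuous_pt.comp (f := fun q : S (j + 2) × S (j + 1) => (u, (q.2 : E (j + 1))))
        (by fun_prop)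
    have h2 : Continuous fun q : S (j + 2) × S (j + 1) =>
        Real.exp (-(R ^ 2 * ‖pt u (q.2 : E (j + 1)) - (q.1 : E (j + 2))‖ ^ 2)) := by
      have h3 : Continuous fun q : S (j + 2) × S (j + 1) => (q.1 : E (j + 2)) := by fun_prop
      exact Real.continuous_exp.comp ((continuous_const.mul ((h1.sub h3).norm.pow 2)).neg)
    exact h2.measurable.ennreal_ofReal
  calc ∫⁻ q : S (j + 2) × S (j + 1), ENNReal.ofReal (amaj j r Z
      ((q.1 : E (j + 2)) (Fin.last (j + 1))) (inner ℝ (q.2 : E (j + 1)) (initE (q.1 : E (j + 2)))) u)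
      ∂((sm (j + 2)).prod (sm (j + 1)))
      = ∫⁻ q : S (j + 2) × S (j + 1), ENNReal.ofReal D *
        ENNReal.ofReal (Real.exp (-(R ^ 2 * ‖pt u (q.2 : E (j + 1)) - (q.1 : E (j + 2))‖ ^ 2)))
        ∂((sm (j + 2)).prod (sm (j + 1))) := by
        refine lintegral_congr fun q => ?_
        rw [← ENNReal.ofReal_mul hD0, amaj_eq, hR2]
        congr 1
        rw [hD]; ring
    _ = ENNReal.ofReal D * ∫⁻ ν : S (j + 1), (∫⁻ y : S (j + 2),
        ENNReal.ofReal (Real.exp (-(R ^ 2 * ‖pt u (ν : E (j + 1)) - (y : E (j + 2))‖ ^ 2)))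
        ∂(sm (j + 2))) ∂(sm (j + 1)) := by
        rw [lintegral_const_mul _ hcont, lintegral_prod_symm _ hcont.aemeasurable]
    _ ≤ ENNReal.ofReal D * ∫⁻ _ν : S (j + 1), ENNReal.ofReal (C / R ^ (j + 1)) ∂(sm (j + 1)) := by
        refine mul_le_mul' le_rfl (lintegral_mono fun ν => ?_)
        exact hG R hR0 _
    _ = ENNReal.ofReal D * (ENNReal.ofReal (C / R ^ (j + 1)) * ENNReal.ofReal σ) := by
        rw [lintegral_const, hσ, ENNReal.ofReal_toReal (measure_ne_top _ _)]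
    _ = ENNReal.ofReal (D * ((C / R ^ (j + 1)) * σ)) := by
        rw [ENNReal.ofReal_mul hD0, ENNReal.ofReal_mul (p := C / R ^ (j + 1)) (by positivity)]
    _ ≤ _ := by
        refine ENNReal.ofReal_le_ofReal ?_
        have hσ0 : 0 ≤ σ := ENNReal.toReal_nonneg
        calc D * ((C / R ^ (j + 1)) * σ)
            = (Real.exp 1 * 6 ^ j) * (Z⁻¹ * (C / R ^ (j + 1))) * σ * Real.sin u ^ j := by
              rw [hD]; ring
          _ ≤ (Real.exp 1 * 6 ^ j) * (C * 2 ^ (j + 1) / c) * (σ + 1) * Real.sin u ^ j := by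
              gcongr
              linarith

/-- The integral of a negative power of the cosine. -/
theorem lint_cos (b : ℝ) (hb : 0 ≤ b) (hb1 : b < 1) :
    ∫⁻ u in Ioo 0 π, ENNReal.ofReal (|Real.cos u| ^ (-b)) ≠ ∞ := by
  have hπ := Real.pi_pos
  have h0 := PlanarLp.lint_sin (1 - b) (by linarith) (by linarith)
  have e : (1 - b - 1) = -b := by ring
  rw [e] at h0
  set I := ∫⁻ θ in Ioo 0 π, ENNReal.ofReal (Real.sin θ ^ (-b)) with hI
  have hA : ∫⁻ u in Ioo 0 (π / 2), ENNReal.ofReal (|Real.cos u| ^ (-b)) ≤ I := by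
    calc ∫⁻ u in Ioo 0 (π / 2), ENNReal.ofReal (|Real.cos u| ^ (-b))
        = ∫⁻ u, (Ioo 0 (π / 2)).indicator (fun v => ENNReal.ofReal (Real.sin v ^ (-b)))
            (π / 2 - u) := by
          rw [← lintegral_indicator measurableSet_Ioo]
          refine lintegral_congr fun u => ?_
          by_cases hu : u ∈ Ioo 0 (π / 2)
          · have hu' : π / 2 - u ∈ Ioo 0 (π / 2) := ⟨by linarith [hu.2], by linarith [hu.1]⟩
            rw [indicator_of_mem hu, indicator_of_mem hu', Real.sin_pi_div_two_sub,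
              abs_of_pos (Real.cos_pos_of_mem_Ioo ⟨by linarith [hu.1], hu.2⟩)]
          · have hu' : π / 2 - u ∉ Ioo 0 (π / 2) := fun h => hu
              ⟨by linarith [h.2], by linarith [h.1]⟩
            rw [indicator_of_notMem hu, indicator_of_notMem hu']
      _ = ∫⁻ u, (Ioo 0 (π / 2)).indicator (fun v => ENNReal.ofReal (Real.sin v ^ (-b))) u :=
          lintegral_sub_left_eq_self _ _
      _ = ∫⁻ u in Ioo 0 (π / 2), ENNReal.ofReal (Real.sin u ^ (-b)) :=
          lintegral_indicator measurableSet_Ioo _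
      _ ≤ I := lintegral_mono_set (Ioo_subset_Ioo le_rfl (by linarith))
  have hB : ∫⁻ u in Ioo (π / 2) π, ENNReal.ofReal (|Real.cos u| ^ (-b)) ≤ I := by
    calc ∫⁻ u in Ioo (π / 2) π, ENNReal.ofReal (|Real.cos u| ^ (-b))
        = ∫⁻ u, (Ioo 0 (π / 2)).indicator (fun v => ENNReal.ofReal (Real.sin v ^ (-b)))
            (u - π / 2) := by
          rw [← lintegral_indicator measurableSet_Ioo]
          refine lintegral_congr fun u => ?_
          by_cases hu : u ∈ Ioo (π / 2) π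
          · have hu' : u - π / 2 ∈ Ioo 0 (π / 2) := ⟨by linarith [hu.1], by linarith [hu.2]⟩
            have hcos : Real.cos u < 0 := Real.cos_neg_of_pi_div_two_lt_of_lt hu.1
              (by linarith [hu.2])
            rw [indicator_of_mem hu, indicator_of_mem hu', Real.sin_sub_pi_div_two,
              abs_of_neg hcos]
          · have hu' : u - π / 2 ∉ Ioo 0 (π / 2) := fun h => hu
              ⟨by linarith [h.1], by linarith [h.2]⟩
            rw [indicator_of_notMem hu, indicator_of_notMem hu']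
      _ = ∫⁻ u, (Ioo 0 (π / 2)).indicator (fun v => ENNReal.ofReal (Real.sin v ^ (-b))) u :=
          lintegral_sub_right_eq_self _ _
      _ = ∫⁻ u in Ioo 0 (π / 2), ENNReal.ofReal (Real.sin u ^ (-b)) :=
          lintegral_indicator measurableSet_Ioo _
      _ ≤ I := lintegral_mono_set (Ioo_subset_Ioo le_rfl (by linarith))
  have hsub : Ioo 0 π ⊆ (Ioo 0 (π / 2) ∪ Ioo (π / 2) π) ∪ {π / 2} := by
    intro u hu
    rcases lt_trichotomy u (π / 2) with h | h | h
    · exact Or.inl (Or.inl ⟨hu.1, h⟩)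
    · exact Or.inr h
    · exact Or.inl (Or.inr ⟨h, hu.2⟩)
  refine ne_top_of_le_ne_top (b := I + I) (ENNReal.add_ne_top.2 ⟨h0, h0⟩) ?_
  calc ∫⁻ u in Ioo 0 π, ENNReal.ofReal (|Real.cos u| ^ (-b))
      ≤ ∫⁻ u in (Ioo 0 (π / 2) ∪ Ioo (π / 2) π) ∪ {π / 2}, ENNReal.ofReal (|Real.cos u| ^ (-b)) :=
        lintegral_mono_set hsub
    _ ≤ (∫⁻ u in Ioo 0 (π / 2) ∪ Ioo (π / 2) π, ENNReal.ofReal (|Real.cos u| ^ (-b))) +
        ∫⁻ u in {π / 2}, ENNReal.ofReal (|Real.cos u| ^ (-b)) := lintegral_union_le _ _ _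
    _ = ∫⁻ u in Ioo 0 (π / 2) ∪ Ioo (π / 2) π, ENNReal.ofReal (|Real.cos u| ^ (-b)) := by
        rw [setLIntegral_measure_zero _ _ Real.volume_singleton, add_zero]
    _ ≤ (∫⁻ u in Ioo 0 (π / 2), ENNReal.ofReal (|Real.cos u| ^ (-b))) +
        ∫⁻ u in Ioo (π / 2) π, ENNReal.ofReal (|Real.cos u| ^ (-b)) := lintegral_union_le _ _ _
    _ ≤ I + I := add_le_add hA hB

/-- The weighted integral over the far region. -/
theorem far_weight (b η : ℝ) (hb : 0 ≤ b) (hb1 : b < 1) (hη : 0 < η) (hη1 : η ≤ 1) :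
    ∃ K : ℝ≥0∞, K ≠ ∞ ∧ ∀ δ : ℝ, 0 < δ → δ ≤ 1 →
      ∫⁻ u in Ioc δ (π - δ), ENNReal.ofReal (1 / Real.sin u) *
        ENNReal.ofReal (1 + |Real.cos u| ^ (-b)) ≤ K * ENNReal.ofReal ((δ / 2) ^ (-η)) := by
  have hπ := Real.pi_gt_three
  have h1 := PlanarLp.lint_sin η hη hη1
  have h2 := lint_cos b hb hb1
  set I1 := ∫⁻ θ in Ioo 0 π, ENNReal.ofReal (Real.sin θ ^ (η - 1)) with hI1
  set I2 := ∫⁻ u in Ioo 0 π, ENNReal.ofReal (|Real.cos u| ^ (-b)) with hI2
  refine ⟨ENNReal.ofReal 3 * I1 + ENNReal.ofReal 2 * I2, by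
    refine ENNReal.add_ne_top.2 ⟨ENNReal.mul_ne_top ENNReal.ofReal_ne_top h1,
      ENNReal.mul_ne_top ENNReal.ofReal_ne_top h2⟩, fun δ hδ hδ1 => ?_⟩
  have hm1 : Measurable fun θ => ENNReal.ofReal (Real.sin θ ^ (η - 1)) := by fun_prop
  have hm2 : Measurable fun u => ENNReal.ofReal (|Real.cos u| ^ (-b)) := by fun_prop
  calc ∫⁻ u in Ioc δ (π - δ), ENNReal.ofReal (1 / Real.sin u) *
        ENNReal.ofReal (1 + |Real.cos u| ^ (-b))
      ≤ ∫⁻ u in Ioc δ (π - δ), (ENNReal.ofReal 3 * ENNReal.ofReal (Real.sin u ^ (η - 1)) +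
        ENNReal.ofReal 2 * ENNReal.ofReal (|Real.cos u| ^ (-b))) *
          ENNReal.ofReal ((δ / 2) ^ (-η)) := by
        refine setLIntegral_mono' measurableSet_Ioc fun u hu => ?_
        have hmem : u ∈ Icc δ (π - δ) := ⟨hu.1.le, hu.2⟩
        have hs2 := sin_ge_of_mem hδ hδ1 hmem
        have hs : 0 < Real.sin u := by linarith
        have hc0 : 0 ≤ |Real.cos u| ^ (-b) := by positivity
        rw [← ENNReal.ofReal_mul (by positivity), ← ENNReal.ofReal_mul (by norm_num),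
          ← ENNReal.ofReal_mul (by norm_num), ← ENNReal.ofReal_add (by positivity) (by positivity),
          ← ENNReal.ofReal_mul (by positivity)]
        refine ENNReal.ofReal_le_ofReal ?_
        have e1 : 1 / Real.sin u = Real.sin u ^ (η - 1) * Real.sin u ^ (-η) := by
          rw [← Real.rpow_add hs, show η - 1 + -η = -1 by ring, Real.rpow_neg_one, one_div]
        have e2 : Real.sin u ^ (-η) ≤ (δ / 2) ^ (-η) :=
          Real.rpow_le_rpow_of_nonpos (by positivity) hs2 (by linarith)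
        have e3 : Real.sin u ^ (η - 1) * (1 + |Real.cos u| ^ (-b)) ≤
            3 * Real.sin u ^ (η - 1) + 2 * |Real.cos u| ^ (-b) := by
          have hsq := Real.sin_sq_add_cos_sq u
          have hs1 : 0 ≤ Real.sin u ^ (η - 1) := by positivity
          by_cases hc : 1 / 2 ≤ |Real.cos u|
          · have h3 : |Real.cos u| ^ (-b) ≤ 2 := by
              calc |Real.cos u| ^ (-b) ≤ (1 / 2 : ℝ) ^ (-b) :=
                    Real.rpow_le_rpow_of_nonpos (by norm_num) hc (by linarith)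
                _ = 2 ^ b := by
                    rw [one_div, Real.inv_rpow (by norm_num), Real.rpow_neg (by norm_num), inv_inv]
                _ ≤ 2 ^ (1:ℝ) := Real.rpow_le_rpow_of_exponent_le (by norm_num) hb1.le
                _ = 2 := Real.rpow_one 2
            nlinarith
          · push Not at hc
            have h4 : 1 / 2 ≤ Real.sin u := by
              have h5 : Real.cos u ^ 2 ≤ 1 / 4 := by
                rw [← sq_abs]; nlinarith [abs_nonneg (Real.cos u)]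
              nlinarith
            have h3 : Real.sin u ^ (η - 1) ≤ 2 := by
              calc Real.sin u ^ (η - 1) ≤ (1 / 2 : ℝ) ^ (η - 1) :=
                    Real.rpow_le_rpow_of_nonpos (by norm_num) h4 (by linarith)
                _ = 2 ^ (1 - η) := by
                    rw [one_div, Real.inv_rpow (by norm_num), ← Real.rpow_neg (by norm_num)]
                    congr 1; ring
                _ ≤ 2 ^ (1:ℝ) := Real.rpow_le_rpow_of_exponent_le (by norm_num) (by linarith)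
                _ = 2 := Real.rpow_one 2
            nlinarith
        calc 1 / Real.sin u * (1 + |Real.cos u| ^ (-b))
            = Real.sin u ^ (-η) * (Real.sin u ^ (η - 1) * (1 + |Real.cos u| ^ (-b))) := by
              rw [e1]; ring
          _ ≤ (δ / 2) ^ (-η) * (3 * Real.sin u ^ (η - 1) + 2 * |Real.cos u| ^ (-b)) := by
              gcongr
          _ = _ := by ring
    _ = (∫⁻ u in Ioc δ (π - δ), (ENNReal.ofReal 3 * ENNReal.ofReal (Real.sin u ^ (η - 1)) +
        ENNReal.ofReal 2 * ENNReal.ofReal (|Real.cos u| ^ (-b)))) *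
          ENNReal.ofReal ((δ / 2) ^ (-η)) := by
        rw [lintegral_mul_const' _ _ ENNReal.ofReal_ne_top]
    _ ≤ (∫⁻ u in Ioo 0 π, (ENNReal.ofReal 3 * ENNReal.ofReal (Real.sin u ^ (η - 1)) +
        ENNReal.ofReal 2 * ENNReal.ofReal (|Real.cos u| ^ (-b)))) *
          ENNReal.ofReal ((δ / 2) ^ (-η)) := by
        refine mul_le_mul' (lintegral_mono_set ?_) le_rfl
        exact fun u hu => ⟨by linarith [hu.1], by linarith [hu.2]⟩
    _ = _ := by
        rw [lintegral_add_left (hm1.const_mul _), lintegral_const_mul _ hm1,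
          lintegral_const_mul _ hm2]

end Pool.Agent.MP_6cbfb8_an
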