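import Pool.Agent.MP_6cbfb8_an.Low6

/-!
The total weights of the terms in the estimate of the smooth part.
-/

namespace Pool.Agent.MP_6cbfb8_an

open MeasureTheory Set
open scoped ENNReal Real RealInnerProductSpace

/-- The majorant on the product of the two spheres. -/
noncomputable def am (j : ℕ) (r : ℝ) (q : S (j + 2) × S (j + 1)) (u : ℝ) : ℝ :=
  amaj j r (kerMass r (eLast (j + 1))) ((q.1 : E (j + 2)) (Fin.last (j + 1)))
    (inner ℝ (q.2 : E (j + 1)) (initE (q.1 : E (j + 2)))) u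

lemma continuous_am (j : ℕ) (r : ℝ) :
    Continuous fun w : (S (j + 2) × S (j + 1)) × ℝ => am j r w.1 w.2 := by
  unfold am amaj
  have h1 : Continuous fun w : (S (j + 2) × S (j + 1)) × ℝ =>
      (w.1.1 : E (j + 2)) (Fin.last (j + 1)) := by fun_prop
  have h2 : Continuous fun w : (S (j + 2) × S (j + 1)) × ℝ =>
      (inner ℝ (w.1.2 : E (j + 1)) (initE (w.1.1 : E (j + 2))) : ℝ) := by
    have h3 : Continuous fun w : (S (j + 2) × S (j + 1)) × ℝ => initE (w.1.1 : E (j + 2)) :=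
      continuous_initE.comp (by fun_prop)
    have h4 : Continuous fun w : (S (j + 2) × S (j + 1)) × ℝ => (w.1.2 : E (j + 1)) := by fun_prop
    exact h4.inner h3
  fun_prop

lemma am_nonneg {j : ℕ} {r : ℝ} (q : S (j + 2) × S (j + 1)) {u : ℝ} (hu : 0 ≤ Real.sin u) :
    0 ≤ am j r q u := amaj_nonneg (kerMass_pos r _) hu

lemma nearSet_mem {δ u : ℝ} (hδ1 : δ ≤ 1) (hu : u ∈ nearSet δ) :
    Real.sin u ≤ δ ∧ 1 / 2 ≤ |Real.cos u| := by
  have hπ := Real.pi_gt_three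
  obtain ⟨⟨h1, h2⟩, h3⟩ := hu
  have key : ∀ x : ℝ, 0 < x → x ≤ δ → Real.sin x ≤ δ ∧ 1 / 2 ≤ Real.cos x := by
    intro x hx hxδ
    refine ⟨(Real.sin_lt hx).le.trans hxδ, ?_⟩
    rw [← Real.cos_pi_div_three]
    exact Real.cos_le_cos_of_nonneg_of_le_pi hx.le (by linarith) (by linarith)
  by_cases hu : u ≤ δ
  · obtain ⟨h4, h5⟩ := key u h1 hu
    exact ⟨h4, h5.trans (le_abs_self _)⟩
  · have h6 : π - u ≤ δ := by
      by_contra h
      exact h3 ⟨by linarith, by linarith⟩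
    obtain ⟨h4, h5⟩ := key (π - u) (by linarith) h6
    rw [Real.sin_pi_sub] at h4
    rw [Real.cos_pi_sub] at h5
    exact ⟨h4, h5.trans (neg_le_abs _)⟩

lemma volume_near_le {δ : ℝ} (hδ : 0 < δ) : volume (nearSet δ) ≤ ENNReal.ofReal (2 * δ) := by
  have hsub : nearSet δ ⊆ Icc 0 δ ∪ Icc (π - δ) π := by
    rintro u ⟨⟨h1, h2⟩, h3⟩
    by_cases hu : u ≤ δ
    · exact Or.inl ⟨h1.le, hu⟩
    · refine Or.inr ⟨?_, h2.le⟩
      by_contra h
      exact h3 ⟨by linarith, by linarith⟩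
  refine (measure_mono hsub).trans ((measure_union_le _ _).trans ?_)
  rw [Real.volume_Icc, Real.volume_Icc, ← ENNReal.ofReal_add (by linarith) (by linarith)]
  exact ENNReal.ofReal_le_ofReal (by linarith)

lemma one_add_rpow_le {b c : ℝ} (hb : 0 ≤ b) (hb1 : b ≤ 1) (hc : 1 / 2 ≤ |c|) :
    1 + |c| ^ (-b) ≤ 3 := by
  have h3 : |c| ^ (-b) ≤ 2 := by
    calc |c| ^ (-b) ≤ (1 / 2 : ℝ) ^ (-b) :=
          Real.rpow_le_rpow_of_nonpos (by norm_num) hc (by linarith)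
      _ = 2 ^ b := by
          rw [one_div, Real.inv_rpow (by norm_num), Real.rpow_neg (by norm_num), inv_inv]
      _ ≤ 2 ^ (1:ℝ) := Real.rpow_le_rpow_of_exponent_le (by norm_num) hb1
      _ = 2 := Real.rpow_one 2
  linarith

/-- A general double integral bound. -/
lemma weight_prod {j : ℕ} {r A₀ : ℝ}
    (hA : ∀ u ∈ Ioo 0 π, ∫⁻ q : S (j + 2) × S (j + 1), ENNReal.ofReal (am j r q u)
      ∂((sm (j + 2)).prod (sm (j + 1))) ≤ ENNReal.ofReal (A₀ * Real.sin u ^ j))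
    (s : Set ℝ) (hs : MeasurableSet s) (hs' : s ⊆ Ioo 0 π) (w : ℝ → ℝ≥0∞) (hw : Measurable w) :
    ∫⁻ x : (S (j + 2) × S (j + 1)) × ℝ, ENNReal.ofReal (am j r x.1 x.2) * w x.2
      ∂(((sm (j + 2)).prod (sm (j + 1))).prod (volume.restrict s)) ≤
    ∫⁻ u in s, ENNReal.ofReal (A₀ * Real.sin u ^ j) * w u := by
  have hm : Measurable fun x : (S (j + 2) × S (j + 1)) × ℝ =>
      ENNReal.ofReal (am j r x.1 x.2) * w x.2 :=
    (continuous_am j r).measurable.ennreal_ofReal.mul (hw.comp measurable_snd)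
  rw [lintegral_prod_symm _ hm.aemeasurable]
  refine setLIntegral_mono' hs fun u hu => ?_
  simp only
  rw [lintegral_mul_const]
  · exact mul_le_mul' (hA u (hs' hu)) le_rfl
  · exact ((continuous_am j r).comp (by fun_prop :
      Continuous fun q : S (j + 2) × S (j + 1) => (q, u))).measurable.ennreal_ofReal

lemma weight_near {j : ℕ} {r A₀ δ b : ℝ} (hA0 : 0 < A₀) (hδ : 0 < δ) (hδ1 : δ ≤ 1)
    (hb : 0 ≤ b) (hb1 : b ≤ 1)
    (hA : ∀ u ∈ Ioo 0 π, ∫⁻ q : S (j + 2) × S (j + 1), ENNReal.ofReal (am j r q u)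
      ∂((sm (j + 2)).prod (sm (j + 1))) ≤ ENNReal.ofReal (A₀ * Real.sin u ^ j)) :
    ∫⁻ x : (S (j + 2) × S (j + 1)) × ℝ, ENNReal.ofReal (am j r x.1 x.2) *
      ENNReal.ofReal (1 + |Real.cos x.2| ^ (-b))
      ∂(((sm (j + 2)).prod (sm (j + 1))).prod (volume.restrict (nearSet δ))) ≤
    ENNReal.ofReal (6 * A₀ * δ ^ (j + 1)) := by
  refine (weight_prod hA (nearSet δ) (measurableSet_nearSet δ) (fun u hu => hu.1)
    (fun u => ENNReal.ofReal (1 + |Real.cos u| ^ (-b))) (by fun_prop)).trans ?_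
  calc ∫⁻ u in nearSet δ, ENNReal.ofReal (A₀ * Real.sin u ^ j) *
        ENNReal.ofReal (1 + |Real.cos u| ^ (-b))
      ≤ ∫⁻ _u in nearSet δ, ENNReal.ofReal (A₀ * δ ^ j * 3) := by
        refine setLIntegral_mono' (measurableSet_nearSet δ) fun u hu => ?_
        obtain ⟨h1, h2⟩ := nearSet_mem hδ1 hu
        have hs : 0 ≤ Real.sin u := (Real.sin_pos_of_mem_Ioo hu.1).le
        rw [← ENNReal.ofReal_mul (by positivity)]
        refine ENNReal.ofReal_le_ofReal ?_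
        have h3 := one_add_rpow_le hb hb1 h2
        gcongr
    _ ≤ ENNReal.ofReal (A₀ * δ ^ j * 3) * ENNReal.ofReal (2 * δ) := by
        rw [lintegral_const, Measure.restrict_apply MeasurableSet.univ, univ_inter]
        exact mul_le_mul' le_rfl (volume_near_le hδ)
    _ = _ := by
        rw [← ENNReal.ofReal_mul (by positivity)]
        congr 1
        ring

lemma weight_bd {j : ℕ} {r A₀ δ b C u : ℝ} (hA0 : 0 < A₀) (hδ : 0 < δ)
    (hb : 0 ≤ b) (hb1 : b ≤ 1) (hC : 0 < C) (hu : u ∈ Ioo 0 π) (hsu : Real.sin u ≤ δ)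
    (hcu : 1 / 2 ≤ |Real.cos u|)
    (hA : ∀ u ∈ Ioo 0 π, ∫⁻ q : S (j + 2) × S (j + 1), ENNReal.ofReal (am j r q u)
      ∂((sm (j + 2)).prod (sm (j + 1))) ≤ ENNReal.ofReal (A₀ * Real.sin u ^ j)) :
    ∫⁻ q : S (j + 2) × S (j + 1), ENNReal.ofReal (C * δ * am j r q u) *
      ENNReal.ofReal (1 + |Real.cos u| ^ (-b)) ∂((sm (j + 2)).prod (sm (j + 1))) ≤
    ENNReal.ofReal (3 * C * A₀ * δ ^ (j + 1)) := by
  have hs : 0 ≤ Real.sin u := (Real.sin_pos_of_mem_Ioo hu).le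
  have hm : Measurable fun q : S (j + 2) × S (j + 1) => ENNReal.ofReal (am j r q u) :=
    ((continuous_am j r).comp (by fun_prop :
      Continuous fun q : S (j + 2) × S (j + 1) => (q, u))).measurable.ennreal_ofReal
  calc ∫⁻ q : S (j + 2) × S (j + 1), ENNReal.ofReal (C * δ * am j r q u) *
      ENNReal.ofReal (1 + |Real.cos u| ^ (-b)) ∂((sm (j + 2)).prod (sm (j + 1)))
      = (ENNReal.ofReal (C * δ) * ∫⁻ q : S (j + 2) × S (j + 1), ENNReal.ofReal (am j r q u)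
        ∂((sm (j + 2)).prod (sm (j + 1)))) * ENNReal.ofReal (1 + |Real.cos u| ^ (-b)) := by
        rw [lintegral_mul_const' _ _ ENNReal.ofReal_ne_top, ← lintegral_const_mul _ hm]
        congr 1
        refine lintegral_congr fun q => ?_
        rw [ENNReal.ofReal_mul (by positivity)]
    _ ≤ (ENNReal.ofReal (C * δ) * ENNReal.ofReal (A₀ * Real.sin u ^ j)) *
        ENNReal.ofReal (1 + |Real.cos u| ^ (-b)) := by
        refine mul_le_mul' (mul_le_mul' le_rfl (hA u hu)) le_rfl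
    _ ≤ _ := by
        rw [← ENNReal.ofReal_mul (by positivity), ← ENNReal.ofReal_mul (by positivity)]
        refine ENNReal.ofReal_le_ofReal ?_
        have h3 := one_add_rpow_le hb hb1 hcu
        calc C * δ * (A₀ * Real.sin u ^ j) * (1 + |Real.cos u| ^ (-b))
            ≤ C * δ * (A₀ * δ ^ j) * 3 := by gcongr
          _ = _ := by ring

lemma weight_far {j : ℕ} {r A₀ δ b C η : ℝ} {K : ℝ≥0∞} (hA0 : 0 < A₀) (hδ : 0 < δ)
    (hC : 0 < C)
    (hK : ∫⁻ u in Ioc δ (π - δ), ENNReal.ofReal (1 / Real.sin u) *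
        ENNReal.ofReal (1 + |Real.cos u| ^ (-b)) ≤ K * ENNReal.ofReal ((δ / 2) ^ (-η)))
    (hA : ∀ u ∈ Ioo 0 π, ∫⁻ q : S (j + 2) × S (j + 1), ENNReal.ofReal (am j r q u)
      ∂((sm (j + 2)).prod (sm (j + 1))) ≤ ENNReal.ofReal (A₀ * Real.sin u ^ j)) :
    ∫⁻ x : (S (j + 2) × S (j + 1)) × ℝ,
      ENNReal.ofReal (C * δ ^ (j + 1) * (am j r x.1 x.2 / Real.sin x.2 ^ (j + 1))) *
      ENNReal.ofReal (1 + |Real.cos x.2| ^ (-b))
      ∂(((sm (j + 2)).prod (sm (j + 1))).prod (volume.restrict (Ioc δ (π - δ)))) ≤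
    ENNReal.ofReal (C * A₀ * δ ^ (j + 1)) * (K * ENNReal.ofReal ((δ / 2) ^ (-η))) := by
  have hsub : Ioc δ (π - δ) ⊆ Ioo 0 π := fun u hu => ⟨by linarith [hu.1], by linarith [hu.2]⟩
  set w : ℝ → ℝ≥0∞ := fun u => ENNReal.ofReal (C * δ ^ (j + 1) / Real.sin u ^ (j + 1)) *
    ENNReal.ofReal (1 + |Real.cos u| ^ (-b)) with hw
  have hwm : Measurable w := by rw [hw]; fun_prop
  have h1 := weight_prod hA (Ioc δ (π - δ)) measurableSet_Ioc hsub w hwm
  have hAE : ∀ᵐ x : (S (j + 2) × S (j + 1)) × ℝ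
      ∂(((sm (j + 2)).prod (sm (j + 1))).prod (volume.restrict (Ioc δ (π - δ)))),
      x.2 ∈ Ioc δ (π - δ) := by
    have h2 : ∀ᵐ u ∂(volume.restrict (Ioc δ (π - δ)) : Measure ℝ), u ∈ Ioc δ (π - δ) :=
      ae_restrict_mem measurableSet_Ioc
    exact Measure.quasiMeasurePreserving_snd.ae h2
  calc _ ≤ ∫⁻ x : (S (j + 2) × S (j + 1)) × ℝ, ENNReal.ofReal (am j r x.1 x.2) * w x.2
      ∂(((sm (j + 2)).prod (sm (j + 1))).prod (volume.restrict (Ioc δ (π - δ)))) := by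
        refine lintegral_mono_ae ?_
        filter_upwards [hAE] with x hx
        have hs := Real.sin_pos_of_mem_Ioo (hsub hx)
        have ha := am_nonneg (r := r) x.1 hs.le
        rw [hw]
        simp only
        rw [← mul_assoc, ← ENNReal.ofReal_mul ha]
        refine le_of_eq ?_
        congr 2
        ring
    _ ≤ ∫⁻ u in Ioc δ (π - δ), ENNReal.ofReal (A₀ * Real.sin u ^ j) * w u := h1
    _ = ∫⁻ u in Ioc δ (π - δ), ENNReal.ofReal (C * A₀ * δ ^ (j + 1)) *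
        (ENNReal.ofReal (1 / Real.sin u) * ENNReal.ofReal (1 + |Real.cos u| ^ (-b))) := by
        refine setLIntegral_congr_fun measurableSet_Ioc fun u hu => ?_
        have hs := Real.sin_pos_of_mem_Ioo (hsub hu)
        rw [hw]
        simp only
        rw [← mul_assoc, ← mul_assoc]
        refine congrArg (· * ENNReal.ofReal (1 + |Real.cos u| ^ (-b))) ?_
        rw [← ENNReal.ofReal_mul (by positivity), ← ENNReal.ofReal_mul (by positivity)]
        refine congrArg ENNReal.ofReal ?_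
        field_simp
        rw [pow_succ]
    _ = ENNReal.ofReal (C * A₀ * δ ^ (j + 1)) * ∫⁻ u in Ioc δ (π - δ),
        (ENNReal.ofReal (1 / Real.sin u) * ENNReal.ofReal (1 + |Real.cos u| ^ (-b))) := by
        rw [lintegral_const_mul' _ _ ENNReal.ofReal_ne_top]
    _ ≤ _ := mul_le_mul' le_rfl hK

end Pool.Agent.MP_6cbfb8_an
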