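import Pool.Agent.MP_6cbfb8_an.Low7

/-!
Estimate of the smooth part on the half plane through the last basis vector.
-/

namespace Pool.Agent.MP_6cbfb8_an

open MeasureTheory Set
open scoped ENNReal Real RealInnerProductSpace

/-- The `p`-th power of the mixed norm over a dyadic shell. -/
noncomputable def nrm (r p : ℝ) (T : ℝ → ℝ → ℝ≥0∞) : ℝ≥0∞ :=
  ∫⁻ ρ in Icc r (2 * r), ∫⁻ z : ℝ, T ρ z ^ p

lemma nrm_add {r p : ℝ} (hp : 1 ≤ p) (T U : ℝ → ℝ → ℝ≥0∞) (hT : Measurable (Function.uncurry T)) :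
    nrm r p (fun ρ z => T ρ z + U ρ z) ≤ 2 ^ (p - 1) * (nrm r p T + nrm r p U) := by
  unfold nrm
  have hT1 : ∀ ρ, Measurable fun z => T ρ z ^ p := fun ρ =>
    (hT.comp (f := fun z : ℝ => (ρ, z)) (by fun_prop)).pow_const p
  have hT2 : Measurable fun ρ => ∫⁻ z : ℝ, T ρ z ^ p :=
    (hT.pow_const p).lintegral_prod_right'
  calc ∫⁻ ρ in Icc r (2 * r), ∫⁻ z : ℝ, (T ρ z + U ρ z) ^ p
      ≤ ∫⁻ ρ in Icc r (2 * r), ∫⁻ z : ℝ, 2 ^ (p - 1) * (T ρ z ^ p + U ρ z ^ p) :=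
        lintegral_mono fun ρ => lintegral_mono fun z =>
          ENNReal.rpow_add_le_mul_rpow_add_rpow _ _ hp
    _ = 2 ^ (p - 1) * ((∫⁻ ρ in Icc r (2 * r), ∫⁻ z : ℝ, T ρ z ^ p) +
        ∫⁻ ρ in Icc r (2 * r), ∫⁻ z : ℝ, U ρ z ^ p) := by
        have hne : (2:ℝ≥0∞) ^ (p - 1) ≠ ∞ := ENNReal.rpow_ne_top_of_nonneg (by linarith) (by simp)
        simp_rw [lintegral_const_mul' _ _ hne]
        congr 1
        have e : ∀ ρ, ∫⁻ z : ℝ, (T ρ z ^ p + U ρ z ^ p) = (∫⁻ z : ℝ, T ρ z ^ p) +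
            ∫⁻ z : ℝ, U ρ z ^ p := fun ρ => lintegral_add_left (hT1 ρ) _
        simp_rw [e]
        exact lintegral_add_left hT2 _

lemma nrm_sum {ι : Type*} {r p : ℝ} (hp : 1 ≤ p) (s : Finset ι) (T : ι → ℝ → ℝ → ℝ≥0∞)
    (hT : ∀ i, Measurable (Function.uncurry (T i))) :
    nrm r p (fun ρ z => ∑ i ∈ s, T i ρ z) ≤
      (s.card : ℝ≥0∞) ^ (p - 1) * ∑ i ∈ s, nrm r p (T i) := by
  unfold nrm
  have hT1 : ∀ i ρ, Measurable fun z => T i ρ z ^ p := fun i ρ =>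
    ((hT i).comp (f := fun z : ℝ => (ρ, z)) (by fun_prop)).pow_const p
  have hT2 : ∀ i, Measurable fun ρ => ∫⁻ z : ℝ, T i ρ z ^ p := fun i =>
    ((hT i).pow_const p).lintegral_prod_right'
  calc ∫⁻ ρ in Icc r (2 * r), ∫⁻ z : ℝ, (∑ i ∈ s, T i ρ z) ^ p
      ≤ ∫⁻ ρ in Icc r (2 * r), ∫⁻ z : ℝ, (s.card : ℝ≥0∞) ^ (p - 1) * ∑ i ∈ s, T i ρ z ^ p :=
        lintegral_mono fun ρ => lintegral_mono fun z =>
          ENNReal.rpow_sum_le_const_mul_sum_rpow _ _ hp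
    _ = _ := by
        have hne : (s.card : ℝ≥0∞) ^ (p - 1) ≠ ∞ :=
          ENNReal.rpow_ne_top_of_nonneg (by linarith) (by simp)
        simp_rw [lintegral_const_mul' _ _ hne]
        congr 1
        have e : ∀ ρ, ∫⁻ z : ℝ, ∑ i ∈ s, T i ρ z ^ p = ∑ i ∈ s, ∫⁻ z : ℝ, T i ρ z ^ p := fun ρ =>
          lintegral_finsetSum _ fun i _ => hT1 i ρ
        simp_rw [e]
        exact lintegral_finsetSum _ fun i _ => hT2 i

/-- One term. -/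
noncomputable def Tm {W : Type*} [MeasurableSpace W] (μ : Measure W) (k : W → ℝ≥0∞)
    (f : W → ℝ → ℂ) (c : W → ℝ) (ρ z : ℝ) : ℝ≥0∞ := ∫⁻ w, k w * ‖P (f w) (ρ * c w) z‖ₑ ∂μ

lemma measurable_Tm {W : Type*} [MeasurableSpace W] (μ : Measure W) [SFinite μ] (k : W → ℝ≥0∞)
    (hk : Measurable k) (f : W → ℝ → ℂ) (hf : Measurable (Function.uncurry f)) (c : W → ℝ)
    (hc : Measurable c) : Measurable (Function.uncurry (Tm μ k f c)) := by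
  have hm : Measurable fun q : (ℝ × ℝ) × W => k q.2 * ‖P (f q.2) (q.1.1 * c q.2) q.1.2‖ₑ :=
    (hk.comp measurable_snd).mul (measurable_P_param f hf c hc).enorm
  exact hm.lintegral_prod_right'

lemma nrm_Tm_le {p κ' b : ℝ} {C : ℝ≥0∞} (hp : 1 ≤ p) (r : ℝ)
    (H : ∀ f : ℝ → ℂ, Measurable f →
      (∀ θ, ‖f θ‖ ≤ 1) → (∀ θ ∈ Ioo 0 π, Real.sin θ < 1 / r → f θ = 0) →
      ∀ c : ℝ, c ≠ 0 → |c| ≤ 1 →
      ∫⁻ ρ in Icc r (2 * r), ∫⁻ z : ℝ, ‖P f (ρ * c) z‖ₑ ^ p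
        ≤ C * ENNReal.ofReal (r ^ (2 - p / 2 + κ') * |c| ^ (-b)))
    (hr : 0 < r)
    {W : Type*} [MeasurableSpace W] (μ : Measure W) [SFinite μ] (k : W → ℝ≥0∞) (hk : Measurable k)
    (f : W → ℝ → ℂ) (hf : Measurable (Function.uncurry f)) (hf1 : ∀ w θ, ‖f w θ‖ ≤ 1)
    (hf0 : ∀ w, ∀ θ ∈ Ioo 0 π, Real.sin θ < 1 / r → f w θ = 0)
    (c : W → ℝ) (hc : Measurable c) (hc0 : ∀ᵐ w ∂μ, c w ≠ 0) (hc1 : ∀ w, |c w| ≤ 1)
    {M : ℝ≥0∞} (hM : ∫⁻ w, k w * ENNReal.ofReal (1 + |c w| ^ (-b)) ∂μ ≤ M) :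
    nrm r p (Tm μ k f c) ≤ C * ENNReal.ofReal (r ^ (2 - p / 2 + κ')) * M ^ p := by
  have h := term_bound hp r H hr μ k hk f hf hf1 hf0 c hc hc0 hc1
  have h1 : ∫⁻ w, k w ∂μ ≤ M := by
    refine le_trans (lintegral_mono fun w => ?_) hM
    have : (1 : ℝ≥0∞) ≤ ENNReal.ofReal (1 + |c w| ^ (-b)) := by
      rw [← ENNReal.ofReal_one]
      exact ENNReal.ofReal_le_ofReal (by linarith [Real.rpow_nonneg (abs_nonneg (c w)) (-b)])
    calc k w = k w * 1 := (mul_one _).symm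
      _ ≤ _ := mul_le_mul' le_rfl this
  have h2 : ∫⁻ w, k w * ENNReal.ofReal (|c w| ^ (-b)) ∂μ ≤ M := by
    refine le_trans (lintegral_mono fun w => ?_) hM
    exact mul_le_mul' le_rfl (ENNReal.ofReal_le_ofReal (by linarith))
  unfold nrm Tm
  refine h.trans ?_
  calc (∫⁻ w, k w ∂μ) ^ (p - 1) * (C * ENNReal.ofReal (r ^ (2 - p / 2 + κ')) *
        ∫⁻ w, k w * ENNReal.ofReal (|c w| ^ (-b)) ∂μ)
      ≤ M ^ (p - 1) * (C * ENNReal.ofReal (r ^ (2 - p / 2 + κ')) * M) := by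
        refine mul_le_mul' (ENNReal.rpow_le_rpow h1 (by linarith)) (mul_le_mul' le_rfl h2)
    _ = C * ENNReal.ofReal (r ^ (2 - p / 2 + κ')) * (M ^ (p - 1) * M ^ (1:ℝ)) := by
        rw [ENNReal.rpow_one]; ring
    _ = _ := by
        rw [← ENNReal.rpow_add_of_nonneg _ _ (by linarith) (by norm_num)]
        congr 2
        ring

end Pool.Agent.MP_6cbfb8_an
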