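import Pool.Agent.MP_6cbfb8_an.Low8

/-!
Estimate of the smooth part on the half plane through the last basis vector: assembly.
-/

namespace Pool.Agent.MP_6cbfb8_an

open MeasureTheory Set
open scoped ENNReal Real RealInnerProductSpace

/-- The parametrised densities. -/
noncomputable def fk (j k : ℕ) (g : ℝ → E (j + 2) → ℂ) (q : S (j + 2) × S (j + 1)) : ℝ → ℂ :=
  sinD (fun θ => g θ q.1) k

lemma measurable_fk (j k : ℕ) (g : ℝ → E (j + 2) → ℂ) (hg : Measurable (Function.uncurry g)) :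
    Measurable (Function.uncurry (fk j k g)) := by
  have h1 : Measurable fun x : (S (j + 2) × S (j + 1)) × ℝ => g x.2 (x.1.1 : E (j + 2)) :=
    hg.comp (f := fun x : (S (j + 2) × S (j + 1)) × ℝ => (x.2, (x.1.1 : E (j + 2)))) (by fun_prop)
  have h2 : Measurable fun x : (S (j + 2) × S (j + 1)) × ℝ => ((Real.sin x.2 ^ k : ℝ) : ℂ) := by
    fun_prop
  exact h1.mul h2

lemma norm_fk_le (j k : ℕ) (g : ℝ → E (j + 2) → ℂ) (hb : ∀ θ x, ‖g θ x‖ ≤ 1)
    (q : S (j + 2) × S (j + 1)) (θ : ℝ) : ‖fk j k g q θ‖ ≤ 1 :=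
  norm_sinD_le _ (fun θ => hb θ _) k θ

lemma fk_eq_zero (j k : ℕ) {r : ℝ} (g : ℝ → E (j + 2) → ℂ)
    (h0 : ∀ θ ∈ Ioo 0 π, Real.sin θ < 1 / r → ∀ x, g θ x = 0) (q : S (j + 2) × S (j + 1)) :
    ∀ θ ∈ Ioo 0 π, Real.sin θ < 1 / r → fk j k g q θ = 0 := by
  intro θ hθ hs
  unfold fk sinD
  simp only
  rw [h0 θ hθ hs, zero_mul]

/-- The pointwise bound. -/
theorem cyl_pointwise (j : ℕ) : ∃ C : ℝ, 0 < C ∧ ∀ r δ : ℝ, 0 < δ → δ ≤ 1 → r * δ ^ 2 = 1 →
    ∀ g : ℝ → E (j + 2) → ℂ, Measurable (Function.uncurry g) → (∀ θ x, ‖g θ x‖ ≤ 1) →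
    ∀ ρ z : ℝ, r ≤ ρ →
    ‖cyl j (fun θ => moll r (g θ)) (ρ • eLast (j + 1)) z‖ₑ ≤
      Tm (((sm (j + 2)).prod (sm (j + 1))).prod (volume.restrict (nearSet δ)))
        (fun w => ENNReal.ofReal (am j r w.1 w.2)) (fun w => fk j (j + 1) g w.1)
        (fun w => Real.cos w.2) ρ z +
      (∑ k ∈ Finset.range (j + 1),
        (Tm ((sm (j + 2)).prod (sm (j + 1))) (fun q => ENNReal.ofReal (C * δ * am j r q δ))
          (fk j k g) (fun _ => Real.cos δ) ρ z +
        Tm ((sm (j + 2)).prod (sm (j + 1))) (fun q => ENNReal.ofReal (C * δ * am j r q (π - δ)))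
          (fk j k g) (fun _ => Real.cos (π - δ)) ρ z)) +
      Tm (((sm (j + 2)).prod (sm (j + 1))).prod (volume.restrict (Ioc δ (π - δ))))
        (fun w => ENNReal.ofReal (C * δ ^ (j + 1) * (am j r w.1 w.2 / Real.sin w.2 ^ (j + 1))))
        (fun w => fk j 0 g w.1) (fun w => Real.cos w.2) ρ z := by
  obtain ⟨C, hC, H⟩ := great_circle j
  refine ⟨C, hC, fun r δ hδ hδ1 hrδ g hg hb ρ z hρ => ?_⟩
  have hr : 0 < r := by
    by_contra h
    push Not at h
    have : r * δ ^ 2 ≤ 0 := mul_nonpos_of_nonpos_of_nonneg h (by positivity)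
    linarith
  rw [cyl_moll_eq r hr.le g hg hb ρ z]
  refine (enorm_integral_le_lintegral_enorm _).trans ?_
  have hZ : 0 < kerMass r (eLast (j + 1)) := kerMass_pos r _
  have hpt : ∀ q : S (j + 2) × S (j + 1), ‖∫ u in Ioo 0 π,
        akern j r (kerMass r (eLast (j + 1))) ((q.1 : E (j + 2)) (Fin.last (j + 1)))
          (inner ℝ (q.2 : E (j + 1)) (initE (q.1 : E (j + 2)))) u *
        P (sinD (fun θ => g θ q.1) (j + 1)) (ρ * Real.cos u) z‖ₑ ≤
      (∫⁻ u in nearSet δ, ENNReal.ofReal (am j r q u) *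
        ‖P (fk j (j + 1) g q) (ρ * Real.cos u) z‖ₑ) +
      (∑ k ∈ Finset.range (j + 1),
        (ENNReal.ofReal (C * δ * am j r q δ) * ‖P (fk j k g q) (ρ * Real.cos δ) z‖ₑ +
        ENNReal.ofReal (C * δ * am j r q (π - δ)) *
          ‖P (fk j k g q) (ρ * Real.cos (π - δ)) z‖ₑ)) +
      ∫⁻ u in Ioc δ (π - δ), ENNReal.ofReal (C * δ ^ (j + 1) *
        (am j r q u / Real.sin u ^ (j + 1))) * ‖P (fk j 0 g q) (ρ * Real.cos u) z‖ₑ := by
    intro q
    exact H r δ _ _ _ ρ z hδ hδ1 hrδ hZ (coef_sq_le q.2 q.1) hρ (fun θ => g θ q.1)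
      (hg.comp (f := fun θ : ℝ => (θ, (q.1 : E (j + 2)))) (by fun_prop)) (fun θ => hb θ _)
  refine (lintegral_mono hpt).trans ?_
  have hP : ∀ k, Measurable fun x : (S (j + 2) × S (j + 1)) × ℝ =>
      ‖P (fk j k g x.1) (ρ * Real.cos x.2) z‖ₑ := by
    intro k
    have h1 : Measurable (Function.uncurry fun (w : (S (j + 2) × S (j + 1)) × ℝ) => fk j k g w.1) :=
      (measurable_fk j k g hg).comp
        (f := fun y : ((S (j + 2) × S (j + 1)) × ℝ) × ℝ => (y.1.1, y.2)) (by fun_prop)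
    have h2 := measurable_P_param (W := (S (j + 2) × S (j + 1)) × ℝ)
      (fun w => fk j k g w.1) h1 (fun w => Real.cos w.2) (by fun_prop)
    exact (h2.comp (f := fun w : (S (j + 2) × S (j + 1)) × ℝ => ((ρ, z), w)) (by fun_prop)).enorm
  have ham : Measurable fun w : (S (j + 2) × S (j + 1)) × ℝ => am j r w.1 w.2 :=
    (continuous_am j r).measurable
  have m1 : Measurable fun x : (S (j + 2) × S (j + 1)) × ℝ => ENNReal.ofReal (am j r x.1 x.2) *
      ‖P (fk j (j + 1) g x.1) (ρ * Real.cos x.2) z‖ₑ := ham.ennreal_ofReal.mul (hP (j + 1))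
  have m3 : Measurable fun x : (S (j + 2) × S (j + 1)) × ℝ => ENNReal.ofReal (C * δ ^ (j + 1) *
        (am j r x.1 x.2 / Real.sin x.2 ^ (j + 1))) * ‖P (fk j 0 g x.1) (ρ * Real.cos x.2) z‖ₑ :=
    (((ham.div (by fun_prop)).const_mul _).ennreal_ofReal).mul (hP 0)
  have m2 : ∀ k (u : ℝ), Measurable fun q : S (j + 2) × S (j + 1) =>
      ENNReal.ofReal (C * δ * am j r q u) * ‖P (fk j k g q) (ρ * Real.cos u) z‖ₑ := by
    intro k u
    have h1 : Measurable fun x : (S (j + 2) × S (j + 1)) × ℝ => ENNReal.ofReal (C * δ * am j r x.1 x.2) *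
      ‖P (fk j k g x.1) (ρ * Real.cos x.2) z‖ₑ := ((ham.const_mul _).ennreal_ofReal).mul (hP k)
    exact h1.comp (f := fun q : S (j + 2) × S (j + 1) => (q, u)) (by fun_prop)
  have n1 : Measurable fun q : S (j + 2) × S (j + 1) => ∫⁻ u in nearSet δ,
      ENNReal.ofReal (am j r q u) * ‖P (fk j (j + 1) g q) (ρ * Real.cos u) z‖ₑ :=
    m1.lintegral_prod_right'
  have n2 : Measurable fun q : S (j + 2) × S (j + 1) => ∑ k ∈ Finset.range (j + 1),
        (ENNReal.ofReal (C * δ * am j r q δ) * ‖P (fk j k g q) (ρ * Real.cos δ) z‖ₑ +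
        ENNReal.ofReal (C * δ * am j r q (π - δ)) *
          ‖P (fk j k g q) (ρ * Real.cos (π - δ)) z‖ₑ) :=
    Finset.measurable_fun_sum _ fun k _ => (m2 k δ).add (m2 k (π - δ))
  rw [lintegral_add_left (by exact n1.add n2), lintegral_add_left n1]
  refine add_le_add (add_le_add ?_ ?_) ?_
  · unfold Tm
    rw [lintegral_prod _ m1.aemeasurable]
  · rw [lintegral_finsetSum _ (by intro k _; exact (m2 k δ).add (m2 k (π - δ)))]
    refine Finset.sum_le_sum fun k _ => ?_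
    rw [lintegral_add_left (m2 k δ)]
    exact le_rfl
  · unfold Tm
    rw [lintegral_prod _ m3.aemeasurable]

theorem low_eLast (j : ℕ) (p : ℝ) (hp2 : 2 < p) (hp4 : p < 4) (κ : ℝ) (hκ : 0 < κ) :
    ∃ C : ℝ≥0∞, C ≠ ∞ ∧ ∀ r : ℝ, 1 ≤ r → ∀ g : ℝ → E (j + 2) → ℂ,
      Measurable (Function.uncurry g) → (∀ θ x, ‖g θ x‖ ≤ 1) →
      (∀ θ ∈ Ioo 0 π, Real.sin θ < 1 / r → ∀ x, g θ x = 0) →
      ∫⁻ ρ in Icc r (2 * r), ∫⁻ z : ℝ, ‖cyl j (fun θ => moll r (g θ)) (ρ • eLast (j + 1)) z‖ₑ ^ p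
        ≤ C * ENNReal.ofReal (r ^ (2 - p / 2 - p * (j + 1) / 2 + κ)) := by
  obtain ⟨Cg, hCg, Hpt⟩ := cyl_pointwise j
  obtain ⟨A₀, hA0, hA⟩ := lintegral_amaj_le j
  obtain ⟨Cp, hCp, b, hb0, hb1, Hpl⟩ := planar_Lp p hp2 hp4 (κ / 2) (by linarith)
  set η : ℝ := min (κ / p) 1 with hη
  have hp0 : 0 < p := by linarith
  have hη0 : 0 < η := lt_min (by positivity) one_pos
  obtain ⟨K, hK, HK⟩ := far_weight b η hb0.le hb1 hη0 (min_le_right _ _)
  -- the common bound of the weights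
  set D : ℝ≥0∞ := ENNReal.ofReal (6 * A₀) + ENNReal.ofReal (3 * Cg * A₀) +
    ENNReal.ofReal (Cg * A₀) * K with hD
  have hDtop : D ≠ ∞ := ENNReal.add_ne_top.2 ⟨ENNReal.add_ne_top.2
    ⟨ENNReal.ofReal_ne_top, ENNReal.ofReal_ne_top⟩, ENNReal.mul_ne_top ENNReal.ofReal_ne_top hK⟩
  set N1 : ℝ≥0∞ := 2 ^ (p - 1) with hN1
  set N2 : ℝ≥0∞ := ((Finset.range (j + 1)).card : ℝ≥0∞) ^ (p - 1) with hN2
  have hN1t : N1 ≠ ∞ := ENNReal.rpow_ne_top_of_nonneg (by linarith) (by simp)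
  have hN2t : N2 ≠ ∞ := ENNReal.rpow_ne_top_of_nonneg (by linarith) (by simp)
  set Q : ℝ≥0∞ := N1 * (N1 * (1 + N2 * ∑ _k ∈ Finset.range (j + 1), N1 * (1 + 1)) + 1) with hQ
  have hQt : Q ≠ ∞ := by
    rw [hQ]
    refine ENNReal.mul_ne_top hN1t (ENNReal.add_ne_top.2 ⟨ENNReal.mul_ne_top hN1t
      (ENNReal.add_ne_top.2 ⟨by simp, ENNReal.mul_ne_top hN2t ?_⟩), by simp⟩)
    rw [Finset.sum_const, nsmul_eq_mul]
    exact ENNReal.mul_ne_top (by simp) (ENNReal.mul_ne_top hN1t (by norm_num))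
  refine ⟨Q * (Cp * D ^ p * ENNReal.ofReal (2 ^ (η * p))), ?_, ?_⟩
  · refine ENNReal.mul_ne_top hQt (ENNReal.mul_ne_top (ENNReal.mul_ne_top hCp ?_)
      ENNReal.ofReal_ne_top)
    exact ENNReal.rpow_ne_top_of_nonneg hp0.le hDtop
  intro r hr g hg hb h0
  have hr0 : 0 < r := by linarith
  set δ : ℝ := r ^ (-(1 / 2 : ℝ)) with hδ
  have hδ0 : 0 < δ := by positivity
  have hδ1 : δ ≤ 1 := Real.rpow_le_one_of_one_le_of_nonpos hr (by norm_num)
  have hrδ : r * δ ^ 2 = 1 := by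
    rw [hδ, ← Real.rpow_natCast, ← Real.rpow_mul hr0.le]
    norm_num
    rw [Real.rpow_neg_one, mul_inv_cancel₀ hr0.ne']
  have hAm : ∀ u ∈ Ioo 0 π, ∫⁻ q : S (j + 2) × S (j + 1), ENNReal.ofReal (am j r q u)
      ∂((sm (j + 2)).prod (sm (j + 1))) ≤ ENNReal.ofReal (A₀ * Real.sin u ^ j) := hA r hr
  have hπ := Real.pi_gt_three
  -- the size of the weights
  set Mw : ℝ≥0∞ := D * ENNReal.ofReal (δ ^ (j + 1) * (δ / 2) ^ (-η)) with hMw
  have hge1 : (1:ℝ) ≤ (δ / 2) ^ (-η) :=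
    Real.one_le_rpow_of_pos_of_le_one_of_nonpos (by positivity) (by linarith) (by linarith)
  have hWn : ENNReal.ofReal (6 * A₀ * δ ^ (j + 1)) ≤ Mw := by
    calc ENNReal.ofReal (6 * A₀ * δ ^ (j + 1))
        ≤ ENNReal.ofReal (6 * A₀) * ENNReal.ofReal (δ ^ (j + 1) * (δ / 2) ^ (-η)) := by
          rw [← ENNReal.ofReal_mul (by positivity)]
          refine ENNReal.ofReal_le_ofReal ?_
          have : δ ^ (j + 1) ≤ δ ^ (j + 1) * (δ / 2) ^ (-η) :=
            le_mul_of_one_le_right (by positivity) hge1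
          gcongr
      _ ≤ Mw := by
          rw [hMw, hD]
          refine mul_le_mul' ?_ le_rfl
          rw [add_assoc]
          exact le_self_add
  have hWb : ENNReal.ofReal (3 * Cg * A₀ * δ ^ (j + 1)) ≤ Mw := by
    calc ENNReal.ofReal (3 * Cg * A₀ * δ ^ (j + 1))
        ≤ ENNReal.ofReal (3 * Cg * A₀) * ENNReal.ofReal (δ ^ (j + 1) * (δ / 2) ^ (-η)) := by
          rw [← ENNReal.ofReal_mul (by positivity)]
          refine ENNReal.ofReal_le_ofReal ?_
          have : δ ^ (j + 1) ≤ δ ^ (j + 1) * (δ / 2) ^ (-η) :=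
            le_mul_of_one_le_right (by positivity) hge1
          gcongr
      _ ≤ Mw := by
          rw [hMw, hD]
          refine mul_le_mul' ?_ le_rfl
          exact le_trans le_add_self le_self_add
  have hWf : ENNReal.ofReal (Cg * A₀ * δ ^ (j + 1)) * (K * ENNReal.ofReal ((δ / 2) ^ (-η)))
      ≤ Mw := by
    calc ENNReal.ofReal (Cg * A₀ * δ ^ (j + 1)) * (K * ENNReal.ofReal ((δ / 2) ^ (-η)))
        = (ENNReal.ofReal (Cg * A₀) * K) * ENNReal.ofReal (δ ^ (j + 1) * (δ / 2) ^ (-η)) := by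
          rw [ENNReal.ofReal_mul (p := Cg * A₀) (by positivity),
            ENNReal.ofReal_mul (p := δ ^ (j + 1)) (by positivity)]
          ring
      _ ≤ Mw := by
          rw [hMw, hD]
          exact mul_le_mul' le_add_self le_rfl
  set B : ℝ≥0∞ := Cp * ENNReal.ofReal (r ^ (2 - p / 2 + κ / 2)) * Mw ^ p with hB
  have hp1 : 1 ≤ p := by linarith
  have H := Hpl r hr
  -- the four families of terms
  have hcosδ : 1 / 2 ≤ Real.cos δ := by
    rw [← Real.cos_pi_div_three]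
    exact Real.cos_le_cos_of_nonneg_of_le_pi hδ0.le (by linarith) (by linarith)
  have hsδ : Real.sin δ ≤ δ := (Real.sin_lt hδ0).le
  have mcos : Measurable fun w : (S (j + 2) × S (j + 1)) × ℝ => Real.cos w.2 := by fun_prop
  have mf1 : ∀ k, Measurable (Function.uncurry fun (w : (S (j + 2) × S (j + 1)) × ℝ) => fk j k g w.1) :=
    fun k => (measurable_fk j k g hg).comp
        (f := fun y : ((S (j + 2) × S (j + 1)) × ℝ) × ℝ => (y.1.1, y.2)) (by fun_prop)
  have ham : Measurable fun w : (S (j + 2) × S (j + 1)) × ℝ => am j r w.1 w.2 :=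
    (continuous_am j r).measurable
  have ham1 : ∀ u : ℝ, Measurable fun q : S (j + 2) × S (j + 1) => am j r q u := fun u =>
    ham.comp (f := fun q : S (j + 2) × S (j + 1) => (q, u)) (by fun_prop)
  have kn : Measurable fun w : (S (j + 2) × S (j + 1)) × ℝ => ENNReal.ofReal (am j r w.1 w.2) :=
    ham.ennreal_ofReal
  have kf : Measurable fun w : (S (j + 2) × S (j + 1)) × ℝ =>
      ENNReal.ofReal (Cg * δ ^ (j + 1) * (am j r w.1 w.2 / Real.sin w.2 ^ (j + 1))) :=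
    (((ham.div (by fun_prop)).const_mul _).ennreal_ofReal)
  have kb : ∀ u : ℝ, Measurable fun q : S (j + 2) × S (j + 1) =>
      ENNReal.ofReal (Cg * δ * am j r q u) := fun u => ((ham1 u).const_mul _).ennreal_ofReal
  have hcos0 : ∀ s : Set ℝ, MeasurableSet s → s ⊆ Ioo 0 π →
      ∀ᵐ w : (S (j + 2) × S (j + 1)) × ℝ
        ∂(((sm (j + 2)).prod (sm (j + 1))).prod (volume.restrict s)), Real.cos w.2 ≠ 0 := by
    intro s hs hsub
    have h1 : ∀ᵐ u ∂(volume.restrict s : Measure ℝ), u ∈ s := ae_restrict_mem hs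
    have h2 : ∀ᵐ u ∂(volume.restrict s : Measure ℝ), u ≠ π / 2 :=
      ae_restrict_of_ae (Measure.ae_ne volume (π / 2))
    have h3 : ∀ᵐ u ∂(volume.restrict s : Measure ℝ), Real.cos u ≠ 0 := by
      filter_upwards [h1, h2] with u hu hu2 hcos
      have hu' := hsub hu
      rcases lt_or_gt_of_ne hu2 with h | h
      · exact (Real.cos_pos_of_mem_Ioo ⟨by linarith [hu'.1], h⟩).ne' hcos
      · exact (Real.cos_neg_of_pi_div_two_lt_of_lt h (by linarith [hu'.2])).ne hcos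
    exact Measure.quasiMeasurePreserving_snd.ae h3
  have hsubn : nearSet δ ⊆ Ioo 0 π := fun u hu => hu.1
  have hsubf : Ioc δ (π - δ) ⊆ Ioo 0 π := fun u hu => ⟨by linarith [hu.1], by linarith [hu.2]⟩
  have Bn := nrm_Tm_le (M := Mw) hp1 r H hr0
    (((sm (j + 2)).prod (sm (j + 1))).prod (volume.restrict (nearSet δ)))
    (fun w => ENNReal.ofReal (am j r w.1 w.2)) kn (fun w => fk j (j + 1) g w.1) (mf1 (j + 1))
    (fun w => norm_fk_le j _ g hb w.1) (fun w => fk_eq_zero j _ g h0 w.1)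
    (fun w => Real.cos w.2) mcos (hcos0 _ (measurableSet_nearSet δ) hsubn)
    (fun w => Real.abs_cos_le_one _)
    ((weight_near hA0 hδ0 hδ1 hb0.le hb1.le hAm).trans hWn)
  have Bf := nrm_Tm_le (M := Mw) hp1 r H hr0
    (((sm (j + 2)).prod (sm (j + 1))).prod (volume.restrict (Ioc δ (π - δ))))
    (fun w => ENNReal.ofReal (Cg * δ ^ (j + 1) * (am j r w.1 w.2 / Real.sin w.2 ^ (j + 1)))) kf
    (fun w => fk j 0 g w.1) (mf1 0)
    (fun w => norm_fk_le j _ g hb w.1) (fun w => fk_eq_zero j _ g h0 w.1)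
    (fun w => Real.cos w.2) mcos (hcos0 _ measurableSet_Ioc hsubf)
    (fun w => Real.abs_cos_le_one _)
    ((weight_far hA0 hδ0 hCg (HK δ hδ0 hδ1) hAm).trans hWf)
  have Bb1 : ∀ k, nrm r p (Tm ((sm (j + 2)).prod (sm (j + 1)))
      (fun q => ENNReal.ofReal (Cg * δ * am j r q δ)) (fk j k g) (fun _ => Real.cos δ)) ≤ B := by
    intro k
    exact nrm_Tm_le (M := Mw) hp1 r H hr0 ((sm (j + 2)).prod (sm (j + 1)))
      (fun q => ENNReal.ofReal (Cg * δ * am j r q δ)) (kb δ) (fk j k g) (measurable_fk j k g hg)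
      (norm_fk_le j _ g hb) (fk_eq_zero j _ g h0) (fun _ => Real.cos δ) measurable_const
      (Filter.Eventually.of_forall fun _ => by
        have : (0:ℝ) < Real.cos δ := by linarith
        exact this.ne')
      (fun _ => Real.abs_cos_le_one _)
      ((weight_bd hA0 hδ0 hb0.le hb1.le hCg ⟨hδ0, by linarith⟩ hsδ
        (hcosδ.trans (le_abs_self _)) hAm).trans hWb)
  have Bb2 : ∀ k, nrm r p (Tm ((sm (j + 2)).prod (sm (j + 1)))
      (fun q => ENNReal.ofReal (Cg * δ * am j r q (π - δ))) (fk j k g)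
      (fun _ => Real.cos (π - δ))) ≤ B := by
    intro k
    have hcos' : Real.cos (π - δ) = - Real.cos δ := Real.cos_pi_sub δ
    exact nrm_Tm_le (M := Mw) hp1 r H hr0 ((sm (j + 2)).prod (sm (j + 1)))
      (fun q => ENNReal.ofReal (Cg * δ * am j r q (π - δ))) (kb (π - δ)) (fk j k g)
      (measurable_fk j k g hg) (norm_fk_le j _ g hb) (fk_eq_zero j _ g h0)
      (fun _ => Real.cos (π - δ)) measurable_const
      (Filter.Eventually.of_forall fun _ => by
        have : Real.cos (π - δ) < 0 := by rw [hcos']; linarith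
        exact this.ne)
      (fun _ => Real.abs_cos_le_one _)
      ((weight_bd hA0 hδ0 hb0.le hb1.le hCg ⟨by linarith, by linarith⟩
        (by rw [Real.sin_pi_sub]; exact hsδ)
        (by rw [hcos', abs_neg]; exact hcosδ.trans (le_abs_self _)) hAm).trans hWb)
  -- measurability of the terms
  set Tn := Tm (((sm (j + 2)).prod (sm (j + 1))).prod (volume.restrict (nearSet δ)))
        (fun w => ENNReal.ofReal (am j r w.1 w.2)) (fun w => fk j (j + 1) g w.1)
        (fun w => Real.cos w.2) with hTn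
  set T1 : ℕ → ℝ → ℝ → ℝ≥0∞ := fun k => Tm ((sm (j + 2)).prod (sm (j + 1)))
      (fun q => ENNReal.ofReal (Cg * δ * am j r q δ)) (fk j k g) (fun _ => Real.cos δ) with hT1
  set T2 : ℕ → ℝ → ℝ → ℝ≥0∞ := fun k => Tm ((sm (j + 2)).prod (sm (j + 1)))
      (fun q => ENNReal.ofReal (Cg * δ * am j r q (π - δ))) (fk j k g)
      (fun _ => Real.cos (π - δ)) with hT2
  set Tf := Tm (((sm (j + 2)).prod (sm (j + 1))).prod (volume.restrict (Ioc δ (π - δ))))
        (fun w => ENNReal.ofReal (Cg * δ ^ (j + 1) * (am j r w.1 w.2 / Real.sin w.2 ^ (j + 1))))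
        (fun w => fk j 0 g w.1) (fun w => Real.cos w.2) with hTf
  have mTn : Measurable (Function.uncurry Tn) := measurable_Tm _ _ kn _ (mf1 (j + 1)) _ mcos
  have mT1 : ∀ k, Measurable (Function.uncurry (T1 k)) := fun k =>
    measurable_Tm _ _ (kb δ) _ (measurable_fk j k g hg) _ measurable_const
  have mT2 : ∀ k, Measurable (Function.uncurry (T2 k)) := fun k =>
    measurable_Tm _ _ (kb (π - δ)) _ (measurable_fk j k g hg) _ measurable_const
  have mTs : Measurable (Function.uncurry fun ρ z => ∑ k ∈ Finset.range (j + 1),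
      (T1 k ρ z + T2 k ρ z)) :=
    Finset.measurable_fun_sum _ fun k _ => (mT1 k).add (mT2 k)
  -- combination
  have hcomb : ∫⁻ ρ in Icc r (2 * r), ∫⁻ z : ℝ,
      ‖cyl j (fun θ => moll r (g θ)) (ρ • eLast (j + 1)) z‖ₑ ^ p ≤ Q * B := by
    calc ∫⁻ ρ in Icc r (2 * r), ∫⁻ z : ℝ,
          ‖cyl j (fun θ => moll r (g θ)) (ρ • eLast (j + 1)) z‖ₑ ^ p
        ≤ nrm r p (fun ρ z => (Tn ρ z + ∑ k ∈ Finset.range (j + 1), (T1 k ρ z + T2 k ρ z)) +
            Tf ρ z) := by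
          unfold nrm
          refine setLIntegral_mono' measurableSet_Icc fun ρ hρ => lintegral_mono fun z => ?_
          exact ENNReal.rpow_le_rpow (Hpt r δ hδ0 hδ1 hrδ g hg hb ρ z hρ.1) hp0.le
      _ ≤ N1 * (nrm r p (fun ρ z => Tn ρ z + ∑ k ∈ Finset.range (j + 1), (T1 k ρ z + T2 k ρ z)) +
            nrm r p Tf) := nrm_add hp1 _ _ (mTn.add mTs)
      _ ≤ N1 * (N1 * (nrm r p Tn + nrm r p (fun ρ z => ∑ k ∈ Finset.range (j + 1),
            (T1 k ρ z + T2 k ρ z))) + nrm r p Tf) := by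
          refine mul_le_mul' le_rfl (add_le_add (nrm_add hp1 _ _ mTn) le_rfl)
      _ ≤ N1 * (N1 * (nrm r p Tn + N2 * ∑ k ∈ Finset.range (j + 1),
            nrm r p (fun ρ z => T1 k ρ z + T2 k ρ z)) + nrm r p Tf) := by
          refine mul_le_mul' le_rfl (add_le_add (mul_le_mul' le_rfl (add_le_add le_rfl
            (nrm_sum hp1 _ _ fun k => (mT1 k).add (mT2 k)))) le_rfl)
      _ ≤ N1 * (N1 * (B + N2 * ∑ k ∈ Finset.range (j + 1), N1 * (B + B)) + B) := by
          refine mul_le_mul' le_rfl (add_le_add (mul_le_mul' le_rfl (add_le_add Bn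
            (mul_le_mul' le_rfl (Finset.sum_le_sum fun k _ => ?_)))) Bf)
          exact (nrm_add hp1 _ _ (mT1 k)).trans (mul_le_mul' le_rfl (add_le_add (Bb1 k) (Bb2 k)))
      _ = Q * B := by
          rw [hQ, Finset.sum_const, Finset.sum_const]
          simp only [nsmul_eq_mul]
          ring
  refine hcomb.trans ?_
  rw [mul_assoc Q]
  refine mul_le_mul' le_rfl ?_
  rw [hB, hMw, ENNReal.mul_rpow_of_nonneg _ _ hp0.le,
    ENNReal.ofReal_rpow_of_nonneg (by positivity) hp0.le]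
  have hfin : r ^ (2 - p / 2 + κ / 2) * (δ ^ (j + 1) * (δ / 2) ^ (-η)) ^ p ≤
      2 ^ (η * p) * r ^ (2 - p / 2 - p * (j + 1) / 2 + κ) := by
    have e1 : (δ ^ (j + 1)) ^ p = r ^ (-(p * (j + 1) / 2)) := by
      rw [hδ, ← Real.rpow_natCast, ← Real.rpow_mul hr0.le, ← Real.rpow_mul hr0.le]
      congr 1
      push_cast
      ring
    have e2 : ((δ / 2) ^ (-η)) ^ p = 2 ^ (η * p) * r ^ (η * p / 2) := by
      rw [← Real.rpow_mul (by positivity), show -η * p = -(η * p) by ring,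
        Real.div_rpow hδ0.le (by norm_num), hδ, ← Real.rpow_mul hr0.le,
        Real.rpow_neg (by norm_num : (0:ℝ) ≤ 2), div_inv_eq_mul, mul_comm]
      congr 2
      ring
    have e3 : η * p / 2 ≤ κ / 2 := by
      have : η ≤ κ / p := min_le_left _ _
      have h2 : η * p ≤ κ := by
        calc η * p ≤ κ / p * p := by gcongr
          _ = κ := by field_simp
      linarith
    rw [Real.mul_rpow (by positivity) (by positivity), e1, e2]
    calc r ^ (2 - p / 2 + κ / 2) * (r ^ (-(p * (j + 1) / 2)) * (2 ^ (η * p) * r ^ (η * p / 2)))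
        = 2 ^ (η * p) * (r ^ (2 - p / 2 + κ / 2) * r ^ (-(p * (j + 1) / 2)) * r ^ (η * p / 2)) := by
          ring
      _ ≤ 2 ^ (η * p) * (r ^ (2 - p / 2 + κ / 2) * r ^ (-(p * (j + 1) / 2)) * r ^ (κ / 2)) := by
          gcongr
      _ = _ := by
          rw [← Real.rpow_add hr0, ← Real.rpow_add hr0]
          congr 2
          ring
  calc Cp * ENNReal.ofReal (r ^ (2 - p / 2 + κ / 2)) *
        (D ^ p * ENNReal.ofReal ((δ ^ (j + 1) * (δ / 2) ^ (-η)) ^ p))
      = Cp * D ^ p * (ENNReal.ofReal (r ^ (2 - p / 2 + κ / 2)) *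
          ENNReal.ofReal ((δ ^ (j + 1) * (δ / 2) ^ (-η)) ^ p)) := by ring
    _ ≤ Cp * D ^ p * (ENNReal.ofReal (2 ^ (η * p)) *
          ENNReal.ofReal (r ^ (2 - p / 2 - p * (j + 1) / 2 + κ))) := by
        rw [← ENNReal.ofReal_mul (by positivity), ← ENNReal.ofReal_mul (by positivity)]
        exact mul_le_mul' le_rfl (ENNReal.ofReal_le_ofReal hfin)
    _ = _ := by ring

end Pool.Agent.MP_6cbfb8_an
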