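import Pool.Agent.MSV.FV
import Pool.Agent.MSV.BV

/-!
The restriction conjecture for the unit sphere of `R^n`, `n = 2 + l ≥ 3`, in the full range
`p > 2n/(n-1)`, for bounded densities which are functions of `(x_1, x_2)` with bounded variation,
or more generally with a quarter of a derivative in `L^2`, along the meridians (the rays of the
plane) or along a family of loxodromes (logarithmic spirals), no regularity at all being assumed
across them, cut by half spaces, and for all superpositions of rotated and modulated densities of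
this kind.
-/

namespace Pool.Agent.Results.MP_6cbfb8_an.MeridianRegularity

open MeasureTheory Set Pool.Agent.MP_6cbfb8_an Pool.Agent.MSV
open scoped ENNReal NNReal Real

/-- Let `l ≥ 1`, `p > 2(l+2)/(l+1)`, `N ∈ ℕ`, `A : ℝ → [0,∞)` and `V ≥ 0`. There is a finite `C`
such that the Fourier transform of every superposition, over a finite measure space, of rotated and
modulated densities on the unit sphere of `R^(2+l)`, each of the form `x ↦ G w (x_1, x_2)` times
the indicator function of an intersection of `N` half spaces, has `L^p` norm at most `C^(1/p)`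
times the total mass of the measure space, provided that each `G w` is measurable, `|G w| ≤ 1` and
either `G w` has variation at most `V` along every ray, or there are real numbers `b`, `c` with
`∫_{|z|<1} |G(z) - e^(ibh) G(e^(-(1+ic)h) z)|² dz / (|z|² √(1-|z|²)) ≤ A(ε) h^(1/2-ε)` for all
`0 < h < 1` and `0 < ε < 1/2`. -/
theorem result (l : ℕ) (hl : 1 ≤ l) (N : ℕ) (p : ℝ) (hp : 2 * ((l : ℝ) + 2) / (l + 1) < p)
    (A : ℝ → ℝ≥0) (V : ℝ≥0) :
    ∃ C : ℝ≥0∞, C ≠ ∞ ∧ ∀ (W : Type) (_ : MeasurableSpace W) (ν : Measure W)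
      (_ : IsFiniteMeasure ν) (R : W → (E (2 + l) ≃ₗᵢ[ℝ] E (2 + l))) (η : W → E (2 + l))
      (G : W → E 2 → ℂ) (v : W → Fin N → E (2 + l)) (d : W → Fin N → ℝ),
      (Measurable fun q : W × E (2 + l) => R q.1 q.2) → Measurable η →
      (Measurable fun q : W × E 2 => G q.1 q.2) → Measurable v → Measurable d →
      (∀ w x, ‖G w x‖ ≤ 1) →
      (∀ w, (∀ ω : E 2, ‖ω‖ = 1 → eVariationOn (fun ρ : ℝ => G w (ρ • ω)) (Ioo 0 1) ≤ V) ∨
        ∃ b c : ℝ, RV A b c (G w)) →
      ∫⁻ ξ, ‖extn (mix ν R η fun w x =>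
        G w (fstE x) * ∏ i, hsn (d w i) (v w i) x) ξ‖ₑ ^ p ≤ C * ν univ ^ p := by
  obtain ⟨A', hA'⟩ := RV_of_variation V
  obtain ⟨C, hC, H⟩ := quarter l hl N p hp (fun ε => max (A ε) (A' ε))
  refine ⟨C, hC, ?_⟩
  intro W _ ν _ R η G v d hR hη hG hv hd hb hcls
  have hmono : ∀ (A₁ A₂ : ℝ → ℝ≥0) (b c : ℝ) (g : E 2 → ℂ), (∀ ε, A₁ ε ≤ A₂ ε) → RV A₁ b c g →
      RV A₂ b c g := by
    intro A₁ A₂ b c g hle h ε h' h1 h2 h3 h4
    refine (h ε h' h1 h2 h3 h4).trans ?_
    gcongr
    exact hle ε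
  have hex : ∀ w, ∃ b c : ℝ, RV (fun ε => max (A ε) (A' ε)) b c (G w) := by
    intro w
    rcases hcls w with h | ⟨b, c, h⟩
    · exact ⟨0, 0, hmono _ _ _ _ _ (fun ε => le_max_right _ _)
        (hA' (G w) (hG.comp (f := fun z : E 2 => (w, z)) (by fun_prop)) (hb w) h)⟩
    · exact ⟨b, c, hmono _ _ _ _ _ (fun ε => le_max_left _ _) h⟩
  choose b c hbc using hex
  exact H W _ ν inferInstance R η b c G v d hR hη hG hv hd hb hbc

end Pool.Agent.Results.MP_6cbfb8_an.MeridianRegularity
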