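import Pool.Agent.MP_6cbfb8_an.Bessel

/-!
The planar extension operator of the half circle: a weighted `L²` bound on vertical lines and
the global `L^q` bound for `q > 4`.
-/

namespace Pool.Agent.MP_6cbfb8_an

open MeasureTheory Set
open scoped ENNReal Real RealInnerProductSpace

theorem cos_push (φ : ℝ → ℝ≥0∞) :
    ∫⁻ θ in Ioo 0 π, ENNReal.ofReal (Real.sin θ) * φ (Real.cos θ) ≤ ∫⁻ x, φ x := by
  have h := lintegral_image_eq_lintegral_abs_deriv_mul (s := Ioo 0 π) (f := Real.cos)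
    (f' := fun θ => -Real.sin θ) measurableSet_Ioo
    (fun x _ => (Real.hasDerivAt_cos x).hasDerivWithinAt)
    (Real.injOn_cos.mono Ioo_subset_Icc_self) φ
  have h2 : ∫⁻ θ in Ioo 0 π, ENNReal.ofReal (Real.sin θ) * φ (Real.cos θ) =
      ∫⁻ θ in Ioo 0 π, ENNReal.ofReal |-Real.sin θ| * φ (Real.cos θ) := by
    refine setLIntegral_congr_fun measurableSet_Ioo fun θ hθ => ?_
    rw [abs_neg, abs_of_pos (Real.sin_pos_of_pos_of_lt_pi hθ.1 hθ.2)]
  rw [h2, ← h]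
  exact setLIntegral_le_lintegral _ _

theorem planar_L2 (f : ℝ → ℂ) (hf : Measurable f) (hb : ∀ θ, ‖f θ‖ ≤ 1) (v : ℝ) :
    ∫⁻ z : ℝ, ‖P f v z‖ₑ ^ (2:ℝ) ≤
      ∫⁻ θ in Ioo 0 π, ‖f θ‖ₑ ^ (2:ℝ) / ENNReal.ofReal (Real.sin θ) := by
  set μ : Measure ℝ := ((volume : Measure ℝ).restrict (Ioo 0 π)).withDensity
    (fun θ => ENNReal.ofReal (Real.sin θ)) with hμ
  have hsm : Measurable (fun θ : ℝ => ENNReal.ofReal (Real.sin θ)) := by fun_prop
  set F : ℝ → ℂ := fun θ => f θ * Complex.exp (((-(2 * π * (v * Real.sin θ)) : ℝ) : ℂ) *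
    Complex.I) / ((Real.sin θ : ℝ) : ℂ) with hFd
  have hmF : Measurable F := by
    rw [hFd]; fun_prop
  have hlt : ∀ᵐ x ∂((volume : Measure ℝ).restrict (Ioo 0 π)),
      ENNReal.ofReal (Real.sin x) < ∞ := Filter.Eventually.of_forall fun x => by simp
  have hcancel : ∀ θ ∈ Ioo 0 π, (ENNReal.ofReal (Real.sin θ)).toReal • F θ =
      f θ * Complex.exp (((-(2 * π * (v * Real.sin θ)) : ℝ) : ℂ) * Complex.I) := by
    intro θ hθ
    have hs := Real.sin_pos_of_pos_of_lt_pi hθ.1 hθ.2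
    have hs' : ((Real.sin θ : ℝ) : ℂ) ≠ 0 := by exact_mod_cast hs.ne'
    rw [ENNReal.toReal_ofReal hs.le, hFd]
    simp only
    rw [Complex.real_smul]
    field_simp
  have hF : Integrable F μ := by
    rw [hμ, integrable_withDensity_iff_integrable_smul' hsm hlt]
    have h1 : IntegrableOn (fun θ => f θ *
        Complex.exp (((-(2 * π * (v * Real.sin θ)) : ℝ) : ℂ) * Complex.I)) (Ioo 0 π) := by
      refine Measure.integrableOn_of_bounded (M := 1) (by simp)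
        (by fun_prop) (Filter.Eventually.of_forall fun θ => ?_)
      rw [norm_mul, Complex.norm_exp_ofReal_mul_I, mul_one]
      exact hb θ
    refine (integrableOn_congr_fun (fun θ hθ => ?_) measurableSet_Ioo).2 h1
    exact hcancel θ hθ
  have hB := bessel μ Real.cos Real.measurable_cos 1 ENNReal.one_ne_top (fun φ hφ => by
    have hφ' : Measurable (fun w : ℝ => φ (Real.cos w)) := hφ.comp Real.measurable_cos
    rw [hμ, lintegral_withDensity_eq_lintegral_mul _ hsm hφ', one_mul]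
    exact cos_push φ) F hF
  rw [one_mul] at hB
  have hL : ∀ z : ℝ, P f v z = ∫ w, F w *
      Complex.exp (((-(2 * π * inner ℝ (Real.cos w) z) : ℝ) : ℂ) * Complex.I) ∂μ := by
    intro z
    rw [hμ, integral_withDensity_eq_integral_toReal_smul hsm hlt]
    unfold P
    refine setIntegral_congr_fun measurableSet_Ioo fun θ hθ => ?_
    rw [← smul_mul_assoc, hcancel θ hθ, mul_assoc (f θ), ← Complex.exp_add]
    congr 2
    have hin : inner ℝ (Real.cos θ) z = z * Real.cos θ := by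
      rw [real_inner_comm]
      simp [inner, mul_comm]
    rw [hin]
    push_cast
    ring
  have hR : ∫⁻ w, ‖F w‖ₑ ^ (2:ℝ) ∂μ =
      ∫⁻ θ in Ioo 0 π, ‖f θ‖ₑ ^ (2:ℝ) / ENNReal.ofReal (Real.sin θ) := by
    rw [hμ, lintegral_withDensity_eq_lintegral_mul _ hsm (by fun_prop)]
    refine setLIntegral_congr_fun measurableSet_Ioo fun θ hθ => ?_
    have hs := Real.sin_pos_of_pos_of_lt_pi hθ.1 hθ.2
    simp only [Pi.mul_apply]
    have hn : ‖F θ‖ₑ = ‖f θ‖ₑ / ENNReal.ofReal (Real.sin θ) := by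
      rw [← ofReal_norm, ← ofReal_norm, ← ENNReal.ofReal_div_of_pos hs]
      congr 1
      rw [hFd]
      simp only
      rw [norm_div, norm_mul, Complex.norm_exp_ofReal_mul_I, mul_one, Complex.norm_real,
        Real.norm_of_nonneg hs.le]
    rw [hn, ENNReal.div_rpow_of_nonneg _ _ (by norm_num)]
    have h0 : ENNReal.ofReal (Real.sin θ) ≠ 0 := by simpa using hs
    have h1 : ENNReal.ofReal (Real.sin θ) ≠ ∞ := ENNReal.ofReal_ne_top
    have h2 : ENNReal.ofReal (Real.sin θ) ^ (2:ℝ) =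
        ENNReal.ofReal (Real.sin θ) * ENNReal.ofReal (Real.sin θ) := by
      rw [← pow_two]; norm_num
    rw [h2, div_eq_mul_inv, div_eq_mul_inv, ENNReal.mul_inv (Or.inl h0) (Or.inl h1)]
    calc ENNReal.ofReal (Real.sin θ) * (‖f θ‖ₑ ^ (2:ℝ) * ((ENNReal.ofReal (Real.sin θ))⁻¹ *
          (ENNReal.ofReal (Real.sin θ))⁻¹))
        = (ENNReal.ofReal (Real.sin θ) * (ENNReal.ofReal (Real.sin θ))⁻¹) *
          (‖f θ‖ₑ ^ (2:ℝ) * (ENNReal.ofReal (Real.sin θ))⁻¹) := by ring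
      _ = ‖f θ‖ₑ ^ (2:ℝ) * (ENNReal.ofReal (Real.sin θ))⁻¹ := by
          rw [ENNReal.mul_inv_cancel h0 h1, one_mul]
  rw [← hR]
  simp_rw [hL]
  exact hB

/-! ### The `L^q` bound -/

/-- The open square. -/
def Dsq : Set (ℝ × ℝ) := Ioo 0 π ×ˢ Ioo 0 π

/-- The part of the square where `|sin (q.2 - q.1)| ≤ ε`. -/
def Near (ε : ℝ) : Set (ℝ × ℝ) := {q | q ∈ Dsq ∧ |Real.sin (q.2 - q.1)| ≤ ε}

/-- Dyadic piece of the square. -/
def Om (k : ℕ) : Set (ℝ × ℝ) :=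
  {q | q ∈ Dsq ∧ (1 / 2 : ℝ) ^ (k + 1) < |Real.sin (q.2 - q.1)| ∧
    |Real.sin (q.2 - q.1)| ≤ (1 / 2) ^ k}

/-- The sum of two points of the circle. -/
noncomputable def Sm (q : ℝ × ℝ) : ℝ × ℝ :=
  (Real.sin q.1 + Real.sin q.2, Real.cos q.1 + Real.cos q.2)

/-- The sum of two points of the circle, as a complex number. -/
noncomputable def Smc (q : ℝ × ℝ) : ℂ :=
  ⟨Real.sin q.1 + Real.sin q.2, Real.cos q.1 + Real.cos q.2⟩

theorem measurableSet_Dsq : MeasurableSet Dsq := measurableSet_Ioo.prod measurableSet_Ioo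

theorem measurable_abs_sin : Measurable (fun q : ℝ × ℝ => |Real.sin (q.2 - q.1)|) := by
  have h : Continuous (fun q : ℝ × ℝ => |Real.sin (q.2 - q.1)|) := by fun_prop
  exact h.measurable

theorem measurableSet_Near (ε : ℝ) : MeasurableSet (Near ε) :=
  measurableSet_Dsq.inter (measurableSet_le measurable_abs_sin measurable_const)

theorem measurableSet_Om (k : ℕ) : MeasurableSet (Om k) :=
  measurableSet_Dsq.inter ((measurableSet_lt measurable_const measurable_abs_sin).inter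
    (measurableSet_le measurable_abs_sin measurable_const))

theorem Sm_half (q : ℝ × ℝ) :
    Sm q = (2 * Real.sin ((q.1 + q.2) / 2) * Real.cos ((q.2 - q.1) / 2),
      2 * Real.cos ((q.1 + q.2) / 2) * Real.cos ((q.2 - q.1) / 2)) := by
  have h1 : q.1 = (q.1 + q.2) / 2 - (q.2 - q.1) / 2 := by ring
  have h2 : q.2 = (q.1 + q.2) / 2 + (q.2 - q.1) / 2 := by ring
  have s1 : Real.sin q.1 = Real.sin ((q.1 + q.2) / 2) * Real.cos ((q.2 - q.1) / 2) -
      Real.cos ((q.1 + q.2) / 2) * Real.sin ((q.2 - q.1) / 2) := by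
    rw [← Real.sin_sub, ← h1]
  have s2 : Real.sin q.2 = Real.sin ((q.1 + q.2) / 2) * Real.cos ((q.2 - q.1) / 2) +
      Real.cos ((q.1 + q.2) / 2) * Real.sin ((q.2 - q.1) / 2) := by
    rw [← Real.sin_add, ← h2]
  have c1 : Real.cos q.1 = Real.cos ((q.1 + q.2) / 2) * Real.cos ((q.2 - q.1) / 2) +
      Real.sin ((q.1 + q.2) / 2) * Real.sin ((q.2 - q.1) / 2) := by
    rw [← Real.cos_sub, ← h1]
  have c2 : Real.cos q.2 = Real.cos ((q.1 + q.2) / 2) * Real.cos ((q.2 - q.1) / 2) -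
      Real.sin ((q.1 + q.2) / 2) * Real.sin ((q.2 - q.1) / 2) := by
    rw [← Real.cos_add, ← h2]
  unfold Sm
  ext
  · simp only
    rw [s1, s2]; ring
  · simp only
    rw [c1, c2]; ring

theorem Sm_injOn : InjOn Sm {q | q ∈ Dsq ∧ q.1 < q.2} := by
  rintro q ⟨⟨⟨hq1, hq2⟩, ⟨hq3, hq4⟩⟩, hq5⟩ p ⟨⟨⟨hp1, hp2⟩, ⟨hp3, hp4⟩⟩, hp5⟩ h
  rw [Sm_half, Sm_half] at h
  obtain ⟨e1, e2⟩ := Prod.mk.inj h
  have hcq : 0 < Real.cos ((q.2 - q.1) / 2) := Real.cos_pos_of_mem_Ioo ⟨by linarith, by linarith⟩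
  have hcp : 0 < Real.cos ((p.2 - p.1) / 2) := Real.cos_pos_of_mem_Ioo ⟨by linarith, by linarith⟩
  have hsq : Real.cos ((q.2 - q.1) / 2) ^ 2 = Real.cos ((p.2 - p.1) / 2) ^ 2 := by
    have i1 := Real.sin_sq_add_cos_sq ((q.1 + q.2) / 2)
    have i2 := Real.sin_sq_add_cos_sq ((p.1 + p.2) / 2)
    have j1 : (2 * Real.sin ((q.1 + q.2) / 2) * Real.cos ((q.2 - q.1) / 2)) ^ 2 +
        (2 * Real.cos ((q.1 + q.2) / 2) * Real.cos ((q.2 - q.1) / 2)) ^ 2 =
        4 * Real.cos ((q.2 - q.1) / 2) ^ 2 := by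
      linear_combination (4 * Real.cos ((q.2 - q.1) / 2) ^ 2) * i1
    have j2 : (2 * Real.sin ((p.1 + p.2) / 2) * Real.cos ((p.2 - p.1) / 2)) ^ 2 +
        (2 * Real.cos ((p.1 + p.2) / 2) * Real.cos ((p.2 - p.1) / 2)) ^ 2 =
        4 * Real.cos ((p.2 - p.1) / 2) ^ 2 := by
      linear_combination (4 * Real.cos ((p.2 - p.1) / 2) ^ 2) * i2
    rw [e1, e2] at j1
    linarith
  have hc : Real.cos ((q.2 - q.1) / 2) = Real.cos ((p.2 - p.1) / 2) :=
    (pow_left_inj₀ hcq.le hcp.le two_ne_zero).1 hsq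
  have hh : (q.2 - q.1) / 2 = (p.2 - p.1) / 2 :=
    Real.injOn_cos ⟨by linarith, by linarith⟩ ⟨by linarith, by linarith⟩ hc
  rw [← hc] at e2
  have hm' : Real.cos ((q.1 + q.2) / 2) = Real.cos ((p.1 + p.2) / 2) := by
    have := mul_right_cancel₀ hcq.ne' e2
    linarith
  have hm : (q.1 + q.2) / 2 = (p.1 + p.2) / 2 :=
    Real.injOn_cos ⟨by linarith, by linarith⟩ ⟨by linarith, by linarith⟩ hm'
  ext <;> linarith

theorem Sm_swap (q : ℝ × ℝ) : Sm q.swap = Sm q := by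
  unfold Sm
  simp only [Prod.fst_swap, Prod.snd_swap, add_comm]

theorem Sm_injOn' : InjOn Sm {q | q ∈ Dsq ∧ q.2 < q.1} := by
  rintro q ⟨⟨hq1, hq2⟩, hq3⟩ p ⟨⟨hp1, hp2⟩, hp3⟩ h
  have := Sm_injOn (show q.swap ∈ {q : ℝ × ℝ | q ∈ Dsq ∧ q.1 < q.2} from ⟨⟨hq2, hq1⟩, hq3⟩)
    (show p.swap ∈ {q : ℝ × ℝ | q ∈ Dsq ∧ q.1 < q.2} from ⟨⟨hp2, hp1⟩, hp3⟩)
    (by rw [Sm_swap, Sm_swap, h])
  exact Prod.swap_injective this

/-- The derivative of `Sm`. -/
noncomputable def fSm (q : ℝ × ℝ) : ℝ × ℝ →L[ℝ] ℝ × ℝ :=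
  (Matrix.toLin (.finTwoProd ℝ) (.finTwoProd ℝ)
    !![Real.cos q.1, Real.cos q.2; -Real.sin q.1, -Real.sin q.2]).toContinuousLinearMap

theorem hasFDerivAt_Sm (q : ℝ × ℝ) : HasFDerivAt Sm (fSm q) q := by
  unfold fSm
  rw [Matrix.toLin_finTwoProd_toContinuousLinearMap]
  have h1 : HasFDerivAt (fun q : ℝ × ℝ => Real.sin q.1) (Real.cos q.1 •
      (ContinuousLinearMap.fst ℝ ℝ ℝ)) q :=
    (Real.hasDerivAt_sin q.1).comp_hasFDerivAt q hasFDerivAt_fst
  have h2 : HasFDerivAt (fun q : ℝ × ℝ => Real.sin q.2) (Real.cos q.2 •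
      (ContinuousLinearMap.snd ℝ ℝ ℝ)) q :=
    (Real.hasDerivAt_sin q.2).comp_hasFDerivAt q hasFDerivAt_snd
  have h3 : HasFDerivAt (fun q : ℝ × ℝ => Real.cos q.1) ((-Real.sin q.1) •
      (ContinuousLinearMap.fst ℝ ℝ ℝ)) q :=
    (Real.hasDerivAt_cos q.1).comp_hasFDerivAt q hasFDerivAt_fst
  have h4 : HasFDerivAt (fun q : ℝ × ℝ => Real.cos q.2) ((-Real.sin q.2) •
      (ContinuousLinearMap.snd ℝ ℝ ℝ)) q :=
    (Real.hasDerivAt_cos q.2).comp_hasFDerivAt q hasFDerivAt_snd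
  exact (h1.add h2).prodMk (h3.add h4)

theorem det_fSm (q : ℝ × ℝ) : (fSm q).det = -Real.sin (q.2 - q.1) := by
  unfold fSm
  simp only [LinearMap.det_toContinuousLinearMap, LinearMap.det_toLin, Matrix.det_fin_two_of]
  rw [Real.sin_sub]
  ring

theorem Sm_push {s : Set (ℝ × ℝ)} (hs : MeasurableSet s) (hinj : InjOn Sm s) {δ : ℝ}
    (hδ : 0 < δ) (hb : ∀ q ∈ s, δ ≤ |Real.sin (q.2 - q.1)|) (φ : ℝ × ℝ → ℝ≥0∞) :
    ∫⁻ q in s, φ (Sm q) ≤ ENNReal.ofReal (1 / δ) * ∫⁻ x, φ x := by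
  have h := lintegral_image_eq_lintegral_abs_det_fderiv_mul (volume : Measure (ℝ × ℝ)) hs
    (fun x _ => (hasFDerivAt_Sm x).hasFDerivWithinAt) hinj φ
  calc ∫⁻ q in s, φ (Sm q)
      ≤ ∫⁻ q in s, ENNReal.ofReal (1 / δ) * (ENNReal.ofReal |(fSm q).det| * φ (Sm q)) := by
        refine setLIntegral_mono' hs fun q hq => ?_
        rw [← mul_assoc, ← ENNReal.ofReal_mul (by positivity)]
        have : 1 ≤ ENNReal.ofReal (1 / δ * |(fSm q).det|) := by
          rw [ENNReal.one_le_ofReal, det_fSm, abs_neg, one_div, ← div_eq_inv_mul, le_div_iff₀ hδ,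
            one_mul]
          exact hb q hq
        calc φ (Sm q) = 1 * φ (Sm q) := (one_mul _).symm
          _ ≤ _ := by gcongr
    _ = ENNReal.ofReal (1 / δ) * ∫⁻ x in Sm '' s, φ x := by
        rw [lintegral_const_mul' _ _ ENNReal.ofReal_ne_top, h]
    _ ≤ ENNReal.ofReal (1 / δ) * ∫⁻ x, φ x := by
        gcongr
        exact Measure.restrict_le_self

theorem lintegral_complex (φ : ℂ → ℝ≥0∞) (hφ : Measurable φ) :
    ∫⁻ x : ℂ, φ x = ∫⁻ q : ℝ × ℝ, φ ⟨q.1, q.2⟩ := by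
  have h := Complex.volume_preserving_equiv_real_prod.symm.lintegral_comp hφ
  rw [← h]
  rfl

theorem Om_push (k : ℕ) (φ : ℂ → ℝ≥0∞) (hφ : Measurable φ) :
    ∫⁻ q in Om k, φ (Smc q) ≤ 2 ^ (k + 2) * ∫⁻ x, φ x := by
  rw [lintegral_complex φ hφ]
  set ψ : ℝ × ℝ → ℝ≥0∞ := fun q => φ ⟨q.1, q.2⟩ with hψ
  have hsplit : Om k ⊆ (Om k ∩ {q | q.1 < q.2}) ∪ (Om k ∩ {q | q.2 < q.1}) := by
    rintro q hq
    rcases lt_trichotomy q.1 q.2 with h | h | h
    · exact Or.inl ⟨hq, h⟩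
    · exfalso
      have := hq.2.1
      rw [h, sub_self, Real.sin_zero, abs_zero] at this
      have h2 : (0:ℝ) < (1 / 2) ^ (k + 1) := by positivity
      linarith
    · exact Or.inr ⟨hq, h⟩
  have hm1 : MeasurableSet (Om k ∩ {q : ℝ × ℝ | q.1 < q.2}) :=
    (measurableSet_Om k).inter (measurableSet_lt measurable_fst measurable_snd)
  have hm2 : MeasurableSet (Om k ∩ {q : ℝ × ℝ | q.2 < q.1}) :=
    (measurableSet_Om k).inter (measurableSet_lt measurable_snd measurable_fst)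
  have hδ : (0:ℝ) < (1 / 2) ^ (k + 1) := by positivity
  have s1 : (Om k ∩ {q : ℝ × ℝ | q.1 < q.2}) ⊆ {q | q ∈ Dsq ∧ q.1 < q.2} :=
    fun q hq => ⟨hq.1.1, hq.2⟩
  have s2 : (Om k ∩ {q : ℝ × ℝ | q.2 < q.1}) ⊆ {q | q ∈ Dsq ∧ q.2 < q.1} :=
    fun q hq => ⟨hq.1.1, hq.2⟩
  have b1 := Sm_push hm1 (Sm_injOn.mono s1) hδ (fun q hq => hq.1.2.1.le) ψ
  have b2 := Sm_push hm2 (Sm_injOn'.mono s2) hδ (fun q hq => hq.1.2.1.le) ψ
  have hval : ENNReal.ofReal (1 / (1 / 2) ^ (k + 1)) = 2 ^ (k + 1) := by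
    have : (1:ℝ) / (1 / 2) ^ (k + 1) = 2 ^ (k + 1) := by
      rw [one_div, one_div, inv_pow, inv_inv]
    rw [this, ENNReal.ofReal_pow (by norm_num)]
    norm_num
  rw [hval] at b1 b2
  calc ∫⁻ q in Om k, φ (Smc q) = ∫⁻ q in Om k, ψ (Sm q) := rfl
    _ ≤ ∫⁻ q in (Om k ∩ {q | q.1 < q.2}) ∪ (Om k ∩ {q | q.2 < q.1}), ψ (Sm q) :=
        lintegral_mono_set hsplit
    _ ≤ (∫⁻ q in Om k ∩ {q | q.1 < q.2}, ψ (Sm q)) +
          ∫⁻ q in Om k ∩ {q | q.2 < q.1}, ψ (Sm q) := lintegral_union_le _ _ _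
    _ ≤ 2 ^ (k + 1) * (∫⁻ x, ψ x) + 2 ^ (k + 1) * ∫⁻ x, ψ x := add_le_add b1 b2
    _ = 2 ^ (k + 2) * ∫⁻ x, ψ x := by
        rw [pow_succ (2 : ℝ≥0∞) (k + 1)]; ring

theorem near_mem {x ε : ℝ} (h1 : -π < x) (h2 : x < π) (hx : |Real.sin x| ≤ ε) :
    x ∈ Icc (-(π * ε / 2)) (π * ε / 2) ∪ (Icc (π - π * ε / 2) π ∪
      Icc (-π) (-π + π * ε / 2)) := by
  have hpi := Real.pi_pos
  have key : ∀ y : ℝ, 0 ≤ y → y ≤ π / 2 → Real.sin y ≤ ε → y ≤ π * ε / 2 := by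
    intro y hy1 hy2 hy3
    have h4 := Real.mul_le_sin hy1 hy2
    have h5 : 2 / π * y ≤ ε := h4.trans hy3
    rw [div_mul_eq_mul_div, div_le_iff₀ hpi] at h5
    linarith
  rcases le_total 0 x with h0 | h0
  · have hs := Real.sin_nonneg_of_nonneg_of_le_pi h0 h2.le
    rw [abs_of_nonneg hs] at hx
    rcases le_total x (π / 2) with h3 | h3
    · left
      have := key x h0 h3 hx
      exact ⟨by linarith, this⟩
    · right; left
      have := key (π - x) (by linarith) (by linarith) (by rwa [Real.sin_pi_sub])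
      exact ⟨by linarith, h2.le⟩
  · have hs := Real.sin_nonneg_of_nonneg_of_le_pi (x := -x) (by linarith) (by linarith)
    have hx' : Real.sin (-x) ≤ ε := by
      refine le_trans (le_abs_self _) ?_
      rwa [Real.sin_neg, abs_neg]
    rcases le_total (-x) (π / 2) with h3 | h3
    · left
      have := key (-x) (by linarith) h3 hx'
      exact ⟨by linarith, by linarith⟩
    · right; right
      have := key (π - -x) (by linarith) (by linarith) (by rwa [Real.sin_pi_sub])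
      exact ⟨h1.le, by linarith⟩

theorem vol_Near {ε : ℝ} (hε : 0 ≤ ε) : volume (Near ε) ≤ ENNReal.ofReal (2 * π ^ 2 * ε) := by
  have hpi := Real.pi_pos
  set T : Set ℝ := Icc (-(π * ε / 2)) (π * ε / 2) ∪ (Icc (π - π * ε / 2) π ∪
      Icc (-π) (-π + π * ε / 2)) with hT
  have hmT : MeasurableSet T := by rw [hT]; measurability
  have hvT : volume T ≤ ENNReal.ofReal (2 * π * ε) := by
    calc volume T ≤ volume (Icc (-(π * ε / 2)) (π * ε / 2)) + (volume (Icc (π - π * ε / 2) π) +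
        volume (Icc (-π) (-π + π * ε / 2))) :=
          (measure_union_le _ _).trans (add_le_add le_rfl (measure_union_le _ _))
      _ = ENNReal.ofReal (2 * π * ε) := by
          rw [Real.volume_Icc, Real.volume_Icc, Real.volume_Icc,
            ← ENNReal.ofReal_add (by nlinarith [mul_nonneg hpi.le hε])
              (by nlinarith [mul_nonneg hpi.le hε]),
            ← ENNReal.ofReal_add (by nlinarith [mul_nonneg hpi.le hε])
              (by nlinarith [mul_nonneg hpi.le hε])]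
          congr 1
          ring
  rw [Measure.volume_eq_prod, Measure.prod_apply (measurableSet_Near ε)]
  calc ∫⁻ x : ℝ, volume (Prod.mk x ⁻¹' Near ε)
      ≤ ∫⁻ x : ℝ, (Ioo 0 π).indicator (fun _ => ENNReal.ofReal (2 * π * ε)) x := by
        refine lintegral_mono fun x => ?_
        by_cases hx : x ∈ Ioo 0 π
        · rw [indicator_of_mem hx]
          have hsub : Prod.mk x ⁻¹' Near ε ⊆ (fun y => y + -x) ⁻¹' T := by
            intro y hy
            obtain ⟨⟨hy1, hy2⟩, hy3⟩ := hy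
            simp only at hy1 hy2 hy3
            have : y - x ∈ T := near_mem (by linarith [hy1.2, hy2.1]) (by linarith [hy1.1, hy2.2]) hy3
            simpa [sub_eq_add_neg] using this
          refine (measure_mono hsub).trans ?_
          rw [measure_preimage_add_right]
          exact hvT
        · rw [indicator_of_notMem hx]
          have : Prod.mk x ⁻¹' Near ε = ∅ := by
            ext y
            simp only [mem_preimage, mem_empty_iff_false, iff_false]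
            intro hy
            exact hx hy.1.1
          rw [this]
          simp
    _ = ENNReal.ofReal (2 * π ^ 2 * ε) := by
        rw [lintegral_indicator measurableSet_Ioo, setLIntegral_const, Real.volume_Ioo,
          ← ENNReal.ofReal_mul (by positivity)]
        congr 1
        ring

theorem vol_Om (k : ℕ) : volume (Om k) ≤ ENNReal.ofReal (2 * π ^ 2 * (1 / 2) ^ k) :=
  (measure_mono fun q hq => (⟨hq.1, hq.2.2⟩ : q ∈ Near ((1 / 2) ^ k))).trans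
    (vol_Near (by positivity))

theorem Dsq_ae : Dsq =ᵐ[volume] ⋃ k, Om k := by
  have h0 : volume (Near 0) = 0 := by
    have := vol_Near (le_refl (0:ℝ))
    simpa using this
  have h1 : Dsq ⊆ (⋃ k, Om k) ∪ Near 0 := by
    intro q hq
    rcases (abs_nonneg (Real.sin (q.2 - q.1))).eq_or_lt with h | h
    · exact Or.inr ⟨hq, h.symm.le⟩
    · left
      obtain ⟨k, hk1, hk2⟩ := exists_nat_pow_near_of_lt_one h (Real.abs_sin_le_one _)
        (show (0:ℝ) < 1 / 2 by norm_num) (by norm_num)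
      exact mem_iUnion.2 ⟨k, hq, hk1, hk2⟩
  have h2 : (⋃ k, Om k) ⊆ Dsq := iUnion_subset fun k q hq => hq.1
  refine Filter.EventuallyLE.antisymm ?_ h2.eventuallyLE
  have h3 : ∀ᵐ q ∂(volume : Measure (ℝ × ℝ)), q ∉ Near 0 := measure_eq_zero_iff_ae_notMem.1 h0
  filter_upwards [h3] with q hq
  intro hqD
  rcases h1 hqD with h | h
  · exact h
  · exact absurd h hq

theorem Om_disjoint : Pairwise (Function.onFun Disjoint Om) := by
  have key : ∀ k l : ℕ, k < l → ∀ q, q ∈ Om k → q ∉ Om l := by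
    intro k l hkl q hk hl
    have h1 := hk.2.1
    have h2 := hl.2.2
    have h3 : ((1:ℝ) / 2) ^ l ≤ (1 / 2) ^ (k + 1) :=
      pow_le_pow_of_le_one (by norm_num) (by norm_num) hkl
    linarith
  intro k l hkl
  rw [Function.onFun, Set.disjoint_left]
  intro q hk hl
  rcases lt_or_gt_of_ne hkl with h | h
  · exact key k l h q hk hl
  · exact key l k h q hl hk

/-- The oscillatory integral over a set of pairs. -/
noncomputable def Gk (f : ℝ → ℂ) (s : Set (ℝ × ℝ)) (ξ : ℂ) : ℂ :=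
  ∫ q in s, (f q.1 * f q.2) * ph Smc q ξ

theorem measurable_Smc : Measurable Smc := by
  have h : Continuous (fun q : ℝ × ℝ => (((Real.sin q.1 + Real.sin q.2 : ℝ) : ℂ) +
      ((Real.cos q.1 + Real.cos q.2 : ℝ) : ℂ) * Complex.I)) := by fun_prop
  have h2 : Smc = (fun q : ℝ × ℝ => (((Real.sin q.1 + Real.sin q.2 : ℝ) : ℂ) +
      ((Real.cos q.1 + Real.cos q.2 : ℝ) : ℂ) * Complex.I)) := by
    funext q
    unfold Smc
    apply Complex.ext
    · simp only [Complex.add_re, Complex.ofReal_re, Complex.mul_re, Complex.I_re, mul_zero,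
        Complex.ofReal_im, Complex.I_im, mul_one, sub_self, add_zero]
    · simp only [Complex.add_im, Complex.ofReal_re, Complex.mul_im, Complex.I_re, mul_zero,
        Complex.ofReal_im, Complex.I_im, mul_one, zero_add, add_zero]
  rw [h2]
  exact h.measurable

theorem volume_Dsq_lt : volume Dsq < ∞ := by
  unfold Dsq
  rw [Measure.volume_eq_prod, Measure.prod_prod, Real.volume_Ioo]
  exact ENNReal.mul_lt_top ENNReal.ofReal_lt_top ENNReal.ofReal_lt_top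

theorem measurable_pair {f : ℝ → ℂ} (hf : Measurable f) :
    Measurable (fun q : ℝ × ℝ => f q.1 * f q.2) :=
  (hf.comp measurable_fst).mul (hf.comp measurable_snd)

theorem norm_pair_le {f : ℝ → ℂ} (hb : ∀ θ, ‖f θ‖ ≤ 1) (q : ℝ × ℝ) : ‖f q.1 * f q.2‖ ≤ 1 := by
  rw [norm_mul]
  exact mul_le_one₀ (hb _) (norm_nonneg _) (hb _)

theorem integrableOn_pair {f : ℝ → ℂ} (hf : Measurable f) (hb : ∀ θ, ‖f θ‖ ≤ 1)
    {s : Set (ℝ × ℝ)} (hs : s ⊆ Dsq) :
    IntegrableOn (fun q : ℝ × ℝ => f q.1 * f q.2) s :=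
  Measure.integrableOn_of_bounded (M := 1)
    ((measure_mono hs).trans_lt volume_Dsq_lt).ne (measurable_pair hf).aestronglyMeasurable
    (Filter.Eventually.of_forall fun q => norm_pair_le hb q)

theorem integrableOn_pair_ph {f : ℝ → ℂ} (hf : Measurable f) (hb : ∀ θ, ‖f θ‖ ≤ 1)
    {s : Set (ℝ × ℝ)} (hs : s ⊆ Dsq) (ξ : ℂ) :
    IntegrableOn (fun q : ℝ × ℝ => (f q.1 * f q.2) * ph Smc q ξ) s := by
  have hm : Measurable (fun q : ℝ × ℝ => ph Smc q ξ) := by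
    have h1 : Measurable (fun q : ℝ × ℝ => (inner ℝ (Smc q) ξ : ℝ)) :=
      measurable_Smc.inner_const
    unfold ph
    fun_prop
  exact Measure.integrableOn_of_bounded (M := 1)
    ((measure_mono hs).trans_lt volume_Dsq_lt).ne
    ((measurable_pair hf).mul hm).aestronglyMeasurable
    (Filter.Eventually.of_forall fun q => by
      rw [norm_mul, norm_ph, mul_one]; exact norm_pair_le hb q)

theorem sq_eq (f : ℝ → ℂ) (v z : ℝ) : P f v z ^ 2 = Gk f Dsq ⟨v, z⟩ := by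
  unfold P Gk Dsq
  rw [pow_two, ← setIntegral_prod_mul, ← Measure.volume_eq_prod]
  refine setIntegral_congr_fun (measurableSet_Ioo.prod measurableSet_Ioo) fun q _ => ?_
  unfold ph
  rw [mul_mul_mul_comm, ← Complex.exp_add]
  congr 2
  have hin : inner ℝ (Smc q) (⟨v, z⟩ : ℂ) = (Real.sin q.1 + Real.sin q.2) * v +
      (Real.cos q.1 + Real.cos q.2) * z := by
    rw [Complex.inner]
    simp [Smc]
    ring
  rw [hin]
  push_cast
  ring

theorem measurable_Gk {f : ℝ → ℂ} (hf : Measurable f) (s : Set (ℝ × ℝ)) :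
    StronglyMeasurable (Gk f s) := by
  unfold Gk
  have : Measurable (fun p : ℂ × (ℝ × ℝ) => (f p.2.1 * f p.2.2) * ph Smc p.2 p.1) :=
    ((measurable_pair hf).comp measurable_snd).mul (measurable_ph measurable_Smc)
  exact this.stronglyMeasurable.integral_prod_right'

theorem Gk_sup {f : ℝ → ℂ} (hb : ∀ θ, ‖f θ‖ ≤ 1) (k : ℕ) (ξ : ℂ) :
    ‖Gk f (Om k) ξ‖ₑ ≤ ENNReal.ofReal (2 * π ^ 2 * (1 / 2) ^ k) := by
  refine (enorm_integral_le_lintegral_enorm _).trans ?_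
  calc ∫⁻ q in Om k, ‖(f q.1 * f q.2) * ph Smc q ξ‖ₑ ≤ ∫⁻ q in Om k, 1 := by
        refine lintegral_mono fun q => ?_
        rw [← ofReal_norm, norm_mul, norm_ph, mul_one]
        exact ENNReal.ofReal_le_one.2 (norm_pair_le hb q)
    _ = volume (Om k) := by simp
    _ ≤ _ := vol_Om k

theorem Gk_L2 {f : ℝ → ℂ} (hf : Measurable f) (hb : ∀ θ, ‖f θ‖ ≤ 1) (k : ℕ) :
    ∫⁻ ξ, ‖Gk f (Om k) ξ‖ₑ ^ (2:ℝ) ≤
      2 ^ (k + 2) * ENNReal.ofReal (2 * π ^ 2 * (1 / 2) ^ k) := by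
  have hB := bessel ((volume : Measure (ℝ × ℝ)).restrict (Om k)) Smc measurable_Smc (2 ^ (k + 2))
    (by simp) (fun φ hφ => Om_push k φ hφ) (fun q => f q.1 * f q.2)
    (integrableOn_pair hf hb fun q hq => hq.1)
  refine hB.trans ?_
  gcongr
  calc ∫⁻ q in Om k, ‖f q.1 * f q.2‖ₑ ^ (2:ℝ) ≤ ∫⁻ q in Om k, 1 := by
        refine lintegral_mono fun q => ?_
        refine ENNReal.rpow_le_one ?_ (by norm_num)
        rw [← ofReal_norm]
        exact ENNReal.ofReal_le_one.2 (norm_pair_le hb q)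
    _ = volume (Om k) := by simp
    _ ≤ _ := vol_Om k

theorem Gk_Lt {f : ℝ → ℂ} (hf : Measurable f) (hb : ∀ θ, ‖f θ‖ ≤ 1) (k : ℕ) {t : ℝ}
    (ht : 2 < t) :
    ∫⁻ ξ, ‖Gk f (Om k) ξ‖ₑ ^ t ≤ ENNReal.ofReal (2 * π ^ 2 * (1 / 2) ^ k) ^ (t - 2) *
      (2 ^ (k + 2) * ENNReal.ofReal (2 * π ^ 2 * (1 / 2) ^ k)) := by
  calc ∫⁻ ξ, ‖Gk f (Om k) ξ‖ₑ ^ t
      ≤ ∫⁻ ξ, ENNReal.ofReal (2 * π ^ 2 * (1 / 2) ^ k) ^ (t - 2) *
          ‖Gk f (Om k) ξ‖ₑ ^ (2:ℝ) := by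
        refine lintegral_mono fun ξ => ?_
        have : ‖Gk f (Om k) ξ‖ₑ ^ t = ‖Gk f (Om k) ξ‖ₑ ^ (t - 2) *
            ‖Gk f (Om k) ξ‖ₑ ^ (2:ℝ) := by
          rw [← ENNReal.rpow_add_of_nonneg _ _ (by linarith) (by norm_num)]
          congr 1
          ring
        rw [this]
        gcongr
        exact Gk_sup hb k ξ
    _ = ENNReal.ofReal (2 * π ^ 2 * (1 / 2) ^ k) ^ (t - 2) *
          ∫⁻ ξ, ‖Gk f (Om k) ξ‖ₑ ^ (2:ℝ) := by
        rw [lintegral_const_mul' _ _ (ENNReal.rpow_ne_top_of_nonneg (by linarith)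
          ENNReal.ofReal_ne_top)]
    _ ≤ _ := by
        gcongr
        exact Gk_L2 hf hb k

theorem Gk_sum {f : ℝ → ℂ} (hf : Measurable f) (hb : ∀ θ, ‖f θ‖ ≤ 1) (ξ : ℂ) :
    ‖Gk f Dsq ξ‖ₑ ≤ ∑' k, ‖Gk f (Om k) ξ‖ₑ := by
  have h1 : Gk f Dsq ξ = Gk f (⋃ k, Om k) ξ := by
    unfold Gk
    exact setIntegral_congr_set Dsq_ae
  have h2 : Gk f (⋃ k, Om k) ξ = ∑' k, Gk f (Om k) ξ := by
    unfold Gk
    exact integral_iUnion measurableSet_Om Om_disjoint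
      (integrableOn_pair_ph hf hb (iUnion_subset fun k q hq => hq.1) ξ)
  rw [h1, h2]
  exact enorm_tsum_le_tsum_enorm

theorem tsum_rpow_le (a w : ℕ → ℝ≥0∞) (hw0 : ∀ k, w k ≠ 0) (hwt : ∀ k, w k ≠ ∞) {t : ℝ}
    (ht : 0 < t) :
    (∑' k, a k) ^ t ≤ (∑' k, w k) ^ t * ∑' k, a k ^ t / w k ^ t := by
  set S := ∑' k, a k ^ t / w k ^ t with hS
  have h1 : ∀ k, a k ≤ w k * S ^ (1 / t) := by
    intro k
    have h2 : (a k / w k) ^ t ≤ S := by
      rw [ENNReal.div_rpow_of_nonneg _ _ ht.le]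
      exact ENNReal.le_tsum k
    have h3 : a k / w k ≤ S ^ (1 / t) := by
      rw [one_div]
      exact (ENNReal.le_rpow_inv_iff ht).2 h2
    calc a k = w k * (a k / w k) := (ENNReal.mul_div_cancel (hw0 k) (hwt k)).symm
      _ ≤ _ := by gcongr
  calc (∑' k, a k) ^ t ≤ (∑' k, w k * S ^ (1 / t)) ^ t := by
        gcongr with k
        exact h1 k
    _ = ((∑' k, w k) * S ^ (1 / t)) ^ t := by rw [ENNReal.tsum_mul_right]
    _ = (∑' k, w k) ^ t * S := by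
        rw [ENNReal.mul_rpow_of_nonneg _ _ ht.le, ← ENNReal.rpow_mul, one_div,
          inv_mul_cancel₀ ht.ne', ENNReal.rpow_one]

theorem planar_Lq (q : ℝ) (hq : 4 < q) : ∃ C : ℝ≥0∞, C ≠ ∞ ∧ ∀ f : ℝ → ℂ, Measurable f →
    (∀ θ, ‖f θ‖ ≤ 1) → ∫⁻ v : ℝ, ∫⁻ z : ℝ, ‖P f v z‖ₑ ^ q ≤ C := by
  obtain ⟨t, ht⟩ : ∃ t : ℝ, t = q / 2 := ⟨_, rfl⟩
  have ht2 : 2 < t := by rw [ht]; linarith
  have ht0 : 0 < t := by linarith
  set ρ : ℝ := (1 / 2) ^ ((t - 2) / (2 * t)) with hρ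
  set σ : ℝ := (1 / 2) ^ ((t - 2) / 2) with hσ
  have hρ0 : 0 < ρ := by positivity
  have hρ1 : ρ < 1 := Real.rpow_lt_one (by norm_num) (by norm_num)
    (div_pos (by linarith) (by linarith))
  have hσ0 : 0 < σ := by positivity
  have hσ1 : σ < 1 := Real.rpow_lt_one (by norm_num) (by norm_num) (by linarith)
  have hρσ : ρ ^ t = σ := by
    rw [hρ, hσ, ← Real.rpow_mul (by norm_num)]
    congr 1
    field_simp
  have hσσ : ((1:ℝ) / 2) ^ (t - 2) = σ * σ := by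
    rw [hσ, ← Real.rpow_add (by norm_num)]
    congr 1
    ring
  set w : ℕ → ℝ≥0∞ := fun k => ENNReal.ofReal (ρ ^ k) with hw
  have hw0 : ∀ k, w k ≠ 0 := fun k => by
    have : 0 < ρ ^ k := by positivity
    simpa [hw] using this
  have hwt : ∀ k, w k ≠ ∞ := fun k => ENNReal.ofReal_ne_top
  have hW : ∑' k, w k ≠ ∞ := by
    rw [hw, ← ENNReal.ofReal_tsum_of_nonneg (fun k => by positivity)
      (summable_geometric_of_lt_one hρ0.le hρ1)]
    exact ENNReal.ofReal_ne_top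
  set C0 : ℝ := (2 * π ^ 2) ^ (t - 2) * (2 * π ^ 2 * 4) with hC0
  have hterm : ∀ k : ℕ, (ENNReal.ofReal (2 * π ^ 2 * (1 / 2) ^ k) ^ (t - 2) *
      (2 ^ (k + 2) * ENNReal.ofReal (2 * π ^ 2 * (1 / 2) ^ k))) / w k ^ t =
      ENNReal.ofReal (C0 * σ ^ k) := by
    intro k
    have e1 : (2 : ℝ≥0∞) ^ (k + 2) = ENNReal.ofReal (2 ^ (k + 2)) := by
      rw [ENNReal.ofReal_pow (by norm_num)]
      norm_num
    rw [e1, ENNReal.ofReal_rpow_of_nonneg (by positivity) (by linarith),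
      ← ENNReal.ofReal_mul (by positivity), ← ENNReal.ofReal_mul (by positivity), hw]
    simp only
    rw [ENNReal.ofReal_rpow_of_nonneg (by positivity) ht0.le,
      ← ENNReal.ofReal_div_of_pos (by positivity)]
    congr 1
    have e2 : (ρ ^ k) ^ t = σ ^ k := by
      rw [← Real.rpow_natCast, ← Real.rpow_mul hρ0.le, mul_comm, Real.rpow_mul hρ0.le, hρσ,
        Real.rpow_natCast]
    have e3 : (((1:ℝ) / 2) ^ k) ^ (t - 2) = σ ^ k * σ ^ k := by
      rw [← mul_pow, ← hσσ, ← Real.rpow_natCast, ← Real.rpow_mul (by norm_num), mul_comm,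
        Real.rpow_mul (by norm_num), Real.rpow_natCast]
    have e4 : (2:ℝ) ^ (k + 2) * (1 / 2) ^ k = 4 := by
      rw [pow_add, one_div, inv_pow]
      field_simp
      norm_num
    rw [Real.mul_rpow (by positivity) (by positivity), e2, e3, div_eq_iff (by positivity), hC0]
    calc (2 * π ^ 2) ^ (t - 2) * (σ ^ k * σ ^ k) * (2 ^ (k + 2) * (2 * π ^ 2 * (1 / 2) ^ k))
        = (2 * π ^ 2) ^ (t - 2) * (2 * π ^ 2) * (2 ^ (k + 2) * (1 / 2) ^ k) *
          (σ ^ k * σ ^ k) := by ring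
      _ = _ := by rw [e4]; ring
  have hC : ∑' k : ℕ, (ENNReal.ofReal (2 * π ^ 2 * (1 / 2) ^ k) ^ (t - 2) *
      (2 ^ (k + 2) * ENNReal.ofReal (2 * π ^ 2 * (1 / 2) ^ k))) / w k ^ t ≠ ∞ := by
    simp_rw [hterm]
    rw [← ENNReal.ofReal_tsum_of_nonneg (fun k => by positivity)
      ((summable_geometric_of_lt_one hσ0.le hσ1).mul_left C0)]
    exact ENNReal.ofReal_ne_top
  refine ⟨(∑' k, w k) ^ t * ∑' k : ℕ, (ENNReal.ofReal (2 * π ^ 2 * (1 / 2) ^ k) ^ (t - 2) *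
      (2 ^ (k + 2) * ENNReal.ofReal (2 * π ^ 2 * (1 / 2) ^ k))) / w k ^ t,
    ENNReal.mul_ne_top (ENNReal.rpow_ne_top_of_nonneg ht0.le hW) hC, ?_⟩
  intro f hf hb
  have hpt : ∀ v z, ‖P f v z‖ₑ ^ q = ‖Gk f Dsq ⟨v, z⟩‖ₑ ^ t := by
    intro v z
    rw [← sq_eq, enorm_pow, ← ENNReal.rpow_natCast, ← ENNReal.rpow_mul]
    congr 1
    rw [ht]
    push_cast
    ring
  have hmG : ∀ s, Measurable (fun ξ => ‖Gk f s ξ‖ₑ ^ t) := fun s =>
    (measurable_Gk hf s).measurable.enorm.pow_const _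
  have hmk : Measurable (fun p : ℝ × ℝ => (⟨p.1, p.2⟩ : ℂ)) :=
    Complex.measurableEquivRealProd.symm.measurable
  calc ∫⁻ v : ℝ, ∫⁻ z : ℝ, ‖P f v z‖ₑ ^ q
      = ∫⁻ v : ℝ, ∫⁻ z : ℝ, ‖Gk f Dsq ⟨v, z⟩‖ₑ ^ t := by simp_rw [hpt]
    _ = ∫⁻ p : ℝ × ℝ, ‖Gk f Dsq ⟨p.1, p.2⟩‖ₑ ^ t := by
        rw [Measure.volume_eq_prod,
          lintegral_prod (fun p : ℝ × ℝ => ‖Gk f Dsq ⟨p.1, p.2⟩‖ₑ ^ t)
            ((hmG Dsq).comp hmk).aemeasurable]
    _ = ∫⁻ ξ : ℂ, ‖Gk f Dsq ξ‖ₑ ^ t := (lintegral_complex _ (hmG Dsq)).symm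
    _ ≤ ∫⁻ ξ : ℂ, (∑' k, w k) ^ t * ∑' k, ‖Gk f (Om k) ξ‖ₑ ^ t / w k ^ t := by
        refine lintegral_mono fun ξ => ?_
        calc ‖Gk f Dsq ξ‖ₑ ^ t ≤ (∑' k, ‖Gk f (Om k) ξ‖ₑ) ^ t := by
              gcongr
              exact Gk_sum hf hb ξ
          _ ≤ _ := tsum_rpow_le _ w hw0 hwt ht0
    _ = (∑' k, w k) ^ t * ∑' k, (∫⁻ ξ : ℂ, ‖Gk f (Om k) ξ‖ₑ ^ t) / w k ^ t := by
        rw [lintegral_const_mul' _ _ (ENNReal.rpow_ne_top_of_nonneg ht0.le hW),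
          lintegral_tsum fun k => ((hmG (Om k)).div_const _).aemeasurable]
        congr 1
        refine tsum_congr fun k => ?_
        simp_rw [div_eq_mul_inv]
        rw [lintegral_mul_const _ (hmG (Om k))]
    _ ≤ _ := by
        gcongr with k
        exact Gk_Lt hf hb k ht2

end Pool.Agent.MP_6cbfb8_an
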