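import Pool.Agent.HB.RV

/-!
The restriction conjecture for the unit sphere of `R^(2m) = C^m`, `m ≥ 2`, in the full conjectured
range `p > 2n/(n-1)`, `n = 2m`, for the boundary values of bounded pluriharmonic functions on the
ball (no regularity at all is assumed; holomorphic functions, for instance inner functions, are a
special case), cut by half spaces, and for all superpositions of rotated and modulated densities
of this kind.
-/

namespace Pool.Agent.MP_6cbfb8_an.PluriharmonicVariant

open MeasureTheory Set Pool.Agent.MP_6cbfb8_an Pool.Agent.HB
open scoped ENNReal Real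

/-- For `m ≥ 2`, `p > 2n/(n-1)`, `n = 2m`, and every number `N` of half spaces there is a finite `C`
such that the Fourier transform of every superposition, over a finite measure space, of rotated
and modulated densities on the unit sphere of `R^(2m) = C^m`, each of the form `x ↦ G w x` times the
indicator function of an intersection of `N` half spaces, where `G w` is measurable, `|G w| ≤ 1` and
`G w` is almost everywhere on the sphere the radial limit of a pluriharmonic function
`F + conj F'`, `F` and `F'` holomorphic on the unit ball of `C^m`, bounded by one, has `L^p` norm at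
most `C^(1/p)` times the total mass of the measure space. -/
theorem result (m : ℕ) (hm : 2 ≤ m) (N : ℕ) (p : ℝ) (hp : 4 * (m : ℝ) / (2 * m - 1) < p) :
    ∃ C : ℝ≥0∞, C ≠ ∞ ∧ ∀ (W : Type) (_ : MeasurableSpace W) (ν : Measure W)
      (_ : IsFiniteMeasure ν) (R : W → (E (m + m) ≃ₗᵢ[ℝ] E (m + m))) (η : W → E (m + m))
      (G : W → E (m + m) → ℂ) (v : W → Fin N → E (m + m)) (c : W → Fin N → ℝ),
      (Measurable fun q : W × E (m + m) => R q.1 q.2) → Measurable η →
      (Measurable fun q : W × E (m + m) => G q.1 q.2) → Measurable v → Measurable c →
      (∀ w x, ‖G w x‖ ≤ 1) → (∀ w, PH m (G w)) →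
      ∫⁻ ξ, ‖extn (mix ν R η fun w x => G w x * ∏ i, hsn (c w i) (v w i) x) ξ‖ₑ ^ p ≤
        C * ν univ ^ p :=
  pluri hm N p hp

end Pool.Agent.MP_6cbfb8_an.PluriharmonicVariant
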