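import Pool.Agent.N1F.D1
import Pool.Agent.N1F.Fin

/-!
The restriction conjecture for the unit sphere of `R^n` in the full conjectured range
`p > 2n/(n-1)` for product densities `G₁(x₁) G₂(x₂)`, `G₁` and `G₂` arbitrary bounded measurable
functions of one variable, away from the equator `x₁² + x₂² = 1`, cut by half spaces, and for all
superpositions of rotated and modulated densities of this kind.
-/

namespace Pool.Agent.MP_6cbfb8_an.ProductDensitiesVariant

open MeasureTheory Set Pool.Agent.MP_6cbfb8_an Pool.Agent.N1 Pool.Agent.N1F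
open scoped ENNReal Real

/-- Let `n = 2 + l ≥ 3`, `p > 2n/(n-1)`, `c > 0`. There is a finite `C` such that the Fourier
transform of every superposition, over a finite measure space, of rotated and modulated densities
on the unit sphere of `R^n`, each of the form `G₁(x₁) G₂(x₂)` on the set `x₁² + x₂² < 1 - c²`
(and `0` outside this set), with arbitrary measurable functions `G₁, G₂ : ℝ → ℂ` bounded by `1`,
cut by `N` half spaces, has `L^p` norm at most `C^(1/p)` times the total mass of the measure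
space. -/
theorem result (l : ℕ) (hl : 1 ≤ l) (N : ℕ) (c p : ℝ) (hc : 0 < c)
    (hp : 2 * ((l : ℝ) + 2) / (l + 1) < p) :
    ∃ C : ℝ≥0∞, C ≠ ⊤ ∧ ∀ (W : Type) (_ : MeasurableSpace W) (ν : Measure W)
      (_ : IsFiniteMeasure ν) (R : W → (E (2 + l) ≃ₗᵢ[ℝ] E (2 + l))) (η : W → E (2 + l))
      (G₁ G₂ : W → ℝ → ℂ) (v : W → Fin N → E (2 + l)) (e : W → Fin N → ℝ),
      (Measurable fun q : W × E (2 + l) => R q.1 q.2) → Measurable η →
      (Measurable fun q : W × ℝ => G₁ q.1 q.2) → (Measurable fun q : W × ℝ => G₂ q.1 q.2) →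
      Measurable v → Measurable e → (∀ w z, ‖G₁ w z‖ ≤ 1) → (∀ w z, ‖G₂ w z‖ ≤ 1) →
      ∫⁻ ξ, ‖extn (mix ν R η fun w x =>
        dsk c (fun a b => G₁ w a * G₂ w b) (fstE x) * ∏ i, hsn (e w i) (v w i) x) ξ‖ₑ ^ p ≤
          C * ν univ ^ p :=
  Pool.Agent.FN.prods_main l hl N c p hc (FN_L4P_of c (L4P c hc)) hp

end Pool.Agent.MP_6cbfb8_an.ProductDensitiesVariant
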