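import Pool.Agent.MP_6cbfb8_an.LiftF

/-!
The restriction conjecture for the unit sphere of `R^(2+l)`, `l ≥ 1`, in the full range
`p > 2(l+2)/(l+1)`, for densities which are an arbitrary bounded measurable function of the polar
angle in the plane of the first two coordinates, cut by half spaces, and for all superpositions of
rotated and modulated densities of this kind.
-/

namespace Pool.Agent.MP_6cbfb8_an.RoughLongitudeVariant

open MeasureTheory Set Pool.Agent.MP_6cbfb8_an
open scoped ENNReal Real

/-- For `l ≥ 1`, `p > 2(l+2)/(l+1)` and every number `N` of half spaces there is a finite `C` such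
that the Fourier transform of every superposition, over a finite measure space, of rotated and
modulated densities on the unit sphere of `R^(2+l)`, each being an arbitrary measurable function
`h w`, `|h w| ≤ 1`, of the polar angle of `(x_1, x_2)` times the indicator function of an
intersection of `N` half spaces, has `L^p` norm at most `C^(1/p)` times the total mass of the
measure space. -/
theorem result (l : ℕ) (hl : 1 ≤ l) (N : ℕ) (p : ℝ) (hp : 2 * ((l : ℝ) + 2) / (l + 1) < p) :
    ∃ C : ℝ≥0∞, C ≠ ∞ ∧ ∀ (W : Type) (_ : MeasurableSpace W) (ν : Measure W)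
      (_ : IsFiniteMeasure ν) (R : W → (E (2 + l) ≃ₗᵢ[ℝ] E (2 + l))) (η : W → E (2 + l))
      (h : W → ℝ → ℂ) (v : W → Fin N → E (2 + l)) (c : W → Fin N → ℝ),
      (Measurable fun q : W × E (2 + l) => R q.1 q.2) → Measurable η →
      (Measurable fun q : W × ℝ => h q.1 q.2) → Measurable v → Measurable c →
      (∀ w t, ‖h w t‖ ≤ 1) →
      ∫⁻ ξ, ‖extn (mix ν R η fun w x => longi (h w) x * ∏ i, hsn (c w i) (v w i) x) ξ‖ₑ ^ p ≤
        C * ν univ ^ p := by
  obtain ⟨C, hC, H⟩ := longi_bound l hl N p hp
  refine ⟨C, hC, ?_⟩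
  intro W _ ν _ R η h v c hR hη hh hv hc hb
  have hp1 : 1 ≤ p := by
    have hl1 : (1:ℝ) ≤ l := by exact_mod_cast hl
    refine le_trans ?_ hp.le
    rw [le_div_iff₀ (by linarith)]
    linarith
  refine lintegral_mix_le hp1 (fun g => ∃ (h' : ℝ → ℂ) (v' : Fin N → E (2 + l))
    (c' : Fin N → ℝ), Measurable h' ∧ (∀ x, ‖h' x‖ ≤ 1) ∧
    g = fun x => longi h' x * ∏ i, hsn (c' i) (v' i) x) ?_ ν R η _ hR hη ?_ ?_ ?_
  · rintro g - - ⟨h', v', c', hm', hb', rfl⟩
    exact H h' hm' hb' v' c'
  · have h1 : Measurable fun q : W × E (2 + l) => longi (h q.1) q.2 :=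
      hh.comp (f := fun q : W × E (2 + l) =>
        (q.1, Complex.arg ⟨q.2 (Fin.castAdd l 0), q.2 (Fin.castAdd l 1)⟩))
        (measurable_fst.prodMk (measurable_longi_angle.comp measurable_snd))
    have h2 : Measurable fun q : W × E (2 + l) => ∏ i, hsn (c q.1 i) (v q.1 i) q.2 := by
      refine Finset.measurable_prod _ fun i _ => ?_
      unfold hsn
      refine Measurable.ite ?_ measurable_const measurable_const
      have h3 : Measurable fun q : W × E (2 + l) => c q.1 i :=
        (measurable_pi_iff.1 hc i).comp measurable_fst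
      have h4 : Measurable fun q : W × E (2 + l) => v q.1 i :=
        (measurable_pi_iff.1 hv i).comp measurable_fst
      exact measurableSet_lt h3 (measurable_snd.inner h4)
    exact h1.mul h2
  · intro w x
    rw [norm_mul]
    exact mul_le_one₀ (hb w _) (norm_nonneg _) (norm_prod_hsn_le _ _ _)
  · intro w
    exact ⟨h w, v w, c w, hh.comp (f := fun t : ℝ => (w, t)) (by fun_prop), hb w, rfl⟩

end Pool.Agent.MP_6cbfb8_an.RoughLongitudeVariant
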