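import Pool.Agent.MP_6cbfb8_an.Slice
import Pool.Agent.MP_6cbfb8_an.CylL2
import Pool.Agent.MP_6cbfb8_an.Moll
import Pool.Agent.MP_6cbfb8_an.Low

/-!
Estimates on dyadic shells.
-/

namespace Pool.Agent.MP_6cbfb8_an

open MeasureTheory Set
open scoped ENNReal Real RealInnerProductSpace

/-- Dyadic shell. -/
def shell (j : ℕ) (r : ℝ) : Set (E (j + 2)) := {y | r ≤ ‖y‖ ∧ ‖y‖ < 2 * r}

lemma measurableSet_shell (j : ℕ) (r : ℝ) : MeasurableSet (shell j r) := by
  unfold shell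
  exact (measurableSet_le measurable_const measurable_norm).inter
    (measurableSet_lt measurable_norm measurable_const)

lemma shell_subset (j : ℕ) (r : ℝ) : shell j r ⊆ Metric.ball (0 : E (j + 2)) (2 * r) := by
  intro y hy
  simpa using hy.2

/-- The part of `G` near the poles. -/
noncomputable def capPart {j : ℕ} (r : ℝ) (G : ℝ → E (j + 2) → ℂ) (θ : ℝ) (x : E (j + 2)) : ℂ :=
  if Real.sin θ < 1 / r then G θ x else 0

/-- The part of `G` away from the poles. -/
noncomputable def corePart {j : ℕ} (r : ℝ) (G : ℝ → E (j + 2) → ℂ) (θ : ℝ) (x : E (j + 2)) : ℂ :=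
  if Real.sin θ < 1 / r then 0 else G θ x

/-- The rough part. -/
noncomputable def highPart {j : ℕ} (r : ℝ) (G : ℝ → E (j + 2) → ℂ) (θ : ℝ) (x : E (j + 2)) : ℂ :=
  corePart r G θ x - moll r (corePart r G θ) x

section

variable {j : ℕ}

lemma measurable_capPart (r : ℝ) (G : ℝ → E (j + 2) → ℂ) (hG : Measurable (Function.uncurry G)) :
    Measurable (Function.uncurry (capPart r G)) := by
  have h : Function.uncurry (capPart r G) =
      fun q : ℝ × E (j + 2) => if Real.sin q.1 < 1 / r then Function.uncurry G q else 0 := by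
    ext q; rfl
  rw [h]
  exact Measurable.ite (measurableSet_lt (by fun_prop) measurable_const) hG measurable_const

lemma measurable_corePart (r : ℝ) (G : ℝ → E (j + 2) → ℂ) (hG : Measurable (Function.uncurry G)) :
    Measurable (Function.uncurry (corePart r G)) := by
  have h : Function.uncurry (corePart r G) =
      fun q : ℝ × E (j + 2) => if Real.sin q.1 < 1 / r then 0 else Function.uncurry G q := by
    ext q; rfl
  rw [h]
  exact Measurable.ite (measurableSet_lt (by fun_prop) measurable_const) measurable_const hG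

lemma norm_capPart_le (r : ℝ) (G : ℝ → E (j + 2) → ℂ) (hb : ∀ θ x, ‖G θ x‖ ≤ 1) (θ : ℝ)
    (x : E (j + 2)) : ‖capPart r G θ x‖ ≤ 1 := by
  unfold capPart
  split_ifs
  · exact hb _ _
  · simp

lemma norm_corePart_le (r : ℝ) (G : ℝ → E (j + 2) → ℂ) (hb : ∀ θ x, ‖G θ x‖ ≤ 1) (θ : ℝ)
    (x : E (j + 2)) : ‖corePart r G θ x‖ ≤ 1 := by
  unfold corePart
  split_ifs
  · simp
  · exact hb _ _

lemma measurable_core_slice (r : ℝ) (G : ℝ → E (j + 2) → ℂ) (hG : Measurable (Function.uncurry G))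
    (θ : ℝ) : Measurable (corePart r G θ) :=
  (measurable_corePart r G hG).comp (f := fun x : E (j + 2) => (θ, x)) (by fun_prop)

lemma norm_mollCore_le (r : ℝ) (G : ℝ → E (j + 2) → ℂ) (hG : Measurable (Function.uncurry G))
    (hb : ∀ θ x, ‖G θ x‖ ≤ 1) (θ : ℝ) (x : E (j + 2)) : ‖moll r (corePart r G θ) x‖ ≤ 1 :=
  norm_moll_le r _ (measurable_core_slice r G hG θ) (norm_corePart_le r G hb θ) x

lemma measurable_mollCore (r : ℝ) (G : ℝ → E (j + 2) → ℂ) (hG : Measurable (Function.uncurry G)) :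
    Measurable (Function.uncurry fun θ => moll r (corePart r G θ)) :=
  measurable_moll r (corePart r G) (measurable_corePart r G hG)

lemma measurable_highPart (r : ℝ) (G : ℝ → E (j + 2) → ℂ) (hG : Measurable (Function.uncurry G)) :
    Measurable (Function.uncurry (highPart r G)) :=
  (measurable_corePart r G hG).sub (measurable_mollCore r G hG)

lemma norm_highPart_le (r : ℝ) (G : ℝ → E (j + 2) → ℂ) (hG : Measurable (Function.uncurry G))
    (hb : ∀ θ x, ‖G θ x‖ ≤ 1) (θ : ℝ) (x : E (j + 2)) : ‖highPart r G θ x‖ ≤ 2 := by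
  unfold highPart
  refine (norm_sub_le _ _).trans ?_
  have h1 := norm_corePart_le r G hb θ x
  have h2 := norm_mollCore_le r G hG hb θ x
  linarith

lemma cyl_decomp (r : ℝ) (G : ℝ → E (j + 2) → ℂ) (hG : Measurable (Function.uncurry G))
    (hb : ∀ θ x, ‖G θ x‖ ≤ 1) (y : E (j + 2)) (z : ℝ) :
    cyl j G y z = cyl j (capPart r G) y z + cyl j (fun θ => moll r (corePart r G θ)) y z +
      cyl j (highPart r G) y z := by
  have h1 := cyl_add (capPart r G) (fun θ x => moll r (corePart r G θ) x)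
    (measurable_capPart r G hG) (measurable_mollCore r G hG) (norm_capPart_le r G hb)
    (norm_mollCore_le r G hG hb) y z
  have hm : Measurable (Function.uncurry fun θ x => capPart r G θ x + moll r (corePart r G θ) x) :=
    (measurable_capPart r G hG).add (measurable_mollCore r G hG)
  have hbd : ∀ θ x, ‖capPart r G θ x + moll r (corePart r G θ) x‖ ≤ 2 := fun θ x => by
    refine (norm_add_le _ _).trans ?_
    have h1 := norm_capPart_le r G hb θ x
    have h2 := norm_mollCore_le r G hG hb θ x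
    linarith
  have h2 := cyl_add (fun θ x => capPart r G θ x + moll r (corePart r G θ) x) (highPart r G)
    hm (measurable_highPart r G hG) hbd (norm_highPart_le r G hG hb) y z
  rw [h1] at h2
  rw [← h2]
  congr 1
  ext θ x
  unfold highPart capPart corePart
  split_ifs <;> ring

end

/-- The set of polar angles near the poles is small. -/
lemma volume_cap_le (r : ℝ) (hr : 1 ≤ r) :
    volume ({θ : ℝ | Real.sin θ < 1 / r} ∩ Ioo 0 π) ≤ ENNReal.ofReal (π / r) := by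
  have hr0 : 0 < r := by linarith
  have hsub : ({θ : ℝ | Real.sin θ < 1 / r} ∩ Ioo 0 π) ⊆
      Ioo 0 (π / (2 * r)) ∪ Ioo (π - π / (2 * r)) π := by
    rintro θ ⟨h1, h2, h3⟩
    simp only [mem_ofPred_eq] at h1
    by_cases hθ : θ ≤ π / 2
    · left
      refine ⟨h2, ?_⟩
      have := Real.mul_le_sin h2.le hθ
      have h4 : 2 / π * θ < 1 / r := lt_of_le_of_lt this h1
      have h5 : θ < (1 / r) * (π / 2) := by
        calc θ = (2 / π * θ) * (π / 2) := by field_simp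
          _ < (1 / r) * (π / 2) := by
            have := Real.pi_pos
            gcongr
      calc θ < (1 / r) * (π / 2) := h5
        _ = π / (2 * r) := by field_simp
    · right
      push Not at hθ
      refine ⟨?_, h3⟩
      have h6 : Real.sin θ = Real.sin (π - θ) := (Real.sin_pi_sub θ).symm
      have := Real.mul_le_sin (x := π - θ) (by linarith) (by linarith)
      have h4 : 2 / π * (π - θ) < 1 / r := by
        rw [h6] at h1
        exact lt_of_le_of_lt this h1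
      have h5 : π - θ < (1 / r) * (π / 2) := by
        calc π - θ = (2 / π * (π - θ)) * (π / 2) := by field_simp
          _ < (1 / r) * (π / 2) := by
            have := Real.pi_pos
            gcongr
      have h7 : (1 / r) * (π / 2) = π / (2 * r) := by field_simp
      linarith
  refine (measure_mono hsub).trans ((measure_union_le _ _).trans ?_)
  have hpos : 0 ≤ π / (2 * r) := by positivity
  rw [Real.volume_Ioo, Real.volume_Ioo, ← ENNReal.ofReal_add (by linarith) (by linarith)]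
  refine ENNReal.ofReal_le_ofReal ?_
  have : π / (2 * r) - 0 + (π - (π - π / (2 * r))) = π / r := by field_simp; ring
  linarith

lemma lintegral_cap_le {j : ℕ} (r : ℝ) (hr : 1 ≤ r) (G : ℝ → E (j + 2) → ℂ)
    (hb : ∀ θ x, ‖G θ x‖ ≤ 1) (t : ℝ) (ht : 0 < t) :
    ∫⁻ θ in Ioo 0 π, (∫⁻ ω : S (j + 2), ‖capPart r G θ ω‖ₑ ^ t ∂(sm (j + 2))) ≤
      sm (j + 2) univ * ENNReal.ofReal (π / r) := by
  have h1 : ∀ θ, (∫⁻ ω : S (j + 2), ‖capPart r G θ ω‖ₑ ^ t ∂(sm (j + 2))) ≤
      ({θ : ℝ | Real.sin θ < 1 / r}).indicator (fun _ => sm (j + 2) univ) θ := by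
    intro θ
    by_cases h : Real.sin θ < 1 / r
    · rw [indicator_of_mem (by exact h)]
      calc _ ≤ ∫⁻ ω : S (j + 2), 1 ∂(sm (j + 2)) := by
            refine lintegral_mono fun ω => ?_
            refine ENNReal.rpow_le_one ?_ ht.le
            rw [← ofReal_norm, ENNReal.ofReal_le_one]
            exact norm_capPart_le r G hb _ _
        _ = sm (j + 2) univ := by simp
    · rw [indicator_of_notMem (by exact h)]
      simp only [capPart, if_neg h]
      simp [ht]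
  calc _ ≤ ∫⁻ θ in Ioo 0 π, ({θ : ℝ | Real.sin θ < 1 / r}).indicator
        (fun _ => sm (j + 2) univ) θ := lintegral_mono h1
    _ = sm (j + 2) univ * volume ({θ : ℝ | Real.sin θ < 1 / r} ∩ Ioo 0 π) := by
        have hm : MeasurableSet {θ : ℝ | Real.sin θ < 1 / r} :=
          measurableSet_lt (by fun_prop) measurable_const
        rw [lintegral_indicator hm, Measure.restrict_restrict hm]
        simp
    _ ≤ _ := by
        gcongr
        exact volume_cap_le r hr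

/-- Supremum bound for the part near the poles. -/
lemma enorm_cyl_cap_le {j : ℕ} (r : ℝ) (hr : 1 ≤ r) (G : ℝ → E (j + 2) → ℂ)
    (hb : ∀ θ x, ‖G θ x‖ ≤ 1) (y : E (j + 2)) (z : ℝ) :
    ‖cyl j (capPart r G) y z‖ₑ ≤
      (sm (j + 2) univ * ENNReal.ofReal π) * ENNReal.ofReal (r ^ (-((j : ℝ) + 2))) := by
  have hr0 : 0 < r := by linarith
  refine (enorm_cyl_le _ y z).trans ?_
  have h1 : ∀ θ ∈ Ioo 0 π, (∫⁻ ω : S (j + 2), ‖capPart r G θ ω‖ₑ ∂(sm (j + 2))) *
      ENNReal.ofReal (Real.sin θ ^ (j + 1)) ≤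
      (∫⁻ ω : S (j + 2), ‖capPart r G θ ω‖ₑ ^ (1:ℝ) ∂(sm (j + 2))) *
        ENNReal.ofReal ((1 / r) ^ (j + 1)) := by
    intro θ hθ
    have hs : 0 ≤ Real.sin θ := Real.sin_nonneg_of_mem_Icc ⟨hθ.1.le, hθ.2.le⟩
    simp only [ENNReal.rpow_one]
    by_cases h : Real.sin θ < 1 / r
    · gcongr
    · simp only [capPart, if_neg h]
      simp
  calc _ ≤ ∫⁻ θ in Ioo 0 π, (∫⁻ ω : S (j + 2), ‖capPart r G θ ω‖ₑ ^ (1:ℝ) ∂(sm (j + 2))) *
        ENNReal.ofReal ((1 / r) ^ (j + 1)) := setLIntegral_mono' measurableSet_Ioo h1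
    _ = (∫⁻ θ in Ioo 0 π, (∫⁻ ω : S (j + 2), ‖capPart r G θ ω‖ₑ ^ (1:ℝ) ∂(sm (j + 2)))) *
        ENNReal.ofReal ((1 / r) ^ (j + 1)) := lintegral_mul_const' _ _ ENNReal.ofReal_ne_top
    _ ≤ (sm (j + 2) univ * ENNReal.ofReal (π / r)) * ENNReal.ofReal ((1 / r) ^ (j + 1)) := by
        gcongr
        exact lintegral_cap_le r hr G hb 1 one_pos
    _ = _ := by
        rw [mul_assoc, mul_assoc, ← ENNReal.ofReal_mul (by positivity),
          ← ENNReal.ofReal_mul (by positivity)]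
        congr 2
        rw [Real.rpow_neg hr0.le]
        have : (j : ℝ) + 2 = ((j + 2 : ℕ) : ℝ) := by push_cast; ring
        rw [this, Real.rpow_natCast, one_div, inv_pow, div_eq_mul_inv, pow_succ r (j + 1), mul_inv]
        ring

/-- `L^p` bound for the part near the poles on a dyadic shell. -/
theorem cap_shell (j : ℕ) (p : ℝ) (hp : 2 < p) : ∃ C : ℝ≥0∞, C ≠ ∞ ∧ ∀ r : ℝ, 1 ≤ r →
    ∀ G : ℝ → E (j + 2) → ℂ, Measurable (Function.uncurry G) → (∀ θ x, ‖G θ x‖ ≤ 1) →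
    ∫⁻ y in shell j r, ∫⁻ z, ‖cyl j (capPart r G) y z‖ₑ ^ p ≤
      C * ENNReal.ofReal (r ^ (-(((j : ℝ) + 2) * (p - 2)))) := by
  obtain ⟨C, hC, H⟩ := cyl_L2 j
  refine ⟨(sm (j + 2) univ * ENNReal.ofReal π) ^ (p - 2) * (C * (sm (j + 2) univ *
    ENNReal.ofReal π)), ?_, fun r hr G hG hb => ?_⟩
  · refine ENNReal.mul_ne_top (ENNReal.rpow_ne_top_of_nonneg (by linarith)
      (ENNReal.mul_ne_top (sm_univ_ne_top _) ENNReal.ofReal_ne_top)) ?_
    exact ENNReal.mul_ne_top hC (ENNReal.mul_ne_top (sm_univ_ne_top _) ENNReal.ofReal_ne_top)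
  have hr0 : 0 < r := by linarith
  have hm := measurable_cyl (capPart r G) (measurable_capPart r G hG)
  have hm' : Measurable fun q : E (j + 2) × ℝ => ‖cyl j (capPart r G) q.1 q.2‖ₑ := hm.enorm
  have e1 : ∀ t : ℝ, ∫⁻ y in shell j r, ∫⁻ z, ‖cyl j (capPart r G) y z‖ₑ ^ t =
      ∫⁻ q : E (j + 2) × ℝ, ‖cyl j (capPart r G) q.1 q.2‖ₑ ^ t
        ∂((volume.restrict (shell j r)).prod volume) := fun t =>
    (lintegral_prod _ (hm'.pow_const t).aemeasurable).symm
  rw [e1]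
  refine (lintegral_rpow_le_sup _ hm' (p' := 2) (by norm_num) hp.le _
    (fun q => enorm_cyl_cap_le r hr G hb q.1 q.2)).trans ?_
  rw [← e1]
  have h2 : ∫⁻ y in shell j r, ∫⁻ z, ‖cyl j (capPart r G) y z‖ₑ ^ (2:ℝ) ≤
      C * (sm (j + 2) univ * ENNReal.ofReal π) := by
    calc _ ≤ ∫⁻ y in Metric.ball (0 : E (j + 2)) (2 * r), ∫⁻ z, ‖cyl j (capPart r G) y z‖ₑ ^ (2:ℝ) :=
          lintegral_mono_set (shell_subset j r)
      _ ≤ C * ENNReal.ofReal r * ∫⁻ θ in Ioo 0 π, (∫⁻ ω : S (j + 2),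
            ‖capPart r G θ ω‖ₑ ^ (2:ℝ) ∂(sm (j + 2))) :=
          H r hr0 _ (measurable_capPart r G hG)
            (fun θ x => (norm_capPart_le r G hb θ x).trans (by norm_num))
      _ ≤ C * ENNReal.ofReal r * (sm (j + 2) univ * ENNReal.ofReal (π / r)) := by
          gcongr
          exact lintegral_cap_le r hr G hb 2 two_pos
      _ = C * (sm (j + 2) univ * (ENNReal.ofReal r * ENNReal.ofReal (π / r))) := by ring
      _ = _ := by
          rw [← ENNReal.ofReal_mul hr0.le]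
          congr 3
          field_simp
  calc _ ≤ ((sm (j + 2) univ * ENNReal.ofReal π) * ENNReal.ofReal (r ^ (-((j : ℝ) + 2)))) ^ (p - 2)
        * (C * (sm (j + 2) univ * ENNReal.ofReal π)) := by gcongr
    _ = _ := by
        rw [ENNReal.mul_rpow_of_nonneg _ _ (by linarith),
          ENNReal.ofReal_rpow_of_nonneg (by positivity) (by linarith), ← Real.rpow_mul hr0.le]
        have : -((j : ℝ) + 2) * (p - 2) = -(((j : ℝ) + 2) * (p - 2)) := by ring
        rw [this]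
        ring

/-- `L^p` bound for the smooth part on a dyadic shell. -/
theorem low_shell (j : ℕ) (p : ℝ) (hp2 : 2 < p) (hp4 : p < 4) (κ : ℝ) (hκ : 0 < κ) :
    ∃ C : ℝ≥0∞, C ≠ ∞ ∧ ∀ r : ℝ, 1 ≤ r →
    ∀ G : ℝ → E (j + 2) → ℂ, Measurable (Function.uncurry G) → (∀ θ x, ‖G θ x‖ ≤ 1) →
    ∫⁻ y in shell j r, ∫⁻ z, ‖cyl j (fun θ => moll r (corePart r G θ)) y z‖ₑ ^ p ≤
      C * ENNReal.ofReal (r ^ (((j : ℝ) + 3) - p * ((j : ℝ) + 2) / 2 + κ)) := by
  obtain ⟨C, hC, H⟩ := low_estimate j p hp2 hp4 κ hκ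
  refine ⟨sm (j + 2) univ * ENNReal.ofReal (2 ^ (j + 1)) * C, ?_, fun r hr G hG hb => ?_⟩
  · exact ENNReal.mul_ne_top (ENNReal.mul_ne_top (sm_univ_ne_top _) ENNReal.ofReal_ne_top) hC
  have hr0 : 0 < r := by linarith
  have hcore : ∀ θ ∈ Ioo 0 π, Real.sin θ < 1 / r → ∀ x, corePart r G θ x = 0 := by
    intro θ _ h x
    simp only [corePart, if_pos h]
  have hH := H r hr (corePart r G) (measurable_corePart r G hG) (norm_corePart_le r G hb) hcore
  set F := cyl j (fun θ => moll r (corePart r G θ)) with hF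
  have hm : Measurable fun q : E (j + 2) × ℝ => F q.1 q.2 :=
    measurable_cyl _ (measurable_mollCore r G hG)
  have hm2 : Measurable fun y : E (j + 2) => ∫⁻ z : ℝ, ‖F y z‖ₑ ^ p :=
    (hm.enorm.pow_const p).lintegral_prod_right'
  rw [← lintegral_indicator (measurableSet_shell j r)]
  rw [lintegral_polar (j + 1) _ (hm2.indicator (measurableSet_shell j r))]
  have h1 : ∀ ω : S (j + 2), (∫⁻ ρ in Ioi (0:ℝ),
      ((shell j r).indicator (fun y => ∫⁻ z : ℝ, ‖F y z‖ₑ ^ p)) (ρ • (ω : E (j + 2))) *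
        ENNReal.ofReal (ρ ^ (j + 1))) ≤
      ENNReal.ofReal ((2 * r) ^ (j + 1)) * (C * ENNReal.ofReal (r ^ (2 - p / 2 - p * (j + 1) / 2 + κ))) := by
    intro ω
    have hω : ‖(ω : E (j + 2))‖ = 1 := by simp
    calc _ ≤ ∫⁻ ρ in Ioi (0:ℝ), (Icc r (2 * r)).indicator (fun ρ =>
          ENNReal.ofReal ((2 * r) ^ (j + 1)) * ∫⁻ z : ℝ, ‖F (ρ • (ω : E (j + 2))) z‖ₑ ^ p) ρ := by
          refine setLIntegral_mono' measurableSet_Ioi fun ρ hρ => ?_
          have hρ0 : (0:ℝ) < ρ := hρ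
          by_cases hs : ρ • (ω : E (j + 2)) ∈ shell j r
          · have h2 : r ≤ ρ ∧ ρ < 2 * r := by
              have := hs
              simp only [shell, mem_ofPred_eq, norm_smul, hω, mul_one, Real.norm_eq_abs,
                abs_of_pos hρ0] at this
              exact this
            rw [indicator_of_mem hs, indicator_of_mem (by exact ⟨h2.1, h2.2.le⟩), mul_comm]
            gcongr
            exact h2.2.le
          · rw [indicator_of_notMem hs]
            simp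
      _ ≤ ∫⁻ ρ, (Icc r (2 * r)).indicator (fun ρ =>
          ENNReal.ofReal ((2 * r) ^ (j + 1)) * ∫⁻ z : ℝ, ‖F (ρ • (ω : E (j + 2))) z‖ₑ ^ p) ρ :=
          setLIntegral_le_lintegral _ _
      _ = ∫⁻ ρ in Icc r (2 * r),
          ENNReal.ofReal ((2 * r) ^ (j + 1)) * ∫⁻ z : ℝ, ‖F (ρ • (ω : E (j + 2))) z‖ₑ ^ p :=
          lintegral_indicator measurableSet_Icc _
      _ = ENNReal.ofReal ((2 * r) ^ (j + 1)) *
          ∫⁻ ρ in Icc r (2 * r), ∫⁻ z : ℝ, ‖F (ρ • (ω : E (j + 2))) z‖ₑ ^ p :=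
          lintegral_const_mul' _ _ ENNReal.ofReal_ne_top
      _ ≤ _ := by
          gcongr
          exact hH ω
  calc _ ≤ ∫⁻ ω : S (j + 2), ENNReal.ofReal ((2 * r) ^ (j + 1)) *
        (C * ENNReal.ofReal (r ^ (2 - p / 2 - p * (j + 1) / 2 + κ))) ∂(sm (j + 2)) :=
        lintegral_mono h1
    _ = ENNReal.ofReal ((2 * r) ^ (j + 1)) *
        (C * ENNReal.ofReal (r ^ (2 - p / 2 - p * (j + 1) / 2 + κ))) * sm (j + 2) univ := by simp
    _ = _ := by
        rw [mul_pow, ENNReal.ofReal_mul (by positivity)]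
        have h3 : ENNReal.ofReal (r ^ (((j : ℝ) + 3) - p * ((j : ℝ) + 2) / 2 + κ)) =
            ENNReal.ofReal (r ^ (j + 1)) *
              ENNReal.ofReal (r ^ (2 - p / 2 - p * (j + 1) / 2 + κ)) := by
          rw [← ENNReal.ofReal_mul (by positivity), ← Real.rpow_natCast r (j + 1),
            ← Real.rpow_add hr0]
          congr 2
          push_cast
          ring
        rw [h3]
        ring

/-- `L^p` bound for the rough part on a dyadic shell. -/
theorem high_shell (j : ℕ) (s p q : ℝ) (hs : 0 < s) (hp2 : 2 < p) (hpq : p < q)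
    (hq : 2 * ((j : ℝ) + 4) / (j + 2) < q) :
    ∃ C : ℝ≥0∞, C ≠ ∞ ∧ ∀ r : ℝ, 1 ≤ r →
    ∀ G : ℝ → E (j + 2) → ℂ, Measurable (Function.uncurry G) → (∀ θ x, ‖G θ x‖ ≤ 1) →
    (∫⁻ θ in Ioo 0 π, ENNReal.ofReal (Real.sin θ ^ j) *
        (∫⁻ ω : S (j + 2), (∫⁻ ω' : S (j + 2),
        ‖G θ ω - G θ ω'‖ₑ ^ (2:ℝ) / ENNReal.ofReal
          (‖(ω : E (j + 2)) - (ω' : E (j + 2))‖ ^ ((((j + 2 : ℕ) : ℝ)) - 1 + 2 * s))
          ∂(sm (j + 2))) ∂(sm (j + 2))) ≤ 1) →
    ∫⁻ y in shell j r, ∫⁻ z, ‖cyl j (highPart r G) y z‖ₑ ^ p ≤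
      C * ENNReal.ofReal (r ^ ((q - p) / (q - 2) - s * p / 2)) := by
  obtain ⟨C1, hC1, H1⟩ := cyl_L2w j
  obtain ⟨C2, hC2, H2⟩ := st_cyl j q hq
  obtain ⟨C3, hC3, H3⟩ := moll_L2 j s hs
  set a : ℝ := (q - p) / (q - 2) with ha
  have hq2 : 0 < q - 2 := by linarith
  have ha0 : 0 ≤ a := div_nonneg (by linarith) hq2.le
  have ha1 : a ≤ 1 := by
    rw [ha, div_le_one hq2]; linarith
  have hpa : p = 2 * a + q * (1 - a) := by
    rw [ha]; field_simp; ring
  refine ⟨(C1 * C3) ^ a * (C2 * C3 ^ (q / 2)) ^ (1 - a), ?_, fun r hr G hG hb hE => ?_⟩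
  · refine ENNReal.mul_ne_top (ENNReal.rpow_ne_top_of_nonneg ha0 (ENNReal.mul_ne_top hC1 hC3))
      (ENNReal.rpow_ne_top_of_nonneg (by linarith) (ENNReal.mul_ne_top hC2
        (ENNReal.rpow_ne_top_of_nonneg (by linarith) hC3)))
  have hr0 : 0 < r := by linarith
  have hmh := measurable_highPart r G hG
  have hbh := norm_highPart_le r G hG hb
  have hm' : Measurable fun q : E (j + 2) × ℝ => ‖cyl j (highPart r G) q.1 q.2‖ₑ :=
    (measurable_cyl (highPart r G) hmh).enorm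
  have e1 : ∀ t : ℝ, ∫⁻ y in shell j r, ∫⁻ z, ‖cyl j (highPart r G) y z‖ₑ ^ t =
      ∫⁻ q : E (j + 2) × ℝ, ‖cyl j (highPart r G) q.1 q.2‖ₑ ^ t
        ∂((volume.restrict (shell j r)).prod volume) := fun t =>
    (lintegral_prod _ (hm'.pow_const t).aemeasurable).symm
  -- size of the rough part
  have hη : ∫⁻ θ in Ioo 0 π, ENNReal.ofReal (Real.sin θ ^ j) *
      (∫⁻ ω : S (j + 2), ‖highPart r G θ ω‖ₑ ^ (2:ℝ) ∂(sm (j + 2))) ≤
      C3 * ENNReal.ofReal (r ^ (-s)) := by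
    calc _ ≤ ∫⁻ θ in Ioo 0 π, C3 * ENNReal.ofReal (r ^ (-s)) *
          (ENNReal.ofReal (Real.sin θ ^ j) * ∫⁻ ω : S (j + 2), (∫⁻ ω' : S (j + 2),
          ‖G θ ω - G θ ω'‖ₑ ^ (2:ℝ) / ENNReal.ofReal
            (‖(ω : E (j + 2)) - (ω' : E (j + 2))‖ ^ ((((j + 2 : ℕ) : ℝ)) - 1 + 2 * s))
            ∂(sm (j + 2))) ∂(sm (j + 2))) := by
          refine lintegral_mono fun θ => ?_
          simp only
          rw [mul_left_comm]
          refine mul_le_mul' le_rfl ?_
          refine (H3 r hr (corePart r G θ) (measurable_core_slice r G hG θ)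
            (norm_corePart_le r G hb θ)).trans ?_
          gcongr with ω ω'
          unfold corePart
          split_ifs
          · simp
          · exact le_rfl
      _ = C3 * ENNReal.ofReal (r ^ (-s)) * ∫⁻ θ in Ioo 0 π,
          ENNReal.ofReal (Real.sin θ ^ j) * (∫⁻ ω : S (j + 2), (∫⁻ ω' : S (j + 2),
          ‖G θ ω - G θ ω'‖ₑ ^ (2:ℝ) / ENNReal.ofReal
            (‖(ω : E (j + 2)) - (ω' : E (j + 2))‖ ^ ((((j + 2 : ℕ) : ℝ)) - 1 + 2 * s))
            ∂(sm (j + 2))) ∂(sm (j + 2))) :=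
          lintegral_const_mul' _ _ (ENNReal.mul_ne_top hC3 ENNReal.ofReal_ne_top)
      _ ≤ C3 * ENNReal.ofReal (r ^ (-s)) * 1 := by gcongr
      _ = _ := by rw [mul_one]
  have hL2 : ∫⁻ y in shell j r, ∫⁻ z, ‖cyl j (highPart r G) y z‖ₑ ^ (2:ℝ) ≤
      (C1 * C3) * (ENNReal.ofReal r * ENNReal.ofReal (r ^ (-s))) := by
    calc _ ≤ ∫⁻ y in Metric.ball (0 : E (j + 2)) (2 * r), ∫⁻ z, ‖cyl j (highPart r G) y z‖ₑ ^ (2:ℝ) :=
          lintegral_mono_set (shell_subset j r)
      _ ≤ C1 * ENNReal.ofReal r * (C3 * ENNReal.ofReal (r ^ (-s))) :=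
          (H1 r hr0 _ hmh hbh).trans (by gcongr)
      _ = _ := by ring
  have hLq : ∫⁻ y in shell j r, ∫⁻ z, ‖cyl j (highPart r G) y z‖ₑ ^ q ≤
      (C2 * C3 ^ (q / 2)) * ENNReal.ofReal (r ^ (-s)) ^ (q / 2) := by
    calc _ ≤ ∫⁻ y, ∫⁻ z, ‖cyl j (highPart r G) y z‖ₑ ^ q := setLIntegral_le_lintegral _ _
      _ ≤ C2 * (C3 * ENNReal.ofReal (r ^ (-s))) ^ (q / 2) := by
          refine (H2 _ hmh hbh).trans ?_
          have : 0 ≤ q / 2 := by linarith
          gcongr
      _ = _ := by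
          rw [ENNReal.mul_rpow_of_nonneg _ _ (by linarith)]
          ring
  rw [e1]
  refine (lintegral_interp _ hm' ha0 ha1 (by linarith) hpa).trans ?_
  rw [← e1, ← e1]
  calc _ ≤ ((C1 * C3) * (ENNReal.ofReal r * ENNReal.ofReal (r ^ (-s)))) ^ a *
        ((C2 * C3 ^ (q / 2)) * ENNReal.ofReal (r ^ (-s)) ^ (q / 2)) ^ (1 - a) := by
        have : 0 ≤ 1 - a := by linarith
        gcongr
    _ = _ := by
        have h1 : r * r ^ (-s) = r ^ (1 - s) := by
          rw [sub_eq_add_neg, Real.rpow_add hr0, Real.rpow_one]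
        have h5 : ENNReal.ofReal (r ^ (-s)) ^ (q / 2) = ENNReal.ofReal (r ^ (-s * (q / 2))) := by
          rw [ENNReal.ofReal_rpow_of_nonneg (by positivity) (by linarith), ← Real.rpow_mul hr0.le]
        rw [h5, ← ENNReal.ofReal_mul hr0.le, h1,
          ENNReal.mul_rpow_of_nonneg (C1 * C3) _ ha0,
          ENNReal.mul_rpow_of_nonneg (C2 * C3 ^ (q / 2)) _ (by linarith : (0:ℝ) ≤ 1 - a),
          ENNReal.ofReal_rpow_of_nonneg (by positivity) ha0,
          ENNReal.ofReal_rpow_of_nonneg (by positivity) (by linarith),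
          ← Real.rpow_mul hr0.le, ← Real.rpow_mul hr0.le]
        have h2 : ENNReal.ofReal (r ^ (a - s * p / 2)) = ENNReal.ofReal (r ^ ((1 - s) * a)) *
            ENNReal.ofReal (r ^ (-s * (q / 2) * (1 - a))) := by
          rw [← ENNReal.ofReal_mul (by positivity), ← Real.rpow_add hr0]
          congr 2
          rw [hpa]; ring
        rw [h2]
        ring

end Pool.Agent.MP_6cbfb8_an
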