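import Pool.Agent.MP_6cbfb8_an.Aux0

/-!
Elementary tools: measurability, linearity and bounds for the extension operator in polar
coordinates, interpolation of integrals.
-/

namespace Pool.Agent.MP_6cbfb8_an

open MeasureTheory Set
open scoped ENNReal Real RealInnerProductSpace

/-- The phase factor. -/
lemma norm_phase (t : ℝ) : ‖Complex.exp ((t : ℂ) * Complex.I)‖ = 1 := by
  rw [Complex.norm_exp_ofReal_mul_I]

lemma enorm_phase (t : ℝ) : ‖Complex.exp ((t : ℂ) * Complex.I)‖ₑ = 1 := by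
  rw [← ofReal_norm, norm_phase]; simp

lemma lintegral_interp {α : Type*} [MeasurableSpace α] {μ : Measure α} (f : α → ℝ≥0∞)
    (hf : Measurable f) {p q a : ℝ} (ha0 : 0 ≤ a) (ha1 : a ≤ 1)
    (hq : 0 ≤ q) (hp : p = 2 * a + q * (1 - a)) :
    ∫⁻ x, f x ^ p ∂μ ≤ (∫⁻ x, f x ^ (2:ℝ) ∂μ) ^ a * (∫⁻ x, f x ^ q ∂μ) ^ (1 - a) := by
  have h := ENNReal.lintegral_mul_norm_pow_le (μ := μ) (f := fun x => f x ^ (2:ℝ))
    (g := fun x => f x ^ q) (hf.pow_const _).aemeasurable (hf.pow_const _).aemeasurable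
    (p := a) (q := 1 - a) ha0 (by linarith) (by ring)
  refine le_trans (le_of_eq ?_) h
  refine lintegral_congr fun x => ?_
  rw [← ENNReal.rpow_mul, ← ENNReal.rpow_mul, hp,
    ENNReal.rpow_add_of_nonneg _ _ (by positivity) (mul_nonneg hq (by linarith))]

lemma lintegral_rpow_le_sup {α : Type*} [MeasurableSpace α] {μ : Measure α} (f : α → ℝ≥0∞)
    (hf : Measurable f) {p p' : ℝ} (hp' : 0 ≤ p') (hp : p' ≤ p) (M : ℝ≥0∞) (hM : ∀ x, f x ≤ M) :
    ∫⁻ x, f x ^ p ∂μ ≤ M ^ (p - p') * ∫⁻ x, f x ^ p' ∂μ := by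
  rw [← lintegral_const_mul _ (hf.pow_const _)]
  refine lintegral_mono fun x => ?_
  calc f x ^ p = f x ^ (p - p') * f x ^ p' := by
        rw [← ENNReal.rpow_add_of_nonneg _ _ (by linarith) hp']; congr 1; ring
    _ ≤ M ^ (p - p') * f x ^ p' := by
        gcongr
        exact hM x

lemma add_rpow_le_three {a b c : ℝ≥0∞} {p : ℝ} (hp : 0 ≤ p) :
    (a + b + c) ^ p ≤ 3 ^ p * (a ^ p + b ^ p + c ^ p) := by
  have h1 : a + b + c ≤ 3 * max a (max b c) := by
    have ha : a ≤ max a (max b c) := le_max_left _ _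
    have hb : b ≤ max a (max b c) := (le_max_left _ _).trans (le_max_right _ _)
    have hc : c ≤ max a (max b c) := (le_max_right _ _).trans (le_max_right _ _)
    calc a + b + c ≤ max a (max b c) + max a (max b c) + max a (max b c) := by gcongr
      _ = 3 * max a (max b c) := by ring
  calc (a + b + c) ^ p ≤ (3 * max a (max b c)) ^ p := by gcongr
    _ = 3 ^ p * (max a (max b c)) ^ p := ENNReal.mul_rpow_of_nonneg _ _ hp
    _ ≤ 3 ^ p * (a ^ p + b ^ p + c ^ p) := by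
        gcongr
        rcases max_choice a (max b c) with h | h <;> rw [h]
        · exact le_add_right (le_add_right le_rfl)
        · rcases max_choice b c with h' | h' <;> rw [h']
          · exact le_add_right (le_add_left le_rfl)
          · exact le_add_left le_rfl

section cyl

variable {j : ℕ}

lemma measurable_inner_coe {n : ℕ} : Measurable fun q : E n × S n =>
    (inner ℝ (q.2 : E n) q.1 : ℝ) := by
  have h : Continuous fun q : E n × S n => (inner ℝ (q.2 : E n) q.1 : ℝ) := by fun_prop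
  exact h.measurable

/-- The integrand of `cyl`. -/
noncomputable def cylI (G : ℝ → E (j + 2) → ℂ) (y : E (j + 2)) (z θ : ℝ) (ω : S (j + 2)) : ℂ :=
  G θ ω * Complex.exp (((-(2 * π * (Real.sin θ * inner ℝ (ω : E (j + 2)) y + z * Real.cos θ)) : ℝ) : ℂ)
      * Complex.I)

lemma measurable_cylI (G : ℝ → E (j + 2) → ℂ) (hG : Measurable (Function.uncurry G)) :
    Measurable fun q : ((E (j + 2) × ℝ) × ℝ) × S (j + 2) => cylI G q.1.1.1 q.1.1.2 q.1.2 q.2 := by
  unfold cylI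
  have h1 : Measurable fun q : ((E (j + 2) × ℝ) × ℝ) × S (j + 2) => G q.1.2 (q.2 : E (j + 2)) :=
    hG.comp (f := fun q : ((E (j + 2) × ℝ) × ℝ) × S (j + 2) => (q.1.2, (q.2 : E (j + 2))))
      (by fun_prop)
  have h2 : Measurable fun q : ((E (j + 2) × ℝ) × ℝ) × S (j + 2) =>
      (inner ℝ (q.2 : E (j + 2)) q.1.1.1 : ℝ) :=
    measurable_inner_coe.comp (f := fun q : ((E (j + 2) × ℝ) × ℝ) × S (j + 2) => (q.1.1.1, q.2))
      (by fun_prop)
  fun_prop

lemma measurable_cyl (G : ℝ → E (j + 2) → ℂ) (hG : Measurable (Function.uncurry G)) :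
    Measurable fun q : E (j + 2) × ℝ => cyl j G q.1 q.2 := by
  unfold cyl
  have h := (measurable_cylI G hG).stronglyMeasurable.integral_prod_right' (ν := sm (j + 2))
  have h2 : Measurable fun q : (E (j + 2) × ℝ) × ℝ =>
      (∫ ω : S (j + 2), cylI G q.1.1 q.1.2 q.2 ω ∂(sm (j + 2))) *
        ((Real.sin q.2 ^ (j + 1) : ℝ) : ℂ) := by
    refine h.measurable.mul ?_
    fun_prop
  exact (h2.stronglyMeasurable.integral_prod_right'
    (ν := (volume : Measure ℝ).restrict (Ioo 0 π))).measurable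

lemma integrable_cylI (G : ℝ → E (j + 2) → ℂ) (hG : Measurable (Function.uncurry G)) {B : ℝ}
    (hB : ∀ θ x, ‖G θ x‖ ≤ B) (y : E (j + 2)) (z θ : ℝ) :
    Integrable (cylI G y z θ) (sm (j + 2)) := by
  refine Integrable.of_bound (C := B) ?_ ?_
  · exact ((measurable_cylI G hG).comp (f := fun ω : S (j + 2) => (((y, z), θ), ω))
      (by fun_prop)).aestronglyMeasurable
  · refine Filter.Eventually.of_forall fun ω => ?_
    rw [cylI, norm_mul, norm_phase, mul_one]
    exact hB _ _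

lemma norm_inner_integral_le (G : ℝ → E (j + 2) → ℂ) {B : ℝ}
    (hB : ∀ θ x, ‖G θ x‖ ≤ B) (y : E (j + 2)) (z θ : ℝ) :
    ‖∫ ω : S (j + 2), cylI G y z θ ω ∂(sm (j + 2))‖ ≤ B * (sm (j + 2)).real univ := by
  refine norm_integral_le_of_norm_le_const ?_
  refine Filter.Eventually.of_forall fun ω => ?_
  rw [cylI, norm_mul, norm_phase, mul_one]
  exact hB _ _

lemma integrable_outer (G : ℝ → E (j + 2) → ℂ) (hG : Measurable (Function.uncurry G)) {B : ℝ}
    (hB : ∀ θ x, ‖G θ x‖ ≤ B) (y : E (j + 2)) (z : ℝ) :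
    Integrable (fun θ => (∫ ω : S (j + 2), cylI G y z θ ω ∂(sm (j + 2))) *
      ((Real.sin θ ^ (j + 1) : ℝ) : ℂ)) ((volume : Measure ℝ).restrict (Ioo 0 π)) := by
  have hB0 : 0 ≤ B := (norm_nonneg _).trans (hB 0 0)
  refine Integrable.of_bound (C := B * (sm (j + 2)).real univ * 1) ?_ ?_
  · have h := (measurable_cylI G hG).stronglyMeasurable.integral_prod_right' (ν := sm (j + 2))
    have h2 : Measurable fun q : (E (j + 2) × ℝ) × ℝ =>
        (∫ ω : S (j + 2), cylI G q.1.1 q.1.2 q.2 ω ∂(sm (j + 2))) *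
          ((Real.sin q.2 ^ (j + 1) : ℝ) : ℂ) := by
      refine h.measurable.mul ?_
      fun_prop
    exact (h2.comp (f := fun θ : ℝ => ((y, z), θ)) (by fun_prop)).aestronglyMeasurable
  · refine Filter.Eventually.of_forall fun θ => ?_
    rw [norm_mul]
    refine mul_le_mul (norm_inner_integral_le G hB y z θ) ?_ (norm_nonneg _) (by positivity)
    rw [Complex.norm_real, Real.norm_eq_abs, abs_pow]
    exact pow_le_one₀ (abs_nonneg _) (Real.abs_sin_le_one θ)

lemma cyl_add (G₁ G₂ : ℝ → E (j + 2) → ℂ) (hG₁ : Measurable (Function.uncurry G₁))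
    (hG₂ : Measurable (Function.uncurry G₂)) {B₁ B₂ : ℝ}
    (hB₁ : ∀ θ x, ‖G₁ θ x‖ ≤ B₁) (hB₂ : ∀ θ x, ‖G₂ θ x‖ ≤ B₂) (y : E (j + 2)) (z : ℝ) :
    cyl j (fun θ x => G₁ θ x + G₂ θ x) y z = cyl j G₁ y z + cyl j G₂ y z := by
  unfold cyl
  refine Eq.trans ?_ (integral_add (integrable_outer G₁ hG₁ hB₁ y z)
    (integrable_outer G₂ hG₂ hB₂ y z))
  refine integral_congr_ae (Filter.Eventually.of_forall fun θ => ?_)
  simp only
  rw [← add_mul]
  congr 1
  have h1 := integrable_cylI G₁ hG₁ hB₁ y z θ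
  have h2 := integrable_cylI G₂ hG₂ hB₂ y z θ
  refine Eq.trans ?_ (integral_add h1 h2)
  refine integral_congr_ae (Filter.Eventually.of_forall fun ω => ?_)
  simp only
  ring

lemma enorm_cyl_le (G : ℝ → E (j + 2) → ℂ) (y : E (j + 2)) (z : ℝ) :
    ‖cyl j G y z‖ₑ ≤ ∫⁻ θ in Ioo 0 π, (∫⁻ ω : S (j + 2), ‖G θ ω‖ₑ ∂(sm (j + 2))) *
      ENNReal.ofReal (Real.sin θ ^ (j + 1)) := by
  unfold cyl
  refine (enorm_integral_le_lintegral_enorm _).trans ?_
  refine setLIntegral_mono' measurableSet_Ioo fun θ hθ => ?_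
  rw [enorm_mul]
  gcongr ?_ * ?_
  · refine (enorm_integral_le_lintegral_enorm _).trans (le_of_eq ?_)
    refine lintegral_congr fun ω => ?_
    rw [enorm_mul, enorm_phase, mul_one]
  · rw [← ofReal_norm, Complex.norm_real, Real.norm_eq_abs, abs_of_nonneg]
    exact pow_nonneg (Real.sin_nonneg_of_mem_Icc ⟨hθ.1.le, hθ.2.le⟩) _

end cyl

lemma sm_univ_ne_top (n : ℕ) : sm n univ ≠ ∞ := measure_ne_top _ _

end Pool.Agent.MP_6cbfb8_an
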